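import Mathlib

/-!
# MP_9a8698_nt: k-smooth integers in intervals of length k: all exponents 1 < α < 7/4

Definitions. All Dirichlet polynomials live on the line `Re s = 1`.
-/

set_option autoImplicit false

open Finset

namespace Pool.Agent.Lib.MP_9a8698_nt

/-- The Dirichlet polynomial `∑_{n ∈ s} c(n) n^(-1-it)`. -/
noncomputable def DP (s : Finset ℕ) (c : ℕ → ℝ) (t : ℝ) : ℂ :=
  ∑ n ∈ s, ((c n / n : ℝ) : ℂ) * Complex.exp (((-(t * Real.log n) : ℝ) : ℂ) * Complex.I)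

/-- The `r`-fold divisor function (as a real number). -/
noncomputable def dd (r n : ℕ) : ℝ :=
  (((ArithmeticFunction.zeta : ArithmeticFunction ℕ) ^ r) n : ℝ)

/-- The Gaussian probability density with precision `τ`. -/
noncomputable def gs (τ x : ℝ) : ℝ := τ / Real.sqrt (2 * Real.pi) * Real.exp (-((τ * x) ^ 2 / 2))

/-- The sum of `c(n)/n` against the Gaussian density with precision `τ` centred at `u`. -/
noncomputable def JD (s : Finset ℕ) (c : ℕ → ℝ) (τ u : ℝ) : ℝ :=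
  ∑ n ∈ s, c n / n * gs τ (Real.log n - u)

/-- `f` is a Dirichlet polynomial with support in `[N, M]` and coefficients at most `B d_r(n)`. -/
def IsDP (r : ℕ) (B N M : ℝ) (f : ℝ → ℂ) : Prop :=
  ∃ (s : Finset ℕ) (c : ℕ → ℝ),
    (∀ n ∈ s, 1 ≤ n ∧ N ≤ (n : ℝ) ∧ (n : ℝ) ≤ M ∧ |c n| ≤ B * dd r n) ∧ ∀ t, f t = DP s c t

/-- The primes `q` with `k^a < q ≤ k^b`. -/
noncomputable def Qs (k a b : ℝ) : Finset ℕ := (Ioc ⌊k ^ a⌋₊ ⌊k ^ b⌋₊).filter Nat.Prime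

/-- The integers `m` with `k^a < m ≤ k^b`. -/
noncomputable def Ms (k a b : ℝ) : Finset ℕ := Ioc ⌊k ^ a⌋₊ ⌊k ^ b⌋₊

/-- `∑ 1/q` over the primes `k^a < q ≤ k^b`. -/
noncomputable def LL (k a b : ℝ) : ℝ := ∑ q ∈ Qs k a b, (1 : ℝ) / q

/-- The triple sum `∑ Λ(l)/(q m l) g_τ(log(q m l) - u)` over primes `k^ε₁ < q ≤ k^ε₂`,
integers `k^μ < m ≤ k^(μ+lam)` and `k^(1/2) < l ≤ k^2`. -/
noncomputable def JT (k ε₁ ε₂ μ lam τ u : ℝ) : ℝ :=
  ∑ q ∈ Qs k ε₁ ε₂, ∑ m ∈ Ms k μ (μ + lam), ∑ l ∈ Ms k (1 / 2) 2,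
    ArithmeticFunction.vonMangoldt l / ((q : ℝ) * m * l) *
      gs τ (Real.log q + Real.log m + Real.log l - u)

/-- The Dirichlet polynomials of the three variables. -/
noncomputable def Wf (k ε₁ ε₂ : ℝ) (t : ℝ) : ℂ := DP (Qs k ε₁ ε₂) (fun _ => 1) t
noncomputable def Mf (k μ lam : ℝ) (t : ℝ) : ℂ := DP (Ms k μ (μ + lam)) (fun _ => 1) t
noncomputable def Pf (k : ℝ) (t : ℝ) : ℂ :=
  DP (Ms k (1 / 2) 2) (fun l => ArithmeticFunction.vonMangoldt l) t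

/-- The count with weights `Λ(l)` of the triples `(q, m, l)` with `n < q m l ≤ n + k`. -/
noncomputable def AA (k ε₁ ε₂ μ lam : ℝ) (n h : ℕ) : ℝ :=
  ∑ q ∈ Qs k ε₁ ε₂, ∑ m ∈ Ms k μ (μ + lam), ∑ l ∈ Ms k (1 / 2) 2,
    if n < q * m * l ∧ q * m * l ≤ n + h then ArithmeticFunction.vonMangoldt l else 0

end Pool.Agent.Lib.MP_9a8698_nt
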