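import Mathlib

section

/-!
The van der Corput (Weyl differencing) inequality.
-/

open Finset Complex
open scoped ComplexConjugate

namespace Pool.Agent.Lib.H62

/-- sum over a window of integers of a function supported on `Ico A B`. -/
theorem sum_shift_window (Z : ℤ → ℂ) (A B c e : ℤ) (hZ : ∀ x, x ∉ Ico A B → Z x = 0)
    (h1 : c ≤ A) (h2 : B ≤ e) : ∑ x ∈ Ico c e, Z x = ∑ x ∈ Ico A B, Z x := by
  symm
  apply Finset.sum_subset
  · intro x hx
    rw [mem_Ico] at hx ⊢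
    omega
  · intro x _ hx2
    exact hZ x hx2

theorem sum_Ico_shift (Z : ℤ → ℂ) (c e h : ℤ) :
    ∑ y ∈ Ico c e, Z (y + h) = ∑ x ∈ Ico (c + h) (e + h), Z x := by
  rw [← Finset.map_add_right_Ico, Finset.sum_map]
  simp

/-- The correlation. -/
noncomputable def corr (Z : ℤ → ℂ) (A B : ℤ) (d : ℕ) : ℝ :=
  ‖∑ x ∈ Ico A (B - d), Z (x + d) * conj (Z x)‖

theorem corr_eq (Z : ℤ → ℂ) (A B : ℤ) (H : ℕ) (hZ : ∀ x, x ∉ Ico A B → Z x = 0)
    (h h' : ℕ) (hh : h' ≤ h) (hH : h < H) :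
    ‖∑ y ∈ Ico (A - H) B, Z (y + h) * conj (Z (y + h'))‖ = corr Z A B (h - h') := by
  unfold corr
  congr 1
  have e1 : ∀ y : ℤ, Z (y + h) * conj (Z (y + h')) =
      (fun x : ℤ => Z (x + ((h - h' : ℕ) : ℤ)) * conj (Z x)) (y + h') := by
    intro y
    simp only
    rw [Nat.cast_sub hh]
    congr 2
    ring
  rw [Finset.sum_congr rfl (fun y _ => e1 y),
    sum_Ico_shift (fun x : ℤ => Z (x + ((h - h' : ℕ) : ℤ)) * conj (Z x)) _ _ (h' : ℤ)]
  apply sum_shift_window
  · intro x hx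
    simp only [mem_Ico, not_and, not_lt] at hx
    by_cases hxA : A ≤ x
    · have h3 := hx hxA
      have : Z (x + ((h - h' : ℕ) : ℤ)) = 0 := by
        apply hZ
        rw [mem_Ico]
        omega
      rw [this, zero_mul]
    · have : Z x = 0 := by
        apply hZ
        rw [mem_Ico]
        omega
      rw [this]; simp
  · omega
  · omega

theorem corr_symm (Z : ℤ → ℂ) (A B : ℤ) (H : ℕ) (hZ : ∀ x, x ∉ Ico A B → Z x = 0)
    (h h' : ℕ) (hh : h ≤ h') (hH : h' < H) :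
    ‖∑ y ∈ Ico (A - H) B, Z (y + h) * conj (Z (y + h'))‖ = corr Z A B (h' - h) := by
  rw [← corr_eq Z A B H hZ h' h hh hH]
  rw [← Complex.norm_conj, map_sum]
  congr 1
  apply Finset.sum_congr rfl
  intro y _
  rw [map_mul, Complex.conj_conj, mul_comm]

theorem double_sum_le (C : ℕ → ℝ) (hC : ∀ d, 0 ≤ C d) (H : ℕ) :
    ∑ h ∈ range H, ∑ h' ∈ range H, (if h' ≤ h then C (h - h') else C (h' - h)) ≤
      H * (C 0 + 2 * ∑ d ∈ Ico 1 H, C d) := by
  have hrow : ∀ h ∈ range H, ∑ h' ∈ range H, (if h' ≤ h then C (h - h') else C (h' - h)) ≤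
      C 0 + 2 * ∑ d ∈ Ico 1 H, C d := by
    intro h hh
    rw [mem_range] at hh
    rw [Finset.sum_ite]
    have e1 : ∑ h' ∈ (range H).filter (fun h' => h' ≤ h), C (h - h') ≤
        C 0 + ∑ d ∈ Ico 1 H, C d := by
      have : ∑ h' ∈ (range H).filter (fun h' => h' ≤ h), C (h - h') =
          ∑ d ∈ range (h + 1), C d := by
        apply Finset.sum_bij' (fun h' _ => h - h') (fun d _ => h - d)
        · intro a ha; simp only [mem_filter, mem_range] at ha ⊢; omega
        · intro a ha; simp only [mem_filter, mem_range] at ha ⊢; omega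
        · intro a ha; simp only [mem_filter, mem_range] at ha ⊢; omega
        · intro a ha; simp only [mem_range] at ha ⊢; omega
        · intro a ha; rfl
      rw [this, Finset.sum_range_succ', add_comm]
      have : ∑ k ∈ range h, C (k + 1) ≤ ∑ d ∈ Ico 1 H, C d := by
        rw [Finset.sum_Ico_eq_sum_range]
        calc ∑ k ∈ range h, C (k + 1) = ∑ k ∈ range h, C (1 + k) := by
              apply Finset.sum_congr rfl; intro k _; rw [add_comm]
          _ ≤ ∑ k ∈ range (H - 1), C (1 + k) := by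
              apply Finset.sum_le_sum_of_subset_of_nonneg
              · intro k hk; rw [mem_range] at hk ⊢; omega
              · intro k _ _; exact hC _
      linarith
    have e2 : ∑ h' ∈ (range H).filter (fun h' => ¬ h' ≤ h), C (h' - h) ≤ ∑ d ∈ Ico 1 H, C d := by
      have : ∑ h' ∈ (range H).filter (fun h' => ¬ h' ≤ h), C (h' - h) =
          ∑ d ∈ Ico 1 (H - h), C d := by
        apply Finset.sum_bij' (fun h' _ => h' - h) (fun d _ => h + d)
        · intro a ha; simp only [mem_filter, mem_range, mem_Ico] at ha ⊢; omega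
        · intro a ha; simp only [mem_filter, mem_range, mem_Ico] at ha ⊢; omega
        · intro a ha; simp only [mem_filter, mem_range] at ha ⊢; omega
        · intro a ha; simp only [mem_Ico] at ha ⊢; omega
        · intro a ha; rfl
      rw [this]
      apply Finset.sum_le_sum_of_subset_of_nonneg
      · intro k hk; rw [mem_Ico] at hk ⊢; omega
      · intro k _ _; exact hC _
    linarith
  calc _ ≤ ∑ h ∈ range H, (C 0 + 2 * ∑ d ∈ Ico 1 H, C d) := Finset.sum_le_sum hrow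
    _ = _ := by rw [Finset.sum_const, card_range, nsmul_eq_mul]

/-- van der Corput's inequality over the integers. -/
theorem vdc_int (Z : ℤ → ℂ) (A B : ℤ) (hAB : A ≤ B) (H : ℕ) (hH : 1 ≤ H)
    (hZ : ∀ x, x ∉ Ico A B → Z x = 0) :
    (H : ℝ) * ‖∑ x ∈ Ico A B, Z x‖ ^ 2 ≤ ((B - A : ℤ) + H : ℝ) *
      (corr Z A B 0 + 2 * ∑ d ∈ Ico 1 H, corr Z A B d) := by
  have hH0 : (0 : ℝ) < H := by exact_mod_cast hH
  set S := ∑ x ∈ Ico A B, Z x with hS
  have h1 : ∀ h ∈ range H, ∑ y ∈ Ico (A - H) B, Z (y + h) = S := by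
    intro h hh
    rw [mem_range] at hh
    rw [sum_Ico_shift]
    apply sum_shift_window _ _ _ _ _ hZ
    · omega
    · omega
  have h2 : (H : ℂ) * S = ∑ y ∈ Ico (A - H) B, ∑ h ∈ range H, Z (y + h) := by
    rw [Finset.sum_comm, Finset.sum_congr rfl h1, Finset.sum_const, card_range, nsmul_eq_mul]
  have h3 : (H : ℝ) ^ 2 * ‖S‖ ^ 2 ≤ (#(Ico (A - H) B) : ℝ) *
      ∑ y ∈ Ico (A - H) B, ‖∑ h ∈ range H, Z (y + h)‖ ^ 2 := by
    have e1 : (H : ℝ) ^ 2 * ‖S‖ ^ 2 = ‖(H : ℂ) * S‖ ^ 2 := by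
      rw [norm_mul, Complex.norm_natCast]; ring
    rw [e1, h2]
    calc _ ≤ (∑ y ∈ Ico (A - H) B, ‖∑ h ∈ range H, Z (y + h)‖) ^ 2 := by
          gcongr
          exact norm_sum_le _ _
      _ ≤ _ := sq_sum_le_card_mul_sum_sq
  have h4 : ∑ y ∈ Ico (A - H) B, ‖∑ h ∈ range H, Z (y + h)‖ ^ 2 ≤
      ∑ h ∈ range H, ∑ h' ∈ range H,
        (if h' ≤ h then corr Z A B (h - h') else corr Z A B (h' - h)) := by
    have e1 : ((∑ y ∈ Ico (A - H) B, ‖∑ h ∈ range H, Z (y + h)‖ ^ 2 : ℝ) : ℂ) =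
        ∑ h ∈ range H, ∑ h' ∈ range H, ∑ y ∈ Ico (A - H) B, Z (y + h) * conj (Z (y + h')) := by
      push_cast
      have : ∀ y ∈ Ico (A - H) B, ((‖∑ h ∈ range H, Z (y + h)‖ : ℝ) : ℂ) ^ 2 =
          ∑ h ∈ range H, ∑ h' ∈ range H, Z (y + h) * conj (Z (y + h')) := by
        intro y _
        rw [← Complex.mul_conj', map_sum, Finset.sum_mul_sum]
      rw [Finset.sum_congr rfl this, Finset.sum_comm]
      apply Finset.sum_congr rfl
      intro h _
      rw [Finset.sum_comm]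
    have e2 : ∑ y ∈ Ico (A - H) B, ‖∑ h ∈ range H, Z (y + h)‖ ^ 2 =
        ‖((∑ y ∈ Ico (A - H) B, ‖∑ h ∈ range H, Z (y + h)‖ ^ 2 : ℝ) : ℂ)‖ := by
      rw [Complex.norm_real, Real.norm_eq_abs, abs_of_nonneg]
      exact Finset.sum_nonneg fun _ _ => by positivity
    rw [e2, e1]
    refine (norm_sum_le _ _).trans (Finset.sum_le_sum fun h hh => ?_)
    refine (norm_sum_le _ _).trans (Finset.sum_le_sum fun h' hh' => ?_)
    rw [mem_range] at hh hh'
    split_ifs with hle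
    · exact (corr_eq Z A B H hZ h h' hle hh).le
    · exact (corr_symm Z A B H hZ h h' (by omega) hh').le
  have h5 := double_sum_le (corr Z A B) (fun d => norm_nonneg _) H
  have h6 : (#(Ico (A - H) B) : ℝ) = ((B - A : ℤ) + H : ℝ) := by
    rw [Int.card_Ico]
    have : ((B - (A - H)).toNat : ℤ) = B - A + H := by
      rw [Int.toNat_of_nonneg (by omega)]; ring
    exact_mod_cast this
  have h7 : 0 ≤ ((B - A : ℤ) + H : ℝ) := by rw [← h6]; positivity
  have h8 : (H : ℝ) * (H * ‖S‖ ^ 2) ≤ H * (((B - A : ℤ) + H : ℝ) *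
      (corr Z A B 0 + 2 * ∑ d ∈ Ico 1 H, corr Z A B d)) := by
    calc (H : ℝ) * (H * ‖S‖ ^ 2) = (H : ℝ) ^ 2 * ‖S‖ ^ 2 := by ring
      _ ≤ _ := h3
      _ ≤ ((B - A : ℤ) + H : ℝ) * (H * (corr Z A B 0 + 2 * ∑ d ∈ Ico 1 H, corr Z A B d)) := by
          rw [h6]
          apply mul_le_mul_of_nonneg_left (h4.trans h5) h7
      _ = _ := by ring
  exact le_of_mul_le_mul_left h8 hH0

/-- The exponential sum `∑_{a ≤ x < b} e^{iφ(x)}`. -/
noncomputable def ES (φ : ℕ → ℝ) (a b : ℕ) : ℂ := ∑ x ∈ Ico a b, Complex.exp (φ x * I)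

theorem norm_ES_le (φ : ℕ → ℝ) (a b : ℕ) : ‖ES φ a b‖ ≤ ((b - a : ℕ) : ℝ) := by
  unfold ES
  refine (norm_sum_le _ _).trans ?_
  simp [Complex.norm_exp_ofReal_mul_I]

/-- van der Corput's inequality for unimodular sums over an interval of naturals. -/
theorem vdc (φ : ℕ → ℝ) (a b : ℕ) (hab : a ≤ b) (H : ℕ) (hH : 1 ≤ H) :
    (H : ℝ) * ‖ES φ a b‖ ^ 2 ≤ (((b - a : ℕ) : ℝ) + H) *
      (((b - a : ℕ) : ℝ) + 2 * ∑ d ∈ Ico 1 H, ‖ES (fun x => φ (x + d) - φ x) a (b - d)‖) := by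
  classical
  set Z : ℤ → ℂ := fun x => if (a : ℤ) ≤ x ∧ x < b then Complex.exp (φ x.toNat * I) else 0
    with hZdef
  have hZ : ∀ x, x ∉ Ico (a : ℤ) (b : ℤ) → Z x = 0 := by
    intro x hx
    rw [mem_Ico] at hx
    simp only [hZdef]
    rw [if_neg hx]
  have hcast : ∀ (F : ℤ → ℂ) (e : ℕ), ∑ x ∈ Ico (a : ℤ) (e : ℤ), F x = ∑ x ∈ Ico a e, F x := by
    intro F e
    have : Ico (a : ℤ) (e : ℤ) = (Ico a e).map Nat.castEmbedding := by
      ext x
      simp only [mem_Ico, mem_map, Nat.castEmbedding_apply]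
      constructor
      · rintro ⟨h1, h2⟩
        exact ⟨x.toNat, by omega, by omega⟩
      · rintro ⟨y, hy, rfl⟩
        omega
    rw [this, Finset.sum_map]
    simp
  have h1 := vdc_int Z a b (by exact_mod_cast hab) H hH hZ
  have h2 : ∑ x ∈ Ico (a : ℤ) (b : ℤ), Z x = ES φ a b := by
    rw [hcast]
    unfold ES
    apply Finset.sum_congr rfl
    intro x hx
    rw [mem_Ico] at hx
    simp only [hZdef]
    rw [if_pos (by omega)]
    simp
  have h3 : ∀ d : ℕ, corr Z a b d = ‖ES (fun x => φ (x + d) - φ x) a (b - d)‖ := by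
    intro d
    unfold corr
    rcases le_or_gt d b with hd | hd
    · have e1 : (b : ℤ) - d = ((b - d : ℕ) : ℤ) := by rw [Nat.cast_sub hd]
      rw [e1, hcast]
      unfold ES
      congr 1
      apply Finset.sum_congr rfl
      intro x hx
      rw [mem_Ico] at hx
      simp only [hZdef]
      rw [if_pos (by omega), if_pos (by omega)]
      have e2 : ((x : ℤ) + d).toNat = x + d := by omega
      have e3 : ((x : ℤ)).toNat = x := by omega
      rw [e2, e3, ← Complex.exp_conj, map_mul, Complex.conj_I, Complex.conj_ofReal,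
        ← Complex.exp_add]
      congr 1
      push_cast
      ring
    · have e1 : Ico (a : ℤ) ((b : ℤ) - d) = ∅ := by
        apply Finset.Ico_eq_empty
        omega
      have e2 : Ico a (b - d) = ∅ := by
        apply Finset.Ico_eq_empty
        omega
      unfold ES
      rw [e1, e2]
      simp
  have h4 : corr Z a b 0 ≤ ((b - a : ℕ) : ℝ) := by
    rw [h3 0]
    simpa using norm_ES_le (fun x => φ (x + 0) - φ x) a (b - 0)
  rw [h2] at h1
  have e5 : (((b : ℤ) - (a : ℤ) : ℤ) : ℝ) = ((b - a : ℕ) : ℝ) := by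
    rw [Nat.cast_sub hab]; push_cast; ring
  rw [e5] at h1
  refine h1.trans ?_
  gcongr with d hd
  exact (h3 d).le

end Pool.Agent.Lib.H62
end

section

section

/-!
The Kusmin–Landau inequality for unimodular exponential sums with antitone increments in
`[θ, π]`.
-/

open Finset Complex

namespace Pool.Agent.Lib.H62

/-- `c(D) = cot(D/2)`. -/
noncomputable def hcot (D : ℝ) : ℝ := Real.cos (D / 2) / Real.sin (D / 2)

theorem sin_half_pos {D : ℝ} (h0 : 0 < D) (h1 : D ≤ Real.pi) : 0 < Real.sin (D / 2) :=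
  Real.sin_pos_of_pos_of_lt_pi (by linarith) (by linarith [Real.pi_pos])

theorem hcot_nonneg {D : ℝ} (h0 : 0 < D) (h1 : D ≤ Real.pi) : 0 ≤ hcot D := by
  unfold hcot
  have h2 := sin_half_pos h0 h1
  have h3 : 0 ≤ Real.cos (D / 2) :=
    Real.cos_nonneg_of_neg_pi_div_two_le_of_le (by linarith [Real.pi_pos]) (by linarith)
  positivity

theorem hcot_anti {D E : ℝ} (h0 : 0 < D) (h1 : E ≤ Real.pi) (h : D ≤ E) : hcot E ≤ hcot D := by
  unfold hcot
  have hD := sin_half_pos h0 (h.trans h1)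
  have hE := sin_half_pos (h0.trans_le h) h1
  rw [div_le_div_iff₀ hE hD]
  have : Real.sin (E / 2 - D / 2) = Real.sin (E / 2) * Real.cos (D / 2) -
      Real.cos (E / 2) * Real.sin (D / 2) := Real.sin_sub _ _
  have h2 : 0 ≤ Real.sin (E / 2 - D / 2) :=
    Real.sin_nonneg_of_nonneg_of_le_pi (by linarith) (by linarith [Real.pi_pos])
  linarith

theorem hcot_le {D : ℝ} (h0 : 0 < D) (h1 : D ≤ Real.pi) : hcot D ≤ Real.pi / D := by
  unfold hcot
  have h2 := sin_half_pos h0 h1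
  have h3 : 2 / Real.pi * (D / 2) ≤ Real.sin (D / 2) :=
    Real.mul_le_sin (by linarith) (by linarith)
  have h4 := Real.cos_le_one (D / 2)
  rw [div_le_div_iff₀ h2 h0]
  have h5 : D / Real.pi ≤ Real.sin (D / 2) := by
    calc D / Real.pi = 2 / Real.pi * (D / 2) := by ring
      _ ≤ _ := h3
  rw [div_le_iff₀ Real.pi_pos] at h5
  nlinarith [h0]

/-- `G(D) = 1/(1 - e^{iD}) = 1/2 + (i/2) cot(D/2)`. -/
noncomputable def GG (D : ℝ) : ℂ := 1 / 2 + (hcot D / 2 : ℝ) * I

theorem GG_mul {D : ℝ} (h0 : 0 < D) (h1 : D ≤ Real.pi) :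
    (1 - Complex.exp (D * I)) * GG D = 1 := by
  have hs := sin_half_pos h0 h1
  have hD : D = 2 * (D / 2) := by ring
  have hcos : Real.cos D = 1 - 2 * (Real.sin (D / 2) * Real.sin (D / 2)) := by
    conv_lhs => rw [hD]
    rw [Real.cos_two_mul]
    have := Real.sin_sq_add_cos_sq (D / 2)
    nlinarith
  have hsin : Real.sin D = 2 * Real.sin (D / 2) * Real.cos (D / 2) := by
    conv_lhs => rw [hD]
    rw [Real.sin_two_mul]
  have hexp : Complex.exp (D * I) = (Real.cos D : ℂ) + (Real.sin D : ℂ) * I := by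
    rw [Complex.exp_mul_I, ← Complex.ofReal_cos, ← Complex.ofReal_sin]
  unfold GG hcot
  rw [hexp, hcos, hsin]
  set s := Real.sin (D / 2)
  set k := Real.cos (D / 2)
  have hsk : s ^ 2 + k ^ 2 = 1 := Real.sin_sq_add_cos_sq _
  have hs' : s ≠ 0 := hs.ne'
  apply Complex.ext
  · simp
    field_simp
    nlinarith
  · simp
    field_simp
    ring

theorem norm_GG_sub {D E : ℝ} (h0 : 0 < D) (h1 : E ≤ Real.pi) (h : D ≤ E) :
    ‖GG D - GG E‖ = (hcot D - hcot E) / 2 := by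
  have h2 := hcot_anti h0 h1 h
  have : GG D - GG E = (((hcot D - hcot E) / 2 : ℝ) : ℂ) * I := by
    unfold GG; push_cast; ring
  rw [this, norm_mul, Complex.norm_I, mul_one, Complex.norm_real, Real.norm_eq_abs,
    abs_of_nonneg (by linarith)]

theorem norm_GG_le {D : ℝ} (h0 : 0 < D) (h1 : D ≤ Real.pi) : ‖GG D‖ ≤ 1 / 2 + hcot D / 2 := by
  unfold GG
  have h2 := hcot_nonneg h0 h1
  calc _ ≤ ‖(1 / 2 : ℂ)‖ + ‖((hcot D / 2 : ℝ) : ℂ) * I‖ := norm_add_le _ _
    _ = 1 / 2 + hcot D / 2 := by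
      rw [norm_mul, Complex.norm_I, mul_one, Complex.norm_real, Real.norm_eq_abs,
        abs_of_nonneg (by linarith)]
      norm_num

/-- Summation by parts identity. -/
theorem kl_identity (φ : ℕ → ℝ) (n : ℕ)
    (h : ∀ x < n, 0 < φ (x + 1) - φ x ∧ φ (x + 1) - φ x ≤ Real.pi) (m : ℕ) (hm : m + 1 ≤ n) :
    ∑ x ∈ range (m + 1), Complex.exp (φ x * I) =
      Complex.exp (φ 0 * I) * GG (φ 1 - φ 0)
      - Complex.exp (φ (m + 1) * I) * GG (φ (m + 1) - φ m)
      + ∑ x ∈ range m, Complex.exp (φ (x + 1) * I) *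
          (GG (φ (x + 2) - φ (x + 1)) - GG (φ (x + 1) - φ x)) := by
  have key : ∀ x < n, Complex.exp (φ x * I) =
      (Complex.exp (φ x * I) - Complex.exp (φ (x + 1) * I)) * GG (φ (x + 1) - φ x) := by
    intro x hx
    have h1 := GG_mul (h x hx).1 (h x hx).2
    have h2 : Complex.exp (φ (x + 1) * I) = Complex.exp (φ x * I) *
        Complex.exp (((φ (x + 1) - φ x : ℝ) : ℂ) * I) := by
      rw [← Complex.exp_add]; congr 1; push_cast; ring
    rw [h2]
    calc Complex.exp (φ x * I) = Complex.exp (φ x * I) * 1 := by ring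
      _ = Complex.exp (φ x * I) * ((1 - Complex.exp (((φ (x + 1) - φ x : ℝ) : ℂ) * I)) *
            GG (φ (x + 1) - φ x)) := by rw [h1]
      _ = _ := by ring
  induction m with
  | zero =>
    simp only [zero_add, range_one, sum_singleton, range_zero, sum_empty, add_zero]
    refine (key 0 (by omega)).trans ?_
    simp only [zero_add]
    push_cast
    ring
  | succ m ih =>
    rw [Finset.sum_range_succ, ih (by omega), Finset.sum_range_succ _ m]
    have h3 := key (m + 1) (by omega)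
    linear_combination h3

/-- **Kusmin–Landau inequality.** -/
theorem kusmin_landau (φ : ℕ → ℝ) (n : ℕ) (θ : ℝ) (hθ : 0 < θ)
    (h : ∀ x < n, θ ≤ φ (x + 1) - φ x ∧ φ (x + 1) - φ x ≤ Real.pi)
    (hanti : ∀ x, x + 1 < n → φ (x + 2) - φ (x + 1) ≤ φ (x + 1) - φ x) :
    ‖∑ x ∈ range n, Complex.exp (φ x * I)‖ ≤ 2 * Real.pi / θ := by
  rcases Nat.eq_zero_or_pos n with hn | hn
  · subst hn
    simp
    positivity
  obtain ⟨m, rfl⟩ : ∃ m, n = m + 1 := ⟨n - 1, by omega⟩
  have h' : ∀ x < m + 1, 0 < φ (x + 1) - φ x ∧ φ (x + 1) - φ x ≤ Real.pi :=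
    fun x hx => ⟨hθ.trans_le (h x hx).1, (h x hx).2⟩
  rw [kl_identity φ (m + 1) h' m le_rfl]
  have hsum : ∀ k ≤ m, ∑ x ∈ range k, ‖Complex.exp (φ (x + 1) * I) *
          (GG (φ (x + 2) - φ (x + 1)) - GG (φ (x + 1) - φ x))‖ =
        (hcot (φ (k + 1) - φ k) - hcot (φ 1 - φ 0)) / 2 := by
    intro k hk
    induction k with
    | zero => simp
    | succ k ih =>
      rw [Finset.sum_range_succ, ih (by omega), norm_mul, Complex.norm_exp_ofReal_mul_I, one_mul,
        norm_GG_sub (h' (k + 1) (by omega)).1 (h' k (by omega)).2 (hanti k (by omega))]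
      ring_nf
  have h0 := h' 0 (by omega)
  have hm := h' m (by omega)
  have b1 := norm_GG_le h0.1 h0.2
  have b2 := norm_GG_le hm.1 hm.2
  have b3 : hcot (φ (m + 1) - φ m) ≤ Real.pi / θ := by
    refine (hcot_le hm.1 hm.2).trans ?_
    have := (h m (by omega)).1
    gcongr
  have hpi : (1 : ℝ) ≤ Real.pi / θ := by
    rw [le_div_iff₀ hθ]
    have := h 0 (by omega)
    linarith
  simp only [zero_add] at b1
  calc _ ≤ ‖Complex.exp (φ 0 * I) * GG (φ 1 - φ 0)
        - Complex.exp (φ (m + 1) * I) * GG (φ (m + 1) - φ m)‖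
        + ‖∑ x ∈ range m, Complex.exp (φ (x + 1) * I) *
          (GG (φ (x + 2) - φ (x + 1)) - GG (φ (x + 1) - φ x))‖ := norm_add_le _ _
    _ ≤ (‖Complex.exp (φ 0 * I) * GG (φ 1 - φ 0)‖ +
        ‖Complex.exp (φ (m + 1) * I) * GG (φ (m + 1) - φ m)‖) +
        ∑ x ∈ range m, ‖Complex.exp (φ (x + 1) * I) *
          (GG (φ (x + 2) - φ (x + 1)) - GG (φ (x + 1) - φ x))‖ := by
        gcongr
        · exact norm_sub_le _ _
        · exact norm_sum_le _ _
    _ = ‖GG (φ 1 - φ 0)‖ + ‖GG (φ (m + 1) - φ m)‖ +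
        (hcot (φ (m + 1) - φ m) - hcot (φ 1 - φ 0)) / 2 := by
        have e1 : ‖Complex.exp (φ 0 * I) * GG (φ 1 - φ 0)‖ = ‖GG (φ 1 - φ 0)‖ := by
          rw [norm_mul, Complex.norm_exp_ofReal_mul_I, one_mul]
        have e2 : ‖Complex.exp (φ (m + 1) * I) * GG (φ (m + 1) - φ m)‖ =
            ‖GG (φ (m + 1) - φ m)‖ := by
          rw [norm_mul]
          have : Complex.exp ((φ (m + 1) : ℂ) * I) = Complex.exp (((φ (m + 1) : ℝ) : ℂ) * I) := rfl
          rw [this, Complex.norm_exp_ofReal_mul_I, one_mul]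
        rw [e1, e2, hsum m le_rfl]
    _ ≤ 1 + Real.pi / θ := by linarith
    _ ≤ 2 * Real.pi / θ := by
        have : 2 * Real.pi / θ = Real.pi / θ + Real.pi / θ := by ring
        linarith

end Pool.Agent.Lib.H62
end

section

/-!
Iterated differences of the logarithm and the Kusmin–Landau bound for them.
-/

open Finset Complex

namespace Pool.Agent.Lib.H62

/-- The derivatives of `log`. -/
noncomputable def Gd (m : ℕ) (x : ℝ) : ℝ :=
  if m = 0 then Real.log x else (-1) ^ (m - 1) * (Nat.factorial (m - 1) : ℝ) / x ^ m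

theorem hasDerivAt_Gd (m : ℕ) {x : ℝ} (hx : 0 < x) : HasDerivAt (Gd m) (Gd (m + 1) x) x := by
  rcases Nat.eq_zero_or_pos m with h | h
  · subst h
    have h1 : Gd 0 = Real.log := by funext y; simp [Gd]
    have h2 : Gd (0 + 1) x = x⁻¹ := by simp [Gd]
    rw [h1, h2]
    exact Real.hasDerivAt_log hx.ne'
  · obtain ⟨k, rfl⟩ : ∃ k, m = k + 1 := ⟨m - 1, by omega⟩
    have h1 : Gd (k + 1) = fun y => (-1) ^ k * (Nat.factorial k : ℝ) / y ^ (k + 1) := by
      funext y; simp [Gd]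
    have h2 : Gd (k + 1 + 1) x = (-1) ^ (k + 1) * (Nat.factorial (k + 1) : ℝ) / x ^ (k + 2) := by
      simp [Gd]
    rw [h1, h2]
    have h3 : HasDerivAt (fun y : ℝ => y ^ (k + 1)) ((k + 1 : ℕ) * x ^ k) x := by
      simpa using hasDerivAt_pow (k + 1) x
    have h4 := (hasDerivAt_const x ((-1 : ℝ) ^ k * (Nat.factorial k : ℝ))).div h3
      (pow_ne_zero _ hx.ne')
    refine h4.congr_deriv ?_
    rw [Nat.factorial_succ]
    push_cast
    field_simp
    ring

/-- Iterated differences of the derivatives of the logarithm. -/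
noncomputable def DL : List ℕ → ℕ → ℝ → ℝ
  | [], m, x => Gd m x
  | (h :: l), m, x => DL l m (x + h) - DL l m x

theorem hasDerivAt_DL (l : List ℕ) (m : ℕ) {x : ℝ} (hx : 0 < x) :
    HasDerivAt (DL l m) (DL l (m + 1) x) x := by
  induction l generalizing x with
  | nil => exact hasDerivAt_Gd m hx
  | cons h l ih =>
    have h1 : DL (h :: l) m = fun y => DL l m (y + h) - DL l m y := by funext y; rfl
    have h2 : DL (h :: l) (m + 1) x = DL l (m + 1) (x + h) - DL l (m + 1) x := rfl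
    rw [h1, h2]
    have hx2 : 0 < x + h := by positivity
    exact ((ih hx2).comp_add_const x (h : ℝ)).sub (ih hx)

/-- product of a list as a real -/
noncomputable def lprod (l : List ℕ) : ℝ := ((l.prod : ℕ) : ℝ)

noncomputable def lsum (l : List ℕ) : ℝ := ((l.sum : ℕ) : ℝ)

theorem lprod_cons (h : ℕ) (l : List ℕ) : lprod (h :: l) = h * lprod l := by
  simp [lprod]

theorem lsum_cons (h : ℕ) (l : List ℕ) : lsum (h :: l) = h + lsum l := by
  simp [lsum]

theorem lprod_nonneg (l : List ℕ) : 0 ≤ lprod l := by unfold lprod; positivity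
theorem lsum_nonneg (l : List ℕ) : 0 ≤ lsum l := by unfold lsum; positivity

/-- Sign and size of the iterated differences. -/
theorem DL_bounds (l : List ℕ) (m : ℕ) (hml : 1 ≤ m + l.length) {x : ℝ} (hx : 0 < x) :
    lprod l * (Nat.factorial (m + l.length - 1) : ℝ) / (x + lsum l) ^ (m + l.length) ≤
      (-1) ^ (m + l.length - 1) * DL l m x ∧
    (-1) ^ (m + l.length - 1) * DL l m x ≤
      lprod l * (Nat.factorial (m + l.length - 1) : ℝ) / x ^ (m + l.length) := by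
  induction l generalizing m x with
  | nil =>
    simp only [List.length_nil, add_zero] at hml ⊢
    have h1 : (-1 : ℝ) ^ (m - 1) * DL [] m x = (Nat.factorial (m - 1) : ℝ) / x ^ m := by
      simp only [DL, Gd]
      rw [if_neg (by omega)]
      have : (-1 : ℝ) ^ (m - 1) * (-1) ^ (m - 1) = 1 := by
        rw [← mul_pow]; norm_num
      calc (-1 : ℝ) ^ (m - 1) * ((-1) ^ (m - 1) * (Nat.factorial (m - 1) : ℝ) / x ^ m)
          = ((-1 : ℝ) ^ (m - 1) * (-1) ^ (m - 1)) * ((Nat.factorial (m - 1) : ℝ) / x ^ m) := by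
            ring
        _ = _ := by rw [this, one_mul]
    rw [h1]
    simp [lprod, lsum]
  | cons h l ih =>
    have e1 : m + (h :: l).length = (m + 1) + l.length := by
      simp only [List.length_cons]; omega
    rw [e1, lprod_cons, lsum_cons]
    -- mean value
    have hmv : ∃ ξ : ℝ, x ≤ ξ ∧ ξ ≤ x + h ∧ DL (h :: l) m x = h * DL l (m + 1) ξ := by
      rcases Nat.eq_zero_or_pos h with h0 | h0
      · subst h0
        exact ⟨x, le_rfl, by simp, by simp [DL]⟩
      · have hh : (0 : ℝ) < h := by exact_mod_cast h0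
        obtain ⟨ξ, hξ, hξ2⟩ := exists_hasDerivAt_eq_slope (DL l m) (DL l (m + 1))
          (show x < x + h by linarith)
          (fun y hy => (hasDerivAt_DL l m (by linarith [hy.1] : 0 < y)).continuousAt.continuousWithinAt)
          (fun y hy => hasDerivAt_DL l m (by linarith [hy.1] : 0 < y))
        refine ⟨ξ, hξ.1.le, hξ.2.le, ?_⟩
        rw [hξ2]
        simp only [DL]
        rw [show x + (h : ℝ) - x = h by ring]
        field_simp
    obtain ⟨ξ, hξ1, hξ2, hξ3⟩ := hmv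
    have hξ0 : 0 < ξ := by linarith
    obtain ⟨i1, i2⟩ := ih (m + 1) (by omega) hξ0
    rw [hξ3]
    have hh : (0 : ℝ) ≤ h := Nat.cast_nonneg h
    have hls := lsum_nonneg l
    have hlp := lprod_nonneg l
    constructor
    · calc (h : ℝ) * lprod l * (Nat.factorial (m + 1 + l.length - 1) : ℝ) /
            (x + (h + lsum l)) ^ (m + 1 + l.length)
          = h * (lprod l * (Nat.factorial (m + 1 + l.length - 1) : ℝ) /
            (x + (h + lsum l)) ^ (m + 1 + l.length)) := by ring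
        _ ≤ h * (lprod l * (Nat.factorial (m + 1 + l.length - 1) : ℝ) /
            (ξ + lsum l) ^ (m + 1 + l.length)) := by
            apply mul_le_mul_of_nonneg_left _ hh
            apply div_le_div_of_nonneg_left (by positivity) (by positivity)
            exact pow_le_pow_left₀ (by positivity) (by linarith) _
        _ ≤ h * ((-1) ^ (m + 1 + l.length - 1) * DL l (m + 1) ξ) := by gcongr
        _ = _ := by ring
    · calc (-1 : ℝ) ^ (m + 1 + l.length - 1) * (h * DL l (m + 1) ξ)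
          = h * ((-1) ^ (m + 1 + l.length - 1) * DL l (m + 1) ξ) := by ring
        _ ≤ h * (lprod l * (Nat.factorial (m + 1 + l.length - 1) : ℝ) /
            ξ ^ (m + 1 + l.length)) := by gcongr
        _ ≤ h * (lprod l * (Nat.factorial (m + 1 + l.length - 1) : ℝ) /
            x ^ (m + 1 + l.length)) := by gcongr
        _ = _ := by ring

/-- the phase `t * (iterated difference of log)` -/
noncomputable def ph (t : ℝ) (l : List ℕ) (x : ℕ) : ℝ := t * DL l 0 (x : ℝ)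

theorem ph_cons (t : ℝ) (h : ℕ) (l : List ℕ) (x : ℕ) :
    ph t (h :: l) x = ph t l (x + h) - ph t l x := by
  unfold ph
  simp only [DL]
  push_cast
  ring

theorem ph_nil (t : ℝ) (x : ℕ) : ph t [] x = t * Real.log x := by
  simp [ph, DL, Gd]

theorem norm_ES_neg (φ : ℕ → ℝ) (a b : ℕ) : ‖ES (fun x => -φ x) a b‖ = ‖ES φ a b‖ := by
  unfold ES
  rw [← Complex.norm_conj, map_sum]
  congr 1
  apply Finset.sum_congr rfl
  intro x _
  rw [← Complex.exp_conj, map_mul, Complex.conj_I, Complex.conj_ofReal]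
  congr 1
  push_cast
  ring

/-- Kusmin–Landau for a phase on an interval, with a sign. -/
theorem kl_interval (φ : ℕ → ℝ) (a b : ℕ) (θ s : ℝ) (hs : s = 1 ∨ s = -1) (hθ : 0 < θ)
    (h : ∀ x, a ≤ x → x < b → θ ≤ s * (φ (x + 1) - φ x) ∧ s * (φ (x + 1) - φ x) ≤ Real.pi)
    (hanti : ∀ x, a ≤ x → x + 1 < b →
      s * (φ (x + 2) - φ (x + 1)) ≤ s * (φ (x + 1) - φ x)) :
    ‖ES φ a b‖ ≤ 2 * Real.pi / θ := by
  rcases le_total b a with hab | hab
  · have : ES φ a b = 0 := by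
      unfold ES; rw [Finset.Ico_eq_empty (by omega)]; simp
    rw [this, norm_zero]
    positivity
  have key : ∀ ψ : ℕ → ℝ, (∀ x, a ≤ x → x < b → θ ≤ ψ (x + 1) - ψ x ∧
      ψ (x + 1) - ψ x ≤ Real.pi) →
      (∀ x, a ≤ x → x + 1 < b → ψ (x + 2) - ψ (x + 1) ≤ ψ (x + 1) - ψ x) →
      ‖ES ψ a b‖ ≤ 2 * Real.pi / θ := by
    intro ψ h1 h2
    have h3 := kusmin_landau (fun x => ψ (a + x)) (b - a) θ hθ
      (fun x hx => h1 (a + x) (by omega) (by omega))
      (fun x hx => h2 (a + x) (by omega) (by omega))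
    unfold ES
    rw [Finset.sum_Ico_eq_sum_range]
    exact h3
  rcases hs with hs | hs
  · subst hs
    simp only [one_mul] at h hanti
    exact key φ h hanti
  · subst hs
    rw [← norm_ES_neg]
    apply key (fun x => -φ x)
    · intro x hx1 hx2
      have := h x hx1 hx2
      constructor <;> linarith [this.1, this.2]
    · intro x hx1 hx2
      have := hanti x hx1 hx2
      linarith

/-- Kusmin–Landau bound for the iterated differences of `t log x` on `[X, 3X]`. -/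
theorem kl_log (t : ℝ) (ht : 0 < t) (l : List ℕ) (hl : ∀ h ∈ l, 1 ≤ h) (X : ℝ) (hX : 0 < X)
    (a b : ℕ) (ha : X ≤ a) (hb : (b : ℝ) + 1 + lsum l ≤ 3 * X)
    (hpi : t * (lprod l * (Nat.factorial l.length : ℝ)) / X ^ (l.length + 1) ≤ Real.pi) :
    ‖ES (ph t l) a b‖ ≤
      2 * Real.pi * (3 * X) ^ (l.length + 1) / (t * (lprod l * (Nat.factorial l.length : ℝ))) := by
  have hlp : 0 < lprod l := by
    unfold lprod
    have : 0 < l.prod := List.prod_pos (fun h hh => hl h hh)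
    exact_mod_cast this
  set j := l.length with hj
  have hfac : (0 : ℝ) < Nat.factorial j := by positivity
  set θ : ℝ := t * (lprod l * (Nat.factorial j : ℝ)) / (3 * X) ^ (j + 1) with hθ
  have hθ0 : 0 < θ := by rw [hθ]; positivity
  have hls := lsum_nonneg l
  set s : ℝ := (-1) ^ j with hs
  have hs' : s = 1 ∨ s = -1 := neg_one_pow_eq_or ℝ j
  have main := kl_interval (ph t l) a b θ s hs' hθ0 ?_ ?_
  · refine main.trans (le_of_eq ?_)
    rw [hθ]
    field_simp
  · intro x hx1 hx2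
    have hx : X ≤ (x : ℝ) := ha.trans (by exact_mod_cast hx1)
    have hxb : (x : ℝ) < b := by exact_mod_cast hx2
    have hx0 : (0 : ℝ) < x := by linarith
    have e1 : ph t l (x + 1) - ph t l x = t * DL (1 :: l) 0 x := by
      rw [← ph_cons]; rfl
    have hb1 := DL_bounds (1 :: l) 0 (by simp) hx0
    simp only [List.length_cons, zero_add, Nat.add_sub_cancel, lprod_cons, lsum_cons, Nat.cast_one,
      one_mul] at hb1
    rw [← hj] at hb1
    rw [e1]
    have e2 : s * (t * DL (1 :: l) 0 x) = t * ((-1) ^ j * DL (1 :: l) 0 x) := by rw [hs]; ring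
    rw [e2]
    constructor
    · calc θ = t * (lprod l * (Nat.factorial j : ℝ) / (3 * X) ^ (j + 1)) := by rw [hθ]; ring
        _ ≤ t * (lprod l * (Nat.factorial j : ℝ) / (x + (1 + lsum l)) ^ (j + 1)) := by
            gcongr
            linarith
        _ ≤ _ := by gcongr; exact hb1.1
    · calc t * ((-1) ^ j * DL (1 :: l) 0 x)
          ≤ t * (lprod l * (Nat.factorial j : ℝ) / x ^ (j + 1)) := by gcongr; exact hb1.2
        _ ≤ t * (lprod l * (Nat.factorial j : ℝ) / X ^ (j + 1)) := by gcongr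
        _ = t * (lprod l * (Nat.factorial j : ℝ)) / X ^ (j + 1) := by ring
        _ ≤ _ := hpi
  · intro x hx1 hx2
    have hx : X ≤ (x : ℝ) := ha.trans (by exact_mod_cast hx1)
    have hx0 : (0 : ℝ) < x := by linarith
    have e1 : (ph t l (x + 2) - ph t l (x + 1)) - (ph t l (x + 1) - ph t l x) =
        t * DL (1 :: 1 :: l) 0 x := by
      have h1 := ph_cons t 1 (1 :: l) x
      have h2 := ph_cons t 1 l (x + 1)
      have h3 := ph_cons t 1 l x
      have h4 : ph t (1 :: 1 :: l) x = t * DL (1 :: 1 :: l) 0 x := rfl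
      rw [← h4, h1, h2, h3]
    have hb1 := (DL_bounds (1 :: 1 :: l) 0 (by simp) hx0).1
    simp only [List.length_cons, zero_add, Nat.add_sub_cancel, lprod_cons, lsum_cons, Nat.cast_one,
      one_mul] at hb1
    rw [← hj] at hb1
    have h5 : 0 ≤ (-1 : ℝ) ^ (j + 1) * DL (1 :: 1 :: l) 0 x := by
      refine le_trans ?_ hb1
      positivity
    have h6 : s * ((ph t l (x + 2) - ph t l (x + 1)) - (ph t l (x + 1) - ph t l x)) ≤ 0 := by
      rw [e1, hs]
      have : (-1 : ℝ) ^ j * (t * DL (1 :: 1 :: l) 0 x) =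
        -(t * ((-1) ^ (j + 1) * DL (1 :: 1 :: l) 0 x)) := by ring
      rw [this]
      have : 0 ≤ t * ((-1) ^ (j + 1) * DL (1 :: 1 :: l) 0 x) := by positivity
      linarith
    linarith

end Pool.Agent.Lib.H62
end

section

/-!
Power-saving bounds for `∑ x^{it}`.
-/

open Finset Complex

namespace Pool.Agent.Lib.H62

/-- One differencing step. -/
theorem diff_step (t : ℝ) (l : List ℕ) (X : ℝ) (hX : 1 ≤ X) (H H1 : ℕ) (hH1 : 1 ≤ H1)
    (hH : H1 ≤ H) (hHX : (H : ℝ) ≤ X) (κ : ℝ) (hκ : (H1 : ℝ) ≤ H * κ)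
    (h : ∀ d, H1 ≤ d → d < H → ∀ a b : ℕ, X ≤ a → (b : ℝ) ≤ 2 * X →
      ‖ES (ph t (d :: l)) a b‖ ≤ κ * X) (a b : ℕ) (ha : X ≤ a) (hb : (b : ℝ) ≤ 2 * X) :
    ‖ES (ph t l) a b‖ ≤ Real.sqrt (10 * κ) * X := by
  have hX0 : 0 < X := by linarith
  have hH0 : (0 : ℝ) < H := by
    have : 0 < H := by omega
    exact_mod_cast this
  have hH1' : (1 : ℝ) ≤ H1 := by exact_mod_cast hH1
  have hκ0 : 0 < κ := by
    by_contra hcon
    push Not at hcon
    nlinarith
  rcases le_total b a with hab | hab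
  · have : ES (ph t l) a b = 0 := by
      unfold ES; rw [Finset.Ico_eq_empty (by omega)]; simp
    rw [this, norm_zero]
    positivity
  have hN : (((b - a : ℕ) : ℝ)) ≤ X := by
    rw [Nat.cast_sub hab]; linarith
  have h1 := vdc (ph t l) a b hab H (by omega)
  have h2 : ∑ d ∈ Ico 1 H, ‖ES (fun x => ph t l (x + d) - ph t l x) a (b - d)‖ ≤
      H1 * X + H * (κ * X) := by
    have hsplit : ∀ d ∈ Ico 1 H, ‖ES (fun x => ph t l (x + d) - ph t l x) a (b - d)‖ ≤
        (if d < H1 then X else 0) + κ * X := by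
      intro d hd
      rw [mem_Ico] at hd
      split_ifs with hlt
      · have := norm_ES_le (fun x => ph t l (x + d) - ph t l x) a (b - d)
        have h3 : ((b - d - a : ℕ) : ℝ) ≤ ((b - a : ℕ) : ℝ) := by
          exact_mod_cast (by omega : b - d - a ≤ b - a)
        have h4 : 0 ≤ κ * X := by positivity
        linarith
      · have e : (fun x => ph t l (x + d) - ph t l x) = ph t (d :: l) := by
          funext x; rw [ph_cons]
        rw [e, zero_add]
        apply h d (by omega) hd.2 a (b - d) ha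
        have : ((b - d : ℕ) : ℝ) ≤ b := by exact_mod_cast Nat.sub_le _ _
        linarith
    refine (Finset.sum_le_sum hsplit).trans ?_
    rw [Finset.sum_add_distrib, Finset.sum_const, Nat.card_Ico, nsmul_eq_mul, ← Finset.sum_filter,
      Finset.sum_const, nsmul_eq_mul]
    have c1 : ((#((Ico 1 H).filter (fun d => d < H1)) : ℕ) : ℝ) ≤ H1 := by
      have : #((Ico 1 H).filter (fun d => d < H1)) ≤ #(range H1) := by
        apply Finset.card_le_card
        intro d hd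
        simp only [mem_filter, mem_range] at hd ⊢
        exact hd.2
      rw [card_range] at this
      exact_mod_cast this
    have c2 : ((H - 1 : ℕ) : ℝ) ≤ H := by exact_mod_cast Nat.sub_le _ _
    gcongr
  have h3 : (H : ℝ) * ‖ES (ph t l) a b‖ ^ 2 ≤ (X + X) * (X + 2 * (H1 * X + H * (κ * X))) := by
    refine h1.trans ?_
    have h5 : 0 ≤ ((b - a : ℕ) : ℝ) := Nat.cast_nonneg _
    gcongr
  have h4 : (H : ℝ) * ‖ES (ph t l) a b‖ ^ 2 ≤ H * (10 * κ * X ^ 2) := by
    refine h3.trans ?_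
    have e : (X + X) * (X + 2 * (H1 * X + H * (κ * X))) = 2 * X ^ 2 * (1 + 2 * H1 + 2 * (H * κ)) := by
      ring
    rw [e]
    have : 1 + 2 * (H1 : ℝ) + 2 * (H * κ) ≤ 5 * (H * κ) := by linarith
    calc 2 * X ^ 2 * (1 + 2 * H1 + 2 * (H * κ)) ≤ 2 * X ^ 2 * (5 * (H * κ)) := by gcongr
      _ = _ := by ring
  have h5 := le_of_mul_le_mul_left h4 hH0
  have h6 : ‖ES (ph t l) a b‖ ≤ Real.sqrt (10 * κ * X ^ 2) := by
    apply Real.le_sqrt_of_sq_le
    exact h5
  rwa [Real.sqrt_mul (by positivity), Real.sqrt_sq hX0.le] at h6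

/-- Iterated differencing. -/
theorem diff_iter (t : ℝ) (X : ℝ) (hX : 1 ≤ X) (H H1 : ℕ) (hH1 : 1 ≤ H1)
    (hH : H1 ≤ H) (hHX : (H : ℝ) ≤ X) (κ : ℝ) (hκ0 : 0 < κ) (hκ1 : κ ≤ 1)
    (hκ : (H1 : ℝ) ≤ H * κ) (j : ℕ)
    (h : ∀ l : List ℕ, l.length = j → (∀ d ∈ l, H1 ≤ d ∧ d < H) →
      ∀ a b : ℕ, X ≤ a → (b : ℝ) ≤ 2 * X → ‖ES (ph t l) a b‖ ≤ κ * X) (i : ℕ) (hi : i ≤ j) :
    ∀ l : List ℕ, l.length = j - i → (∀ d ∈ l, H1 ≤ d ∧ d < H) →
      ∀ a b : ℕ, X ≤ a → (b : ℝ) ≤ 2 * X →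
        ‖ES (ph t l) a b‖ ≤ 10 * κ ^ ((1 / 2 : ℝ) ^ i) * X := by
  induction i with
  | zero =>
    intro l hl1 hl2 a b ha hb
    have := h l hl1 hl2 a b ha hb
    have hX0 : 0 < X := by linarith
    rw [pow_zero, Real.rpow_one]
    nlinarith [mul_pos hκ0 hX0]
  | succ i ih =>
    intro l hl1 hl2 a b ha hb
    have hpow : κ ≤ 10 * κ ^ ((1 / 2 : ℝ) ^ i) := by
      have h1 : κ ≤ κ ^ ((1 / 2 : ℝ) ^ i) := by
        calc κ = κ ^ (1 : ℝ) := (Real.rpow_one κ).symm
          _ ≤ κ ^ ((1 / 2 : ℝ) ^ i) := by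
            apply Real.rpow_le_rpow_of_exponent_ge hκ0 hκ1
            exact pow_le_one₀ (by norm_num) (by norm_num)
      have h2 : 0 < κ ^ ((1 / 2 : ℝ) ^ i) := Real.rpow_pos_of_pos hκ0 _
      linarith
    have h1 := diff_step t l X hX H H1 hH1 hH hHX (10 * κ ^ ((1 / 2 : ℝ) ^ i))
      (hκ.trans (by gcongr)) (by
        intro d hd1 hd2 a' b' ha' hb'
        apply ih (by omega) (d :: l) (by rw [List.length_cons, hl1]; omega) _ a' b' ha' hb'
        intro e he
        rcases List.mem_cons.mp he with h3 | h3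
        · rw [h3]; exact ⟨hd1, hd2⟩
        · exact hl2 e h3) a b ha hb
    refine h1.trans (le_of_eq ?_)
    have e0 : (κ ^ ((1 / 2 : ℝ) ^ (i + 1))) ^ 2 = κ ^ ((1 / 2 : ℝ) ^ i) := by
      rw [← Real.rpow_natCast (κ ^ ((1 / 2 : ℝ) ^ (i + 1))) 2, ← Real.rpow_mul hκ0.le, pow_succ]
      congr 1
      push_cast
      ring
    have e1 : 10 * (10 * κ ^ ((1 / 2 : ℝ) ^ i)) = (10 * κ ^ ((1 / 2 : ℝ) ^ (i + 1))) ^ 2 := by
      rw [mul_pow, e0]
      ring
    rw [e1, Real.sqrt_sq (by positivity)]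

set_option maxHeartbeats 4000000 in
/-- Power saving when `X^{j-1/2} ≤ t ≤ X^{j+1/2}` and `t ≥ X`. -/
theorem expsum_fixed (j : ℕ) (hj : 1 ≤ j) : ∃ K : ℝ, 0 < K ∧ ∀ X t : ℝ, 1 ≤ X → X ≤ t →
    X ^ ((j : ℝ) - 1 / 2) ≤ t → t ≤ X ^ ((j : ℝ) + 1 / 2) → ∀ a b : ℕ, X ≤ a → (b : ℝ) ≤ 2 * X →
      ‖ES (ph t []) a b‖ ≤ K * X ^ (1 - (1 / 2 : ℝ) ^ j / (8 * j)) := by
  have hj0 : (0 : ℝ) < j := by exact_mod_cast hj
  have hj1 : (1 : ℝ) ≤ j := by exact_mod_cast hj
  -- constants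
  set Cj : ℝ := 2 * Real.pi * 3 ^ (j + 1) * 8 ^ j with hCj
  have hCj1 : 2 ≤ Cj := by
    rw [hCj]
    have h1 : (1 : ℝ) ≤ 3 ^ (j + 1) := one_le_pow₀ (by norm_num)
    have h2 : (1 : ℝ) ≤ 8 ^ j := one_le_pow₀ (by norm_num)
    have h3 := Real.pi_gt_three
    have h4 : (1 : ℝ) ≤ 3 ^ (j + 1) * 8 ^ j := by nlinarith
    nlinarith
  have hCj0 : 0 < Cj := by linarith
  set δ : ℝ := (1 / 2 : ℝ) ^ j / (8 * j) with hδ
  have hδ0 : 0 < δ := by rw [hδ]; positivity
  -- threshold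
  set X0 : ℝ := max (max ((Nat.factorial j : ℝ) ^ 4) ((2 * (j + 1) : ℝ) ^ 4)) (Cj ^ (8 * (j : ℝ)))
    with hX0
  have hX00 : 1 ≤ X0 := by
    refine le_trans ?_ (le_max_left _ _)
    refine le_trans ?_ (le_max_right _ _)
    exact one_le_pow₀ (by linarith)
  refine ⟨max (10 * Cj) (X0 ^ δ), lt_max_of_lt_left (by positivity), ?_⟩
  intro X t hX hXt ht1 ht2 a b ha hb
  have hXpos : 0 < X := by linarith
  have htpos : 0 < t := by linarith
  have hXpow : 0 < X ^ (1 - δ) := Real.rpow_pos_of_pos hXpos _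
  by_cases hbig : X < X0
  · -- trivial bound
    have htriv : ‖ES (ph t []) a b‖ ≤ X := by
      refine (norm_ES_le _ _ _).trans ?_
      rcases le_total b a with hab | hab
      · have : b - a = 0 := by omega
        rw [this]; simp; linarith
      · rw [Nat.cast_sub hab]; linarith
    calc ‖ES (ph t []) a b‖ ≤ X := htriv
      _ = X ^ δ * X ^ (1 - δ) := by
          rw [← Real.rpow_add hXpos]; simp
      _ ≤ X0 ^ δ * X ^ (1 - δ) := by gcongr
      _ ≤ _ := by gcongr; exact le_max_right _ _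
  push Not at hbig
  have hXf : (Nat.factorial j : ℝ) ^ 4 ≤ X :=
    (le_max_left _ _).trans ((le_max_left _ _).trans hbig)
  have hXj : (2 * (j + 1) : ℝ) ^ 4 ≤ X :=
    (le_max_right _ _).trans ((le_max_left _ _).trans hbig)
  have hXC : Cj ^ (8 * (j : ℝ)) ≤ X := (le_max_right _ _).trans hbig
  -- y
  set Y : ℝ := X ^ ((j : ℝ) + 3 / 4) / t with hY
  have hYpos : 0 < Y := by rw [hY]; positivity
  have hY1 : X ^ (1 / 4 : ℝ) ≤ Y := by
    rw [hY, le_div_iff₀ htpos]
    calc X ^ (1 / 4 : ℝ) * t ≤ X ^ (1 / 4 : ℝ) * X ^ ((j : ℝ) + 1 / 2) := by gcongr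
      _ = X ^ ((j : ℝ) + 3 / 4) := by
          rw [← Real.rpow_add hXpos]; congr 1; ring
  have hY2 : Y ≤ X ^ (3 / 4 * (j : ℝ)) := by
    rw [hY, div_le_iff₀ htpos]
    rcases Nat.lt_or_ge 1 j with h | h
    · have hj2 : (2 : ℝ) ≤ j := by exact_mod_cast h
      calc X ^ ((j : ℝ) + 3 / 4) ≤ X ^ (3 / 4 * (j : ℝ) + ((j : ℝ) - 1 / 2)) := by
            apply Real.rpow_le_rpow_of_exponent_le hX; linarith
        _ = X ^ (3 / 4 * (j : ℝ)) * X ^ ((j : ℝ) - 1 / 2) := Real.rpow_add hXpos _ _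
        _ ≤ _ := by gcongr
    · have hj3 : j = 1 := by omega
      subst hj3
      calc X ^ (((1 : ℕ) : ℝ) + 3 / 4) = X ^ (3 / 4 * ((1 : ℕ) : ℝ)) * X := by
            rw [← Real.rpow_add_one hXpos.ne']; congr 1; push_cast; ring
        _ ≤ _ := by gcongr
  set y : ℝ := Y ^ (1 / (j : ℝ)) with hy
  have hypos : 0 < y := by rw [hy]; positivity
  have hyj : y ^ j = Y := by
    rw [hy, ← Real.rpow_natCast, ← Real.rpow_mul hYpos.le]
    rw [one_div, inv_mul_cancel₀ hj0.ne', Real.rpow_one]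
  have hy1 : X ^ (1 / (4 * (j : ℝ))) ≤ y := by
    rw [hy]
    calc X ^ (1 / (4 * (j : ℝ))) = (X ^ (1 / 4 : ℝ)) ^ (1 / (j : ℝ)) := by
          rw [← Real.rpow_mul hXpos.le]; congr 1; field_simp
      _ ≤ _ := by gcongr
  have hy2 : y ≤ X ^ (3 / 4 : ℝ) := by
    rw [hy]
    calc Y ^ (1 / (j : ℝ)) ≤ (X ^ (3 / 4 * (j : ℝ))) ^ (1 / (j : ℝ)) := by gcongr
      _ = X ^ (3 / 4 : ℝ) := by
          rw [← Real.rpow_mul hXpos.le]; congr 1; field_simp
  -- lower bound on y: y ≥ Cj ^ 2 ≥ 4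
  have hyC : Cj ^ 2 ≤ y := by
    refine le_trans ?_ hy1
    calc Cj ^ 2 = (Cj ^ (8 * (j : ℝ))) ^ (1 / (4 * (j : ℝ))) := by
          rw [← Real.rpow_mul hCj0.le, ← Real.rpow_natCast]
          congr 1; field_simp; norm_num
      _ ≤ _ := by gcongr
  have hy4 : 4 ≤ y := by nlinarith
  set H : ℕ := ⌊y⌋₊ with hH
  have hHy : (H : ℝ) ≤ y := Nat.floor_le hypos.le
  have hHy2 : y / 2 ≤ H := by
    have := Nat.lt_floor_add_one y
    rw [← hH] at this
    linarith
  have hHpos : 0 < H := by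
    have : (0 : ℝ) < H := by linarith
    exact_mod_cast this
  set H1 : ℕ := Nat.sqrt H with hH1
  have hH1pos : 1 ≤ H1 := by
    rw [hH1]; exact Nat.sqrt_pos.mpr hHpos
  have hH1sq : (H1 : ℝ) ^ 2 ≤ H := by
    have := Nat.sqrt_le' H
    exact_mod_cast this
  have hH1sq' : (H : ℝ) ≤ 4 * (H1 : ℝ) ^ 2 := by
    have h1 : H < (H1 + 1) ^ 2 := Nat.lt_succ_sqrt' H
    have h2 : (H1 + 1) ^ 2 ≤ 4 * H1 ^ 2 := by nlinarith
    have : H ≤ 4 * H1 ^ 2 := by omega
    exact_mod_cast this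
  have hH1H : H1 ≤ H := Nat.sqrt_le_self H
  have hX34 : X ^ (3 / 4 : ℝ) * (2 * (j + 1)) ≤ X := by
    have h1 : (2 * (j + 1) : ℝ) ≤ X ^ (1 / 4 : ℝ) := by
      calc (2 * (j + 1) : ℝ) = ((2 * (j + 1) : ℝ) ^ 4) ^ (1 / 4 : ℝ) := by
            rw [← Real.rpow_natCast, ← Real.rpow_mul (by positivity)]; norm_num
        _ ≤ _ := by gcongr
    calc X ^ (3 / 4 : ℝ) * (2 * (j + 1)) ≤ X ^ (3 / 4 : ℝ) * X ^ (1 / 4 : ℝ) := by gcongr
      _ = X := by rw [← Real.rpow_add hXpos]; norm_num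
  have hX34' : 0 < X ^ (3 / 4 : ℝ) := Real.rpow_pos_of_pos hXpos _
  have hHX : (H : ℝ) ≤ X := by nlinarith
  -- κ
  set κ : ℝ := Cj * X ^ (-(1 / (8 * (j : ℝ)))) with hκ
  have hκ0 : 0 < κ := by rw [hκ]; positivity
  have hκ1 : κ ≤ 1 := by
    rw [hκ, Real.rpow_neg hXpos.le, mul_inv_le_iff₀ (by positivity), one_mul]
    calc Cj = (Cj ^ (8 * (j : ℝ))) ^ (1 / (8 * (j : ℝ))) := by
          rw [← Real.rpow_mul hCj0.le, mul_one_div, div_self (by positivity), Real.rpow_one]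
      _ ≤ _ := by gcongr
  have hysqrt : X ^ (1 / (8 * (j : ℝ))) ≤ Real.sqrt y := by
    apply Real.le_sqrt_of_sq_le
    rw [← Real.rpow_natCast, ← Real.rpow_mul hXpos.le]
    refine le_trans (le_of_eq ?_) hy1
    congr 1; push_cast; field_simp; norm_num
  have hsy : 0 < Real.sqrt y := Real.sqrt_pos.mpr hypos
  have hsy2 : Real.sqrt y ^ 2 = y := Real.sq_sqrt hypos.le
  have hH1y : (H1 : ℝ) ≤ Real.sqrt y := by
    apply Real.le_sqrt_of_sq_le; linarith
  have hH1y2 : Real.sqrt y ≤ 4 * H1 := by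
    have : Real.sqrt y ^ 2 ≤ (4 * (H1 : ℝ)) ^ 2 := by
      rw [hsy2]; nlinarith
    exact le_of_sq_le_sq this (by positivity)
  have hκH : (H1 : ℝ) ≤ H * κ := by
    have h1 : (1 : ℝ) ≤ X ^ (-(1 / (8 * (j : ℝ)))) * Real.sqrt y := by
      rw [Real.rpow_neg hXpos.le, inv_mul_eq_div, le_div_iff₀ (by positivity), one_mul]
      exact hysqrt
    calc (H1 : ℝ) ≤ Real.sqrt y := hH1y
      _ = Real.sqrt y * 1 := by ring
      _ ≤ Real.sqrt y * (X ^ (-(1 / (8 * (j : ℝ)))) * Real.sqrt y) := by gcongr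
      _ = (Real.sqrt y ^ 2 / 2) * (2 * X ^ (-(1 / (8 * (j : ℝ))))) := by ring
      _ = (y / 2) * (2 * X ^ (-(1 / (8 * (j : ℝ))))) := by rw [hsy2]
      _ ≤ H * κ := by
          rw [hκ]
          have hxp : 0 ≤ X ^ (-(1 / (8 * (j : ℝ)))) := by positivity
          have h2 : 2 * X ^ (-(1 / (8 * (j : ℝ)))) ≤ Cj * X ^ (-(1 / (8 * (j : ℝ)))) :=
            mul_le_mul_of_nonneg_right hCj1 hxp
          exact mul_le_mul hHy2 h2 (by positivity) (by positivity)
  have hbase : ∀ l : List ℕ, l.length = j → (∀ d ∈ l, H1 ≤ d ∧ d < H) →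
      ∀ a b : ℕ, X ≤ a → (b : ℝ) ≤ 2 * X → ‖ES (ph t l) a b‖ ≤ κ * X := by
    intro l hl1 hl2 a b ha hb
    have hlp1 : (H1 : ℝ) ^ j ≤ lprod l := by
      have : H1 ^ l.length ≤ l.prod := List.pow_card_le_prod l H1 (fun d hd => (hl2 d hd).1)
      rw [hl1] at this
      unfold lprod
      exact_mod_cast this
    have hlp2 : lprod l ≤ (H : ℝ) ^ j := by
      have : l.prod ≤ H ^ l.length := List.prod_le_pow_card l H (fun d hd => (hl2 d hd).2.le)
      rw [hl1] at this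
      unfold lprod
      exact_mod_cast this
    have hls : lsum l ≤ j * H := by
      have : l.sum ≤ l.length • H := List.sum_le_card_nsmul l H (fun d hd => (hl2 d hd).2.le)
      rw [hl1, smul_eq_mul] at this
      unfold lsum
      exact_mod_cast this
    have hfac : (1 : ℝ) ≤ Nat.factorial j := by exact_mod_cast Nat.factorial_pos j
    have hH1pos' : (0 : ℝ) < H1 := by exact_mod_cast hH1pos
    have hlpos : 0 < lprod l := lt_of_lt_of_le (by positivity) hlp1
    have hYt : t * Y = X ^ ((j : ℝ) + 3 / 4) := by rw [hY]; field_simp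
    have h1 := kl_log t htpos l (fun d hd => hH1pos.trans (hl2 d hd).1) X hXpos a b ha ?_ ?_
    · rw [hl1] at h1
      refine h1.trans ?_
      rw [div_le_iff₀ (by positivity)]
      -- lower bound for the product
      have e1 : Real.sqrt y ^ j ≤ 4 ^ j * lprod l := by
        calc Real.sqrt y ^ j ≤ (4 * H1) ^ j := by gcongr
          _ = 4 ^ j * (H1 : ℝ) ^ j := by rw [mul_pow]
          _ ≤ _ := by gcongr
      -- t * sqrt y ^ j = sqrt t * X^(j/2+3/8) ≥ X^(j - 1/4 + 3/8)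
      have e2 : X ^ ((j : ℝ) + 1 / 8) ≤ t * Real.sqrt y ^ j := by
        have : X ^ ((j : ℝ) + 1 / 8) ^ 2 ≤ (t * Real.sqrt y ^ j) ^ 2 ∨ True := Or.inr trivial
        have h3 : (X ^ ((j : ℝ) + 1 / 8)) ^ 2 ≤ (t * Real.sqrt y ^ j) ^ 2 := by
          have e3 : (t * Real.sqrt y ^ j) ^ 2 = t * (t * Y) := by
            rw [mul_pow, ← pow_mul, mul_comm j 2, pow_mul, hsy2, hyj]; ring
          rw [e3, hYt, ← Real.rpow_natCast, ← Real.rpow_mul hXpos.le]
          calc X ^ (((j : ℝ) + 1 / 8) * ((2 : ℕ) : ℝ))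
              = X ^ ((j : ℝ) - 1 / 2) * X ^ ((j : ℝ) + 3 / 4) := by
                rw [← Real.rpow_add hXpos]; congr 1; push_cast; ring
            _ ≤ _ := by gcongr
        exact le_of_sq_le_sq h3 (by positivity)
      have e4 : (X : ℝ) ^ (j + 1) = X ^ ((j : ℝ) + 1 / 8) * X ^ ((7 : ℝ) / 8) := by
        rw [← Real.rpow_natCast, ← Real.rpow_add hXpos]; congr 1; push_cast; ring
      have e5 : X ^ ((7 : ℝ) / 8) ≤ X ^ (-(1 / (8 * (j : ℝ)))) * X := by
        rw [← Real.rpow_add_one hXpos.ne']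
        apply Real.rpow_le_rpow_of_exponent_le hX
        have : 1 / (8 * (j : ℝ)) ≤ 1 / 8 := by
          rw [div_le_div_iff₀ (by positivity) (by norm_num)]; linarith
        linarith
      calc 2 * Real.pi * (3 * X) ^ (j + 1)
          = 2 * Real.pi * 3 ^ (j + 1) * (X ^ ((j : ℝ) + 1 / 8) * X ^ ((7 : ℝ) / 8)) := by
            rw [mul_pow, e4]; ring
        _ ≤ 2 * Real.pi * 3 ^ (j + 1) * ((t * Real.sqrt y ^ j) *
              (X ^ (-(1 / (8 * (j : ℝ)))) * X)) := by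
            have := Real.pi_pos
            gcongr
        _ ≤ 2 * Real.pi * 3 ^ (j + 1) * ((t * (4 ^ j * lprod l)) *
              (X ^ (-(1 / (8 * (j : ℝ)))) * X)) := by
            have := Real.pi_pos
            gcongr
        _ = (2 * Real.pi * 3 ^ (j + 1) * 4 ^ j) * X ^ (-(1 / (8 * (j : ℝ)))) * X *
              (t * (lprod l * 1)) := by ring
        _ ≤ Cj * X ^ (-(1 / (8 * (j : ℝ)))) * X * (t * (lprod l * (Nat.factorial j : ℝ))) := by
            have := Real.pi_pos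
            have h6 : (4 : ℝ) ^ j ≤ 8 ^ j := by gcongr; norm_num
            rw [hCj]
            gcongr
        _ = _ := by rw [hκ]
    · have h7 : (j : ℝ) * H ≤ j * X ^ (3 / 4 : ℝ) := by gcongr; linarith
      have h8 : (1 : ℝ) ≤ X ^ (3 / 4 : ℝ) := Real.one_le_rpow hX (by norm_num)
      nlinarith
    · rw [hl1]
      have h9 : t * lprod l ≤ X ^ ((j : ℝ) + 3 / 4) := by
        rw [← hYt, ← hyj]
        calc t * lprod l ≤ t * (H : ℝ) ^ j := by gcongr
          _ ≤ t * y ^ j := by gcongr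
      have h10 : (Nat.factorial j : ℝ) ≤ X ^ (1 / 4 : ℝ) := by
        calc (Nat.factorial j : ℝ) = ((Nat.factorial j : ℝ) ^ 4) ^ (1 / 4 : ℝ) := by
              rw [← Real.rpow_natCast, ← Real.rpow_mul (by positivity)]; norm_num
          _ ≤ _ := by gcongr
      have h11 : t * (lprod l * (Nat.factorial j : ℝ)) ≤ X ^ (j + 1) := by
        calc t * (lprod l * (Nat.factorial j : ℝ)) = (t * lprod l) * (Nat.factorial j : ℝ) := by ring
          _ ≤ X ^ ((j : ℝ) + 3 / 4) * X ^ (1 / 4 : ℝ) := by gcongr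
          _ = X ^ (j + 1) := by
              rw [← Real.rpow_add hXpos, ← Real.rpow_natCast]; congr 1; push_cast; ring
      rw [div_le_iff₀ (by positivity)]
      have hpi := Real.pi_gt_three
      have : 0 < X ^ (j + 1) := by positivity
      nlinarith
  have hfin := diff_iter t X hX H H1 hH1pos hH1H hHX κ hκ0 hκ1 hκH j hbase j le_rfl [] (by simp)
    (by simp) a b ha hb
  refine hfin.trans ?_
  have e6 : κ ^ ((1 / 2 : ℝ) ^ j) ≤ Cj * X ^ (-δ) := by
    rw [hκ, Real.mul_rpow hCj0.le (by positivity), ← Real.rpow_mul hXpos.le]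
    have h1 : Cj ^ ((1 / 2 : ℝ) ^ j) ≤ Cj := by
      calc Cj ^ ((1 / 2 : ℝ) ^ j) ≤ Cj ^ (1 : ℝ) := by
            apply Real.rpow_le_rpow_of_exponent_le (by linarith)
            exact pow_le_one₀ (by norm_num) (by norm_num)
        _ = Cj := Real.rpow_one _
    have h2 : -(1 / (8 * (j : ℝ))) * (1 / 2 : ℝ) ^ j = -δ := by rw [hδ]; ring
    rw [h2]
    gcongr
  calc 10 * κ ^ ((1 / 2 : ℝ) ^ j) * X ≤ 10 * (Cj * X ^ (-δ)) * X := by gcongr
    _ = 10 * Cj * X ^ (1 - δ) := by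
        rw [show (1 : ℝ) - δ = -δ + 1 by ring, Real.rpow_add_one hXpos.ne']; ring
    _ ≤ _ := by gcongr; exact le_max_left _ _

end Pool.Agent.Lib.H62
end

section

/-!
Bounds for `∑ x^{it}` over dyadic intervals, all ranges of `t`, and weighted versions.
-/

open Finset Complex

namespace Pool.Agent.Lib.H62

theorem norm_ES_le_X {X : ℝ} (φ : ℕ → ℝ) (a b : ℕ) (hX : 0 ≤ X) (ha : X ≤ a)
    (hb : (b : ℝ) ≤ 2 * X) : ‖ES φ a b‖ ≤ X := by
  refine (norm_ES_le _ _ _).trans ?_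
  rcases le_total b a with hab | hab
  · have : b - a = 0 := by omega
    rw [this]; simpa using hX
  · rw [Nat.cast_sub hab]; linarith

theorem es_small {X t : ℝ} (hX : 1 ≤ X) (ht : 0 < t) (htX : t ≤ X) (a b : ℕ) (ha : X ≤ a)
    (hb : (b : ℝ) ≤ 2 * X) : ‖ES (ph t []) a b‖ ≤ 20 * (X / t) := by
  have hX0 : 0 < X := by linarith
  have h1 := kl_log t ht [] (by simp) X hX0 a b ha (by simp [lsum]; linarith) (by
    simp only [lprod, List.prod_nil, List.length_nil, Nat.factorial_zero, Nat.cast_one, mul_one,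
      zero_add, pow_one]
    have := Real.pi_gt_three
    rw [div_le_iff₀ hX0]
    nlinarith)
  simp only [lprod, List.prod_nil, List.length_nil, Nat.factorial_zero, Nat.cast_one, mul_one,
    zero_add, pow_one] at h1
  refine h1.trans ?_
  have hpi := Real.pi_lt_d2
  rw [mul_div_assoc, mul_div_assoc]
  have : 0 < X / t := by positivity
  nlinarith [Real.pi_gt_three]

theorem es_pos (C : ℕ) (hC : 1 ≤ C) : ∃ δ : ℝ, 0 < δ ∧ δ ≤ 1 ∧ ∃ K : ℝ, 0 < K ∧
    ∀ X t : ℝ, 1 ≤ X → X ≤ t →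
    t ≤ X ^ ((C : ℝ) + 1 / 2) → ∀ a b : ℕ, X ≤ a → (b : ℝ) ≤ 2 * X →
      ‖ES (ph t []) a b‖ ≤ K * X ^ (1 - δ) := by
  induction C, hC using Nat.le_induction with
  | base =>
    obtain ⟨K, hK, h⟩ := expsum_fixed 1 le_rfl
    refine ⟨(1 / 2 : ℝ) ^ 1 / (8 * (1 : ℕ)), by norm_num, by norm_num, K, hK, ?_⟩
    intro X t hX hXt ht a b ha hb
    refine h X t hX hXt ?_ ht a b ha hb
    refine le_trans ?_ hXt
    calc X ^ (((1 : ℕ) : ℝ) - 1 / 2) ≤ X ^ (1 : ℝ) := by
          apply Real.rpow_le_rpow_of_exponent_le hX; norm_num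
      _ = X := Real.rpow_one X
  | succ C hC ih =>
    obtain ⟨δ₁, hδ₁, hδ₁', K₁, hK₁, h₁⟩ := ih
    obtain ⟨K₂, hK₂, h₂⟩ := expsum_fixed (C + 1) (by omega)
    have hδ₂ : 0 < (1 / 2 : ℝ) ^ (C + 1) / (8 * ((C + 1 : ℕ) : ℝ)) := by positivity
    refine ⟨min δ₁ ((1 / 2 : ℝ) ^ (C + 1) / (8 * ((C + 1 : ℕ) : ℝ))), lt_min hδ₁ hδ₂,
      (min_le_left _ _).trans hδ₁', max K₁ K₂, lt_max_of_lt_left hK₁, ?_⟩
    intro X t hX hXt ht a b ha hb
    have hX0 : 0 < X := by linarith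
    rcases le_total t (X ^ ((C : ℝ) + 1 / 2)) with hle | hle
    · refine (h₁ X t hX hXt hle a b ha hb).trans ?_
      refine mul_le_mul (le_max_left _ _) ?_ (by positivity) (by positivity)
      apply Real.rpow_le_rpow_of_exponent_le hX
      linarith [min_le_left δ₁ ((1 / 2 : ℝ) ^ (C + 1) / (8 * ((C + 1 : ℕ) : ℝ)))]
    · refine (h₂ X t hX hXt ?_ ht a b ha hb).trans ?_
      · refine le_trans (le_of_eq ?_) hle
        congr 1
        push_cast; ring
      · refine mul_le_mul (le_max_right _ _) ?_ (by positivity) (by positivity)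
        apply Real.rpow_le_rpow_of_exponent_le hX
        linarith [min_le_right δ₁ ((1 / 2 : ℝ) ^ (C + 1) / (8 * ((C + 1 : ℕ) : ℝ)))]

theorem ph_nil_neg (t : ℝ) : ph (-t) [] = fun x => -(ph t [] x) := by
  funext x
  rw [ph_nil, ph_nil]; ring

theorem norm_ES_abs (t : ℝ) (a b : ℕ) : ‖ES (ph t []) a b‖ = ‖ES (ph |t| []) a b‖ := by
  rcases le_total 0 t with h | h
  · rw [abs_of_nonneg h]
  · rw [abs_of_nonpos h, ph_nil_neg, norm_ES_neg]

/-- Power saving for all `t` of polynomial size. -/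
theorem es_all (C : ℕ) : ∃ δ : ℝ, 0 < δ ∧ δ ≤ 1 ∧ ∃ K : ℝ, 0 < K ∧
    ∀ X t : ℝ, 1 ≤ X → t ≠ 0 → |t| ≤ X ^ C → ∀ a b : ℕ, X ≤ a → (b : ℝ) ≤ 2 * X →
      ‖ES (ph t []) a b‖ ≤ K * (X ^ (1 - δ) + X / |t|) := by
  obtain ⟨δ, hδ, hδ', K, hK, h⟩ := es_pos (C + 1) (by omega)
  refine ⟨δ, hδ, hδ', max K 20, lt_max_of_lt_left hK, ?_⟩
  intro X t hX ht htC a b ha hb
  have hX0 : 0 < X := by linarith
  have ht0 : 0 < |t| := abs_pos.mpr ht
  have hp : 0 < X ^ (1 - δ) := Real.rpow_pos_of_pos hX0 _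
  have hq : 0 < X / |t| := by positivity
  rw [norm_ES_abs]
  rcases le_total |t| X with hle | hle
  · refine (es_small hX ht0 hle a b ha hb).trans ?_
    refine mul_le_mul (le_max_right _ _) ?_ (by positivity) (by positivity)
    linarith
  · refine (h X |t| hX hle ?_ a b ha hb).trans ?_
    · refine htC.trans ?_
      rw [← Real.rpow_natCast]
      apply Real.rpow_le_rpow_of_exponent_le hX
      push_cast
      linarith
    · refine mul_le_mul (le_max_left _ _) ?_ (by positivity) (by positivity)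
      linarith

theorem harmonic_bound (H : ℕ) (hH : 1 ≤ H) : ∑ d ∈ Ico 1 H, (1 : ℝ) / d ≤ 1 + Real.log H := by
  have h1 : ∑ d ∈ Ico 1 H, (1 : ℝ) / d ≤ ((harmonic H : ℚ) : ℝ) := by
    rw [harmonic_eq_sum_Icc]
    push_cast
    have : Ico 1 H ⊆ Icc 1 H := by
      intro x hx; rw [mem_Ico] at hx; rw [mem_Icc]; omega
    refine le_trans ?_ (Finset.sum_le_sum_of_subset_of_nonneg this (fun i _ _ => by positivity))
    apply le_of_eq
    apply Finset.sum_congr rfl
    intro x _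
    rw [one_div]
  exact h1.trans (harmonic_le_one_add_log H)

/-- van der Corput's second derivative bound. -/
theorem es_vdc_mid {X t : ℝ} (hX : 1 ≤ X) (htX : X ≤ t) (htX2 : t ≤ X ^ 2) (a b : ℕ)
    (ha : X ≤ a) (hb : (b : ℝ) ≤ 2 * X) :
    ‖ES (ph t []) a b‖ ^ 2 ≤ 3 * t + 350 * X * (2 + Real.log X) := by
  have hX0 : 0 < X := by linarith
  have ht0 : 0 < t := by linarith
  have hlogX : 0 ≤ Real.log X := Real.log_nonneg hX
  rcases le_total b a with hab | hab
  · have : ES (ph t []) a b = 0 := by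
      unfold ES; rw [Finset.Ico_eq_empty (by omega)]; simp
    rw [this, norm_zero]
    have h0 : 0 ≤ 350 * X * (2 + Real.log X) := mul_nonneg (by positivity) (by linarith)
    nlinarith
  have hN : (((b - a : ℕ) : ℝ)) ≤ X := by
    rw [Nat.cast_sub hab]; linarith
  have hN0 : (0 : ℝ) ≤ ((b - a : ℕ) : ℝ) := Nat.cast_nonneg _
  set Y : ℝ := X ^ 2 / t with hY
  have hY0 : 0 < Y := by rw [hY]; positivity
  have hY1 : 1 ≤ Y := by rw [hY, le_div_iff₀ ht0]; linarith
  have hYX : Y ≤ X := by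
    rw [hY, div_le_iff₀ ht0]; nlinarith
  set H : ℕ := ⌊Y⌋₊ + 1 with hH
  have hHY : Y ≤ H := by
    rw [hH]; push_cast; exact (Nat.lt_floor_add_one Y).le
  have hH1 : 1 ≤ H := by omega
  have hHX : (H : ℝ) ≤ X + 1 := by
    rw [hH]; push_cast
    have := Nat.floor_le hY0.le
    linarith
  have hH2 : (H : ℝ) ≤ 2 * X := by linarith
  have h1 := vdc (ph t []) a b hab H hH1
  have h2 : ∑ d ∈ Ico 1 H, ‖ES (fun x => ph t [] (x + d) - ph t [] x) a (b - d)‖ ≤
      57 * (X ^ 2 / t) * (2 + Real.log X) := by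
    have h3 : ∀ d ∈ Ico 1 H, ‖ES (fun x => ph t [] (x + d) - ph t [] x) a (b - d)‖ ≤
        57 * (X ^ 2 / t) * (1 / d) := by
      intro d hd
      rw [mem_Ico] at hd
      have hd1 : (1 : ℝ) ≤ d := by exact_mod_cast hd.1
      have hdY : (d : ℝ) ≤ Y := by
        have : d ≤ ⌊Y⌋₊ := by omega
        exact (Nat.le_floor_iff hY0.le).mp this
      have e : (fun x => ph t [] (x + d) - ph t [] x) = ph t [d] := by
        funext x; rw [ph_cons]
      rw [e]
      rcases Nat.lt_or_ge b (a + d) with hbd | hbd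
      · have : ES (ph t [d]) a (b - d) = 0 := by
          unfold ES; rw [Finset.Ico_eq_empty (by omega)]; simp
        rw [this, norm_zero]
        positivity
      have h4 := kl_log t ht0 [d] (by simpa using hd.1) X hX0 a (b - d) ha (by
        rw [Nat.cast_sub (by omega)]
        simp [lsum]
        linarith) (by
        simp only [lprod, List.prod_cons, List.prod_nil, List.length_cons, List.length_nil,
          mul_one, zero_add, Nat.factorial_one, Nat.cast_one]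
        rw [div_le_iff₀ (by positivity)]
        have h5 : t * d ≤ X ^ 2 := by
          rw [hY, le_div_iff₀ ht0] at hdY
          linarith
        have := Real.pi_gt_three
        have h6 : 0 ≤ X ^ (1 + 1) := by positivity
        calc t * (d : ℝ) ≤ X ^ 2 := h5
          _ = 1 * X ^ (1 + 1) := by ring
          _ ≤ _ := by gcongr; linarith)
      simp only [lprod, List.prod_cons, List.prod_nil, List.length_cons, List.length_nil,
        mul_one, zero_add, Nat.factorial_one, Nat.cast_one] at h4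
      refine h4.trans ?_
      have hpi := Real.pi_lt_d2
      have e2 : 2 * Real.pi * (3 * X) ^ (1 + 1) / (t * (d : ℝ)) =
          (18 * Real.pi) * ((X ^ 2 / t) * (1 / d)) := by
        field_simp
        ring
      rw [e2, mul_assoc]
      have : 0 ≤ (X ^ 2 / t) * (1 / (d : ℝ)) := by positivity
      nlinarith
    refine (Finset.sum_le_sum h3).trans ?_
    rw [← Finset.mul_sum]
    have h4 := harmonic_bound H hH1
    have h5 : Real.log H ≤ 1 + Real.log X := by
      calc Real.log H ≤ Real.log (2 * X) := Real.log_le_log (by positivity) hH2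
        _ = Real.log 2 + Real.log X := Real.log_mul (by norm_num) hX0.ne'
        _ ≤ _ := by linarith [Real.log_two_lt_d9]
    gcongr
    linarith
  have h6 : (H : ℝ) * ‖ES (ph t []) a b‖ ^ 2 ≤
      (3 * X) * (X + 2 * (57 * (X ^ 2 / t) * (2 + Real.log X))) := by
    refine h1.trans ?_
    refine mul_le_mul (by linarith) (by linarith) ?_ (by positivity)
    have : 0 ≤ ∑ d ∈ Ico 1 H, ‖ES (fun x => ph t [] (x + d) - ph t [] x) a (b - d)‖ :=
      Finset.sum_nonneg (fun _ _ => norm_nonneg _)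
    linarith
  have h7 : Y * ‖ES (ph t []) a b‖ ^ 2 ≤ Y * (3 * t + 350 * X * (2 + Real.log X)) := by
    calc Y * ‖ES (ph t []) a b‖ ^ 2 ≤ H * ‖ES (ph t []) a b‖ ^ 2 := by gcongr
      _ ≤ _ := h6
      _ = Y * (3 * t + 342 * X * (2 + Real.log X)) := by
          rw [hY]; field_simp; ring
      _ ≤ _ := by gcongr; norm_num
  exact le_of_mul_le_mul_left h7 hY0

/-- van der Corput's bound, all `|t| ≥ 1`. -/
theorem es_vdc {X t : ℝ} (hX : 1 ≤ X) (ht : t ≠ 0) (a b : ℕ)
    (ha : X ≤ a) (hb : (b : ℝ) ≤ 2 * X) :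
    ‖ES (ph t []) a b‖ ≤ 30 * (X / |t| + Real.sqrt |t| * (1 + Real.log X)) := by
  have hX0 : 0 < X := by linarith
  have ht0 : 0 < |t| := abs_pos.mpr ht
  have hlogX : 0 ≤ Real.log X := Real.log_nonneg hX
  have hq : 0 < X / |t| := by positivity
  have hs : 0 ≤ Real.sqrt |t| := Real.sqrt_nonneg _
  have hs2 : Real.sqrt |t| ^ 2 = |t| := Real.sq_sqrt ht0.le
  rw [norm_ES_abs]
  rcases le_total |t| X with hle | hle
  · refine (es_small hX ht0 hle a b ha hb).trans ?_
    nlinarith [mul_nonneg hs hlogX]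
  · rcases le_total |t| (X ^ 2) with hle2 | hle2
    · have h1 := es_vdc_mid hX hle hle2 a b ha hb
      have h2 : ‖ES (ph |t| []) a b‖ ^ 2 ≤ (30 * (Real.sqrt |t| * (1 + Real.log X))) ^ 2 := by
        refine h1.trans ?_
        rw [mul_pow, mul_pow, hs2]
        have h3 : 350 * X * (2 + Real.log X) ≤ 350 * |t| * (2 + Real.log X) := by gcongr
        have h4 : 3 * |t| + 350 * |t| * (2 + Real.log X) ≤
            30 ^ 2 * (|t| * (1 + Real.log X) ^ 2) := by
          have : 3 + 350 * (2 + Real.log X) ≤ 30 ^ 2 * (1 + Real.log X) ^ 2 := by nlinarith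
          nlinarith
        linarith
      have h5 := abs_le_of_sq_le_sq h2 (by positivity)
      have h6 := (abs_le.mp h5).2
      linarith
    · have h1 : ‖ES (ph |t| []) a b‖ ≤ X := norm_ES_le_X _ a b hX0.le ha hb
      have h2 : X ≤ Real.sqrt |t| := Real.le_sqrt_of_sq_le hle2
      nlinarith [mul_nonneg hs hlogX]

end Pool.Agent.Lib.H62
end

section

/-!
E1. Weyl's third derivative bound for `∑ n^(it)` on dyadic intervals.

PROOF. By `norm_ES_abs` assume `t ≥ 1`.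
* `X ≤ t^(1/3)`: trivial bound `X ≤ t^(1/6) X^(1/2)` (`norm_ES_le_X`).
* `X ≥ t^(2/3)`: `es_vdc` gives `30 (X/t + √t (1 + log X))` and `√t ≤ t^(1/6) X^(1/2)`.
* `t^(1/3) ≤ X ≤ t^(2/3)`: two differencing steps (`vdc`, `ph_cons`) and Kusmin-Landau (`kl_log`), exactly as in the proof of
  `es_vdc_mid`. Inner step, for fixed `1 ≤ d ≤ c X³/t` (c small absolute) and the phase `ph t [d]`: apply `vdc` with
  `H₂ = ⌊min(X, X³/(t d)) / C⌋ + 1`; for `1 ≤ e < H₂`, `kl_log` with `l = [e, d]` gives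
  `‖ES (ph t [e, d])‖ ≤ C X³/(t d e)` (the derivative `2 t d e / X³` is at most `π`), and `∑ 1/e ≤ 1 + log H₂`, so
  `‖ES (ph t [d]) a b‖² ≤ C (t d / X + X (1 + log X) + X³ (1 + log X)/(t d))`
  (when `d < X²/t` one takes `H₂ ~ X/C`, the third term appears).
  Outer step: `vdc` with `H₁ = ⌊X t^(-1/3)⌋` (at least 1; `H₁ ≤ c X³/t` because `X² ≥ t^(2/3)`, reduce by a constant if
  necessary, or use the trivial bound for `X ≤ C t^(1/3)`): with `√(x+y+z) ≤ √x + √y + √z`,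
  `‖ES (ph t []) a b‖² ≤ C X²/H₁ + (C X/H₁) ∑_{d < H₁} (√(td/X) + √(X (1+log X)) + √(X³ (1+log X)/(t d)))`
  `≤ C X²/H₁ + C X √(t H₁/X) + C X √(X (1+log X)) + C X √(X³ (1+log X)/(t H₁))`
  `≤ C X t^(1/3) (1 + log X)` because `X ≤ t^(2/3)` gives `X^(1/2) ≤ t^(1/3)` and `X^(5/2) t^(-1/2) H₁^(-1/2) = X² t^(-1/3) ≤ X t^(1/3)`.
  Taking the square root gives the claim (with `√(1 + log X) ≤ 1 + log X`).
-/

set_option autoImplicit false

open Finset

namespace Pool.Agent.Lib.MP_9a8698_nt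

open Pool.Agent.Lib.H62

theorem wy_sum_log {X K : ℝ} (hX : 1 ≤ X) (hK : 0 ≤ K) (hKX : K ≤ X) :
    ∑ e ∈ Ico 1 (⌊K⌋₊ + 1), (1 : ℝ) / e ≤ 2 * (1 + Real.log X) := by
  have hX0 : 0 < X := by linarith
  have hlog : 0 ≤ Real.log X := Real.log_nonneg hX
  have h1 := harmonic_bound (⌊K⌋₊ + 1) (by omega)
  have h2 : ((⌊K⌋₊ + 1 : ℕ) : ℝ) ≤ 2 * X := by
    push_cast
    have := Nat.floor_le hK
    linarith
  have h3 : Real.log ((⌊K⌋₊ + 1 : ℕ) : ℝ) ≤ 1 + Real.log X := by
    calc Real.log ((⌊K⌋₊ + 1 : ℕ) : ℝ) ≤ Real.log (2 * X) := Real.log_le_log (by positivity) h2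
      _ = Real.log 2 + Real.log X := Real.log_mul (by norm_num) hX0.ne'
      _ ≤ _ := by linarith [Real.log_two_lt_d9]
  linarith

theorem wy_inner {X t : ℝ} (hX : 1 ≤ X) (ht : 0 < t) (d : ℕ) (hd : 1 ≤ d)
    (htd : t * d ≤ X ^ 3) (a b : ℕ) (ha : X ≤ a) (hb : (b : ℝ) + d ≤ 2 * X) :
    ‖ES (ph t [d]) a b‖ ^ 2 ≤ 3 * t / X * d + 1026 * (1 + Real.log X) * X +
      1020 * (1 + Real.log X) * X ^ 3 / t * (1 / d) := by
  have hX0 : 0 < X := by linarith
  have hlog : 0 ≤ Real.log X := Real.log_nonneg hX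
  have hd1 : (1 : ℝ) ≤ d := by exact_mod_cast hd
  have hd0 : (0 : ℝ) < d := by linarith
  set L : ℝ := 1 + Real.log X with hL
  have hL1 : 1 ≤ L := by linarith
  have htd0 : 0 < t * d := by positivity
  set W : ℝ := X ^ 3 / (t * d) with hW
  have hW0 : 0 < W := by positivity
  have hW1 : 1 ≤ W := by rw [hW, le_div_iff₀ htd0]; linarith
  have hrhs : 3 * t / X * d + 1026 * L * X + 1020 * L * X ^ 3 / t * (1 / d) =
      3 * (t * d / X) + 1026 * L * X + 1020 * L * W := by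
    rw [hW]; field_simp
  rw [hrhs]
  have hpos : 0 ≤ 3 * (t * d / X) + 1026 * L * X + 1020 * L * W := by positivity
  rcases le_total b a with hab | hab
  · have : ES (ph t [d]) a b = 0 := by
      unfold ES; rw [Finset.Ico_eq_empty (by omega)]; simp
    rw [this, norm_zero]
    simpa using hpos
  have hN : (((b - a : ℕ) : ℝ)) ≤ X := by
    rw [Nat.cast_sub hab]; linarith
  have hN0 : (0 : ℝ) ≤ ((b - a : ℕ) : ℝ) := Nat.cast_nonneg _
  set Y : ℝ := min X W with hY
  have hY0 : 0 < Y := lt_min hX0 hW0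
  have hY1 : 1 ≤ Y := le_min hX hW1
  have hYX : Y ≤ X := min_le_left _ _
  have hYW : Y ≤ W := min_le_right _ _
  have hHY : Y ≤ ((⌊Y⌋₊ + 1 : ℕ) : ℝ) := by
    push_cast; exact (Nat.lt_floor_add_one Y).le
  have hHX : ((⌊Y⌋₊ + 1 : ℕ) : ℝ) ≤ 2 * X := by
    push_cast
    have := Nat.floor_le hY0.le
    linarith
  have h1 := vdc (ph t [d]) a b hab (⌊Y⌋₊ + 1) (by omega)
  have h2 : ∑ e ∈ Ico 1 (⌊Y⌋₊ + 1), ‖ES (fun x => ph t [d] (x + e) - ph t [d] x) a (b - e)‖ ≤
      85 * W * (2 * L) := by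
    have h3 : ∀ e ∈ Ico 1 (⌊Y⌋₊ + 1),
        ‖ES (fun x => ph t [d] (x + e) - ph t [d] x) a (b - e)‖ ≤ 85 * W * (1 / e) := by
      intro e he
      rw [mem_Ico] at he
      have he1 : (1 : ℝ) ≤ e := by exact_mod_cast he.1
      have he0 : (0 : ℝ) < e := by linarith
      have heY : (e : ℝ) ≤ Y := by
        have : e ≤ ⌊Y⌋₊ := by omega
        exact (Nat.le_floor_iff hY0.le).mp this
      have e1 : (fun x => ph t [d] (x + e) - ph t [d] x) = ph t [e, d] := by
        funext x; exact (ph_cons t e [d] x).symm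
      rw [e1]
      rcases Nat.lt_or_ge b (a + e) with hbd | hbd
      · have : ES (ph t [e, d]) a (b - e) = 0 := by
          unfold ES; rw [Finset.Ico_eq_empty (by omega)]; simp
        rw [this, norm_zero]
        positivity
      have h5 : t * d * e ≤ X ^ 3 := by
        have h6 : (e : ℝ) ≤ X ^ 3 / (t * d) := heY.trans hYW
        rw [le_div_iff₀ htd0] at h6
        linarith
      have hlp : lprod [e, d] = (e : ℝ) * d := by
        rw [lprod_cons, lprod_cons]
        simp [lprod]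
      have hls : lsum [e, d] = (e : ℝ) + d := by
        rw [lsum_cons, lsum_cons]
        simp [lsum]
      have hlen : ([e, d] : List ℕ).length = 2 := rfl
      have h4 := kl_log t ht [e, d] (by
        intro h hh
        simp only [List.mem_cons, List.not_mem_nil, or_false] at hh
        rcases hh with rfl | rfl
        · exact he.1
        · exact hd) X hX0 a (b - e) ha (by
        rw [hls, Nat.cast_sub (by omega)]
        linarith) (by
        rw [hlp, hlen, div_le_iff₀ (by positivity)]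
        have h7 : (Nat.factorial 2 : ℝ) = 2 := by norm_num [Nat.factorial]
        rw [h7]
        have := Real.pi_gt_three
        have h8 : 0 < X ^ (2 + 1) := by positivity
        have h9 : X ^ (2 + 1) = X ^ 3 := rfl
        rw [h9] at h8 ⊢
        nlinarith)
      rw [hlp, hlen] at h4
      refine h4.trans ?_
      have h7 : (Nat.factorial 2 : ℝ) = 2 := by norm_num [Nat.factorial]
      rw [h7]
      have e2 : 2 * Real.pi * (3 * X) ^ (2 + 1) / (t * ((e : ℝ) * d * 2)) =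
          (27 * Real.pi) * (W * (1 / e)) := by
        rw [hW]
        field_simp
        ring
      rw [e2, mul_assoc]
      have hpi := Real.pi_lt_d4
      have : 0 ≤ W * (1 / (e : ℝ)) := by positivity
      nlinarith
    refine (Finset.sum_le_sum h3).trans ?_
    rw [← Finset.mul_sum]
    have h4 := wy_sum_log hX hY0.le hYX
    gcongr
  have h6 : ((⌊Y⌋₊ + 1 : ℕ) : ℝ) * ‖ES (ph t [d]) a b‖ ^ 2 ≤
      (3 * X) * (X + 2 * (85 * W * (2 * L))) := by
    refine h1.trans ?_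
    refine mul_le_mul (by linarith) (by linarith) ?_ (by positivity)
    have : 0 ≤ ∑ e ∈ Ico 1 (⌊Y⌋₊ + 1),
        ‖ES (fun x => ph t [d] (x + e) - ph t [d] x) a (b - e)‖ :=
      Finset.sum_nonneg (fun _ _ => norm_nonneg _)
    linarith
  have h7 : Y * ‖ES (ph t [d]) a b‖ ^ 2 ≤ (3 * X) * (X + 340 * W * L) := by
    calc Y * ‖ES (ph t [d]) a b‖ ^ 2 ≤ ((⌊Y⌋₊ + 1 : ℕ) : ℝ) * ‖ES (ph t [d]) a b‖ ^ 2 := by
          gcongr
      _ ≤ _ := h6
      _ = _ := by ring
  have htdW : t * d / X * W = X ^ 2 := by rw [hW]; field_simp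
  have h8 : (3 * X) * (X + 340 * W * L) ≤ Y * (3 * (t * d / X) + 1026 * L * X + 1020 * L * W) := by
    rcases le_total X W with hXW | hXW
    · have e1 : Y = X := min_eq_left hXW
      rw [e1]
      have hq : 0 ≤ t * d / X := by positivity
      have hX2 : 0 ≤ X * X := by positivity
      have hWX : 0 ≤ W * X := by positivity
      nlinarith [mul_nonneg hX0.le hq, mul_nonneg (sub_nonneg.2 hL1) hX2]
    · have e1 : Y = W := min_eq_right hXW
      rw [e1]
      have hW2 : 0 ≤ L * W * W := by positivity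
      have hXWL : 0 ≤ X * W := by positivity
      nlinarith [mul_nonneg (sub_nonneg.2 hL1) hXWL]
  exact le_of_mul_le_mul_left (h7.trans h8) hY0

theorem wy_mid {X u : ℝ} (hX : 1 ≤ X) (hu : 1 ≤ u) (huX : u ≤ X) (hXu : X ≤ u ^ 2) (a b : ℕ)
    (ha : X ≤ a) (hb : (b : ℝ) ≤ 2 * X) :
    ‖ES (ph (u ^ 3) []) a b‖ ^ 2 ≤ 339 * (1 + Real.log X) * (X * u) := by
  have hX0 : 0 < X := by linarith
  have hu0 : 0 < u := by linarith
  have hlog : 0 ≤ Real.log X := Real.log_nonneg hX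
  set L : ℝ := 1 + Real.log X with hL
  have hL1 : 1 ≤ L := by linarith
  rcases le_total b a with hab | hab
  · have : ES (ph (u ^ 3) []) a b = 0 := by
      unfold ES; rw [Finset.Ico_eq_empty (by omega)]; simp
    rw [this, norm_zero]
    have : 0 ≤ 339 * L * (X * u) := by positivity
    simpa using this
  have hN : (((b - a : ℕ) : ℝ)) ≤ X := by
    rw [Nat.cast_sub hab]; linarith
  have hN0 : (0 : ℝ) ≤ ((b - a : ℕ) : ℝ) := Nat.cast_nonneg _
  set K : ℝ := X / u with hK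
  have hK0 : 0 < K := by positivity
  have hK1 : 1 ≤ K := by rw [hK, le_div_iff₀ hu0]; linarith
  have hKX : K ≤ X := by rw [hK, div_le_iff₀ hu0]; nlinarith
  have hKu : K * u = X := by rw [hK]; field_simp
  have hfl : (⌊K⌋₊ : ℝ) ≤ K := Nat.floor_le hK0.le
  have hHK : K ≤ ((⌊K⌋₊ + 1 : ℕ) : ℝ) := by
    push_cast; exact (Nat.lt_floor_add_one K).le
  have hHX : ((⌊K⌋₊ + 1 : ℕ) : ℝ) ≤ 2 * X := by
    push_cast
    linarith
  have h1 := vdc (ph (u ^ 3) []) a b hab (⌊K⌋₊ + 1) (by omega)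
  set f : ℕ → ℝ := fun d => ‖ES (fun x => ph (u ^ 3) [] (x + d) - ph (u ^ 3) [] x) a (b - d)‖
    with hf
  have hfd : ∀ d ∈ Ico 1 (⌊K⌋₊ + 1), f d ^ 2 ≤ 3 * u ^ 3 / X * K + 1026 * L * X +
      1020 * L * X ^ 3 / u ^ 3 * (1 / d) := by
    intro d hd
    rw [mem_Ico] at hd
    have hd1 : (1 : ℝ) ≤ d := by exact_mod_cast hd.1
    have hd0 : (0 : ℝ) < d := by linarith
    have hdK : (d : ℝ) ≤ K := by
      have : d ≤ ⌊K⌋₊ := by omega
      exact (Nat.le_floor_iff hK0.le).mp this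
    have e1 : (fun x => ph (u ^ 3) [] (x + d) - ph (u ^ 3) [] x) = ph (u ^ 3) [d] := by
      funext x; rw [ph_cons]
    simp only [hf]
    rw [e1]
    rcases Nat.lt_or_ge b (a + d) with hbd | hbd
    · have : ES (ph (u ^ 3) [d]) a (b - d) = 0 := by
        unfold ES; rw [Finset.Ico_eq_empty (by omega)]; simp
      rw [this, norm_zero]
      have : 0 ≤ 3 * u ^ 3 / X * K + 1026 * L * X + 1020 * L * X ^ 3 / u ^ 3 * (1 / d) := by
        positivity
      simpa using this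
    have htd : u ^ 3 * d ≤ X ^ 3 := by
      calc u ^ 3 * d ≤ u ^ 3 * K := by gcongr
        _ = u ^ 2 * X := by rw [← hKu]; ring
        _ ≤ X ^ 2 * X := by gcongr
        _ = X ^ 3 := by ring
    have h3 := wy_inner hX (by positivity : 0 < u ^ 3) d hd.1 htd a (b - d) ha (by
      rw [Nat.cast_sub (by omega)]
      linarith)
    refine h3.trans ?_
    have : 3 * u ^ 3 / X * d ≤ 3 * u ^ 3 / X * K := by gcongr
    linarith
  have hcard : (#(Ico 1 (⌊K⌋₊ + 1)) : ℝ) ≤ K := by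
    rw [Nat.card_Ico]
    simpa using hfl
  have hsum : ∑ d ∈ Ico 1 (⌊K⌋₊ + 1), f d ^ 2 ≤
      K * (3 * u ^ 3 / X * K + 1026 * L * X) + 1020 * L * X ^ 3 / u ^ 3 * (2 * L) := by
    refine (Finset.sum_le_sum hfd).trans ?_
    rw [Finset.sum_add_distrib, Finset.sum_const, nsmul_eq_mul, ← Finset.mul_sum]
    have h4 := wy_sum_log hX hK0.le hKX
    gcongr
  have hcs : (∑ d ∈ Ico 1 (⌊K⌋₊ + 1), f d) ^ 2 ≤ (56 * L * X) ^ 2 := by
    have h5 := sq_sum_le_card_mul_sum_sq (s := Ico 1 (⌊K⌋₊ + 1)) (f := f)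
    have h6 : 0 ≤ ∑ d ∈ Ico 1 (⌊K⌋₊ + 1), f d ^ 2 := Finset.sum_nonneg (fun _ _ => sq_nonneg _)
    calc (∑ d ∈ Ico 1 (⌊K⌋₊ + 1), f d) ^ 2
        ≤ (#(Ico 1 (⌊K⌋₊ + 1)) : ℝ) * ∑ d ∈ Ico 1 (⌊K⌋₊ + 1), f d ^ 2 := h5
      _ ≤ K * (K * (3 * u ^ 3 / X * K + 1026 * L * X) +
            1020 * L * X ^ 3 / u ^ 3 * (2 * L)) := by gcongr
      _ = 3 * X ^ 2 + 1026 * L * (X ^ 2 * (X / u ^ 2)) + 2040 * L ^ 2 * (X ^ 2 * (X / u ^ 2) ^ 2) := by
          rw [hK]; field_simp; ring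
      _ ≤ 3 * X ^ 2 + 1026 * L * (X ^ 2 * 1) + 2040 * L ^ 2 * (X ^ 2 * 1 ^ 2) := by
          have h7 : X / u ^ 2 ≤ 1 := by rw [div_le_one (by positivity)]; exact hXu
          have h8 : 0 ≤ X / u ^ 2 := by positivity
          gcongr
      _ ≤ (56 * L * X) ^ 2 := by
          have h9 : 3 + 1026 * L + 2040 * L ^ 2 ≤ 3136 * L ^ 2 := by nlinarith
          have h10 : 0 ≤ X ^ 2 := by positivity
          nlinarith
  have hs : ∑ d ∈ Ico 1 (⌊K⌋₊ + 1), f d ≤ 56 * L * X := by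
    have h5 := abs_le_of_sq_le_sq hcs (by positivity)
    exact (abs_le.mp h5).2
  have h6 : K * ‖ES (ph (u ^ 3) []) a b‖ ^ 2 ≤ K * (339 * L * (X * u)) := by
    calc K * ‖ES (ph (u ^ 3) []) a b‖ ^ 2
        ≤ ((⌊K⌋₊ + 1 : ℕ) : ℝ) * ‖ES (ph (u ^ 3) []) a b‖ ^ 2 := by gcongr
      _ ≤ _ := h1
      _ ≤ (3 * X) * (113 * L * X) := by
          have h7 : 0 ≤ ∑ d ∈ Ico 1 (⌊K⌋₊ + 1), f d := Finset.sum_nonneg (fun _ _ => norm_nonneg _)
          refine mul_le_mul (by linarith) ?_ (by linarith) (by positivity)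
          have h8 : X ≤ L * X := by nlinarith
          nlinarith
      _ = K * (339 * L * (X * u)) := by
          rw [show K * (339 * L * (X * u)) = 339 * L * X * (K * u) by ring, hKu]; ring
  exact le_of_mul_le_mul_left h6 hK0

theorem es_weyl : ∃ C : ℝ, 0 < C ∧ ∀ X t : ℝ, 1 ≤ X → 1 ≤ |t| → ∀ a b : ℕ, X ≤ a →
    (b : ℝ) ≤ 2 * X → ‖ES (ph t []) a b‖ ≤
      C * (1 + Real.log X) * (|t| ^ ((1 : ℝ) / 6) * X ^ ((1 : ℝ) / 2) + X / |t|) := by
  refine ⟨30, by norm_num, ?_⟩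
  intro X t' hX ht' a b ha hb
  rw [norm_ES_abs]
  set t : ℝ := |t'| with htdef
  have ht0 : 0 < t := by linarith
  have hX0 : 0 < X := by linarith
  have hlog : 0 ≤ Real.log X := Real.log_nonneg hX
  set L : ℝ := 1 + Real.log X with hL
  have hL1 : 1 ≤ L := by linarith
  set u : ℝ := t ^ ((1 : ℝ) / 3) with hu
  have hu1 : 1 ≤ u := Real.one_le_rpow ht' (by norm_num)
  have hu0 : 0 < u := by linarith
  have hu3 : u ^ 3 = t := by
    rw [hu, ← Real.rpow_natCast, ← Real.rpow_mul ht0.le]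
    norm_num
  set w : ℝ := t ^ ((1 : ℝ) / 6) * X ^ ((1 : ℝ) / 2) with hw
  have hw0 : 0 ≤ w := by positivity
  have hw2 : w ^ 2 = u * X := by
    rw [hw, mul_pow, hu, ← Real.rpow_natCast (t ^ ((1 : ℝ) / 6)), ← Real.rpow_mul ht0.le,
      ← Real.rpow_natCast (X ^ ((1 : ℝ) / 2)), ← Real.rpow_mul hX0.le]
    norm_num
  have hq : 0 ≤ X / t := by positivity
  have hLq : X / t ≤ L * (X / t) := by nlinarith
  have hLw : w ≤ L * w := by nlinarith
  rcases le_total X u with h1 | h1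
  · have h2 : ‖ES (ph t []) a b‖ ≤ X := norm_ES_le_X _ a b hX0.le ha hb
    have h3 : X ≤ w := by
      have h4 : X ^ 2 ≤ w ^ 2 := by rw [hw2]; nlinarith
      exact (abs_le.mp (abs_le_of_sq_le_sq h4 hw0)).2
    nlinarith
  · rcases le_total X (u ^ 2) with h2 | h2
    · have h3 := wy_mid hX hu1 h1 h2 a b ha hb
      rw [hu3] at h3
      have h4 : ‖ES (ph t []) a b‖ ^ 2 ≤ (30 * L * w) ^ 2 := by
        refine h3.trans ?_
        have h5 : (30 * L * w) ^ 2 = 900 * L ^ 2 * (u * X) := by rw [← hw2]; ring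
        rw [h5]
        have h6 : 0 ≤ u * X := by positivity
        have h7 : 339 * L ≤ 900 * L ^ 2 := by nlinarith
        nlinarith
      have h5 := (abs_le.mp (abs_le_of_sq_le_sq h4 (by positivity))).2
      nlinarith [mul_nonneg (by linarith : (0 : ℝ) ≤ L) hq]
    · have h3 := es_vdc hX ht0.ne' a b ha hb
      rw [abs_of_pos ht0] at h3
      have h4 : Real.sqrt t ≤ w := by
        apply Real.sqrt_le_iff.2
        refine ⟨hw0, ?_⟩
        rw [hw2, ← hu3]
        nlinarith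
      have h5 : Real.sqrt t * L ≤ w * L := by gcongr
      nlinarith

end Pool.Agent.Lib.MP_9a8698_nt
end
end
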