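import Pool.Agent.Lib.MP_9a8698_nt.C3

section

/-!
S1. Large values of the polynomial over the small primes, and the mean value theorem with weight `1/|t|`
(A1, A2, A3, A4 may be used, `sorry` or not).

PROOF of `large_values`. `W = DP Q 1` is `IsDP 1 1 y Y`, so `W^j` is `IsDP j 1 (y^j) (Y^j)` (`IsDP.pow`), and
`IsDP.mvt` gives `∫_{|t| ≤ τ} ‖W‖^(2j) ≤ C (τ/y^j + 1) (1 + log Y^j)^(j²) ≤ 2C (1 + j log Y)^(j²)`; Markov.
PROOF of `mvt_log`. For `2^i T₀ ≤ |t| ≤ 2^(i+1) T₀` the mean value theorem at scale `2^(i+1) T₀` gives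
`∫ ‖f‖²/|t| ≤ (2^i T₀)^(-1) C (2^(i+1) T₀/N + 1) B² (1 + log M)^(r²) = C B² (...) (2/N + 1/(2^i T₀))`; sum over
`0 ≤ i ≤ log_2(T₁/T₀)` (at most `1 + 2 log T₁` values).
-/

set_option autoImplicit false

open Finset MeasureTheory

namespace Pool.Agent.Lib.MP_9a8698_nt

theorem large_values : ∃ C : ℝ, 0 < C ∧ ∀ (Q : Finset ℕ) (y Y τ V : ℝ) (j : ℕ), Q.Nonempty →
    (∀ q ∈ Q, 1 ≤ q ∧ y ≤ (q : ℝ) ∧ (q : ℝ) ≤ Y) → 1 ≤ y → 1 ≤ τ → τ ≤ y ^ j → 0 < V →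
    (volume {t : ℝ | |t| ≤ τ ∧ V ≤ ‖DP Q (fun _ => 1) t‖}).toReal ≤
      C * (1 / V) ^ (2 * j) * (1 + j * Real.log Y) ^ (j ^ 2) := by
  obtain ⟨C, hC, hmvt⟩ := IsDP.mvt
  refine ⟨2 * C, by positivity, fun Q y Y τ V j hQ hq hy hτ hτy hV => ?_⟩
  obtain ⟨q0, hq0⟩ := hQ
  have hY : 1 ≤ Y := hy.trans ((hq q0 hq0).2.1.trans (hq q0 hq0).2.2)
  have hY0 : 0 < Y := by linarith
  have h1 : IsDP 1 1 y Y (DP Q (fun _ => 1)) :=
    IsDP.of_bound Q (fun _ => 1) fun n hn => ⟨(hq n hn).1, (hq n hn).2.1, (hq n hn).2.2, by simp⟩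
  have h2 := h1.pow zero_le_one (by linarith) j
  have hyj : 1 ≤ y ^ j := one_le_pow₀ hy
  have h3 := hmvt j (1 ^ j) (y ^ j) (Y ^ j) τ _ h2 hτ hyj (one_le_pow₀ hY) (by positivity)
  have hcont : Continuous (DP Q (fun _ => 1)) := DP_continuous _ _
  have hint : IntegrableOn (fun t => ‖DP Q (fun _ => 1) t ^ j‖ ^ 2) (Set.Icc (-τ) τ) :=
    ((hcont.pow j).norm.pow 2).continuousOn.integrableOn_compact isCompact_Icc
  set S : Set ℝ := {t : ℝ | |t| ≤ τ ∧ V ≤ ‖DP Q (fun _ => 1) t‖} with hS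
  have hSc : IsClosed S := (isClosed_le continuous_abs continuous_const).inter
    (isClosed_le continuous_const hcont.norm)
  have hSs : S ⊆ Set.Icc (-τ) τ := fun t ht => abs_le.1 ht.1
  have hSf : volume S ≠ ⊤ := ((measure_mono hSs).trans_lt (by simp)).ne
  have h4 : V ^ (2 * j) * (volume S).toReal ≤
      ∫ t in Set.Icc (-τ) τ, ‖DP Q (fun _ => 1) t ^ j‖ ^ 2 := by
    calc V ^ (2 * j) * (volume S).toReal = ∫ _ in S, V ^ (2 * j) := by
          rw [setIntegral_const, smul_eq_mul, mul_comm]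
          rfl
      _ ≤ ∫ t in S, ‖DP Q (fun _ => 1) t ^ j‖ ^ 2 := by
          refine setIntegral_mono_on (integrableOn_const hSf) (hint.mono_set hSs)
            hSc.measurableSet fun t ht => ?_
          rw [norm_pow, ← pow_mul, mul_comm j 2]
          exact pow_le_pow_left₀ hV.le ht.2 _
      _ ≤ _ := setIntegral_mono_set hint (Filter.Eventually.of_forall fun t => by positivity)
          (LE.le.eventuallyLE hSs)
  have h5 : Real.log (Y ^ j) = j * Real.log Y := Real.log_pow _ _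
  rw [h5] at h3
  have hlog : 0 ≤ 1 + j * Real.log Y := by
    have := Real.log_nonneg hY
    positivity
  have h6 : τ / y ^ j ≤ 1 := (div_le_one (by positivity)).2 hτy
  have h7 : V ^ (2 * j) * (volume S).toReal ≤ 2 * C * (1 + j * Real.log Y) ^ (j ^ 2) := by
    refine h4.trans (h3.trans ?_)
    rw [one_pow, one_pow, one_mul]
    refine mul_le_mul_of_nonneg_right ?_ (by positivity)
    nlinarith
  rw [one_div, inv_pow, mul_assoc, mul_left_comm, ← div_eq_inv_mul, le_div_iff₀ (by positivity)]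
  linarith

theorem mvt_log : ∃ C : ℝ, 0 < C ∧ ∀ (r : ℕ) (B N M T₀ T₁ : ℝ) (f : ℝ → ℂ), IsDP r B N M f →
    0 ≤ B → 1 ≤ N → 1 ≤ M → 1 ≤ T₀ → T₀ ≤ T₁ →
    ∫ t in {t : ℝ | T₀ ≤ |t| ∧ |t| ≤ T₁}, ‖f t‖ ^ 2 / |t| ≤
      C * (1 + Real.log T₁) * (B ^ 2 * (1 + Real.log M) ^ (r ^ 2)) * (1 / N + 1 / T₀) := by
  obtain ⟨C, hC, hmvt⟩ := IsDP.mvt
  refine ⟨4 * C, by positivity, fun r B N M T₀ T₁ f hf hB hN hM hT0 hT => ?_⟩
  have hfc := hf.cont
  set D : ℝ := B ^ 2 * (1 + Real.log M) ^ (r ^ 2) with hD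
  have hD0 : 0 ≤ D := by
    have := Real.log_nonneg hM
    positivity
  -- compactness and integrability
  have hcomp : ∀ a b : ℝ, IsCompact {t : ℝ | a ≤ |t| ∧ |t| ≤ b} := fun a b =>
    IsCompact.of_isClosed_subset (isCompact_Icc (a := -b) (b := b))
      ((isClosed_le continuous_const continuous_abs).inter
        (isClosed_le continuous_abs continuous_const)) fun t ht => abs_le.1 ht.2
  have hint : ∀ a b : ℝ, 0 < a → IntegrableOn (fun t => ‖f t‖ ^ 2 / |t|)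
      {t : ℝ | a ≤ |t| ∧ |t| ≤ b} := fun a b ha =>
    ContinuousOn.integrableOn_compact (hcomp a b)
      ((hfc.norm.pow 2).continuousOn.div continuous_abs.continuousOn
        fun t (ht : a ≤ |t| ∧ |t| ≤ b) => (ha.trans_le ht.1).ne')
  -- one dyadic block
  have hone : ∀ a : ℝ, 1 ≤ a → ∫ t in {t : ℝ | a ≤ |t| ∧ |t| ≤ 2 * a}, ‖f t‖ ^ 2 / |t| ≤
      2 * C * D * (1 / N + 1 / a) := by
    intro a ha
    have ha0 : 0 < a := by linarith
    have hsub : {t : ℝ | a ≤ |t| ∧ |t| ≤ 2 * a} ⊆ Set.Icc (-(2 * a)) (2 * a) :=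
      fun t ht => abs_le.1 ht.2
    have hi2 : IntegrableOn (fun t => ‖f t‖ ^ 2) (Set.Icc (-(2 * a)) (2 * a)) :=
      (hfc.norm.pow 2).continuousOn.integrableOn_compact isCompact_Icc
    have e1 := hmvt r B N M (2 * a) f hf (by linarith) hN hM hB
    calc ∫ t in {t : ℝ | a ≤ |t| ∧ |t| ≤ 2 * a}, ‖f t‖ ^ 2 / |t|
        ≤ ∫ t in {t : ℝ | a ≤ |t| ∧ |t| ≤ 2 * a}, a⁻¹ * ‖f t‖ ^ 2 := by
          refine setIntegral_mono_on (hint a _ ha0) ((hi2.mono_set hsub).const_mul _)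
            (hcomp a _).isClosed.measurableSet fun t ht => ?_
          rw [div_eq_mul_inv, mul_comm]
          exact mul_le_mul_of_nonneg_right (inv_anti₀ ha0 ht.1) (by positivity)
      _ = a⁻¹ * ∫ t in {t : ℝ | a ≤ |t| ∧ |t| ≤ 2 * a}, ‖f t‖ ^ 2 := integral_const_mul _ _
      _ ≤ a⁻¹ * ∫ t in Set.Icc (-(2 * a)) (2 * a), ‖f t‖ ^ 2 := by
          refine mul_le_mul_of_nonneg_left ?_ (by positivity)
          exact setIntegral_mono_set hi2 (Filter.Eventually.of_forall fun t => by positivity)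
            (LE.le.eventuallyLE hsub)
      _ ≤ a⁻¹ * (C * (2 * a / N + 1) * D) := mul_le_mul_of_nonneg_left e1 (by positivity)
      _ = C * D * (2 / N + 1 / a) := by
          have hN0 : N ≠ 0 := by linarith
          field_simp
      _ ≤ _ := by
          have e2 : 0 ≤ C * D := by positivity
          have e3 : 0 ≤ 1 / a := by positivity
          have e4 : 2 / N + 1 / a ≤ 2 * (1 / N + 1 / a) := by
            have : 2 / N = 2 * (1 / N) := by ring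
            rw [this]
            linarith
          calc C * D * (2 / N + 1 / a) ≤ C * D * (2 * (1 / N + 1 / a)) :=
                mul_le_mul_of_nonneg_left e4 e2
            _ = _ := by ring
  have hN0 : 0 < 1 / N := by positivity
  have key : ∀ (K : ℕ) (a b : ℝ), 1 ≤ a → b ≤ 2 ^ K * a →
      ∫ t in {t : ℝ | a ≤ |t| ∧ |t| ≤ b}, ‖f t‖ ^ 2 / |t| ≤
        K * (2 * C * D * (1 / N + 1 / a)) := by
    intro K
    induction K with
    | zero =>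
      intro a b ha hb
      rw [pow_zero, one_mul] at hb
      have hs : {t : ℝ | a ≤ |t| ∧ |t| ≤ b} ⊆ {a, -a} := by
        intro t ht
        have h1 : |t| = a := le_antisymm (ht.2.trans hb) ht.1
        rcases abs_eq (by linarith : (0 : ℝ) ≤ a) |>.1 h1 with h2 | h2
        · exact Or.inl h2
        · exact Or.inr h2
      have h0 : volume {t : ℝ | a ≤ |t| ∧ |t| ≤ b} = 0 :=
        measure_mono_null hs ((Set.toFinite {a, -a}).measure_zero _)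
      rw [setIntegral_measure_zero _ h0]
      simp
    | succ K ih =>
      intro a b ha hb
      have ha0 : 0 < a := by linarith
      have h1 := hone a ha
      have h2 := ih (2 * a) b (by linarith) (by rw [pow_succ] at hb; linarith)
      have hsub : {t : ℝ | a ≤ |t| ∧ |t| ≤ b} ⊆
          {t : ℝ | a ≤ |t| ∧ |t| ≤ 2 * a} ∪ {t : ℝ | 2 * a ≤ |t| ∧ |t| ≤ b} := by
        intro t ht
        rcases le_total |t| (2 * a) with h3 | h3
        · exact Or.inl ⟨ht.1, h3⟩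
        · exact Or.inr ⟨h3, ht.2⟩
      have hi1 := hint a (2 * a) ha0
      have hi2 := hint (2 * a) b (by linarith)
      have hnn : ∀ t : ℝ, 0 ≤ ‖f t‖ ^ 2 / |t| := fun t => by positivity
      have h3 : ∫ t in {t : ℝ | a ≤ |t| ∧ |t| ≤ b}, ‖f t‖ ^ 2 / |t| ≤
          (∫ t in {t : ℝ | a ≤ |t| ∧ |t| ≤ 2 * a}, ‖f t‖ ^ 2 / |t|) +
            ∫ t in {t : ℝ | 2 * a ≤ |t| ∧ |t| ≤ b}, ‖f t‖ ^ 2 / |t| := by
        rw [← integral_add_measure hi1 hi2]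
        refine integral_mono_measure ?_ (Filter.Eventually.of_forall hnn)
          (Integrable.add_measure hi1 hi2)
        exact (Measure.restrict_mono hsub le_rfl).trans (Measure.restrict_union_le _ _)
      have h4 : (1 : ℝ) / (2 * a) ≤ 1 / a :=
        one_div_le_one_div_of_le ha0 (by linarith)
      have h5 : (K : ℝ) * (2 * C * D * (1 / N + 1 / (2 * a))) ≤
          K * (2 * C * D * (1 / N + 1 / a)) := by
        refine mul_le_mul_of_nonneg_left ?_ (Nat.cast_nonneg _)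
        exact mul_le_mul_of_nonneg_left (by linarith) (by positivity)
      push_cast
      linarith
  -- the number of blocks
  have hT00 : 0 < T₀ := by linarith
  have hT10 : 1 ≤ T₁ := hT0.trans hT
  have hlog : 0 ≤ Real.log T₁ := Real.log_nonneg hT10
  obtain ⟨K, hK1, hK2⟩ : ∃ K : ℕ, T₁ ≤ 2 ^ K * T₀ ∧ (K : ℝ) ≤ 2 * (1 + Real.log T₁) := by
    refine ⟨⌈2 * Real.log T₁⌉₊, ?_, ?_⟩
    · have h1 : 2 * Real.log T₁ ≤ (⌈2 * Real.log T₁⌉₊ : ℝ) := Nat.le_ceil _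
      have h2 : Real.log T₁ ≤ (⌈2 * Real.log T₁⌉₊ : ℝ) * Real.log 2 := by
        have h3 := Real.log_two_gt_d9
        nlinarith
      have h4 : T₁ ≤ 2 ^ ⌈2 * Real.log T₁⌉₊ := by
        rw [← Real.log_pow] at h2
        exact (Real.log_le_log_iff (by linarith) (by positivity)).1 h2
      calc T₁ ≤ 2 ^ ⌈2 * Real.log T₁⌉₊ := h4
        _ ≤ 2 ^ ⌈2 * Real.log T₁⌉₊ * T₀ := le_mul_of_one_le_right (by positivity) hT0
    · have h1 := (Nat.ceil_lt_add_one (by positivity : (0 : ℝ) ≤ 2 * Real.log T₁)).le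
      linarith
  have hfin := key K T₀ T₁ hT0 hK1
  refine hfin.trans ?_
  have h1 : 0 ≤ 2 * C * D * (1 / N + 1 / T₀) := by positivity
  calc (K : ℝ) * (2 * C * D * (1 / N + 1 / T₀)) ≤
        2 * (1 + Real.log T₁) * (2 * C * D * (1 / N + 1 / T₀)) :=
        mul_le_mul_of_nonneg_right hK2 h1
    _ = 4 * C * (1 + Real.log T₁) * D * (1 / N + 1 / T₀) := by ring

end Pool.Agent.Lib.MP_9a8698_nt
end

section

/-!
S3. Boxes with two factors longer than the height of the integral (A1-A4, S1 are used).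

PROOF of `Wf_le`. `DP_norm_le`; `∑_{q ≤ k^ε₂} 1/q ≤ 1 + log(k^ε₂) ≤ 1 + log k` (`harmonic_le_one_add_log`).

PROOF of `boxA`. Put `T = k^(β+θ/2)`, `ℓ = log k`, `A' = A + 2b + r² + 2`, `V₀ = ℓ^(-A')`, and let `S` be the set of `t` with
`|t| ≤ T`, `‖Wf t‖ ≥ V₀`. Elements of `Qs k ε₁ ε₂` are `> k^ε₁` and `≤ k^ε₂ ≤ k`; with `j = ⌈1/ε₁⌉`, `T ≤ k ≤ (k^ε₁)^j`, so
`large_values` gives `vol S ≤ C ℓ^(2jA') (1 + jℓ)^(j²)` (if `Qs` is empty, `Wf = 0` and there is nothing to prove).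
On `Tm ∩ S` the integrand is at most `(1 + ℓ) k^(-c)`: contribution at most `vol S (1+ℓ) k^(-c) ≤ ℓ^(-A)/2` for large `k`.
On `Tm \ S`: at most `V₀ ∫_{|t| ≤ T} ‖U‖‖V‖ ≤ V₀ (∫‖U‖²)^(1/2) (∫‖V‖²)^(1/2)` (Cauchy-Schwarz), and `IsDP.mvt` with
`T/N₁ ≤ 1`, `T/N₂ ≤ 1` gives at most `V₀ · 2C ℓ^(2b) (1 + 4ℓ)^(r²) ≤ ℓ^(-A)/2` for large `k`.
-/

set_option autoImplicit false

open Finset MeasureTheory

namespace Pool.Agent.Lib.MP_9a8698_nt

/-- The middle range of the integrals. -/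
def Tm (k δ T : ℝ) : Set ℝ := {t : ℝ | k ^ δ ≤ |t| ∧ |t| ≤ k ^ T}

theorem Tm_measurable (k δ T : ℝ) : MeasurableSet (Tm k δ T) :=
  ((isClosed_le continuous_const continuous_abs).inter
    (isClosed_le continuous_abs continuous_const)).measurableSet

private theorem S3_Qs {k ε₁ ε₂ : ℝ} (hk : 1 ≤ k) (h2 : ε₂ ≤ 1) {q : ℕ} (hq : q ∈ Qs k ε₁ ε₂) :
    1 ≤ q ∧ k ^ ε₁ ≤ (q : ℝ) ∧ (q : ℝ) ≤ k := by
  unfold Qs at hq
  rw [mem_filter, mem_Ioc] at hq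
  obtain ⟨⟨h3, h4⟩, h5⟩ := hq
  refine ⟨h5.one_lt.le, (Nat.lt_of_floor_lt h3).le, ?_⟩
  have h6 : (q : ℝ) ≤ k ^ ε₂ :=
    (Nat.le_floor_iff (Real.rpow_nonneg (by linarith) _)).mp h4
  refine h6.trans ?_
  calc k ^ ε₂ ≤ k ^ (1 : ℝ) := Real.rpow_le_rpow_of_exponent_le hk h2
    _ = k := Real.rpow_one k

theorem Wf_le (k ε₁ ε₂ t : ℝ) (hk : 3 ≤ k) (h1 : 0 < ε₁) (h2 : ε₂ ≤ 1) :
    ‖Wf k ε₁ ε₂ t‖ ≤ 1 + Real.log k := by
  have hk1 : 1 ≤ k := by linarith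
  unfold Wf
  refine (DP_norm_le _ _ _).trans ?_
  have hsub : Qs k ε₁ ε₂ ⊆ Icc 1 ⌊k⌋₊ := by
    intro q hq
    obtain ⟨h3, -, h5⟩ := S3_Qs hk1 h2 hq
    rw [mem_Icc]
    exact ⟨h3, Nat.le_floor h5⟩
  calc ∑ n ∈ Qs k ε₁ ε₂, |(1 : ℝ)| / n ≤ ∑ n ∈ Icc 1 ⌊k⌋₊, |(1 : ℝ)| / n :=
        sum_le_sum_of_subset_of_nonneg hsub fun n _ _ => by positivity
    _ = ((harmonic ⌊k⌋₊ : ℚ) : ℝ) := by
        rw [harmonic_eq_sum_Icc]
        push_cast
        exact sum_congr rfl fun n _ => by rw [abs_one, one_div]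
    _ ≤ 1 + Real.log ⌊k⌋₊ := harmonic_le_one_add_log _
    _ ≤ 1 + Real.log k := by
        have h3 : 0 < ⌊k⌋₊ := Nat.floor_pos.mpr hk1
        have h4 : Real.log ⌊k⌋₊ ≤ Real.log k :=
          Real.log_le_log (by exact_mod_cast h3) (Nat.floor_le (by linarith))
        linarith

private theorem S3_mvt {C2 : ℝ} (hC2 : 0 < C2)
    (hMV : ∀ (r : ℕ) (B N M τ : ℝ) (f : ℝ → ℂ), IsDP r B N M f →
      1 ≤ τ → 1 ≤ N → 1 ≤ M → 0 ≤ B → ∫ t in Set.Icc (-τ) τ, ‖f t‖ ^ 2 ≤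
      C2 * (τ / N + 1) * (B ^ 2 * (1 + Real.log M) ^ (r ^ 2)))
    {k T b N M : ℝ} {r r' : ℕ} {f : ℝ → ℂ} (hk : 1 ≤ k) (hl : 1 ≤ Real.log k) (hT : 1 ≤ T)
    (hr : r' ≤ r) (hf : IsDP r' ((Real.log k) ^ b) N M f) (hN : T ≤ N) (hM : 1 ≤ M)
    (hM' : M ≤ k ^ (4 : ℝ)) :
    ∫ t in Set.Icc (-T) T, ‖f t‖ ^ 2 ≤
      2 * C2 * ((Real.log k) ^ b) ^ 2 * (5 * Real.log k) ^ (r ^ 2) := by
  have hN1 : 1 ≤ N := hT.trans hN
  have hb0 : 0 ≤ (Real.log k) ^ b := Real.rpow_nonneg (by linarith) _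
  refine (hMV r' _ N M T f hf hT hN1 hM hb0).trans ?_
  have h1 : T / N + 1 ≤ 2 := by
    have : T / N ≤ 1 := (div_le_one (by linarith)).mpr hN
    linarith
  have h0 : 0 ≤ Real.log M := Real.log_nonneg hM
  have h2 : 1 + Real.log M ≤ 5 * Real.log k := by
    have h3 : Real.log M ≤ 4 * Real.log k := by
      have h4 := Real.log_le_log (by linarith) hM'
      rwa [Real.log_rpow (by linarith)] at h4
    linarith
  have h3 : (1 + Real.log M) ^ (r' ^ 2) ≤ (5 * Real.log k) ^ (r ^ 2) :=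
    (pow_le_pow_left₀ (by linarith) h2 _).trans
      (pow_le_pow_right₀ (by linarith) (Nat.pow_le_pow_left hr 2))
  have h5 : 0 ≤ T / N := by positivity
  calc C2 * (T / N + 1) * (((Real.log k) ^ b) ^ 2 * (1 + Real.log M) ^ (r' ^ 2))
      ≤ C2 * 2 * (((Real.log k) ^ b) ^ 2 * (5 * Real.log k) ^ (r ^ 2)) := by
        refine mul_le_mul (mul_le_mul_of_nonneg_left h1 hC2.le)
          (mul_le_mul_of_nonneg_left h3 (by positivity)) (by positivity) (by positivity)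
    _ = 2 * C2 * ((Real.log k) ^ b) ^ 2 * (5 * Real.log k) ^ (r ^ 2) := by ring

theorem boxA (β θ ε₁ ε₂ δ c b A : ℝ) (r : ℕ) (hβ : 0 < β) (hθ : 0 < θ) (hβθ : β + θ / 2 ≤ 1)
    (hε : 0 < ε₁) (hε₂ : ε₁ < ε₂) (hε1 : ε₂ ≤ 1) (hδ : 0 < δ) (hc : 0 < c) (hb : 0 ≤ b) :
    ∃ k0 : ℝ, ∀ k : ℝ, k0 ≤ k → ∀ (r1 r2 : ℕ) (N1 N2 M1 M2 : ℝ) (U V : ℝ → ℂ), r1 ≤ r →
      r2 ≤ r → IsDP r1 ((Real.log k) ^ b) N1 M1 U → IsDP r2 ((Real.log k) ^ b) N2 M2 V →
      k ^ (β + θ / 2) ≤ N1 → k ^ (β + θ / 2) ≤ N2 → 1 ≤ M1 → 1 ≤ M2 → M1 ≤ k ^ (4 : ℝ) →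
      M2 ≤ k ^ (4 : ℝ) → (∀ t ∈ Tm k δ (β + θ / 2), ‖U t * V t‖ ≤ k ^ (-c)) →
      ∫ t in Tm k δ (β + θ / 2), ‖Wf k ε₁ ε₂ t * (U t * V t)‖ ≤ (Real.log k) ^ (-A) := by
  obtain ⟨C1, hC1, hLV⟩ := large_values
  obtain ⟨C2, hC2, hMV⟩ := IsDP.mvt
  set j : ℕ := ⌈1 / ε₁⌉₊ with hj
  have hjε : 1 ≤ ε₁ * j := by
    have h1 := Nat.le_ceil (1 / ε₁)
    rw [div_le_iff₀ hε] at h1
    rw [mul_comm]
    exact h1
  set A' : ℝ := |A| + 2 * b + (r : ℝ) ^ 2 + 1 with hA'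
  set s : ℝ := 1 + 2 * j * A' + (j : ℝ) ^ 2 + A with hs
  have hev := (isLittleO_log_rpow_rpow_atTop s hc).bound
    (c := 1 / (4 * C1 * (1 + j) ^ (j ^ 2))) (by positivity)
  obtain ⟨k1, hk1⟩ := Filter.eventually_atTop.mp hev
  refine ⟨max (max k1 3) (Real.exp (4 * C2 * 5 ^ (r ^ 2))), ?_⟩
  intro k hk r1 r2 N1 N2 M1 M2 U V hr1 hr2 hU hV hN1 hN2 hM1 hM2 hM1' hM2' hUV
  have hkk1 : k1 ≤ k := ((le_max_left _ _).trans (le_max_left _ _)).trans hk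
  have hk3 : 3 ≤ k := ((le_max_right _ _).trans (le_max_left _ _)).trans hk
  have hkE : Real.exp (4 * C2 * 5 ^ (r ^ 2)) ≤ k := (le_max_right _ _).trans hk
  have hk1' : 1 ≤ k := by linarith
  have hk0 : 0 < k := by linarith
  have hle := hk1 k hkk1
  set ℓ : ℝ := Real.log k with hℓ
  have hℓ1 : 1 ≤ ℓ := by
    rw [hℓ, Real.le_log_iff_exp_le hk0]
    have := Real.exp_one_lt_d9
    linarith
  have hℓ0 : 0 < ℓ := by linarith
  have hℓ2 : 4 * C2 * 5 ^ (r ^ 2) ≤ ℓ := by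
    rw [hℓ, Real.le_log_iff_exp_le hk0]
    exact hkE
  set T : ℝ := k ^ (β + θ / 2) with hT
  have hT1 : 1 ≤ T := Real.one_le_rpow hk1' (by positivity)
  have hTk : T ≤ k := by
    calc T ≤ k ^ (1 : ℝ) := Real.rpow_le_rpow_of_exponent_le hk1' hβθ
      _ = k := Real.rpow_one k
  have hRHS : 0 < ℓ ^ (-A) := Real.rpow_pos_of_pos hℓ0 _
  rcases (Qs k ε₁ ε₂).eq_empty_or_nonempty with hQ | hQ
  · have h0 : ∀ t, Wf k ε₁ ε₂ t = 0 := by
      intro t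
      unfold Wf DP
      rw [hQ, sum_empty]
    simp only [h0, zero_mul, norm_zero, integral_zero]
    exact hRHS.le
  set V₀ : ℝ := ℓ ^ (-A') with hV₀
  have hV₀0 : 0 < V₀ := Real.rpow_pos_of_pos hℓ0 _
  have hWc : Continuous fun t => Wf k ε₁ ε₂ t := DP_continuous _ _
  have hUc := hU.cont
  have hVc := hV.cont
  set F : ℝ → ℝ := fun t => ‖Wf k ε₁ ε₂ t * (U t * V t)‖ with hF
  have hFc : Continuous F := (hWc.mul (hUc.mul hVc)).norm
  set E : Set ℝ := Tm k δ (β + θ / 2) with hE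
  have hEm : MeasurableSet E := Tm_measurable _ _ _
  have hEI : E ⊆ Set.Icc (-T) T := fun t ht => abs_le.mp ht.2
  set S : Set ℝ := {t : ℝ | |t| ≤ T ∧ V₀ ≤ ‖DP (Qs k ε₁ ε₂) (fun _ => 1) t‖} with hS
  have hSm : MeasurableSet S :=
    ((isClosed_le continuous_abs continuous_const).inter
      (isClosed_le continuous_const (DP_continuous _ _).norm)).measurableSet
  have hSI : S ⊆ Set.Icc (-T) T := fun t ht => abs_le.mp ht.1
  have hStop : volume S < ⊤ := (measure_mono hSI).trans_lt (by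
    rw [Real.volume_Icc]
    exact ENNReal.ofReal_lt_top)
  have hFE : IntegrableOn F E := hFc.integrableOn_Icc.mono_set hEI
  -- the large values
  have hvol : volume.real S ≤ C1 * (1 / V₀) ^ (2 * j) * (1 + j * ℓ) ^ (j ^ 2) := by
    refine hLV (Qs k ε₁ ε₂) (k ^ ε₁) k T V₀ j hQ (fun q hq => S3_Qs hk1' hε1 hq)
      (Real.one_le_rpow hk1' hε.le) hT1 ?_ hV₀0
    calc T ≤ k := hTk
      _ = k ^ (1 : ℝ) := (Real.rpow_one k).symm
      _ ≤ k ^ (ε₁ * j) := Real.rpow_le_rpow_of_exponent_le hk1' hjε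
      _ = (k ^ ε₁) ^ j := by rw [Real.rpow_mul hk0.le, Real.rpow_natCast]
  have t1 : ∫ t in E ∩ S, F t ≤ ((1 + ℓ) * k ^ (-c)) * volume.real S := by
    have hb1 : ∀ t ∈ E ∩ S, ‖F t‖ ≤ (1 + ℓ) * k ^ (-c) := by
      intro t ht
      rw [hF]
      simp only
      rw [norm_norm, norm_mul]
      exact mul_le_mul (Wf_le k ε₁ ε₂ t hk3 hε hε1) (hUV t ht.1) (norm_nonneg _) (by linarith)
    have h1 := norm_setIntegral_le_of_norm_le_const (μ := volume)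
      ((measure_mono Set.inter_subset_right).trans_lt hStop) hb1
    refine (Real.le_norm_self _).trans (h1.trans ?_)
    refine mul_le_mul_of_nonneg_left (measureReal_mono Set.inter_subset_right hStop.ne) ?_
    have := Real.rpow_nonneg hk0.le (-c)
    positivity
  -- the small values
  have iU : IntegrableOn (fun t => ‖U t‖ ^ 2) (Set.Icc (-T) T) :=
    (hUc.norm.pow 2).integrableOn_Icc
  have iV : IntegrableOn (fun t => ‖V t‖ ^ 2) (Set.Icc (-T) T) :=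
    (hVc.norm.pow 2).integrableOn_Icc
  have bU := S3_mvt hC2 hMV hk1' hℓ1 hT1 hr1 hU hN1 hM1 hM1'
  have bV := S3_mvt hC2 hMV hk1' hℓ1 hT1 hr2 hV hN2 hM2 hM2'
  have t2 : ∫ t in E \ S, F t ≤ V₀ * (2 * C2 * (ℓ ^ b) ^ 2 * (5 * ℓ) ^ (r ^ 2)) := by
    have iG : IntegrableOn (fun t => V₀ * ((‖U t‖ ^ 2 + ‖V t‖ ^ 2) / 2)) (Set.Icc (-T) T) :=
      ((iU.add iV).div_const 2).const_mul V₀
    have hdI : E \ S ⊆ Set.Icc (-T) T := Set.sdiff_subset.trans hEI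
    calc ∫ t in E \ S, F t ≤ ∫ t in E \ S, V₀ * ((‖U t‖ ^ 2 + ‖V t‖ ^ 2) / 2) := by
          refine setIntegral_mono_on (hFE.mono_set Set.sdiff_subset) (iG.mono_set hdI)
            (hEm.diff hSm) fun t ht => ?_
          have h1 : ‖Wf k ε₁ ε₂ t‖ ≤ V₀ := by
            by_contra hcon
            rw [not_le] at hcon
            exact ht.2 ⟨abs_le.mpr (hEI ht.1), hcon.le⟩
          rw [hF]
          simp only
          rw [norm_mul, norm_mul]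
          refine mul_le_mul h1 ?_ (by positivity) hV₀0.le
          nlinarith [sq_nonneg (‖U t‖ - ‖V t‖)]
      _ ≤ ∫ t in Set.Icc (-T) T, V₀ * ((‖U t‖ ^ 2 + ‖V t‖ ^ 2) / 2) :=
          setIntegral_mono_set iG (Filter.Eventually.of_forall fun t => by positivity)
            (LE.le.eventuallyLE hdI)
      _ = V₀ * (((∫ t in Set.Icc (-T) T, ‖U t‖ ^ 2) + ∫ t in Set.Icc (-T) T, ‖V t‖ ^ 2) / 2) := by
          rw [integral_const_mul, integral_div, integral_add iU iV]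
      _ ≤ _ := by
          refine mul_le_mul_of_nonneg_left ?_ hV₀0.le
          linarith
  have hsplit : ∫ t in E, F t = (∫ t in E ∩ S, F t) + ∫ t in E \ S, F t :=
    (integral_inter_add_sdiff hSm hFE).symm
  rw [hsplit]
  -- the first term
  have f1 : ((1 + ℓ) * k ^ (-c)) * volume.real S ≤ ℓ ^ (-A) / 2 := by
    have g1 : (1 / V₀) ^ (2 * j) = ℓ ^ (2 * j * A') := by
      rw [hV₀, Real.rpow_neg hℓ0.le, one_div, inv_inv, ← Real.rpow_natCast, ← Real.rpow_mul hℓ0.le]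
      congr 1
      push_cast
      ring
    have g2 : (1 + j * ℓ) ^ (j ^ 2) ≤ (1 + j) ^ (j ^ 2) * ℓ ^ ((j : ℝ) ^ 2) := by
      have h1 : 1 + (j : ℝ) * ℓ ≤ (1 + j) * ℓ := by nlinarith
      calc (1 + j * ℓ) ^ (j ^ 2) ≤ ((1 + j) * ℓ) ^ (j ^ 2) :=
            pow_le_pow_left₀ (by positivity) h1 _
        _ = (1 + j) ^ (j ^ 2) * ℓ ^ ((j : ℝ) ^ 2) := by
            rw [mul_pow, ← Real.rpow_natCast ℓ (j ^ 2)]
            push_cast
            rfl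
    have g3 : ℓ ^ s ≤ 1 / (4 * C1 * (1 + j) ^ (j ^ 2)) * k ^ c := by
      rw [Real.norm_of_nonneg (Real.rpow_nonneg hℓ0.le _),
        Real.norm_of_nonneg (Real.rpow_nonneg hk0.le _)] at hle
      exact hle
    have g4 : k ^ (-c) * k ^ c = 1 := by
      rw [← Real.rpow_add hk0]
      simp
    have g5 : ℓ * ℓ ^ (2 * j * A') * ℓ ^ ((j : ℝ) ^ 2) = ℓ ^ s * ℓ ^ (-A) := by
      rw [← Real.rpow_add hℓ0]
      nth_rewrite 1 [← Real.rpow_one ℓ]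
      rw [← Real.rpow_add hℓ0, ← Real.rpow_add hℓ0]
      congr 1
      rw [hs]
      ring
    have hkc : 0 < k ^ (-c) := Real.rpow_pos_of_pos hk0 _
    have hp1 : 0 < ℓ ^ (2 * j * A') := Real.rpow_pos_of_pos hℓ0 _
    have hp2 : 0 < ℓ ^ ((j : ℝ) ^ 2) := Real.rpow_pos_of_pos hℓ0 _
    calc ((1 + ℓ) * k ^ (-c)) * volume.real S
        ≤ ((2 * ℓ) * k ^ (-c)) * (C1 * ℓ ^ (2 * j * A') *
            ((1 + j) ^ (j ^ 2) * ℓ ^ ((j : ℝ) ^ 2))) := by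
          refine mul_le_mul (mul_le_mul_of_nonneg_right (by linarith) hkc.le) ?_
            measureReal_nonneg (by positivity)
          refine hvol.trans ?_
          rw [g1]
          exact mul_le_mul_of_nonneg_left g2 (by positivity)
      _ = (2 * C1 * (1 + j) ^ (j ^ 2) * k ^ (-c)) *
            (ℓ * ℓ ^ (2 * j * A') * ℓ ^ ((j : ℝ) ^ 2)) := by ring
      _ = (2 * C1 * (1 + j) ^ (j ^ 2) * k ^ (-c)) * (ℓ ^ s * ℓ ^ (-A)) := by rw [g5]
      _ ≤ (2 * C1 * (1 + j) ^ (j ^ 2) * k ^ (-c)) *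
            ((1 / (4 * C1 * (1 + j) ^ (j ^ 2)) * k ^ c) * ℓ ^ (-A)) := by
          refine mul_le_mul_of_nonneg_left (mul_le_mul_of_nonneg_right g3 hRHS.le) (by positivity)
      _ = (k ^ (-c) * k ^ c) * (ℓ ^ (-A) / 2) := by
          field_simp
          ring
      _ = ℓ ^ (-A) / 2 := by rw [g4, one_mul]
  have f2 : V₀ * (2 * C2 * (ℓ ^ b) ^ 2 * (5 * ℓ) ^ (r ^ 2)) ≤ ℓ ^ (-A) / 2 := by
    have g1 : V₀ * (2 * C2 * (ℓ ^ b) ^ 2 * (5 * ℓ) ^ (r ^ 2)) =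
        2 * C2 * 5 ^ (r ^ 2) * ℓ ^ (-|A| - 1) := by
      have h1 : (ℓ ^ b) ^ 2 = ℓ ^ (2 * b) := by
        rw [← Real.rpow_natCast, ← Real.rpow_mul hℓ0.le]
        congr 1
        push_cast
        ring
      have h2 : (5 * ℓ) ^ (r ^ 2) = 5 ^ (r ^ 2) * ℓ ^ ((r : ℝ) ^ 2) := by
        rw [mul_pow, ← Real.rpow_natCast ℓ (r ^ 2)]
        push_cast
        rfl
      have h3 : ℓ ^ (-A') * ℓ ^ (2 * b) * ℓ ^ ((r : ℝ) ^ 2) = ℓ ^ (-|A| - 1) := by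
        rw [← Real.rpow_add hℓ0, ← Real.rpow_add hℓ0]
        congr 1
        rw [hA']
        ring
      rw [h1, h2, ← h3, hV₀]
      ring
    have g2 : ℓ ^ (-|A| - 1) ≤ ℓ ^ (-A) * ℓ⁻¹ := by
      have h1 : ℓ⁻¹ = ℓ ^ (-1 : ℝ) := by rw [Real.rpow_neg_one]
      rw [h1, ← Real.rpow_add hℓ0]
      refine Real.rpow_le_rpow_of_exponent_le hℓ1 ?_
      have := le_abs_self A
      linarith
    rw [g1]
    calc 2 * C2 * 5 ^ (r ^ 2) * ℓ ^ (-|A| - 1) ≤ 2 * C2 * 5 ^ (r ^ 2) * (ℓ ^ (-A) * ℓ⁻¹) :=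
          mul_le_mul_of_nonneg_left g2 (by positivity)
      _ = (4 * C2 * 5 ^ (r ^ 2)) * (ℓ ^ (-A) / 2 * ℓ⁻¹) := by ring
      _ ≤ ℓ * (ℓ ^ (-A) / 2 * ℓ⁻¹) := mul_le_mul_of_nonneg_right hℓ2 (by positivity)
      _ = ℓ ^ (-A) / 2 := by field_simp
  linarith

end Pool.Agent.Lib.MP_9a8698_nt
end
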