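import Pool.Agent.Lib.MP_9a8698_nt.H4
import Pool.Agent.Lib.MP_9a8698_nt.S3
import Pool.Agent.Lib.MP_9a8698_nt.Defs
import Pool.Agent.Lib.MP_9a8698_nt.E1

section

/-!
H5. The polynomials `Wf`, `Mf * Pf`, `Gf` as polynomials with convolution coefficients (with A1, H1-H4, S3).

PROOF of `JT_fourier`. Expand the three finite sums and use the Gaussian integral term by term (as in A1): the product
`DP s c t * (DP s' c' t * DP s'' c'' t)` is a finite sum over triples of `c c' c''/(q m l) exp(-it(log q + log m + log l))`.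

PROOF of `W_eq`, `ML_eq`. `indA` has support in the finite set; `DP_mul`, `DP_ext_range`.
PROOF of `Gf_eq`, `gA_supp`. `DP_prod_blk`, `prod_blk_supp`: for `e ∈ Ej`, `e i ≤ JK k` and `card (ix j) = 2j+1 ≤ 23` for `j ≤ 11`, so
`∑ e + card ≤ 23 (JK k + 1)`; linearity of `DP` in the coefficients.

PROOF of `WGf_sup`. `Wf_le`; every block `DP (Ico (2^e) (2^(e+1))) (cf ..)` is at most `1 + log 2^(e+1) ≤ 2 + 2 log k + ...` (`DP_norm_le`,
`|cf n| ≤ 1 + log n`, `∑_{2^e ≤ n < 2^(e+1)} 1/n ≤ 1`), `#(Ej) ≤ (JK k + 1)^23`, `|hbc j| ≤ 462`.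
-/

set_option autoImplicit false

open Finset MeasureTheory

namespace Pool.Agent.Lib.MP_9a8698_nt

/-- The factor `exp(-(t/τ)²/2) e^(iut)`. -/
noncomputable def ker (τ u t : ℝ) : ℂ :=
  ((Real.exp (-((t / τ) ^ 2 / 2)) : ℝ) : ℂ) * Complex.exp (((u * t : ℝ) : ℂ) * Complex.I)

private theorem H5_single {τ : ℝ} (hτ : 0 < τ) (u x : ℝ) :
    Integrable (fun t : ℝ => ker τ u t * Complex.exp (((-(t * x) : ℝ) : ℂ) * Complex.I)) ∧
    ∫ t : ℝ, ker τ u t * Complex.exp (((-(t * x) : ℝ) : ℂ) * Complex.I) =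
      ((2 * Real.pi * gs τ (x - u) : ℝ) : ℂ) := by
  have hDP : ∀ t : ℝ, DP {1} (fun _ => 1) t = 1 := by
    intro t
    unfold DP
    rw [Finset.sum_singleton]
    simp
  have hJD : JD {1} (fun _ => 1) τ (u - x) = gs τ (x - u) := by
    unfold JD
    rw [Finset.sum_singleton]
    simp
  have e : ∀ t : ℝ, ker τ u t * Complex.exp (((-(t * x) : ℝ) : ℂ) * Complex.I) =
      ((Real.exp (-((t / τ) ^ 2 / 2)) : ℝ) : ℂ) *
        Complex.exp ((((u - x) * t : ℝ) : ℂ) * Complex.I) * DP {1} (fun _ => 1) t := by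
    intro t
    unfold ker
    rw [hDP, mul_one, mul_assoc, ← Complex.exp_add]
    congr 2
    push_cast
    ring
  constructor
  · refine (gauss_integrable hτ (DP {1} (fun _ => 1)) (DP_continuous _ _) 1 (fun t => ?_)
      (u - x)).congr (Filter.Eventually.of_forall fun t => (e t).symm)
    rw [hDP, norm_one]
  · rw [← hJD, ← fourier_JD {1} (fun _ => 1) hτ (u - x)]
    exact integral_congr_ae (Filter.Eventually.of_forall e)

private theorem H5_triple (s s' s'' : Finset ℕ) (c c' c'' : ℕ → ℝ) (t : ℝ) :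
    DP s c t * (DP s' c' t * DP s'' c'' t) = ∑ q ∈ s, ∑ m ∈ s', ∑ l ∈ s'',
      ((c q / q * (c' m / m) * (c'' l / l) : ℝ) : ℂ) *
        Complex.exp (((-(t * (Real.log q + Real.log m + Real.log l)) : ℝ) : ℂ) * Complex.I) := by
  unfold DP
  rw [Finset.sum_mul_sum, Finset.sum_mul]
  refine Finset.sum_congr rfl fun q _ => ?_
  rw [Finset.mul_sum]
  refine Finset.sum_congr rfl fun m _ => ?_
  rw [Finset.mul_sum]
  refine Finset.sum_congr rfl fun l _ => ?_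
  have e : Complex.exp (((-(t * (Real.log q + Real.log m + Real.log l)) : ℝ) : ℂ) * Complex.I) =
      Complex.exp (((-(t * Real.log q) : ℝ) : ℂ) * Complex.I) *
        (Complex.exp (((-(t * Real.log m) : ℝ) : ℂ) * Complex.I) *
          Complex.exp (((-(t * Real.log l) : ℝ) : ℂ) * Complex.I)) := by
    rw [← Complex.exp_add, ← Complex.exp_add]
    congr 1
    push_cast
    ring
  rw [e]
  push_cast
  ring

theorem JT_fourier (k ε₁ ε₂ μ lam u : ℝ) {τ : ℝ} (hτ : 0 < τ) :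
    ∫ t : ℝ, ker τ u t * (Wf k ε₁ ε₂ t * (Mf k μ lam t * Pf k t)) =
      ((2 * Real.pi * JT k ε₁ ε₂ μ lam τ u : ℝ) : ℂ) := by
  have e : ∀ t : ℝ, ker τ u t * (Wf k ε₁ ε₂ t * (Mf k μ lam t * Pf k t)) =
      ∑ q ∈ Qs k ε₁ ε₂, ∑ m ∈ Ms k μ (μ + lam), ∑ l ∈ Ms k (1 / 2) 2,
        ((1 / (q : ℝ) * (1 / (m : ℝ)) * (ArithmeticFunction.vonMangoldt l / (l : ℝ)) : ℝ) : ℂ) *
        (ker τ u t * Complex.exp
          (((-(t * (Real.log q + Real.log m + Real.log l)) : ℝ) : ℂ) * Complex.I)) := by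
    intro t
    unfold Wf Mf Pf
    rw [H5_triple, Finset.mul_sum]
    refine Finset.sum_congr rfl fun q _ => ?_
    rw [Finset.mul_sum]
    refine Finset.sum_congr rfl fun m _ => ?_
    rw [Finset.mul_sum]
    refine Finset.sum_congr rfl fun l _ => ?_
    ring
  simp only [e]
  have hi : ∀ q m l : ℕ, Integrable (fun t : ℝ =>
      ((1 / (q : ℝ) * (1 / (m : ℝ)) * (ArithmeticFunction.vonMangoldt l / (l : ℝ)) : ℝ) : ℂ) *
        (ker τ u t * Complex.exp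
          (((-(t * (Real.log q + Real.log m + Real.log l)) : ℝ) : ℂ) * Complex.I))) :=
    fun q m l => (H5_single hτ u (Real.log q + Real.log m + Real.log l)).1.const_mul _
  rw [integral_finsetSum _ fun q _ => integrable_finsetSum _ fun m _ =>
    integrable_finsetSum _ fun l _ => hi q m l]
  unfold JT
  rw [Finset.mul_sum, Complex.ofReal_sum]
  refine Finset.sum_congr rfl fun q _ => ?_
  rw [integral_finsetSum _ fun m _ => integrable_finsetSum _ fun l _ => hi q m l]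
  rw [Finset.mul_sum, Complex.ofReal_sum]
  refine Finset.sum_congr rfl fun m _ => ?_
  rw [integral_finsetSum _ fun l _ => hi q m l]
  rw [Finset.mul_sum, Complex.ofReal_sum]
  refine Finset.sum_congr rfl fun l _ => ?_
  rw [integral_const_mul, (H5_single hτ u (Real.log q + Real.log m + Real.log l)).2,
    ← Complex.ofReal_mul]
  congr 1
  ring

private theorem H5_ind (s : Finset ℕ) (c : ℕ → ℝ) (X : ℕ) (hs : ∀ n ∈ s, 1 ≤ n ∧ n ≤ X) (t : ℝ) :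
    DP (Icc 1 X) (fun n => indA s c n) t = DP s c t := by
  have hv : ∀ n, indA s c n = if n ∈ s ∧ n ≠ 0 then c n else 0 := fun _ => rfl
  unfold DP
  symm
  calc ∑ n ∈ s, ((c n / n : ℝ) : ℂ) * Complex.exp (((-(t * Real.log n) : ℝ) : ℂ) * Complex.I)
      = ∑ n ∈ s, ((indA s c n / n : ℝ) : ℂ) *
          Complex.exp (((-(t * Real.log n) : ℝ) : ℂ) * Complex.I) := by
        refine Finset.sum_congr rfl fun n hn => ?_
        have hn1 := (hs n hn).1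
        rw [hv, if_pos ⟨hn, by omega⟩]
    _ = ∑ n ∈ Icc 1 X, ((indA s c n / n : ℝ) : ℂ) *
          Complex.exp (((-(t * Real.log n) : ℝ) : ℂ) * Complex.I) := by
        refine Finset.sum_subset (fun n hn => Finset.mem_Icc.2 (hs n hn)) fun n _ hn => ?_
        rw [hv, if_neg fun h => hn h.1, zero_div, Complex.ofReal_zero, zero_mul]

private theorem H5_Ms {k a b : ℝ} {n : ℕ} (h : n ∈ Ms k a b) : 1 ≤ n ∧ n ≤ ⌊k ^ b⌋₊ := by
  unfold Ms at h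
  rw [Finset.mem_Ioc] at h
  omega

theorem W_eq (k ε₁ ε₂ : ℝ) (X : ℕ) (hX : ⌊k ^ ε₂⌋₊ ≤ X) (t : ℝ) :
    DP (Icc 1 X) (fun n => wA k ε₁ ε₂ n) t = Wf k ε₁ ε₂ t := by
  unfold wA Wf
  refine H5_ind _ _ X (fun n hn => ?_) t
  unfold Qs at hn
  rw [Finset.mem_filter, Finset.mem_Ioc] at hn
  omega

private theorem H5_mA {k μ lam : ℝ} {n : ℕ} (hn : ⌊k ^ (μ + lam)⌋₊ < n) : mA k μ lam n = 0 := by
  change (if n ∈ Ms k μ (μ + lam) ∧ n ≠ 0 then (1 : ℝ) else 0) = 0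
  rw [if_neg]
  rintro ⟨h, _⟩
  have := (H5_Ms h).2
  omega

private theorem H5_lA {k : ℝ} {n : ℕ} (hn : ⌊k ^ (2 : ℝ)⌋₊ < n) : lA k n = 0 := by
  change (if n ∈ Ms k (1 / 2) 2 ∧ n ≠ 0 then ArithmeticFunction.vonMangoldt n else 0) = 0
  rw [if_neg]
  rintro ⟨h, _⟩
  have := (H5_Ms h).2
  omega

theorem ML_eq (k μ lam : ℝ) (Z : ℕ) (hZ : ⌊k ^ (μ + lam)⌋₊ * ⌊k ^ (2 : ℝ)⌋₊ ≤ Z) (t : ℝ) :
    DP (Icc 1 Z) (fun n => (mA k μ lam * lA k) n) t = Mf k μ lam t * Pf k t := by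
  rw [DP_mul (mA k μ lam) (lA k) ⌊k ^ (μ + lam)⌋₊ ⌊k ^ (2 : ℝ)⌋₊ Z (fun n hn => H5_mA hn)
    (fun n hn => H5_lA hn) hZ]
  unfold mA lA Mf Pf
  rw [H5_ind _ _ _ (fun n hn => H5_Ms hn) t, H5_ind _ _ _ (fun n hn => H5_Ms hn) t]

theorem ML_supp (k μ lam : ℝ) (n : ℕ) (hn : ⌊k ^ (μ + lam)⌋₊ * ⌊k ^ (2 : ℝ)⌋₊ < n) :
    (mA k μ lam * lA k) n = 0 := by
  rw [ArithmeticFunction.mul_apply]
  refine Finset.sum_eq_zero fun x hx => ?_
  have hx1 : x.1 * x.2 = n := (Nat.mem_divisorsAntidiagonal.1 hx).1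
  rcases lt_or_ge ⌊k ^ (μ + lam)⌋₊ x.1 with h1 | h1
  · rw [H5_mA h1, zero_mul]
  · rcases lt_or_ge ⌊k ^ (2 : ℝ)⌋₊ x.2 with h2 | h2
    · rw [H5_lA h2, mul_zero]
    · exfalso
      have := Nat.mul_le_mul h1 h2
      omega

private theorem H5_card {j : ℕ} (hj : j ∈ Icc 1 11) : Fintype.card (ix j) ≤ 23 := by
  rw [Finset.mem_Icc] at hj
  simp only [ix, Fintype.card_sum, Fintype.card_unit, Fintype.card_fin]
  omega

private theorem H5_exp {k β θ : ℝ} {j : ℕ} (hj : j ∈ Icc 1 11) {e : ix j → ℕ}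
    (he : e ∈ Ej k β θ j) : ∑ i, e i + #(Finset.univ : Finset (ix j)) ≤ 23 * (JK k + 1) := by
  unfold Ej at he
  rw [Finset.mem_filter, Fintype.mem_piFinset] at he
  have h1 : ∑ i, e i ≤ ∑ i : ix j, JK k := Finset.sum_le_sum fun i _ => by
    have := he.1 i
    rw [Finset.mem_range] at this
    omega
  rw [Finset.sum_const, smul_eq_mul] at h1
  have h2 := H5_card hj
  rw [← Finset.card_univ] at h2
  calc ∑ i, e i + #(Finset.univ : Finset (ix j))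
      ≤ #(Finset.univ : Finset (ix j)) * JK k + #(Finset.univ : Finset (ix j)) := by omega
    _ = #(Finset.univ : Finset (ix j)) * (JK k + 1) := by ring
    _ ≤ 23 * (JK k + 1) := Nat.mul_le_mul_right _ h2

private theorem H5_sum_apply {α : Type*} (s : Finset α) (f : α → ArithmeticFunction ℝ) (n : ℕ) :
    (∑ a ∈ s, f a) n = ∑ a ∈ s, f a n := by
  classical
  induction s using Finset.induction_on with
  | empty => simp
  | insert a s ha ih => rw [sum_insert ha, sum_insert ha, ArithmeticFunction.add_apply, ih]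

private theorem H5_gA (k β θ μ lam : ℝ) (n : ℕ) : gA k β θ μ lam n =
    ∑ j ∈ Icc 1 11, hbc j * ∑ e ∈ Ej k β θ j, (∏ i, blk (cf k μ lam j i) (e i)) n := by
  unfold gA
  rw [H5_sum_apply]
  refine Finset.sum_congr rfl fun j _ => ?_
  rw [← H5_sum_apply]
  rfl

theorem gA_supp (k β θ μ lam : ℝ) (n : ℕ) (hn : 2 ^ (23 * (JK k + 1)) < n) :
    gA k β θ μ lam n = 0 := by
  rw [H5_gA]
  refine Finset.sum_eq_zero fun j hj => ?_
  rw [Finset.sum_eq_zero, mul_zero]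
  intro e he
  by_contra hne
  have h1 := (prod_blk_supp _ _ _ n hne).2
  have h2 : 2 ^ (∑ i, e i + #(Finset.univ : Finset (ix j))) ≤ 2 ^ (23 * (JK k + 1)) :=
    Nat.pow_le_pow_right (by norm_num) (H5_exp hj he)
  omega

private theorem H5_DP_lin {α : Type*} (s : Finset ℕ) (T : Finset α) (r : α → ℝ) (F : α → ℕ → ℝ)
    (t : ℝ) : DP s (fun n => ∑ a ∈ T, r a * F a n) t = ∑ a ∈ T, (r a : ℂ) * DP s (F a) t := by
  unfold DP
  have e : ∀ n : ℕ, (((∑ a ∈ T, r a * F a n) / n : ℝ) : ℂ) *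
      Complex.exp (((-(t * Real.log n) : ℝ) : ℂ) * Complex.I) =
      ∑ a ∈ T, (r a : ℂ) * (((F a n / n : ℝ) : ℂ) *
        Complex.exp (((-(t * Real.log n) : ℝ) : ℂ) * Complex.I)) := by
    intro n
    rw [Finset.sum_div, Complex.ofReal_sum, Finset.sum_mul]
    refine Finset.sum_congr rfl fun a _ => ?_
    push_cast
    ring
  simp only [e]
  rw [Finset.sum_comm]
  refine Finset.sum_congr rfl fun a _ => ?_
  rw [Finset.mul_sum]

theorem Gf_eq (k β θ μ lam : ℝ) (Z : ℕ) (hZ : 2 ^ (23 * (JK k + 1)) ≤ Z) (t : ℝ) :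
    DP (Icc 1 Z) (fun n => gA k β θ μ lam n) t = Gf k β θ μ lam t := by
  have e1 : (fun n => gA k β θ μ lam n) = fun n => ∑ j ∈ Icc 1 11, hbc j *
      (fun n => ∑ e ∈ Ej k β θ j, (∏ i, blk (cf k μ lam j i) (e i)) n) n := by
    funext n
    exact H5_gA k β θ μ lam n
  rw [e1, H5_DP_lin]
  unfold Gf
  refine Finset.sum_congr rfl fun j hj => ?_
  congr 1
  have e2 : (fun n => ∑ e ∈ Ej k β θ j, (∏ i, blk (cf k μ lam j i) (e i)) n) =
      fun n => ∑ e ∈ Ej k β θ j, 1 * (∏ i, blk (cf k μ lam j i) (e i)) n := by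
    funext n
    simp only [one_mul]
  rw [e2, H5_DP_lin (r := fun _ => 1) (F := fun (e : ix j → ℕ) (n : ℕ) =>
    (∏ i, blk (cf k μ lam j i) (e i)) n)]
  refine Finset.sum_congr rfl fun e he => ?_
  rw [Complex.ofReal_one, one_mul]
  exact DP_prod_blk Finset.univ (cf k μ lam j) e Z
    (le_trans (Nat.pow_le_pow_right (by norm_num) (H5_exp hj he)) hZ) t

theorem Gf_cont (k β θ μ lam : ℝ) : Continuous (Gf k β θ μ lam) := by
  unfold Gf
  refine continuous_finsetSum _ fun j _ => continuous_const.mul ?_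
  refine continuous_finsetSum _ fun e _ => ?_
  exact continuous_finsetProd _ fun i _ => DP_continuous _ _

private theorem H5_cf_le (k μ lam : ℝ) (j : ℕ) (i : ix j) {n : ℕ} (hn : 1 ≤ n) :
    |cf k μ lam j i n| ≤ 1 + Real.log n := by
  have hlog : 0 ≤ Real.log n := Real.log_natCast_nonneg n
  rcases i with _ | i | i | _
  · change |(if n ∈ Ms k μ (μ + lam) ∧ n ≠ 0 then (1 : ℝ) else 0)| ≤ _
    split_ifs
    · rw [abs_one]
      linarith
    · rw [abs_zero]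
      linarith
  · have := muz_abs_le (zK k) n
    change |muz (zK k) n| ≤ _
    linarith
  · change |zR n| ≤ _
    rw [zR_apply hn, abs_one]
    linarith
  · change |ArithmeticFunction.log n| ≤ _
    rw [ArithmeticFunction.log_apply, abs_of_nonneg hlog]
    linarith

private theorem H5_block {k μ lam : ℝ} (hk : 1 ≤ k) {j : ℕ} (i : ix j) {e : ℕ} (he : e ≤ JK k)
    (t : ℝ) : ‖DP (Ico (2 ^ e) (2 ^ (e + 1))) (fun n => cf k μ lam j i n) t‖ ≤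
      2 + 2 * Real.log k := by
  have hlogk : 0 ≤ Real.log k := Real.log_nonneg hk
  have hk0 : 0 < k := by linarith
  refine (DP_norm_le _ _ _).trans ?_
  have h2 : (2 : ℝ) ^ (JK k) ≤ k ^ 2 := by
    have t1 : ((JK k : ℕ) : ℝ) ≤ 2 * Real.logb 2 k := by
      unfold JK
      refine Nat.floor_le ?_
      have := Real.logb_nonneg (b := 2) (by norm_num) hk
      linarith
    calc (2 : ℝ) ^ (JK k) = (2 : ℝ) ^ ((JK k : ℕ) : ℝ) := (Real.rpow_natCast _ _).symm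
      _ ≤ (2 : ℝ) ^ (2 * Real.logb 2 k) := Real.rpow_le_rpow_of_exponent_le (by norm_num) t1
      _ = k ^ 2 := by
        rw [mul_comm, Real.rpow_mul (by norm_num), Real.rpow_logb (by norm_num) (by norm_num) hk0]
        norm_num
  have h3 : ∀ n ∈ Ico (2 ^ e) (2 ^ (e + 1)),
      |cf k μ lam j i n| / n ≤ (2 + 2 * Real.log k) * (1 / 2 ^ e) := by
    intro n hn
    rw [Finset.mem_Ico] at hn
    have hn1 : 1 ≤ n := le_trans (Nat.one_le_two_pow) hn.1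
    have hn0 : (0 : ℝ) < n := by exact_mod_cast hn1
    have hn2 : (n : ℝ) ≤ 2 * k ^ 2 := by
      have t1 : (n : ℝ) ≤ 2 ^ (e + 1) := by exact_mod_cast hn.2.le
      have t2 : (2 : ℝ) ^ (e + 1) ≤ 2 ^ (JK k + 1) :=
        pow_le_pow_right₀ (by norm_num) (by omega)
      rw [pow_succ] at t2 ⊢ t1
      have t3 : (2 : ℝ) ^ (JK k + 1) = 2 ^ (JK k) * 2 := pow_succ _ _
      linarith
    have hn3 : (2 : ℝ) ^ e ≤ n := by exact_mod_cast hn.1
    have t1 := H5_cf_le k μ lam j i hn1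
    have t2 : Real.log n ≤ 1 + 2 * Real.log k := by
      have u1 : Real.log n ≤ Real.log (2 * k ^ 2) := Real.log_le_log hn0 hn2
      rw [Real.log_mul (by norm_num) (by positivity), Real.log_pow] at u1
      have u2 := Real.log_two_lt_d9
      push_cast at u1
      linarith
    have t3 : |cf k μ lam j i n| ≤ 2 + 2 * Real.log k := by linarith
    have hpos : (0 : ℝ) < 2 ^ e := by positivity
    rw [div_eq_mul_one_div]
    exact mul_le_mul t3 (one_div_le_one_div_of_le hpos hn3) (by positivity) (by positivity)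
  refine (Finset.sum_le_sum h3).trans (le_of_eq ?_)
  rw [Finset.sum_const, Nat.card_Ico, nsmul_eq_mul]
  have h4 : ((2 ^ (e + 1) - 2 ^ e : ℕ) : ℝ) = 2 ^ e := by
    have : 2 ^ (e + 1) - 2 ^ e = 2 ^ e := by
      rw [pow_succ]
      omega
    rw [this]
    push_cast
    rfl
  rw [h4]
  field_simp

private theorem H5_JK {k : ℝ} (hk : 1 ≤ k) : ((JK k + 1 : ℕ) : ℝ) ≤ 4 * Real.log k + 1 := by
  have hlogk : 0 ≤ Real.log k := Real.log_nonneg hk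
  have t1 : ((JK k : ℕ) : ℝ) ≤ 2 * Real.logb 2 k := by
    unfold JK
    refine Nat.floor_le ?_
    have := Real.logb_nonneg (b := 2) (by norm_num) hk
    linarith
  have t2 : Real.logb 2 k ≤ 2 * Real.log k := by
    rw [Real.logb, div_le_iff₀ (Real.log_pos (by norm_num))]
    have := Real.log_two_gt_d9
    nlinarith
  push_cast
  linarith

private theorem H5_hbc {j : ℕ} (hj : j ∈ Icc 1 11) : |hbc j| ≤ 462 := by
  unfold hbc
  rw [abs_mul, abs_pow, abs_neg, abs_one, one_pow, one_mul, Nat.abs_cast]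
  rw [Finset.mem_Icc] at hj
  obtain ⟨h1, h2⟩ := hj
  interval_cases j <;> norm_num [Nat.choose]

private theorem H5_Gf {k : ℝ} (hk : 1 ≤ k) (β θ μ lam t : ℝ) :
    ‖Gf k β θ μ lam t‖ ≤ 5082 * (4 * Real.log k + 1) ^ 23 * (2 + 2 * Real.log k) ^ 23 := by
  have hlogk : 0 ≤ Real.log k := Real.log_nonneg hk
  have hJ1 : (1 : ℝ) ≤ ((JK k + 1 : ℕ) : ℝ) := by
    push_cast
    have : (0 : ℝ) ≤ (JK k : ℝ) := Nat.cast_nonneg _
    linarith
  unfold Gf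
  have h1 : ∀ j ∈ Icc 1 11, ‖(hbc j : ℂ) * ∑ e ∈ Ej k β θ j,
      ∏ i, DP (Ico (2 ^ e i) (2 ^ (e i + 1))) (fun n => cf k μ lam j i n) t‖ ≤
      462 * ((4 * Real.log k + 1) ^ 23 * (2 + 2 * Real.log k) ^ 23) := by
    intro j hj
    rw [norm_mul, Complex.norm_real, Real.norm_eq_abs]
    refine mul_le_mul (H5_hbc hj) ?_ (norm_nonneg _) (by norm_num)
    have h2 : ∀ e ∈ Ej k β θ j,
        ‖∏ i, DP (Ico (2 ^ e i) (2 ^ (e i + 1))) (fun n => cf k μ lam j i n) t‖ ≤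
        (2 + 2 * Real.log k) ^ 23 := by
      intro e he
      rw [norm_prod]
      have he' := he
      unfold Ej at he'
      rw [Finset.mem_filter, Fintype.mem_piFinset] at he'
      calc ∏ i, ‖DP (Ico (2 ^ e i) (2 ^ (e i + 1))) (fun n => cf k μ lam j i n) t‖
          ≤ ∏ i : ix j, (2 + 2 * Real.log k) := by
            refine Finset.prod_le_prod (fun i _ => norm_nonneg _) fun i _ => ?_
            refine H5_block hk i ?_ t
            have := he'.1 i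
            rw [Finset.mem_range] at this
            omega
        _ = (2 + 2 * Real.log k) ^ (Fintype.card (ix j)) := by
            rw [Finset.prod_const, Finset.card_univ]
        _ ≤ (2 + 2 * Real.log k) ^ 23 :=
            pow_le_pow_right₀ (by linarith) (H5_card hj)
    have h3 : ((Ej k β θ j).card : ℝ) ≤ (4 * Real.log k + 1) ^ 23 := by
      have u1 : (Ej k β θ j).card ≤ (JK k + 1) ^ (Fintype.card (ix j)) := by
        unfold Ej
        refine (Finset.card_filter_le _ _).trans (le_of_eq ?_)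
        rw [Fintype.card_piFinset, Finset.prod_const, Finset.card_range, Finset.card_univ]
      calc ((Ej k β θ j).card : ℝ) ≤ (((JK k + 1) ^ (Fintype.card (ix j)) : ℕ) : ℝ) := by
            exact_mod_cast u1
        _ = ((JK k + 1 : ℕ) : ℝ) ^ (Fintype.card (ix j)) := by push_cast; rfl
        _ ≤ ((JK k + 1 : ℕ) : ℝ) ^ 23 := pow_le_pow_right₀ hJ1 (H5_card hj)
        _ ≤ (4 * Real.log k + 1) ^ 23 := pow_le_pow_left₀ (by positivity) (H5_JK hk) 23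
    calc ‖∑ e ∈ Ej k β θ j, ∏ i, DP (Ico (2 ^ e i) (2 ^ (e i + 1)))
          (fun n => cf k μ lam j i n) t‖
        ≤ ∑ e ∈ Ej k β θ j, (2 + 2 * Real.log k) ^ 23 := norm_sum_le_of_le _ h2
      _ = ((Ej k β θ j).card : ℝ) * (2 + 2 * Real.log k) ^ 23 := by
          rw [Finset.sum_const, nsmul_eq_mul]
      _ ≤ (4 * Real.log k + 1) ^ 23 * (2 + 2 * Real.log k) ^ 23 :=
          mul_le_mul_of_nonneg_right h3 (by positivity)
  refine (norm_sum_le_of_le _ h1).trans (le_of_eq ?_)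
  rw [Finset.sum_const, Nat.card_Icc, nsmul_eq_mul]
  norm_num
  ring

theorem WGf_sup (β θ ε₁ ε₂ : ℝ) (hε₁ : 0 < ε₁) (hε₂ : ε₂ ≤ 1) : ∃ k0 b : ℝ, ∀ k : ℝ, k0 ≤ k →
    ∀ μ lam t : ℝ, 0 ≤ μ → 0 ≤ lam → μ + lam ≤ 2 →
      ‖Wf k ε₁ ε₂ t * Gf k β θ μ lam t‖ ≤ (Real.log k) ^ b := by
  refine ⟨max 3 (Real.exp (10164 * 20 ^ 23)), 48, fun k hk μ lam t _ _ _ => ?_⟩
  have hk3 : 3 ≤ k := (le_max_left _ _).trans hk
  have hke : Real.exp (10164 * 20 ^ 23) ≤ k := (le_max_right _ _).trans hk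
  have hk0 : 0 < k := by linarith
  have hℓ : 10164 * 20 ^ 23 ≤ Real.log k := (Real.le_log_iff_exp_le hk0).2 hke
  have hℓ1 : 1 ≤ Real.log k := le_trans (by norm_num) hℓ
  set ℓ := Real.log k with hℓdef
  have h1 := Wf_le k ε₁ ε₂ t hk3 hε₁ hε₂
  have h2 := H5_Gf (by linarith : 1 ≤ k) β θ μ lam t
  rw [← hℓdef] at h1 h2
  have hb : ℓ ^ (48 : ℝ) = ℓ ^ 48 := by
    rw [← Real.rpow_natCast]
    norm_num
  rw [norm_mul, hb]
  have h3 : (4 * ℓ + 1) ^ 23 ≤ (5 * ℓ) ^ 23 := pow_le_pow_left₀ (by linarith) (by linarith) 23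
  have h4 : (2 + 2 * ℓ) ^ 23 ≤ (4 * ℓ) ^ 23 := pow_le_pow_left₀ (by linarith) (by linarith) 23
  calc ‖Wf k ε₁ ε₂ t‖ * ‖Gf k β θ μ lam t‖
      ≤ (1 + ℓ) * (5082 * (4 * ℓ + 1) ^ 23 * (2 + 2 * ℓ) ^ 23) :=
        mul_le_mul h1 h2 (norm_nonneg _) (by linarith)
    _ ≤ (2 * ℓ) * (5082 * (5 * ℓ) ^ 23 * (4 * ℓ) ^ 23) := by
        refine mul_le_mul (by linarith) ?_ (by positivity) (by linarith)
        exact mul_le_mul (mul_le_mul_of_nonneg_left h3 (by norm_num)) h4 (by positivity)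
          (by positivity)
    _ = (10164 * 20 ^ 23) * ℓ ^ 47 := by ring
    _ ≤ ℓ * ℓ ^ 47 := mul_le_mul_of_nonneg_right hℓ (by positivity)
    _ = ℓ ^ 48 := by ring

end Pool.Agent.Lib.MP_9a8698_nt
end

section

section

/-!
E2. Pointwise bounds for the Dirichlet polynomials of one smooth variable (E1 may be used, `sorry` or not).

PROOF. `DP (Ico a b) 1 t = ∑ n^(-1) exp(-i t log n)`. Abel summation (`Finset.sum_range_by_parts` or a direct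
induction): if all partial sums `‖∑_{a ≤ n < y} exp(-i t log n)‖ ≤ E` for `y ≤ b`, then
`‖∑_{a ≤ n < b} w(n) exp(-i t log n)‖ ≤ E (w(a) + w(b))·2` for monotone nonnegative `w`; here `w(n) = 1/n ≤ 1/X` (antitone).
For the logarithmic weight, `log n / n` is antitone only for `n ≥ 3`; write instead
`∑ log n/n z_n` with the two-step Abel summation: first `w = log` (monotone, at most `log (2X)`), then `w = 1/n`.
`‖ES (ph (-t) []) a y‖ = ‖ES (ph t []) a y‖` (`norm_ES_abs`), `ph_nil`.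
The bounds for the partial sums are `es_weyl` (E1) and `es_all` (H62): in `block_pow` use `es_all C`
(`|t| ≤ X^C`).
-/

set_option autoImplicit false

open Finset

namespace Pool.Agent.Lib.MP_9a8698_nt

open Pool.Agent.Lib.H62

private theorem e2_abel_id (w : ℕ → ℝ) (z : ℕ → ℂ) (a b : ℕ) (hab : a ≤ b) :
    ∑ n ∈ Ico a b, ((w n : ℝ) : ℂ) * z n = ((w b : ℝ) : ℂ) * ∑ n ∈ Ico a b, z n +
      ∑ n ∈ Ico a b, (((w n - w (n + 1) : ℝ)) : ℂ) * ∑ m ∈ Ico a (n + 1), z m := by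
  induction b, hab using Nat.le_induction with
  | base => simp
  | succ b hb ih =>
    rw [sum_Ico_succ_top hb, sum_Ico_succ_top hb, sum_Ico_succ_top hb, ih, sum_Ico_succ_top hb]
    push_cast
    ring

private theorem e2_abel (w : ℕ → ℝ) (z : ℕ → ℂ) (a b : ℕ) (hab : a ≤ b) (E : ℝ)
    (hE : ∀ y, y ≤ b → ‖∑ n ∈ Ico a y, z n‖ ≤ E) :
    ‖∑ n ∈ Ico a b, ((w n : ℝ) : ℂ) * z n‖ ≤
      (|w b| + ∑ n ∈ Ico a b, |w n - w (n + 1)|) * E := by
  rw [e2_abel_id w z a b hab]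
  refine (norm_add_le _ _).trans ?_
  rw [add_mul, sum_mul]
  apply add_le_add
  · rw [norm_mul, Complex.norm_real, Real.norm_eq_abs]
    exact mul_le_mul_of_nonneg_left (hE b le_rfl) (abs_nonneg _)
  · refine (norm_sum_le _ _).trans (sum_le_sum fun n hn => ?_)
    rw [mem_Ico] at hn
    rw [norm_mul, Complex.norm_real, Real.norm_eq_abs]
    exact mul_le_mul_of_nonneg_left (hE (n + 1) (by omega)) (abs_nonneg _)

private theorem e2_tele (w : ℕ → ℝ) (a b : ℕ) (hab : a ≤ b) :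
    ∑ n ∈ Ico a b, (w n - w (n + 1)) = w a - w b := by
  induction b, hab using Nat.le_induction with
  | base => simp
  | succ b hb ih =>
    rw [sum_Ico_succ_top hb, ih]
    ring

private theorem e2_inv (z : ℕ → ℂ) (X : ℝ) (hX : 1 ≤ X) (a b : ℕ) (hXa : X ≤ a) (E : ℝ)
    (hE : ∀ y, y ≤ b → ‖∑ n ∈ Ico a y, z n‖ ≤ E) :
    ‖∑ n ∈ Ico a b, ((1 / n : ℝ) : ℂ) * z n‖ ≤ E / X := by
  have hX0 : 0 < X := by linarith
  have hE0 : 0 ≤ E := (norm_nonneg _).trans (hE 0 (Nat.zero_le _))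
  rcases le_total b a with h | hab
  · rw [Ico_eq_empty_of_le h, sum_empty, norm_zero]
    positivity
  have ha0 : (0 : ℝ) < a := by linarith
  have h1 := e2_abel (fun n => 1 / (n : ℝ)) z a b hab E hE
  refine h1.trans ?_
  have h2 : ∑ n ∈ Ico a b, |1 / (n : ℝ) - 1 / ((n + 1 : ℕ) : ℝ)| =
      ∑ n ∈ Ico a b, (1 / (n : ℝ) - 1 / ((n + 1 : ℕ) : ℝ)) := by
    refine sum_congr rfl fun n hn => abs_of_nonneg ?_
    rw [mem_Ico] at hn
    have hn0 : (0 : ℝ) < n := lt_of_lt_of_le ha0 (by exact_mod_cast hn.1)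
    rw [sub_nonneg]
    apply one_div_le_one_div_of_le hn0
    push_cast
    linarith
  have h3 := e2_tele (fun n => 1 / (n : ℝ)) a b hab
  have h4 : |1 / (b : ℝ)| = 1 / (b : ℝ) := abs_of_nonneg (by positivity)
  have h5 : |1 / (b : ℝ)| + ∑ n ∈ Ico a b, |1 / (n : ℝ) - 1 / ((n + 1 : ℕ) : ℝ)| = 1 / (a : ℝ) := by
    rw [h2, h4]
    linarith
  rw [h5, div_mul_eq_mul_div, one_mul]
  exact div_le_div_of_nonneg_left hE0 hX0 hXa

private theorem e2_log (z : ℕ → ℂ) (X : ℝ) (hX : 1 ≤ X) (a b : ℕ) (hXa : X ≤ a)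
    (hb : (b : ℝ) ≤ 2 * X) (E : ℝ)
    (hE : ∀ y, y ≤ b → ‖∑ n ∈ Ico a y, z n‖ ≤ E) :
    ‖∑ n ∈ Ico a b, ((Real.log n : ℝ) : ℂ) * z n‖ ≤ 2 * (1 + Real.log X) * E := by
  have hX0 : 0 < X := by linarith
  have hlX : 0 ≤ Real.log X := Real.log_nonneg hX
  have hE0 : 0 ≤ E := (norm_nonneg _).trans (hE 0 (Nat.zero_le _))
  rcases le_total b a with h | hab
  · rw [Ico_eq_empty_of_le h, sum_empty, norm_zero]
    positivity
  have ha0 : (0 : ℝ) < a := by linarith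
  have hb0 : (1 : ℝ) ≤ b := by
    have : (a : ℝ) ≤ b := by exact_mod_cast hab
    linarith
  have h1 := e2_abel (fun n => Real.log (n : ℝ)) z a b hab E hE
  refine h1.trans (mul_le_mul_of_nonneg_right ?_ hE0)
  have h2 : ∑ n ∈ Ico a b, |Real.log (n : ℝ) - Real.log ((n + 1 : ℕ) : ℝ)| =
      ∑ n ∈ Ico a b, -(Real.log (n : ℝ) - Real.log ((n + 1 : ℕ) : ℝ)) := by
    refine sum_congr rfl fun n hn => abs_of_nonpos ?_
    rw [mem_Ico] at hn
    have hn0 : (0 : ℝ) < n := lt_of_lt_of_le ha0 (by exact_mod_cast hn.1)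
    rw [sub_nonpos]
    apply Real.log_le_log hn0
    push_cast
    linarith
  have h3 := e2_tele (fun n => Real.log (n : ℝ)) a b hab
  rw [sum_neg_distrib] at h2
  have h4 : |Real.log (b : ℝ)| = Real.log (b : ℝ) := abs_of_nonneg (Real.log_nonneg hb0)
  have h6 : 0 ≤ Real.log (a : ℝ) := Real.log_nonneg (by linarith)
  have h7 : Real.log (b : ℝ) ≤ 1 + Real.log X := by
    calc Real.log (b : ℝ) ≤ Real.log (2 * X) := Real.log_le_log (by linarith) hb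
      _ = Real.log 2 + Real.log X := Real.log_mul (by norm_num) hX0.ne'
      _ ≤ 1 + Real.log X := by
          have := Real.log_two_lt_d9
          linarith
  rw [h2, h4, h3]
  linarith

private theorem e2_ES (t : ℝ) (a y : ℕ) :
    ‖∑ n ∈ Ico a y, Complex.exp (((-(t * Real.log n) : ℝ) : ℂ) * Complex.I)‖ =
      ‖ES (ph t []) a y‖ := by
  have h1 : ‖ES (ph (-t) []) a y‖ = ‖ES (ph t []) a y‖ := by
    rw [norm_ES_abs, norm_ES_abs t, abs_neg]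
  rw [← h1]
  unfold ES
  congr 1
  refine sum_congr rfl fun n _ => ?_
  rw [ph_nil, neg_mul]

private theorem e2_DP_one (t : ℝ) (a b : ℕ) :
    DP (Ico a b) (fun _ => 1) t = ∑ n ∈ Ico a b, ((1 / n : ℝ) : ℂ) *
      Complex.exp (((-(t * Real.log n) : ℝ) : ℂ) * Complex.I) := rfl

private theorem e2_DP_log (t : ℝ) (a b : ℕ) :
    DP (Ico a b) (fun n => Real.log n) t = ∑ n ∈ Ico a b, ((1 / n : ℝ) : ℂ) *
      (((Real.log n : ℝ) : ℂ) * Complex.exp (((-(t * Real.log n) : ℝ) : ℂ) * Complex.I)) := by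
  unfold DP
  refine sum_congr rfl fun n _ => ?_
  rw [← mul_assoc, ← Complex.ofReal_mul]
  congr 2
  ring

private theorem e2_rp (X : ℝ) (hX : 0 < X) :
    X ^ ((1 : ℝ) / 2) / X = X ^ (-((1 : ℝ) / 2)) := by
  nth_rewrite 2 [← Real.rpow_one X]
  rw [← Real.rpow_sub hX]
  norm_num

theorem block_weyl : ∃ C : ℝ, 0 < C ∧ ∀ X t : ℝ, 1 ≤ X → 1 ≤ |t| → ∀ a b : ℕ, X ≤ a →
    (b : ℝ) ≤ 2 * X → ‖DP (Ico a b) (fun _ => 1) t‖ ≤
      C * (1 + Real.log X) * (|t| ^ ((1 : ℝ) / 6) * X ^ (-((1 : ℝ) / 2)) + 1 / |t|) := by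
  obtain ⟨C, hC, h⟩ := es_weyl
  refine ⟨C, hC, fun X t hX ht a b ha hb => ?_⟩
  have hX0 : 0 < X := by linarith
  rw [e2_DP_one]
  have h1 := e2_inv (fun n => Complex.exp (((-(t * Real.log n) : ℝ) : ℂ) * Complex.I)) X hX a b ha
    (C * (1 + Real.log X) * (|t| ^ ((1 : ℝ) / 6) * X ^ ((1 : ℝ) / 2) + X / |t|))
    (fun y hy => by
      rw [e2_ES]
      refine h X t hX ht a y ha (le_trans ?_ hb)
      exact_mod_cast hy)
  refine h1.trans (le_of_eq ?_)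
  rw [← e2_rp X hX0]
  have ht0 : |t| ≠ 0 := by positivity
  field_simp

theorem block_weyl_log : ∃ C : ℝ, 0 < C ∧ ∀ X t : ℝ, 1 ≤ X → 1 ≤ |t| → ∀ a b : ℕ, X ≤ a →
    (b : ℝ) ≤ 2 * X → ‖DP (Ico a b) (fun n => Real.log n) t‖ ≤
      C * (1 + Real.log X) ^ 2 * (|t| ^ ((1 : ℝ) / 6) * X ^ (-((1 : ℝ) / 2)) + 1 / |t|) := by
  obtain ⟨C, hC, h⟩ := es_weyl
  refine ⟨2 * C, by positivity, fun X t hX ht a b ha hb => ?_⟩
  have hX0 : 0 < X := by linarith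
  rw [e2_DP_log]
  have h1 := e2_inv (fun n => ((Real.log n : ℝ) : ℂ) *
      Complex.exp (((-(t * Real.log n) : ℝ) : ℂ) * Complex.I)) X hX a b ha
    (2 * (1 + Real.log X) *
      (C * (1 + Real.log X) * (|t| ^ ((1 : ℝ) / 6) * X ^ ((1 : ℝ) / 2) + X / |t|)))
    (fun y hy => by
      have hyb : (y : ℝ) ≤ b := by exact_mod_cast hy
      refine e2_log _ X hX a y ha (hyb.trans hb) _ (fun y' hy' => ?_)
      rw [e2_ES]
      have hyy : (y' : ℝ) ≤ y := by exact_mod_cast hy'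
      exact h X t hX ht a y' ha ((hyy.trans hyb).trans hb))
  refine h1.trans (le_of_eq ?_)
  rw [← e2_rp X hX0]
  have ht0 : |t| ≠ 0 := by positivity
  field_simp

theorem block_pow (K : ℕ) : ∃ δ : ℝ, 0 < δ ∧ δ ≤ 1 ∧ ∃ C : ℝ, 0 < C ∧ ∀ X t : ℝ, 1 ≤ X →
    t ≠ 0 → |t| ≤ X ^ K → ∀ a b : ℕ, X ≤ a → (b : ℝ) ≤ 2 * X →
      ‖DP (Ico a b) (fun _ => 1) t‖ ≤ C * (X ^ (-δ) + 1 / |t|) := by
  obtain ⟨δ, hδ, hδ1, C, hC, h⟩ := es_all K
  refine ⟨δ, hδ, hδ1, C, hC, fun X t hX ht htK a b ha hb => ?_⟩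
  have hX0 : 0 < X := by linarith
  rw [e2_DP_one]
  have h1 := e2_inv (fun n => Complex.exp (((-(t * Real.log n) : ℝ) : ℂ) * Complex.I)) X hX a b ha
    (C * (X ^ (1 - δ) + X / |t|))
    (fun y hy => by
      rw [e2_ES]
      refine h X t hX ht htK a y ha (le_trans ?_ hb)
      exact_mod_cast hy)
  refine h1.trans (le_of_eq ?_)
  have h2 : X ^ (-δ) = X ^ (1 - δ) / X := by
    nth_rewrite 3 [← Real.rpow_one X]
    rw [← Real.rpow_sub hX0]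
    congr 1
    ring
  rw [h2]
  have ht0 : |t| ≠ 0 := by positivity
  field_simp

end Pool.Agent.Lib.MP_9a8698_nt
end

section

/-!
P1. Boxes with one very long smooth variable (case 0 of paper 312; S1 `mvt_log`, S3 `Tm`, A4 are used).

PROOF. `ℓ = log k`, `T₀ = k^δ`, `T₁ = k^(β+θ/2)` (if `T₁ < T₀` the set `Tm` is empty). On `Tm`, `‖f‖ ≤ ℓ^b/|t|`, so the integral is at most
`ℓ^b ∫_{Tm} ‖R‖/|t|`, and `‖R‖/|t| = (‖R‖ |t|^(-1/2)) |t|^(-1/2)`, Cauchy-Schwarz: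
`≤ ℓ^b (∫_{Tm} ‖R‖²/|t|)^(1/2) (∫_{Tm} 1/|t|)^(1/2)`. The first integral is by `mvt_log` at most
`C (1+log T₁) ℓ^(2b) (1+4ℓ)^(r²) (1/N + 1/T₀)` and `1/N + 1/T₀ ≤ k^(-η/2) + k^(-δ)`, the second one is `2 log (T₁/T₀) ≤ 2ℓ`
(or apply `mvt_log` to `IsDP.one`, or bound it by splitting). So `c = min(η/2, δ)/4` works for large `k` (see S4 for the same
computation, the helper lemmas `S4_cs`, `S4_large`, `S4_L` there are private: copy them).
-/

set_option autoImplicit false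

open Finset MeasureTheory

namespace Pool.Agent.Lib.MP_9a8698_nt

private lemma P1_cs {S : Set ℝ} (hS : IsCompact S) {F G w : ℝ → ℝ} (hF : ContinuousOn F S)
    (hG : ContinuousOn G S) (hw : ContinuousOn w S) (hw0 : ∀ t ∈ S, 0 ≤ w t) {K a b : ℝ}
    (ha : 0 < a) (hb : 0 < b) (h1 : ∫ t in S, F t ^ 2 * w t ≤ K * a)
    (h2 : ∫ t in S, G t ^ 2 * w t ≤ K * b) :
    ∫ t in S, F t * G t * w t ≤ K * Real.sqrt (a * b) := by
  have hFi : IntegrableOn (fun t => F t ^ 2 * w t) S :=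
    ((hF.pow 2).mul hw).integrableOn_compact hS
  have hGi : IntegrableOn (fun t => G t ^ 2 * w t) S :=
    ((hG.pow 2).mul hw).integrableOn_compact hS
  have hFGi : IntegrableOn (fun t => F t * G t * w t) S :=
    ((hF.mul hG).mul hw).integrableOn_compact hS
  obtain ⟨p, hp⟩ : ∃ p : ℝ, p = Real.sqrt a := ⟨_, rfl⟩
  obtain ⟨q, hq⟩ : ∃ q : ℝ, q = Real.sqrt b := ⟨_, rfl⟩
  have hp0 : 0 < p := by rw [hp]; exact Real.sqrt_pos.2 ha
  have hq0 : 0 < q := by rw [hq]; exact Real.sqrt_pos.2 hb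
  have hpa : p ^ 2 = a := by rw [hp]; exact Real.sq_sqrt ha.le
  have hqb : q ^ 2 = b := by rw [hq]; exact Real.sq_sqrt hb.le
  have hpq : Real.sqrt (a * b) = p * q := by rw [Real.sqrt_mul ha.le, hp, hq]
  have hle : ∫ t in S, F t * G t * w t ≤
      ∫ t in S, (q / p / 2 * (F t ^ 2 * w t) + p / q / 2 * (G t ^ 2 * w t)) := by
    refine setIntegral_mono_on hFGi ((hFi.const_mul _).add (hGi.const_mul _)) hS.measurableSet
      fun t ht => ?_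
    have h3 : F t * G t ≤ q / p / 2 * F t ^ 2 + p / q / 2 * G t ^ 2 := by
      have h4 : q / p / 2 * F t ^ 2 + p / q / 2 * G t ^ 2 - F t * G t =
          (q * F t - p * G t) ^ 2 / (2 * p * q) := by
        field_simp
        ring
      have h5 : 0 ≤ (q * F t - p * G t) ^ 2 / (2 * p * q) := by positivity
      linarith
    have h6 := mul_le_mul_of_nonneg_right h3 (hw0 t ht)
    linarith
  rw [integral_add (hFi.const_mul _) (hGi.const_mul _), integral_const_mul,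
    integral_const_mul] at hle
  have h7 : q / p / 2 * ∫ t in S, F t ^ 2 * w t ≤ q / p / 2 * (K * a) :=
    mul_le_mul_of_nonneg_left h1 (by positivity)
  have h8 : p / q / 2 * ∫ t in S, G t ^ 2 * w t ≤ p / q / 2 * (K * b) :=
    mul_le_mul_of_nonneg_left h2 (by positivity)
  have h9 : q / p / 2 * (K * a) + p / q / 2 * (K * b) = K * (p * q) := by
    rw [← hpa, ← hqb]
    field_simp
    ring
  rw [hpq]
  linarith

private lemma P1_compact (k δ T : ℝ) : IsCompact (Tm k δ T) := by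
  refine (isCompact_Icc (a := -(k ^ T)) (b := k ^ T)).of_isClosed_subset ?_ ?_
  · have h1 : IsClosed {t : ℝ | k ^ δ ≤ |t|} := isClosed_le continuous_const continuous_abs
    have h2 : IsClosed {t : ℝ | |t| ≤ k ^ T} := isClosed_le continuous_abs continuous_const
    exact h1.inter h2
  · intro t ht
    exact abs_le.1 ht.2

private lemma P1_large (K m c : ℝ) (hc : 0 < c) :
    ∃ k0 : ℝ, ∀ k : ℝ, k0 ≤ k → Real.exp 1 ≤ k ∧ K * (Real.log k) ^ m ≤ k ^ c := by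
  have h1 := (isLittleO_log_rpow_rpow_atTop m hc).const_mul_left K
  have h2 := h1.bound (c := 1) one_pos
  have h3 : ∀ᶠ k : ℝ in Filter.atTop, Real.exp 1 ≤ k ∧ K * (Real.log k) ^ m ≤ k ^ c := by
    filter_upwards [h2, Filter.eventually_ge_atTop (Real.exp 1)] with k hk1 hk2
    refine ⟨hk2, ?_⟩
    have hk0 : 0 < k := (Real.exp_pos 1).trans_le hk2
    rw [one_mul, Real.norm_of_nonneg (Real.rpow_nonneg hk0.le c)] at hk1
    exact (Real.le_norm_self _).trans hk1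
  exact Filter.eventually_atTop.1 h3

private lemma P1_L {ℓ b : ℝ} {r r1 : ℕ} (hℓ : 1 ≤ ℓ) (hr : r1 ≤ r) {M k : ℝ}
    (hk : ℓ = Real.log k) (hk0 : 0 < k) (hM1 : 1 ≤ M) (hM : M ≤ k ^ (4 : ℝ)) :
    (ℓ ^ b) ^ 2 * (1 + Real.log M) ^ (r1 ^ 2) ≤ (ℓ ^ b) ^ 2 * (5 * ℓ) ^ (r ^ 2) := by
  refine mul_le_mul_of_nonneg_left ?_ (by positivity)
  have h1 : Real.log M ≤ 4 * ℓ := by
    have h2 := Real.log_le_log (by linarith) hM
    rwa [Real.log_rpow hk0, ← hk] at h2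
  have h3 : 0 ≤ Real.log M := Real.log_nonneg hM1
  calc (1 + Real.log M) ^ (r1 ^ 2) ≤ (5 * ℓ) ^ (r1 ^ 2) := by
        apply pow_le_pow_left₀ (by linarith)
        linarith
    _ ≤ (5 * ℓ) ^ (r ^ 2) := pow_le_pow_right₀ (by linarith) (Nat.pow_le_pow_left hr 2)

theorem boxL (β θ δ η b : ℝ) (r : ℕ) (hβ : 0 < β) (hθ : 0 < θ) (hβ2 : β + θ / 2 ≤ 1)
    (hδ : 0 < δ) (hη : 0 < η) (hb : 0 ≤ b) :
    ∃ c k0 : ℝ, 0 < c ∧ ∀ k : ℝ, k0 ≤ k → ∀ (r1 : ℕ) (N M : ℝ) (f R : ℝ → ℂ),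
      r1 ≤ r → Continuous f → IsDP r1 ((Real.log k) ^ b) N M R → 1 ≤ N → 1 ≤ M →
      M ≤ k ^ (4 : ℝ) → k ^ (η / 2) ≤ N →
      (∀ t ∈ Tm k δ (β + θ / 2), ‖f t‖ ≤ (Real.log k) ^ b / |t|) →
      ∫ t in Tm k δ (β + θ / 2), ‖f t * R t‖ ≤ k ^ (-c) := by
  obtain ⟨C₂, hC₂, hml⟩ := mvt_log
  obtain ⟨κ, hκ⟩ : ∃ κ : ℝ, κ = min (η / 2) δ / 2 := ⟨_, rfl⟩
  have hκ0 : 0 < κ := by
    rw [hκ]
    exact half_pos (lt_min (half_pos hη) hδ)
  obtain ⟨k0, hk0⟩ := P1_large (5 ^ (r ^ 2) * (4 * C₂)) (3 * b + (r ^ 2 : ℕ) + 1)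
    (κ / 2) (half_pos hκ0)
  refine ⟨κ / 2, k0, half_pos hκ0, ?_⟩
  intro k hk r1 N M f R hr1 hf hR hN hM hMk hNk hfb
  obtain ⟨hke, hkK⟩ := hk0 k hk
  have hk0' : 0 < k := (Real.exp_pos 1).trans_le hke
  have hk1 : 1 < k := lt_of_lt_of_le (by
    have := Real.add_one_lt_exp (one_ne_zero' ℝ)
    linarith) hke
  obtain ⟨ℓ, hℓ⟩ : ∃ ℓ : ℝ, ℓ = Real.log k := ⟨_, rfl⟩
  have hℓ1 : 1 ≤ ℓ := by
    rw [hℓ, Real.le_log_iff_exp_le hk0']
    exact hke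
  rw [← hℓ] at hkK hR hfb
  obtain ⟨S, hS⟩ : ∃ S : Set ℝ, S = Tm k δ (β + θ / 2) := ⟨_, rfl⟩
  have hSc : IsCompact S := by rw [hS]; exact P1_compact _ _ _
  obtain ⟨T₁, hT₁⟩ : ∃ T₁ : ℝ, T₁ = k ^ (β + θ / 2) := ⟨_, rfl⟩
  obtain ⟨T₀, hT₀⟩ : ∃ T₀ : ℝ, T₀ = k ^ δ := ⟨_, rfl⟩
  have hSmem : ∀ t ∈ S, T₀ ≤ |t| ∧ |t| ≤ T₁ := by
    intro t ht
    rw [hS] at ht
    rw [hT₀, hT₁]
    exact ht
  have hT₀1 : 1 ≤ T₀ := by rw [hT₀]; exact Real.one_le_rpow hk1.le hδ.le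
  have hT₁1 : 1 ≤ T₁ := by rw [hT₁]; exact Real.one_le_rpow hk1.le (by linarith)
  rw [← hS]
  rw [← hS] at hfb
  by_cases hT : T₀ ≤ T₁
  swap
  · have hempty : S = ∅ := by
      rw [Set.eq_empty_iff_forall_notMem]
      intro t ht
      obtain ⟨h1, h2⟩ := hSmem t ht
      exact hT (h1.trans h2)
    rw [hempty, Measure.restrict_empty, integral_zero_measure]
    positivity
  obtain ⟨L, hL⟩ : ∃ L : ℝ, L = (ℓ ^ b) ^ 2 * (5 * ℓ) ^ (r ^ 2) := ⟨_, rfl⟩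
  have hB1 : 1 ≤ ℓ ^ b := Real.one_le_rpow hℓ1 hb
  have hL1 : 1 ≤ L := by
    rw [hL]
    have h1 : 1 ≤ (ℓ ^ b) ^ 2 := one_le_pow₀ hB1
    have h2 : 1 ≤ (5 * ℓ) ^ (r ^ 2) := one_le_pow₀ (by linarith)
    nlinarith
  have hRc : Continuous R := hR.cont
  have hT₀' : 0 < T₀ := by linarith
  have hT₁' : 0 < T₁ := by linarith
  have hlogT : Real.log T₁ ≤ ℓ := by
    rw [hT₁, Real.log_rpow hk0', ← hℓ]
    nlinarith
  have hlogT0 : 0 ≤ Real.log T₁ := Real.log_nonneg hT₁1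
  have hS' : {t : ℝ | T₀ ≤ |t| ∧ |t| ≤ T₁} = S := by
    rw [hS, hT₀, hT₁]
    rfl
  obtain ⟨z, hz⟩ : ∃ z : ℝ, z = k ^ (-κ) := ⟨_, rfl⟩
  have hz0 : 0 < z := by rw [hz]; positivity
  have hz2 : z ^ 2 = k ^ (-(2 * κ)) := by
    rw [hz, ← Real.rpow_natCast, ← Real.rpow_mul hk0'.le]
    congr 1
    push_cast
    ring
  have hT₀z : 1 / T₀ ≤ z ^ 2 := by
    rw [hT₀, hz2, one_div, ← Real.rpow_neg hk0'.le]
    refine (Real.rpow_le_rpow_left_iff hk1).2 (neg_le_neg ?_)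
    rw [hκ]
    have := min_le_right (η / 2) δ
    linarith
  have hNz : 1 / N ≤ z ^ 2 := by
    have h4 : 1 / N ≤ 1 / k ^ (η / 2) := one_div_le_one_div_of_le (by positivity) hNk
    refine h4.trans ?_
    rw [hz2, one_div, ← Real.rpow_neg hk0'.le]
    refine (Real.rpow_le_rpow_left_iff hk1).2 (neg_le_neg ?_)
    rw [hκ]
    have := min_le_left (η / 2) δ
    linarith
  have hm1 : ∫ t in S, ‖R t‖ ^ 2 * |t|⁻¹ ≤ (2 * C₂ * (1 + ℓ) * L) * z ^ 2 := by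
    have h2 := hml r1 (ℓ ^ b) N M T₀ T₁ R hR (by positivity) hN hM hT₀1 hT
    rw [hS'] at h2
    simp_rw [div_eq_mul_inv (‖R _‖ ^ 2)] at h2
    refine h2.trans ?_
    have h3 := P1_L (b := b) hℓ1 hr1 hℓ hk0' hM hMk
    rw [← hL] at h3
    have h4 : 0 ≤ Real.log M := Real.log_nonneg hM
    have h5 : 1 / N + 1 / T₀ ≤ 2 * z ^ 2 := by linarith
    have h6 : 0 < 1 / N + 1 / T₀ := by positivity
    calc C₂ * (1 + Real.log T₁) * ((ℓ ^ b) ^ 2 * (1 + Real.log M) ^ (r1 ^ 2)) * (1 / N + 1 / T₀)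
        ≤ C₂ * (1 + ℓ) * L * (2 * z ^ 2) := by gcongr
      _ = (2 * C₂ * (1 + ℓ) * L) * z ^ 2 := by ring
  have hm2 : ∫ t in S, (1 : ℝ) ^ 2 * |t|⁻¹ ≤ (2 * C₂ * (1 + ℓ) * L) * 1 := by
    have h2 := hml 0 1 1 1 T₀ T₁ (fun _ => 1) IsDP.one zero_le_one le_rfl le_rfl hT₀1 hT
    rw [hS'] at h2
    have h1 : ∫ t in S, (1 : ℝ) ^ 2 * |t|⁻¹ = ∫ t in S, ‖(1 : ℂ)‖ ^ 2 / |t| := by
      refine integral_congr_ae (Filter.Eventually.of_forall fun t => ?_)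
      simp [div_eq_mul_inv]
    rw [h1]
    refine h2.trans ?_
    have h5 : 1 / 1 + 1 / T₀ ≤ 2 := by
      have : 1 / T₀ ≤ 1 := by rw [div_le_one hT₀']; exact hT₀1
      linarith
    have h6 : (0 : ℝ) < 1 / 1 + 1 / T₀ := by positivity
    have h7 : (1 : ℝ) ^ 2 * (1 + Real.log 1) ^ (0 ^ 2) = 1 := by simp
    rw [h7]
    calc C₂ * (1 + Real.log T₁) * 1 * (1 / 1 + 1 / T₀) ≤ C₂ * (1 + ℓ) * L * 2 := by gcongr
      _ = (2 * C₂ * (1 + ℓ) * L) * 1 := by ring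
  have hpos : ∀ t ∈ S, 0 < |t| := fun t ht => hT₀'.trans_le (hSmem t ht).1
  have hinv : ContinuousOn (fun t : ℝ => |t|⁻¹) S :=
    continuous_abs.continuousOn.inv₀ fun t ht => (hpos t ht).ne'
  have hc := P1_cs hSc (F := fun t => ‖R t‖) (G := fun _ => (1 : ℝ)) (w := fun t => |t|⁻¹)
    hRc.norm.continuousOn continuousOn_const hinv (fun t _ => by positivity)
    (by positivity : 0 < z ^ 2) one_pos hm1 hm2
  rw [mul_one, Real.sqrt_sq hz0.le] at hc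
  have hi2 : IntegrableOn (fun t => ‖R t‖ * 1 * |t|⁻¹) S :=
    ((hRc.norm.mul continuous_const).continuousOn.mul hinv).integrableOn_compact hSc
  have hmain : ∫ t in S, ‖f t * R t‖ ≤ ∫ t in S, ℓ ^ b * (‖R t‖ * 1 * |t|⁻¹) := by
    refine setIntegral_mono_on ?_ (hi2.const_mul _) hSc.measurableSet fun t ht => ?_
    · exact (hf.mul hRc).norm.continuousOn.integrableOn_compact hSc
    · rw [norm_mul]
      calc ‖f t‖ * ‖R t‖ ≤ ℓ ^ b / |t| * ‖R t‖ :=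
            mul_le_mul_of_nonneg_right (hfb t ht) (norm_nonneg _)
        _ = ℓ ^ b * (‖R t‖ * 1 * |t|⁻¹) := by
            rw [div_eq_mul_inv]
            ring
  rw [integral_const_mul] at hmain
  have h2 : ℓ ^ b * ∫ t in S, ‖R t‖ * 1 * |t|⁻¹ ≤ ℓ ^ b * (2 * C₂ * (1 + ℓ) * L * z) :=
    mul_le_mul_of_nonneg_left hc (by positivity)
  have h3 : ℓ ^ b * (2 * C₂ * (1 + ℓ) * L * z) ≤
      (5 ^ (r ^ 2) * (4 * C₂) * ℓ ^ (3 * b + (r ^ 2 : ℕ) + 1)) * z := by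
    have h4 : ℓ ^ (3 * b + (r ^ 2 : ℕ) + 1) = ℓ ^ b * (ℓ ^ b) ^ 2 * ℓ ^ (r ^ 2) * ℓ := by
      have hℓ0 : 0 < ℓ := by linarith
      rw [Real.rpow_add hℓ0, Real.rpow_add hℓ0, Real.rpow_one, Real.rpow_natCast,
        show (3 : ℝ) * b = b + b * 2 by ring, Real.rpow_add hℓ0, Real.rpow_mul hℓ0.le,
        show ((2 : ℝ)) = ((2 : ℕ) : ℝ) by norm_num, Real.rpow_natCast]
    have h5 : ℓ ^ b * (2 * C₂ * (1 + ℓ) * L * z) = (ℓ ^ b * L * z) * (2 * C₂ * (1 + ℓ)) := by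
      ring
    have h6 : 2 * C₂ * (1 + ℓ) ≤ (4 * C₂) * ℓ := by nlinarith
    rw [h5]
    refine (mul_le_mul_of_nonneg_left h6 (by positivity)).trans (le_of_eq ?_)
    rw [h4, hL, mul_pow]
    ring
  have h7 : z = k ^ (-(κ / 2)) * k ^ (-(κ / 2)) := by
    rw [hz, ← Real.rpow_add hk0']
    congr 1
    ring
  have h8 : k ^ (κ / 2) * k ^ (-(κ / 2)) = 1 := by
    rw [← Real.rpow_add hk0', add_neg_cancel, Real.rpow_zero]
  calc ∫ t in S, ‖f t * R t‖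
      ≤ (5 ^ (r ^ 2) * (4 * C₂) * ℓ ^ (3 * b + (r ^ 2 : ℕ) + 1)) * z := by
        linarith
    _ ≤ k ^ (κ / 2) * z := mul_le_mul_of_nonneg_right hkK hz0.le
    _ = k ^ (-(κ / 2)) := by
        rw [h7, ← mul_assoc, h8, one_mul]

end Pool.Agent.Lib.MP_9a8698_nt
end

section

/-!
P2. Boxes with a heavy pair of smooth variables (case 2 of paper 312; S1 `mvt_log`, S3 `Tm`, A4 are used).

PROOF. `ℓ = log k`, `T₀ = k^δ`, `T₁ = k^(β+θ/2)`; put `L = ℓ^(2b) (1+4ℓ)^(r²)`.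
(I) The part `|t| ≤ X1` of `Tm`. Here `‖f1‖ ≤ ℓ^b/|t|` (note `|t| ≥ T₀ ≥ 1`) and by Cauchy-Schwarz and `mvt_log`
`∫ ‖f2‖‖R‖/|t| ≤ (∫ ‖f2‖²/|t|)^(1/2) (∫ ‖R‖²/|t|)^(1/2) ≤ C (1+ℓ) L ((1/X2 + 1/T₀)(1/N + 1/T₀))^(1/2) ≤ C' ℓ L (k^(-2/11) + k^(-δ))^(1/2)`.
(II) The part `X1 ≤ |t| ≤ T₁` (if `X1 ≤ T₁`): covered by the sets `{Y ≤ |t| ≤ 2Y}`, `Y = 2^i X1 ≤ T₁` (at most `2ℓ+1` of them). For such `Y`
(`Y ≥ X1 ≥ X2`, `Y ≥ 2` for large `k`) Hoelder (Cauchy-Schwarz twice: `∫ |f1 f2 R| ≤ (∫|f1 f2|²)^(1/2) (∫ |R|²)^(1/2)`,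
`∫ |f1 f2|² ≤ (∫|f1|^4)^(1/2) (∫|f2|^4)^(1/2)`) and `IsDP.mvt` at height `2Y` give
`∫_{Y ≤ |t| ≤ 2Y} ‖f1 f2 R‖ ≤ (k^θ Y/(X1 X2))^(1/2) (C (2Y/N + 1) L)^(1/2)`
`= (C L k^θ)^(1/2) (2 Y²/(X1 X2 N) + Y/(X1 X2))^(1/2) ≤ (2 C L k^θ)^(1/2) (k^(2β+θ-(1+β-θ/4)) + k^(β+θ/2-(1-θ)))^(1/2)`
and `2β+θ-(1+β-θ/4)+θ = β - 1 + 9θ/4 ≤ -1/11`, `β+θ/2-1+θ+θ = β - 1 + 5θ/2 ≤ -1/11` (as `β ≤ 9/11 - 20θ`).
So `c = min(1/11, δ)/8` works for large `k`. (Helper lemmas `S4_cs`, `S4_large`, `S4_L` in S4 are private: copy them.)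
-/

set_option autoImplicit false

open Finset MeasureTheory

namespace Pool.Agent.Lib.MP_9a8698_nt

private lemma P2_cs {S : Set ℝ} (hS : IsCompact S) {F G w : ℝ → ℝ} (hF : ContinuousOn F S)
    (hG : ContinuousOn G S) (hw : ContinuousOn w S) (hw0 : ∀ t ∈ S, 0 ≤ w t) {K a b : ℝ}
    (ha : 0 < a) (hb : 0 < b) (h1 : ∫ t in S, F t ^ 2 * w t ≤ K * a)
    (h2 : ∫ t in S, G t ^ 2 * w t ≤ K * b) :
    ∫ t in S, F t * G t * w t ≤ K * Real.sqrt (a * b) := by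
  have hFi : IntegrableOn (fun t => F t ^ 2 * w t) S :=
    ((hF.pow 2).mul hw).integrableOn_compact hS
  have hGi : IntegrableOn (fun t => G t ^ 2 * w t) S :=
    ((hG.pow 2).mul hw).integrableOn_compact hS
  have hFGi : IntegrableOn (fun t => F t * G t * w t) S :=
    ((hF.mul hG).mul hw).integrableOn_compact hS
  obtain ⟨p, hp⟩ : ∃ p : ℝ, p = Real.sqrt a := ⟨_, rfl⟩
  obtain ⟨q, hq⟩ : ∃ q : ℝ, q = Real.sqrt b := ⟨_, rfl⟩
  have hp0 : 0 < p := by rw [hp]; exact Real.sqrt_pos.2 ha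
  have hq0 : 0 < q := by rw [hq]; exact Real.sqrt_pos.2 hb
  have hpa : p ^ 2 = a := by rw [hp]; exact Real.sq_sqrt ha.le
  have hqb : q ^ 2 = b := by rw [hq]; exact Real.sq_sqrt hb.le
  have hpq : Real.sqrt (a * b) = p * q := by rw [Real.sqrt_mul ha.le, hp, hq]
  have hle : ∫ t in S, F t * G t * w t ≤
      ∫ t in S, (q / p / 2 * (F t ^ 2 * w t) + p / q / 2 * (G t ^ 2 * w t)) := by
    refine setIntegral_mono_on hFGi ((hFi.const_mul _).add (hGi.const_mul _)) hS.measurableSet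
      fun t ht => ?_
    have h3 : F t * G t ≤ q / p / 2 * F t ^ 2 + p / q / 2 * G t ^ 2 := by
      have h4 : q / p / 2 * F t ^ 2 + p / q / 2 * G t ^ 2 - F t * G t =
          (q * F t - p * G t) ^ 2 / (2 * p * q) := by
        field_simp
        ring
      have h5 : 0 ≤ (q * F t - p * G t) ^ 2 / (2 * p * q) := by positivity
      linarith
    have h6 := mul_le_mul_of_nonneg_right h3 (hw0 t ht)
    linarith
  rw [integral_add (hFi.const_mul _) (hGi.const_mul _), integral_const_mul,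
    integral_const_mul] at hle
  have h7 : q / p / 2 * ∫ t in S, F t ^ 2 * w t ≤ q / p / 2 * (K * a) :=
    mul_le_mul_of_nonneg_left h1 (by positivity)
  have h8 : p / q / 2 * ∫ t in S, G t ^ 2 * w t ≤ p / q / 2 * (K * b) :=
    mul_le_mul_of_nonneg_left h2 (by positivity)
  have h9 : q / p / 2 * (K * a) + p / q / 2 * (K * b) = K * (p * q) := by
    rw [← hpa, ← hqb]
    field_simp
    ring
  rw [hpq]
  linarith

private lemma P2_large (K m c : ℝ) (hc : 0 < c) :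
    ∃ k0 : ℝ, ∀ k : ℝ, k0 ≤ k → Real.exp 1 ≤ k ∧ K * (Real.log k) ^ m ≤ k ^ c := by
  have h1 := (isLittleO_log_rpow_rpow_atTop m hc).const_mul_left K
  have h2 := h1.bound (c := 1) one_pos
  have h3 : ∀ᶠ k : ℝ in Filter.atTop, Real.exp 1 ≤ k ∧ K * (Real.log k) ^ m ≤ k ^ c := by
    filter_upwards [h2, Filter.eventually_ge_atTop (Real.exp 1)] with k hk1 hk2
    refine ⟨hk2, ?_⟩
    have hk0 : 0 < k := (Real.exp_pos 1).trans_le hk2
    rw [one_mul, Real.norm_of_nonneg (Real.rpow_nonneg hk0.le c)] at hk1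
    exact (Real.le_norm_self _).trans hk1
  exact Filter.eventually_atTop.1 h3

private lemma P2_L {ℓ b : ℝ} {r r1 : ℕ} (hℓ : 1 ≤ ℓ) (hr : r1 ≤ r) {M k : ℝ}
    (hk : ℓ = Real.log k) (hk0 : 0 < k) (hM1 : 1 ≤ M) (hM : M ≤ k ^ (4 : ℝ)) :
    (ℓ ^ b) ^ 2 * (1 + Real.log M) ^ (r1 ^ 2) ≤ (ℓ ^ b) ^ 2 * (5 * ℓ) ^ (r ^ 2) := by
  refine mul_le_mul_of_nonneg_left ?_ (by positivity)
  have h1 : Real.log M ≤ 4 * ℓ := by
    have h2 := Real.log_le_log (by linarith) hM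
    rwa [Real.log_rpow hk0, ← hk] at h2
  have h3 : 0 ≤ Real.log M := Real.log_nonneg hM1
  calc (1 + Real.log M) ^ (r1 ^ 2) ≤ (5 * ℓ) ^ (r1 ^ 2) := by
        apply pow_le_pow_left₀ (by linarith)
        linarith
    _ ≤ (5 * ℓ) ^ (r ^ 2) := pow_le_pow_right₀ (by linarith) (Nat.pow_le_pow_left hr 2)

private lemma P2_comp (a b : ℝ) : IsCompact {t : ℝ | a ≤ |t| ∧ |t| ≤ b} :=
  IsCompact.of_isClosed_subset (isCompact_Icc (a := -b) (b := b))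
    ((isClosed_le continuous_const continuous_abs).inter
      (isClosed_le continuous_abs continuous_const)) fun _ ht => abs_le.1 ht.2

private lemma P2_dyadic {g : ℝ → ℝ} (hg : Continuous g) (hg0 : ∀ t, 0 ≤ g t) {E a0 T : ℝ}
    (hE : 0 ≤ E) (ha0 : 0 < a0)
    (hone : ∀ Y, a0 ≤ Y → Y ≤ T → ∫ t in {t : ℝ | Y ≤ |t| ∧ |t| ≤ 2 * Y}, g t ≤ E) :
    ∀ (K : ℕ) (a : ℝ), a0 ≤ a → T ≤ 2 ^ K * a →
      ∫ t in {t : ℝ | a ≤ |t| ∧ |t| ≤ T}, g t ≤ K * E := by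
  intro K
  have hint : ∀ a b : ℝ, IntegrableOn g {t : ℝ | a ≤ |t| ∧ |t| ≤ b} := fun a b =>
    hg.continuousOn.integrableOn_compact (P2_comp a b)
  induction K with
  | zero =>
    intro a ha hb
    rw [pow_zero, one_mul] at hb
    have hs : {t : ℝ | a ≤ |t| ∧ |t| ≤ T} ⊆ {a, -a} := by
      intro t ht
      have h1 : |t| = a := le_antisymm (ht.2.trans hb) ht.1
      rcases abs_eq (by linarith : (0 : ℝ) ≤ a) |>.1 h1 with h2 | h2
      · exact Or.inl h2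
      · exact Or.inr h2
    have h0 : volume {t : ℝ | a ≤ |t| ∧ |t| ≤ T} = 0 :=
      measure_mono_null hs ((Set.toFinite {a, -a}).measure_zero _)
    rw [setIntegral_measure_zero _ h0]
    simp
  | succ K ih =>
    intro a ha hb
    have ha' : 0 < a := by linarith
    by_cases haT : a ≤ T
    · have h1 := hone a ha haT
      have h2 := ih (2 * a) (by linarith) (by rw [pow_succ] at hb; linarith)
      have hsub : {t : ℝ | a ≤ |t| ∧ |t| ≤ T} ⊆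
          {t : ℝ | a ≤ |t| ∧ |t| ≤ 2 * a} ∪ {t : ℝ | 2 * a ≤ |t| ∧ |t| ≤ T} := by
        intro t ht
        rcases le_total |t| (2 * a) with h3 | h3
        · exact Or.inl ⟨ht.1, h3⟩
        · exact Or.inr ⟨h3, ht.2⟩
      have hi1 := hint a (2 * a)
      have hi2 := hint (2 * a) T
      have h3 : ∫ t in {t : ℝ | a ≤ |t| ∧ |t| ≤ T}, g t ≤
          (∫ t in {t : ℝ | a ≤ |t| ∧ |t| ≤ 2 * a}, g t) +
            ∫ t in {t : ℝ | 2 * a ≤ |t| ∧ |t| ≤ T}, g t := by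
        rw [← integral_add_measure hi1 hi2]
        refine integral_mono_measure ?_ (Filter.Eventually.of_forall hg0)
          (Integrable.add_measure hi1 hi2)
        exact (Measure.restrict_mono hsub le_rfl).trans (Measure.restrict_union_le _ _)
      push_cast
      linarith
    · have hempty : {t : ℝ | a ≤ |t| ∧ |t| ≤ T} = ∅ := by
        rw [Set.eq_empty_iff_forall_notMem]
        intro t ht
        exact haT (ht.1.trans ht.2)
      rw [hempty, Measure.restrict_empty, integral_zero_measure]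
      positivity

private lemma P2_second {δ κ k N X : ℝ} (hk : 1 < k) (hδ : 0 < δ) (hκ1 : κ ≤ 1 / 11)
    (hκ2 : κ ≤ δ / 2) (hN : 1 ≤ N) (hX : k ^ ((2 : ℝ) / 11) ≤ X) :
    Real.sqrt ((1 / X + 1 / k ^ δ) * (1 / N + 1 / k ^ δ)) ≤ 2 * k ^ (-κ) := by
  have hk0 : 0 < k := by linarith
  have hX0 : 0 < X := lt_of_lt_of_le (by positivity) hX
  rw [Real.sqrt_le_left (by positivity)]
  obtain ⟨z, hz⟩ : ∃ z : ℝ, z = k ^ (-(2 * κ)) := ⟨_, rfl⟩
  have h1 : (2 * k ^ (-κ)) ^ 2 = (2 * z) * 2 := by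
    have h5 : z = k ^ (-κ) * k ^ (-κ) := by
      rw [hz, ← Real.rpow_add hk0]
      congr 1
      ring
    rw [h5]
    ring
  have h2 : 1 / k ^ δ ≤ z := by
    rw [hz, one_div, ← Real.rpow_neg hk0.le]
    exact (Real.rpow_le_rpow_left_iff hk).2 (by linarith)
  have h3 : 1 / X ≤ z := by
    have h4 : 1 / X ≤ 1 / k ^ ((2 : ℝ) / 11) :=
      one_div_le_one_div_of_le (by positivity) hX
    refine h4.trans ?_
    rw [hz, one_div, ← Real.rpow_neg hk0.le]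
    exact (Real.rpow_le_rpow_left_iff hk).2 (by linarith)
  have h5 : 1 / N ≤ 1 := by
    rw [div_le_one (by linarith)]
    exact hN
  have h6 : 1 / k ^ δ ≤ 1 := by
    rw [div_le_one (by positivity)]
    exact Real.one_le_rpow hk.le hδ.le
  rw [h1]
  refine mul_le_mul (by linarith) (by linarith) ?_ ?_
  · have : 0 < 1 / N := by positivity
    positivity
  · rw [hz]
    positivity

private lemma P2_piece {β θ k N X1 X2 Y A : ℝ} (hk : 1 < k) (hβ2 : β ≤ 9 / 11 - 20 * θ)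
    (hβ : 0 < β) (hθ : 0 < θ) (hA : 0 ≤ A)
    (hN : 1 ≤ N) (hX1 : 0 < X1) (hX2 : 0 < X2) (hX12 : k ^ (1 - θ) ≤ X1 * X2)
    (hXN : k ^ (1 + β - θ / 4) ≤ X1 * X2 * N) (hY0 : 0 < Y) (hY : Y ≤ k ^ (β + θ / 2)) :
    Real.sqrt ((k ^ θ * Y * (1 / (X1 * X2))) * (A * (2 * Y / N + 1))) ≤
      (1 + 3 * A) * k ^ (-((1 : ℝ) / 11)) := by
  have hk0 : 0 < k := by linarith
  have hN0 : 0 < N := by linarith
  rw [Real.sqrt_le_left (by positivity)]
  have h1 : Y ^ 2 / (X1 * X2 * N) ≤ k ^ (-θ) * k ^ (-((2 : ℝ) / 11)) := by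
    have h2 : Y ^ 2 ≤ (k ^ (β + θ / 2)) ^ 2 := pow_le_pow_left₀ hY0.le hY 2
    have h3 : Y ^ 2 / (X1 * X2 * N) ≤ (k ^ (β + θ / 2)) ^ 2 / k ^ (1 + β - θ / 4) :=
      div_le_div₀ (by positivity) h2 (by positivity) hXN
    refine h3.trans ?_
    rw [← Real.rpow_natCast, ← Real.rpow_mul hk0.le, ← Real.rpow_sub hk0, ← Real.rpow_add hk0]
    refine (Real.rpow_le_rpow_left_iff hk).2 ?_
    push_cast
    linarith
  have h4 : Y / (X1 * X2) ≤ k ^ (-θ) * k ^ (-((2 : ℝ) / 11)) := by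
    have h3 : Y / (X1 * X2) ≤ k ^ (β + θ / 2) / k ^ (1 - θ) :=
      div_le_div₀ (by positivity) hY (by positivity) hX12
    refine h3.trans ?_
    rw [← Real.rpow_sub hk0, ← Real.rpow_add hk0]
    refine (Real.rpow_le_rpow_left_iff hk).2 ?_
    linarith
  obtain ⟨z, hz⟩ : ∃ z : ℝ, z = k ^ (-((2 : ℝ) / 11)) := ⟨_, rfl⟩
  rw [← hz] at h1 h4
  have hz0 : 0 < z := by rw [hz]; positivity
  have h5 : ((1 + 3 * A) * k ^ (-((1 : ℝ) / 11))) ^ 2 = (1 + 3 * A) ^ 2 * z := by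
    have h6 : z = k ^ (-((1 : ℝ) / 11)) * k ^ (-((1 : ℝ) / 11)) := by
      rw [hz, ← Real.rpow_add hk0]
      congr 1
      ring
    rw [h6]
    ring
  have h7 : k ^ θ * k ^ (-θ) = 1 := by
    rw [← Real.rpow_add hk0, add_neg_cancel, Real.rpow_zero]
  have h8 : (k ^ θ * Y * (1 / (X1 * X2))) * (A * (2 * Y / N + 1)) =
      A * (k ^ θ * (2 * (Y ^ 2 / (X1 * X2 * N)) + Y / (X1 * X2))) := by
    field_simp
  rw [h5, h8]
  calc A * (k ^ θ * (2 * (Y ^ 2 / (X1 * X2 * N)) + Y / (X1 * X2)))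
      ≤ A * (k ^ θ * (3 * (k ^ (-θ) * z))) := by
        refine mul_le_mul_of_nonneg_left ?_ hA
        refine mul_le_mul_of_nonneg_left ?_ (by positivity)
        linarith
    _ = 3 * A * z * (k ^ θ * k ^ (-θ)) := by ring
    _ = 3 * A * z := by rw [h7, mul_one]
    _ ≤ (1 + 3 * A) ^ 2 * z := by
        refine mul_le_mul_of_nonneg_right ?_ hz0.le
        nlinarith

theorem boxP (β θ δ b : ℝ) (r : ℕ) (hβ : 0 < β) (hθ : 0 < θ) (hβ2 : β ≤ 9 / 11 - 20 * θ)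
    (hδ : 0 < δ) (hb : 0 ≤ b) :
    ∃ c k0 : ℝ, 0 < c ∧ ∀ k : ℝ, k0 ≤ k → ∀ (r1 : ℕ) (N M X1 X2 : ℝ) (f1 f2 R : ℝ → ℂ),
      r1 ≤ r → IsDP 1 ((Real.log k) ^ b) X1 (2 * X1) f1 → IsDP 1 ((Real.log k) ^ b) X2 (2 * X2) f2 →
      IsDP r1 ((Real.log k) ^ b) N M R → 1 ≤ N → 1 ≤ M → M ≤ k ^ (4 : ℝ) →
      k ^ ((2 : ℝ) / 11) ≤ X2 → X2 ≤ X1 → X1 ≤ k → k ^ (1 - θ) ≤ X1 * X2 →
      k ^ (1 + β - θ / 4) ≤ X1 * X2 * N →
      (∀ t, 1 ≤ |t| → |t| ≤ X1 → ‖f1 t‖ ≤ (Real.log k) ^ b / |t|) →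
      (∀ Y, 2 ≤ Y → X1 ≤ Y → Y ≤ k → ∫ t in {t : ℝ | Y ≤ |t| ∧ |t| ≤ 2 * Y}, ‖f1 t‖ ^ 4 ≤
        k ^ θ * Y / X1 ^ 2) →
      (∀ Y, 2 ≤ Y → X2 ≤ Y → Y ≤ k → ∫ t in {t : ℝ | Y ≤ |t| ∧ |t| ≤ 2 * Y}, ‖f2 t‖ ^ 4 ≤
        k ^ θ * Y / X2 ^ 2) →
      ∫ t in Tm k δ (β + θ / 2), ‖f1 t * f2 t * R t‖ ≤ k ^ (-c) := by
  obtain ⟨C₁, hC₁, hmvt⟩ := IsDP.mvt
  obtain ⟨C₂, hC₂, hml⟩ := mvt_log
  obtain ⟨κ, hκ⟩ : ∃ κ : ℝ, κ = min ((1 : ℝ) / 11) (δ / 2) := ⟨_, rfl⟩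
  have hκ0 : 0 < κ := by
    rw [hκ]
    exact lt_min (by norm_num) (half_pos hδ)
  have hκ1 : κ ≤ 1 / 11 := by rw [hκ]; exact min_le_left _ _
  have hκ2 : κ ≤ δ / 2 := by rw [hκ]; exact min_le_right _ _
  obtain ⟨k0, hk0⟩ := P2_large (5 ^ ((r + 1) ^ 2) * (4 * C₂ + 12 * C₁) + 4)
    (3 * b + ((r + 1) ^ 2 : ℕ) + 1) (κ / 2) (half_pos hκ0)
  refine ⟨κ / 2, max k0 64, half_pos hκ0, ?_⟩
  intro k hk r1 N M X1 X2 f1 f2 R hr1 hf1 hf2 hR hN hM hMk hX2 hX21 hX1k hX12 hXN hf1b hf14 hf24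
  obtain ⟨hke, hkK⟩ := hk0 k ((le_max_left _ _).trans hk)
  have hk64 : 64 ≤ k := (le_max_right _ _).trans hk
  have hk0' : 0 < k := by linarith
  have hk1 : 1 < k := by linarith
  obtain ⟨ℓ, hℓ⟩ : ∃ ℓ : ℝ, ℓ = Real.log k := ⟨_, rfl⟩
  have hℓ1 : 1 ≤ ℓ := by
    rw [hℓ, Real.le_log_iff_exp_le hk0']
    exact hke
  rw [← hℓ] at hkK hf1 hf2 hR hf1b
  obtain ⟨S, hS⟩ : ∃ S : Set ℝ, S = Tm k δ (β + θ / 2) := ⟨_, rfl⟩
  obtain ⟨T₁, hT₁⟩ : ∃ T₁ : ℝ, T₁ = k ^ (β + θ / 2) := ⟨_, rfl⟩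
  obtain ⟨T₀, hT₀⟩ : ∃ T₀ : ℝ, T₀ = k ^ δ := ⟨_, rfl⟩
  have hSeq : S = {t : ℝ | T₀ ≤ |t| ∧ |t| ≤ T₁} := by
    rw [hS, hT₀, hT₁]
    rfl
  have hSc : IsCompact S := by rw [hSeq]; exact P2_comp _ _
  have hSmem : ∀ t ∈ S, T₀ ≤ |t| ∧ |t| ≤ T₁ := by
    intro t ht
    rw [hSeq] at ht
    exact ht
  have hT₀1 : 1 ≤ T₀ := by rw [hT₀]; exact Real.one_le_rpow hk1.le hδ.le
  have hT₁1 : 1 ≤ T₁ := by rw [hT₁]; exact Real.one_le_rpow hk1.le (by linarith)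
  have hT₁k : T₁ ≤ k := by
    rw [hT₁]
    conv_rhs => rw [← Real.rpow_one k]
    exact (Real.rpow_le_rpow_left_iff hk1).2 (by linarith)
  rw [← hS]
  by_cases hT : T₀ ≤ T₁
  swap
  · have hempty : S = ∅ := by
      rw [Set.eq_empty_iff_forall_notMem]
      intro t ht
      obtain ⟨h1, h2⟩ := hSmem t ht
      exact hT (h1.trans h2)
    rw [hempty, Measure.restrict_empty, integral_zero_measure]
    positivity
  obtain ⟨L, hL⟩ : ∃ L : ℝ, L = (ℓ ^ b) ^ 2 * (5 * ℓ) ^ ((r + 1) ^ 2) := ⟨_, rfl⟩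
  have hL0 : 0 ≤ L := by rw [hL]; positivity
  have hf1c : Continuous f1 := hf1.cont
  have hf2c : Continuous f2 := hf2.cont
  have hRc : Continuous R := hR.cont
  have hT₀' : 0 < T₀ := by linarith
  have hT₁' : 0 < T₁ := by linarith
  have hX2two : 2 ≤ X2 := by
    have h1 : (2 : ℝ) ≤ (64 : ℝ) ^ ((2 : ℝ) / 11) := by
      have h2 : (64 : ℝ) = (2 : ℝ) ^ (6 : ℝ) := by
        rw [show (6 : ℝ) = ((6 : ℕ) : ℝ) by norm_num, Real.rpow_natCast]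
        norm_num
      rw [h2, ← Real.rpow_mul (by norm_num)]
      conv_lhs => rw [← Real.rpow_one 2]
      exact (Real.rpow_le_rpow_left_iff (by norm_num)).2 (by norm_num)
    have h3 : (64 : ℝ) ^ ((2 : ℝ) / 11) ≤ k ^ ((2 : ℝ) / 11) :=
      Real.rpow_le_rpow (by norm_num) hk64 (by norm_num)
    linarith
  have hX1two : 2 ≤ X1 := hX2two.trans hX21
  have hX1' : 0 < X1 := by linarith
  have hX2' : 0 < X2 := by linarith
  have hN' : 0 < N := by linarith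
  have hM2 : 2 * X2 ≤ k ^ (4 : ℝ) := by
    rw [show (4 : ℝ) = ((4 : ℕ) : ℝ) by norm_num, Real.rpow_natCast]
    have h1 : 2 * X2 ≤ 2 * k := by linarith
    have h2 : 2 * k ≤ k ^ 4 := by
      have h3 : (2 : ℝ) ≤ k ^ 3 := by
        have h4 : k ^ 1 ≤ k ^ 3 := pow_le_pow_right₀ hk1.le (by norm_num)
        rw [pow_one] at h4
        linarith
      calc 2 * k ≤ k ^ 3 * k := mul_le_mul_of_nonneg_right h3 hk0'.le
        _ = k ^ 4 := by ring
    linarith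
  have hlogT : Real.log T₁ ≤ ℓ := by
    rw [hℓ]
    exact Real.log_le_log hT₁' hT₁k
  have hlogT0 : 0 ≤ Real.log T₁ := Real.log_nonneg hT₁1
  have hB0 : 0 < ℓ ^ b := by positivity
  have hB1 : 1 ≤ ℓ ^ b := Real.one_le_rpow hℓ1 hb
  -- the weighted mean values
  have hmw : ∀ {r1 : ℕ} {N M : ℝ} {U : ℝ → ℂ}, r1 ≤ r + 1 → IsDP r1 (ℓ ^ b) N M U → 1 ≤ N →
      1 ≤ M → M ≤ k ^ (4 : ℝ) → ∫ t in S, ‖U t‖ ^ 2 * |t|⁻¹ ≤
        (C₂ * (1 + ℓ) * L) * (1 / N + 1 / T₀) := by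
    intro r1 N M U hr hU hN hM hMk
    have h2 := hml r1 (ℓ ^ b) N M T₀ T₁ U hU (by positivity) hN hM hT₀1 hT
    rw [← hSeq] at h2
    simp_rw [div_eq_mul_inv (‖U _‖ ^ 2)] at h2
    refine h2.trans ?_
    have h3 := P2_L (b := b) hℓ1 hr hℓ hk0' hM hMk
    rw [← hL] at h3
    have h4 : 0 ≤ Real.log M := Real.log_nonneg hM
    have h5 : 0 < 1 / N + 1 / T₀ := by positivity
    calc C₂ * (1 + Real.log T₁) * ((ℓ ^ b) ^ 2 * (1 + Real.log M) ^ (r1 ^ 2)) * (1 / N + 1 / T₀)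
        ≤ C₂ * (1 + ℓ) * L * (1 / N + 1 / T₀) := by gcongr
      _ = (C₂ * (1 + ℓ) * L) * (1 / N + 1 / T₀) := by ring
  have hpos : ∀ t ∈ S, 0 < |t| := fun t ht => hT₀'.trans_le (hSmem t ht).1
  have hinv : ContinuousOn (fun t : ℝ => |t|⁻¹) S :=
    continuous_abs.continuousOn.inv₀ fun t ht => (hpos t ht).ne'
  have hc2 := P2_cs hSc (F := fun t => ‖f2 t‖) (G := fun t => ‖R t‖) (w := fun t => |t|⁻¹)
    hf2c.norm.continuousOn hRc.norm.continuousOn hinv (fun t _ => by positivity)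
    (by positivity) (by positivity)
    (hmw (by omega) hf2 (by linarith) (by linarith) hM2) (hmw (by omega) hR hN hM hMk)
  have hi2 : IntegrableOn (fun t => ‖f2 t‖ * ‖R t‖ * |t|⁻¹) S :=
    ((hf2c.norm.mul hRc.norm).continuousOn.mul hinv).integrableOn_compact hSc
  have hgc : Continuous (fun t => ‖f1 t * f2 t * R t‖) := ((hf1c.mul hf2c).mul hRc).norm
  -- part I
  have hA : {t : ℝ | T₀ ≤ |t| ∧ |t| ≤ min T₁ X1} ⊆ S := by
    rw [hSeq]
    intro t ht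
    exact ⟨ht.1, ht.2.trans (min_le_left _ _)⟩
  have hpart1 : ∫ t in {t : ℝ | T₀ ≤ |t| ∧ |t| ≤ min T₁ X1}, ‖f1 t * f2 t * R t‖ ≤
      ℓ ^ b * ∫ t in S, ‖f2 t‖ * ‖R t‖ * |t|⁻¹ := by
    rw [← integral_const_mul]
    calc ∫ t in {t : ℝ | T₀ ≤ |t| ∧ |t| ≤ min T₁ X1}, ‖f1 t * f2 t * R t‖
        ≤ ∫ t in {t : ℝ | T₀ ≤ |t| ∧ |t| ≤ min T₁ X1},
            ℓ ^ b * (‖f2 t‖ * ‖R t‖ * |t|⁻¹) := by
          refine setIntegral_mono_on (hgc.continuousOn.integrableOn_compact (P2_comp _ _))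
            ((hi2.mono_set hA).const_mul _) (P2_comp _ _).measurableSet fun t ht => ?_
          have h3 := hf1b t (hT₀1.trans ht.1) (ht.2.trans (min_le_right _ _))
          rw [norm_mul, norm_mul]
          calc ‖f1 t‖ * ‖f2 t‖ * ‖R t‖ = ‖f1 t‖ * (‖f2 t‖ * ‖R t‖) := by ring
            _ ≤ ℓ ^ b / |t| * (‖f2 t‖ * ‖R t‖) :=
                mul_le_mul_of_nonneg_right h3 (by positivity)
            _ = ℓ ^ b * (‖f2 t‖ * ‖R t‖ * |t|⁻¹) := by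
                rw [div_eq_mul_inv]
                ring
      _ ≤ ∫ t in S, ℓ ^ b * (‖f2 t‖ * ‖R t‖ * |t|⁻¹) :=
          setIntegral_mono_set (hi2.const_mul _)
            (Filter.Eventually.of_forall fun t => by positivity) (LE.le.eventuallyLE hA)
  -- part II
  have hone : ∀ Y, X1 ≤ Y → Y ≤ T₁ →
      ∫ t in {t : ℝ | Y ≤ |t| ∧ |t| ≤ 2 * Y}, ‖f1 t * f2 t * R t‖ ≤
        (1 + 3 * (C₁ * L)) * k ^ (-((1 : ℝ) / 11)) := by
    intro Y hXY hYT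
    have hY0 : 0 < Y := by linarith
    have h4a := hf14 Y (by linarith) hXY (by linarith)
    have h4b := hf24 Y (by linarith) (by linarith) (by linarith)
    have hDc := P2_comp Y (2 * Y)
    obtain ⟨D, hD⟩ : ∃ D : Set ℝ, D = {t : ℝ | Y ≤ |t| ∧ |t| ≤ 2 * Y} := ⟨_, rfl⟩
    rw [← hD] at h4a h4b hDc ⊢
    have hcs1 := P2_cs hDc (F := fun t => ‖f1 t‖ ^ 2) (G := fun t => ‖f2 t‖ ^ 2)
      (w := fun _ => 1) (K := k ^ θ * Y) (a := 1 / X1 ^ 2) (b := 1 / X2 ^ 2)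
      (hf1c.norm.pow 2).continuousOn (hf2c.norm.pow 2).continuousOn continuousOn_const
      (fun _ _ => zero_le_one) (by positivity) (by positivity)
      (by
        have e : ∀ t, (‖f1 t‖ ^ 2) ^ 2 * 1 = ‖f1 t‖ ^ 4 := fun t => by ring
        simp_rw [e]
        refine h4a.trans (le_of_eq ?_)
        rw [mul_one_div])
      (by
        have e : ∀ t, (‖f2 t‖ ^ 2) ^ 2 * 1 = ‖f2 t‖ ^ 4 := fun t => by ring
        simp_rw [e]
        refine h4b.trans (le_of_eq ?_)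
        rw [mul_one_div])
    have hsq : Real.sqrt (1 / X1 ^ 2 * (1 / X2 ^ 2)) = 1 / (X1 * X2) := by
      have e : 1 / X1 ^ 2 * (1 / X2 ^ 2) = (1 / (X1 * X2)) ^ 2 := by
        field_simp
      rw [e]
      exact Real.sqrt_sq (by positivity)
    rw [hsq] at hcs1
    have hmv : ∫ t in D, ‖R t‖ ^ 2 ≤ (C₁ * L) * (2 * Y / N + 1) := by
      have hsub : D ⊆ Set.Icc (-(2 * Y)) (2 * Y) := by
        rw [hD]
        exact fun t ht => abs_le.1 ht.2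
      have h1 : ∫ t in D, ‖R t‖ ^ 2 ≤ ∫ t in Set.Icc (-(2 * Y)) (2 * Y), ‖R t‖ ^ 2 := by
        refine setIntegral_mono_set ?_ ?_ ?_
        · exact ((hRc.norm.pow 2).continuousOn).integrableOn_compact isCompact_Icc
        · exact Filter.Eventually.of_forall fun t => by positivity
        · exact LE.le.eventuallyLE hsub
      have h2 := hmvt r1 (ℓ ^ b) N M (2 * Y) R hR (by linarith) hN hM (by positivity)
      have h3 := P2_L (b := b) hℓ1 (by omega : r1 ≤ r + 1) hℓ hk0' hM hMk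
      rw [← hL] at h3
      calc ∫ t in D, ‖R t‖ ^ 2
          ≤ C₁ * (2 * Y / N + 1) * ((ℓ ^ b) ^ 2 * (1 + Real.log M) ^ (r1 ^ 2)) :=
            h1.trans h2
        _ ≤ C₁ * (2 * Y / N + 1) * L := mul_le_mul_of_nonneg_left h3 (by positivity)
        _ = (C₁ * L) * (2 * Y / N + 1) := by ring
    have hLpos : 0 < L := by rw [hL]; positivity
    have hcs2 := P2_cs hDc (F := fun t => ‖f1 t‖ * ‖f2 t‖) (G := fun t => ‖R t‖)
      (w := fun _ => 1) (K := 1) (a := k ^ θ * Y * (1 / (X1 * X2)))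
      (b := (C₁ * L) * (2 * Y / N + 1))
      (hf1c.norm.mul hf2c.norm).continuousOn hRc.norm.continuousOn continuousOn_const
      (fun _ _ => zero_le_one) (by positivity) (by positivity)
      (by
        have e : ∀ t, (‖f1 t‖ * ‖f2 t‖) ^ 2 * 1 = ‖f1 t‖ ^ 2 * ‖f2 t‖ ^ 2 * 1 :=
          fun t => by ring
        simp_rw [e]
        rw [one_mul]
        exact hcs1)
      (by
        simp_rw [mul_one]
        rw [one_mul]
        exact hmv)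
    rw [hT₁] at hYT
    have hp := P2_piece hk1 hβ2 hβ hθ (A := C₁ * L) (by positivity) hN hX1' hX2' hX12 hXN hY0 hYT
    have e : ∀ t, ‖f1 t * f2 t * R t‖ = ‖f1 t‖ * ‖f2 t‖ * ‖R t‖ * 1 := fun t => by
      rw [norm_mul, norm_mul, mul_one]
    simp_rw [e]
    refine hcs2.trans ?_
    rw [one_mul]
    exact hp
  obtain ⟨K, hK1, hK2⟩ : ∃ K : ℕ, T₁ ≤ 2 ^ K * X1 ∧ (K : ℝ) ≤ 2 * (1 + Real.log T₁) := by
    refine ⟨⌈2 * Real.log T₁⌉₊, ?_, ?_⟩
    · have h1 : 2 * Real.log T₁ ≤ (⌈2 * Real.log T₁⌉₊ : ℝ) := Nat.le_ceil _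
      have h2 : Real.log T₁ ≤ (⌈2 * Real.log T₁⌉₊ : ℝ) * Real.log 2 := by
        have h3 := Real.log_two_gt_d9
        nlinarith
      have h4 : T₁ ≤ 2 ^ ⌈2 * Real.log T₁⌉₊ := by
        rw [← Real.log_pow] at h2
        exact (Real.log_le_log_iff (by linarith) (by positivity)).1 h2
      calc T₁ ≤ 2 ^ ⌈2 * Real.log T₁⌉₊ := h4
        _ ≤ 2 ^ ⌈2 * Real.log T₁⌉₊ * X1 := le_mul_of_one_le_right (by positivity) (by linarith)
    · have h1 := (Nat.ceil_lt_add_one (by positivity : (0 : ℝ) ≤ 2 * Real.log T₁)).le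
      linarith
  obtain ⟨z, hz⟩ : ∃ z : ℝ, z = k ^ (-κ) := ⟨_, rfl⟩
  have hz0 : 0 < z := by rw [hz]; positivity
  have hk11 : k ^ (-((1 : ℝ) / 11)) ≤ z := by
    rw [hz]
    exact (Real.rpow_le_rpow_left_iff hk1).2 (by linarith)
  have hpart2 := P2_dyadic hgc (fun t => norm_nonneg _) (E := (1 + 3 * (C₁ * L)) *
    k ^ (-((1 : ℝ) / 11))) (a0 := X1) (T := T₁) (by positivity) hX1' hone K X1 le_rfl hK1
  have hpart2' : ∫ t in {t : ℝ | X1 ≤ |t| ∧ |t| ≤ T₁}, ‖f1 t * f2 t * R t‖ ≤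
      (4 * ℓ) * ((1 + 3 * (C₁ * L)) * z) := by
    refine hpart2.trans ?_
    refine mul_le_mul (by linarith) ?_ (by positivity) (by positivity)
    exact mul_le_mul_of_nonneg_left hk11 (by positivity)
  have hunion : ∫ t in S, ‖f1 t * f2 t * R t‖ ≤
      (∫ t in {t : ℝ | T₀ ≤ |t| ∧ |t| ≤ min T₁ X1}, ‖f1 t * f2 t * R t‖) +
        ∫ t in {t : ℝ | X1 ≤ |t| ∧ |t| ≤ T₁}, ‖f1 t * f2 t * R t‖ := by
    have hi1 := hgc.continuousOn.integrableOn_compact (P2_comp T₀ (min T₁ X1)) (μ := volume)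
    have hi3 := hgc.continuousOn.integrableOn_compact (P2_comp X1 T₁) (μ := volume)
    rw [← integral_add_measure hi1 hi3]
    refine integral_mono_measure ?_ (Filter.Eventually.of_forall fun t => norm_nonneg _)
      (Integrable.add_measure hi1 hi3)
    refine (Measure.restrict_mono ?_ le_rfl).trans (Measure.restrict_union_le _ _)
    intro t ht
    obtain ⟨h1, h2⟩ := hSmem t ht
    rcases le_total |t| X1 with h3 | h3
    · exact Or.inl ⟨h1, le_min h2 h3⟩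
    · exact Or.inr ⟨h3, h2⟩
  have hsecond := P2_second hk1 hδ hκ1 hκ2 hN hX2
  rw [← hT₀, ← hz] at hsecond
  have hpart1' : ∫ t in {t : ℝ | T₀ ≤ |t| ∧ |t| ≤ min T₁ X1}, ‖f1 t * f2 t * R t‖ ≤
      ℓ ^ b * (C₂ * (1 + ℓ) * L) * (2 * z) := by
    refine hpart1.trans ?_
    calc ℓ ^ b * ∫ t in S, ‖f2 t‖ * ‖R t‖ * |t|⁻¹
        ≤ ℓ ^ b * (C₂ * (1 + ℓ) * L *
            Real.sqrt ((1 / X2 + 1 / T₀) * (1 / N + 1 / T₀))) :=
          mul_le_mul_of_nonneg_left hc2 (by positivity)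
      _ = ℓ ^ b * (C₂ * (1 + ℓ) * L) *
            Real.sqrt ((1 / X2 + 1 / T₀) * (1 / N + 1 / T₀)) := by ring
      _ ≤ ℓ ^ b * (C₂ * (1 + ℓ) * L) * (2 * z) :=
          mul_le_mul_of_nonneg_left hsecond (by positivity)
  -- logarithms
  have h3 : ℓ ^ b * (C₂ * (1 + ℓ) * L) * (2 * z) + (4 * ℓ) * ((1 + 3 * (C₁ * L)) * z) ≤
      ((5 ^ ((r + 1) ^ 2) * (4 * C₂ + 12 * C₁) + 4) *
        ℓ ^ (3 * b + ((r + 1) ^ 2 : ℕ) + 1)) * z := by
    obtain ⟨W, hW⟩ : ∃ W : ℝ, W = ℓ ^ (3 * b + ((r + 1) ^ 2 : ℕ) + 1) := ⟨_, rfl⟩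
    have h4 : W = ℓ ^ b * (ℓ ^ b) ^ 2 * ℓ ^ ((r + 1) ^ 2) * ℓ := by
      have hℓ0 : 0 < ℓ := by linarith
      rw [hW, Real.rpow_add hℓ0, Real.rpow_add hℓ0, Real.rpow_one, Real.rpow_natCast,
        show (3 : ℝ) * b = b + b * 2 by ring, Real.rpow_add hℓ0, Real.rpow_mul hℓ0.le,
        show ((2 : ℝ)) = ((2 : ℕ) : ℝ) by norm_num, Real.rpow_natCast]
    have h5 : ℓ ^ b * L * ℓ = 5 ^ ((r + 1) ^ 2) * W := by
      rw [h4, hL, mul_pow]
      ring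
    have h6 : L * ℓ ≤ ℓ ^ b * L * ℓ := by
      have : L * ℓ = 1 * (L * ℓ) := by ring
      rw [this, mul_assoc (ℓ ^ b)]
      exact mul_le_mul_of_nonneg_right hB1 (by positivity)
    have h7 : ℓ ≤ W := by
      rw [hW]
      conv_lhs => rw [← Real.rpow_one ℓ]
      refine Real.rpow_le_rpow_of_exponent_le hℓ1 ?_
      have : (0 : ℝ) ≤ ((r + 1) ^ 2 : ℕ) := Nat.cast_nonneg _
      linarith
    rw [← hW]
    have h8 : ℓ ^ b * (C₂ * (1 + ℓ) * L) ≤ 2 * C₂ * (ℓ ^ b * L * ℓ) := by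
      have h9 : ℓ ^ b * (C₂ * (1 + ℓ) * L) = (1 + ℓ) * (C₂ * (ℓ ^ b * L)) := by ring
      have h10 : 2 * C₂ * (ℓ ^ b * L * ℓ) = (2 * ℓ) * (C₂ * (ℓ ^ b * L)) := by ring
      rw [h9, h10]
      refine mul_le_mul_of_nonneg_right (by linarith) (by positivity)
    have h11 : 12 * C₁ * (L * ℓ) ≤ 12 * C₁ * (ℓ ^ b * L * ℓ) :=
      mul_le_mul_of_nonneg_left h6 (by positivity)
    rw [h5] at h8 h11
    have h12 : ℓ ^ b * (C₂ * (1 + ℓ) * L) * (2 * z) + (4 * ℓ) * ((1 + 3 * (C₁ * L)) * z) =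
        (2 * (ℓ ^ b * (C₂ * (1 + ℓ) * L)) + 4 * ℓ + 12 * C₁ * (L * ℓ)) * z := by ring
    rw [h12]
    refine mul_le_mul_of_nonneg_right ?_ hz0.le
    have h13 : (5 ^ ((r + 1) ^ 2) * (4 * C₂ + 12 * C₁) + 4) * W =
        2 * (2 * C₂ * (5 ^ ((r + 1) ^ 2) * W)) + 4 * W + 12 * C₁ * (5 ^ ((r + 1) ^ 2) * W) := by
      ring
    rw [h13]
    linarith
  have h7 : z = k ^ (-(κ / 2)) * k ^ (-(κ / 2)) := by
    rw [hz, ← Real.rpow_add hk0']
    congr 1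
    ring
  have h8 : k ^ (κ / 2) * k ^ (-(κ / 2)) = 1 := by
    rw [← Real.rpow_add hk0', add_neg_cancel, Real.rpow_zero]
  calc ∫ t in S, ‖f1 t * f2 t * R t‖
      ≤ ((5 ^ ((r + 1) ^ 2) * (4 * C₂ + 12 * C₁) + 4) *
          ℓ ^ (3 * b + ((r + 1) ^ 2 : ℕ) + 1)) * z := by
        linarith
    _ ≤ k ^ (κ / 2) * z := mul_le_mul_of_nonneg_right hkK hz0.le
    _ = k ^ (-(κ / 2)) := by
        rw [h7, ← mul_assoc, h8, one_mul]

end Pool.Agent.Lib.MP_9a8698_nt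
end

section

/-!
X1. A power saving in sup norm and a power of the logarithm in the mean give a saving of every power of the logarithm
with the polynomial over the small primes (S1, S3 are used).

PROOF. This is the proof of `boxA` in S3 with `U t * V t` replaced by `F t` (copy it: only the estimate on `E \ S` changes, it
becomes `∫_{E \ S} ‖W F‖ ≤ V₀ ∫_E ‖F‖ ≤ V₀ ℓ^C`). In detail: `T = k^(β+θ/2)`, `ℓ = log k`, `A' = |A| + |C| + 1`, `V₀ = ℓ^(-A')`, `S` the set of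
`t` with `|t| ≤ T`, `‖Wf t‖ ≥ V₀`. With `j = ⌈1/ε₁⌉`, `T ≤ k ≤ (k^ε₁)^j`, so `large_values` gives
`vol S ≤ C₁ ℓ^(2jA') (1 + jℓ)^(j²)` (if `Qs` is empty, `Wf = 0` and there is nothing to prove). On `Tm ∩ S` the integrand is at most
`(1 + ℓ) k^(-c)`: contribution at most `vol S (1+ℓ) k^(-c) ≤ ℓ^(-A)/2` for large `k`.
On `Tm \ S`: at most `V₀ ℓ^C ≤ ℓ^(-|A|-1) ≤ ℓ^(-A)/2` for large `k`.
-/

set_option autoImplicit false

open Finset MeasureTheory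

namespace Pool.Agent.Lib.MP_9a8698_nt

private theorem X1_Qs {k ε₁ ε₂ : ℝ} (hk : 1 ≤ k) (h2 : ε₂ ≤ 1) {q : ℕ} (hq : q ∈ Qs k ε₁ ε₂) :
    1 ≤ q ∧ k ^ ε₁ ≤ (q : ℝ) ∧ (q : ℝ) ≤ k := by
  unfold Qs at hq
  rw [mem_filter, mem_Ioc] at hq
  obtain ⟨⟨h3, h4⟩, h5⟩ := hq
  refine ⟨h5.one_lt.le, (Nat.lt_of_floor_lt h3).le, ?_⟩
  have h6 : (q : ℝ) ≤ k ^ ε₂ :=
    (Nat.le_floor_iff (Real.rpow_nonneg (by linarith) _)).mp h4
  refine h6.trans ?_
  calc k ^ ε₂ ≤ k ^ (1 : ℝ) := Real.rpow_le_rpow_of_exponent_le hk h2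
    _ = k := Real.rpow_one k

theorem boxW (β θ ε₁ ε₂ δ c A C : ℝ) (hβ : 0 < β) (hθ : 0 < θ) (hβθ : β + θ / 2 ≤ 1)
    (hε : 0 < ε₁) (hε₂ : ε₁ < ε₂) (hε1 : ε₂ ≤ 1) (hδ : 0 < δ) (hc : 0 < c) :
    ∃ k0 : ℝ, ∀ k : ℝ, k0 ≤ k → ∀ F : ℝ → ℂ, Continuous F →
      (∀ t ∈ Tm k δ (β + θ / 2), ‖F t‖ ≤ k ^ (-c)) →
      ∫ t in Tm k δ (β + θ / 2), ‖F t‖ ≤ (Real.log k) ^ C →
      ∫ t in Tm k δ (β + θ / 2), ‖Wf k ε₁ ε₂ t * F t‖ ≤ (Real.log k) ^ (-A) := by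
  have _hu := And.intro hε₂ hδ
  obtain ⟨C1, hC1, hLV⟩ := large_values
  set j : ℕ := ⌈1 / ε₁⌉₊ with hj
  have hjε : 1 ≤ ε₁ * j := by
    have h1 := Nat.le_ceil (1 / ε₁)
    rw [div_le_iff₀ hε] at h1
    rw [mul_comm]
    exact h1
  set A' : ℝ := |A| + |C| + 1 with hA'
  set s : ℝ := 1 + 2 * j * A' + (j : ℝ) ^ 2 + A with hs
  have hev := (isLittleO_log_rpow_rpow_atTop s hc).bound
    (c := 1 / (4 * C1 * (1 + j) ^ (j ^ 2))) (by positivity)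
  obtain ⟨k1, hk1⟩ := Filter.eventually_atTop.mp hev
  refine ⟨max (max k1 3) (Real.exp 2), ?_⟩
  intro k hk G hGc hG1 hG2
  have hkk1 : k1 ≤ k := ((le_max_left _ _).trans (le_max_left _ _)).trans hk
  have hk3 : 3 ≤ k := ((le_max_right _ _).trans (le_max_left _ _)).trans hk
  have hkE : Real.exp 2 ≤ k := (le_max_right _ _).trans hk
  have hk1' : 1 ≤ k := by linarith
  have hk0 : 0 < k := by linarith
  have hle := hk1 k hkk1
  set ℓ : ℝ := Real.log k with hℓ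
  have hℓ2 : 2 ≤ ℓ := by
    rw [hℓ, Real.le_log_iff_exp_le hk0]
    exact hkE
  have hℓ1 : 1 ≤ ℓ := by linarith
  have hℓ0 : 0 < ℓ := by linarith
  set T : ℝ := k ^ (β + θ / 2) with hT
  have hT1 : 1 ≤ T := Real.one_le_rpow hk1' (by positivity)
  have hTk : T ≤ k := by
    calc T ≤ k ^ (1 : ℝ) := Real.rpow_le_rpow_of_exponent_le hk1' hβθ
      _ = k := Real.rpow_one k
  have hRHS : 0 < ℓ ^ (-A) := Real.rpow_pos_of_pos hℓ0 _
  rcases (Qs k ε₁ ε₂).eq_empty_or_nonempty with hQ | hQ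
  · have h0 : ∀ t, Wf k ε₁ ε₂ t = 0 := by
      intro t
      unfold Wf DP
      rw [hQ, sum_empty]
    simp only [h0, zero_mul, norm_zero, integral_zero]
    exact hRHS.le
  set V₀ : ℝ := ℓ ^ (-A') with hV₀
  have hV₀0 : 0 < V₀ := Real.rpow_pos_of_pos hℓ0 _
  have hWc : Continuous fun t => Wf k ε₁ ε₂ t := DP_continuous _ _
  set F : ℝ → ℝ := fun t => ‖Wf k ε₁ ε₂ t * G t‖ with hF
  have hFc : Continuous F := (hWc.mul hGc).norm
  set E : Set ℝ := Tm k δ (β + θ / 2) with hE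
  have hEm : MeasurableSet E := Tm_measurable _ _ _
  have hEI : E ⊆ Set.Icc (-T) T := fun t ht => abs_le.mp ht.2
  set S : Set ℝ := {t : ℝ | |t| ≤ T ∧ V₀ ≤ ‖DP (Qs k ε₁ ε₂) (fun _ => 1) t‖} with hS
  have hSm : MeasurableSet S :=
    ((isClosed_le continuous_abs continuous_const).inter
      (isClosed_le continuous_const (DP_continuous _ _).norm)).measurableSet
  have hSI : S ⊆ Set.Icc (-T) T := fun t ht => abs_le.mp ht.1
  have hStop : volume S < ⊤ := (measure_mono hSI).trans_lt (by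
    rw [Real.volume_Icc]
    exact ENNReal.ofReal_lt_top)
  have hFE : IntegrableOn F E := hFc.integrableOn_Icc.mono_set hEI
  have hGE : IntegrableOn (fun t => ‖G t‖) E := hGc.norm.integrableOn_Icc.mono_set hEI
  -- the large values
  have hvol : volume.real S ≤ C1 * (1 / V₀) ^ (2 * j) * (1 + j * ℓ) ^ (j ^ 2) := by
    refine hLV (Qs k ε₁ ε₂) (k ^ ε₁) k T V₀ j hQ (fun q hq => X1_Qs hk1' hε1 hq)
      (Real.one_le_rpow hk1' hε.le) hT1 ?_ hV₀0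
    calc T ≤ k := hTk
      _ = k ^ (1 : ℝ) := (Real.rpow_one k).symm
      _ ≤ k ^ (ε₁ * j) := Real.rpow_le_rpow_of_exponent_le hk1' hjε
      _ = (k ^ ε₁) ^ j := by rw [Real.rpow_mul hk0.le, Real.rpow_natCast]
  have t1 : ∫ t in E ∩ S, F t ≤ ((1 + ℓ) * k ^ (-c)) * volume.real S := by
    have hb1 : ∀ t ∈ E ∩ S, ‖F t‖ ≤ (1 + ℓ) * k ^ (-c) := by
      intro t ht
      rw [hF]
      simp only
      rw [norm_norm, norm_mul]
      exact mul_le_mul (Wf_le k ε₁ ε₂ t hk3 hε hε1) (hG1 t ht.1) (norm_nonneg _) (by linarith)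
    have h1 := norm_setIntegral_le_of_norm_le_const (μ := volume)
      ((measure_mono Set.inter_subset_right).trans_lt hStop) hb1
    refine (Real.le_norm_self _).trans (h1.trans ?_)
    refine mul_le_mul_of_nonneg_left (measureReal_mono Set.inter_subset_right hStop.ne) ?_
    have := Real.rpow_nonneg hk0.le (-c)
    positivity
  -- the small values
  have t2 : ∫ t in E \ S, F t ≤ V₀ * ℓ ^ C := by
    have iG : IntegrableOn (fun t => V₀ * ‖G t‖) E := hGE.const_mul V₀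
    calc ∫ t in E \ S, F t ≤ ∫ t in E \ S, V₀ * ‖G t‖ := by
          refine setIntegral_mono_on (hFE.mono_set Set.sdiff_subset) (iG.mono_set Set.sdiff_subset)
            (hEm.diff hSm) fun t ht => ?_
          have h1 : ‖Wf k ε₁ ε₂ t‖ ≤ V₀ := by
            by_contra hcon
            rw [not_le] at hcon
            exact ht.2 ⟨abs_le.mpr (hEI ht.1), hcon.le⟩
          rw [hF]
          simp only
          rw [norm_mul]
          exact mul_le_mul_of_nonneg_right h1 (norm_nonneg _)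
      _ ≤ ∫ t in E, V₀ * ‖G t‖ :=
          setIntegral_mono_set iG (Filter.Eventually.of_forall fun t => by positivity)
            (LE.le.eventuallyLE Set.sdiff_subset)
      _ = V₀ * ∫ t in E, ‖G t‖ := integral_const_mul _ _
      _ ≤ V₀ * ℓ ^ C := mul_le_mul_of_nonneg_left hG2 hV₀0.le
  have hsplit : ∫ t in E, F t = (∫ t in E ∩ S, F t) + ∫ t in E \ S, F t :=
    (integral_inter_add_sdiff hSm hFE).symm
  rw [hsplit]
  -- the first term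
  have f1 : ((1 + ℓ) * k ^ (-c)) * volume.real S ≤ ℓ ^ (-A) / 2 := by
    have g1 : (1 / V₀) ^ (2 * j) = ℓ ^ (2 * j * A') := by
      rw [hV₀, Real.rpow_neg hℓ0.le, one_div, inv_inv, ← Real.rpow_natCast, ← Real.rpow_mul hℓ0.le]
      congr 1
      push_cast
      ring
    have g2 : (1 + j * ℓ) ^ (j ^ 2) ≤ (1 + j) ^ (j ^ 2) * ℓ ^ ((j : ℝ) ^ 2) := by
      have h1 : 1 + (j : ℝ) * ℓ ≤ (1 + j) * ℓ := by nlinarith
      calc (1 + j * ℓ) ^ (j ^ 2) ≤ ((1 + j) * ℓ) ^ (j ^ 2) :=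
            pow_le_pow_left₀ (by positivity) h1 _
        _ = (1 + j) ^ (j ^ 2) * ℓ ^ ((j : ℝ) ^ 2) := by
            rw [mul_pow, ← Real.rpow_natCast ℓ (j ^ 2)]
            push_cast
            rfl
    have g3 : ℓ ^ s ≤ 1 / (4 * C1 * (1 + j) ^ (j ^ 2)) * k ^ c := by
      rw [Real.norm_of_nonneg (Real.rpow_nonneg hℓ0.le _),
        Real.norm_of_nonneg (Real.rpow_nonneg hk0.le _)] at hle
      exact hle
    have g4 : k ^ (-c) * k ^ c = 1 := by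
      rw [← Real.rpow_add hk0]
      simp
    have g5 : ℓ * ℓ ^ (2 * j * A') * ℓ ^ ((j : ℝ) ^ 2) = ℓ ^ s * ℓ ^ (-A) := by
      rw [← Real.rpow_add hℓ0]
      nth_rewrite 1 [← Real.rpow_one ℓ]
      rw [← Real.rpow_add hℓ0, ← Real.rpow_add hℓ0]
      congr 1
      rw [hs]
      ring
    have hkc : 0 < k ^ (-c) := Real.rpow_pos_of_pos hk0 _
    have hp1 : 0 < ℓ ^ (2 * j * A') := Real.rpow_pos_of_pos hℓ0 _
    have hp2 : 0 < ℓ ^ ((j : ℝ) ^ 2) := Real.rpow_pos_of_pos hℓ0 _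
    calc ((1 + ℓ) * k ^ (-c)) * volume.real S
        ≤ ((2 * ℓ) * k ^ (-c)) * (C1 * ℓ ^ (2 * j * A') *
            ((1 + j) ^ (j ^ 2) * ℓ ^ ((j : ℝ) ^ 2))) := by
          refine mul_le_mul (mul_le_mul_of_nonneg_right (by linarith) hkc.le) ?_
            measureReal_nonneg (by positivity)
          refine hvol.trans ?_
          rw [g1]
          exact mul_le_mul_of_nonneg_left g2 (by positivity)
      _ = (2 * C1 * (1 + j) ^ (j ^ 2) * k ^ (-c)) *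
            (ℓ * ℓ ^ (2 * j * A') * ℓ ^ ((j : ℝ) ^ 2)) := by ring
      _ = (2 * C1 * (1 + j) ^ (j ^ 2) * k ^ (-c)) * (ℓ ^ s * ℓ ^ (-A)) := by rw [g5]
      _ ≤ (2 * C1 * (1 + j) ^ (j ^ 2) * k ^ (-c)) *
            ((1 / (4 * C1 * (1 + j) ^ (j ^ 2)) * k ^ c) * ℓ ^ (-A)) := by
          refine mul_le_mul_of_nonneg_left (mul_le_mul_of_nonneg_right g3 hRHS.le) (by positivity)
      _ = (k ^ (-c) * k ^ c) * (ℓ ^ (-A) / 2) := by
          field_simp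
          ring
      _ = ℓ ^ (-A) / 2 := by rw [g4, one_mul]
  have f2 : V₀ * ℓ ^ C ≤ ℓ ^ (-A) / 2 := by
    have g1 : V₀ * ℓ ^ C = ℓ ^ (-A' + C) := by
      rw [hV₀, ← Real.rpow_add hℓ0]
    have g2 : ℓ ^ (-A' + C) ≤ ℓ ^ (-A) * ℓ⁻¹ := by
      have h1 : ℓ⁻¹ = ℓ ^ (-1 : ℝ) := by rw [Real.rpow_neg_one]
      rw [h1, ← Real.rpow_add hℓ0]
      refine Real.rpow_le_rpow_of_exponent_le hℓ1 ?_
      have h2 := le_abs_self A
      have h3 := le_abs_self C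
      rw [hA']
      linarith
    rw [g1]
    refine g2.trans ?_
    have h4 : ℓ⁻¹ ≤ 2⁻¹ := inv_anti₀ two_pos hℓ2
    have h5 := mul_le_mul_of_nonneg_left h4 hRHS.le
    linarith
  linarith

end Pool.Agent.Lib.MP_9a8698_nt
end
end
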