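import Pool.Agent.Lib.MP_9a8698_nt.C3
import Pool.Agent.Lib.MP_9a8698_nt.X1

/-!
C2. From the precision `k^δ` to a constant precision `R` (with A1, C1, C3, H5 (`JT_fourier`)).

PROOF. `ℓ = log k`, `τ = k^δ ≥ R` for large `k`, `A = ⌊k^μ⌋ ≥ k^η/2`. By `JT_fourier`,
`2π |JT τ u - JT R u| ≤ ∫ |exp(-(t/τ)²/2) - exp(-(t/R)²/2)| ‖W‖ ‖M‖ ‖P‖`, and `‖W‖ ≤ LL` (`DP_norm_le`).
* `|t| ≤ √R`: the difference of the weights is at most `(t/R)²/2`; `‖M‖ ≤ 2/|t| + 2(1+|t|)/A` (`Ioc_bound`), `‖P‖ ≤ 2ℓ+6` (`Pf_triv`): this part is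
  at most `LL (2ℓ+6) (1/R + R/A·4)`.
* `√R ≤ |t| ≤ k^(4δ)`: the weight is at most `1`; `∫ (2/|t|) ‖P‖ ≤ (∫_{|t| ≥ √R} 4/t²)^(1/2) (∫_{|t| ≤ k^(4δ)} ‖P‖²)^(1/2) ≤ (8/√R)^(1/2) (C ℓ²)^(1/2)`
  (`Pf_mvt`, `4δ ≤ 1/4`), and `∫ 2(1+|t|)/A ‖P‖ ≤ 16 k^(8δ) (2ℓ+6)/k^η`, tiny because `16δ ≤ η`.
* `|t| ≥ k^(4δ)`: the weight is at most `exp(-(t/τ)²/2) ≤ exp(-k^(6δ)/4) exp(-(t/τ)²/4)`, `‖M‖ ≤ 3ℓ` (`Ioc_triv`), `‖P‖ ≤ 2ℓ+6`: tiny.
The tiny parts are multiplied by `LL ≤ 1 + ℓ` and are at most `1` in total for large `k`. (`1/R ≤ R^(-1/4)`.)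
-/

set_option autoImplicit false

open Finset MeasureTheory

namespace Pool.Agent.Lib.MP_9a8698_nt

theorem LL_nonneg (k a b : ℝ) : 0 ≤ LL k a b := by
  unfold LL
  exact Finset.sum_nonneg fun q _ => by positivity

private theorem C2_LL {k a b : ℝ} (hk : 1 ≤ k) (ha : 0 < a) (hb : b ≤ 1) :
    LL k a b ≤ Real.log k := by
  have hk0 : 0 < k := by linarith
  have hlog : 0 ≤ Real.log k := Real.log_nonneg hk
  rcases le_or_gt ⌊k ^ a⌋₊ ⌊k ^ b⌋₊ with h | h
  · have hA : 1 ≤ ⌊k ^ a⌋₊ := Nat.le_floor (by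
      rw [Nat.cast_one]
      exact Real.one_le_rpow hk ha.le)
    have h1 := Ioc_triv ⌊k ^ a⌋₊ ⌊k ^ b⌋₊ hA h 0
    have h2 : DP (Ioc ⌊k ^ a⌋₊ ⌊k ^ b⌋₊) (fun _ => 1) 0 =
        ((∑ q ∈ Ioc ⌊k ^ a⌋₊ ⌊k ^ b⌋₊, (1 : ℝ) / q : ℝ) : ℂ) := by
      unfold DP
      rw [Complex.ofReal_sum]
      refine Finset.sum_congr rfl fun n _ => ?_
      rw [zero_mul, neg_zero, Complex.ofReal_zero, zero_mul, Complex.exp_zero, mul_one]
    rw [h2, Complex.norm_real, Real.norm_of_nonneg (Finset.sum_nonneg fun q _ => by positivity)]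
      at h1
    have h3 : LL k a b ≤ ∑ q ∈ Ioc ⌊k ^ a⌋₊ ⌊k ^ b⌋₊, (1 : ℝ) / q := by
      unfold LL Qs
      exact Finset.sum_le_sum_of_subset_of_nonneg (Finset.filter_subset _ _)
        fun _ _ _ => by positivity
    have h4 : 0 ≤ Real.log (⌊k ^ a⌋₊ : ℝ) := Real.log_natCast_nonneg _
    have h5 : Real.log (⌊k ^ b⌋₊ : ℝ) ≤ Real.log k := by
      refine Real.log_le_log (by exact_mod_cast (hA.trans h)) ?_
      refine (Nat.floor_le (by positivity)).trans ?_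
      calc k ^ b ≤ k ^ (1 : ℝ) := Real.rpow_le_rpow_of_exponent_le hk hb
        _ = k := Real.rpow_one k
    linarith
  · have h0 : LL k a b = 0 := by
      unfold LL Qs
      rw [Finset.Ioc_eq_empty (by omega), Finset.filter_empty, Finset.sum_empty]
    rw [h0]
    exact hlog

/-- The majorant. -/
private noncomputable def C2_G (p : ℝ → ℝ) (R T s ca cb c4 τ t : ℝ) : ℝ :=
  (Set.Icc (-Real.sqrt R) (Real.sqrt R)).indicator (fun _ => ca) t +
    (Set.Icc (-T) T).indicator (fun t => (2 * s)⁻¹ * (p t) ^ 2 + cb) t +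
    4 * s * (t ^ 2 + R)⁻¹ + {x : ℝ | T ≤ |x|}.indicator (fun t => c4 * gs (1 / τ) t) t

private theorem C2_exp (τ t : ℝ) (hτ : 0 < τ) : Real.exp (-((t / τ) ^ 2 / 2)) =
    Real.sqrt (2 * Real.pi) * τ * gs (1 / τ) t := by
  unfold gs
  have h : 0 < Real.sqrt (2 * Real.pi) := Real.sqrt_pos.2 (by positivity)
  have e : 1 / τ * t = t / τ := by ring
  rw [e]
  field_simp

private theorem C2_pt (p : ℝ → ℝ) {R T s A l τ t m : ℝ} (hR : 1 ≤ R) (hRτ : R ≤ τ)
    (hs : 0 < s) (hA : 0 < A) (hl : 0 ≤ l) (hT : 0 ≤ T) (hm0 : 0 ≤ m) (hp0 : 0 ≤ p t)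
    (hm : t ≠ 0 → m ≤ 2 / |t| + 2 * (1 + |t|) / A) (hm2 : m ≤ 2 * l) (hp : p t ≤ 2 * l + 6) :
    |Real.exp (-((t / τ) ^ 2 / 2)) - Real.exp (-((t / R) ^ 2 / 2))| * (m * p t) ≤
      C2_G p R T s ((Real.sqrt R / R ^ 2 + (1 + Real.sqrt R) / (R * A)) * (2 * l + 6))
        (2 * (1 + T) / A * (2 * l + 6)) (2 * l * (2 * l + 6) * (Real.sqrt (2 * Real.pi) * τ))
        τ t := by
  have hR0 : 0 < R := by linarith
  have hτ0 : 0 < τ := by linarith
  have hgs := gs_nonneg (τ := 1 / τ) (by positivity) t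
  set ca : ℝ := (Real.sqrt R / R ^ 2 + (1 + Real.sqrt R) / (R * A)) * (2 * l + 6) with hca
  set cb : ℝ := 2 * (1 + T) / A * (2 * l + 6) with hcb
  set c4 : ℝ := 2 * l * (2 * l + 6) * (Real.sqrt (2 * Real.pi) * τ) with hc4
  have hca0 : 0 ≤ ca := by positivity
  have hcb0 : 0 ≤ cb := by positivity
  have hc40 : 0 ≤ c4 := by positivity
  have i1 : 0 ≤ (Set.Icc (-Real.sqrt R) (Real.sqrt R)).indicator (fun _ => ca) t :=
    Set.indicator_nonneg (fun _ _ => hca0) t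
  have i2 : 0 ≤ (Set.Icc (-T) T).indicator (fun t => (2 * s)⁻¹ * (p t) ^ 2 + cb) t :=
    Set.indicator_nonneg (fun _ _ => by positivity) t
  have i3 : 0 ≤ 4 * s * (t ^ 2 + R)⁻¹ := by positivity
  have i4 : 0 ≤ {x : ℝ | T ≤ |x|}.indicator (fun t => c4 * gs (1 / τ) t) t :=
    Set.indicator_nonneg (fun x _ => mul_nonneg hc40 (gs_nonneg (by positivity) x)) t
  set g := Real.exp (-((t / τ) ^ 2 / 2)) with hg
  set g' := Real.exp (-((t / R) ^ 2 / 2)) with hg'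
  have hgg : g' ≤ g := by
    rw [hg, hg', Real.exp_le_exp, neg_le_neg_iff]
    have h1 : (t / τ) ^ 2 ≤ (t / R) ^ 2 := by
      rw [div_pow, div_pow]
      exact div_le_div_of_nonneg_left (sq_nonneg t) (by positivity)
        (pow_le_pow_left₀ hR0.le hRτ 2)
    linarith
  have hg1 : g ≤ 1 := by
    rw [hg, Real.exp_le_one_iff]
    have := sq_nonneg (t / τ)
    linarith
  have hg0 : 0 < g := Real.exp_pos _
  have hg'0 : 0 < g' := Real.exp_pos _
  have hg'1 : 1 - (t / R) ^ 2 / 2 ≤ g' := by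
    have := Real.add_one_le_exp (-((t / R) ^ 2 / 2))
    linarith
  rw [abs_of_nonneg (by linarith)]
  unfold C2_G
  have hmp : 0 ≤ m * p t := mul_nonneg hm0 hp0
  by_cases h1 : |t| ≤ Real.sqrt R
  · rcases eq_or_ne t 0 with h0 | h0
    · have e1 : g - g' = 0 := by
        rw [hg, hg', h0]
        simp
      rw [e1, zero_mul]
      positivity
    · have ht : 0 < |t| := abs_pos.2 h0
      have hmem : t ∈ Set.Icc (-Real.sqrt R) (Real.sqrt R) := abs_le.1 h1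
      rw [Set.indicator_of_mem hmem]
      have e1 : (g - g') * (m * p t) ≤ ca := by
        have e2 : g - g' ≤ t ^ 2 / (2 * R ^ 2) := by
          have : (t / R) ^ 2 / 2 = t ^ 2 / (2 * R ^ 2) := by
            field_simp
          linarith
        have e3 : m * p t ≤ (2 / |t| + 2 * (1 + |t|) / A) * (2 * l + 6) :=
          mul_le_mul (hm h0) hp hp0 (by positivity)
        have e4 : (g - g') * (m * p t) ≤
            t ^ 2 / (2 * R ^ 2) * ((2 / |t| + 2 * (1 + |t|) / A) * (2 * l + 6)) :=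
          mul_le_mul e2 e3 hmp (by positivity)
        refine e4.trans ?_
        have e5 : t ^ 2 / (2 * R ^ 2) * ((2 / |t| + 2 * (1 + |t|) / A) * (2 * l + 6)) =
            (|t| / R ^ 2 + |t| ^ 2 * (1 + |t|) / (R ^ 2 * A)) * (2 * l + 6) := by
          rw [← sq_abs t]
          field_simp
        rw [e5, hca]
        refine mul_le_mul_of_nonneg_right (add_le_add ?_ ?_) (by positivity)
        · exact div_le_div_of_nonneg_right h1 (by positivity)
        · have e6 : |t| ^ 2 ≤ R := by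
            calc |t| ^ 2 ≤ (Real.sqrt R) ^ 2 := pow_le_pow_left₀ ht.le h1 2
              _ = R := Real.sq_sqrt hR0.le
          have e7 : (1 + Real.sqrt R) / (R * A) = R * (1 + Real.sqrt R) / (R ^ 2 * A) := by
            field_simp
          rw [e7]
          refine div_le_div_of_nonneg_right ?_ (by positivity)
          exact mul_le_mul e6 (by linarith) (by positivity) hR0.le
      linarith
  · push Not at h1
    have hsR : 1 ≤ Real.sqrt R := by
      rw [Real.le_sqrt (by norm_num) (by linarith)]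
      linarith
    have ht : 0 < |t| := by linarith
    have h0 : t ≠ 0 := abs_pos.1 ht
    by_cases h2 : |t| ≤ T
    · have hmem : t ∈ Set.Icc (-T) T := abs_le.1 h2
      rw [Set.indicator_of_mem hmem]
      have e1 : (g - g') * (m * p t) ≤ m * p t := by
        have : g - g' ≤ 1 := by linarith
        calc (g - g') * (m * p t) ≤ 1 * (m * p t) := mul_le_mul_of_nonneg_right this hmp
          _ = m * p t := one_mul _
      have e2 : m * p t ≤ 2 / |t| * p t + cb := by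
        have e3 : m * p t ≤ (2 / |t| + 2 * (1 + |t|) / A) * p t :=
          mul_le_mul_of_nonneg_right (hm h0) hp0
        have e4 : 2 * (1 + |t|) / A * p t ≤ cb := by
          rw [hcb]
          refine mul_le_mul ?_ hp hp0 (by positivity)
          exact div_le_div_of_nonneg_right (by linarith) hA.le
        linarith
      have e3 : 2 / |t| * p t ≤ 2 * s / |t| ^ 2 + (2 * s)⁻¹ * (p t) ^ 2 := by
        have e4 := sq_nonneg (2 * s / |t| - p t)
        have e5 : 2 * s / |t| ^ 2 + (2 * s)⁻¹ * (p t) ^ 2 - 2 / |t| * p t =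
            (2 * s)⁻¹ * (2 * s / |t| - p t) ^ 2 := by
          field_simp
          ring
        have e6 : 0 ≤ (2 * s)⁻¹ * (2 * s / |t| - p t) ^ 2 := by positivity
        linarith
      have e4 : 2 * s / |t| ^ 2 ≤ 4 * s * (t ^ 2 + R)⁻¹ := by
        have e5 : R ≤ |t| ^ 2 := by
          calc R = (Real.sqrt R) ^ 2 := (Real.sq_sqrt hR0.le).symm
            _ ≤ |t| ^ 2 := pow_le_pow_left₀ (by linarith) h1.le 2
        rw [← sq_abs t, ← div_eq_mul_inv, div_le_div_iff₀ (by positivity) (by positivity)]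
        have e6 := mul_le_mul_of_nonneg_left e5 (by positivity : 0 ≤ 2 * s)
        linarith
      linarith
    · push Not at h2
      have hmem : t ∈ {x : ℝ | T ≤ |x|} := h2.le
      rw [Set.indicator_of_mem hmem]
      have e1 : (g - g') * (m * p t) ≤ g * (2 * l * (2 * l + 6)) := by
        refine mul_le_mul (by linarith) (mul_le_mul hm2 hp hp0 (by linarith)) hmp hg0.le
      have e2 : g * (2 * l * (2 * l + 6)) = c4 * gs (1 / τ) t := by
        rw [hg, C2_exp τ t hτ0, hc4]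
        ring
      linarith

private theorem C2_Gint (p : ℝ → ℝ) (hp : Continuous p) {R T s ca cb c4 τ I : ℝ} (hR : 1 ≤ R)
    (hτ : 0 < τ) (hs : 0 < s) (hT : 0 ≤ T) (hc4 : 0 ≤ c4)
    (hI : ∫ t in Set.Icc (-T) T, (p t) ^ 2 ≤ I) :
    Integrable (C2_G p R T s ca cb c4 τ) ∧
    ∫ t, C2_G p R T s ca cb c4 τ t ≤ 2 * Real.sqrt R * ca + ((2 * s)⁻¹ * I + 2 * T * cb) +
      4 * s * (Real.pi / Real.sqrt R) + c4 * (2 * Real.exp (-((1 / τ * T) ^ 2 / 4))) := by
  have hR0 : 0 < R := by linarith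
  have hsR : 0 < Real.sqrt R := Real.sqrt_pos.2 hR0
  have m1 : MeasurableSet (Set.Icc (-Real.sqrt R) (Real.sqrt R)) := measurableSet_Icc
  have m2 : MeasurableSet (Set.Icc (-T) T) := measurableSet_Icc
  have m4 : MeasurableSet {x : ℝ | T ≤ |x|} := measurableSet_le measurable_const measurable_norm
  have j1 : Integrable ((Set.Icc (-Real.sqrt R) (Real.sqrt R)).indicator (fun _ : ℝ => ca)) := by
    rw [integrable_indicator_iff m1]
    exact continuous_const.continuousOn.integrableOn_Icc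
  have j2a : IntegrableOn (fun t => (p t) ^ 2) (Set.Icc (-T) T) :=
    (hp.pow 2).continuousOn.integrableOn_Icc
  have j2b : IntegrableOn (fun _ : ℝ => cb) (Set.Icc (-T) T) :=
    continuous_const.continuousOn.integrableOn_Icc
  have j2c : IntegrableOn (fun t => (2 * s)⁻¹ * (p t) ^ 2 + cb) (Set.Icc (-T) T) :=
    Integrable.add (j2a.const_mul _) j2b
  have j2 : Integrable ((Set.Icc (-T) T).indicator (fun t => (2 * s)⁻¹ * (p t) ^ 2 + cb)) := by
    rw [integrable_indicator_iff m2]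
    exact j2c
  have e3 : ∀ t : ℝ, 4 * s * (t ^ 2 + R)⁻¹ =
      4 * s / R * (1 + ((Real.sqrt R)⁻¹ * t) ^ 2)⁻¹ := by
    intro t
    have h1 : ((Real.sqrt R)⁻¹ * t) ^ 2 = t ^ 2 / R := by
      rw [mul_pow, inv_pow, Real.sq_sqrt hR0.le]
      ring
    rw [h1]
    have h2 : 0 < t ^ 2 + R := by positivity
    field_simp
    ring
  have j3 : Integrable (fun t : ℝ => 4 * s * (t ^ 2 + R)⁻¹) := by
    simp_rw [e3]
    refine Integrable.const_mul ?_ _
    exact (integrable_inv_one_add_sq).comp_mul_left' (inv_ne_zero hsR.ne')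
  have v3 : ∫ t : ℝ, 4 * s * (t ^ 2 + R)⁻¹ = 4 * s * (Real.pi / Real.sqrt R) := by
    simp_rw [e3]
    rw [integral_const_mul, Measure.integral_comp_mul_left (fun x : ℝ => (1 + x ^ 2)⁻¹),
      integral_univ_inv_one_add_sq, inv_inv, abs_of_pos hsR, smul_eq_mul]
    have h : Real.sqrt R / R = 1 / Real.sqrt R := by
      rw [div_eq_div_iff hR0.ne' hsR.ne', Real.mul_self_sqrt hR0.le, one_mul]
    calc 4 * s / R * (Real.sqrt R * Real.pi) = 4 * s * Real.pi * (Real.sqrt R / R) := by ring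
      _ = 4 * s * (Real.pi / Real.sqrt R) := by
        rw [h]
        ring
  have j4a : IntegrableOn (fun t => c4 * gs (1 / τ) t) {x : ℝ | T ≤ |x|} :=
    ((gs_integrable (by positivity)).const_mul c4).integrableOn
  have j4 : Integrable ({x : ℝ | T ≤ |x|}.indicator (fun t => c4 * gs (1 / τ) t)) := by
    rw [integrable_indicator_iff m4]
    exact j4a
  have j12 : Integrable (fun t : ℝ =>
      (Set.Icc (-Real.sqrt R) (Real.sqrt R)).indicator (fun _ : ℝ => ca) t +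
      (Set.Icc (-T) T).indicator (fun t => (2 * s)⁻¹ * (p t) ^ 2 + cb) t) := j1.add j2
  have j123 : Integrable (fun t : ℝ =>
      (Set.Icc (-Real.sqrt R) (Real.sqrt R)).indicator (fun _ : ℝ => ca) t +
      (Set.Icc (-T) T).indicator (fun t => (2 * s)⁻¹ * (p t) ^ 2 + cb) t +
      4 * s * (t ^ 2 + R)⁻¹) := j12.add j3
  refine ⟨j123.add j4, ?_⟩
  have hsum : ∫ t, C2_G p R T s ca cb c4 τ t =
      (∫ t, (Set.Icc (-Real.sqrt R) (Real.sqrt R)).indicator (fun _ : ℝ => ca) t) +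
      (∫ t, (Set.Icc (-T) T).indicator (fun t => (2 * s)⁻¹ * (p t) ^ 2 + cb) t) +
      (∫ t, 4 * s * (t ^ 2 + R)⁻¹) +
      ∫ t, {x : ℝ | T ≤ |x|}.indicator (fun t => c4 * gs (1 / τ) t) t := by
    unfold C2_G
    rw [integral_add j123 j4, integral_add j12 j3, integral_add j1 j2]
  rw [hsum, v3, integral_indicator m1, integral_indicator m2, integral_indicator m4,
    integral_add (j2a.const_mul _) j2b, integral_const_mul, integral_const_mul,
    setIntegral_const, setIntegral_const]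
  have w1 : volume.real (Set.Icc (-Real.sqrt R) (Real.sqrt R)) = 2 * Real.sqrt R := by
    rw [Real.volume_real_Icc_of_le (by linarith)]
    ring
  have w2 : volume.real (Set.Icc (-T) T) = 2 * T := by
    rw [Real.volume_real_Icc_of_le (by linarith)]
    ring
  rw [w1, w2, smul_eq_mul, smul_eq_mul]
  have w3 := gs_tail (1 / τ) T (by positivity) hT
  have w4 := mul_le_mul_of_nonneg_left w3 hc4
  have w5 : (2 * s)⁻¹ * ∫ t in Set.Icc (-T) T, (p t) ^ 2 ≤ (2 * s)⁻¹ * I :=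
    mul_le_mul_of_nonneg_left hI (by positivity)
  linarith

theorem B1 : ∃ C : ℝ, 0 < C ∧ ∀ η ε₁ ε₂ δ R : ℝ, 0 < η → 0 < ε₁ → ε₂ ≤ 1 → 0 < δ →
    16 * δ ≤ η → 16 * δ ≤ 1 → 1 ≤ R → ∃ k0 : ℝ, ∀ k : ℝ, k0 ≤ k → ∀ μ lam u : ℝ, η ≤ μ →
      0 ≤ lam → μ + lam ≤ 2 →
      |JT k ε₁ ε₂ μ lam (k ^ δ) u - JT k ε₁ ε₂ μ lam R u| ≤
        C * LL k ε₁ ε₂ * Real.log k * R ^ (-((1 : ℝ) / 4)) + 1 := by
  obtain ⟨C, k1, hC, hmvt⟩ := Pf_mvt
  refine ⟨16 + C / 2 + 4 * Real.pi, by positivity, fun η ε₁ ε₂ δ R hη hε₁ hε₂ hδ hδη hδ1 hR => ?_⟩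
  have ev1 : ∀ᶠ x : ℝ in Filter.atTop, ‖Real.log x‖ ≤ 1 * ‖x ^ (η / 8)‖ :=
    (isLittleO_log_rpow_atTop (by positivity)).bound (by norm_num)
  have ev2 : ∀ᶠ x : ℝ in Filter.atTop, (384 : ℝ) ≤ x ^ (η / 4) :=
    (tendsto_rpow_atTop (by positivity)).eventually_ge_atTop 384
  have ev3 : ∀ᶠ x : ℝ in Filter.atTop, R ≤ x ^ δ :=
    (tendsto_rpow_atTop hδ).eventually_ge_atTop R
  have ev4 : ∀ᶠ y : ℝ in Filter.atTop,
      ‖Real.exp (-(1 / 4) * y)‖ ≤ 1 * ‖y ^ (-(5 / (6 * δ)))‖ :=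
    (isLittleO_exp_neg_mul_rpow_atTop (a := 1 / 4) (by norm_num) (-(5 / (6 * δ)))).bound
      (by norm_num)
  have ev5 : ∀ᶠ x : ℝ in Filter.atTop,
      ‖Real.exp (-(1 / 4) * x ^ (6 * δ))‖ ≤ 1 * ‖(x ^ (6 * δ)) ^ (-(5 / (6 * δ)))‖ :=
    (tendsto_rpow_atTop (by positivity)).eventually ev4
  have ev6 : ∀ᶠ x : ℝ in Filter.atTop, (2 : ℝ) ≤ x ^ η :=
    (tendsto_rpow_atTop hη).eventually_ge_atTop 2
  obtain ⟨k2, hk2⟩ := Filter.eventually_atTop.1
    (ev1.and (ev2.and (ev3.and (ev5.and (ev6.and ((Filter.eventually_ge_atTop (192 : ℝ)).and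
      (Filter.eventually_ge_atTop (Real.exp 1))))))))
  refine ⟨max k1 k2, fun k hk μ lam u hμ hlam hml => ?_⟩
  obtain ⟨f1, f2, f3, f5, f6, f7, f8⟩ := hk2 k ((le_max_right _ _).trans hk)
  have hk1 : 1 ≤ k := by linarith
  have hk0 : 0 < k := by linarith
  have hl1 : 1 ≤ Real.log k := (Real.le_log_iff_exp_le hk0).2 f8
  set l : ℝ := Real.log k with hl
  have hl0 : 0 < l := by linarith
  have hlk : l ≤ k := (Real.log_le_sub_one_of_pos hk0).trans (by linarith)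
  have f1' : l ≤ k ^ (η / 8) := by
    rw [one_mul, Real.norm_eq_abs, Real.norm_eq_abs, abs_of_nonneg (Real.rpow_nonneg hk0.le _)]
      at f1
    exact (le_abs_self _).trans f1
  set τ : ℝ := k ^ δ with hτ
  set T : ℝ := k ^ (4 * δ) with hT
  have hR0 : 0 < R := by linarith
  have hτ0 : 0 < τ := by positivity
  have hT1 : 1 ≤ T := Real.one_le_rpow hk1 (by positivity)
  have hT0 : 0 ≤ T := by linarith
  -- the exponential
  have hE : Real.exp (-((1 / τ * T) ^ 2 / 4)) ≤ k ^ (-(5 : ℝ)) := by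
    have e1 : (1 / τ * T) ^ 2 = k ^ (6 * δ) := by
      have e2 : 1 / τ * T = k ^ (3 * δ) := by
        rw [hτ, hT, one_div, ← Real.rpow_neg hk0.le, ← Real.rpow_add hk0]
        congr 1
        ring
      rw [e2, ← Real.rpow_natCast, ← Real.rpow_mul hk0.le]
      congr 1
      push_cast
      ring
    have e3 : (k ^ (6 * δ)) ^ (-(5 / (6 * δ))) = k ^ (-(5 : ℝ)) := by
      rw [← Real.rpow_mul hk0.le]
      congr 1
      field_simp
    rw [one_mul, e3, Real.norm_of_nonneg (Real.exp_pos _).le,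
      Real.norm_of_nonneg (Real.rpow_nonneg hk0.le _)] at f5
    rw [e1]
    refine le_trans (le_of_eq ?_) f5
    congr 1
    ring
  -- the integers m
  set A : ℕ := ⌊k ^ μ⌋₊ with hA
  set B : ℕ := ⌊k ^ (μ + lam)⌋₊ with hB
  have hkμ : k ^ η ≤ k ^ μ := Real.rpow_le_rpow_of_exponent_le hk1 hμ
  have hA1 : 1 ≤ A := Nat.le_floor (by
    rw [Nat.cast_one]
    linarith)
  have hAB : A ≤ B := Nat.floor_le_floor (Real.rpow_le_rpow_of_exponent_le hk1 (by linarith))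
  have hAr : k ^ η / 2 ≤ (A : ℝ) := by
    have := Nat.lt_floor_add_one (k ^ μ)
    linarith
  have hA0 : (0 : ℝ) < A := by exact_mod_cast hA1
  have hMf : Mf k μ lam = DP (Ioc A B) (fun _ => 1) := rfl
  have hM1 : ∀ t, t ≠ 0 → ‖Mf k μ lam t‖ ≤ 2 / |t| + 2 * (1 + |t|) / A := fun t ht => by
    rw [hMf]
    exact Ioc_bound A B hA1 hAB t ht
  have hM2 : ∀ t, ‖Mf k μ lam t‖ ≤ 2 * l := fun t => by
    rw [hMf]
    refine (Ioc_triv A B hA1 hAB t).trans ?_
    have e1 : 0 ≤ Real.log (A : ℝ) := Real.log_natCast_nonneg _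
    have e2 : Real.log (B : ℝ) ≤ 2 * l := by
      have e3 : (B : ℝ) ≤ k ^ (2 : ℝ) := (Nat.floor_le (by positivity)).trans
        (Real.rpow_le_rpow_of_exponent_le hk1 hml)
      have e4 := Real.log_le_log (by exact_mod_cast (hA1.trans hAB) : (0 : ℝ) < B) e3
      rwa [Real.log_rpow hk0] at e4
    linarith
  have hP : ∀ t, ‖Pf k t‖ ≤ 2 * l + 6 := fun t => Pf_triv k t (by linarith)
  have hLL0 : 0 ≤ LL k ε₁ ε₂ := LL_nonneg _ _ _
  have hLLl : LL k ε₁ ε₂ ≤ l := C2_LL hk1 hε₁ hε₂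
  have hW : ∀ t, ‖Wf k ε₁ ε₂ t‖ ≤ LL k ε₁ ε₂ := fun t => by
    unfold Wf LL
    refine (DP_norm_le _ _ _).trans (le_of_eq ?_)
    refine Finset.sum_congr rfl fun q _ => ?_
    rw [abs_one]
  have hcW : Continuous (Wf k ε₁ ε₂) := DP_continuous _ _
  have hcM : Continuous (Mf k μ lam) := DP_continuous _ _
  have hcP : Continuous (Pf k) := DP_continuous _ _
  have hcf : Continuous fun t => Wf k ε₁ ε₂ t * (Mf k μ lam t * Pf k t) :=
    hcW.mul (hcM.mul hcP)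
  have hbf : ∀ t, ‖Wf k ε₁ ε₂ t * (Mf k μ lam t * Pf k t)‖ ≤
      LL k ε₁ ε₂ * (2 * l * (2 * l + 6)) := fun t => by
    rw [norm_mul, norm_mul]
    exact mul_le_mul (hW t) (mul_le_mul (hM2 t) (hP t) (norm_nonneg _) (by positivity))
      (by positivity) hLL0
  have hint : ∀ σ : ℝ, 0 < σ → Integrable fun t =>
      ker σ u t * (Wf k ε₁ ε₂ t * (Mf k μ lam t * Pf k t)) := fun σ hσ =>
    gauss_integrable hσ _ hcf _ hbf u
  have hs0 : 0 < R ^ ((1 : ℝ) / 4) := by positivity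
  set s : ℝ := l * R ^ ((1 : ℝ) / 4) with hs
  have hs0' : 0 < s := by positivity
  set ca : ℝ := (Real.sqrt R / R ^ 2 + (1 + Real.sqrt R) / (R * A)) * (2 * l + 6) with hca
  set cb : ℝ := 2 * (1 + T) / A * (2 * l + 6) with hcb
  set c4 : ℝ := 2 * l * (2 * l + 6) * (Real.sqrt (2 * Real.pi) * τ) with hc4
  have hc40 : 0 ≤ c4 := by positivity
  have hmvt' := hmvt k T ((le_max_left _ _).trans hk) hT1
    (Real.rpow_le_rpow_of_exponent_le hk1 (by linarith))
  obtain ⟨G1, G2⟩ := C2_Gint (fun t => ‖Pf k t‖) hcP.norm (ca := ca) (cb := cb) (c4 := c4)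
    (s := s) hR hτ0 hs0' hT0 hc40 hmvt'
  have key : ‖∫ t, (ker τ u t * (Wf k ε₁ ε₂ t * (Mf k μ lam t * Pf k t)) -
      ker R u t * (Wf k ε₁ ε₂ t * (Mf k μ lam t * Pf k t)))‖ ≤
      ∫ t, LL k ε₁ ε₂ * C2_G (fun t => ‖Pf k t‖) R T s ca cb c4 τ t := by
    refine norm_integral_le_of_norm_le (G1.const_mul _) (Filter.Eventually.of_forall fun t => ?_)
    rw [← sub_mul, norm_mul, norm_mul, norm_mul]
    have e1 : ‖ker τ u t - ker R u t‖ =
        |Real.exp (-((t / τ) ^ 2 / 2)) - Real.exp (-((t / R) ^ 2 / 2))| := by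
      unfold ker
      rw [← sub_mul, norm_mul, Complex.norm_exp_ofReal_mul_I, mul_one, ← Complex.ofReal_sub,
        Complex.norm_real, Real.norm_eq_abs]
    rw [e1]
    have e2 := C2_pt (fun t => ‖Pf k t‖) (T := T) (s := s) (A := (A : ℝ)) (l := l)
      (m := ‖Mf k μ lam t‖) (t := t) hR f3 hs0' hA0 hl0.le hT0
      (norm_nonneg _) (norm_nonneg _) (hM1 t) (hM2 t) (hP t)
    calc |Real.exp (-((t / τ) ^ 2 / 2)) - Real.exp (-((t / R) ^ 2 / 2))| *
          (‖Wf k ε₁ ε₂ t‖ * (‖Mf k μ lam t‖ * ‖Pf k t‖))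
        = ‖Wf k ε₁ ε₂ t‖ * (|Real.exp (-((t / τ) ^ 2 / 2)) - Real.exp (-((t / R) ^ 2 / 2))| *
          (‖Mf k μ lam t‖ * ‖Pf k t‖)) := by ring
      _ ≤ LL k ε₁ ε₂ * C2_G (fun t => ‖Pf k t‖) R T s ca cb c4 τ t :=
          mul_le_mul (hW t) e2 (by positivity) hLL0
  rw [integral_sub (hint τ hτ0) (hint R hR0), JT_fourier _ _ _ _ _ _ hτ0,
    JT_fourier _ _ _ _ _ _ hR0, ← Complex.ofReal_sub, Complex.norm_real, Real.norm_eq_abs,
    ← mul_sub, abs_mul, abs_of_pos (by positivity : (0 : ℝ) < 2 * Real.pi),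
    integral_const_mul] at key
  have key2 := key.trans (mul_le_mul_of_nonneg_left G2 hLL0)
  -- the final computation
  set r : ℝ := R ^ (-((1 : ℝ) / 4)) with hr
  have hr0 : 0 < r := by positivity
  have n1 : 2 * l + 6 ≤ 8 * l := by linarith
  have hsq : Real.sqrt R ^ 2 = R := Real.sq_sqrt hR0.le
  have hsq1 : 1 ≤ Real.sqrt R := by
    rw [Real.le_sqrt (by norm_num) (by linarith)]
    linarith
  have hRr : 1 / R ≤ r := by
    rw [hr, one_div, ← Real.rpow_neg_one]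
    exact Real.rpow_le_rpow_of_exponent_le hR (by norm_num)
  have n2 : 2 * Real.sqrt R * ca ≤ 16 * l * r + 64 * l * k ^ (-η) := by
    have e1 : 2 * Real.sqrt R * (Real.sqrt R / R ^ 2 + (1 + Real.sqrt R) / (R * A)) ≤
        2 * (1 / R) + 4 / A := by
      have e2 : 2 * Real.sqrt R * (Real.sqrt R / R ^ 2 + (1 + Real.sqrt R) / (R * A)) =
          2 * (Real.sqrt R ^ 2) / R ^ 2 + 2 * (Real.sqrt R + Real.sqrt R ^ 2) / (R * A) := by
        field_simp
      rw [e2, hsq]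
      refine add_le_add (le_of_eq (by field_simp)) ?_
      rw [div_le_div_iff₀ (by positivity) hA0]
      have e8 : Real.sqrt R ≤ R := by
        calc Real.sqrt R = Real.sqrt R * 1 := (mul_one _).symm
          _ ≤ Real.sqrt R * Real.sqrt R := mul_le_mul_of_nonneg_left hsq1 (Real.sqrt_nonneg _)
          _ = R := Real.mul_self_sqrt hR0.le
      have e9 := mul_le_mul_of_nonneg_right (show 2 * (Real.sqrt R + R) ≤ 4 * R by linarith) hA0.le
      linarith
    have e3 : 4 / (A : ℝ) ≤ 8 * k ^ (-η) := by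
      rw [Real.rpow_neg hk0.le, div_le_iff₀ hA0]
      have : 0 < k ^ η := by positivity
      calc (4 : ℝ) = 8 * (k ^ η)⁻¹ * (k ^ η / 2) := by
            field_simp
            norm_num
        _ ≤ 8 * (k ^ η)⁻¹ * A := mul_le_mul_of_nonneg_left hAr (by positivity)
    have e4 : 0 ≤ k ^ (-η) := by positivity
    calc 2 * Real.sqrt R * ca
        = 2 * Real.sqrt R * (Real.sqrt R / R ^ 2 + (1 + Real.sqrt R) / (R * A)) *
          (2 * l + 6) := by rw [hca]; ring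
      _ ≤ (2 * r + 8 * k ^ (-η)) * (8 * l) := by
          refine mul_le_mul (by linarith) n1 (by positivity) (by positivity)
      _ = 16 * l * r + 64 * l * k ^ (-η) := by ring
  have n3 : (2 * s)⁻¹ * (C * l ^ 2) = C / 2 * (l * r) := by
    rw [hs, hr, Real.rpow_neg hR0.le]
    field_simp
  have n4 : 4 * s * (Real.pi / Real.sqrt R) = 4 * Real.pi * (l * r) := by
    have e1 : R ^ ((1 : ℝ) / 4) * r = 1 := by
      rw [hr, ← Real.rpow_add hR0]
      norm_num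
    have e2 : Real.sqrt R = R ^ ((1 : ℝ) / 4) * R ^ ((1 : ℝ) / 4) := by
      rw [← Real.rpow_add hR0, Real.sqrt_eq_rpow]
      norm_num
    rw [hs, e2]
    have e3 : r = (R ^ ((1 : ℝ) / 4))⁻¹ := by
      rw [hr, Real.rpow_neg hR0.le]
    rw [e3]
    field_simp
  have hAinv : 1 / (A : ℝ) ≤ 2 * k ^ (-η) := by
    rw [Real.rpow_neg hk0.le, div_le_iff₀ hA0]
    have : 0 < k ^ η := by positivity
    calc (1 : ℝ) = 2 * (k ^ η)⁻¹ * (k ^ η / 2) := by
          field_simp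
      _ ≤ 2 * (k ^ η)⁻¹ * A := mul_le_mul_of_nonneg_left hAr (by positivity)
  have n5 : 2 * T * cb ≤ 128 * l * k ^ (-(η / 2)) := by
    have e1 : 2 * T * cb = 4 * T * (1 + T) * (2 * l + 6) * (1 / A) := by
      rw [hcb]
      ring
    have e2 : T * T * k ^ (-η) ≤ k ^ (-(η / 2)) := by
      rw [hT, ← Real.rpow_add hk0, ← Real.rpow_add hk0]
      exact Real.rpow_le_rpow_of_exponent_le hk1 (by linarith)
    rw [e1]
    calc 4 * T * (1 + T) * (2 * l + 6) * (1 / A)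
        ≤ 4 * T * (2 * T) * (8 * l) * (2 * k ^ (-η)) := by
          have : 1 + T ≤ 2 * T := by linarith
          gcongr
      _ = 128 * l * (T * T * k ^ (-η)) := by ring
      _ ≤ 128 * l * k ^ (-(η / 2)) := mul_le_mul_of_nonneg_left e2 (by positivity)
  have n6 : c4 * (2 * Real.exp (-((1 / τ * T) ^ 2 / 4))) ≤ 96 * l ^ 2 * (k * k ^ (-(5 : ℝ))) := by
    have e1 : Real.sqrt (2 * Real.pi) ≤ 3 := by
      rw [Real.sqrt_le_left (by norm_num)]
      have := Real.pi_lt_four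
      linarith
    have e2 : τ ≤ k := by
      calc τ ≤ k ^ (1 : ℝ) := Real.rpow_le_rpow_of_exponent_le hk1 (by linarith)
        _ = k := Real.rpow_one k
    have e3 : 0 ≤ Real.sqrt (2 * Real.pi) := Real.sqrt_nonneg _
    calc c4 * (2 * Real.exp (-((1 / τ * T) ^ 2 / 4)))
        = 2 * l * (2 * l + 6) * (Real.sqrt (2 * Real.pi) * τ) *
          (2 * Real.exp (-((1 / τ * T) ^ 2 / 4))) := by rw [hc4]
      _ ≤ 2 * l * (8 * l) * (3 * k) * (2 * k ^ (-(5 : ℝ))) := by gcongr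
      _ = 96 * l ^ 2 * (k * k ^ (-(5 : ℝ))) := by ring
  have t1 : k ^ (-η) ≤ k ^ (-(η / 2)) :=
    Real.rpow_le_rpow_of_exponent_le hk1 (by linarith)
  have t2 : l ^ 2 * k ^ (-(η / 2)) ≤ 1 / 384 := by
    have e1 : l ^ 2 ≤ k ^ (η / 4) := by
      calc l ^ 2 ≤ (k ^ (η / 8)) ^ 2 := pow_le_pow_left₀ hl0.le f1' 2
        _ = k ^ (η / 4) := by
          rw [← Real.rpow_natCast, ← Real.rpow_mul hk0.le]
          congr 1
          push_cast
          ring
    have e2 : 0 < k ^ (η / 4) := by positivity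
    calc l ^ 2 * k ^ (-(η / 2)) ≤ k ^ (η / 4) * k ^ (-(η / 2)) :=
          mul_le_mul_of_nonneg_right e1 (by positivity)
      _ = 1 / k ^ (η / 4) := by
          rw [← Real.rpow_add hk0, one_div, ← Real.rpow_neg hk0.le]
          congr 1
          ring
      _ ≤ 1 / 384 := div_le_div_of_nonneg_left (by norm_num) (by norm_num) f2
  have t3 : l ^ 3 * (k * k ^ (-(5 : ℝ))) ≤ 1 / 192 := by
    have e1 : k * k ^ (-(5 : ℝ)) = k ^ (-(4 : ℝ)) := by
      nth_rewrite 1 [← Real.rpow_one k]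
      rw [← Real.rpow_add hk0]
      norm_num
    have e2 : l ^ 3 ≤ k ^ (3 : ℝ) := by
      rw [← Real.rpow_natCast]
      exact Real.rpow_le_rpow hl0.le hlk (by norm_num)
    rw [e1]
    calc l ^ 3 * k ^ (-(4 : ℝ)) ≤ k ^ (3 : ℝ) * k ^ (-(4 : ℝ)) :=
          mul_le_mul_of_nonneg_right e2 (by positivity)
      _ = 1 / k := by
          rw [← Real.rpow_add hk0, one_div, ← Real.rpow_neg_one]
          norm_num
      _ ≤ 1 / 192 := div_le_div_of_nonneg_left (by norm_num) (by norm_num) f7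
  have t4 : LL k ε₁ ε₂ * (64 * l * k ^ (-η) + 128 * l * k ^ (-(η / 2)) +
      96 * l ^ 2 * (k * k ^ (-(5 : ℝ)))) ≤ 1 := by
    calc LL k ε₁ ε₂ * (64 * l * k ^ (-η) + 128 * l * k ^ (-(η / 2)) +
          96 * l ^ 2 * (k * k ^ (-(5 : ℝ))))
        ≤ l * (64 * l * k ^ (-(η / 2)) + 128 * l * k ^ (-(η / 2)) +
          96 * l ^ 2 * (k * k ^ (-(5 : ℝ)))) := by
          have : 0 < k ^ (-(5 : ℝ)) := by positivity
          gcongr
      _ = 192 * (l ^ 2 * k ^ (-(η / 2))) + 96 * (l ^ 3 * (k * k ^ (-(5 : ℝ)))) := by ring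
      _ ≤ 1 := by linarith
  have t5 : LL k ε₁ ε₂ * (2 * Real.sqrt R * ca + ((2 * s)⁻¹ * (C * l ^ 2) + 2 * T * cb) +
      4 * s * (Real.pi / Real.sqrt R) + c4 * (2 * Real.exp (-((1 / τ * T) ^ 2 / 4)))) ≤
      (16 + C / 2 + 4 * Real.pi) * LL k ε₁ ε₂ * l * r + 1 := by
    rw [n3, n4]
    have : LL k ε₁ ε₂ * (2 * Real.sqrt R * ca + (C / 2 * (l * r) + 2 * T * cb) +
      4 * Real.pi * (l * r) + c4 * (2 * Real.exp (-((1 / τ * T) ^ 2 / 4)))) ≤
      LL k ε₁ ε₂ * ((16 + C / 2 + 4 * Real.pi) * (l * r) + (64 * l * k ^ (-η) +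
        128 * l * k ^ (-(η / 2)) + 96 * l ^ 2 * (k * k ^ (-(5 : ℝ))))) :=
      mul_le_mul_of_nonneg_left (by linarith) hLL0
    refine this.trans ?_
    rw [mul_add]
    refine le_trans (add_le_add (le_refl _) t4) (le_of_eq ?_)
    ring
  have t6 := key2.trans t5
  have t7 : |JT k ε₁ ε₂ μ lam τ u - JT k ε₁ ε₂ μ lam R u| ≤
      2 * Real.pi * |JT k ε₁ ε₂ μ lam τ u - JT k ε₁ ε₂ μ lam R u| := by
    have e1 := abs_nonneg (JT k ε₁ ε₂ μ lam τ u - JT k ε₁ ε₂ μ lam R u)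
    have e2 := Real.pi_gt_three
    have e3 := mul_le_mul_of_nonneg_right (show (1 : ℝ) ≤ 2 * Real.pi by linarith) e1
    rwa [one_mul] at e3
  exact t7.trans t6

end Pool.Agent.Lib.MP_9a8698_nt
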