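import Pool.Agent.Lib.MP_9a8698_nt.Defs

section

/-!
A1. Fourier representation of the Gaussian sums.

PROOF. `∫ exp(-(t/τ)²/2) e^(itx) dt = √(2π) τ exp(-(τx)²/2)` (Mathlib: `fourierIntegral_gaussian`
or `integral_cexp_quadratic` / `GaussianFourier.integral_cexp_neg_mul_sq_add_real_mul_I`), applied with
`x = u - log n` to each term of the finite sum; `2π · τ/√(2π) = √(2π) τ`; the Gaussian is even.
-/

set_option autoImplicit false

open Finset MeasureTheory

namespace Pool.Agent.Lib.MP_9a8698_nt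

theorem DP_continuous (s : Finset ℕ) (c : ℕ → ℝ) : Continuous (DP s c) := by
  unfold DP
  fun_prop

theorem DP_norm_le (s : Finset ℕ) (c : ℕ → ℝ) (t : ℝ) : ‖DP s c t‖ ≤ ∑ n ∈ s, |c n| / n := by
  unfold DP
  refine (norm_sum_le _ _).trans (Finset.sum_le_sum fun n _ => ?_)
  rw [norm_mul, Complex.norm_exp_ofReal_mul_I, mul_one, Complex.norm_real, Real.norm_eq_abs,
    abs_div, abs_of_nonneg (Nat.cast_nonneg n : (0 : ℝ) ≤ n)]

theorem gs_nonneg {τ : ℝ} (hτ : 0 ≤ τ) (x : ℝ) : 0 ≤ gs τ x := by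
  unfold gs
  positivity

theorem integral_gs {τ : ℝ} (hτ : 0 < τ) : ∫ x, gs τ x = 1 := by
  unfold gs
  rw [integral_const_mul]
  have h1 : ∀ x : ℝ, Real.exp (-((τ * x) ^ 2 / 2)) = Real.exp (-(τ ^ 2 / 2) * x ^ 2) := by
    intro x
    congr 1
    ring
  simp_rw [h1]
  rw [integral_gaussian]
  have h2 : Real.pi / (τ ^ 2 / 2) = 2 * Real.pi / τ ^ 2 := by
    field_simp
  rw [h2, Real.sqrt_div (by positivity), Real.sqrt_sq hτ.le]
  have h3 : 0 < Real.sqrt (2 * Real.pi) := Real.sqrt_pos.2 (by positivity)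
  field_simp

/-- The real Gaussian with the precision used here, as a complex exponential. -/
theorem gauss_eq (τ t : ℝ) : ((Real.exp (-((t / τ) ^ 2 / 2)) : ℝ) : ℂ) =
    Complex.exp (-((1 / (2 * τ ^ 2) : ℝ) : ℂ) * (t : ℂ) ^ 2) := by
  rw [Complex.ofReal_exp]
  congr 1
  push_cast
  rw [div_pow]
  ring

theorem gauss_norm_integrable {τ : ℝ} (hτ : 0 < τ) :
    Integrable (fun t : ℝ => Real.exp (-((t / τ) ^ 2 / 2))) := by
  have h := integrable_exp_neg_mul_sq (b := 1 / (2 * τ ^ 2)) (by positivity)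
  refine h.congr (Filter.Eventually.of_forall fun t => ?_)
  simp only
  congr 1
  rw [div_pow]
  ring

/-- The Gaussian in `t` is integrable against every bounded continuous function. -/
theorem gauss_integrable {τ : ℝ} (hτ : 0 < τ) (f : ℝ → ℂ) (hf : Continuous f) (B : ℝ)
    (hB : ∀ t, ‖f t‖ ≤ B) (u : ℝ) :
    Integrable (fun t : ℝ => ((Real.exp (-((t / τ) ^ 2 / 2)) : ℝ) : ℂ) *
      Complex.exp (((u * t : ℝ) : ℂ) * Complex.I) * f t) := by
  refine Integrable.mono' ((gauss_norm_integrable hτ).mul_const B) ?_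
    (Filter.Eventually.of_forall fun t => ?_)
  · apply Continuous.aestronglyMeasurable
    fun_prop
  · rw [norm_mul, norm_mul, Complex.norm_exp_ofReal_mul_I, mul_one, Complex.norm_real,
      Real.norm_eq_abs, abs_of_pos (Real.exp_pos _)]
    exact mul_le_mul_of_nonneg_left (hB t) (Real.exp_pos _).le

/-- The Fourier transform of the Gaussian. -/
theorem gauss_ft {τ : ℝ} (hτ : 0 < τ) (x : ℝ) :
    ∫ t : ℝ, ((Real.exp (-((t / τ) ^ 2 / 2)) : ℝ) : ℂ) *
      Complex.exp (((x * t : ℝ) : ℂ) * Complex.I) =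
      ((Real.sqrt (2 * Real.pi) * τ * Real.exp (-((τ * x) ^ 2 / 2)) : ℝ) : ℂ) := by
  have hb : 0 < (((1 / (2 * τ ^ 2) : ℝ) : ℂ)).re := by
    rw [Complex.ofReal_re]
    positivity
  have h := fourierIntegral_gaussian hb (x : ℂ)
  have h1 : ∀ t : ℝ, ((Real.exp (-((t / τ) ^ 2 / 2)) : ℝ) : ℂ) *
      Complex.exp (((x * t : ℝ) : ℂ) * Complex.I) =
      Complex.exp (Complex.I * x * t) *
        Complex.exp (-((1 / (2 * τ ^ 2) : ℝ) : ℂ) * (t : ℂ) ^ 2) := by
    intro t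
    rw [gauss_eq, mul_comm]
    congr 2
    push_cast
    ring
  simp_rw [h1]
  rw [h]
  have h2 : ((Real.pi : ℂ) / ((1 / (2 * τ ^ 2) : ℝ) : ℂ)) = ((2 * Real.pi * τ ^ 2 : ℝ) : ℂ) := by
    push_cast
    have : (τ : ℂ) ≠ 0 := by exact_mod_cast hτ.ne'
    field_simp
  have h3 : ((2 * Real.pi * τ ^ 2 : ℝ) : ℂ) ^ (1 / 2 : ℂ) =
      ((Real.sqrt (2 * Real.pi) * τ : ℝ) : ℂ) := by
    have h4 : (1 / 2 : ℂ) = ((1 / 2 : ℝ) : ℂ) := by push_cast; rfl
    rw [h4, ← Complex.ofReal_cpow (by positivity), ← Real.sqrt_eq_rpow,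
      Real.sqrt_mul (by positivity), Real.sqrt_sq hτ.le]
  rw [h2, h3, Complex.ofReal_mul (Real.sqrt (2 * Real.pi) * τ), Complex.ofReal_exp]
  congr 2
  push_cast
  have : (τ : ℂ) ≠ 0 := by exact_mod_cast hτ.ne'
  field_simp
  ring

/-- Fourier representation. -/
theorem fourier_JD (s : Finset ℕ) (c : ℕ → ℝ) {τ : ℝ} (hτ : 0 < τ) (u : ℝ) :
    ∫ t : ℝ, ((Real.exp (-((t / τ) ^ 2 / 2)) : ℝ) : ℂ) *
      Complex.exp (((u * t : ℝ) : ℂ) * Complex.I) * DP s c t =
      ((2 * Real.pi * JD s c τ u : ℝ) : ℂ) := by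
  unfold DP JD
  have h1 : ∀ t : ℝ, ((Real.exp (-((t / τ) ^ 2 / 2)) : ℝ) : ℂ) *
      Complex.exp (((u * t : ℝ) : ℂ) * Complex.I) *
        (∑ n ∈ s, ((c n / n : ℝ) : ℂ) * Complex.exp (((-(t * Real.log n) : ℝ) : ℂ) * Complex.I)) =
      ∑ n ∈ s, ((c n / n : ℝ) : ℂ) * (((Real.exp (-((t / τ) ^ 2 / 2)) : ℝ) : ℂ) *
        Complex.exp ((((u - Real.log n) * t : ℝ) : ℂ) * Complex.I)) := by
    intro t
    rw [Finset.mul_sum]
    refine Finset.sum_congr rfl fun n _ => ?_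
    have h2 : Complex.exp ((((u - Real.log n) * t : ℝ) : ℂ) * Complex.I) =
        Complex.exp (((u * t : ℝ) : ℂ) * Complex.I) *
          Complex.exp (((-(t * Real.log n) : ℝ) : ℂ) * Complex.I) := by
      rw [← Complex.exp_add]
      congr 1
      push_cast
      ring
    rw [h2]
    ring
  simp_rw [h1]
  rw [integral_finsetSum]
  · rw [Finset.mul_sum, Complex.ofReal_sum]
    refine Finset.sum_congr rfl fun n _ => ?_
    rw [integral_const_mul, gauss_ft hτ, ← Complex.ofReal_mul]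
    congr 1
    unfold gs
    have h3 : 0 < Real.sqrt (2 * Real.pi) := Real.sqrt_pos.2 (by positivity)
    have h4 : Real.sqrt (2 * Real.pi) * Real.sqrt (2 * Real.pi) = 2 * Real.pi :=
      Real.mul_self_sqrt (by positivity)
    have h5 : (τ * (u - Real.log n)) ^ 2 = (τ * (Real.log n - u)) ^ 2 := by ring
    rw [h5]
    have h6 : 2 * Real.pi * (c n / n * (τ / Real.sqrt (2 * Real.pi) *
        Real.exp (-((τ * (Real.log n - u)) ^ 2 / 2)))) =
        c n / n * ((2 * Real.pi / Real.sqrt (2 * Real.pi)) * τ *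
          Real.exp (-((τ * (Real.log n - u)) ^ 2 / 2))) := by
      ring
    rw [h6]
    congr 3
    rw [eq_div_iff h3.ne', h4]
  · intro n _
    have h := gauss_integrable hτ (fun _ => (1 : ℂ)) continuous_const 1 (by simp) (u - Real.log n)
    simp only [mul_one] at h
    exact h.const_mul _

end Pool.Agent.Lib.MP_9a8698_nt
end

section

/-!
A2. The mean value theorem for Dirichlet polynomials (with A1).

PROOF of `gauss_sum`. Let `x = n/m`. For `m/2 ≤ n ≤ 2m`, `|log(n/m)| ≥ |n-m|/(2m)`, so these terms are at most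
`τ exp(-τ²(n-m)²/(8m²))`, and their sum is at most `τ + 2 ∑_{h ≥ 1} τ exp(-τ²h²/(8m²)) ≤ τ + 2·√(8π)/2·m`
(compare with the Gaussian integral, or with `exp(-y) ≤ 1/(1+y)`-type bounds and `∑ 1/(1+h²a²) ≤ 1 + π/(2a)`;
any constant will do). For `n < m/2`: at most `m/2` terms, each at most `τ exp(-τ²(log 2)²/2) ≤ 2`.
For `n > 2m`, with `y = log(n/m) ≥ log 2`: since `y²/2 ≥ 2y - 2`,
`τ exp(-τ²y²/2) = τ exp(-(τ²-1)y²/2) exp(-y²/2) ≤ (τ exp(-(τ²-1)(log 2)²/2)) e² (m/n)² ≤ C (m/n)²`, and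
`∑_{n > 2m} (m/n)² ≤ m`.

PROOF of `mvt`. Expand the square: the integral is
`∑_{m,n ∈ s} (c m/m)(c n/n) √(2π) τ exp(-(τ(log m - log n))²/2)` (this is A1's computation), use
`|ab| ≤ (a²+b²)/2`, symmetry and `gauss_sum`: it is at most `√(2π) ∑_m (c m)²/m² · C(τ + m)`, and
`(τ + m)/m ≤ τ/N + 1`.

PROOF of `mvt_sharp`. For `|t| ≤ τ` the weight is at least `e^(-1/2)`.
-/

set_option autoImplicit false

open Finset MeasureTheory

namespace Pool.Agent.Lib.MP_9a8698_nt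

private theorem A2_sum1 {a : ℝ} (ha : 0 < a) (H : ℕ) :
    ∑ h ∈ range (H + 1), 1 / (1 + (a * h) ^ 2) ≤ 1 + 2 / a := by
  have key : ∑ h ∈ range (H + 1), 1 / (1 + (a * h) ^ 2) ≤
      1 + 2 / a * (1 - 1 / (1 + a * H)) := by
    induction H with
    | zero => simp
    | succ H ih =>
      rw [sum_range_succ]
      push_cast
      have hH : (0 : ℝ) ≤ H := Nat.cast_nonneg H
      have hx : 0 ≤ a * H := by positivity
      have e1 : 1 / (1 + (a * (H + 1)) ^ 2) ≤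
          2 / a * (1 / (1 + a * H) - 1 / (1 + a * (H + 1))) := by
        have e : 2 / a * (1 / (1 + a * H) - 1 / (1 + a * (H + 1))) =
            2 / ((1 + a * H) * (1 + a * (H + 1))) := by
          field_simp
          ring
        rw [e, div_le_div_iff₀ (by positivity) (by positivity)]
        nlinarith [sq_nonneg (a * (H + 1) - 1), mul_nonneg hx ha.le]
      have e2 : 2 / a * (1 / (1 + a * H) - 1 / (1 + a * (H + 1))) =
          2 / a * (1 - 1 / (1 + a * (H + 1))) - 2 / a * (1 - 1 / (1 + a * H)) := by ring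
      linarith
  have h1 : 0 ≤ 2 / a * (1 / (1 + a * H)) := by positivity
  have h2 : 2 / a * (1 - 1 / (1 + a * H)) = 2 / a - 2 / a * (1 / (1 + a * H)) := by ring
  linarith

private theorem A2_exp {z : ℝ} (hz : 0 ≤ z) : Real.exp (-z) ≤ 1 / (1 + z) := by
  rw [Real.exp_neg, ← one_div]
  exact one_div_le_one_div_of_le (by linarith) (by linarith [Real.add_one_le_exp z])

private theorem A2_near {m : ℕ} {τ y d : ℝ} (hm : 1 ≤ m) (hτ : 1 ≤ τ) (hd : 0 ≤ d)
    (hy : d / (2 * m) ≤ |y|) :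
    Real.exp (-((τ * y) ^ 2 / 2)) ≤ 1 / (1 + (τ / (3 * m) * d) ^ 2) := by
  have hm' : (0 : ℝ) < m := by exact_mod_cast hm
  refine (A2_exp (by positivity)).trans (one_div_le_one_div_of_le (by positivity) ?_)
  have h1 : (d / (2 * m)) ^ 2 ≤ y ^ 2 := by
    rw [← sq_abs y]
    exact pow_le_pow_left₀ (by positivity) hy 2
  have h2 : (τ / (3 * m) * d) ^ 2 = 4 / 9 * (τ ^ 2 * (d / (2 * m)) ^ 2) := by
    field_simp
    ring
  have h3 : τ ^ 2 * (d / (2 * m)) ^ 2 ≤ τ ^ 2 * y ^ 2 := mul_le_mul_of_nonneg_left h1 (by positivity)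
  have h4 : 0 ≤ τ ^ 2 * y ^ 2 := by positivity
  rw [h2, mul_pow]
  linarith

private theorem A2_log1 {m n : ℕ} (hn : 1 ≤ n) (hnm : n ≤ m) :
    ((m - n : ℕ) : ℝ) / (2 * m) ≤ |Real.log n - Real.log m| := by
  have hn' : (0 : ℝ) < n := by exact_mod_cast hn
  have hm' : (0 : ℝ) < m := by exact_mod_cast (lt_of_lt_of_le hn hnm)
  have hnm' : (n : ℝ) ≤ m := by exact_mod_cast hnm
  have h1 := Real.one_sub_inv_le_log_of_pos (div_pos hm' hn')
  rw [Real.log_div hm'.ne' hn'.ne', inv_div] at h1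
  rw [abs_sub_comm]
  refine le_trans ?_ (le_abs_self _)
  refine le_trans ?_ h1
  rw [Nat.cast_sub hnm, div_le_iff₀ (by positivity)]
  have e : (1 - (n : ℝ) / m) * (2 * m) = 2 * (m - n) := by
    field_simp
  rw [e]
  linarith

private theorem A2_log2 {m n : ℕ} (hm : 1 ≤ m) (hnm : m ≤ n) (hn2 : n ≤ 2 * m) :
    ((n - m : ℕ) : ℝ) / (2 * m) ≤ |Real.log n - Real.log m| := by
  have hm' : (0 : ℝ) < m := by exact_mod_cast hm
  have hn' : (0 : ℝ) < n := by exact_mod_cast (lt_of_lt_of_le hm hnm)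
  have hnm' : (m : ℝ) ≤ n := by exact_mod_cast hnm
  have hn2' : (n : ℝ) ≤ 2 * m := by exact_mod_cast hn2
  have h1 := Real.one_sub_inv_le_log_of_pos (div_pos hn' hm')
  rw [Real.log_div hn'.ne' hm'.ne', inv_div] at h1
  refine le_trans ?_ (le_abs_self _)
  refine le_trans ?_ h1
  rw [Nat.cast_sub hnm]
  have e : 1 - (m : ℝ) / n = (n - m) / n := by
    field_simp
  rw [e]
  exact div_le_div_of_nonneg_left (by linarith) hn' hn2'

private theorem A2_far {m n : ℕ} {τ : ℝ} (hm : 1 ≤ m) (hτ : 1 ≤ τ) (hn : 2 * m < n) :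
    τ * Real.exp (-((τ * (Real.log n - Real.log m)) ^ 2 / 2)) ≤
      2 * Real.exp 4 * ((m : ℝ) ^ 2 * (1 / (n : ℝ) ^ 2)) := by
  have hm' : (0 : ℝ) < m := by exact_mod_cast hm
  have hn' : (0 : ℝ) < n := by exact_mod_cast (by omega : 0 < n)
  have hn2 : (2 : ℝ) * m ≤ n := by exact_mod_cast hn.le
  set y := Real.log n - Real.log m with hy
  have hy1 : 1 / 2 ≤ y := by
    have h1 : Real.log 2 ≤ y := by
      rw [hy, ← Real.log_div hn'.ne' hm'.ne']
      exact Real.log_le_log (by norm_num) (by rw [le_div_iff₀ hm']; exact hn2)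
    have h2 := Real.log_two_gt_d9
    linarith
  have hτy : 0 < τ * y := by positivity
  have e1 : Real.exp (-((τ * y) ^ 2 / 2)) ≤
      Real.exp (4 - 2 * y) * Real.exp (-((τ * y) ^ 2 / 4)) := by
    rw [← Real.exp_add]
    refine Real.exp_le_exp.2 ?_
    have t1 : y ^ 2 ≤ (τ * y) ^ 2 := pow_le_pow_left₀ (by linarith) (by nlinarith) 2
    nlinarith [sq_nonneg (y / 2 - 2)]
  have e2 : τ * Real.exp (-((τ * y) ^ 2 / 4)) ≤ 2 := by
    have t1 := A2_exp (z := (τ * y) ^ 2 / 4) (by positivity)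
    have t2 : 1 / (1 + (τ * y) ^ 2 / 4) ≤ 1 / (τ * y) :=
      one_div_le_one_div_of_le hτy (by nlinarith [sq_nonneg (τ * y / 2 - 1)])
    have t3 : τ * (1 / (τ * y)) ≤ 2 := by
      have : τ * (1 / (τ * y)) = 1 / y := by field_simp
      rw [this, div_le_iff₀ (by linarith)]
      linarith
    have t4 : τ * Real.exp (-((τ * y) ^ 2 / 4)) ≤ τ * (1 / (τ * y)) :=
      mul_le_mul_of_nonneg_left (t1.trans t2) (by linarith)
    linarith
  have e3 : Real.exp (4 - 2 * y) = Real.exp 4 * ((m : ℝ) ^ 2 * (1 / (n : ℝ) ^ 2)) := by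
    have t1 : Real.exp (-y) = m / n := by
      rw [hy, neg_sub, Real.exp_sub, Real.exp_log hm', Real.exp_log hn']
    have t2 : (4 - 2 * y) = 4 + (-y + -y) := by ring
    rw [t2, Real.exp_add, Real.exp_add, t1]
    field_simp
  calc τ * Real.exp (-((τ * y) ^ 2 / 2)) ≤
        τ * (Real.exp (4 - 2 * y) * Real.exp (-((τ * y) ^ 2 / 4))) :=
        mul_le_mul_of_nonneg_left e1 (by linarith)
    _ = (τ * Real.exp (-((τ * y) ^ 2 / 4))) * Real.exp (4 - 2 * y) := by ring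
    _ ≤ 2 * Real.exp (4 - 2 * y) := mul_le_mul_of_nonneg_right e2 (Real.exp_pos _).le
    _ = 2 * Real.exp 4 * ((m : ℝ) ^ 2 * (1 / (n : ℝ) ^ 2)) := by rw [e3]; ring

theorem gauss_sum : ∃ C : ℝ, 0 < C ∧ ∀ (s : Finset ℕ) (m : ℕ) (τ : ℝ), 1 ≤ m → 1 ≤ τ →
    (∀ n ∈ s, 1 ≤ n) →
    ∑ n ∈ s, τ * Real.exp (-((τ * (Real.log n - Real.log m)) ^ 2 / 2)) ≤ C * (τ + m) := by
  have hE : 0 < Real.exp 4 := Real.exp_pos 4
  refine ⟨14 + 2 * Real.exp 4, by positivity, fun s m τ hm hτ hs => ?_⟩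
  have hm' : (0 : ℝ) < m := by exact_mod_cast hm
  have hτ0 : 0 < τ := by linarith
  set F : ℕ → ℝ := fun n => τ * Real.exp (-((τ * (Real.log n - Real.log m)) ^ 2 / 2)) with hF
  set g : ℕ → ℝ := fun h => 1 / (1 + (τ / (3 * m) * h) ^ 2) with hg
  have hg0 : ∀ h, 0 ≤ g h := fun h => by
    simp only [hg]
    positivity
  have hG := A2_sum1 (a := τ / (3 * m)) (by positivity) m
  have hG' : τ * ∑ h ∈ range (m + 1), g h ≤ τ + 6 * m := by
    refine (mul_le_mul_of_nonneg_left hG hτ0.le).trans (le_of_eq ?_)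
    field_simp
    ring
  -- splitting
  have hsplit : ∑ n ∈ s, F n = ∑ n ∈ s.filter (fun n => n ≤ m), F n +
      (∑ n ∈ (s.filter (fun n => ¬ n ≤ m)).filter (fun n => n ≤ 2 * m), F n +
      ∑ n ∈ (s.filter (fun n => ¬ n ≤ m)).filter (fun n => ¬ n ≤ 2 * m), F n) := by
    rw [Finset.sum_filter_add_sum_filter_not, Finset.sum_filter_add_sum_filter_not]
  have h1 : ∑ n ∈ s.filter (fun n => n ≤ m), F n ≤ τ * ∑ h ∈ range (m + 1), g h := by
    rw [← Finset.sum_range_reflect, Finset.mul_sum]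
    calc ∑ n ∈ s.filter (fun n => n ≤ m), F n
        ≤ ∑ n ∈ s.filter (fun n => n ≤ m), τ * g (m + 1 - 1 - n) := by
          refine Finset.sum_le_sum fun n hn => ?_
          rw [Finset.mem_filter] at hn
          have t1 := A2_near (m := m) (d := ((m - n : ℕ) : ℝ)) hm hτ (Nat.cast_nonneg _)
            (A2_log1 (hs n hn.1) hn.2)
          exact mul_le_mul_of_nonneg_left t1 hτ0.le
      _ ≤ ∑ n ∈ range (m + 1), τ * g (m + 1 - 1 - n) := by
          refine Finset.sum_le_sum_of_subset_of_nonneg (fun n hn => ?_) fun n _ _ => ?_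
          · rw [Finset.mem_filter] at hn
            rw [Finset.mem_range]
            omega
          · exact mul_nonneg hτ0.le (hg0 _)
  have h2 : ∑ n ∈ (s.filter (fun n => ¬ n ≤ m)).filter (fun n => n ≤ 2 * m), F n ≤
      τ * ∑ h ∈ range (m + 1), g h := by
    have e : ∑ h ∈ range (m + 1), g h = ∑ n ∈ Ico m (2 * m + 1), g (n - m) := by
      rw [Finset.sum_Ico_eq_sum_range, show 2 * m + 1 - m = m + 1 by omega]
      exact Finset.sum_congr rfl fun h _ => by rw [Nat.add_sub_cancel_left]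
    rw [e, Finset.mul_sum]
    calc ∑ n ∈ (s.filter (fun n => ¬ n ≤ m)).filter (fun n => n ≤ 2 * m), F n
        ≤ ∑ n ∈ (s.filter (fun n => ¬ n ≤ m)).filter (fun n => n ≤ 2 * m), τ * g (n - m) := by
          refine Finset.sum_le_sum fun n hn => ?_
          rw [Finset.mem_filter, Finset.mem_filter] at hn
          have t1 := A2_near (m := m) (d := ((n - m : ℕ) : ℝ)) hm hτ (Nat.cast_nonneg _)
            (A2_log2 hm (by omega) hn.2)
          exact mul_le_mul_of_nonneg_left t1 hτ0.le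
      _ ≤ ∑ n ∈ Ico m (2 * m + 1), τ * g (n - m) := by
          refine Finset.sum_le_sum_of_subset_of_nonneg (fun n hn => ?_) fun n _ _ => ?_
          · rw [Finset.mem_filter, Finset.mem_filter] at hn
            rw [Finset.mem_Ico]
            omega
          · exact mul_nonneg hτ0.le (hg0 _)
  have h3 : ∑ n ∈ (s.filter (fun n => ¬ n ≤ m)).filter (fun n => ¬ n ≤ 2 * m), F n ≤
      2 * Real.exp 4 * m := by
    set N := s.sup id + m with hN
    calc ∑ n ∈ (s.filter (fun n => ¬ n ≤ m)).filter (fun n => ¬ n ≤ 2 * m), F n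
        ≤ ∑ n ∈ (s.filter (fun n => ¬ n ≤ m)).filter (fun n => ¬ n ≤ 2 * m),
          2 * Real.exp 4 * ((m : ℝ) ^ 2 * (1 / (n : ℝ) ^ 2)) := by
          refine Finset.sum_le_sum fun n hn => ?_
          rw [Finset.mem_filter, Finset.mem_filter] at hn
          exact A2_far hm hτ (by omega)
      _ ≤ ∑ n ∈ Ioc m N, 2 * Real.exp 4 * ((m : ℝ) ^ 2 * (1 / (n : ℝ) ^ 2)) := by
          refine Finset.sum_le_sum_of_subset_of_nonneg (fun n hn => ?_) fun n _ _ => ?_
          · rw [Finset.mem_filter, Finset.mem_filter] at hn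
            rw [Finset.mem_Ioc]
            have t : n ≤ s.sup id := Finset.le_sup (f := id) hn.1.1
            omega
          · positivity
      _ = 2 * Real.exp 4 * ((m : ℝ) ^ 2 * ∑ n ∈ Ioc m N, ((n : ℝ) ^ 2)⁻¹) := by
          rw [Finset.mul_sum, Finset.mul_sum]
          exact Finset.sum_congr rfl fun n _ => by rw [one_div]
      _ ≤ 2 * Real.exp 4 * ((m : ℝ) ^ 2 * (m : ℝ)⁻¹) := by
          have t1 : ∑ n ∈ Ioc m N, ((n : ℝ) ^ 2)⁻¹ ≤ (m : ℝ)⁻¹ - (N : ℝ)⁻¹ :=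
            sum_Ioc_inv_sq_le_sub (by omega) (by omega)
          have t2 : (0 : ℝ) ≤ (N : ℝ)⁻¹ := by positivity
          gcongr
          linarith
      _ = 2 * Real.exp 4 * m := by
          field_simp
  rw [hsplit]
  have h4 : 0 ≤ Real.exp 4 * τ := by positivity
  nlinarith

private theorem A2_conj (s : Finset ℕ) (c : ℕ → ℝ) (t : ℝ) :
    (starRingEnd ℂ) (DP s c t) = ∑ m ∈ s, ((c m / m : ℝ) : ℂ) *
      Complex.exp (((Real.log m * t : ℝ) : ℂ) * Complex.I) := by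
  unfold DP
  rw [map_sum]
  refine Finset.sum_congr rfl fun m _ => ?_
  rw [map_mul, Complex.conj_ofReal, ← Complex.exp_conj, map_mul, Complex.conj_I,
    Complex.conj_ofReal]
  congr 2
  push_cast
  ring

private theorem A2_bd (s : Finset ℕ) (c : ℕ → ℝ) : ∃ B : ℝ, 0 ≤ B ∧ ∀ t, ‖DP s c t‖ ≤ B :=
  ⟨∑ n ∈ s, |c n| / n, Finset.sum_nonneg fun n _ => by positivity, fun t => DP_norm_le s c t⟩

private theorem A2_integrable (s : Finset ℕ) (c : ℕ → ℝ) {τ : ℝ} (hτ : 0 < τ) :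
    Integrable (fun t : ℝ => Real.exp (-((t / τ) ^ 2 / 2)) * ‖DP s c t‖ ^ 2) := by
  obtain ⟨B, hB0, hB⟩ := A2_bd s c
  have h := gauss_integrable hτ (fun t => ((‖DP s c t‖ ^ 2 : ℝ) : ℂ))
    (Complex.continuous_ofReal.comp ((DP_continuous s c).norm.pow 2)) (B ^ 2) (fun t => by
      rw [Complex.norm_real, Real.norm_of_nonneg (by positivity)]
      exact pow_le_pow_left₀ (norm_nonneg _) (hB t) 2) 0
  refine h.re.congr (Filter.Eventually.of_forall fun t => ?_)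
  simp only [zero_mul, Complex.ofReal_zero, Complex.exp_zero, mul_one]
  rw [← Complex.ofReal_mul]
  exact Complex.ofReal_re _

private theorem A2_int (s : Finset ℕ) (c : ℕ → ℝ) {τ : ℝ} (hτ : 0 < τ) :
    ∫ t : ℝ, Real.exp (-((t / τ) ^ 2 / 2)) * ‖DP s c t‖ ^ 2 =
      ∑ m ∈ s, (c m / m) * (2 * Real.pi * JD s c τ (Real.log m)) := by
  obtain ⟨B, hB0, hB⟩ := A2_bd s c
  apply Complex.ofReal_injective
  rw [← integral_complex_ofReal]
  have e1 : ∀ t : ℝ, ((Real.exp (-((t / τ) ^ 2 / 2)) * ‖DP s c t‖ ^ 2 : ℝ) : ℂ) =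
      ∑ m ∈ s, ((c m / m : ℝ) : ℂ) * (((Real.exp (-((t / τ) ^ 2 / 2)) : ℝ) : ℂ) *
        Complex.exp (((Real.log m * t : ℝ) : ℂ) * Complex.I) * DP s c t) := by
    intro t
    have t1 : ((‖DP s c t‖ ^ 2 : ℝ) : ℂ) = (starRingEnd ℂ) (DP s c t) * DP s c t := by
      rw [Complex.conj_mul']
      push_cast
      rfl
    rw [Complex.ofReal_mul, t1, A2_conj, Finset.sum_mul, Finset.mul_sum]
    exact Finset.sum_congr rfl fun m _ => by ring
  simp only [e1]
  rw [integral_finsetSum]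
  · rw [Complex.ofReal_sum]
    refine Finset.sum_congr rfl fun m _ => ?_
    rw [integral_const_mul, fourier_JD s c hτ, ← Complex.ofReal_mul]
  · intro m _
    exact (gauss_integrable hτ (DP s c) (DP_continuous s c) B hB (Real.log m)).const_mul _

theorem mvt : ∃ C : ℝ, 0 < C ∧ ∀ (s : Finset ℕ) (c : ℕ → ℝ) (τ N : ℝ), 1 ≤ τ → 1 ≤ N →
    (∀ n ∈ s, 1 ≤ n ∧ N ≤ (n : ℝ)) →
    ∫ t : ℝ, Real.exp (-((t / τ) ^ 2 / 2)) * ‖DP s c t‖ ^ 2 ≤
      C * (τ / N + 1) * ∑ n ∈ s, (c n) ^ 2 / n := by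
  obtain ⟨C, hC, hG⟩ := gauss_sum
  set κ : ℝ := 2 * Real.pi / Real.sqrt (2 * Real.pi) with hκ
  have hκ0 : 0 < κ := by positivity
  refine ⟨κ * C, by positivity, fun s c τ N hτ hN hs => ?_⟩
  have hτ0 : 0 < τ := by linarith
  have hN0 : 0 < N := by linarith
  rw [A2_int s c hτ0]
  set K : ℕ → ℕ → ℝ := fun m n => τ * Real.exp (-((τ * (Real.log n - Real.log m)) ^ 2 / 2)) with hK
  have hK0 : ∀ m n, 0 ≤ K m n := fun m n => by
    simp only [hK]
    positivity
  have hKs : ∀ m n, K m n = K n m := fun m n => by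
    simp only [hK]
    congr 3
    ring
  have e1 : ∑ m ∈ s, (c m / m) * (2 * Real.pi * JD s c τ (Real.log m)) =
      κ * ∑ m ∈ s, ∑ n ∈ s, (c m / m) * (c n / n) * K m n := by
    rw [Finset.mul_sum]
    refine Finset.sum_congr rfl fun m _ => ?_
    unfold JD gs
    rw [Finset.mul_sum, Finset.mul_sum, Finset.mul_sum]
    refine Finset.sum_congr rfl fun n _ => ?_
    rw [hκ]
    ring
  have e2 : ∑ m ∈ s, ∑ n ∈ s, (c m / m) * (c n / n) * K m n ≤
      ∑ m ∈ s, (c m / m) ^ 2 * ∑ n ∈ s, K m n := by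
    have t1 : ∑ m ∈ s, ∑ n ∈ s, (c m / m) * (c n / n) * K m n ≤
        ∑ m ∈ s, ∑ n ∈ s, (1 / 2 * ((c m / m) ^ 2 * K m n) + 1 / 2 * ((c n / n) ^ 2 * K n m)) := by
      refine Finset.sum_le_sum fun m _ => Finset.sum_le_sum fun n _ => ?_
      rw [hKs n m]
      have := mul_nonneg (sq_nonneg (c m / m - c n / n)) (hK0 m n)
      nlinarith
    refine t1.trans (le_of_eq ?_)
    simp only [Finset.sum_add_distrib]
    have t2 : ∑ m ∈ s, ∑ n ∈ s, 1 / 2 * ((c n / n) ^ 2 * K n m) =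
        ∑ m ∈ s, ∑ n ∈ s, 1 / 2 * ((c m / m) ^ 2 * K m n) := Finset.sum_comm
    rw [t2, ← Finset.sum_add_distrib]
    refine Finset.sum_congr rfl fun m _ => ?_
    rw [← Finset.mul_sum, ← Finset.mul_sum]
    ring
  have e3 : ∑ m ∈ s, (c m / m) ^ 2 * ∑ n ∈ s, K m n ≤
      ∑ m ∈ s, C * (τ / N + 1) * ((c m) ^ 2 / m) := by
    refine Finset.sum_le_sum fun m hm => ?_
    have hm1 := (hs m hm).1
    have hmN := (hs m hm).2
    have hm' : (0 : ℝ) < m := by exact_mod_cast hm1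
    have t1 := hG s m τ hm1 hτ fun n hn => (hs n hn).1
    have t2 : (c m / m) ^ 2 * ∑ n ∈ s, K m n ≤ (c m / m) ^ 2 * (C * (τ + m)) :=
      mul_le_mul_of_nonneg_left t1 (sq_nonneg _)
    have t3 : (c m / m) ^ 2 * (C * (τ + m)) = C * (τ / m + 1) * ((c m) ^ 2 / m) := by
      field_simp
    have t4 : τ / m ≤ τ / N := div_le_div_of_nonneg_left hτ0.le hN0 hmN
    have t5 : C * (τ / m + 1) * ((c m) ^ 2 / m) ≤ C * (τ / N + 1) * ((c m) ^ 2 / m) := by
      gcongr
    linarith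
  rw [e1]
  calc κ * ∑ m ∈ s, ∑ n ∈ s, (c m / m) * (c n / n) * K m n
      ≤ κ * ∑ m ∈ s, C * (τ / N + 1) * ((c m) ^ 2 / m) :=
        mul_le_mul_of_nonneg_left (e2.trans e3) hκ0.le
    _ = κ * C * (τ / N + 1) * ∑ n ∈ s, (c n) ^ 2 / n := by
        rw [← Finset.mul_sum]
        ring

theorem mvt_sharp : ∃ C : ℝ, 0 < C ∧ ∀ (s : Finset ℕ) (c : ℕ → ℝ) (τ N : ℝ), 1 ≤ τ → 1 ≤ N →
    (∀ n ∈ s, 1 ≤ n ∧ N ≤ (n : ℝ)) →
    ∫ t in Set.Icc (-τ) τ, ‖DP s c t‖ ^ 2 ≤ C * (τ / N + 1) * ∑ n ∈ s, (c n) ^ 2 / n := by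
  obtain ⟨C, hC, h⟩ := mvt
  refine ⟨Real.exp (1 / 2) * C, by positivity, fun s c τ N hτ hN hs => ?_⟩
  have hτ0 : 0 < τ := by linarith
  have h1 := h s c τ N hτ hN hs
  have hI := A2_integrable s c hτ0
  have h2 : ∫ t in Set.Icc (-τ) τ, ‖DP s c t‖ ^ 2 ≤
      ∫ t in Set.Icc (-τ) τ, Real.exp (1 / 2) *
        (Real.exp (-((t / τ) ^ 2 / 2)) * ‖DP s c t‖ ^ 2) := by
    refine setIntegral_mono_on ?_ (hI.const_mul _).integrableOn measurableSet_Icc fun t ht => ?_
    · exact ((DP_continuous s c).norm.pow 2).continuousOn.integrableOn_compact isCompact_Icc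
    · have t1 : (t / τ) ^ 2 ≤ 1 := by
        rw [sq_le_one_iff_abs_le_one, abs_div, abs_of_pos hτ0, div_le_one hτ0]
        exact abs_le.2 ht
      have t2 : 1 ≤ Real.exp (1 / 2) * Real.exp (-((t / τ) ^ 2 / 2)) := by
        rw [← Real.exp_add]
        exact Real.one_le_exp (by linarith)
      have t3 : 0 ≤ ‖DP s c t‖ ^ 2 := by positivity
      nlinarith
  have h3 : ∫ t in Set.Icc (-τ) τ, Real.exp (1 / 2) *
        (Real.exp (-((t / τ) ^ 2 / 2)) * ‖DP s c t‖ ^ 2) ≤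
      ∫ t : ℝ, Real.exp (1 / 2) * (Real.exp (-((t / τ) ^ 2 / 2)) * ‖DP s c t‖ ^ 2) :=
    setIntegral_le_integral (hI.const_mul _) (Filter.Eventually.of_forall fun t => by positivity)
  have h4 := h2.trans h3
  rw [integral_const_mul] at h4
  calc ∫ t in Set.Icc (-τ) τ, ‖DP s c t‖ ^ 2 ≤
        Real.exp (1 / 2) * ∫ t : ℝ, Real.exp (-((t / τ) ^ 2 / 2)) * ‖DP s c t‖ ^ 2 := h4
    _ ≤ Real.exp (1 / 2) * (C * (τ / N + 1) * ∑ n ∈ s, (c n) ^ 2 / n) :=
        mul_le_mul_of_nonneg_left h1 (Real.exp_pos _).le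
    _ = Real.exp (1 / 2) * C * (τ / N + 1) * ∑ n ∈ s, (c n) ^ 2 / n := by ring

end Pool.Agent.Lib.MP_9a8698_nt
end

section

section

/-!
H1. Heath-Brown's identity.

PROOF. In the commutative ring `ArithmeticFunction ℝ` put `E = 1 - muz z * zR`. For `1 ≤ n ≤ z`, `(muz z * zR) n` is
`(μ * ζ) n` (only values at divisors `≤ n ≤ z` occur), so `E n = 0` for `n ≤ z`. Induction on `K`: `(E^K) n = 0` for `n ≤ z^K`, `1 ≤ K`
(if `n = x y` with `E x ≠ 0`, `(E^K) y ≠ 0` then `x ≥ z+1`, `y ≥ z^K + 1`, so `n > z^(K+1)`). Hence `(Λ * E^K) n = 0` for `n ≤ z^K`.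
Expand by the binomial theorem, `Λ * E^K = ∑_{j ≤ K} C(K,j) (-1)^j (muz z)^j zR^j Λ`, and for `j ≥ 1`,
`zR^j * Λ = zR^(j-1) * log` (`ArithmeticFunction.vonMangoldt_mul_zeta`).
-/

set_option autoImplicit false

open Finset

namespace Pool.Agent.Lib.MP_9a8698_nt

/-- The function `1` as a real arithmetic function. -/
noncomputable def zR : ArithmeticFunction ℝ :=
  ((ArithmeticFunction.zeta : ArithmeticFunction ℕ) : ArithmeticFunction ℝ)

/-- The Moebius function restricted to `n ≤ z`. -/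
noncomputable def muz (z : ℕ) : ArithmeticFunction ℝ :=
  ⟨fun n => if n ≤ z then ((ArithmeticFunction.moebius n : ℤ) : ℝ) else 0, by simp⟩

theorem zR_apply {n : ℕ} (hn : 1 ≤ n) : zR n = 1 := by
  unfold zR
  rw [ArithmeticFunction.natCoe_apply, ArithmeticFunction.zeta_apply_ne (by omega)]
  simp

theorem muz_abs_le (z n : ℕ) : |muz z n| ≤ 1 := by
  unfold muz
  rw [ArithmeticFunction.coe_mk]
  split_ifs
  · have h := ArithmeticFunction.abs_moebius_le_one (n := n)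
    exact_mod_cast h
  · simp

private theorem h1_sum_apply {ι : Type*} (s : Finset ι) (f : ι → ArithmeticFunction ℝ) (n : ℕ) :
    (∑ i ∈ s, f i) n = ∑ i ∈ s, f i n := by
  classical
  induction s using Finset.induction_on with
  | empty => simp
  | insert a s ha ih =>
    rw [Finset.sum_insert ha, Finset.sum_insert ha, ArithmeticFunction.add_apply, ih]

private theorem h1_E (z n : ℕ) (hn : n ≤ z) :
    (-(muz z * zR) + 1 : ArithmeticFunction ℝ) n = 0 := by
  rcases Nat.eq_zero_or_pos n with rfl | h0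
  · exact ArithmeticFunction.map_zero
  · rw [ArithmeticFunction.add_apply, ArithmeticFunction.neg_apply]
    have h1 : (muz z * zR) n = (1 : ArithmeticFunction ℝ) n := by
      rw [← ArithmeticFunction.coe_moebius_mul_coe_zeta (R := ℝ), ArithmeticFunction.mul_apply,
        ArithmeticFunction.mul_apply]
      refine Finset.sum_congr rfl fun x hx => ?_
      have h2 : x.1 ≤ n := Nat.le_of_dvd h0
        (Dvd.intro _ (Nat.mem_divisorsAntidiagonal.1 hx).1)
      unfold muz zR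
      rw [ArithmeticFunction.coe_mk, if_pos (h2.trans hn), ArithmeticFunction.intCoe_apply]
    rw [h1, neg_add_cancel]

private theorem h1_pow (z K : ℕ) (hK : 1 ≤ K) : ∀ n ≤ z ^ K,
    ((-(muz z * zR) + 1 : ArithmeticFunction ℝ) ^ K) n = 0 := by
  induction K, hK using Nat.le_induction with
  | base =>
    intro n hn
    rw [pow_one] at hn ⊢
    exact h1_E z n hn
  | succ K hK ih =>
    intro n hn
    rw [pow_succ, ArithmeticFunction.mul_apply]
    refine Finset.sum_eq_zero fun x hx => ?_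
    have hx1 := (Nat.mem_divisorsAntidiagonal.1 hx).1
    by_cases h1 : x.1 ≤ z ^ K
    · rw [ih x.1 h1, zero_mul]
    · by_cases h2 : x.2 ≤ z
      · rw [h1_E z x.2 h2, mul_zero]
      · exfalso
        rw [not_le] at h1 h2
        have h3 : z ^ K * z < x.1 * x.2 := Nat.mul_lt_mul_of_lt_of_le h1 h2.le
          (by omega)
        rw [hx1, ← pow_succ] at h3
        omega

theorem heath_brown (K z n : ℕ) (hK : 1 ≤ K) (hn : 1 ≤ n) (hnz : n ≤ z ^ K) :
    ArithmeticFunction.vonMangoldt n = ∑ j ∈ Icc 1 K, (-1 : ℝ) ^ (j + 1) * (K.choose j : ℝ) *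
      ((muz z) ^ j * zR ^ (j - 1) * ArithmeticFunction.log) n := by
  have h0 : (ArithmeticFunction.vonMangoldt *
      (-(muz z * zR) + 1 : ArithmeticFunction ℝ) ^ K) n = 0 := by
    rw [ArithmeticFunction.mul_apply]
    refine Finset.sum_eq_zero fun x hx => ?_
    have h2 : x.2 ≤ n := Nat.le_of_dvd (by omega)
      (Dvd.intro_left _ (Nat.mem_divisorsAntidiagonal.1 hx).1)
    rw [h1_pow z K hK x.2 (h2.trans hnz), mul_zero]
  have h1 : ArithmeticFunction.vonMangoldt * (-(muz z * zR) + 1 : ArithmeticFunction ℝ) ^ K =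
      ∑ j ∈ range (K + 1), ((-1 : ℝ) ^ j * (K.choose j : ℝ)) •
        (ArithmeticFunction.vonMangoldt * (muz z) ^ j * zR ^ j) := by
    rw [add_pow, Finset.mul_sum]
    refine Finset.sum_congr rfl fun j _ => ?_
    rw [Algebra.smul_def, map_mul, map_pow, map_neg, map_one, map_natCast, neg_pow (muz z * zR),
      mul_pow]
    ring
  rw [h1, h1_sum_apply, Finset.sum_range_succ'] at h0
  have h2 : ∑ j ∈ Icc 1 K, (-1 : ℝ) ^ (j + 1) * (K.choose j : ℝ) *
      ((muz z) ^ j * zR ^ (j - 1) * ArithmeticFunction.log) n =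
      ∑ m ∈ range K, (-1 : ℝ) ^ (m + 1 + 1) * (K.choose (m + 1) : ℝ) *
      ((muz z) ^ (m + 1) * zR ^ m * ArithmeticFunction.log) n := by
    have h3 : Icc 1 K = Ico (0 + 1) (K + 1) := by
      ext a
      simp only [Finset.mem_Icc, Finset.mem_Ico]
      omega
    rw [h3, ← Finset.sum_Ico_add', ← Finset.range_eq_Ico]
    rfl
  rw [h2]
  have h4 : ∀ m : ℕ, (((-1 : ℝ) ^ (m + 1) * (K.choose (m + 1) : ℝ)) •
      (ArithmeticFunction.vonMangoldt * (muz z) ^ (m + 1) * zR ^ (m + 1))) n =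
      -((-1 : ℝ) ^ (m + 1 + 1) * (K.choose (m + 1) : ℝ) *
        ((muz z) ^ (m + 1) * zR ^ m * ArithmeticFunction.log) n) := by
    intro m
    have h5 : ArithmeticFunction.vonMangoldt * (muz z) ^ (m + 1) * zR ^ (m + 1) =
        (muz z) ^ (m + 1) * zR ^ m * ArithmeticFunction.log := by
      rw [← ArithmeticFunction.vonMangoldt_mul_zeta]
      show _ = (muz z) ^ (m + 1) * zR ^ m * (ArithmeticFunction.vonMangoldt * zR)
      ring
    rw [h5, ArithmeticFunction.smul_map, smul_eq_mul]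
    ring
  rw [Finset.sum_congr rfl fun m _ => h4 m, Finset.sum_neg_distrib] at h0
  have h6 : (((-1 : ℝ) ^ 0 * (K.choose 0 : ℝ)) •
      (ArithmeticFunction.vonMangoldt * (muz z) ^ 0 * zR ^ 0)) n =
      ArithmeticFunction.vonMangoldt n := by
    rw [pow_zero, pow_zero, pow_zero, mul_one, mul_one, Nat.choose_zero_right, Nat.cast_one,
      mul_one, one_smul]
  rw [h6] at h0
  linarith

end Pool.Agent.Lib.MP_9a8698_nt
end

section

/-!
H2. Dyadic blocks of arithmetic functions.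

PROOF. `blk_sum`: for `1 ≤ n < 2^(J+1)` there is exactly one `e ≤ J` with `2^e ≤ n < 2^(e+1)` (`e = Nat.log 2 n`); for `n = 0` both sides
are `0`. `prod_congr_le`: `(∏ c i) M` only depends on the values at `n ≤ M` (induction over the finset; `mul_apply`, the
divisors of `M` are `≤ M`; `M = 0` gives `0`). `prod_blk_sum`: replace `c i` by `∑_{e ≤ J} blk (c i) e`, which agrees with `c i` on
`[0, 2^(J+1))`, and expand the product of sums (`Finset.prod_univ_sum`). `prod_blk_supp`: induction over the finset: if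
`(f * g) M ≠ 0` then `M = x y` with `f x ≠ 0`, `g y ≠ 0`, and `2^a ≤ x ≤ 2^(a+1)`, `2^b ≤ y ≤ 2^(b+n)` multiply.
-/

set_option autoImplicit false

open Finset

namespace Pool.Agent.Lib.MP_9a8698_nt

/-- The restriction of `c` to the dyadic block `[2^e, 2^(e+1))`. -/
noncomputable def blk (c : ArithmeticFunction ℝ) (e : ℕ) : ArithmeticFunction ℝ :=
  ⟨fun n => if 2 ^ e ≤ n ∧ n < 2 ^ (e + 1) then c n else 0, by simp⟩

private theorem h2_sum_apply {α : Type*} (s : Finset α) (f : α → ArithmeticFunction ℝ) (n : ℕ) :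
    (∑ a ∈ s, f a) n = ∑ a ∈ s, f a n := by
  classical
  induction s using Finset.induction_on with
  | empty => simp
  | insert a s ha ih => rw [sum_insert ha, sum_insert ha, ArithmeticFunction.add_apply, ih]

theorem blk_sum (c : ArithmeticFunction ℝ) (J n : ℕ) (hn : n < 2 ^ (J + 1)) :
    ∑ e ∈ range (J + 1), blk c e n = c n := by
  rcases Nat.eq_zero_or_pos n with h0 | h0
  · subst h0
    simp
  have hb : ∀ e : ℕ, blk c e n = if 2 ^ e ≤ n ∧ n < 2 ^ (e + 1) then c n else 0 := fun _ => rfl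
  have h1 : 2 ^ Nat.log 2 n ≤ n := Nat.pow_log_le_self 2 h0.ne'
  have h2 : n < 2 ^ (Nat.log 2 n + 1) := Nat.lt_pow_succ_log_self one_lt_two n
  rw [sum_eq_single (Nat.log 2 n)]
  · rw [hb, if_pos ⟨h1, h2⟩]
  · intro e _ he
    rw [hb, if_neg]
    rintro ⟨h3, h4⟩
    apply he
    have h5 : e ≤ Nat.log 2 n := (Nat.le_log_iff_pow_le one_lt_two h0.ne').2 h3
    have h6 : Nat.log 2 n < e + 1 := Nat.log_lt_of_lt_pow h0.ne' h4
    omega
  · intro h3
    exfalso
    apply h3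
    rw [mem_range]
    exact Nat.log_lt_of_lt_pow h0.ne' hn

theorem prod_congr_le {ι : Type} (I : Finset ι) (c d : ι → ArithmeticFunction ℝ) (M : ℕ)
    (h : ∀ i ∈ I, ∀ n ≤ M, c i n = d i n) : (∏ i ∈ I, c i) M = (∏ i ∈ I, d i) M := by
  classical
  suffices H : ∀ m ≤ M, (∏ i ∈ I, c i) m = (∏ i ∈ I, d i) m from H M le_rfl
  induction I using Finset.induction_on with
  | empty => intro m _; simp
  | insert a s ha ih =>
    intro m hm
    rw [prod_insert ha, prod_insert ha, ArithmeticFunction.mul_apply, ArithmeticFunction.mul_apply]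
    refine sum_congr rfl fun x hx => ?_
    have hx1 : x.1 ≤ m := by
      have := Nat.fst_mem_divisors_of_mem_antidiagonal hx
      exact Nat.divisor_le this
    have hx2 : x.2 ≤ m := by
      have := Nat.snd_mem_divisors_of_mem_antidiagonal hx
      exact Nat.divisor_le this
    rw [h a (mem_insert_self a s) x.1 (hx1.trans hm),
      ih (fun i hi => h i (mem_insert_of_mem hi)) x.2 (hx2.trans hm)]

theorem prod_blk_sum {ι : Type} [Fintype ι] [DecidableEq ι] (c : ι → ArithmeticFunction ℝ)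
    (J M : ℕ) (hM : M < 2 ^ (J + 1)) :
    (∏ i, c i) M = ∑ e ∈ Fintype.piFinset (fun _ : ι => range (J + 1)),
      (∏ i, blk (c i) (e i)) M := by
  have h1 : (∏ i, c i) M = (∏ i, ∑ e ∈ range (J + 1), blk (c i) e) M := by
    refine prod_congr_le _ _ _ M fun i _ n hn => ?_
    rw [h2_sum_apply, blk_sum (c i) J n (hn.trans_lt hM)]
  rw [h1, Finset.prod_univ_sum, h2_sum_apply]

theorem prod_blk_supp {ι : Type} (I : Finset ι) (c : ι → ArithmeticFunction ℝ) (e : ι → ℕ) (M : ℕ)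
    (h : (∏ i ∈ I, blk (c i) (e i)) M ≠ 0) :
    2 ^ (∑ i ∈ I, e i) ≤ M ∧ M ≤ 2 ^ (∑ i ∈ I, e i + #I) := by
  classical
  induction I using Finset.induction_on generalizing M with
  | empty =>
    have h1 : M = 1 := by
      by_contra h2
      apply h
      rw [prod_empty, ArithmeticFunction.one_apply_ne h2]
    subst h1
    simp
  | insert a s ha ih =>
    rw [prod_insert ha, ArithmeticFunction.mul_apply] at h
    obtain ⟨x, hx, hx0⟩ := exists_ne_zero_of_sum_ne_zero h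
    have h1 : blk (c a) (e a) x.1 ≠ 0 := left_ne_zero_of_mul hx0
    have h2 : (∏ i ∈ s, blk (c i) (e i)) x.2 ≠ 0 := right_ne_zero_of_mul hx0
    have h3 : 2 ^ e a ≤ x.1 ∧ x.1 < 2 ^ (e a + 1) := by
      by_contra h4
      apply h1
      show (if 2 ^ e a ≤ x.1 ∧ x.1 < 2 ^ (e a + 1) then c a x.1 else 0) = 0
      rw [if_neg h4]
    obtain ⟨h5, h6⟩ := ih x.2 h2
    have h7 : x.1 * x.2 = M := (Nat.mem_divisorsAntidiagonal.1 hx).1
    rw [sum_insert ha, card_insert_of_notMem ha, ← h7]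
    constructor
    · rw [pow_add]
      exact Nat.mul_le_mul h3.1 h5
    · have h8 : e a + ∑ i ∈ s, e i + (#s + 1) = (e a + 1) + (∑ i ∈ s, e i + #s) := by ring
      rw [h8, pow_add]
      exact Nat.mul_le_mul h3.2.le h6

end Pool.Agent.Lib.MP_9a8698_nt
end

section

/-!
H3. Dirichlet polynomials of convolutions, and the norms `nm`.

PROOF. `DP_mul`: `∑_{n ≤ Z} (c*d)(n)/n n^(-it)`, insert `(c*d)(n) = ∑_{xy = n} c(x) d(y)` (`mul_apply`), the pairs `(x,y)` with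
`x ≤ X`, `y ≤ Y` are the only ones with a nonzero term and all their products are in `Icc 1 Z`; `Finset.sum_sigma'`,
`Finset.sum_nbij'` or `Finset.sum_comm'`; `log(xy) = log x + log y`. `DP_ext_range`: the extra terms vanish. `DP_prod_blk`: induction over
the finset with `DP_mul` and `prod_blk_supp` (the product over `I` is supported in `[1, 2^(∑ e + #I)]`). `DP_conv_three`: two times
`DP_mul`. `nm_mul`: `|c*d| ≤ |c|*|d|` and every pair `x y = n ≤ Z` has `x, y ≤ Z`. `nm_blk`: `∑_{2^e ≤ n < 2^(e+1)} 1/n ≤ 1`.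
`sum_conv`: the general form of the rearrangement: for every `φ`,
`∑_{n ≤ Z} (c*d)(n) φ(n) = ∑_{x ≤ X} ∑_{y ≤ Y} c(x) d(y) φ(xy)`.
-/

set_option autoImplicit false

open Finset

namespace Pool.Agent.Lib.MP_9a8698_nt

private theorem h3_sum_conv {R : Type} [CommSemiring R] (ψ : ℝ →+* R)
    (c d : ArithmeticFunction ℝ) (X Y Z : ℕ) (hc : ∀ n, X < n → c n = 0)
    (hd : ∀ n, Y < n → d n = 0) (hZ : X * Y ≤ Z) (φ : ℕ → R) :
    ∑ n ∈ Icc 1 Z, ψ ((c * d) n) * φ n =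
      ∑ x ∈ Icc 1 X, ∑ y ∈ Icc 1 Y, ψ (c x) * ψ (d y) * φ (x * y) := by
  classical
  rw [← Finset.sum_product' (Icc 1 X) (Icc 1 Y) (fun x y => ψ (c x) * ψ (d y) * φ (x * y))]
  have hmaps : ∀ p ∈ Icc 1 X ×ˢ Icc 1 Y, p.1 * p.2 ∈ Icc 1 Z := by
    intro p hp
    rw [mem_product, mem_Icc, mem_Icc] at hp
    rw [mem_Icc]
    exact ⟨Nat.mul_pos hp.1.1 hp.2.1, (Nat.mul_le_mul hp.1.2 hp.2.2).trans hZ⟩
  rw [← Finset.sum_fiberwise_of_maps_to hmaps]
  refine Finset.sum_congr rfl fun n hn => ?_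
  rw [mem_Icc] at hn
  rw [ArithmeticFunction.mul_apply, map_sum, Finset.sum_mul]
  symm
  have hsub : (Icc 1 X ×ˢ Icc 1 Y).filter (fun p => p.1 * p.2 = n) ⊆ n.divisorsAntidiagonal := by
    intro p hp
    rw [mem_filter] at hp
    rw [Nat.mem_divisorsAntidiagonal]
    exact ⟨hp.2, by omega⟩
  simp only [map_mul]
  rw [← Finset.sum_subset hsub (f := fun p => ψ (c p.1) * ψ (d p.2) * φ n)]
  · refine Finset.sum_congr rfl fun p hp => ?_
    rw [mem_filter] at hp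
    rw [hp.2]
  · intro p hp hp2
    rw [Nat.mem_divisorsAntidiagonal] at hp
    have hp0 : p.1 * p.2 ≠ 0 := by rw [hp.1]; exact hp.2
    have h1 : 1 ≤ p.1 := Nat.one_le_iff_ne_zero.mpr (left_ne_zero_of_mul hp0)
    have h2 : 1 ≤ p.2 := Nat.one_le_iff_ne_zero.mpr (right_ne_zero_of_mul hp0)
    by_cases hX : X < p.1
    · rw [hc _ hX, map_zero, zero_mul, zero_mul]
    · by_cases hY : Y < p.2
      · rw [hd _ hY, map_zero, mul_zero, zero_mul]
      · exfalso
        apply hp2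
        rw [mem_filter, mem_product, mem_Icc, mem_Icc]
        exact ⟨⟨⟨h1, by omega⟩, ⟨h2, by omega⟩⟩, hp.1⟩

theorem sum_conv (c d : ArithmeticFunction ℝ) (X Y Z : ℕ) (hc : ∀ n, X < n → c n = 0)
    (hd : ∀ n, Y < n → d n = 0) (hZ : X * Y ≤ Z) (φ : ℕ → ℝ) :
    ∑ n ∈ Icc 1 Z, (c * d) n * φ n = ∑ x ∈ Icc 1 X, ∑ y ∈ Icc 1 Y, c x * d y * φ (x * y) := by
  exact h3_sum_conv (RingHom.id ℝ) c d X Y Z hc hd hZ φ

theorem DP_mul (c d : ArithmeticFunction ℝ) (X Y Z : ℕ) (hc : ∀ n, X < n → c n = 0)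
    (hd : ∀ n, Y < n → d n = 0) (hZ : X * Y ≤ Z) (t : ℝ) :
    DP (Icc 1 Z) (fun n => (c * d) n) t =
      DP (Icc 1 X) (fun n => c n) t * DP (Icc 1 Y) (fun n => d n) t := by
  have key := h3_sum_conv Complex.ofRealHom c d X Y Z hc hd hZ
    (fun n => ((1 / (n : ℝ) : ℝ) : ℂ) * Complex.exp (((-(t * Real.log n) : ℝ) : ℂ) * Complex.I))
  have e : ∀ (a : ℕ → ℝ) (n : ℕ), ((a n / n : ℝ) : ℂ) *
      Complex.exp (((-(t * Real.log n) : ℝ) : ℂ) * Complex.I) = Complex.ofRealHom (a n) *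
        (((1 / (n : ℝ) : ℝ) : ℂ) * Complex.exp (((-(t * Real.log n) : ℝ) : ℂ) * Complex.I)) := by
    intro a n
    rw [← mul_assoc, Complex.ofRealHom_eq_coe, ← Complex.ofReal_mul, mul_one_div]
  unfold DP
  rw [Finset.sum_congr rfl (fun n _ => e (fun n => (c * d) n) n),
    Finset.sum_congr rfl (fun n _ => e (fun n => c n) n),
    Finset.sum_congr rfl (fun n _ => e (fun n => d n) n), Finset.sum_mul_sum]
  refine key.trans ?_
  refine Finset.sum_congr rfl fun x hx => Finset.sum_congr rfl fun y hy => ?_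
  rw [mem_Icc] at hx hy
  have hx0 : (x : ℝ) ≠ 0 := by
    have : x ≠ 0 := by omega
    exact_mod_cast this
  have hy0 : (y : ℝ) ≠ 0 := by
    have : y ≠ 0 := by omega
    exact_mod_cast this
  have h1 : Complex.exp (((-(t * Real.log ((x * y : ℕ) : ℝ)) : ℝ) : ℂ) * Complex.I) =
      Complex.exp (((-(t * Real.log x) : ℝ) : ℂ) * Complex.I) *
        Complex.exp (((-(t * Real.log y) : ℝ) : ℂ) * Complex.I) := by
    rw [← Complex.exp_add]
    congr 1
    have hl : Real.log ((x * y : ℕ) : ℝ) = Real.log x + Real.log y := by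
      push_cast
      exact Real.log_mul hx0 hy0
    rw [hl]
    push_cast
    ring
  have h2 : ((1 / ((x * y : ℕ) : ℝ) : ℝ) : ℂ) = ((1 / (x : ℝ) : ℝ) : ℂ) * ((1 / (y : ℝ) : ℝ) : ℂ) := by
    rw [← Complex.ofReal_mul]
    congr 1
    push_cast
    rw [one_div_mul_one_div]
  rw [h1, h2]
  ring

theorem DP_ext_range (c : ℕ → ℝ) (X Z : ℕ) (hXZ : X ≤ Z) (hc : ∀ n, X < n → c n = 0) (t : ℝ) :
    DP (Icc 1 Z) c t = DP (Icc 1 X) c t := by
  unfold DP
  symm
  apply Finset.sum_subset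
  · intro n hn
    rw [mem_Icc] at hn ⊢
    omega
  · intro n hn hn2
    rw [mem_Icc] at hn hn2
    rw [hc n (by omega)]
    simp

theorem DP_prod_blk {ι : Type} (I : Finset ι) (c : ι → ArithmeticFunction ℝ) (e : ι → ℕ) (Z : ℕ)
    (hZ : 2 ^ (∑ i ∈ I, e i + #I) ≤ Z) (t : ℝ) :
    DP (Icc 1 Z) (fun n => (∏ i ∈ I, blk (c i) (e i)) n) t =
      ∏ i ∈ I, DP (Ico (2 ^ e i) (2 ^ (e i + 1))) (fun n => c i n) t := by
  classical
  induction I using Finset.induction_on generalizing Z with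
  | empty =>
    simp only [Finset.sum_empty, Finset.card_empty, add_zero, pow_zero] at hZ
    simp only [Finset.prod_empty]
    unfold DP
    rw [Finset.sum_eq_single 1]
    · simp
    · intro n _ hn
      simp [hn]
    · intro hn
      exact absurd (mem_Icc.mpr ⟨le_refl 1, hZ⟩) hn
  | insert i I hi ih =>
    rw [Finset.sum_insert hi, Finset.card_insert_of_notMem hi] at hZ
    rw [Finset.prod_insert hi, Finset.prod_insert hi]
    have hXY : 2 ^ (e i + 1) * 2 ^ (∑ k ∈ I, e k + #I) ≤ Z := by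
      rw [← pow_add]
      refine le_trans (le_of_eq ?_) hZ
      congr 1
      ring
    rw [DP_mul (blk (c i) (e i)) (∏ k ∈ I, blk (c k) (e k)) (2 ^ (e i + 1))
      (2 ^ (∑ k ∈ I, e k + #I)) Z ?_ ?_ hXY t, ih _ le_rfl]
    · congr 1
      unfold DP
      symm
      rw [← Finset.sum_subset (s₁ := Ico (2 ^ e i) (2 ^ (e i + 1)))
        (s₂ := Icc 1 (2 ^ (e i + 1)))]
      · refine Finset.sum_congr rfl fun n hn => ?_
        rw [mem_Ico] at hn
        have h1 : blk (c i) (e i) n = c i n := by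
          simp only [blk, ArithmeticFunction.coe_mk]
          rw [if_pos hn]
        simp only [h1]
      · intro n hn
        rw [mem_Ico] at hn
        rw [mem_Icc]
        have : 0 < 2 ^ e i := by positivity
        omega
      · intro n _ hn2
        rw [mem_Ico] at hn2
        have h1 : blk (c i) (e i) n = 0 := by
          simp only [blk, ArithmeticFunction.coe_mk]
          rw [if_neg hn2]
        simp [h1]
    · intro n hn
      simp only [blk, ArithmeticFunction.coe_mk]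
      rw [if_neg (by omega)]
    · intro n hn
      by_contra hne
      have := (prod_blk_supp I c e n hne).2
      omega

/-- The norm `∑ |c(n)|/n`. -/
noncomputable def nm (c : ℕ → ℝ) (Z : ℕ) : ℝ := ∑ n ∈ Icc 1 Z, |c n| / n

theorem nm_nonneg (c : ℕ → ℝ) (Z : ℕ) : 0 ≤ nm c Z := by
  unfold nm
  exact Finset.sum_nonneg fun n _ => by positivity

theorem nm_mul (c d : ArithmeticFunction ℝ) (Z : ℕ) :
    nm (fun n => (c * d) n) Z ≤ nm (fun n => c n) Z * nm (fun n => d n) Z := by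
  classical
  unfold nm
  have h1 : ∀ n ∈ Icc 1 Z, |(c * d) n| / (n : ℝ) ≤
      ∑ p ∈ n.divisorsAntidiagonal, |c p.1| / p.1 * (|d p.2| / p.2) := by
    intro n hn
    rw [mem_Icc] at hn
    have hn0 : (0 : ℝ) < n := by
      have : 0 < n := by omega
      exact_mod_cast this
    rw [ArithmeticFunction.mul_apply, div_le_iff₀ hn0, Finset.sum_mul]
    refine (Finset.abs_sum_le_sum_abs _ _).trans (Finset.sum_le_sum fun p hp => ?_)
    rw [Nat.mem_divisorsAntidiagonal] at hp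
    have hp0 : p.1 * p.2 ≠ 0 := by rw [hp.1]; exact hp.2
    have h2 : (p.1 : ℝ) ≠ 0 := by exact_mod_cast left_ne_zero_of_mul hp0
    have h3 : (p.2 : ℝ) ≠ 0 := by exact_mod_cast right_ne_zero_of_mul hp0
    rw [abs_mul, ← hp.1]
    push_cast
    apply le_of_eq
    field_simp
  refine (Finset.sum_le_sum h1).trans ?_
  rw [Finset.sum_mul_sum, ← Finset.sum_product' (Icc 1 Z) (Icc 1 Z)
    (fun x y => |c x| / (x : ℝ) * (|d y| / (y : ℝ)))]
  rw [← Finset.sum_biUnion]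
  · refine Finset.sum_le_sum_of_subset_of_nonneg ?_ fun p _ _ => by positivity
    intro p hp
    rw [mem_biUnion] at hp
    obtain ⟨n, hn, hp⟩ := hp
    rw [mem_Icc] at hn
    rw [Nat.mem_divisorsAntidiagonal] at hp
    have hp0 : p.1 * p.2 ≠ 0 := by rw [hp.1]; exact hp.2
    have h2 : 0 < p.1 := Nat.pos_of_ne_zero (left_ne_zero_of_mul hp0)
    have h3 : 0 < p.2 := Nat.pos_of_ne_zero (right_ne_zero_of_mul hp0)
    have h4 : p.1 ≤ p.1 * p.2 := Nat.le_mul_of_pos_right _ h3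
    have h5 : p.2 ≤ p.1 * p.2 := Nat.le_mul_of_pos_left _ h2
    rw [mem_product, mem_Icc, mem_Icc]
    omega
  · intro n _ n' _ hne
    rw [Function.onFun, Finset.disjoint_left]
    intro p hp hp'
    rw [Nat.mem_divisorsAntidiagonal] at hp hp'
    exact hne (hp.1.symm.trans hp'.1)

theorem nm_prod {ι : Type} (I : Finset ι) (c : ι → ArithmeticFunction ℝ) (Z : ℕ) (hZ : 1 ≤ Z) :
    nm (fun n => (∏ i ∈ I, c i) n) Z ≤ ∏ i ∈ I, nm (fun n => c i n) Z := by
  classical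
  induction I using Finset.induction_on with
  | empty =>
    simp only [Finset.prod_empty]
    unfold nm
    rw [Finset.sum_eq_single 1]
    · simp
    · intro n _ hn
      simp [hn]
    · intro hn
      exact absurd (mem_Icc.mpr ⟨le_refl 1, hZ⟩) hn
  | insert i I hi ih =>
    rw [Finset.prod_insert hi, Finset.prod_insert hi]
    exact (nm_mul _ _ Z).trans (mul_le_mul_of_nonneg_left ih (nm_nonneg _ _))

theorem nm_blk (c : ArithmeticFunction ℝ) (e Z : ℕ) (B : ℝ) (hB : 0 ≤ B)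
    (hc : ∀ n, 2 ^ e ≤ n → n < 2 ^ (e + 1) → |c n| ≤ B) : nm (fun n => blk c e n) Z ≤ B := by
  classical
  unfold nm
  have h2e : (0 : ℝ) < 2 ^ e := by positivity
  have h1 : ∀ n ∈ Icc 1 Z, |blk c e n| / (n : ℝ) ≤
      if n ∈ Ico (2 ^ e) (2 ^ (e + 1)) then B / 2 ^ e else 0 := by
    intro n _
    split_ifs with hn
    · rw [mem_Ico] at hn
      have h3 : blk c e n = c n := by
        simp only [blk, ArithmeticFunction.coe_mk]
        rw [if_pos hn]
      rw [h3]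
      have h4 : (2 : ℝ) ^ e ≤ n := by exact_mod_cast hn.1
      exact div_le_div₀ hB (hc n hn.1 hn.2) h2e h4
    · rw [mem_Ico] at hn
      have h3 : blk c e n = 0 := by
        simp only [blk, ArithmeticFunction.coe_mk]
        rw [if_neg hn]
      rw [h3]
      simp
  refine (Finset.sum_le_sum h1).trans ?_
  rw [← Finset.sum_filter]
  calc ∑ n ∈ (Icc 1 Z).filter (fun n => n ∈ Ico (2 ^ e) (2 ^ (e + 1))), B / 2 ^ e
      ≤ ∑ n ∈ Ico (2 ^ e) (2 ^ (e + 1)), B / 2 ^ e := by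
        refine Finset.sum_le_sum_of_subset_of_nonneg ?_ fun _ _ _ => by positivity
        intro n hn
        exact (mem_filter.mp hn).2
    _ = B := by
        rw [Finset.sum_const, Nat.card_Ico, nsmul_eq_mul]
        have h5 : 2 ^ (e + 1) - 2 ^ e = 2 ^ e := by
          rw [pow_succ]
          omega
        rw [h5]
        push_cast
        field_simp

end Pool.Agent.Lib.MP_9a8698_nt
end

section

/-!
H4. The decomposition of `m * Λ` into boxes.

PROOF of `gA_eq`. Let `M` be in the range. If `m ∈ Ms k μ (μ+lam)` divides `M` and `l = M/m`, then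
`l ≥ k^(1+β-3ε₂)/k^(β+2ε₂) = k^(1-5ε₂) > k^(1/2)` (so `l > ⌊k^(1/2)⌋`) and `l ≤ M ≤ k^2` (so `l ≤ ⌊k^2⌋`): hence
`(mA * lA) M = (mA * Λ) M`. Also `l ≤ M ≤ k^(1+β+3ε₂) ≤ k^(19/10) ≤ (k^(2/11)/2)^11 ≤ ⌊k^(2/11)⌋^11` for large `k`, so `heath_brown` (K = 11) applies to
every `l`: `(mA * Λ) M = ∑_j coef (mA * ((muz)^j * zR^(j-1) * log)) M = ∑_j coef (∏ i, cf k μ lam j i) M` (`Fintype.prod_sum_type`,
`Finset.prod_const`). By `prod_blk_sum` (`M ≤ k^2 < 2^(JK k + 1)`) the product is the sum over all `e ∈ piFinset (range (JK k + 1))`; if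
`e ∉ Ej` then the block product vanishes at `M`: `prod_blk_supp` gives `2^(∑ e) ≤ M ≤ 2^(∑ e + 2j+1) ≤ 2^(∑ e + 23)`, so
`k^(1+β-θ/4) ≤ k^(1+β-3ε₂)/2^23 ≤ 2^(∑ e) ≤ k^(1+β+3ε₂) ≤ k^(1+β+θ/4)` for large `k` (since `16 ε₂ ≤ θ`).
-/

set_option autoImplicit false

open Finset

namespace Pool.Agent.Lib.MP_9a8698_nt

/-- The indicator of a finite set (without 0) as an arithmetic function. -/
noncomputable def indA (s : Finset ℕ) (c : ℕ → ℝ) : ArithmeticFunction ℝ :=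
  ⟨fun n => if n ∈ s ∧ n ≠ 0 then c n else 0, by simp⟩

noncomputable def wA (k ε₁ ε₂ : ℝ) : ArithmeticFunction ℝ := indA (Qs k ε₁ ε₂) (fun _ => 1)
noncomputable def mA (k μ lam : ℝ) : ArithmeticFunction ℝ := indA (Ms k μ (μ + lam)) (fun _ => 1)
noncomputable def lA (k : ℝ) : ArithmeticFunction ℝ :=
  indA (Ms k (1 / 2) 2) (fun l => ArithmeticFunction.vonMangoldt l)

/-- The cut-off of the Moebius variables. -/
noncomputable def zK (k : ℝ) : ℕ := ⌊k ^ ((2 : ℝ) / 11)⌋₊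

/-- The number of dyadic blocks. -/
noncomputable def JK (k : ℝ) : ℕ := ⌊2 * Real.logb 2 k⌋₊

/-- The index type of the variables in the `j`-th term of Heath-Brown's identity. -/
abbrev ix (j : ℕ) : Type := Unit ⊕ (Fin j ⊕ (Fin (j - 1) ⊕ Unit))

/-- The coefficient functions of the variables. -/
noncomputable def cf (k μ lam : ℝ) (j : ℕ) : ix j → ArithmeticFunction ℝ :=
  Sum.elim (fun _ => mA k μ lam) (Sum.elim (fun _ => muz (zK k))
    (Sum.elim (fun _ => zR) (fun _ => ArithmeticFunction.log)))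

/-- The dyadic boxes that matter. -/
noncomputable def Ej (k β θ : ℝ) (j : ℕ) : Finset (ix j → ℕ) :=
  (Fintype.piFinset (fun _ : ix j => range (JK k + 1))).filter
    (fun e => k ^ (1 + β - θ / 4) ≤ (2 : ℝ) ^ (∑ i, e i) ∧
      (2 : ℝ) ^ (∑ i, e i) ≤ k ^ (1 + β + θ / 4))

/-- The coefficient in Heath-Brown's identity with `K = 11`. -/
noncomputable def hbc (j : ℕ) : ℝ := (-1 : ℝ) ^ (j + 1) * (Nat.choose 11 j : ℝ)

/-- The sum of all boxes, as an arithmetic function. -/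
noncomputable def gA (k β θ μ lam : ℝ) : ArithmeticFunction ℝ :=
  ∑ j ∈ Icc 1 11, hbc j • ∑ e ∈ Ej k β θ j, ∏ i, blk (cf k μ lam j i) (e i)

/-- The sum of all boxes, as a Dirichlet polynomial. -/
noncomputable def Gf (k β θ μ lam : ℝ) (t : ℝ) : ℂ :=
  ∑ j ∈ Icc 1 11, (hbc j : ℂ) * ∑ e ∈ Ej k β θ j,
    ∏ i, DP (Ico (2 ^ e i) (2 ^ (e i + 1))) (fun n => cf k μ lam j i n) t

private theorem h4_sum_apply {α : Type*} (s : Finset α) (f : α → ArithmeticFunction ℝ) (n : ℕ) :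
    (∑ a ∈ s, f a) n = ∑ a ∈ s, f a n := by
  classical
  induction s using Finset.induction_on with
  | empty => simp
  | insert a s ha ih => rw [sum_insert ha, sum_insert ha, ArithmeticFunction.add_apply, ih]

theorem prod_cf (k μ lam : ℝ) (j : ℕ) :
    ∏ i, cf k μ lam j i =
      mA k μ lam * ((muz (zK k)) ^ j * zR ^ (j - 1) * ArithmeticFunction.log) := by
  simp only [cf, Fintype.prod_sum_type, Sum.elim_inl, Sum.elim_inr, Finset.prod_const,
    Finset.card_univ, Fintype.card_fin, Finset.univ_unique, Finset.card_singleton, pow_one]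
  rw [mul_assoc ((muz (zK k)) ^ j)]

private theorem h4_card (j : ℕ) (hj : 1 ≤ j) (hj8 : j ≤ 11) :
    #(univ : Finset (ix j)) ≤ 23 := by
  rw [Finset.card_univ]
  simp only [ix, Fintype.card_sum, Fintype.card_fin, Fintype.card_unit]
  omega

private theorem h4_floor {k : ℝ} (hk : 2048 ^ 10 ≤ k) (y : ℕ) (hy : (y : ℝ) ≤ k ^ ((19 : ℝ) / 10)) :
    y ≤ zK k ^ 11 := by
  have hk0 : 0 < k := lt_of_lt_of_le (by norm_num) hk
  have hk1 : 1 ≤ k := le_trans (by norm_num) hk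
  set q : ℝ := k ^ ((2 : ℝ) / 11) with hq
  have hq1 : 1 ≤ q := Real.one_le_rpow hk1 (by norm_num)
  have hz : q / 2 ≤ (zK k : ℝ) := by
    have h1 := Nat.lt_floor_add_one q
    have h2 : 1 ≤ ⌊q⌋₊ := Nat.le_floor (by simpa using hq1)
    have h3 : (1 : ℝ) ≤ (⌊q⌋₊ : ℝ) := by exact_mod_cast h2
    show q / 2 ≤ ((⌊q⌋₊ : ℕ) : ℝ)
    linarith
  have h5 : (2048 : ℝ) ≤ k ^ ((1 : ℝ) / 10) := by
    calc (2048 : ℝ) = ((2048 : ℝ) ^ 10) ^ ((1 : ℝ) / 10) := by
          rw [← Real.rpow_natCast, ← Real.rpow_mul (by norm_num)]; norm_num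
      _ ≤ _ := Real.rpow_le_rpow (by norm_num) hk (by norm_num)
  have h6 : k ^ ((19 : ℝ) / 10) * 2048 ≤ k ^ (2 : ℝ) := by
    calc k ^ ((19 : ℝ) / 10) * 2048 ≤ k ^ ((19 : ℝ) / 10) * k ^ ((1 : ℝ) / 10) := by gcongr
      _ = k ^ (2 : ℝ) := by rw [← Real.rpow_add hk0]; norm_num
  have h7 : (q / 2) ^ 11 = k ^ (2 : ℝ) / 2048 := by
    rw [div_pow, hq, ← Real.rpow_natCast (k ^ ((2 : ℝ) / 11)), ← Real.rpow_mul hk0.le]
    norm_num
  have h8 : (y : ℝ) ≤ (zK k : ℝ) ^ 11 := by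
    calc (y : ℝ) ≤ k ^ (2 : ℝ) / 2048 := by
          rw [le_div_iff₀ (by norm_num)]
          linarith
      _ = (q / 2) ^ 11 := h7.symm
      _ ≤ _ := by gcongr
  exact_mod_cast h8

private theorem h4_JK {k : ℝ} (hk : 0 < k) (M : ℕ) (hM : (M : ℝ) ≤ k ^ (2 : ℝ)) :
    M < 2 ^ (JK k + 1) := by
  have h1 : 2 * Real.logb 2 k < ((JK k + 1 : ℕ) : ℝ) := by
    push_cast
    exact Nat.lt_floor_add_one _
  have h2 : k ^ (2 : ℝ) < (2 : ℝ) ^ ((JK k + 1 : ℕ) : ℝ) := by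
    calc k ^ (2 : ℝ) = ((2 : ℝ) ^ (Real.logb 2 k)) ^ (2 : ℝ) := by
          rw [Real.rpow_logb (by norm_num) (by norm_num) hk]
      _ = (2 : ℝ) ^ (2 * Real.logb 2 k) := by
          rw [← Real.rpow_mul (by norm_num), mul_comm]
      _ < _ := Real.rpow_lt_rpow_of_exponent_lt (by norm_num) h1
  rw [Real.rpow_natCast] at h2
  have h3 : (M : ℝ) < (2 : ℝ) ^ (JK k + 1) := lt_of_le_of_lt hM h2
  exact_mod_cast h3

private theorem h4_hb {k μ lam : ℝ} (hk : 2048 ^ 10 ≤ k) (M : ℕ)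
    (hM : (M : ℝ) ≤ k ^ ((19 : ℝ) / 10))
    (hlA : ∀ x ∈ Nat.divisorsAntidiagonal M, mA k μ lam x.1 ≠ 0 →
      lA k x.2 = ArithmeticFunction.vonMangoldt x.2) :
    (mA k μ lam * lA k) M = ∑ j ∈ Icc 1 11, hbc j * (∏ i, cf k μ lam j i) M := by
  have h1 : ∀ x ∈ Nat.divisorsAntidiagonal M, mA k μ lam x.1 * lA k x.2 =
      ∑ j ∈ Icc 1 11, hbc j * (mA k μ lam x.1 *
        ((muz (zK k)) ^ j * zR ^ (j - 1) * ArithmeticFunction.log) x.2) := by
    intro x hx
    by_cases h0 : mA k μ lam x.1 = 0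
    · rw [h0]; simp
    · rw [hlA x hx h0]
      have hx2 : x.2 ∈ M.divisors := Nat.snd_mem_divisors_of_mem_antidiagonal hx
      have hx2M : x.2 ≤ M := Nat.divisor_le hx2
      have hx21 : 1 ≤ x.2 := Nat.pos_of_mem_divisors hx2
      have hy : x.2 ≤ zK k ^ 11 := h4_floor hk x.2 (le_trans (by exact_mod_cast hx2M) hM)
      rw [heath_brown 11 (zK k) x.2 (by norm_num) hx21 hy, Finset.mul_sum]
      refine Finset.sum_congr rfl fun j _ => ?_
      unfold hbc
      ring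
  rw [ArithmeticFunction.mul_apply, Finset.sum_congr rfl h1, Finset.sum_comm]
  refine Finset.sum_congr rfl fun j _ => ?_
  rw [prod_cf, ArithmeticFunction.mul_apply, Finset.mul_sum]

theorem gA_eq (β θ ε₂ : ℝ) (hβ : 0 < β) (hβ2 : β ≤ 9 / 11) (hθ : 0 < θ) (hε₂ : 0 < ε₂)
    (hε : 16 * ε₂ ≤ θ) (hθ2 : θ ≤ 1 / 20) : ∃ k0 : ℝ, ∀ k : ℝ, k0 ≤ k → ∀ μ lam : ℝ, 0 ≤ μ →
      0 ≤ lam → μ + lam ≤ β + 2 * ε₂ → ∀ M : ℕ, k ^ (1 + β - 3 * ε₂) ≤ (M : ℝ) →
      (M : ℝ) ≤ k ^ (1 + β + 3 * ε₂) → (mA k μ lam * lA k) M = gA k β θ μ lam M := by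
  refine ⟨max (2048 ^ 10) (((2 : ℝ) ^ 23) ^ (1 / ε₂)), ?_⟩
  intro k hk μ lam hμ hlam hml M hM1 hM2
  have hk256 : (2048 : ℝ) ^ 10 ≤ k := (le_max_left _ _).trans hk
  have hk17 : ((2 : ℝ) ^ 23) ^ (1 / ε₂) ≤ k := (le_max_right _ _).trans hk
  have hk1 : 1 < k := lt_of_lt_of_le (by norm_num) hk256
  have hk0 : 0 < k := by linarith
  have hM95 : (M : ℝ) ≤ k ^ ((19 : ℝ) / 10) :=
    hM2.trans (Real.rpow_le_rpow_of_exponent_le hk1.le (by linarith))
  have hMk2 : (M : ℝ) ≤ k ^ (2 : ℝ) :=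
    hM95.trans (Real.rpow_le_rpow_of_exponent_le hk1.le (by norm_num))
  have h17 : (2 : ℝ) ^ 23 ≤ k ^ ε₂ := by
    calc (2 : ℝ) ^ 23 = (((2 : ℝ) ^ 23) ^ (1 / ε₂)) ^ ε₂ := by
          rw [← Real.rpow_mul (by norm_num), one_div, inv_mul_cancel₀ hε₂.ne', Real.rpow_one]
      _ ≤ _ := Real.rpow_le_rpow (by positivity) hk17 hε₂.le
  rw [h4_hb hk256 M hM95]
  · unfold gA
    rw [h4_sum_apply]
    refine Finset.sum_congr rfl fun j hj => ?_
    rw [mem_Icc] at hj
    have hsm : (hbc j • ∑ e ∈ Ej k β θ j, ∏ i, blk (cf k μ lam j i) (e i)) M =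
        hbc j * (∑ e ∈ Ej k β θ j, ∏ i, blk (cf k μ lam j i) (e i)) M := rfl
    rw [hsm, h4_sum_apply]
    congr 1
    rw [prod_blk_sum (cf k μ lam j) (JK k) M (h4_JK hk0 M hMk2)]
    unfold Ej
    rw [Finset.sum_filter_of_ne]
    intro e _ he
    obtain ⟨h1, h2⟩ := prod_blk_supp univ (cf k μ lam j) e M he
    have h1' : (2 : ℝ) ^ (∑ i, e i) ≤ (M : ℝ) := by exact_mod_cast h1
    have h2' : (M : ℝ) ≤ (2 : ℝ) ^ (∑ i, e i + #(univ : Finset (ix j))) := by exact_mod_cast h2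
    constructor
    · have h3 : (M : ℝ) ≤ (2 : ℝ) ^ (∑ i, e i) * 2 ^ 23 := by
        refine h2'.trans ?_
        rw [pow_add]
        have := h4_card j hj.1 hj.2
        gcongr
        norm_num
      have h4 : k ^ (1 + β - θ / 4) * k ^ ε₂ ≤ (2 : ℝ) ^ (∑ i, e i) * k ^ ε₂ := by
        calc k ^ (1 + β - θ / 4) * k ^ ε₂ = k ^ (1 + β - θ / 4 + ε₂) := by
              rw [← Real.rpow_add hk0]
          _ ≤ k ^ (1 + β - 3 * ε₂) :=
              Real.rpow_le_rpow_of_exponent_le hk1.le (by linarith)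
          _ ≤ M := hM1
          _ ≤ (2 : ℝ) ^ (∑ i, e i) * 2 ^ 23 := h3
          _ ≤ _ := by gcongr
      exact le_of_mul_le_mul_right h4 (by positivity)
    · exact h1'.trans (hM2.trans (Real.rpow_le_rpow_of_exponent_le hk1.le (by linarith)))
  · intro x hx hne
    have hxM : x.1 * x.2 = M := (Nat.mem_divisorsAntidiagonal.1 hx).1
    have hM0 : M ≠ 0 := (Nat.mem_divisorsAntidiagonal.1 hx).2
    have hx20 : x.2 ≠ 0 := by
      rintro h0
      rw [h0, mul_zero] at hxM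
      exact hM0 hxM.symm
    have hx10 : x.1 ≠ 0 := by
      rintro h0
      rw [h0, zero_mul] at hxM
      exact hM0 hxM.symm
    have hmem : x.1 ∈ Ms k μ (μ + lam) := by
      by_contra h1
      apply hne
      show (if x.1 ∈ Ms k μ (μ + lam) ∧ x.1 ≠ 0 then (1 : ℝ) else 0) = 0
      rw [if_neg (fun h => h1 h.1)]
    have hx1 : (x.1 : ℝ) ≤ k ^ (β + 2 * ε₂) := by
      unfold Ms at hmem
      rw [mem_Ioc] at hmem
      have h1 : (x.1 : ℝ) ≤ k ^ (μ + lam) :=
        (Nat.le_floor_iff (by positivity)).1 hmem.2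
      exact h1.trans (Real.rpow_le_rpow_of_exponent_le hk1.le hml)
    have hx1pos : (0 : ℝ) < x.1 := by exact_mod_cast Nat.pos_of_ne_zero hx10
    have hx2pos : (0 : ℝ) < x.2 := by exact_mod_cast Nat.pos_of_ne_zero hx20
    have hprod : (x.1 : ℝ) * x.2 = M := by exact_mod_cast hxM
    have hx2M : (x.2 : ℝ) ≤ M := by
      have : x.2 ≤ M := Nat.divisor_le (Nat.snd_mem_divisors_of_mem_antidiagonal hx)
      exact_mod_cast this
    have hlow : k ^ ((1 : ℝ) / 2) < (x.2 : ℝ) := by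
      have h1 : k ^ (β + 2 * ε₂) * k ^ ((1 : ℝ) / 2) < k ^ (β + 2 * ε₂) * (x.2 : ℝ) := by
        calc k ^ (β + 2 * ε₂) * k ^ ((1 : ℝ) / 2) = k ^ (β + 2 * ε₂ + 1 / 2) := by
              rw [← Real.rpow_add hk0]
          _ < k ^ (1 + β - 3 * ε₂) := Real.rpow_lt_rpow_of_exponent_lt hk1 (by linarith)
          _ ≤ M := hM1
          _ = x.1 * x.2 := hprod.symm
          _ ≤ _ := by gcongr
      exact lt_of_mul_lt_mul_left h1 (by positivity)
    have hin : x.2 ∈ Ms k (1 / 2) 2 := by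
      unfold Ms
      rw [mem_Ioc]
      constructor
      · exact (Nat.floor_lt (by positivity)).2 hlow
      · exact Nat.le_floor (hx2M.trans hMk2)
    show (if x.2 ∈ Ms k (1 / 2) 2 ∧ x.2 ≠ 0 then ArithmeticFunction.vonMangoldt x.2 else 0) = _
    rw [if_pos ⟨hin, hx20⟩]

end Pool.Agent.Lib.MP_9a8698_nt
end
end
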