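import Pool.Agent.Lib.MP_9a8698_nt.Defs
import Pool.Agent.Lib.MP_9a8698_nt.H4
import Pool.Agent.Lib.H62.Mertens

section

section

/-!
A3. The divisor functions `d_r = ζ^r`.

PROOF. `dd_add` is `ArithmeticFunction.mul_apply` for `ζ^(r+r') = ζ^r * ζ^r'`.
`dd_submul`: induction on `r`; `ζ^(r+1)(mn) = ∑_{e ∣ mn} ζ^r(e)`, every divisor `e` of `mn` is `e₁e₂` with `e₁ ∣ m`,
`e₂ ∣ n` (`Nat.dvd_mul`), so the sum is at most `∑_{e₁ ∣ m} ∑_{e₂ ∣ n} ζ^r(e₁e₂) ≤ ∑∑ ζ^r(e₁) ζ^r(e₂)`.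
`sum_dd`: induction on `r`: `∑_{n ≤ X} d_{r+1}(n)/n = ∑_{xy ≤ X} d_r(x)/x · 1/y ≤ (∑_{x ≤ X} d_r(x)/x)(∑_{y ≤ X} 1/y)`,
harmonic sum at most `1 + log X` (`harmonic_le_one_add_log`).
`sum_dd_sq`: more generally for every `j`:
`∑_{n ≤ X} d_r(n) d_j(n)/n ≤ (∑_{x ≤ X} d_r(x)/x)^j` by induction on `j`
(`d_{j+1}(n) = ∑_{xy = n} d_j(x)`, `d_r(xy) ≤ d_r(x) d_r(y)`; for `j = 0` the left side is at most `d_r(1) = 1`);
then take `j = r` and use `sum_dd`.
-/

set_option autoImplicit false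

open Finset

namespace Pool.Agent.Lib.MP_9a8698_nt

theorem dd_nonneg (r n : ℕ) : 0 ≤ dd r n := Nat.cast_nonneg _

theorem dd_one_eq {n : ℕ} (hn : 1 ≤ n) : dd 1 n = 1 := by
  rw [dd, pow_one, ArithmeticFunction.zeta_apply_ne (by omega), Nat.cast_one]

theorem dd_zero_one : dd 0 1 = 1 := by
  rw [dd, pow_zero, ArithmeticFunction.one_one, Nat.cast_one]

private theorem a3_zero_ne {n : ℕ} (hn : n ≠ 1) : dd 0 n = 0 := by
  rw [dd, pow_zero, ArithmeticFunction.one_apply_ne hn, Nat.cast_zero]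

private theorem a3_succ (r n : ℕ) : dd (r + 1) n = ∑ e ∈ n.divisors, dd r e := by
  rw [dd, pow_succ, ArithmeticFunction.mul_zeta_apply, Nat.cast_sum]
  rfl

private theorem a3_one (r : ℕ) : dd r 1 = 1 := by
  induction r with
  | zero => exact dd_zero_one
  | succ r ih => rw [a3_succ, Nat.divisors_one, Finset.sum_singleton, ih]

private theorem a3_pairs (X : ℕ) (F : ℕ → ℕ → ℝ) (hF : ∀ x y, 0 ≤ F x y) :
    ∑ n ∈ Icc 1 X, ∑ p ∈ n.divisorsAntidiagonal, F p.1 p.2 ≤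
      ∑ x ∈ Icc 1 X, ∑ y ∈ Icc 1 X, F x y := by
  classical
  rw [← Finset.sum_product' (Icc 1 X) (Icc 1 X) F, ← Finset.sum_biUnion]
  · refine Finset.sum_le_sum_of_subset_of_nonneg ?_ fun p _ _ => hF _ _
    intro p hp
    rw [Finset.mem_biUnion] at hp
    obtain ⟨n, hn, hp⟩ := hp
    rw [Nat.mem_divisorsAntidiagonal] at hp
    rw [Finset.mem_Icc] at hn
    rw [Finset.mem_product, Finset.mem_Icc, Finset.mem_Icc]
    have h1 : p.1 * p.2 ≤ X := hp.1.le.trans hn.2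
    have h2 : p.1 ≠ 0 := by
      intro h0
      rw [h0, zero_mul] at hp
      exact hp.2 hp.1.symm
    have h3 : p.2 ≠ 0 := by
      intro h0
      rw [h0, mul_zero] at hp
      exact hp.2 hp.1.symm
    have h4 : p.1 ≤ p.1 * p.2 := Nat.le_mul_of_pos_right _ (Nat.pos_of_ne_zero h3)
    have h5 : p.2 ≤ p.1 * p.2 := Nat.le_mul_of_pos_left _ (Nat.pos_of_ne_zero h2)
    exact ⟨⟨Nat.pos_of_ne_zero h2, h4.trans h1⟩, ⟨Nat.pos_of_ne_zero h3, h5.trans h1⟩⟩
  · intro a _ b _ hab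
    rw [Function.onFun, Finset.disjoint_left]
    intro p hp hq
    rw [Nat.mem_divisorsAntidiagonal] at hp hq
    exact hab (hp.1.symm.trans hq.1)

theorem dd_add (r r' n : ℕ) :
    ∑ x ∈ n.divisorsAntidiagonal, dd r x.1 * dd r' x.2 = dd (r + r') n := by
  unfold dd
  rw [pow_add, ArithmeticFunction.mul_apply, Nat.cast_sum]
  exact Finset.sum_congr rfl fun x _ => (Nat.cast_mul _ _).symm

theorem dd_submul (r m n : ℕ) (hm : 1 ≤ m) (hn : 1 ≤ n) : dd r (m * n) ≤ dd r m * dd r n := by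
  classical
  induction r generalizing m n with
  | zero =>
    by_cases h : m * n = 1
    · rw [h, dd_zero_one, Nat.eq_one_of_mul_eq_one_right h, Nat.eq_one_of_mul_eq_one_left h,
        dd_zero_one, mul_one]
    · rw [a3_zero_ne h]
      exact mul_nonneg (dd_nonneg _ _) (dd_nonneg _ _)
  | succ r ih =>
    rw [a3_succ, a3_succ, a3_succ, Finset.sum_mul_sum, ← Finset.sum_product']
    have hmn : m * n ≠ 0 := by positivity
    have hmaps : ∀ p ∈ m.divisors ×ˢ n.divisors, p.1 * p.2 ∈ (m * n).divisors := by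
      intro p hp
      rw [Finset.mem_product, Nat.mem_divisors, Nat.mem_divisors] at hp
      rw [Nat.mem_divisors]
      exact ⟨mul_dvd_mul hp.1.1 hp.2.1, hmn⟩
    have h1 : ∑ e ∈ (m * n).divisors, dd r e ≤
        ∑ p ∈ m.divisors ×ˢ n.divisors, dd r (p.1 * p.2) := by
      rw [← Finset.sum_fiberwise_of_maps_to hmaps]
      refine Finset.sum_le_sum fun e he => ?_
      rw [Nat.mem_divisors] at he
      obtain ⟨e₁, e₂, h₁, h₂, h₃⟩ := Nat.dvd_mul.1 he.1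
      have hmem : (e₁, e₂) ∈ (m.divisors ×ˢ n.divisors).filter (fun p => p.1 * p.2 = e) := by
        rw [Finset.mem_filter, Finset.mem_product, Nat.mem_divisors, Nat.mem_divisors]
        exact ⟨⟨⟨h₁, by omega⟩, ⟨h₂, by omega⟩⟩, h₃⟩
      have h2 := Finset.single_le_sum (f := fun p : ℕ × ℕ => dd r (p.1 * p.2))
        (fun p _ => dd_nonneg _ _) hmem
      refine le_trans (le_of_eq ?_) h2
      show dd r e = dd r (e₁ * e₂)
      rw [h₃]
    refine h1.trans (Finset.sum_le_sum fun p hp => ?_)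
    rw [Finset.mem_product] at hp
    exact ih _ _ (Nat.pos_of_mem_divisors hp.1) (Nat.pos_of_mem_divisors hp.2)

private theorem a3_harm (X : ℕ) : ∑ y ∈ Icc 1 X, (1 : ℝ) / y ≤ 1 + Real.log X := by
  have h := harmonic_le_one_add_log X
  rw [harmonic_eq_sum_Icc] at h
  push_cast at h
  simpa only [one_div] using h

private theorem a3_zero_sum (X : ℕ) (hX : 1 ≤ X) (f : ℕ → ℝ) (hf : f 1 = 1) :
    ∑ n ∈ Icc 1 X, f n * dd 0 n / n = 1 := by
  rw [Finset.sum_eq_single 1]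
  · rw [hf, dd_zero_one, Nat.cast_one]
    norm_num
  · intro n _ hn
    rw [a3_zero_ne hn, mul_zero, zero_div]
  · intro h
    exact absurd (Finset.mem_Icc.2 ⟨le_refl 1, hX⟩) h

theorem sum_dd (r X : ℕ) (hX : 1 ≤ X) :
    ∑ n ∈ Icc 1 X, dd r n / n ≤ (1 + Real.log X) ^ r := by
  have hlog : 0 ≤ Real.log X := Real.log_natCast_nonneg X
  induction r with
  | zero =>
    have h := a3_zero_sum X hX (fun _ => 1) rfl
    simp only [one_mul] at h
    rw [h, pow_zero]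
  | succ r ih =>
    have h1 : ∑ n ∈ Icc 1 X, dd (r + 1) n / n =
        ∑ n ∈ Icc 1 X, ∑ p ∈ n.divisorsAntidiagonal, dd r p.1 / p.1 * (1 / (p.2 : ℝ)) := by
      refine Finset.sum_congr rfl fun n hn => ?_
      rw [← dd_add r 1 n, Finset.sum_div]
      refine Finset.sum_congr rfl fun p hp => ?_
      rw [Nat.mem_divisorsAntidiagonal] at hp
      have h2 : 1 ≤ p.2 := by
        rcases Nat.eq_zero_or_pos p.2 with h0 | h0
        · rw [h0, mul_zero] at hp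
          exact absurd hp.1.symm hp.2
        · exact h0
      rw [dd_one_eq h2, ← hp.1, Nat.cast_mul, mul_one, div_mul_div_comm, mul_one]
    rw [h1]
    refine (a3_pairs X (fun x y => dd r x / x * (1 / (y : ℝ))) fun x y => by
      have := dd_nonneg r x
      positivity).trans ?_
    rw [← Finset.sum_mul_sum, pow_succ]
    exact mul_le_mul ih (a3_harm X) (Finset.sum_nonneg fun y _ => by positivity) (by positivity)

private theorem a3_sq (r j X : ℕ) (hX : 1 ≤ X) :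
    ∑ n ∈ Icc 1 X, dd r n * dd j n / n ≤ (∑ x ∈ Icc 1 X, dd r x / x) ^ j := by
  have hS : 0 ≤ ∑ x ∈ Icc 1 X, dd r x / (x : ℝ) := Finset.sum_nonneg fun x _ => by
    have := dd_nonneg r x
    positivity
  induction j with
  | zero => rw [a3_zero_sum X hX (dd r) (a3_one r), pow_zero]
  | succ j ih =>
    have h1 : ∑ n ∈ Icc 1 X, dd r n * dd (j + 1) n / n ≤
        ∑ n ∈ Icc 1 X, ∑ p ∈ n.divisorsAntidiagonal,
          dd r p.1 * dd j p.1 / p.1 * (dd r p.2 / p.2) := by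
      refine Finset.sum_le_sum fun n hn => ?_
      rw [← dd_add j 1 n, Finset.mul_sum, Finset.sum_div]
      refine Finset.sum_le_sum fun p hp => ?_
      rw [Nat.mem_divisorsAntidiagonal] at hp
      have h2 : 1 ≤ p.2 := by
        rcases Nat.eq_zero_or_pos p.2 with h0 | h0
        · rw [h0, mul_zero] at hp
          exact absurd hp.1.symm hp.2
        · exact h0
      have h3 : 1 ≤ p.1 := by
        rcases Nat.eq_zero_or_pos p.1 with h0 | h0
        · rw [h0, zero_mul] at hp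
          exact absurd hp.1.symm hp.2
        · exact h0
      have h4 := dd_submul r p.1 p.2 h3 h2
      rw [hp.1] at h4
      have h5 := dd_nonneg j p.1
      have h6 : (n : ℝ) = p.1 * p.2 := by rw [← hp.1, Nat.cast_mul]
      rw [dd_one_eq h2, mul_one, div_mul_div_comm, h6]
      have h7 : (0 : ℝ) < (p.1 : ℝ) * p.2 := by
        have : (0 : ℝ) < p.1 := by exact_mod_cast h3
        have : (0 : ℝ) < p.2 := by exact_mod_cast h2
        positivity
      refine div_le_div_of_nonneg_right ?_ h7.le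
      nlinarith [mul_le_mul_of_nonneg_right h4 h5]
    refine h1.trans ((a3_pairs X (fun x y => dd r x * dd j x / x * (dd r y / y)) fun x y => by
      have := dd_nonneg r x
      have := dd_nonneg j x
      have := dd_nonneg r y
      positivity).trans ?_)
    rw [← Finset.sum_mul_sum, pow_succ]
    exact mul_le_mul_of_nonneg_right ih hS

theorem sum_dd_sq (r X : ℕ) (hX : 1 ≤ X) :
    ∑ n ∈ Icc 1 X, dd r n ^ 2 / n ≤ (1 + Real.log X) ^ (r ^ 2) := by
  have h1 := a3_sq r r X hX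
  have h2 := sum_dd r X hX
  have hS : 0 ≤ ∑ x ∈ Icc 1 X, dd r x / (x : ℝ) := Finset.sum_nonneg fun x _ => by
    have := dd_nonneg r x
    positivity
  have h3 : ∑ n ∈ Icc 1 X, dd r n ^ 2 / n = ∑ n ∈ Icc 1 X, dd r n * dd r n / n :=
    Finset.sum_congr rfl fun n _ => by rw [pow_two]
  rw [h3, pow_two r, pow_mul]
  exact h1.trans (pow_le_pow_left₀ hS h2 r)

end Pool.Agent.Lib.MP_9a8698_nt
end

section

/-!
A4. Products of Dirichlet polynomials (A1, A2, A3 are used).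

PROOF. `IsDP.mul`: with `s, c` and `s', c'` take the support `image (fun p => p.1 * p.2) (s ×ˢ s')` and the coefficients
`n ↦ ∑_{(x,y) ∈ s ×ˢ s', xy = n} c(x) c'(y)`; these are at most `B B' ∑_{xy = n} d_r(x) d_{r'}(y) = B B' d_{r+r'}(n)`
(`dd_add`; the sum over pairs of `s ×ˢ s'` with product `n` is part of the sum over `n.divisorsAntidiagonal`),
and `DP s c t * DP s' c' t` is the new polynomial since `log(xy) = log x + log y`.
`IsDP.prod`, `IsDP.pow`: induction. `IsDP.mvt`: `mvt_sharp`, `|c n|² ≤ B² d_r(n)²`, `sum_dd_sq` with `X = ⌊M⌋`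
(the support is contained in `Icc 1 ⌊M⌋`). `IsDP.sup`: `DP_norm_le` and `sum_dd`. `IsDP.mono_B`: `B ≤ B'`.
-/

set_option autoImplicit false

open Finset MeasureTheory

namespace Pool.Agent.Lib.MP_9a8698_nt

theorem IsDP.cont {r : ℕ} {B N M : ℝ} {f : ℝ → ℂ} (h : IsDP r B N M f) : Continuous f := by
  obtain ⟨s, c, -, hf⟩ := h
  have e : f = DP s c := funext hf
  rw [e]
  exact DP_continuous s c

theorem IsDP.one : IsDP 0 1 1 1 (fun _ => 1) := by
  refine ⟨{1}, fun _ => 1, ?_, ?_⟩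
  · intro n hn
    rw [mem_singleton] at hn
    subst hn
    rw [dd_zero_one]
    norm_num
  · intro t
    simp [DP]

theorem IsDP.of_bound {B N M : ℝ} (s : Finset ℕ) (c : ℕ → ℝ)
    (h : ∀ n ∈ s, 1 ≤ n ∧ N ≤ (n : ℝ) ∧ (n : ℝ) ≤ M ∧ |c n| ≤ B) : IsDP 1 B N M (DP s c) := by
  refine ⟨s, c, ?_, fun t => rfl⟩
  intro n hn
  obtain ⟨h1, h2, h3, h4⟩ := h n hn
  refine ⟨h1, h2, h3, ?_⟩
  rw [dd_one_eq h1, mul_one]
  exact h4

theorem IsDP.mul {r r' : ℕ} {B B' N N' M M' : ℝ} {f f' : ℝ → ℂ} (hB : 0 ≤ B) (hB' : 0 ≤ B')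
    (hN : 0 ≤ N) (hN' : 0 ≤ N') (h : IsDP r B N M f) (h' : IsDP r' B' N' M' f') :
    IsDP (r + r') (B * B') (N * N') (M * M') (fun t => f t * f' t) := by
  classical
  obtain ⟨s, c, hs, hf⟩ := h
  obtain ⟨s', c', hs', hf'⟩ := h'
  refine ⟨(s ×ˢ s').image (fun p => p.1 * p.2),
    fun n => ∑ p ∈ (s ×ˢ s') with p.1 * p.2 = n, c p.1 * c' p.2, ?_, ?_⟩
  · intro n hn
    rw [mem_image] at hn
    obtain ⟨⟨x, y⟩, hxy, rfl⟩ := hn
    rw [mem_product] at hxy
    obtain ⟨x1, xN, xM, -⟩ := hs x hxy.1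
    obtain ⟨y1, yN, yM, -⟩ := hs' y hxy.2
    have hxy1 : 1 ≤ x * y := Nat.mul_pos x1 y1
    refine ⟨hxy1, ?_, ?_, ?_⟩
    · push_cast
      exact mul_le_mul xN yN hN' (Nat.cast_nonneg _)
    · push_cast
      exact mul_le_mul xM yM (Nat.cast_nonneg _) ((Nat.cast_nonneg _).trans xM)
    · calc |∑ p ∈ (s ×ˢ s') with p.1 * p.2 = x * y, c p.1 * c' p.2|
          ≤ ∑ p ∈ (s ×ˢ s') with p.1 * p.2 = x * y, |c p.1 * c' p.2| := abs_sum_le_sum_abs _ _
        _ ≤ ∑ p ∈ (s ×ˢ s') with p.1 * p.2 = x * y, (B * B') * (dd r p.1 * dd r' p.2) := by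
            refine sum_le_sum fun p hp => ?_
            rw [mem_filter, mem_product] at hp
            obtain ⟨-, -, -, h1⟩ := hs p.1 hp.1.1
            obtain ⟨-, -, -, h2⟩ := hs' p.2 hp.1.2
            rw [abs_mul]
            calc |c p.1| * |c' p.2| ≤ (B * dd r p.1) * (B' * dd r' p.2) :=
                  mul_le_mul h1 h2 (abs_nonneg _) (mul_nonneg hB (dd_nonneg _ _))
              _ = _ := by ring
        _ ≤ ∑ p ∈ (x * y).divisorsAntidiagonal, (B * B') * (dd r p.1 * dd r' p.2) := by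
            refine sum_le_sum_of_subset_of_nonneg ?_ fun p _ _ =>
              mul_nonneg (mul_nonneg hB hB') (mul_nonneg (dd_nonneg _ _) (dd_nonneg _ _))
            intro p hp
            rw [mem_filter] at hp
            rw [Nat.mem_divisorsAntidiagonal]
            exact ⟨hp.2, by omega⟩
        _ = (B * B') * dd (r + r') (x * y) := by rw [← mul_sum, dd_add]
  · intro t
    beta_reduce
    rw [hf, hf']
    unfold DP
    rw [sum_mul_sum, ← sum_product',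
      ← sum_fiberwise_of_maps_to (s := s ×ˢ s') (t := (s ×ˢ s').image fun p => p.1 * p.2)
        (g := fun p => p.1 * p.2) (fun p hp => mem_image_of_mem _ hp)]
    refine sum_congr rfl fun n hn => ?_
    rw [sum_div, Complex.ofReal_sum, sum_mul]
    refine sum_congr rfl fun p hp => ?_
    rw [mem_filter, mem_product] at hp
    have x1 : (p.1 : ℝ) ≠ 0 := by
      have := (hs p.1 hp.1.1).1
      positivity
    have y1 : (p.2 : ℝ) ≠ 0 := by
      have := (hs' p.2 hp.1.2).1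
      positivity
    have e1 : ((n : ℕ) : ℝ) = (p.1 : ℝ) * p.2 := by
      rw [← hp.2]
      push_cast
      rfl
    rw [e1, Real.log_mul x1 y1]
    have e2 : ((-(t * (Real.log p.1 + Real.log p.2)) : ℝ) : ℂ) * Complex.I =
        ((-(t * Real.log p.1) : ℝ) : ℂ) * Complex.I + ((-(t * Real.log p.2) : ℝ) : ℂ) * Complex.I := by
      push_cast
      ring
    rw [e2, Complex.exp_add]
    have e3 : ((c p.1 * c' p.2 / ((p.1 : ℝ) * p.2) : ℝ) : ℂ) =
        ((c p.1 / p.1 : ℝ) : ℂ) * ((c' p.2 / p.2 : ℝ) : ℂ) := by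
      rw [← Complex.ofReal_mul, div_mul_div_comm]
    rw [e3]
    ring

theorem IsDP.prod {ι : Type} (I : Finset ι) {B : ℝ} (hB : 0 ≤ B) (N M : ι → ℝ) (f : ι → ℝ → ℂ)
    (hN : ∀ i ∈ I, 0 ≤ N i) (h : ∀ i ∈ I, IsDP 1 B (N i) (M i) (f i)) :
    IsDP (#I) (B ^ (#I)) (∏ i ∈ I, N i) (∏ i ∈ I, M i) (fun t => ∏ i ∈ I, f i t) := by
  classical
  induction I using Finset.induction_on with
  | empty =>
    simp only [card_empty, pow_zero, prod_empty]
    exact IsDP.one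
  | insert a I ha ih =>
    have h1 := ih (fun i hi => hN i (mem_insert_of_mem hi)) (fun i hi => h i (mem_insert_of_mem hi))
    have h2 := h a (mem_insert_self a I)
    have h3 := IsDP.mul hB (pow_nonneg hB _) (hN a (mem_insert_self a I))
      (prod_nonneg fun i hi => hN i (mem_insert_of_mem hi)) h2 h1
    rw [card_insert_of_notMem ha, prod_insert ha, prod_insert ha, pow_succ' B, add_comm (#I) 1]
    simp only [prod_insert ha]
    exact h3

theorem IsDP.pow {B N M : ℝ} {f : ℝ → ℂ} (hB : 0 ≤ B) (hN : 0 ≤ N) (h : IsDP 1 B N M f) (j : ℕ) :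
    IsDP j (B ^ j) (N ^ j) (M ^ j) (fun t => f t ^ j) := by
  have h1 := IsDP.prod (Finset.range j) hB (fun _ => N) (fun _ => M) (fun _ => f)
    (fun _ _ => hN) (fun _ _ => h)
  simp only [card_range, prod_const] at h1
  exact h1

private theorem a4_log {M : ℝ} (hM : 1 ≤ M) : 1 ≤ ⌊M⌋₊ ∧ 0 ≤ Real.log ⌊M⌋₊ ∧
    Real.log ⌊M⌋₊ ≤ Real.log M := by
  have h1 : 1 ≤ ⌊M⌋₊ := (Nat.one_le_floor_iff M).2 hM
  have h2 : (1 : ℝ) ≤ (⌊M⌋₊ : ℝ) := by exact_mod_cast h1
  exact ⟨h1, Real.log_nonneg h2, Real.log_le_log (by linarith) (Nat.floor_le (by linarith))⟩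

private theorem a4_sub {r : ℕ} {B N M : ℝ} {s : Finset ℕ} {c : ℕ → ℝ}
    (hs : ∀ n ∈ s, 1 ≤ n ∧ N ≤ (n : ℝ) ∧ (n : ℝ) ≤ M ∧ |c n| ≤ B * dd r n) :
    s ⊆ Icc 1 ⌊M⌋₊ := by
  intro n hn
  obtain ⟨h1, -, h2, -⟩ := hs n hn
  exact mem_Icc.2 ⟨h1, Nat.le_floor h2⟩

theorem IsDP.mvt : ∃ C : ℝ, 0 < C ∧ ∀ (r : ℕ) (B N M τ : ℝ) (f : ℝ → ℂ), IsDP r B N M f →
    1 ≤ τ → 1 ≤ N → 1 ≤ M → 0 ≤ B →
    ∫ t in Set.Icc (-τ) τ, ‖f t‖ ^ 2 ≤
      C * (τ / N + 1) * (B ^ 2 * (1 + Real.log M) ^ (r ^ 2)) := by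
  obtain ⟨C, hC, hmv⟩ := mvt_sharp
  refine ⟨C, hC, ?_⟩
  intro r B N M τ f h hτ hN hM hB
  obtain ⟨s, c, hs, hf⟩ := h
  simp only [hf]
  refine (hmv s c τ N hτ hN fun n hn => ⟨(hs n hn).1, (hs n hn).2.1⟩).trans ?_
  refine mul_le_mul_of_nonneg_left ?_ (by positivity)
  obtain ⟨f1, f2, f3⟩ := a4_log hM
  calc ∑ n ∈ s, c n ^ 2 / n ≤ ∑ n ∈ s, B ^ 2 * (dd r n ^ 2 / n) := by
        refine sum_le_sum fun n hn => ?_
        obtain ⟨h1, -, -, h2⟩ := hs n hn
        rw [← mul_div_assoc]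
        refine div_le_div_of_nonneg_right ?_ (Nat.cast_nonneg _)
        rw [← mul_pow, ← sq_abs (c n)]
        exact pow_le_pow_left₀ (abs_nonneg _) h2 2
    _ ≤ ∑ n ∈ Icc 1 ⌊M⌋₊, B ^ 2 * (dd r n ^ 2 / n) :=
        sum_le_sum_of_subset_of_nonneg (a4_sub hs) fun n _ _ => by positivity
    _ = B ^ 2 * ∑ n ∈ Icc 1 ⌊M⌋₊, dd r n ^ 2 / n := by rw [mul_sum]
    _ ≤ B ^ 2 * (1 + Real.log ⌊M⌋₊) ^ (r ^ 2) :=
        mul_le_mul_of_nonneg_left (sum_dd_sq r _ f1) (by positivity)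
    _ ≤ B ^ 2 * (1 + Real.log M) ^ (r ^ 2) := by
        refine mul_le_mul_of_nonneg_left ?_ (by positivity)
        exact pow_le_pow_left₀ (by linarith) (by linarith) _

theorem IsDP.sup {r : ℕ} {B N M : ℝ} {f : ℝ → ℂ} (h : IsDP r B N M f) (hM : 1 ≤ M) (hB : 0 ≤ B)
    (t : ℝ) : ‖f t‖ ≤ B * (1 + Real.log M) ^ r := by
  obtain ⟨s, c, hs, hf⟩ := h
  rw [hf]
  refine (DP_norm_le s c t).trans ?_
  obtain ⟨f1, f2, f3⟩ := a4_log hM
  calc ∑ n ∈ s, |c n| / n ≤ ∑ n ∈ s, B * (dd r n / n) := by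
        refine sum_le_sum fun n hn => ?_
        obtain ⟨-, -, -, h2⟩ := hs n hn
        rw [← mul_div_assoc]
        exact div_le_div_of_nonneg_right h2 (Nat.cast_nonneg _)
    _ ≤ ∑ n ∈ Icc 1 ⌊M⌋₊, B * (dd r n / n) :=
        sum_le_sum_of_subset_of_nonneg (a4_sub hs) fun n _ _ =>
          mul_nonneg hB (div_nonneg (dd_nonneg _ _) (Nat.cast_nonneg _))
    _ = B * ∑ n ∈ Icc 1 ⌊M⌋₊, dd r n / n := by rw [mul_sum]
    _ ≤ B * (1 + Real.log ⌊M⌋₊) ^ r := mul_le_mul_of_nonneg_left (sum_dd r _ f1) hB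
    _ ≤ B * (1 + Real.log M) ^ r :=
        mul_le_mul_of_nonneg_left (pow_le_pow_left₀ (by linarith) (by linarith) _) hB

end Pool.Agent.Lib.MP_9a8698_nt
end
end

section

section

/-!
C1. The polynomials over the integers `m` and over the prime powers `l` (with A1, A2 and `Pool.Agent.Lib.H62.mertens`).

PROOF of `Ioc_bound`. `DP (Ioc A B) 1 t = ∑_{m} m^(-1-it)`. Compare with `∫_A^B x^(-1-it) dx = (A^(-it) - B^(-it))/(it)` (norm `≤ 2/|t|`):
for `m-1 ≤ x ≤ m` the derivative of `x^(-1-it)` has norm `|1+it| x^(-2) ≤ (1+|t|)/(m-1)^2`, so the error is at most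
`(1+|t|) ∑_{m > A} (m-1)^(-2) ≤ (1+|t|) 2/A`. (One may work with `x ↦ exp(-(1+it) log x)`.)
PROOF of `Ioc_triv`. `DP_norm_le`, `1/m ≤ log(m/(m-1))`.
PROOF of `Pf_triv`. `DP_norm_le`, `Ms k (1/2) 2 ⊆ Ioc 0 ⌊k^2⌋`, `mertens` at `k^2`.
PROOF of `Pf_mvt`. `mvt_sharp` with `N = k^(1/2)` (elements of `Ms k (1/2) 2` are `> k^(1/2)`), `τ/N + 1 ≤ 2`,
`∑ Λ(l)²/l ≤ log(k²) ∑ Λ(l)/l ≤ 2 log k (2 log k + 6)` (`ArithmeticFunction.vonMangoldt_le_log`).
-/

set_option autoImplicit false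

open Finset MeasureTheory

namespace Pool.Agent.Lib.MP_9a8698_nt

/-- The function `x^a`. -/
private noncomputable def C1_E (a : ℂ) (x : ℝ) : ℂ := Complex.exp (a * (Real.log x : ℂ))

private theorem C1_E_deriv (a : ℂ) {x : ℝ} (hx : 0 < x) :
    HasDerivAt (C1_E a) (C1_E a x * (a * ((x⁻¹ : ℝ) : ℂ))) x := by
  unfold C1_E
  exact ((Real.hasDerivAt_log hx.ne').ofReal_comp.const_mul a).cexp

private theorem C1_E_norm (a : ℂ) (x : ℝ) : ‖C1_E a x‖ = Real.exp (a.re * Real.log x) := by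
  unfold C1_E
  rw [Complex.norm_exp]
  congr 1
  rw [Complex.mul_re, Complex.ofReal_re, Complex.ofReal_im, mul_zero, sub_zero]

private theorem C1_E_mul (a : ℂ) {x : ℝ} (hx : 0 < x) :
    C1_E a x * ((x⁻¹ : ℝ) : ℂ) = C1_E (a - 1) x := by
  unfold C1_E
  have h1 : ((x⁻¹ : ℝ) : ℂ) = Complex.exp (-(Real.log x : ℂ)) := by
    rw [← Complex.ofReal_neg, ← Complex.ofReal_exp, Real.exp_neg, Real.exp_log hx]
  rw [h1, ← Complex.exp_add]
  congr 1
  ring

private theorem C1_step (t : ℝ) (ht : t ≠ 0) (m : ℕ) (hm : 1 ≤ m) :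
    ‖C1_E (-(1 + t * Complex.I)) ((m + 1 : ℕ) : ℝ) -
      ((-(t * Complex.I))⁻¹ * C1_E (-(t * Complex.I)) ((m + 1 : ℕ) : ℝ) -
        (-(t * Complex.I))⁻¹ * C1_E (-(t * Complex.I)) (m : ℝ))‖ ≤ (1 + |t|) / (m : ℝ) ^ 2 := by
  have hm0 : (0 : ℝ) < m := by exact_mod_cast hm
  have ha0 : (-(t * Complex.I) : ℂ) ≠ 0 :=
    neg_ne_zero.2 (mul_ne_zero (by exact_mod_cast ht) Complex.I_ne_zero)
  set a : ℂ := -(t * Complex.I) with ha
  have hb : (-(1 + t * Complex.I) : ℂ) = a - 1 := by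
    rw [ha]
    ring
  rw [hb]
  set M : ℝ := (1 + |t|) / (m : ℝ) ^ 2 with hM
  have hM0 : 0 ≤ M := by positivity
  have hI : ∀ x ∈ Set.Icc (m : ℝ) ((m + 1 : ℕ) : ℝ), 0 < x := fun x hx => hm0.trans_le hx.1
  have hnb : ‖a - 1‖ ≤ 1 + |t| := by
    calc ‖a - 1‖ ≤ ‖a‖ + ‖(1 : ℂ)‖ := norm_sub_le _ _
      _ = 1 + |t| := by
        rw [ha, norm_neg, norm_mul, Complex.norm_I, Complex.norm_real, norm_one,
          Real.norm_eq_abs]
        ring
  have hre : (a - 1).re = -1 := by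
    rw [ha]
    simp
  -- the derivative of `x^(a-1)`
  have h1 : ∀ x ∈ Set.Icc (m : ℝ) ((m + 1 : ℕ) : ℝ),
      ‖C1_E (a - 1) x * ((a - 1) * ((x⁻¹ : ℝ) : ℂ))‖ ≤ M := by
    intro x hx
    have hx0 := hI x hx
    rw [norm_mul, norm_mul, C1_E_norm, hre, Complex.norm_real, Real.norm_of_nonneg (by positivity)]
    have e1 : Real.exp (-1 * Real.log x) = x⁻¹ := by
      rw [neg_one_mul, Real.exp_neg, Real.exp_log hx0]
    rw [e1, hM]
    have e2 : x⁻¹ ≤ (m : ℝ)⁻¹ := inv_anti₀ hm0 hx.1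
    have e3 : x⁻¹ * (‖a - 1‖ * x⁻¹) ≤ (m : ℝ)⁻¹ * ((1 + |t|) * (m : ℝ)⁻¹) := by
      have : 0 < x⁻¹ := inv_pos.2 hx0
      gcongr
    refine e3.trans (le_of_eq ?_)
    field_simp
  have hmm : (m : ℝ) ≤ ((m + 1 : ℕ) : ℝ) := by
    push_cast
    linarith
  have h2 : ∀ x ∈ Set.Icc (m : ℝ) ((m + 1 : ℕ) : ℝ),
      ‖C1_E (a - 1) x - C1_E (a - 1) ((m + 1 : ℕ) : ℝ)‖ ≤ M := by
    intro x hx
    have := (convex_Icc (m : ℝ) ((m + 1 : ℕ) : ℝ)).norm_image_sub_le_of_norm_hasDerivWithin_le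
      (f := C1_E (a - 1)) (f' := fun x => C1_E (a - 1) x * ((a - 1) * ((x⁻¹ : ℝ) : ℂ)))
      (fun y hy => (C1_E_deriv (a - 1) (hI y hy)).hasDerivWithinAt) h1
      (Set.right_mem_Icc.2 hmm) hx
    refine this.trans ?_
    have e : ‖x - ((m + 1 : ℕ) : ℝ)‖ ≤ 1 := by
      rw [Real.norm_eq_abs, abs_le]
      have h3 := hx.1
      have h4 := hx.2
      push_cast at h4 ⊢
      constructor <;> linarith
    nlinarith
  have h3 : ∀ x ∈ Set.Icc (m : ℝ) ((m + 1 : ℕ) : ℝ), HasDerivWithinAt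
      (fun x : ℝ => a⁻¹ * C1_E a x - (x : ℂ) * C1_E (a - 1) ((m + 1 : ℕ) : ℝ))
      (C1_E (a - 1) x - C1_E (a - 1) ((m + 1 : ℕ) : ℝ)) (Set.Icc (m : ℝ) ((m + 1 : ℕ) : ℝ)) x := by
    intro x hx
    have e1 := (C1_E_deriv a (hI x hx)).const_mul a⁻¹
    have e2 : a⁻¹ * (C1_E a x * (a * ((x⁻¹ : ℝ) : ℂ))) = C1_E (a - 1) x := by
      rw [← C1_E_mul a (hI x hx)]
      field_simp
    rw [e2] at e1
    have e3 : HasDerivAt (fun x : ℝ => (x : ℂ) * C1_E (a - 1) ((m + 1 : ℕ) : ℝ))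
        (1 * C1_E (a - 1) ((m + 1 : ℕ) : ℝ)) x :=
      (HasDerivAt.ofReal_comp (hasDerivAt_id x)).mul_const _
    rw [one_mul] at e3
    exact (e1.sub e3).hasDerivWithinAt
  have h4 := (convex_Icc (m : ℝ) ((m + 1 : ℕ) : ℝ)).norm_image_sub_le_of_norm_hasDerivWithin_le
    h3 h2 (Set.left_mem_Icc.2 hmm) (Set.right_mem_Icc.2 hmm)
  have e5 : ‖((m + 1 : ℕ) : ℝ) - (m : ℝ)‖ = 1 := by
    push_cast
    norm_num
  rw [e5, mul_one] at h4
  rw [norm_sub_rev] at h4 ⊢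
  refine le_trans (le_of_eq ?_) h4
  rw [← norm_neg]
  congr 1
  push_cast
  ring

theorem Ioc_bound (A B : ℕ) (hA : 1 ≤ A) (hAB : A ≤ B) (t : ℝ) (ht : t ≠ 0) :
    ‖DP (Ioc A B) (fun _ => 1) t‖ ≤ 2 / |t| + 2 * (1 + |t|) / A := by
  have hA0 : (0 : ℝ) < A := by exact_mod_cast hA
  have ht0 : 0 < |t| := abs_pos.2 ht
  set G : ℕ → ℂ := fun m => (-(t * Complex.I))⁻¹ * C1_E (-(t * Complex.I)) (m : ℝ) with hG
  have hterm : ∀ n : ℕ, 1 ≤ n → ((((1 : ℝ) / n : ℝ) : ℂ) *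
      Complex.exp (((-(t * Real.log n) : ℝ) : ℂ) * Complex.I)) =
      C1_E (-(1 + t * Complex.I)) (n : ℝ) := by
    intro n hn
    have hn0 : (0 : ℝ) < n := by exact_mod_cast hn
    have e : (-(1 + t * Complex.I) : ℂ) = -(t * Complex.I) - 1 := by ring
    rw [e, ← C1_E_mul _ hn0, one_div, mul_comm]
    congr 1
    unfold C1_E
    congr 1
    push_cast
    ring
  have key : ∀ B : ℕ, A ≤ B → ‖DP (Ioc A B) (fun _ => 1) t - (G B - G A)‖ ≤
      2 * (1 + |t|) * (1 / (A : ℝ) - 1 / (B : ℝ)) := by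
    intro B hB
    induction B, hB using Nat.le_induction with
    | base =>
      unfold DP
      simp
    | succ B hB ih =>
      have hB1 : 1 ≤ B := hA.trans hB
      have hB0 : (0 : ℝ) < B := by exact_mod_cast hB1
      have e1 : DP (Ioc A (B + 1)) (fun _ => 1) t =
          DP (Ioc A B) (fun _ => 1) t + C1_E (-(1 + t * Complex.I)) ((B + 1 : ℕ) : ℝ) := by
        rw [← hterm (B + 1) (by omega)]
        unfold DP
        rw [Finset.sum_Ioc_succ_top hB]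
      have e2 := C1_step t ht B hB1
      have e3 : (1 + |t|) / (B : ℝ) ^ 2 ≤ 2 * (1 + |t|) * (1 / (B : ℝ) - 1 / ((B + 1 : ℕ) : ℝ)) := by
        have hB1' : (1 : ℝ) ≤ B := by exact_mod_cast hB1
        have f1 : 2 * (1 + |t|) * (1 / (B : ℝ) - 1 / ((B + 1 : ℕ) : ℝ)) =
            (1 + |t|) * (2 / (B * (B + 1))) := by
          push_cast
          field_simp
          ring
        rw [f1, div_eq_mul_one_div]
        refine mul_le_mul_of_nonneg_left ?_ (by positivity)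
        rw [div_le_div_iff₀ (by positivity) (by positivity)]
        nlinarith
      have e4 : DP (Ioc A (B + 1)) (fun _ => 1) t - (G (B + 1) - G A) =
          (DP (Ioc A B) (fun _ => 1) t - (G B - G A)) +
          (C1_E (-(1 + t * Complex.I)) ((B + 1 : ℕ) : ℝ) - (G (B + 1) - G B)) := by
        rw [e1]
        ring
      rw [e4]
      refine (norm_add_le _ _).trans ?_
      have e5 : ‖C1_E (-(1 + t * Complex.I)) ((B + 1 : ℕ) : ℝ) - (G (B + 1) - G B)‖ ≤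
          (1 + |t|) / (B : ℝ) ^ 2 := e2
      calc _ ≤ 2 * (1 + |t|) * (1 / (A : ℝ) - 1 / (B : ℝ)) +
            2 * (1 + |t|) * (1 / (B : ℝ) - 1 / ((B + 1 : ℕ) : ℝ)) := add_le_add ih (e5.trans e3)
        _ = _ := by ring
  have hGn : ∀ m : ℕ, ‖G m‖ = 1 / |t| := by
    intro m
    simp only [hG]
    rw [norm_mul, C1_E_norm, norm_inv, norm_neg, norm_mul, Complex.norm_I, Complex.norm_real,
      Real.norm_eq_abs]
    have : (-(t * Complex.I) : ℂ).re = 0 := by simp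
    rw [this, zero_mul, Real.exp_zero, mul_one, mul_one, one_div]
  have h1 := key B hAB
  have h2 : ‖G B - G A‖ ≤ 2 / |t| := by
    refine (norm_sub_le _ _).trans (le_of_eq ?_)
    rw [hGn, hGn]
    ring
  have h3 : 2 * (1 + |t|) * (1 / (A : ℝ) - 1 / (B : ℝ)) ≤ 2 * (1 + |t|) / A := by
    have : (0 : ℝ) ≤ 1 / (B : ℝ) := by positivity
    rw [div_eq_mul_one_div (2 * (1 + |t|))]
    refine mul_le_mul_of_nonneg_left (by linarith) (by positivity)
  have h4 : ‖DP (Ioc A B) (fun _ => 1) t‖ ≤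
      ‖DP (Ioc A B) (fun _ => 1) t - (G B - G A)‖ + ‖G B - G A‖ := by
    have := norm_add_le (DP (Ioc A B) (fun _ => 1) t - (G B - G A)) (G B - G A)
    rwa [sub_add_cancel] at this
  linarith

theorem Ioc_triv (A B : ℕ) (hA : 1 ≤ A) (hAB : A ≤ B) (t : ℝ) :
    ‖DP (Ioc A B) (fun _ => 1) t‖ ≤ Real.log B - Real.log A := by
  refine (DP_norm_le _ _ _).trans ?_
  induction B, hAB using Nat.le_induction with
  | base => simp
  | succ B hB ih =>
    have hB1 : 1 ≤ B := hA.trans hB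
    have hB0 : (0 : ℝ) < B := by exact_mod_cast hB1
    rw [Finset.sum_Ioc_succ_top hB]
    have h1 := Real.one_sub_inv_le_log_of_pos (x := ((B + 1 : ℕ) : ℝ) / B) (by positivity)
    rw [Real.log_div (by positivity) hB0.ne', inv_div] at h1
    have h2 : |(1 : ℝ)| / ((B + 1 : ℕ) : ℝ) = 1 - (B : ℝ) / ((B + 1 : ℕ) : ℝ) := by
      rw [abs_one]
      push_cast
      field_simp
      ring
    rw [h2]
    linarith

private theorem C1_sum {k : ℝ} (hk : 1 ≤ k) :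
    ∑ l ∈ Ms k (1 / 2) 2, ArithmeticFunction.vonMangoldt l / (l : ℝ) ≤ 2 * Real.log k + 6 := by
  have h1 := (abs_le.1 (H62.mertens (k ^ (2 : ℝ)) (Real.one_le_rpow hk (by norm_num)))).2
  rw [Real.log_rpow (by linarith)] at h1
  have h2 : ∑ l ∈ Ms k (1 / 2) 2, ArithmeticFunction.vonMangoldt l / (l : ℝ) ≤
      ∑ l ∈ Ioc 0 ⌊k ^ (2 : ℝ)⌋₊, ArithmeticFunction.vonMangoldt l / (l : ℝ) := by
    refine Finset.sum_le_sum_of_subset_of_nonneg ?_ fun l _ _ => ?_
    · unfold Ms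
      exact Finset.Ioc_subset_Ioc_left (Nat.zero_le _)
    · exact div_nonneg ArithmeticFunction.vonMangoldt_nonneg (Nat.cast_nonneg _)
  linarith

theorem Pf_triv (k t : ℝ) (hk : 2 ≤ k) : ‖Pf k t‖ ≤ 2 * Real.log k + 6 := by
  unfold Pf
  refine (DP_norm_le _ _ _).trans (le_trans (le_of_eq ?_) (C1_sum (by linarith : 1 ≤ k)))
  refine Finset.sum_congr rfl fun l _ => ?_
  rw [abs_of_nonneg ArithmeticFunction.vonMangoldt_nonneg]

theorem Pf_mvt : ∃ C k0 : ℝ, 0 < C ∧ ∀ k τ : ℝ, k0 ≤ k → 1 ≤ τ → τ ≤ k ^ ((1 : ℝ) / 2) →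
    ∫ t in Set.Icc (-τ) τ, ‖Pf k t‖ ^ 2 ≤ C * (Real.log k) ^ 2 := by
  obtain ⟨C, hC, h⟩ := mvt_sharp
  refine ⟨32 * C, Real.exp 1, by positivity, fun k τ hk hτ hτk => ?_⟩
  have hk0 : 0 < k := (Real.exp_pos 1).trans_le hk
  have hlog : 1 ≤ Real.log k := (Real.le_log_iff_exp_le hk0).2 hk
  have hk1 : 1 ≤ k := (Real.one_le_exp (by norm_num)).trans hk
  have hN : 1 ≤ k ^ ((1 : ℝ) / 2) := Real.one_le_rpow hk1 (by norm_num)
  have hMs : ∀ l ∈ Ms k (1 / 2) 2, 1 ≤ l ∧ k ^ ((1 : ℝ) / 2) ≤ (l : ℝ) ∧ (l : ℝ) ≤ k ^ (2 : ℝ) := by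
    intro l hl
    unfold Ms at hl
    rw [Finset.mem_Ioc] at hl
    refine ⟨by omega, ?_, ?_⟩
    · exact (Nat.lt_of_floor_lt hl.1).le
    · exact (Nat.le_floor_iff (by positivity)).1 hl.2
  have h1 := h (Ms k (1 / 2) 2) (fun l => ArithmeticFunction.vonMangoldt l) τ (k ^ ((1 : ℝ) / 2))
    hτ hN (fun l hl => ⟨(hMs l hl).1, (hMs l hl).2.1⟩)
  have h2 : ∑ l ∈ Ms k (1 / 2) 2, (ArithmeticFunction.vonMangoldt l) ^ 2 / (l : ℝ) ≤
      (2 * Real.log k) * (2 * Real.log k + 6) := by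
    calc ∑ l ∈ Ms k (1 / 2) 2, (ArithmeticFunction.vonMangoldt l) ^ 2 / (l : ℝ)
        ≤ ∑ l ∈ Ms k (1 / 2) 2, (2 * Real.log k) * (ArithmeticFunction.vonMangoldt l / (l : ℝ)) := by
          refine Finset.sum_le_sum fun l hl => ?_
          obtain ⟨l1, l2, l3⟩ := hMs l hl
          have hl0 : (0 : ℝ) < l := by exact_mod_cast l1
          have e1 : ArithmeticFunction.vonMangoldt l ≤ 2 * Real.log k := by
            refine ArithmeticFunction.vonMangoldt_le_log.trans ?_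
            have := Real.log_le_log hl0 l3
            rwa [Real.log_rpow hk0] at this
          have e0 : 0 ≤ ArithmeticFunction.vonMangoldt l := ArithmeticFunction.vonMangoldt_nonneg
          have e2 : (ArithmeticFunction.vonMangoldt l) ^ 2 / (l : ℝ) =
              ArithmeticFunction.vonMangoldt l * (ArithmeticFunction.vonMangoldt l / (l : ℝ)) := by
            ring
          rw [e2]
          exact mul_le_mul_of_nonneg_right e1 (div_nonneg e0 hl0.le)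
      _ = (2 * Real.log k) * ∑ l ∈ Ms k (1 / 2) 2, ArithmeticFunction.vonMangoldt l / (l : ℝ) := by
          rw [Finset.mul_sum]
      _ ≤ (2 * Real.log k) * (2 * Real.log k + 6) :=
          mul_le_mul_of_nonneg_left (C1_sum hk1) (by linarith)
  have h3 : τ / k ^ ((1 : ℝ) / 2) + 1 ≤ 2 := by
    have : τ / k ^ ((1 : ℝ) / 2) ≤ 1 := (div_le_one (by linarith)).2 hτk
    linarith
  have h4 : 0 ≤ ∑ l ∈ Ms k (1 / 2) 2, (ArithmeticFunction.vonMangoldt l) ^ 2 / (l : ℝ) :=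
    Finset.sum_nonneg fun l _ => by positivity
  calc ∫ t in Set.Icc (-τ) τ, ‖Pf k t‖ ^ 2
      ≤ C * (τ / k ^ ((1 : ℝ) / 2) + 1) *
        ∑ l ∈ Ms k (1 / 2) 2, (ArithmeticFunction.vonMangoldt l) ^ 2 / (l : ℝ) := h1
    _ ≤ C * 2 * ((2 * Real.log k) * (2 * Real.log k + 6)) := by
        refine mul_le_mul (mul_le_mul_of_nonneg_left h3 hC.le) h2 h4 (by positivity)
    _ ≤ 32 * C * (Real.log k) ^ 2 := by
        have : C * 2 * ((2 * Real.log k) * (2 * Real.log k + 6)) =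
          C * (8 * (Real.log k) ^ 2 + 24 * Real.log k) := by ring
        rw [this]
        have e1 : Real.log k ≤ (Real.log k) ^ 2 := by nlinarith
        have e2 : 8 * (Real.log k) ^ 2 + 24 * Real.log k ≤ 32 * (Real.log k) ^ 2 := by linarith
        calc C * (8 * (Real.log k) ^ 2 + 24 * Real.log k) ≤ C * (32 * (Real.log k) ^ 2) :=
              mul_le_mul_of_nonneg_left e2 hC.le
          _ = 32 * C * (Real.log k) ^ 2 := by ring

end Pool.Agent.Lib.MP_9a8698_nt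
end

section

/-!
C3. Sums of Gaussians over integers, Gaussian tails.

PROOF of `sum_gs`. `h(y) = gs R (log y - w)/y`, `∫_{log A}^{log B} gs R (x-w) dx = ∫_A^B h(y) dy` (substitution `x = log y`);
`|h'(y)| ≤ (sup |gs'| + sup gs)/y² ≤ R²/y²` because `gs R ≤ R/√(2π) ≤ (1/2) R`, `|gs R ' (x)| = R² |x| gs R x ≤ R²/√(2π) e^(-1/2) ≤ R²/2`, `R ≥ 1`.
So `|h(m) - ∫_{m-1}^m h| ≤ R²/(m-1)²` and `∑_{m > A} (m-1)^(-2) ≤ 2/A`.
(Alternatively: compare `∫_{log(m-1)}^{log m} gs R (x-w) dx` with `(1/m) gs R (log m - w)` directly.)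
PROOF of `gs_tail`. For `x ≥ X`: `(τx)²/2 ≥ (τX)²/4 + (τx)²/4`, and `∫ τ/√(2π) exp(-(τx)²/4) dx = √2 ≤ 2`.
-/

set_option autoImplicit false

open Finset MeasureTheory

namespace Pool.Agent.Lib.MP_9a8698_nt

private theorem C3_sqrt : (2 : ℝ) ≤ Real.sqrt (2 * Real.pi) := by
  rw [Real.le_sqrt (by norm_num) (by positivity)]
  have := Real.pi_gt_three
  linarith

private theorem C3_const {R : ℝ} (hR : 0 ≤ R) : R / Real.sqrt (2 * Real.pi) ≤ R / 2 :=
  div_le_div_of_nonneg_left hR (by norm_num) C3_sqrt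

private theorem C3_gs_le {R : ℝ} (hR : 0 ≤ R) (x : ℝ) : gs R x ≤ R / 2 := by
  unfold gs
  have h1 : Real.exp (-((R * x) ^ 2 / 2)) ≤ 1 := by
    rw [Real.exp_le_one_iff]
    have := sq_nonneg (R * x)
    linarith
  calc R / Real.sqrt (2 * Real.pi) * Real.exp (-((R * x) ^ 2 / 2))
      ≤ R / 2 * 1 := mul_le_mul (C3_const hR) h1 (Real.exp_pos _).le (by linarith)
    _ = R / 2 := mul_one _

private theorem C3_gs_deriv (R x : ℝ) : HasDerivAt (gs R) (-(R ^ 2 * x) * gs R x) x := by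
  unfold gs
  have h1 : HasDerivAt (fun x : ℝ => R * x) R x := by
    simpa using (hasDerivAt_id x).const_mul R
  have h2 : HasDerivAt (fun x : ℝ => -((R * x) ^ 2 / 2)) (-((2 * (R * x) * R) / 2)) x := by
    have := (h1.pow 2).div_const 2
    have h3 := this.neg
    refine h3.congr_deriv ?_
    simp
  have h3 := h2.exp.const_mul (R / Real.sqrt (2 * Real.pi))
  refine h3.congr_deriv ?_
  ring

private theorem C3_gs_deriv_le {R : ℝ} (hR : 0 ≤ R) (x : ℝ) :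
    |-(R ^ 2 * x) * gs R x| ≤ R ^ 2 / 2 := by
  have h0 : 0 ≤ gs R x := gs_nonneg hR x
  rw [abs_mul, abs_neg, abs_mul, abs_of_nonneg (sq_nonneg R), abs_of_nonneg h0]
  unfold gs
  have h1 : |R * x| * Real.exp (-((R * x) ^ 2 / 2)) ≤ 1 := by
    rw [Real.exp_neg, ← div_eq_mul_inv, div_le_one (Real.exp_pos _)]
    have h2 := Real.add_one_le_exp ((R * x) ^ 2 / 2)
    have h3 := sq_nonneg (|R * x| - 1)
    have h4 := sq_abs (R * x)
    nlinarith
  have h5 : R ^ 2 * |x| * (R / Real.sqrt (2 * Real.pi) * Real.exp (-((R * x) ^ 2 / 2))) =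
      R * (R / Real.sqrt (2 * Real.pi)) * (|R * x| * Real.exp (-((R * x) ^ 2 / 2))) := by
    rw [abs_mul, abs_of_nonneg hR]
    ring
  rw [h5]
  calc R * (R / Real.sqrt (2 * Real.pi)) * (|R * x| * Real.exp (-((R * x) ^ 2 / 2)))
      ≤ R * (R / 2) * 1 := by
        refine mul_le_mul (mul_le_mul_of_nonneg_left (C3_const hR) hR) h1 (by positivity)
          (by positivity)
    _ = R ^ 2 / 2 := by ring

private theorem C3_gs_cont (R : ℝ) : Continuous (gs R) := by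
  unfold gs
  fun_prop

private theorem C3_step (m : ℕ) (hm : 1 ≤ m) (R w : ℝ) (hR : 1 ≤ R) :
    |(1 : ℝ) / ((m + 1 : ℕ) : ℝ) * gs R (Real.log ((m + 1 : ℕ) : ℝ) - w) -
      ∫ x in (Real.log m)..(Real.log ((m + 1 : ℕ) : ℝ)), gs R (x - w)| ≤ R ^ 2 / (m : ℝ) ^ 2 := by
  have hm0 : (0 : ℝ) < m := by exact_mod_cast hm
  have hR0 : 0 ≤ R := by linarith
  set M : ℝ := R ^ 2 / (m : ℝ) ^ 2 with hM
  have hM0 : 0 ≤ M := by positivity
  have hI : ∀ x ∈ Set.Icc (m : ℝ) ((m + 1 : ℕ) : ℝ), 0 < x := fun x hx => hm0.trans_le hx.1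
  have hmm : (m : ℝ) ≤ ((m + 1 : ℕ) : ℝ) := by
    push_cast
    linarith
  set h : ℝ → ℝ := fun y => y⁻¹ * gs R (Real.log y - w) with hh
  have hlog : ∀ y : ℝ, 0 < y → HasDerivAt (fun y => Real.log y - w) y⁻¹ y := fun y hy =>
    (Real.hasDerivAt_log hy.ne').sub_const w
  have hd : ∀ y : ℝ, 0 < y → HasDerivAt h
      (-(y ^ 2)⁻¹ * gs R (Real.log y - w) +
        y⁻¹ * (-(R ^ 2 * (Real.log y - w)) * gs R (Real.log y - w) * y⁻¹)) y := by
    intro y hy
    have e1 := (hasDerivAt_inv hy.ne')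
    have e2 : HasDerivAt (fun y => gs R (Real.log y - w))
        (-(R ^ 2 * (Real.log y - w)) * gs R (Real.log y - w) * y⁻¹) y := by
      have := (C3_gs_deriv R (Real.log y - w)).comp y (hlog y hy)
      exact this
    exact e1.mul e2
  have h1 : ∀ y ∈ Set.Icc (m : ℝ) ((m + 1 : ℕ) : ℝ),
      ‖-(y ^ 2)⁻¹ * gs R (Real.log y - w) +
        y⁻¹ * (-(R ^ 2 * (Real.log y - w)) * gs R (Real.log y - w) * y⁻¹)‖ ≤ M := by
    intro y hy
    have hy0 := hI y hy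
    have e1 : -(y ^ 2)⁻¹ * gs R (Real.log y - w) +
        y⁻¹ * (-(R ^ 2 * (Real.log y - w)) * gs R (Real.log y - w) * y⁻¹) =
        (y ^ 2)⁻¹ * (-(R ^ 2 * (Real.log y - w)) * gs R (Real.log y - w) -
          gs R (Real.log y - w)) := by
      field_simp
      ring
    rw [e1, norm_mul, Real.norm_of_nonneg (by positivity), Real.norm_eq_abs]
    have e2 := C3_gs_deriv_le hR0 (Real.log y - w)
    have e3 := C3_gs_le hR0 (Real.log y - w)
    have e4 := gs_nonneg hR0 (Real.log y - w)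
    have e5 : |-(R ^ 2 * (Real.log y - w)) * gs R (Real.log y - w) -
          gs R (Real.log y - w)| ≤ R ^ 2 := by
      refine (abs_sub _ _).trans ?_
      rw [abs_of_nonneg e4]
      nlinarith
    have e6 : (y ^ 2)⁻¹ ≤ ((m : ℝ) ^ 2)⁻¹ :=
      inv_anti₀ (by positivity) (pow_le_pow_left₀ hm0.le hy.1 2)
    calc (y ^ 2)⁻¹ * |-(R ^ 2 * (Real.log y - w)) * gs R (Real.log y - w) -
          gs R (Real.log y - w)| ≤ ((m : ℝ) ^ 2)⁻¹ * R ^ 2 :=
          mul_le_mul e6 e5 (abs_nonneg _) (by positivity)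
      _ = M := by rw [hM, div_eq_mul_inv, mul_comm]
  have h2 : ∀ x ∈ Set.Icc (m : ℝ) ((m + 1 : ℕ) : ℝ), ‖h x - h ((m + 1 : ℕ) : ℝ)‖ ≤ M := by
    intro x hx
    have := (convex_Icc (m : ℝ) ((m + 1 : ℕ) : ℝ)).norm_image_sub_le_of_norm_hasDerivWithin_le
      (fun y hy => (hd y (hI y hy)).hasDerivWithinAt) h1 (Set.right_mem_Icc.2 hmm) hx
    refine this.trans ?_
    have e : ‖x - ((m + 1 : ℕ) : ℝ)‖ ≤ 1 := by
      rw [Real.norm_eq_abs, abs_le]
      have h3 := hx.1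
      have h4 := hx.2
      push_cast at h4 ⊢
      constructor <;> linarith
    nlinarith
  have hc : Continuous fun x : ℝ => gs R (x - w) := (C3_gs_cont R).comp (continuous_sub_right w)
  have h3 : ∀ y ∈ Set.Icc (m : ℝ) ((m + 1 : ℕ) : ℝ), HasDerivWithinAt
      (fun y : ℝ => (∫ x in (Real.log m)..(Real.log y), gs R (x - w)) -
        y * h ((m + 1 : ℕ) : ℝ)) (h y - h ((m + 1 : ℕ) : ℝ))
      (Set.Icc (m : ℝ) ((m + 1 : ℕ) : ℝ)) y := by
    intro y hy
    have hy0 := hI y hy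
    have e1 : HasDerivAt (fun z => ∫ x in (Real.log m)..z, gs R (x - w))
        (gs R (Real.log y - w)) (Real.log y) :=
      intervalIntegral.integral_hasDerivAt_right (hc.intervalIntegrable _ _)
        (hc.stronglyMeasurableAtFilter _ _) hc.continuousAt
    have e2 : HasDerivAt (fun y => ∫ x in (Real.log m)..(Real.log y), gs R (x - w))
        (gs R (Real.log y - w) * y⁻¹) y :=
      HasDerivAt.comp y e1 (Real.hasDerivAt_log hy0.ne')
    have e3 : HasDerivAt (fun y : ℝ => y * h ((m + 1 : ℕ) : ℝ)) (1 * h ((m + 1 : ℕ) : ℝ)) y :=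
      (hasDerivAt_id y).mul_const _
    have e4 := e2.sub e3
    refine (e4.congr_deriv ?_).hasDerivWithinAt
    rw [hh]
    ring
  have h4 := (convex_Icc (m : ℝ) ((m + 1 : ℕ) : ℝ)).norm_image_sub_le_of_norm_hasDerivWithin_le
    h3 h2 (Set.left_mem_Icc.2 hmm) (Set.right_mem_Icc.2 hmm)
  have e5 : ‖((m + 1 : ℕ) : ℝ) - (m : ℝ)‖ = 1 := by
    push_cast
    norm_num
  rw [e5, mul_one, Real.norm_eq_abs, intervalIntegral.integral_same] at h4
  refine le_trans (le_of_eq ?_) h4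
  rw [← abs_neg]
  congr 1
  simp only [hh]
  push_cast
  ring

theorem sum_gs (A B : ℕ) (hA : 1 ≤ A) (hAB : A ≤ B) (R w : ℝ) (hR : 1 ≤ R) :
    |(∑ m ∈ Ioc A B, (1 : ℝ) / m * gs R (Real.log m - w)) -
      ∫ x in (Real.log A)..(Real.log B), gs R (x - w)| ≤ 2 * R ^ 2 / A := by
  have hA0 : (0 : ℝ) < A := by exact_mod_cast hA
  have hc : Continuous fun x : ℝ => gs R (x - w) := (C3_gs_cont R).comp (continuous_sub_right w)
  have key : ∀ B : ℕ, A ≤ B → |(∑ m ∈ Ioc A B, (1 : ℝ) / m * gs R (Real.log m - w)) -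
      ∫ x in (Real.log A)..(Real.log B), gs R (x - w)| ≤
      2 * R ^ 2 * (1 / (A : ℝ) - 1 / (B : ℝ)) := by
    intro B hB
    induction B, hB using Nat.le_induction with
    | base => simp
    | succ B hB ih =>
      have hB1 : 1 ≤ B := hA.trans hB
      have hB0 : (0 : ℝ) < B := by exact_mod_cast hB1
      have hB1' : (1 : ℝ) ≤ B := by exact_mod_cast hB1
      have e2 := C3_step B hB1 R w hR
      have e3 : R ^ 2 / (B : ℝ) ^ 2 ≤ 2 * R ^ 2 * (1 / (B : ℝ) - 1 / ((B + 1 : ℕ) : ℝ)) := by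
        have f1 : 2 * R ^ 2 * (1 / (B : ℝ) - 1 / ((B + 1 : ℕ) : ℝ)) =
            R ^ 2 * (2 / (B * (B + 1))) := by
          push_cast
          field_simp
          ring
        rw [f1, div_eq_mul_one_div]
        refine mul_le_mul_of_nonneg_left ?_ (by positivity)
        rw [div_le_div_iff₀ (by positivity) (by positivity)]
        nlinarith
      rw [Finset.sum_Ioc_succ_top hB, ← intervalIntegral.integral_add_adjacent_intervals
        (hc.intervalIntegrable (Real.log A) (Real.log B))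
        (hc.intervalIntegrable (Real.log B) (Real.log ((B + 1 : ℕ) : ℝ)))]
      have e4 : (∑ m ∈ Ioc A B, (1 : ℝ) / m * gs R (Real.log m - w) +
          1 / ((B + 1 : ℕ) : ℝ) * gs R (Real.log ((B + 1 : ℕ) : ℝ) - w)) -
          ((∫ x in (Real.log A)..(Real.log B), gs R (x - w)) +
            ∫ x in (Real.log B)..(Real.log ((B + 1 : ℕ) : ℝ)), gs R (x - w)) =
          ((∑ m ∈ Ioc A B, (1 : ℝ) / m * gs R (Real.log m - w)) -
            ∫ x in (Real.log A)..(Real.log B), gs R (x - w)) +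
          (1 / ((B + 1 : ℕ) : ℝ) * gs R (Real.log ((B + 1 : ℕ) : ℝ) - w) -
            ∫ x in (Real.log B)..(Real.log ((B + 1 : ℕ) : ℝ)), gs R (x - w)) := by ring
      rw [e4]
      refine (abs_add_le _ _).trans ?_
      calc _ ≤ 2 * R ^ 2 * (1 / (A : ℝ) - 1 / (B : ℝ)) +
            2 * R ^ 2 * (1 / (B : ℝ) - 1 / ((B + 1 : ℕ) : ℝ)) := add_le_add ih (e2.trans e3)
        _ = _ := by ring
  refine (key B hAB).trans ?_
  have : (0 : ℝ) ≤ 1 / (B : ℝ) := by positivity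
  rw [div_eq_mul_one_div (2 * R ^ 2)]
  exact mul_le_mul_of_nonneg_left (by linarith) (by positivity)

theorem gs_integrable {τ : ℝ} (hτ : 0 < τ) : Integrable (gs τ) := by
  have h := (integrable_exp_neg_mul_sq (b := τ ^ 2 / 2) (by positivity)).const_mul
    (τ / Real.sqrt (2 * Real.pi))
  refine h.congr (Filter.Eventually.of_forall fun t => ?_)
  simp only [gs]
  congr 2
  ring

theorem gs_tail (τ X : ℝ) (hτ : 0 < τ) (hX : 0 ≤ X) :
    ∫ x in {x : ℝ | X ≤ |x|}, gs τ x ≤ 2 * Real.exp (-((τ * X) ^ 2 / 4)) := by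
  have hs : MeasurableSet {x : ℝ | X ≤ |x|} := measurableSet_le measurable_const measurable_norm
  have hint : Integrable fun x : ℝ => Real.exp (-((τ * X) ^ 2 / 4)) *
      (τ / Real.sqrt (2 * Real.pi) * Real.exp (-(τ ^ 2 / 4) * x ^ 2)) :=
    ((integrable_exp_neg_mul_sq (b := τ ^ 2 / 4) (by positivity)).const_mul _).const_mul _
  have h1 : ∫ x in {x : ℝ | X ≤ |x|}, gs τ x ≤ ∫ x in {x : ℝ | X ≤ |x|},
      Real.exp (-((τ * X) ^ 2 / 4)) *
        (τ / Real.sqrt (2 * Real.pi) * Real.exp (-(τ ^ 2 / 4) * x ^ 2)) := by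
    refine setIntegral_mono_on (gs_integrable hτ).integrableOn hint.integrableOn hs ?_
    intro x hx
    have hx' : X ≤ |x| := hx
    unfold gs
    have e1 : Real.exp (-((τ * X) ^ 2 / 4)) *
        (τ / Real.sqrt (2 * Real.pi) * Real.exp (-(τ ^ 2 / 4) * x ^ 2)) =
        τ / Real.sqrt (2 * Real.pi) *
          Real.exp (-((τ * X) ^ 2 / 4) + -(τ ^ 2 / 4) * x ^ 2) := by
      rw [Real.exp_add]
      ring
    rw [e1]
    refine mul_le_mul_of_nonneg_left (Real.exp_le_exp.2 ?_) (by positivity)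
    have e2 : X ^ 2 ≤ x ^ 2 := by
      rw [← sq_abs x]
      exact pow_le_pow_left₀ hX hx' 2
    have e3 : (τ * X) ^ 2 ≤ (τ * x) ^ 2 := by
      rw [mul_pow, mul_pow]
      exact mul_le_mul_of_nonneg_left e2 (by positivity)
    have e4 : τ ^ 2 / 4 * x ^ 2 = (τ * x) ^ 2 / 4 := by ring
    linarith
  refine h1.trans ?_
  refine (setIntegral_le_integral hint (Filter.Eventually.of_forall fun x => ?_)).trans ?_
  · simp only [Pi.zero_apply]
    positivity
  · rw [integral_const_mul, integral_const_mul, integral_gaussian, mul_comm]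
    refine mul_le_mul_of_nonneg_right ?_ (Real.exp_pos _).le
    have e1 : Real.pi / (τ ^ 2 / 4) = 4 * Real.pi / τ ^ 2 := by
      field_simp
    rw [e1, Real.sqrt_div (by positivity), Real.sqrt_sq hτ.le]
    have e2 : Real.sqrt (4 * Real.pi) ≤ 2 * Real.sqrt (2 * Real.pi) := by
      rw [show (4 : ℝ) * Real.pi = 2 ^ 2 * Real.pi by ring, Real.sqrt_mul (by positivity),
        Real.sqrt_sq (by norm_num)]
      have := Real.sqrt_le_sqrt (show Real.pi ≤ 2 * Real.pi by linarith [Real.pi_pos])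
      linarith
    have e3 : 0 < Real.sqrt (2 * Real.pi) := Real.sqrt_pos.2 (by positivity)
    have e4 : τ / Real.sqrt (2 * Real.pi) * (Real.sqrt (4 * Real.pi) / τ) =
        Real.sqrt (4 * Real.pi) / Real.sqrt (2 * Real.pi) := by
      field_simp
    rw [e4, div_le_iff₀ e3]
    exact e2

end Pool.Agent.Lib.MP_9a8698_nt
end
end
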