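import Pool.Agent.Lib.MP_9a8698_nt.C3

section

/-!
C5. Representations of one integer, and the prime powers.

PROOF of `rep_bound`. If `q m l = N` then `q ∣ N` is prime, `l ∣ N`, and `m` is determined by `q, l`; so the sum is at most
`∑_{q ∣ N prime} ∑_{l ∣ N} Λ(l) = ω(N) log N` (`ArithmeticFunction.vonMangoldt_sum`), and `2^ω(N) ≤ N` gives `ω(N) ≤ log N/log 2 ≤ 2 log N`.
PROOF of `count_square`. Let `N ∈ (n, n+k]`, `s² ∣ N`, `s ≥ k^(1/4)`. Number of such `N` with `s ≤ √k`: at most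
`∑_{k^(1/4) ≤ s ≤ k^(1/2)} (k/s² + 1) ≤ 3 k^(3/4) + k^(1/2)`. With `s > √k`: `N = s² M`, `M ≤ 2n/k ≤ 2 k^(β+ε₂)`, and for every `M` the number of `s` is at
most `√((n+k)/M) - √(n/M) + 1 ≤ k/(2√(nM)) + 1`; the sum over `M` is at most `k n^(-1/2) √(2k^(β+ε₂)) · 2 + 2k^(β+ε₂) ≤ 4 k^(1/2+ε₂) + 2 k^(β+ε₂)`. All
exponents are `< 22/25`.
PROOF of `pp_bound`. If `n < q m l ≤ n + k` and `l = p^j`, `j ≥ 2`, then `l ≥ n/(q m) ≥ k^(1+β-ε₂-ε₂-β-2ε₂) ≥ k^(3/4)`, and `N = q m l` is divisible by `s²`,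
`s = p^⌊j/2⌋`, `s² ≥ l^(2/3) ≥ k^(1/2)`. Group the triples by `N`: at most `2 (log N)²` each (`rep_bound`), at most `k^(22/25)` values of `N`.
(`Λ l = 0` unless `l` is a prime power.)
-/

set_option autoImplicit false

open Finset

namespace Pool.Agent.Lib.MP_9a8698_nt

private theorem C5_omega (N : ℕ) (hN : 1 ≤ N) :
    (#N.primeFactors : ℝ) * Real.log 2 ≤ Real.log N := by
  have h1 : 2 ^ #N.primeFactors ≤ N := by
    calc 2 ^ #N.primeFactors = ∏ _p ∈ N.primeFactors, 2 := by rw [Finset.prod_const]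
      _ ≤ ∏ p ∈ N.primeFactors, p := Finset.prod_le_prod (fun _ _ => by norm_num)
          (fun p hp => (Nat.prime_of_mem_primeFactors hp).two_le)
      _ ≤ N := Nat.le_of_dvd hN (Nat.prod_primeFactors_dvd N)
  have h2 : (2 : ℝ) ^ #N.primeFactors ≤ N := by exact_mod_cast h1
  have h3 := Real.log_le_log (by positivity) h2
  rwa [Real.log_pow] at h3

theorem rep_bound (k ε₁ ε₂ μ lam : ℝ) (N : ℕ) (hN : 1 ≤ N) :
    ∑ q ∈ Qs k ε₁ ε₂, ∑ m ∈ Ms k μ (μ + lam), ∑ l ∈ Ms k (1 / 2) 2,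
      (if q * m * l = N then ArithmeticFunction.vonMangoldt l else 0) ≤ 2 * (Real.log N) ^ 2 := by
  classical
  have hlogN : 0 ≤ Real.log N := Real.log_natCast_nonneg N
  have hL : ∀ l : ℕ, 0 ≤ ArithmeticFunction.vonMangoldt l := fun l =>
    ArithmeticFunction.vonMangoldt_nonneg
  have h1 : ∀ q ∈ Qs k ε₁ ε₂, ∑ m ∈ Ms k μ (μ + lam), ∑ l ∈ Ms k (1 / 2) 2,
      (if q * m * l = N then ArithmeticFunction.vonMangoldt l else 0) ≤
      if q ∈ N.primeFactors then Real.log N else 0 := by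
    intro q hq
    have hqp : q.Prime := by
      unfold Qs at hq
      exact (mem_filter.mp hq).2
    split_ifs with hqN
    · rw [Finset.sum_comm]
      calc ∑ l ∈ Ms k (1 / 2) 2, ∑ m ∈ Ms k μ (μ + lam),
            (if q * m * l = N then ArithmeticFunction.vonMangoldt l else 0)
          ≤ ∑ l ∈ Ms k (1 / 2) 2,
            if l ∈ N.divisors then ArithmeticFunction.vonMangoldt l else 0 := by
            refine Finset.sum_le_sum fun l hl => ?_
            split_ifs with hlN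
            · rw [← Finset.sum_filter, Finset.sum_const, nsmul_eq_mul]
              have hc : #{m ∈ Ms k μ (μ + lam) | q * m * l = N} ≤ 1 := by
                rw [Finset.card_le_one]
                intro a ha b hb
                rw [mem_filter] at ha hb
                have h := ha.2.trans hb.2.symm
                have hl0 : 0 < l := Nat.pos_of_mem_divisors hlN
                exact Nat.eq_of_mul_eq_mul_left hqp.pos (Nat.eq_of_mul_eq_mul_right hl0 h)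
              have hc' : ((#{m ∈ Ms k μ (μ + lam) | q * m * l = N} : ℕ) : ℝ) ≤ 1 := by
                exact_mod_cast hc
              have := mul_le_mul_of_nonneg_right hc' (hL l)
              rwa [one_mul] at this
            · refine le_of_eq (Finset.sum_eq_zero fun m _ => ?_)
              rw [if_neg]
              intro h
              exact hlN (Nat.mem_divisors.2 ⟨⟨q * m, by rw [← h]; ring⟩, by omega⟩)
        _ ≤ ∑ l ∈ N.divisors, ArithmeticFunction.vonMangoldt l := by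
            rw [← Finset.sum_filter]
            exact Finset.sum_le_sum_of_subset_of_nonneg (fun l hl => (mem_filter.mp hl).2)
              (fun l _ _ => hL l)
        _ = Real.log N := ArithmeticFunction.vonMangoldt_sum
    · refine le_of_eq (Finset.sum_eq_zero fun m _ => Finset.sum_eq_zero fun l _ => ?_)
      rw [if_neg]
      intro h
      exact hqN (Nat.mem_primeFactors.2 ⟨hqp, ⟨m * l, by rw [← h]; ring⟩, by omega⟩)
  refine (Finset.sum_le_sum h1).trans ?_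
  rw [← Finset.sum_filter, Finset.sum_const, nsmul_eq_mul]
  have h2 : #{q ∈ Qs k ε₁ ε₂ | q ∈ N.primeFactors} ≤ #N.primeFactors :=
    Finset.card_le_card fun q hq => (mem_filter.mp hq).2
  have h3 : ((#{q ∈ Qs k ε₁ ε₂ | q ∈ N.primeFactors} : ℕ) : ℝ) ≤ #N.primeFactors := by
    exact_mod_cast h2
  have h4 := C5_omega N hN
  have h5 : (1 : ℝ) / 2 ≤ Real.log 2 := by linarith [Real.log_two_gt_d9]
  have h6 : (#N.primeFactors : ℝ) ≤ 2 * Real.log N := by
    have : (#N.primeFactors : ℝ) * (1 / 2) ≤ (#N.primeFactors : ℝ) * Real.log 2 :=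
      mul_le_mul_of_nonneg_left h5 (Nat.cast_nonneg _)
    linarith
  calc ((#{q ∈ Qs k ε₁ ε₂ | q ∈ N.primeFactors} : ℕ) : ℝ) * Real.log N
      ≤ (2 * Real.log N) * Real.log N :=
        mul_le_mul_of_nonneg_right (h3.trans h6) hlogN
    _ = 2 * (Real.log N) ^ 2 := by ring

private theorem C5_mult (n k d : ℕ) (hd : 0 < d) :
    ((#((Ioc n (n + k)).filter (fun N => d ∣ N)) : ℕ) : ℝ) ≤ (k : ℝ) / d + 1 := by
  have h1 : #((Ioc n (n + k)).filter (fun N => d ∣ N)) ≤ #(Ioc (n / d) ((n + k) / d)) := by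
    refine Finset.card_le_card_of_injOn (fun N => N / d) ?_ ?_
    · intro N hN
      rw [Finset.mem_coe, mem_filter, mem_Ioc] at hN
      rw [Finset.mem_coe, mem_Ioc]
      obtain ⟨⟨a, b⟩, c, rfl⟩ := hN
      simp only [Nat.mul_div_cancel_left _ hd]
      exact ⟨(Nat.div_lt_iff_lt_mul hd).2 (by rwa [mul_comm]),
        (Nat.le_div_iff_mul_le hd).2 (by rwa [mul_comm])⟩
    · intro N hN N' hN' h
      rw [Finset.mem_coe, mem_filter] at hN hN'
      obtain ⟨_, c, rfl⟩ := hN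
      obtain ⟨_, c', rfl⟩ := hN'
      simp only [Nat.mul_div_cancel_left _ hd] at h
      rw [h]
  rw [Nat.card_Ioc] at h1
  have h2 : (n + k) / d ≤ n / d + k / d + 1 := by
    rw [Nat.add_div hd]
    split_ifs <;> omega
  have h3 : #((Ioc n (n + k)).filter (fun N => d ∣ N)) ≤ k / d + 1 := by
    have h4 := Nat.zero_le (k / d)
    have h5 := Nat.zero_le (n / d)
    omega
  calc ((#((Ioc n (n + k)).filter (fun N => d ∣ N)) : ℕ) : ℝ) ≤ ((k / d + 1 : ℕ) : ℝ) := by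
        exact_mod_cast h3
    _ ≤ (k : ℝ) / d + 1 := by
        push_cast
        have := Nat.cast_div_le (α := ℝ) (m := k) (n := d)
        linarith

open Classical in
/-- The large square divisors with a given cofactor. -/
private noncomputable def C5_S (n k M : ℕ) : Finset ℕ :=
  (range (n + k + 1)).filter (fun s => Real.sqrt k < s ∧ n < s ^ 2 * M ∧ s ^ 2 * M ≤ n + k)

private theorem C5_S_card (n k M : ℕ) (hk : 1 ≤ k) (hM : 1 ≤ M) :
    ((#(C5_S n k M) : ℕ) : ℝ) ≤ Real.sqrt k / 2 * (M : ℝ)⁻¹ + 1 := by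
  classical
  have hk0 : (0 : ℝ) < k := by exact_mod_cast hk
  have hM0 : (0 : ℝ) < M := by exact_mod_cast hM
  have hs0 : 0 < Real.sqrt k := Real.sqrt_pos.2 hk0
  rcases (C5_S n k M).eq_empty_or_nonempty with h | h
  · rw [h]
    simp only [card_empty, Nat.cast_zero]
    positivity
  · set a := (C5_S n k M).min' h with ha
    set b := (C5_S n k M).max' h with hb
    have ha' : a ∈ C5_S n k M := Finset.min'_mem _ h
    have hb' : b ∈ C5_S n k M := Finset.max'_mem _ h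
    have hab : a ≤ b := Finset.min'_le_max' _ h
    have hsub : C5_S n k M ⊆ Icc a b := by
      intro x hx
      rw [mem_Icc]
      exact ⟨Finset.min'_le _ _ hx, Finset.le_max' _ _ hx⟩
    have h1 := Finset.card_le_card hsub
    rw [Nat.card_Icc] at h1
    unfold C5_S at ha' hb'
    rw [mem_filter] at ha' hb'
    have e1 : ((n : ℝ)) < (a : ℝ) ^ 2 * M := by exact_mod_cast ha'.2.2.1
    have e2 : (b : ℝ) ^ 2 * M ≤ n + k := by exact_mod_cast hb'.2.2.2
    have e3 : Real.sqrt k < a := ha'.2.1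
    have e4 : Real.sqrt k < b := hb'.2.1
    have e5 : ((b : ℝ) - a) * (b + a) * M ≤ k := by nlinarith
    have e6 : (a : ℝ) ≤ b := by exact_mod_cast hab
    have e7 : ((b : ℝ) - a) * (2 * Real.sqrt k) * M ≤ k := by
      refine le_trans ?_ e5
      refine mul_le_mul_of_nonneg_right (mul_le_mul_of_nonneg_left (by linarith)
        (by linarith)) hM0.le
    have e8 : (b : ℝ) - a ≤ Real.sqrt k / 2 * (M : ℝ)⁻¹ := by
      have e9 : Real.sqrt k / 2 * (M : ℝ)⁻¹ = k / (2 * Real.sqrt k * M) := by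
        have := Real.mul_self_sqrt hk0.le
        field_simp
        nlinarith
      rw [e9, le_div_iff₀ (by positivity)]
      linarith
    have h2 : ((#(C5_S n k M) : ℕ) : ℝ) ≤ (b : ℝ) - a + 1 := by
      have h3 : ((#(C5_S n k M) : ℕ) : ℝ) ≤ ((b + 1 - a : ℕ) : ℝ) := by exact_mod_cast h1
      rw [Nat.cast_sub (by omega)] at h3
      push_cast at h3
      linarith
    linarith

open Classical in
theorem count_square (β ε₂ : ℝ) (hβ : 0 < β) (hβ2 : β ≤ 9 / 11) (hε₂ : 0 < ε₂)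
    (hε : ε₂ ≤ 1 / 50) : ∃ k0 : ℝ, ∀ k n : ℕ, k0 ≤ k → (k : ℝ) ^ (1 + β - ε₂) ≤ n →
      (n : ℝ) ≤ (k : ℝ) ^ (1 + β + ε₂) →
      ((#((Ioc n (n + k)).filter (fun N => ∃ s : ℕ, (k : ℝ) ^ ((1 : ℝ) / 4) ≤ s ∧ s ^ 2 ∣ N)) : ℕ)
        : ℝ) ≤ (k : ℝ) ^ ((22 : ℝ) / 25) := by
  have ev1 : ∀ᶠ x : ℝ in Filter.atTop, (7 : ℝ) ≤ x ^ ((3 : ℝ) / 100) :=
    (tendsto_rpow_atTop (by norm_num)).eventually_ge_atTop 7
  have ev2 : ∀ᶠ x : ℝ in Filter.atTop, ‖Real.log x‖ ≤ 1 * ‖x ^ ((1 : ℝ) / 10)‖ :=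
    (isLittleO_log_rpow_atTop (by norm_num)).bound (by norm_num)
  obtain ⟨k0, hk0⟩ := Filter.eventually_atTop.1
    (ev1.and (ev2.and (Filter.eventually_ge_atTop (2 : ℝ))))
  refine ⟨k0, fun k n hk hn1 hn2 => ?_⟩
  obtain ⟨f1, f2, f3⟩ := hk0 k hk
  set x : ℝ := (k : ℝ) with hx
  have hx1 : 1 ≤ x := by linarith
  have hx0 : 0 < x := by linarith
  have hkn : 1 ≤ k := by
    have : (1 : ℝ) ≤ (k : ℝ) := hx1
    exact_mod_cast this
  have f4 : Real.log x ≤ x ^ ((1 : ℝ) / 10) := by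
    rw [one_mul, Real.norm_eq_abs, Real.norm_eq_abs, abs_of_nonneg (Real.rpow_nonneg hx0.le _)] at f2
    exact (le_abs_self _).trans f2
  set a : ℕ := ⌈x ^ ((1 : ℝ) / 4)⌉₊ with ha
  set b : ℕ := ⌊Real.sqrt x⌋₊ with hb
  set M0 : ℕ := ⌊2 * x ^ (β + ε₂)⌋₊ with hM0
  have hx4 : 1 ≤ x ^ ((1 : ℝ) / 4) := Real.one_le_rpow hx1 (by norm_num)
  have ha1 : 1 ≤ a := Nat.one_le_ceil_iff.2 (by linarith)
  have ha2 : x ^ ((1 : ℝ) / 4) ≤ a := Nat.le_ceil _
  have hsub : (Ioc n (n + k)).filter (fun N => ∃ s : ℕ, x ^ ((1 : ℝ) / 4) ≤ s ∧ s ^ 2 ∣ N) ⊆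
      (Icc a b).biUnion (fun s => (Ioc n (n + k)).filter (fun N => s ^ 2 ∣ N)) ∪
      (Icc 1 M0).biUnion (fun M => (C5_S n k M).image (fun s => s ^ 2 * M)) := by
    intro N hN
    rw [mem_filter] at hN
    obtain ⟨hN1, s, hs1, hs2⟩ := hN
    rw [mem_union]
    by_cases hs : (s : ℝ) ≤ Real.sqrt x
    · left
      rw [mem_biUnion]
      refine ⟨s, ?_, mem_filter.2 ⟨hN1, hs2⟩⟩
      rw [mem_Icc]
      exact ⟨Nat.ceil_le.2 hs1, Nat.le_floor hs⟩
    · right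
      push Not at hs
      rw [mem_Ioc] at hN1
      obtain ⟨M, hM⟩ := hs2
      have hN0 : 0 < N := by omega
      have hM1 : 1 ≤ M := by
        rcases Nat.eq_zero_or_pos M with h | h
        · rw [h, mul_zero] at hM
          omega
        · exact h
      have hMr : (1 : ℝ) ≤ M := by exact_mod_cast hM1
      rw [mem_biUnion]
      refine ⟨M, ?_, ?_⟩
      · rw [mem_Icc]
        refine ⟨hM1, Nat.le_floor ?_⟩
        have e1 : x < (s : ℝ) ^ 2 := by
          have e0 : 0 ≤ Real.sqrt x := Real.sqrt_nonneg _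
          have := Real.sq_sqrt hx0.le
          nlinarith
        have e2 : (s : ℝ) ^ 2 * M ≤ n + x := by
          have : s ^ 2 * M ≤ n + k := by
            rw [← hM]
            exact hN1.2
          rw [hx]
          exact_mod_cast this
        have e3 : x ≤ x ^ (1 + β + ε₂) := by
          calc x = x ^ (1 : ℝ) := (Real.rpow_one x).symm
            _ ≤ _ := Real.rpow_le_rpow_of_exponent_le hx1 (by linarith)
        have e4 : x ^ (1 + β + ε₂) = x * x ^ (β + ε₂) := by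
          rw [show 1 + β + ε₂ = 1 + (β + ε₂) by ring, Real.rpow_add hx0, Real.rpow_one]
        have e5 : x * M ≤ x * (2 * x ^ (β + ε₂)) := by nlinarith
        exact le_of_mul_le_mul_left e5 hx0
      · rw [mem_image]
        refine ⟨s, ?_, hM.symm⟩
        unfold C5_S
        rw [mem_filter, mem_range]
        have hsN : s ≤ s ^ 2 * M := by nlinarith
        rw [← hM]
        exact ⟨by omega, hs, hN1.1, hN1.2⟩
  have hcard : ((#((Ioc n (n + k)).filter
      (fun N => ∃ s : ℕ, x ^ ((1 : ℝ) / 4) ≤ s ∧ s ^ 2 ∣ N)) : ℕ) : ℝ) ≤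
      ∑ s ∈ Icc a b, (x * ((s : ℝ) ^ 2)⁻¹ + 1) +
        ∑ M ∈ Icc 1 M0, (Real.sqrt x / 2 * (M : ℝ)⁻¹ + 1) := by
    have h1 := (Finset.card_le_card hsub).trans (Finset.card_union_le _ _)
    have h2 := h1.trans (add_le_add Finset.card_biUnion_le Finset.card_biUnion_le)
    have h3 : ((#((Ioc n (n + k)).filter
      (fun N => ∃ s : ℕ, x ^ ((1 : ℝ) / 4) ≤ s ∧ s ^ 2 ∣ N)) : ℕ) : ℝ) ≤
      ((∑ s ∈ Icc a b, #((Ioc n (n + k)).filter (fun N => s ^ 2 ∣ N)) +
        ∑ M ∈ Icc 1 M0, #((C5_S n k M).image (fun s => s ^ 2 * M)) : ℕ) : ℝ) := by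
      exact_mod_cast h2
    refine h3.trans ?_
    push_cast
    refine add_le_add (Finset.sum_le_sum fun s hs => ?_) (Finset.sum_le_sum fun M hM => ?_)
    · rw [mem_Icc] at hs
      have h4 := C5_mult n k (s ^ 2) (pow_pos (by omega) 2)
      rw [div_eq_mul_inv] at h4
      push_cast at h4
      exact h4
    · rw [mem_Icc] at hM
      refine le_trans ?_ (C5_S_card n k M hkn hM.1)
      exact_mod_cast Finset.card_image_le
  refine hcard.trans ?_
  have g1 : ∑ s ∈ Icc a b, ((s : ℝ) ^ 2)⁻¹ ≤ 2 / a := by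
    have h1 := sum_Ioo_inv_sq_le (α := ℝ) (a - 1) (b + 1)
    have h2 : Ioo (a - 1) (b + 1) = Icc a b := by
      ext z
      rw [mem_Ioo, mem_Icc]
      omega
    rw [h2] at h1
    have h3 : (((a - 1 : ℕ) : ℝ) + 1) = a := by
      rw [Nat.cast_sub ha1]
      simp
    rwa [h3] at h1
  have g2 : ((#(Icc a b) : ℕ) : ℝ) ≤ Real.sqrt x := by
    rw [Nat.card_Icc]
    have h1 : ((b + 1 - a : ℕ) : ℝ) ≤ b := by exact_mod_cast (by omega : b + 1 - a ≤ b)
    exact h1.trans (Nat.floor_le (Real.sqrt_nonneg _))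
  have g3 : ∑ s ∈ Icc a b, (x * ((s : ℝ) ^ 2)⁻¹ + 1) ≤
      2 * x ^ ((3 : ℝ) / 4) + Real.sqrt x := by
    rw [Finset.sum_add_distrib, ← Finset.mul_sum, Finset.sum_const, nsmul_eq_mul, mul_one]
    refine add_le_add ?_ g2
    have h1 : x * (2 / a) ≤ 2 * x ^ ((3 : ℝ) / 4) := by
      have h2 : x = x ^ ((3 : ℝ) / 4) * x ^ ((1 : ℝ) / 4) := by
        rw [← Real.rpow_add hx0]
        norm_num
      have ha0 : (0 : ℝ) < a := by exact_mod_cast ha1
      rw [mul_div_assoc', div_le_iff₀ ha0]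
      have h3 : 0 ≤ x ^ ((3 : ℝ) / 4) := by positivity
      nlinarith
    exact (mul_le_mul_of_nonneg_left g1 hx0.le).trans h1
  have g4 : (M0 : ℝ) ≤ 2 * x ^ (β + ε₂) := Nat.floor_le (by positivity)
  have g5 : ∑ M ∈ Icc 1 M0, (M : ℝ)⁻¹ ≤ 1 + Real.log M0 := by
    have h1 := harmonic_le_one_add_log M0
    rw [harmonic_eq_sum_Icc] at h1
    push_cast at h1
    exact h1
  have g6 : x ^ (β + ε₂) ≤ x ^ ((85 : ℝ) / 100) :=
    Real.rpow_le_rpow_of_exponent_le hx1 (by linarith)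
  have g7 : Real.log M0 ≤ 2 * x ^ ((1 : ℝ) / 10) := by
    rcases Nat.eq_zero_or_pos M0 with h | h
    · rw [h]
      simp only [Nat.cast_zero, Real.log_zero]
      positivity
    · have h0 : (0 : ℝ) < M0 := by exact_mod_cast h
      have h1 : (M0 : ℝ) ≤ x ^ 2 := by
        have h2 : x ^ ((85 : ℝ) / 100) ≤ x ^ (1 : ℝ) :=
          Real.rpow_le_rpow_of_exponent_le hx1 (by norm_num)
        rw [Real.rpow_one] at h2
        nlinarith
      have h2 := Real.log_le_log h0 h1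
      rw [Real.log_pow] at h2
      push_cast at h2
      linarith
  have g8 : ∑ M ∈ Icc 1 M0, (Real.sqrt x / 2 * (M : ℝ)⁻¹ + 1) ≤
      Real.sqrt x / 2 * (1 + 2 * x ^ ((1 : ℝ) / 10)) + 2 * x ^ ((85 : ℝ) / 100) := by
    rw [Finset.sum_add_distrib, ← Finset.mul_sum, Finset.sum_const, nsmul_eq_mul, mul_one]
    refine add_le_add (mul_le_mul_of_nonneg_left (g5.trans (by linarith)) (by positivity)) ?_
    rw [Nat.card_Icc, Nat.add_sub_cancel]
    linarith
  have g9 : Real.sqrt x = x ^ ((1 : ℝ) / 2) := Real.sqrt_eq_rpow x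
  have g10 : x ^ ((1 : ℝ) / 2) ≤ x ^ ((85 : ℝ) / 100) :=
    Real.rpow_le_rpow_of_exponent_le hx1 (by norm_num)
  have g11 : x ^ ((3 : ℝ) / 4) ≤ x ^ ((85 : ℝ) / 100) :=
    Real.rpow_le_rpow_of_exponent_le hx1 (by norm_num)
  have g12 : x ^ ((1 : ℝ) / 2) * x ^ ((1 : ℝ) / 10) ≤ x ^ ((85 : ℝ) / 100) := by
    rw [← Real.rpow_add hx0]
    exact Real.rpow_le_rpow_of_exponent_le hx1 (by norm_num)
  have g13 : 7 * x ^ ((85 : ℝ) / 100) ≤ x ^ ((22 : ℝ) / 25) := by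
    have : x ^ ((22 : ℝ) / 25) = x ^ ((3 : ℝ) / 100) * x ^ ((85 : ℝ) / 100) := by
      rw [← Real.rpow_add hx0]
      norm_num
    rw [this]
    exact mul_le_mul_of_nonneg_right f1 (by positivity)
  rw [g9] at g3 g8
  rw [g9]
  have g14 : x ^ ((1 : ℝ) / 2) / 2 * (1 + 2 * x ^ ((1 : ℝ) / 10)) =
      x ^ ((1 : ℝ) / 2) / 2 + x ^ ((1 : ℝ) / 2) * x ^ ((1 : ℝ) / 10) := by ring
  rw [g14] at g8
  have g15 : 0 ≤ x ^ ((85 : ℝ) / 100) := by positivity
  linarith

private theorem C5_pp {l : ℕ} (hl : ArithmeticFunction.vonMangoldt l ≠ 0) (hlp : ¬ l.Prime)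
    {x : ℝ} (hx : 1 ≤ x) (hxl : x ^ ((3 : ℝ) / 4) ≤ l) :
    ∃ s : ℕ, x ^ ((1 : ℝ) / 4) ≤ s ∧ s ^ 2 ∣ l := by
  rw [ArithmeticFunction.vonMangoldt_ne_zero_iff, isPrimePow_nat_iff] at hl
  obtain ⟨p, j, hp, hj, rfl⟩ := hl
  have hj2 : 2 ≤ j := by
    by_contra h
    have : j = 1 := by omega
    rw [this, pow_one] at hlp
    exact hlp hp
  refine ⟨p ^ (j / 2), ?_, ?_⟩
  · have h1 : j ≤ 3 * (j / 2) := by omega
    have hp1 : (1 : ℝ) ≤ p := by exact_mod_cast hp.one_lt.le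
    have h2 : ((p ^ j : ℕ) : ℝ) ≤ (((p ^ (j / 2) : ℕ) : ℝ)) ^ 3 := by
      push_cast
      rw [← pow_mul, mul_comm]
      exact pow_le_pow_right₀ hp1 h1
    have h3 : (x ^ ((1 : ℝ) / 4)) ^ 3 ≤ (((p ^ (j / 2) : ℕ) : ℝ)) ^ 3 := by
      have e : (x ^ ((1 : ℝ) / 4)) ^ 3 = x ^ ((3 : ℝ) / 4) := by
        rw [← Real.rpow_natCast, ← Real.rpow_mul (by linarith)]
        norm_num
      rw [e]
      exact hxl.trans h2
    exact le_of_pow_le_pow_left₀ (by norm_num) (Nat.cast_nonneg _) h3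
  · rw [← pow_mul]
    exact pow_dvd_pow p (by omega)

theorem pp_bound (β ε₁ ε₂ : ℝ) (hβ : 0 < β) (hβ2 : β ≤ 9 / 11) (hε₁ : 0 < ε₁) (hε₁₂ : ε₁ < ε₂)
    (hε : ε₂ ≤ 1 / 50) : ∃ k0 : ℝ, ∀ k n : ℕ, k0 ≤ k → (k : ℝ) ^ (1 + β - ε₂) ≤ n →
      (n : ℝ) ≤ (k : ℝ) ^ (1 + β + ε₂) → ∀ μ lam : ℝ, 0 ≤ μ → 0 ≤ lam → μ + lam ≤ β + 2 * ε₂ →
      ∑ q ∈ Qs k ε₁ ε₂, ∑ m ∈ Ms k μ (μ + lam), ∑ l ∈ Ms k (1 / 2) 2,
        (if ¬ l.Prime ∧ n < q * m * l ∧ q * m * l ≤ n + k
          then ArithmeticFunction.vonMangoldt l else 0) ≤ (k : ℝ) ^ ((49 : ℝ) / 50) := by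
  classical
  obtain ⟨k1, hk1⟩ := count_square β ε₂ hβ hβ2 (hε₁.trans hε₁₂) hε
  have ev1 : ∀ᶠ x : ℝ in Filter.atTop, (8 : ℝ) ≤ x ^ ((1 : ℝ) / 20) :=
    (tendsto_rpow_atTop (by norm_num)).eventually_ge_atTop 8
  have ev2 : ∀ᶠ x : ℝ in Filter.atTop, ‖Real.log x‖ ≤ 1 * ‖x ^ ((1 : ℝ) / 40)‖ :=
    (isLittleO_log_rpow_atTop (by norm_num)).bound (by norm_num)
  obtain ⟨k2, hk2⟩ := Filter.eventually_atTop.1
    (ev1.and (ev2.and (Filter.eventually_ge_atTop (2 : ℝ))))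
  have hε₂ : 0 < ε₂ := hε₁.trans hε₁₂
  have ev3 : ∀ᶠ x : ℝ in Filter.atTop, (2 : ℝ) ≤ x ^ ((1 : ℝ) / 10) :=
    (tendsto_rpow_atTop (by norm_num)).eventually_ge_atTop 2
  obtain ⟨k3, hk3⟩ := Filter.eventually_atTop.1 ev3
  refine ⟨max k1 (max k2 k3), fun k n hk hn1 hn2 μ lam hμ hlam hml => ?_⟩
  have hcs := hk1 k n ((le_max_left _ _).trans hk) hn1 hn2
  obtain ⟨f1, f2, f3⟩ := hk2 k (((le_max_left _ _).trans (le_max_right _ _)).trans hk)
  have f5 := hk3 k (((le_max_right _ _).trans (le_max_right _ _)).trans hk)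
  set x : ℝ := (k : ℝ) with hx
  have hx1 : 1 ≤ x := by linarith
  have hx0 : 0 < x := by linarith
  have f4 : Real.log x ≤ x ^ ((1 : ℝ) / 40) := by
    rw [one_mul, Real.norm_eq_abs, Real.norm_eq_abs, abs_of_nonneg (Real.rpow_nonneg hx0.le _)] at f2
    exact (le_abs_self _).trans f2
  have hlogx : 0 ≤ Real.log x := Real.log_nonneg hx1
  set Bad := (Ioc n (n + k)).filter (fun N => ∃ s : ℕ, x ^ ((1 : ℝ) / 4) ≤ s ∧ s ^ 2 ∣ N)
    with hBad
  have hL : ∀ l : ℕ, 0 ≤ ArithmeticFunction.vonMangoldt l := fun l =>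
    ArithmeticFunction.vonMangoldt_nonneg
  have h1 : ∀ q ∈ Qs x ε₁ ε₂, ∀ m ∈ Ms x μ (μ + lam), ∀ l ∈ Ms x (1 / 2) 2,
      (if ¬ l.Prime ∧ n < q * m * l ∧ q * m * l ≤ n + k
          then ArithmeticFunction.vonMangoldt l else 0) ≤
      ∑ N ∈ Bad, (if q * m * l = N then ArithmeticFunction.vonMangoldt l else 0) := by
    intro q hq m hm l hl
    have hnn : 0 ≤ ∑ N ∈ Bad, (if q * m * l = N then ArithmeticFunction.vonMangoldt l else 0) :=
      Finset.sum_nonneg fun N _ => by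
        split_ifs
        · exact hL l
        · exact le_refl _
    split_ifs with hc
    · by_cases hl0 : ArithmeticFunction.vonMangoldt l = 0
      · rw [hl0] at hnn ⊢
        exact hnn
      · rw [Finset.sum_ite_eq, if_pos]
        rw [hBad, mem_filter, mem_Ioc]
        refine ⟨⟨hc.2.1, hc.2.2⟩, ?_⟩
        have hqx : (q : ℝ) ≤ x ^ ε₂ := by
          unfold Qs at hq
          rw [mem_filter, mem_Ioc] at hq
          exact (Nat.le_floor_iff (by positivity)).1 hq.1.2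
        have hmx : (m : ℝ) ≤ x ^ (β + 2 * ε₂) := by
          unfold Ms at hm
          rw [mem_Ioc] at hm
          exact ((Nat.le_floor_iff (by positivity)).1 hm.2).trans
            (Real.rpow_le_rpow_of_exponent_le hx1 hml)
        have hnl : (n : ℝ) < (q : ℝ) * m * l := by exact_mod_cast hc.2.1
        have h2 : x ^ (1 + β - ε₂) < x ^ ε₂ * x ^ (β + 2 * ε₂) * l := by
          refine (hn1.trans_lt hnl).trans_le ?_
          refine mul_le_mul_of_nonneg_right (mul_le_mul hqx hmx (Nat.cast_nonneg _)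
            (by positivity)) (Nat.cast_nonneg _)
        have h3 : x ^ (1 + β - ε₂) = x ^ ε₂ * x ^ (β + 2 * ε₂) * x ^ (1 - 4 * ε₂) := by
          rw [← Real.rpow_add hx0, ← Real.rpow_add hx0]
          congr 1
          ring
        rw [h3] at h2
        have h4 : x ^ (1 - 4 * ε₂) < l := lt_of_mul_lt_mul_left h2 (by positivity)
        have h5 : x ^ ((3 : ℝ) / 4) ≤ l :=
          (Real.rpow_le_rpow_of_exponent_le hx1 (by linarith)).trans h4.le
        obtain ⟨s, hs1, hs2⟩ := C5_pp hl0 hc.1 hx1 h5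
        exact ⟨s, hs1, hs2.trans (Dvd.intro_left _ rfl)⟩
    · exact hnn
  have h2 : ∑ q ∈ Qs x ε₁ ε₂, ∑ m ∈ Ms x μ (μ + lam), ∑ l ∈ Ms x (1 / 2) 2,
        (if ¬ l.Prime ∧ n < q * m * l ∧ q * m * l ≤ n + k
          then ArithmeticFunction.vonMangoldt l else 0) ≤
      ∑ N ∈ Bad, ∑ q ∈ Qs x ε₁ ε₂, ∑ m ∈ Ms x μ (μ + lam), ∑ l ∈ Ms x (1 / 2) 2,
        (if q * m * l = N then ArithmeticFunction.vonMangoldt l else 0) := by
    refine (Finset.sum_le_sum fun q hq => Finset.sum_le_sum fun m hm =>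
      Finset.sum_le_sum fun l hl => h1 q hq m hm l hl).trans (le_of_eq ?_)
    rw [Finset.sum_comm (s := Bad)]
    refine Finset.sum_congr rfl fun q _ => ?_
    rw [Finset.sum_comm (s := Bad)]
    refine Finset.sum_congr rfl fun m _ => ?_
    rw [Finset.sum_comm (s := Bad)]
  refine h2.trans ?_
  have h3 : ∀ N ∈ Bad, ∑ q ∈ Qs x ε₁ ε₂, ∑ m ∈ Ms x μ (μ + lam), ∑ l ∈ Ms x (1 / 2) 2,
        (if q * m * l = N then ArithmeticFunction.vonMangoldt l else 0) ≤
        8 * (x ^ ((1 : ℝ) / 40)) ^ 2 := by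
    intro N hN
    rw [hBad, mem_filter, mem_Ioc] at hN
    have hN1 : 1 ≤ N := by omega
    refine (rep_bound x ε₁ ε₂ μ lam N hN1).trans ?_
    have e1 : (N : ℝ) ≤ x ^ 2 := by
      have e2 : (N : ℝ) ≤ n + x := by
        rw [hx]
        exact_mod_cast hN.1.2
      have e3 : x ^ (1 + β + ε₂) ≤ x ^ ((19 : ℝ) / 10) :=
        Real.rpow_le_rpow_of_exponent_le hx1 (by linarith)
      have e4 : x ≤ x ^ ((19 : ℝ) / 10) := by
        calc x = x ^ (1 : ℝ) := (Real.rpow_one x).symm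
          _ ≤ _ := Real.rpow_le_rpow_of_exponent_le hx1 (by norm_num)
      have e5 : x ^ 2 = x ^ ((19 : ℝ) / 10) * x ^ ((1 : ℝ) / 10) := by
        rw [← Real.rpow_add hx0, ← Real.rpow_natCast]
        norm_num
      have e6 : 0 ≤ x ^ ((19 : ℝ) / 10) := by positivity
      rw [e5]
      nlinarith
    have e2 : Real.log N ≤ 2 * Real.log x := by
      have := Real.log_le_log (by exact_mod_cast hN1 : (0 : ℝ) < N) e1
      rw [Real.log_pow] at this
      exact_mod_cast this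
    have e3 : 0 ≤ Real.log N := Real.log_natCast_nonneg N
    have e4 : Real.log N ≤ 2 * x ^ ((1 : ℝ) / 40) := by linarith
    have e5 := pow_le_pow_left₀ e3 e4 2
    nlinarith
  refine (Finset.sum_le_sum h3).trans ?_
  rw [Finset.sum_const, nsmul_eq_mul]
  have e1 : (x ^ ((1 : ℝ) / 40)) ^ 2 = x ^ ((1 : ℝ) / 20) := by
    rw [← Real.rpow_natCast, ← Real.rpow_mul hx0.le]
    norm_num
  rw [e1]
  have hcs' : ((#Bad : ℕ) : ℝ) ≤ x ^ ((22 : ℝ) / 25) := hcs
  calc ((#Bad : ℕ) : ℝ) * (8 * x ^ ((1 : ℝ) / 20))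
      ≤ x ^ ((22 : ℝ) / 25) * (x ^ ((1 : ℝ) / 20) * x ^ ((1 : ℝ) / 20)) := by
        refine mul_le_mul hcs' (mul_le_mul_of_nonneg_right f1 (by positivity)) (by positivity)
          (by positivity)
    _ = x ^ ((49 : ℝ) / 50) := by
        rw [← Real.rpow_add hx0, ← Real.rpow_add hx0]
        norm_num

end Pool.Agent.Lib.MP_9a8698_nt
end

section

/-!
C6. From the Gaussian sums to the sharp count (A1, C1, C3, C5 may be used).

PROOF. `ℓ = log k`, `τ = k^(β+θ/4)`, `h = k^(1-θ/24)`. Put `Φ(N) = ∫_{log n}^{log(n+k)} gs τ (log N - u) du`, `0 ≤ Φ ≤ 1` (`integral_gs`). Integrating `JT` over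
`u ∈ [log n, log(n+k)]`: `I := ∫ JT = ∑ Λ(l)/(q m l) Φ(q m l)` and `|I - D log(1+k/n)| ≤ E log(1+k/n)`, where
`k/n - k²/(2n²) ≤ log(1+k/n) ≤ k/n`. So `|n I - k D| ≤ k E + D k²/(2n) ≤ k E + D k^(1-β+ε₂)`, and `β - ε₂ ≥ θ/2` because `θ ≤ β`, `16ε₂ ≤ θ`.
Now `|AA - n I| ≤ ∑ Λ(l) |1_(n,n+k](N) - (n/N) Φ(N)|`, `N = q m l`; group by `N` and use `rep_bound` (at most `2 (log N)²` for each `N`):
* `n + h < N ≤ n + k - h`: `|1 - (n/N)Φ| ≤ (1 - n/N) + (1 - Φ) ≤ k/n + 2 exp(-(τΔ)²/4)`, where `Δ = h/(4n)` is a lower bound for the distance of `log N` from the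
  two ends (`gs_tail`); `τ Δ ≥ k^(θ/4-θ/24-ε₂)/4 ≥ k^(θ/8)/4`. At most `k` values of `N`.
* `n - h < N ≤ n + h` or `n+k-h < N ≤ n+k+h`: at most `4h + 4` values of `N`, each term `≤ 3`.
* the other `N`: indicator `0`, `Φ(N) ≤ 2 exp(-(τΔ)²/4)`, and `∑ Λ(l) n/(q m l) ≤ n (1+ℓ)(1+2ℓ)(2ℓ+6)`.
Everything is at most `k^(1-θ/100)` in total for large `k` (`log N ≤ 3ℓ` in the first two ranges; `β - ε₂ ≥ θ/2`).
-/

set_option autoImplicit false

open Finset MeasureTheory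

namespace Pool.Agent.Lib.MP_9a8698_nt

private lemma c6_growth (K s : ℝ) {σ : ℝ} (hK : 0 < K) (hσ : 0 < σ) :
    ∃ k0 : ℝ, ∀ k : ℝ, k0 ≤ k → K * Real.log k ^ s ≤ k ^ σ := by
  have h := (isLittleO_log_rpow_rpow_atTop s hσ).def (inv_pos.2 hK)
  obtain ⟨k0, hk0⟩ := Filter.eventually_atTop.1 (h.and (Filter.eventually_ge_atTop (1 : ℝ)))
  refine ⟨k0, fun k hk => ?_⟩
  obtain ⟨h1, h2⟩ := hk0 k hk
  rw [Real.norm_eq_abs, Real.norm_eq_abs, abs_of_nonneg (Real.rpow_nonneg (by linarith) σ)] at h1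
  have h3 : Real.log k ^ s ≤ K⁻¹ * k ^ σ := (le_abs_self _).trans h1
  calc K * Real.log k ^ s ≤ K * (K⁻¹ * k ^ σ) := mul_le_mul_of_nonneg_left h3 hK.le
    _ = k ^ σ := by rw [← mul_assoc, mul_inv_cancel₀ hK.ne', one_mul]

private lemma c6_prod (A B C : Finset ℕ) (f : ℕ → ℕ → ℕ → ℝ) :
    ∑ q ∈ A, ∑ m ∈ B, ∑ l ∈ C, f q m l = ∑ t ∈ A ×ˢ (B ×ˢ C), f t.1 t.2.1 t.2.2 := by
  rw [Finset.sum_product]
  exact Finset.sum_congr rfl fun q _ => by rw [Finset.sum_product]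

private lemma c6_gs_cont (τ : ℝ) : Continuous (gs τ) := by
  unfold gs
  fun_prop

private lemma c6_phi {τ Δ a b x : ℝ} (hτ : 0 < τ) (hΔ : 0 ≤ Δ) (hab : a ≤ b) :
    0 ≤ (∫ u in a..b, gs τ (x - u)) ∧ (∫ u in a..b, gs τ (x - u)) ≤ 1 ∧
    (x - b ≤ -Δ → Δ ≤ x - a →
      1 - (∫ u in a..b, gs τ (x - u)) ≤ 2 * Real.exp (-((τ * Δ) ^ 2 / 4))) ∧
    ((Δ ≤ x - b ∨ x - a ≤ -Δ) →
      (∫ u in a..b, gs τ (x - u)) ≤ 2 * Real.exp (-((τ * Δ) ^ 2 / 4))) := by
  have hi := gs_integrable hτ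
  have h0 : ∀ v, 0 ≤ gs τ v := fun v => gs_nonneg hτ.le v
  have e : ∫ u in a..b, gs τ (x - u) = ∫ v in Set.Ioc (x - b) (x - a), gs τ v := by
    rw [intervalIntegral.integral_comp_sub_left (fun v => gs τ v) x,
      intervalIntegral.integral_of_le (by linarith)]
  rw [e]
  have h1 : ∫ v in Set.Ioc (x - b) (x - a), gs τ v ≤ ∫ v, gs τ v :=
    setIntegral_le_integral hi (Filter.Eventually.of_forall h0)
  have h2 : ∫ v, gs τ v = 1 := integral_gs hτ
  have h3 := gs_tail τ Δ hτ hΔ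
  refine ⟨setIntegral_nonneg measurableSet_Ioc fun v _ => h0 v, by linarith, fun ha hb => ?_,
    fun h => ?_⟩
  · have h4 := integral_add_compl (measurableSet_Ioc (a := x - b) (b := x - a)) hi
    have h5 : ∫ v in (Set.Ioc (x - b) (x - a))ᶜ, gs τ v ≤ ∫ v in {v : ℝ | Δ ≤ |v|}, gs τ v := by
      refine setIntegral_mono_set hi.integrableOn (Filter.Eventually.of_forall h0)
        (HasSubset.Subset.eventuallyLE ?_)
      intro v hv
      rw [Set.mem_compl_iff, Set.mem_Ioc, not_and_or, not_lt, not_le] at hv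
      show Δ ≤ |v|
      rw [le_abs]
      rcases hv with hv | hv
      · right
        linarith
      · left
        linarith
    linarith
  · have h5 : ∫ v in Set.Ioc (x - b) (x - a), gs τ v ≤ ∫ v in {v : ℝ | Δ ≤ |v|}, gs τ v := by
      refine setIntegral_mono_set hi.integrableOn (Filter.Eventually.of_forall h0)
        (HasSubset.Subset.eventuallyLE ?_)
      intro v hv
      show Δ ≤ |v|
      rw [le_abs]
      rcases h with h | h
      · left
        linarith [hv.1]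
      · right
        linarith [hv.2]
    linarith

private lemma c6_point {k n N : ℕ} {h τ η : ℝ} (hn : 1 ≤ n) (hN : 1 ≤ N) (hh : 0 < h)
    (hhn : 2 * h ≤ n) (hkn : (k : ℝ) ≤ n) (hτ : 0 < τ)
    (hη : η = 2 * Real.exp (-((τ * (h / (4 * n))) ^ 2 / 4))) (S : Finset ℕ)
    (hS : ∀ N : ℕ, N ∉ S → ((N : ℝ) < n - h ∨ (n : ℝ) + h < N) ∧
      ((N : ℝ) < n + k - h ∨ (n : ℝ) + k + h < N)) (hS' : ∀ N ∈ S, (n : ℝ) - h ≤ N) :
    |(if n < N ∧ N ≤ n + k then (1 : ℝ) else 0) -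
      (n / N) * ∫ u in (Real.log n)..(Real.log (n + k)), gs τ (Real.log N - u)| ≤
    (if N ∈ S then 3 else 0) + (if n < N ∧ N ≤ n + k then ((k : ℝ) / n + η) else 0) + n * η := by
  have hn' : (1 : ℝ) ≤ n := by exact_mod_cast hn
  have hN' : (1 : ℝ) ≤ N := by exact_mod_cast hN
  have hk0 : (0 : ℝ) ≤ k := Nat.cast_nonneg k
  have hη0 : 0 ≤ η := by rw [hη]; positivity
  have hab : Real.log n ≤ Real.log (n + k) := Real.log_le_log (by linarith) (by linarith)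
  obtain ⟨p0, p1, p2, p3⟩ := c6_phi (τ := τ) (Δ := h / (4 * n)) (x := Real.log N) hτ
    (by positivity) hab
  rw [← hη] at p2 p3
  obtain ⟨Φ, hΦ⟩ : ∃ Φ, Φ = ∫ u in (Real.log n)..(Real.log (n + k)), gs τ (Real.log N - u) :=
    ⟨_, rfl⟩
  rw [← hΦ] at p0 p1 p2 p3 ⊢
  have hnη : 0 ≤ n * η := by positivity
  have hkη : 0 ≤ (k : ℝ) / n + η := by positivity
  have hr0 : 0 ≤ (n : ℝ) / N := by positivity
  by_cases hNS : N ∈ S
  · rw [if_pos hNS]
    have h1 := hS' N hNS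
    have h2 : (n : ℝ) / N ≤ 2 := by
      rw [div_le_iff₀ (by linarith)]
      linarith
    have h3 : 0 ≤ (n : ℝ) / N * Φ := mul_nonneg hr0 p0
    have h4 : (n : ℝ) / N * Φ ≤ 2 := by
      have := mul_le_mul h2 p1 p0 (by norm_num)
      linarith
    rw [abs_le]
    split_ifs <;> constructor <;> linarith
  · rw [if_neg hNS, zero_add]
    obtain ⟨s1, s2⟩ := hS N hNS
    by_cases hin : n < N ∧ N ≤ n + k
    · rw [if_pos hin, if_pos hin]
      have i1 : (n : ℝ) < N := by exact_mod_cast hin.1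
      have i2 : (N : ℝ) ≤ n + k := by exact_mod_cast hin.2
      have j1 : (n : ℝ) + h < N := by
        rcases s1 with s | s
        · linarith
        · exact s
      have j2 : (N : ℝ) < n + k - h := by
        rcases s2 with s | s
        · exact s
        · linarith
      have hle : h / (4 * n) ≤ h / (n + k) :=
        div_le_div_of_nonneg_left hh.le (by linarith) (by linarith)
      have l1 : h / (4 * n) ≤ Real.log N - Real.log n := by
        have h1 := Real.one_sub_inv_le_log_of_pos (x := (N : ℝ) / n) (by positivity)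
        rw [Real.log_div (by linarith) (by linarith), inv_div] at h1
        refine (hle.trans ?_).trans h1
        rw [div_le_iff₀ (by linarith)]
        have h2 : (1 - (n : ℝ) / N) * (n + k) ≥ (1 - (n : ℝ) / N) * N :=
          mul_le_mul_of_nonneg_left i2 (by
            rw [sub_nonneg, div_le_one (by linarith)]
            linarith)
        have h3 : (1 - (n : ℝ) / N) * N = N - n := by
          field_simp
        linarith
      have l2 : h / (4 * n) ≤ Real.log (n + k) - Real.log N := by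
        have h1 := Real.one_sub_inv_le_log_of_pos (x := ((n : ℝ) + k) / N) (by positivity)
        rw [Real.log_div (by linarith) (by linarith), inv_div] at h1
        refine (hle.trans ?_).trans h1
        have h3 : 1 - (N : ℝ) / (n + k) = (n + k - N) / (n + k) := by
          field_simp
        rw [h3]
        exact div_le_div_of_nonneg_right (by linarith) (by linarith)
      have h5 := p2 (by linarith) (by linarith)
      have h6 : (n : ℝ) / N ≤ 1 := by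
        rw [div_le_one (by linarith)]
        linarith
      have h7 : (n : ℝ) / N * Φ ≤ 1 := by
        have := mul_le_mul h6 p1 p0 (by norm_num)
        linarith
      rw [abs_of_nonneg (by linarith)]
      have h8 : 1 - (n : ℝ) / N ≤ k / n := by
        have h9 : 1 - (n : ℝ) / N = (N - n) / N := by
          field_simp
        rw [h9]
        calc ((N : ℝ) - n) / N ≤ k / N := div_le_div_of_nonneg_right (by linarith) (by linarith)
          _ ≤ k / n := div_le_div_of_nonneg_left hk0 (by linarith) (by linarith)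
      have h10 : (n : ℝ) / N * (1 - Φ) ≤ 1 * η :=
        mul_le_mul h6 h5 (by linarith) (by norm_num)
      have h11 : 1 - (n : ℝ) / N * Φ = (1 - (n : ℝ) / N) + (n : ℝ) / N * (1 - Φ) := by ring
      linarith
    · rw [if_neg hin, if_neg hin, zero_add, zero_sub, abs_neg,
        abs_of_nonneg (mul_nonneg hr0 p0)]
      have hΦη : Φ ≤ η := by
        apply p3
        by_cases hNn : N ≤ n
        · right
          have i1 : (N : ℝ) ≤ n := by exact_mod_cast hNn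
          have j1 : (N : ℝ) < n - h := by
            rcases s1 with s | s
            · exact s
            · linarith
          have h1 := Real.one_sub_inv_le_log_of_pos (x := (n : ℝ) / N) (by positivity)
          rw [Real.log_div (by linarith) (by linarith), inv_div] at h1
          have h3 : 1 - (N : ℝ) / n = (n - N) / n := by
            field_simp
          rw [h3] at h1
          have h4 : h / (4 * n) ≤ ((n : ℝ) - N) / n := by
            calc h / (4 * n) ≤ h / n := div_le_div_of_nonneg_left hh.le (by linarith) (by linarith)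
              _ ≤ ((n : ℝ) - N) / n := div_le_div_of_nonneg_right (by linarith) (by linarith)
          linarith
        · left
          have hNk : n + k < N := by
            by_contra hc
            exact hin ⟨by omega, by omega⟩
          have i1 : (n : ℝ) + k < N := by exact_mod_cast hNk
          have j2 : (n : ℝ) + k + h < N := by
            rcases s2 with s | s
            · linarith
            · exact s
          have h1 := Real.one_sub_inv_le_log_of_pos (x := (N : ℝ) / (n + k)) (by positivity)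
          rw [Real.log_div (by linarith) (by linarith), inv_div] at h1
          refine le_trans ?_ h1
          have h3 : 1 - ((n : ℝ) + k) / N = (N - (n + k)) / N := by
            field_simp
          rw [h3, div_le_div_iff₀ (by linarith) (by linarith)]
          have h4 : 0 ≤ (N - (n + k) - h) * (4 * n - h) := mul_nonneg (by linarith) (by linarith)
          have h5 : 0 ≤ h * (3 * n - k - h) := mul_nonneg hh.le (by linarith)
          linarith
      have h6 : (n : ℝ) / N ≤ n := div_le_self (by linarith) hN'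
      exact mul_le_mul h6 hΦη p0 (by linarith)

private lemma c6_group (k ε₁ ε₂ μ lam : ℝ) (S : Finset ℕ) (X : ℝ) (h1 : ∀ N ∈ S, 1 ≤ N)
    (hX : ∀ N ∈ S, (N : ℝ) ≤ X) :
    ∑ t ∈ Qs k ε₁ ε₂ ×ˢ (Ms k μ (μ + lam) ×ˢ Ms k (1 / 2) 2),
      ArithmeticFunction.vonMangoldt t.2.2 * (if t.1 * t.2.1 * t.2.2 ∈ S then (1 : ℝ) else 0) ≤
      #S * (2 * (Real.log X) ^ 2) := by
  have e1 : ∀ t : ℕ × ℕ × ℕ, ArithmeticFunction.vonMangoldt t.2.2 *
      (if t.1 * t.2.1 * t.2.2 ∈ S then (1 : ℝ) else 0) =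
      ∑ N ∈ S, (if t.1 * t.2.1 * t.2.2 = N then ArithmeticFunction.vonMangoldt t.2.2 else 0) := by
    intro t
    rw [Finset.sum_ite_eq S (t.1 * t.2.1 * t.2.2)
      (fun _ => ArithmeticFunction.vonMangoldt t.2.2), mul_ite, mul_one, mul_zero]
  rw [Finset.sum_congr rfl fun t _ => e1 t, Finset.sum_comm]
  have e2 : ∀ N ∈ S, ∑ t ∈ Qs k ε₁ ε₂ ×ˢ (Ms k μ (μ + lam) ×ˢ Ms k (1 / 2) 2),
      (if t.1 * t.2.1 * t.2.2 = N then ArithmeticFunction.vonMangoldt t.2.2 else 0) ≤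
      2 * (Real.log X) ^ 2 := by
    intro N hN
    have h2 := rep_bound k ε₁ ε₂ μ lam N (h1 N hN)
    rw [c6_prod] at h2
    refine h2.trans ?_
    have h3 : (1 : ℝ) ≤ N := by exact_mod_cast h1 N hN
    have h4 : 0 ≤ Real.log N := Real.log_nonneg h3
    have h5 : Real.log N ≤ Real.log X := Real.log_le_log (by linarith) (hX N hN)
    have h6 := pow_le_pow_left₀ h4 h5 2
    linarith
  refine (Finset.sum_le_sum e2).trans (le_of_eq ?_)
  rw [Finset.sum_const, nsmul_eq_mul]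

theorem B4 (β θ ε₁ ε₂ : ℝ) (hβ : 0 < β) (hβ2 : β ≤ 9 / 11) (hθ : 0 < θ) (hθβ : θ ≤ β)
    (hθ2 : θ ≤ 1 / 20) (hε₁ : 0 < ε₁) (hε₁₂ : ε₁ < ε₂) (hε : 16 * ε₂ ≤ θ) :
    ∃ k0 : ℝ, ∀ k n : ℕ, k0 ≤ k → (k : ℝ) ^ (1 + β - ε₂) ≤ n → (n : ℝ) ≤ (k : ℝ) ^ (1 + β + ε₂) →
      ∀ μ lam D E : ℝ, 0 ≤ μ → 0 ≤ lam → μ + lam ≤ β + 2 * ε₂ → 0 ≤ D → 0 ≤ E →
      (∀ u : ℝ, Real.log n ≤ u → u ≤ Real.log (n + k) →
        |JT k ε₁ ε₂ μ lam ((k : ℝ) ^ (β + θ / 4)) u - D| ≤ E) →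
      |AA k ε₁ ε₂ μ lam n k - k * D| ≤ k * E + (k : ℝ) ^ (1 - θ / 100) * (1 + D) := by
  obtain ⟨k1, hk1⟩ := c6_growth 1900 2 (σ := θ / 24 - θ / 100) (by norm_num) (by linarith)
  obtain ⟨k2, hk2⟩ := c6_growth (64 * 20) 1 (σ := θ / 4) (by norm_num) (by linarith)
  refine ⟨max k1 (max k2 (max (Real.exp 1) 3)), ?_⟩
  intro k n hk hn1 hn2 μ lam D E hμ hlam hml hD hE hJT
  simp only [max_le_iff] at hk
  obtain ⟨q1, q2, q3, q4⟩ := hk
  obtain ⟨κ, hκ⟩ : ∃ κ : ℝ, κ = (k : ℝ) := ⟨_, rfl⟩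
  rw [← hκ] at q1 q2 q3 q4 hn1 hn2 hJT
  have hκ1 : 1 < κ := by linarith
  have hκ0 : 0 < κ := by linarith
  have hle : ∀ a b : ℝ, a ≤ b → κ ^ a ≤ κ ^ b := fun a b hab =>
    Real.rpow_le_rpow_of_exponent_le hκ1.le hab
  obtain ⟨ℓ, hℓdef⟩ : ∃ ℓ : ℝ, ℓ = Real.log κ := ⟨_, rfl⟩
  have hℓ : 1 ≤ ℓ := by
    rw [hℓdef]
    exact (Real.le_log_iff_exp_le hκ0).2 q3
  have g1 := hk1 κ q1
  have g2 := hk2 κ q2
  rw [← hℓdef] at g1 g2
  rw [Real.rpow_one] at g2
  rw [show ((2 : ℝ)) = ((2 : ℕ) : ℝ) by norm_num, Real.rpow_natCast] at g1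
  have hε₂0 : 0 < ε₂ := by linarith
  -- sizes
  have hκn : κ ≤ n := by
    have h1 := hle 1 (1 + β - ε₂) (by linarith)
    rw [Real.rpow_one] at h1
    linarith
  have hn3 : (3 : ℝ) ≤ n := by linarith
  have hn0 : (0 : ℝ) < n := by linarith
  have hnnat : 1 ≤ n := by
    have : (1 : ℝ) ≤ n := by linarith
    exact_mod_cast this
  have hn2' : (n : ℝ) ≤ κ ^ 2 := by
    have h1 := hle (1 + β + ε₂) 2 (by linarith)
    rw [show ((2 : ℝ)) = ((2 : ℕ) : ℝ) by norm_num, Real.rpow_natCast] at h1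
    linarith
  obtain ⟨h, hh⟩ : ∃ h : ℝ, h = κ ^ (1 - θ / 24) := ⟨_, rfl⟩
  have hh1 : 1 ≤ h := by
    rw [hh]
    exact Real.one_le_rpow hκ1.le (by linarith)
  have hhκ : 2 * h ≤ κ := by
    have h1 : κ = h * κ ^ (θ / 24) := by
      rw [hh, ← Real.rpow_add hκ0]
      rw [show 1 - θ / 24 + θ / 24 = 1 by ring, Real.rpow_one]
    have h2 : (2 : ℝ) ≤ κ ^ (θ / 24) := by
      have h3 := hle (θ / 24 - θ / 100) (θ / 24) (by linarith)
      have h4 : (1 : ℝ) ≤ ℓ ^ 2 := one_le_pow₀ hℓ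
      linarith
    have h3 := mul_le_mul_of_nonneg_left h2 (by linarith : 0 ≤ h)
    linarith
  obtain ⟨τ, hτ⟩ : ∃ τ : ℝ, τ = κ ^ (β + θ / 4) := ⟨_, rfl⟩
  have hτ0 : 0 < τ := by
    rw [hτ]
    exact Real.rpow_pos_of_pos hκ0 _
  rw [← hτ] at hJT
  obtain ⟨η, hη⟩ : ∃ η : ℝ, η = 2 * Real.exp (-((τ * (h / (4 * n))) ^ 2 / 4)) := ⟨_, rfl⟩
  have hη0 : 0 ≤ η := by rw [hη]; positivity
  -- the exceptional set
  obtain ⟨S, hSdef⟩ : ∃ S : Finset ℕ, S = Icc ⌈(n : ℝ) - h⌉₊ ⌊(n : ℝ) + h⌋₊ ∪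
      Icc ⌈(n : ℝ) + κ - h⌉₊ ⌊(n : ℝ) + κ + h⌋₊ := ⟨_, rfl⟩
  have hS : ∀ N : ℕ, N ∉ S → ((N : ℝ) < n - h ∨ (n : ℝ) + h < N) ∧
      ((N : ℝ) < n + κ - h ∨ (n : ℝ) + κ + h < N) := by
    intro N hN
    rw [hSdef, Finset.mem_union, not_or, Finset.mem_Icc, Finset.mem_Icc, not_and_or, not_and_or,
      Nat.ceil_le, Nat.ceil_le, Nat.le_floor_iff (by linarith), Nat.le_floor_iff (by linarith),
      not_le, not_le, not_le, not_le] at hN
    exact hN
  have hS2 : ∀ N ∈ S, (n : ℝ) - h ≤ N ∧ (N : ℝ) ≤ n + κ + h := by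
    intro N hN
    rw [hSdef, Finset.mem_union, Finset.mem_Icc, Finset.mem_Icc, Nat.ceil_le, Nat.ceil_le,
      Nat.le_floor_iff (by linarith), Nat.le_floor_iff (by linarith)] at hN
    rcases hN with ⟨a1, a2⟩ | ⟨a1, a2⟩
    · exact ⟨a1, by linarith⟩
    · exact ⟨by linarith, a2⟩
  have hcard1 : ∀ x y : ℝ, 0 ≤ x → x ≤ y + 1 → 0 ≤ y → ((#(Icc ⌈x⌉₊ ⌊y⌋₊) : ℕ) : ℝ) ≤ y - x + 1 := by
    intro x y hx hxy hy
    rw [Nat.card_Icc]
    rcases le_total ⌈x⌉₊ (⌊y⌋₊ + 1) with h1 | h1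
    · rw [Nat.cast_sub h1]
      push_cast
      have h2 := Nat.floor_le hy
      have h3 := Nat.le_ceil x
      linarith
    · rw [Nat.sub_eq_zero_of_le h1, Nat.cast_zero]
      linarith
  have hScard : ((#S : ℕ) : ℝ) ≤ 6 * h := by
    have h1 : #S ≤ #(Icc ⌈(n : ℝ) - h⌉₊ ⌊(n : ℝ) + h⌋₊) +
        #(Icc ⌈(n : ℝ) + κ - h⌉₊ ⌊(n : ℝ) + κ + h⌋₊) := by
      rw [hSdef]
      exact Finset.card_union_le _ _
    have h2 := hcard1 ((n : ℝ) - h) ((n : ℝ) + h) (by linarith) (by linarith) (by linarith)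
    have h3 := hcard1 ((n : ℝ) + κ - h) ((n : ℝ) + κ + h) (by linarith) (by linarith) (by linarith)
    have h4 : ((#S : ℕ) : ℝ) ≤ ((#(Icc ⌈(n : ℝ) - h⌉₊ ⌊(n : ℝ) + h⌋₊) : ℕ) : ℝ) +
        ((#(Icc ⌈(n : ℝ) + κ - h⌉₊ ⌊(n : ℝ) + κ + h⌋₊) : ℕ) : ℝ) := by exact_mod_cast h1
    linarith
  -- the logarithm of the numbers that occur
  have hlogX : 2 * (Real.log (3 * n)) ^ 2 ≤ 32 * ℓ ^ 2 := by
    have h1 : Real.log (3 * n) ≤ 4 * ℓ := by
      rw [Real.log_mul (by norm_num) (by linarith)]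
      have h2 : Real.log n ≤ 2 * ℓ := by
        have h3 := Real.log_le_log hn0 hn2'
        rw [Real.log_pow, ← hℓdef] at h3
        push_cast at h3
        exact h3
      have h4 : Real.log 3 ≤ ℓ := by
        rw [hℓdef]
        exact Real.log_le_log (by norm_num) q4
      linarith
    have h2 : 0 ≤ Real.log (3 * n) := Real.log_nonneg (by linarith)
    have h3 := pow_le_pow_left₀ h2 h1 2
    linarith
  -- the index set
  obtain ⟨T, hT⟩ : ∃ T : Finset (ℕ × ℕ × ℕ), T =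
      Qs κ ε₁ ε₂ ×ˢ (Ms κ μ (μ + lam) ×ˢ Ms κ (1 / 2) 2) := ⟨_, rfl⟩
  have hTpos : ∀ t ∈ T, 1 ≤ t.1 ∧ 1 ≤ t.2.1 ∧ 1 ≤ t.2.2 := by
    intro t ht
    rw [hT, Finset.mem_product, Finset.mem_product] at ht
    obtain ⟨t1, t2, t3⟩ := ht
    unfold Qs at t1
    unfold Ms at t2 t3
    rw [Finset.mem_filter, Finset.mem_Ioc] at t1
    rw [Finset.mem_Ioc] at t2 t3
    exact ⟨by omega, by omega, by omega⟩
  have hJ : ∀ u, JT κ ε₁ ε₂ μ lam τ u = ∑ t ∈ T, ArithmeticFunction.vonMangoldt t.2.2 /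
      ((t.1 * t.2.1 * t.2.2 : ℕ) : ℝ) * gs τ (Real.log ((t.1 * t.2.1 * t.2.2 : ℕ) : ℝ) - u) := by
    intro u
    unfold JT
    rw [c6_prod, ← hT]
    refine Finset.sum_congr rfl fun t ht => ?_
    obtain ⟨p1, p2, p3⟩ := hTpos t ht
    have c1 : (0 : ℝ) < (t.1 : ℝ) := by exact_mod_cast p1
    have c2 : (0 : ℝ) < (t.2.1 : ℝ) := by exact_mod_cast p2
    have c3 : (0 : ℝ) < (t.2.2 : ℝ) := by exact_mod_cast p3
    push_cast
    rw [Real.log_mul (by positivity) c3.ne', Real.log_mul c1.ne' c2.ne']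
  have hAA : AA κ ε₁ ε₂ μ lam n k = ∑ t ∈ T, ArithmeticFunction.vonMangoldt t.2.2 *
      (if n < t.1 * t.2.1 * t.2.2 ∧ t.1 * t.2.1 * t.2.2 ≤ n + k then (1 : ℝ) else 0) := by
    unfold AA
    rw [c6_prod, ← hT]
    refine Finset.sum_congr rfl fun t _ => ?_
    rw [mul_ite, mul_one, mul_zero]
  obtain ⟨Φ, hΦ⟩ : ∃ Φ : ℕ → ℝ, Φ = fun (N : ℕ) =>
      ∫ u in (Real.log n)..(Real.log (n + κ)), gs τ (Real.log N - u) := ⟨_, rfl⟩
  have hab : Real.log n ≤ Real.log (n + κ) := Real.log_le_log hn0 (by linarith)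
  obtain ⟨I, hI⟩ : ∃ I : ℝ, I = ∫ u in (Real.log n)..(Real.log (n + κ)),
      JT κ ε₁ ε₂ μ lam τ u := ⟨_, rfl⟩
  have hJcont : Continuous (fun u => JT κ ε₁ ε₂ μ lam τ u) := by
    simp only [hJ]
    refine continuous_finsetSum _ fun t _ => continuous_const.mul ?_
    exact (c6_gs_cont τ).comp (continuous_const.sub continuous_id)
  have hI2 : I = ∑ t ∈ T, ArithmeticFunction.vonMangoldt t.2.2 /
      ((t.1 * t.2.1 * t.2.2 : ℕ) : ℝ) * Φ (t.1 * t.2.1 * t.2.2) := by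
    rw [hI]
    simp only [hJ]
    rw [intervalIntegral.integral_finsetSum]
    · refine Finset.sum_congr rfl fun t _ => ?_
      rw [intervalIntegral.integral_const_mul, hΦ]
    · intro t _
      refine Continuous.intervalIntegrable ?_ _ _
      exact continuous_const.mul ((c6_gs_cont τ).comp (continuous_const.sub continuous_id))
  -- comparison of `n I` with `k D`
  have hL1 : Real.log (n + κ) - Real.log n ≤ κ / n := by
    have h1 := Real.log_le_sub_one_of_pos (x := ((n : ℝ) + κ) / n) (by positivity)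
    rw [Real.log_div (by linarith) (by linarith)] at h1
    have h2 : ((n : ℝ) + κ) / n - 1 = κ / n := by field_simp; ring
    linarith
  have hL2 : κ / n - κ ^ 2 / n / n ≤ Real.log (n + κ) - Real.log n := by
    have h1 := Real.one_sub_inv_le_log_of_pos (x := ((n : ℝ) + κ) / n) (by positivity)
    rw [Real.log_div (by linarith) (by linarith), inv_div] at h1
    refine le_trans ?_ h1
    have h2 : 1 - (n : ℝ) / (n + κ) = κ / (n + κ) := by
      field_simp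
      ring
    rw [h2]
    have h3 : κ / n - κ ^ 2 / n / n = κ * (n - κ) / n ^ 2 := by
      field_simp
    rw [h3, div_le_div_iff₀ (by positivity) (by linarith)]
    have h4 : κ * (n - κ) * (n + κ) = κ * n ^ 2 - κ ^ 3 := by ring
    have h5 : 0 < κ ^ 3 := by positivity
    linarith
  have hID : |I - D * (Real.log (n + κ) - Real.log n)| ≤
      E * (Real.log (n + κ) - Real.log n) := by
    have h1 : I - D * (Real.log (n + κ) - Real.log n) =
        ∫ u in (Real.log n)..(Real.log (n + κ)), (JT κ ε₁ ε₂ μ lam τ u - D) := by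
      rw [intervalIntegral.integral_sub (hJcont.intervalIntegrable _ _)
        (continuous_const.intervalIntegrable _ _), intervalIntegral.integral_const, smul_eq_mul,
        hI]
      ring
    rw [h1, ← Real.norm_eq_abs]
    have h2 := intervalIntegral.norm_integral_le_of_norm_le_const (a := Real.log n)
      (b := Real.log (n + κ)) (C := E) (f := fun u => JT κ ε₁ ε₂ μ lam τ u - D) (fun u hu => by
        rw [Set.uIoc_of_le hab] at hu
        rw [Real.norm_eq_abs]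
        exact hJT u hu.1.le hu.2)
    rwa [abs_of_nonneg (by linarith)] at h2
  have hkk : κ ^ 2 / n ≤ κ ^ (1 - θ / 24) := by
    rw [div_le_iff₀ hn0]
    have h1 : κ ^ 2 = κ ^ (1 - θ / 24) * κ ^ (1 + θ / 24) := by
      rw [← Real.rpow_add hκ0, ← Real.rpow_natCast κ 2]
      congr 1
      push_cast
      ring
    rw [h1]
    refine mul_le_mul_of_nonneg_left ?_ (Real.rpow_nonneg hκ0.le _)
    exact (hle _ _ (by linarith)).trans hn1
  have hkk2 : κ ^ 2 / n ≤ κ ^ (1 - θ / 100) := hkk.trans (hle _ _ (by linarith))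
  have hnI : |n * I - κ * D| ≤ κ * E + D * κ ^ (1 - θ / 100) := by
    have h1 : n * I - κ * D = n * (I - D * (Real.log (n + κ) - Real.log n)) +
        D * (n * (Real.log (n + κ) - Real.log n) - κ) := by ring
    have h2 : |n * (I - D * (Real.log (n + κ) - Real.log n))| ≤ κ * E := by
      rw [abs_mul, abs_of_pos hn0]
      have h3 := mul_le_mul_of_nonneg_left hID hn0.le
      have h4 := mul_le_mul_of_nonneg_left hL1 (by positivity : 0 ≤ n * E)
      have h5 : n * E * (κ / n) = κ * E := by field_simp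
      linarith
    have h3 : |D * (n * (Real.log (n + κ) - Real.log n) - κ)| ≤ D * κ ^ (1 - θ / 100) := by
      rw [abs_mul, abs_of_nonneg hD]
      refine mul_le_mul_of_nonneg_left ?_ hD
      have h4 := mul_le_mul_of_nonneg_left hL1 hn0.le
      have h5 := mul_le_mul_of_nonneg_left hL2 hn0.le
      have h6 : n * (κ / n) = κ := by field_simp
      have h7 : n * (κ / n - κ ^ 2 / n / n) = κ - κ ^ 2 / n := by field_simp
      rw [h6] at h4
      rw [h7] at h5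
      rw [abs_le]
      have h8 : 0 ≤ κ ^ 2 / n := by positivity
      constructor <;> linarith
    rw [h1]
    exact (abs_add_le _ _).trans (add_le_add h2 h3)
  -- comparison of the count with `n I`
  have hsum : |AA κ ε₁ ε₂ μ lam n k - n * I| ≤ ∑ t ∈ T, ArithmeticFunction.vonMangoldt t.2.2 *
      ((if t.1 * t.2.1 * t.2.2 ∈ S then (3 : ℝ) else 0) +
        (if n < t.1 * t.2.1 * t.2.2 ∧ t.1 * t.2.1 * t.2.2 ≤ n + k then (κ / n + η) else 0) +
        n * η) := by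
    rw [hAA, hI2, Finset.mul_sum, ← Finset.sum_sub_distrib]
    refine (Finset.abs_sum_le_sum_abs _ _).trans (Finset.sum_le_sum fun t ht => ?_)
    obtain ⟨p1, p2, p3⟩ := hTpos t ht
    have hN1 : 1 ≤ t.1 * t.2.1 * t.2.2 := Nat.mul_pos (Nat.mul_pos p1 p2) p3
    have h1 := c6_point (k := k) (n := n) (N := t.1 * t.2.1 * t.2.2) (h := h) (τ := τ) (η := η)
      hnnat hN1 (by linarith) (by linarith) (by rw [← hκ]; exact hκn) hτ0 hη S
      (by rw [← hκ]; exact hS) (fun N hN => (hS2 N hN).1)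
    rw [← hκ] at h1
    have h2 : ArithmeticFunction.vonMangoldt t.2.2 *
        (if n < t.1 * t.2.1 * t.2.2 ∧ t.1 * t.2.1 * t.2.2 ≤ n + k then (1 : ℝ) else 0) -
        n * (ArithmeticFunction.vonMangoldt t.2.2 / ((t.1 * t.2.1 * t.2.2 : ℕ) : ℝ) *
          Φ (t.1 * t.2.1 * t.2.2)) =
        ArithmeticFunction.vonMangoldt t.2.2 *
        ((if n < t.1 * t.2.1 * t.2.2 ∧ t.1 * t.2.1 * t.2.2 ≤ n + k then (1 : ℝ) else 0) -
        (n / ((t.1 * t.2.1 * t.2.2 : ℕ) : ℝ)) *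
          ∫ u in (Real.log n)..(Real.log (n + κ)),
            gs τ (Real.log ((t.1 * t.2.1 * t.2.2 : ℕ) : ℝ) - u)) := by
      rw [hΦ]
      ring
    rw [h2, abs_mul, abs_of_nonneg ArithmeticFunction.vonMangoldt_nonneg]
    exact mul_le_mul_of_nonneg_left h1 ArithmeticFunction.vonMangoldt_nonneg
  have hsplit : ∑ t ∈ T, ArithmeticFunction.vonMangoldt t.2.2 *
      ((if t.1 * t.2.1 * t.2.2 ∈ S then (3 : ℝ) else 0) +
        (if n < t.1 * t.2.1 * t.2.2 ∧ t.1 * t.2.1 * t.2.2 ≤ n + k then (κ / n + η) else 0) +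
        n * η) =
      3 * (∑ t ∈ T, ArithmeticFunction.vonMangoldt t.2.2 *
        (if t.1 * t.2.1 * t.2.2 ∈ S then (1 : ℝ) else 0)) +
      (κ / n + η) * (∑ t ∈ T, ArithmeticFunction.vonMangoldt t.2.2 *
        (if t.1 * t.2.1 * t.2.2 ∈ Ioc n (n + k) then (1 : ℝ) else 0)) +
      n * η * ∑ t ∈ T, ArithmeticFunction.vonMangoldt t.2.2 := by
    rw [Finset.mul_sum, Finset.mul_sum, Finset.mul_sum, ← Finset.sum_add_distrib,
      ← Finset.sum_add_distrib]
    refine Finset.sum_congr rfl fun t _ => ?_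
    simp only [Finset.mem_Ioc]
    split_ifs <;> ring
  have hS1 : ∀ N ∈ S, 1 ≤ N := fun N hN => by
    have h1 := (hS2 N hN).1
    have h2 : (0 : ℝ) < N := by linarith
    exact_mod_cast h2
  have e1 : ∑ t ∈ T, ArithmeticFunction.vonMangoldt t.2.2 *
      (if t.1 * t.2.1 * t.2.2 ∈ S then (1 : ℝ) else 0) ≤ 6 * h * (32 * ℓ ^ 2) := by
    rw [hT]
    refine (c6_group κ ε₁ ε₂ μ lam S (3 * n) hS1 (fun N hN => ?_)).trans ?_
    · have := (hS2 N hN).2
      linarith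
    · exact mul_le_mul hScard hlogX (by positivity) (by linarith)
  have e2 : ∑ t ∈ T, ArithmeticFunction.vonMangoldt t.2.2 *
      (if t.1 * t.2.1 * t.2.2 ∈ Ioc n (n + k) then (1 : ℝ) else 0) ≤ κ * (32 * ℓ ^ 2) := by
    rw [hT]
    refine (c6_group κ ε₁ ε₂ μ lam (Ioc n (n + k)) (3 * n) (fun N hN => ?_)
      (fun N hN => ?_)).trans ?_
    · rw [Finset.mem_Ioc] at hN
      omega
    · rw [Finset.mem_Ioc] at hN
      have h1 : (N : ℝ) ≤ n + k := by exact_mod_cast hN.2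
      rw [← hκ] at h1
      linarith
    · rw [Nat.card_Ioc, Nat.add_sub_cancel_left, ← hκ]
      exact mul_le_mul_of_nonneg_left hlogX hκ0.le
  have hcQ : ((#(Qs κ ε₁ ε₂) : ℕ) : ℝ) ≤ κ := by
    have h1 : #(Qs κ ε₁ ε₂) ≤ ⌊κ ^ ε₂⌋₊ := by
      unfold Qs
      refine (Finset.card_filter_le _ _).trans ?_
      rw [Nat.card_Ioc]
      omega
    have h2 : ((#(Qs κ ε₁ ε₂) : ℕ) : ℝ) ≤ ((⌊κ ^ ε₂⌋₊ : ℕ) : ℝ) := by exact_mod_cast h1
    have h3 := Nat.floor_le (Real.rpow_nonneg hκ0.le ε₂)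
    have h4 := hle ε₂ 1 (by linarith)
    rw [Real.rpow_one] at h4
    linarith
  have hcM : ((#(Ms κ μ (μ + lam)) : ℕ) : ℝ) ≤ κ := by
    have h1 : #(Ms κ μ (μ + lam)) ≤ ⌊κ ^ (μ + lam)⌋₊ := by
      unfold Ms
      rw [Nat.card_Ioc]
      omega
    have h2 : ((#(Ms κ μ (μ + lam)) : ℕ) : ℝ) ≤ ((⌊κ ^ (μ + lam)⌋₊ : ℕ) : ℝ) := by
      exact_mod_cast h1
    have h3 := Nat.floor_le (Real.rpow_nonneg hκ0.le (μ + lam))
    have h4 := hle (μ + lam) 1 (by linarith)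
    rw [Real.rpow_one] at h4
    linarith
  have hκ2 : κ ^ (2 : ℝ) = κ ^ 2 := by
    rw [show ((2 : ℝ)) = ((2 : ℕ) : ℝ) by norm_num, Real.rpow_natCast]
  have hcL : ((#(Ms κ (1 / 2) 2) : ℕ) : ℝ) ≤ κ ^ 2 := by
    have h1 : #(Ms κ (1 / 2) 2) ≤ ⌊κ ^ (2 : ℝ)⌋₊ := by
      unfold Ms
      rw [Nat.card_Ioc]
      omega
    have h2 : ((#(Ms κ (1 / 2) 2) : ℕ) : ℝ) ≤ ((⌊κ ^ (2 : ℝ)⌋₊ : ℕ) : ℝ) := by exact_mod_cast h1
    have h3 := Nat.floor_le (Real.rpow_nonneg hκ0.le (2 : ℝ))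
    rw [hκ2] at h2 h3
    linarith
  have e3 : ∑ t ∈ T, ArithmeticFunction.vonMangoldt t.2.2 ≤ κ ^ 6 := by
    have h1 : ∀ t ∈ T, ArithmeticFunction.vonMangoldt t.2.2 ≤ κ ^ 2 := by
      intro t ht
      have ht' := ht
      rw [hT, Finset.mem_product, Finset.mem_product] at ht'
      obtain ⟨-, -, t3⟩ := ht'
      unfold Ms at t3
      rw [Finset.mem_Ioc] at t3
      have h2 : (1 : ℝ) ≤ (t.2.2 : ℝ) := by exact_mod_cast (hTpos t ht).2.2
      have h3 : (t.2.2 : ℝ) ≤ κ ^ (2 : ℝ) :=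
        (Nat.le_floor_iff (Real.rpow_nonneg hκ0.le (2 : ℝ))).1 t3.2
      rw [hκ2] at h3
      have h4 := ArithmeticFunction.vonMangoldt_le_log (n := t.2.2)
      have h5 := Real.log_le_sub_one_of_pos (x := (t.2.2 : ℝ)) (by linarith)
      linarith
    refine (Finset.sum_le_card_nsmul T _ (κ ^ 2) h1).trans ?_
    rw [nsmul_eq_mul, hT, Finset.card_product, Finset.card_product]
    push_cast
    have h2 : ((#(Qs κ ε₁ ε₂) : ℕ) : ℝ) * (((#(Ms κ μ (μ + lam)) : ℕ) : ℝ) *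
        ((#(Ms κ (1 / 2) 2) : ℕ) : ℝ)) ≤ κ * (κ * κ ^ 2) :=
      mul_le_mul hcQ (mul_le_mul hcM hcL (Nat.cast_nonneg _) hκ0.le) (by positivity) hκ0.le
    have h3 := mul_le_mul_of_nonneg_right h2 (by positivity : (0 : ℝ) ≤ κ ^ 2)
    refine h3.trans (le_of_eq ?_)
    ring
  -- the Gaussian error is negligible
  have hηle : η ≤ 2 / κ ^ 20 := by
    have h1 : κ ^ (θ / 8) / 4 ≤ τ * (h / (4 * n)) := by
      have h2 : τ * (h / (4 * n)) = τ * h / n / 4 := by field_simp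
      rw [h2]
      refine div_le_div_of_nonneg_right ?_ (by norm_num)
      rw [le_div_iff₀ hn0]
      have h3 : κ ^ (θ / 8) * n ≤ κ ^ (θ / 8) * κ ^ (1 + β + ε₂) :=
        mul_le_mul_of_nonneg_left hn2 (Real.rpow_nonneg hκ0.le _)
      refine h3.trans ?_
      rw [hτ, hh, ← Real.rpow_add hκ0, ← Real.rpow_add hκ0]
      exact hle _ _ (by linarith)
    have h2 : κ ^ (θ / 4) / 64 ≤ (τ * (h / (4 * n))) ^ 2 / 4 := by
      have h3 : 0 ≤ κ ^ (θ / 8) / 4 := by positivity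
      have h4 := pow_le_pow_left₀ h3 h1 2
      have h5 : (κ ^ (θ / 8) / 4) ^ 2 = κ ^ (θ / 4) / 16 := by
        rw [div_pow, ← Real.rpow_natCast (κ ^ (θ / 8)) 2, ← Real.rpow_mul hκ0.le]
        norm_num
        congr 1
        ring
      rw [h5] at h4
      linarith
    have h3 : 20 * ℓ ≤ (τ * (h / (4 * n))) ^ 2 / 4 := by linarith
    rw [hη]
    have h4 : Real.exp (-((τ * (h / (4 * n))) ^ 2 / 4)) ≤ Real.exp (-(20 * ℓ)) :=
      Real.exp_le_exp.2 (by linarith)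
    have h5 : Real.exp (-(20 * ℓ)) = 1 / κ ^ 20 := by
      rw [Real.exp_neg, one_div]
      congr 1
      rw [show (20 : ℝ) * ℓ = ((20 : ℕ) : ℝ) * ℓ by norm_num, Real.exp_nat_mul, hℓdef,
        Real.exp_log hκ0]
    rw [h5] at h4
    have h6 : 2 / κ ^ 20 = 2 * (1 / κ ^ 20) := by ring
    rw [h6]
    linarith
  have hpow1 : (1 : ℝ) ≤ κ ^ (1 - θ / 100) := Real.one_le_rpow hκ1.le (by linarith)
  have f1 : κ ^ 12 * η ≤ 1 / 100 := by
    have h1 := mul_le_mul_of_nonneg_left hηle (by positivity : (0 : ℝ) ≤ κ ^ 12)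
    have h2 : κ ^ 12 * (2 / κ ^ 20) = 2 / κ ^ 8 := by
      field_simp
    rw [h2] at h1
    have h3 : (3 : ℝ) ^ 8 ≤ κ ^ 8 := pow_le_pow_left₀ (by norm_num) q4 8
    have h4 : 2 / κ ^ 8 ≤ 2 / 3 ^ 8 := div_le_div_of_nonneg_left (by norm_num) (by norm_num) h3
    have h5 : (2 : ℝ) / 3 ^ 8 ≤ 1 / 100 := by norm_num
    linarith
  have hℓκ : ℓ ≤ κ := by
    rw [hℓdef]
    have := Real.log_le_sub_one_of_pos hκ0
    linarith
  have f2 : η * (κ * (32 * ℓ ^ 2)) ≤ 32 / 100 := by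
    have h1 : ℓ ^ 2 ≤ κ ^ 2 := pow_le_pow_left₀ (by linarith) hℓκ 2
    have h2 : κ * (32 * ℓ ^ 2) ≤ 32 * κ ^ 12 := by
      have h3 : κ * (32 * ℓ ^ 2) ≤ κ * (32 * κ ^ 2) :=
        mul_le_mul_of_nonneg_left (by linarith) hκ0.le
      have h4 : κ ^ 3 ≤ κ ^ 12 := pow_le_pow_right₀ hκ1.le (by norm_num)
      have h5 : κ * (32 * κ ^ 2) = 32 * κ ^ 3 := by ring
      linarith
    have h3 := mul_le_mul_of_nonneg_left h2 hη0
    linarith
  have f3 : n * η * κ ^ 6 ≤ 1 / 100 := by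
    have h1 : n * κ ^ 6 ≤ κ ^ 12 := by
      have h2 : n * κ ^ 6 ≤ κ ^ 2 * κ ^ 6 := mul_le_mul_of_nonneg_right hn2' (by positivity)
      have h3 : κ ^ 8 ≤ κ ^ 12 := pow_le_pow_right₀ hκ1.le (by norm_num)
      have h4 : κ ^ 2 * κ ^ 6 = κ ^ 8 := by ring
      linarith
    have h2 := mul_le_mul_of_nonneg_right h1 hη0
    have h3 : n * η * κ ^ 6 = n * κ ^ 6 * η := by ring
    linarith
  have f4 : 1900 * ℓ ^ 2 * h ≤ κ ^ (1 - θ / 100) := by
    have h1 := mul_le_mul_of_nonneg_right g1 (by linarith : 0 ≤ h)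
    refine h1.trans (le_of_eq ?_)
    rw [hh, ← Real.rpow_add hκ0]
    congr 1
    ring
  have f5 : κ / n * (κ * (32 * ℓ ^ 2)) ≤ 32 * ℓ ^ 2 * h := by
    have h1 : κ / n * (κ * (32 * ℓ ^ 2)) = 32 * ℓ ^ 2 * (κ ^ 2 / n) := by ring
    rw [h1, hh]
    exact mul_le_mul_of_nonneg_left hkk (by positivity)
  have f6 : 1 ≤ ℓ ^ 2 * h := one_le_mul_of_one_le_of_one_le (one_le_pow₀ hℓ) hh1
  have hfin : |AA κ ε₁ ε₂ μ lam n k - n * I| ≤ κ ^ (1 - θ / 100) := by
    refine hsum.trans ?_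
    rw [hsplit]
    have h1 := mul_le_mul_of_nonneg_left e1 (by norm_num : (0 : ℝ) ≤ 3)
    have h2 := mul_le_mul_of_nonneg_left e2 (by positivity : (0 : ℝ) ≤ κ / n + η)
    have h3 := mul_le_mul_of_nonneg_left e3 (by positivity : (0 : ℝ) ≤ n * η)
    have h4 : (κ / n + η) * (κ * (32 * ℓ ^ 2)) =
        κ / n * (κ * (32 * ℓ ^ 2)) + η * (κ * (32 * ℓ ^ 2)) := by ring
    rw [h4] at h2
    have h5 : 3 * (6 * h * (32 * ℓ ^ 2)) = 576 * (ℓ ^ 2 * h) := by ring
    have h6 : 1900 * ℓ ^ 2 * h = 1900 * (ℓ ^ 2 * h) := by ring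
    have h7 : 32 * ℓ ^ 2 * h = 32 * (ℓ ^ 2 * h) := by ring
    linarith
  rw [← hκ]
  have h1 : AA κ ε₁ ε₂ μ lam n k - κ * D = (AA κ ε₁ ε₂ μ lam n k - n * I) + (n * I - κ * D) := by
    ring
  rw [h1]
  refine (abs_add_le _ _).trans ?_
  linarith

end Pool.Agent.Lib.MP_9a8698_nt
end
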