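import Mathlib
import Pool.Agent.Lib.MP_9a8698_nt.Defs
import Pool.Agent.Lib.H62.MertensPrime
import Pool.Agent.Lib.MP_9a8698_nt.X1

section

/-!
Definitions for the combinatorial part.
-/

set_option autoImplicit false

open Finset

namespace Pool.Agent.Lib.MP_9a8698_nt

/-- The number of triples `(q, m, l)` with `l` prime and `n < q m l ≤ n + h`. -/
noncomputable def CC (k ε₁ ε₂ μ lam : ℝ) (n h : ℕ) : ℝ :=
  ∑ q ∈ Qs k ε₁ ε₂, ∑ m ∈ Ms k μ (μ + lam), ∑ l ∈ Ms k (1 / 2) 2,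
    if l.Prime ∧ n < q * m * l ∧ q * m * l ≤ n + h then (1 : ℝ) else 0

open Classical in
/-- The integers in `(n, n+k]` with a prime factor larger than `k`. -/
noncomputable def FF (k n : ℕ) : Finset ℕ :=
  (Ioc n (n + k)).filter (fun N => ∃ p : ℕ, p.Prime ∧ k < p ∧ p ∣ N)

open Classical in
/-- The integers `p c` in `(n, n+k]` with a prime `p > k` and a cofactor `c > k^η`. -/
noncomputable def FB (k n : ℕ) (η : ℝ) : Finset ℕ :=
  (Ioc n (n + k)).filter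
    (fun N => ∃ p c : ℕ, p.Prime ∧ k < p ∧ p * c = N ∧ (k : ℝ) ^ η < (c : ℝ))

/-- The number of pairs `(N, q)` with `N ∈ FB` and a prime `q ∈ Qs` dividing `N`. -/
noncomputable def SS (k n : ℕ) (η ε₁ ε₂ : ℝ) : ℝ :=
  ∑ N ∈ FB k n η, ∑ q ∈ Qs k ε₁ ε₂, if q ∣ N then (1 : ℝ) else 0

end Pool.Agent.Lib.MP_9a8698_nt
end

section

section

/-!
D1. The inequality of Turan and Kubilius in short intervals.

PROOF of `count_dvd`. The number of multiples of `q` in `(n, n+k]` is `(n+k)/q - n/q` (natural division), `Nat.Ioc_filter_dvd_card_eq_div`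
for `Ioc 0 N`.
PROOF of `TK`. `w(N) = ∑_q 1_(q ∣ N)`, `L = ∑ 1/q`. `∑_N (w - L)² = ∑ w² - 2L ∑ w + k L²`. `∑_N w(N) ≥ k L - #Q`;
`∑_N w(N)² = ∑_q #{N : q ∣ N} + ∑_{q ≠ q'} #{N : q q' ∣ N} ≤ (k L + #Q) + (k L² + #Q (#Q - 1))`. Sum:
`≤ k L + #Q² + 2 L #Q`. Every `q ∈ Q` is `≤ √k`, so `#Q² ≤ k` and `#Q ≤ k` (`Q ⊆ Icc 1 (Nat.sqrt k)`).
-/

set_option autoImplicit false

open Finset

namespace Pool.Agent.Lib.MP_9a8698_nt

theorem count_dvd (q k n : ℕ) (hq : 1 ≤ q) :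
    |((#((Ioc n (n + k)).filter (fun N => q ∣ N)) : ℕ) : ℝ) - (k : ℝ) / q| ≤ 1 := by
  have hsplit : #((Ioc 0 (n + k)).filter (fun N => q ∣ N)) =
      #((Ioc 0 n).filter (fun N => q ∣ N)) + #((Ioc n (n + k)).filter (fun N => q ∣ N)) := by
    rw [← card_union_of_disjoint, ← filter_union,
      Ioc_union_Ioc_eq_Ioc (Nat.zero_le n) (Nat.le_add_right n k)]
    rw [Finset.disjoint_left]
    intro x hx hx2
    rw [mem_filter, mem_Ioc] at hx hx2
    omega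
  rw [Nat.Ioc_filter_dvd_card_eq_div, Nat.Ioc_filter_dvd_card_eq_div] at hsplit
  generalize #((Ioc n (n + k)).filter (fun N => q ∣ N)) = c at hsplit ⊢
  have hq0 : (0 : ℝ) < q := by exact_mod_cast hq
  have h1 : (n + k) / q * q ≤ n + k := Nat.div_mul_le_self _ _
  have h2 : n + k < (n + k) / q * q + q := Nat.lt_div_mul_add hq
  have h3 : n / q * q ≤ n := Nat.div_mul_le_self _ _
  have h4 : n < n / q * q + q := Nat.lt_div_mul_add hq
  generalize (n + k) / q = a at hsplit h1 h2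
  generalize n / q = b at hsplit h3 h4
  subst hsplit
  have g1 : ((b : ℝ) + c) * q ≤ n + k := by exact_mod_cast h1
  have g2 : (n : ℝ) + k < ((b : ℝ) + c) * q + q := by exact_mod_cast h2
  have g3 : (b : ℝ) * q ≤ n := by exact_mod_cast h3
  have g4 : (n : ℝ) < (b : ℝ) * q + q := by exact_mod_cast h4
  rw [abs_le]
  constructor
  · have : (k : ℝ) / q ≤ c + 1 := by
      rw [div_le_iff₀ hq0]
      nlinarith
    linarith
  · have : (c : ℝ) - 1 ≤ k / q := by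
      rw [le_div_iff₀ hq0]
      nlinarith
    linarith

private theorem D1_pair {q q' : ℕ} (hq : q.Prime) (hq' : q'.Prime) (hne : q ≠ q') (k n : ℕ) :
    ∑ N ∈ Ioc n (n + k), (if q ∣ N then (1 : ℝ) else 0) * (if q' ∣ N then (1 : ℝ) else 0) ≤
      k * (1 / q * (1 / q')) + 1 := by
  have hc : q.Coprime q' := (Nat.coprime_primes hq hq').2 hne
  have h1 := (abs_le.1 (count_dvd (q * q') k n (Nat.mul_pos hq.pos hq'.pos))).2
  have e : ∀ N ∈ Ioc n (n + k), (if q ∣ N then (1 : ℝ) else 0) * (if q' ∣ N then (1 : ℝ) else 0) =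
      if q * q' ∣ N then (1 : ℝ) else 0 := by
    intro N _
    by_cases h : q * q' ∣ N
    · rw [if_pos h, if_pos (dvd_of_mul_right_dvd h), if_pos (dvd_of_mul_left_dvd h), one_mul]
    · rw [if_neg h]
      by_cases h1 : q ∣ N
      · by_cases h2 : q' ∣ N
        · exact absurd (hc.mul_dvd_of_dvd_of_dvd h1 h2) h
        · rw [if_neg h2, mul_zero]
      · rw [if_neg h1, zero_mul]
  rw [Finset.sum_congr rfl e, Finset.sum_boole]
  push_cast at h1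
  have e2 : (k : ℝ) * (1 / q * (1 / q')) = k / (q * q') := by
    rw [one_div, one_div, ← mul_inv, div_eq_mul_inv]
  rw [e2]
  linarith

theorem TK (Q : Finset ℕ) (k n : ℕ) (hQ : ∀ q ∈ Q, q.Prime ∧ q ^ 2 ≤ k) :
    ∑ N ∈ Ioc n (n + k),
      ((∑ q ∈ Q, if q ∣ N then (1 : ℝ) else 0) - ∑ q ∈ Q, (1 : ℝ) / q) ^ 2 ≤
        k * (3 * (∑ q ∈ Q, (1 : ℝ) / q) + 1) := by
  classical
  have hL0 : 0 ≤ ∑ q ∈ Q, (1 : ℝ) / q := Finset.sum_nonneg fun q _ => by positivity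
  set L := ∑ q ∈ Q, (1 : ℝ) / q with hL
  set S : ℝ := (#Q : ℝ) with hS
  have hS0 : 0 ≤ S := Nat.cast_nonneg _
  have hcard : #Q ^ 2 ≤ k := by
    have h1 : Q ⊆ Icc 1 (Nat.sqrt k) := by
      intro q hq
      rw [mem_Icc]
      exact ⟨(hQ q hq).1.one_lt.le, Nat.le_sqrt'.2 (hQ q hq).2⟩
    have h2 := Finset.card_le_card h1
    rw [Nat.card_Icc, Nat.add_sub_cancel] at h2
    exact (Nat.pow_le_pow_left h2 2).trans (Nat.sqrt_le' k)
  have hS2 : S ^ 2 ≤ k := by rw [hS]; exact_mod_cast hcard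
  have hS1 : S ≤ k := by
    have : #Q ≤ k := (Nat.le_self_pow (by norm_num) _).trans hcard
    rw [hS]
    exact_mod_cast this
  have e1 : ∑ N ∈ Ioc n (n + k), ((∑ q ∈ Q, if q ∣ N then (1 : ℝ) else 0) - L) ^ 2 =
      ∑ N ∈ Ioc n (n + k), (∑ q ∈ Q, if q ∣ N then (1 : ℝ) else 0) ^ 2 -
        2 * L * ∑ N ∈ Ioc n (n + k), (∑ q ∈ Q, if q ∣ N then (1 : ℝ) else 0) + k * L ^ 2 := by
    have h1 : ∀ N ∈ Ioc n (n + k), ((∑ q ∈ Q, if q ∣ N then (1 : ℝ) else 0) - L) ^ 2 =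
        (∑ q ∈ Q, if q ∣ N then (1 : ℝ) else 0) ^ 2 -
          2 * L * (∑ q ∈ Q, if q ∣ N then (1 : ℝ) else 0) + L ^ 2 := fun N _ => by ring
    rw [Finset.sum_congr rfl h1, Finset.sum_add_distrib, Finset.sum_sub_distrib,
      ← Finset.mul_sum, Finset.sum_const, Nat.card_Ioc, nsmul_eq_mul, Nat.add_sub_cancel_left]
  have e2 : (k : ℝ) * L - S ≤
      ∑ N ∈ Ioc n (n + k), (∑ q ∈ Q, if q ∣ N then (1 : ℝ) else 0) := by
    rw [Finset.sum_comm]
    have h1 : ∀ q ∈ Q, (k : ℝ) * (1 / q) - 1 ≤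
        ∑ N ∈ Ioc n (n + k), (if q ∣ N then (1 : ℝ) else 0) := by
      intro q hq
      rw [Finset.sum_boole, mul_one_div]
      have := (abs_le.1 (count_dvd q k n (hQ q hq).1.one_lt.le)).1
      linarith
    refine le_trans (le_of_eq ?_) (Finset.sum_le_sum h1)
    rw [Finset.sum_sub_distrib, ← Finset.mul_sum, Finset.sum_const, nsmul_eq_mul, mul_one]
  have e3 : ∑ N ∈ Ioc n (n + k), (∑ q ∈ Q, if q ∣ N then (1 : ℝ) else 0) ^ 2 ≤
      k * L + k * L ^ 2 + S ^ 2 := by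
    have h1 : ∀ N ∈ Ioc n (n + k), (∑ q ∈ Q, if q ∣ N then (1 : ℝ) else 0) ^ 2 =
        ∑ q ∈ Q, ∑ q' ∈ Q, (if q ∣ N then (1 : ℝ) else 0) * (if q' ∣ N then (1 : ℝ) else 0) := by
      intro N _
      rw [sq, Finset.sum_mul_sum]
    rw [Finset.sum_congr rfl h1, Finset.sum_comm]
    have h2 : ∀ q ∈ Q, ∑ N ∈ Ioc n (n + k), ∑ q' ∈ Q,
        (if q ∣ N then (1 : ℝ) else 0) * (if q' ∣ N then (1 : ℝ) else 0) ≤
        ∑ q' ∈ Q, (k * (1 / (q : ℝ) * (1 / q')) + 1) + k * (1 / (q : ℝ)) := by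
      intro q hq
      rw [Finset.sum_comm, ← Finset.add_sum_erase Q _ hq, ← Finset.add_sum_erase Q
        (fun q' : ℕ => ((k : ℝ) * (1 / (q : ℝ) * (1 / q')) + 1)) hq]
      have h3 : ∑ N ∈ Ioc n (n + k), (if q ∣ N then (1 : ℝ) else 0) *
          (if q ∣ N then (1 : ℝ) else 0) ≤ k * (1 / (q : ℝ)) + 1 := by
        have h4 : ∀ N ∈ Ioc n (n + k), (if q ∣ N then (1 : ℝ) else 0) *
            (if q ∣ N then (1 : ℝ) else 0) = if q ∣ N then (1 : ℝ) else 0 := by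
          intro N _
          split_ifs <;> simp
        rw [Finset.sum_congr rfl h4, Finset.sum_boole, mul_one_div]
        have := (abs_le.1 (count_dvd q k n (hQ q hq).1.one_lt.le)).2
        linarith
      have h5 : ∑ q' ∈ Q.erase q, ∑ N ∈ Ioc n (n + k), (if q ∣ N then (1 : ℝ) else 0) *
          (if q' ∣ N then (1 : ℝ) else 0) ≤
          ∑ q' ∈ Q.erase q, ((k : ℝ) * (1 / (q : ℝ) * (1 / q')) + 1) := by
        refine Finset.sum_le_sum fun q' hq' => ?_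
        rw [Finset.mem_erase] at hq'
        exact D1_pair (hQ q hq).1 (hQ q' hq'.2).1 (Ne.symm hq'.1) k n
      have h6 : 0 ≤ (k : ℝ) * (1 / (q : ℝ) * (1 / q)) := by positivity
      linarith
    refine (Finset.sum_le_sum h2).trans (le_of_eq ?_)
    rw [Finset.sum_add_distrib, ← Finset.mul_sum, ← hL]
    have h7 : ∀ q ∈ Q, ∑ q' ∈ Q, ((k : ℝ) * (1 / (q : ℝ) * (1 / q')) + 1) =
        k * L * (1 / (q : ℝ)) + S := by
      intro q _
      rw [Finset.sum_add_distrib, ← Finset.mul_sum, ← Finset.mul_sum, ← hL, Finset.sum_const,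
        nsmul_eq_mul, mul_one]
      ring
    rw [Finset.sum_congr rfl h7, Finset.sum_add_distrib, ← Finset.mul_sum, ← hL, Finset.sum_const,
      nsmul_eq_mul]
    ring
  rw [e1]
  have e4 := mul_le_mul_of_nonneg_left e2 (by positivity : 0 ≤ 2 * L)
  have e5 := mul_le_mul_of_nonneg_left hS1 (by positivity : 0 ≤ 2 * L)
  nlinarith

end Pool.Agent.Lib.MP_9a8698_nt
end

section

/-!
D5. Pairs `(N, q)` and triples `(q, m, p)`.

PROOF of `SS_le`. For `N ∈ FB`, `q ∈ Qs`, `q ∣ N` choose `p, c` as in the definition of `FB`. As `q ≤ k^ε₂ ≤ k < p`, `q ≠ p` and `q ∣ c`, `c = q m`,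
`N = q m p`. `m = c/q > k^(η-ε₂)`; `m = N/(q p) ≤ (n+k)/(k^ε₁ k) ≤ 2 k^(β+ε₂-ε₁) ≤ k^(β+ε₂)` for large `k`; `p ≤ N ≤ 2 k^(1+β+ε₂) ≤ k²`, `p > k ≥ k^(1/2)`. Since
`k^(η-ε₂) < m ≤ k^(β+ε₂) ≤ k^(η-ε₂+I lam)`, `m` lies in one of the `I` pieces `Ms k (η-ε₂+i lam) (η-ε₂+i lam+lam)` (the floors of the common endpoints
agree). The map `(N, q) ↦ (i, q, m, p)` is injective (`N = q m p`). It is convenient to show
`SS ≤ ∑_{i < I} CC_i` by `SS = ∑_N ∑_q 1`, each term `1` being at most `∑_i ∑_m ∑_l [l prime, q m l = N, ...]`.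
PROOF of `SS_ge`. For a triple `(q, m, l)` counted by `CC_i`: `k^η < m ≤ k^(β-3ε₂)`, so `l = N/(q m) > n/(k^ε₂ k^(β-3ε₂)) ≥ k^(1+ε₂) ≥ k`, `N = q m l ∈ FB` with `c = q m > k^η`,
`q ∣ N`. For given `(N, q)` there is at most one such triple (over all pieces): if `q m l = q m' l'` and `l ≠ l'` then `l l' ∣ N`, but `l l' > k² ≥ n + k`
(`n + k ≤ 2 k^(1+β+ε₂) ≤ k²` for large `k`); the pieces are disjoint.
-/

set_option autoImplicit false

open Finset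

namespace Pool.Agent.Lib.MP_9a8698_nt

private theorem D5_FB {k n N : ℕ} {η : ℝ} :
    N ∈ FB k n η ↔ N ∈ Ioc n (n + k) ∧
      ∃ p c : ℕ, p.Prime ∧ k < p ∧ p * c = N ∧ (k : ℝ) ^ η < (c : ℝ) := by
  classical
  simp only [FB, mem_filter]

private theorem D5_glue1 (k a b c : ℝ) (hk : 1 ≤ k) (hab : a ≤ b) (hbc : b ≤ c) (F : ℕ → ℝ) :
    (∑ m ∈ Ms k a b, F m) + ∑ m ∈ Ms k b c, F m = ∑ m ∈ Ms k a c, F m := by
  unfold Ms
  exact sum_Ioc_consecutive F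
    (Nat.floor_le_floor (Real.rpow_le_rpow_of_exponent_le hk hab))
    (Nat.floor_le_floor (Real.rpow_le_rpow_of_exponent_le hk hbc))

private theorem D5_glue (k ε₁ ε₂ a lam : ℝ) (n h I : ℕ) (hk : 1 ≤ k) (hlam : 0 ≤ lam) :
    ∑ i ∈ range I, CC k ε₁ ε₂ (a + i * lam) lam n h = CC k ε₁ ε₂ a (I * lam) n h := by
  induction I with
  | zero =>
    unfold CC Ms
    simp
  | succ I ih =>
    rw [sum_range_succ, ih]
    unfold CC
    rw [← sum_add_distrib]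
    refine sum_congr rfl fun q _ => ?_
    have h1 : a + ((I + 1 : ℕ) : ℝ) * lam = a + I * lam + lam := by
      push_cast
      ring
    rw [h1]
    have h2 : 0 ≤ (I : ℝ) * lam := mul_nonneg (Nat.cast_nonneg _) hlam
    exact D5_glue1 k a (a + I * lam) (a + I * lam + lam) hk (by linarith) (by linarith) _

private theorem D5_card (k ε₁ ε₂ a lam : ℝ) (n h : ℕ) :
    CC k ε₁ ε₂ a lam n h = ∑ q ∈ Qs k ε₁ ε₂,
      (#((Ms k a (a + lam) ×ˢ Ms k (1 / 2) 2).filter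
        (fun x => x.2.Prime ∧ n < q * x.1 * x.2 ∧ q * x.1 * x.2 ≤ n + h)) : ℝ) := by
  unfold CC
  refine sum_congr rfl fun q _ => ?_
  rw [card_filter, sum_product]
  push_cast
  rfl

private theorem D5_SS (k n : ℕ) (η ε₁ ε₂ : ℝ) :
    SS k n η ε₁ ε₂ = ∑ q ∈ Qs k ε₁ ε₂, (#((FB k n η).filter (fun N => q ∣ N)) : ℝ) := by
  unfold SS
  rw [sum_comm]
  refine sum_congr rfl fun q _ => ?_
  rw [card_filter]
  push_cast
  rfl

private theorem D5_Qs {k : ℝ} (hk : 1 ≤ k) {a b : ℝ} {q : ℕ} (hq : q ∈ Qs k a b) :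
    q.Prime ∧ (q : ℝ) ≤ k ^ b ∧ k ^ a < (q : ℝ) := by
  unfold Qs at hq
  rw [mem_filter, mem_Ioc] at hq
  have h0 : (0 : ℝ) ≤ k ^ b := Real.rpow_nonneg (by linarith) _
  exact ⟨hq.2, (Nat.cast_le.mpr hq.1.2).trans (Nat.floor_le h0), Nat.lt_of_floor_lt hq.1.1⟩

private theorem D5_Ms {k : ℝ} (hk : 1 ≤ k) {a b : ℝ} {m : ℕ} :
    m ∈ Ms k a b ↔ k ^ a < (m : ℝ) ∧ (m : ℝ) ≤ k ^ b := by
  have h0 : (0 : ℝ) ≤ k ^ b := Real.rpow_nonneg (by linarith) _
  have h1 : (0 : ℝ) ≤ k ^ a := Real.rpow_nonneg (by linarith) _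
  unfold Ms
  rw [mem_Ioc, Nat.floor_lt h1, Nat.le_floor_iff h0]

private theorem D5_two {k c : ℝ} (hc : 0 < c) (hk : (2 : ℝ) ^ (1 / c) ≤ k) : 2 ≤ k ^ c := by
  calc (2 : ℝ) = ((2 : ℝ) ^ (1 / c)) ^ c := by
        rw [← Real.rpow_mul (by norm_num), one_div_mul_cancel hc.ne', Real.rpow_one]
    _ ≤ k ^ c := Real.rpow_le_rpow (by positivity) hk hc.le

theorem SS_le (β η ε₁ ε₂ lam : ℝ) (I : ℕ) (hβ : 0 < β) (hβ2 : β ≤ 9 / 11) (hη : 0 < η)
    (hε₁ : 0 < ε₁) (hε₁₂ : ε₁ < ε₂) (hε : ε₂ ≤ 1 / 50) (hlam : 0 < lam)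
    (hI : β + ε₂ ≤ η - ε₂ + I * lam) :
    ∃ k0 : ℝ, ∀ k n : ℕ, k0 ≤ k → (k : ℝ) ^ (1 + β - ε₂) ≤ n → (n : ℝ) ≤ (k : ℝ) ^ (1 + β + ε₂) →
      SS k n η ε₁ ε₂ ≤ ∑ i ∈ range I, CC k ε₁ ε₂ (η - ε₂ + i * lam) lam n k := by
  refine ⟨max 1 (max ((2 : ℝ) ^ (1 / ε₁)) ((2 : ℝ) ^ (1 / (1 / 10 : ℝ)))), ?_⟩
  intro k n hk _ hn2
  simp only [max_le_iff] at hk
  obtain ⟨hk1, hk2, hk3⟩ := hk
  have hk0 : (0 : ℝ) < k := by linarith
  have h2a := D5_two hε₁ hk2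
  have h2b := D5_two (by norm_num) hk3
  rw [D5_glue (k : ℝ) ε₁ ε₂ (η - ε₂) lam n k I hk1 hlam.le, D5_card, D5_SS]
  refine sum_le_sum fun q hq => ?_
  obtain ⟨hqp, hq1, hq2⟩ := D5_Qs hk1 hq
  have hq0 : (0 : ℝ) < q := by exact_mod_cast hqp.pos
  rw [Nat.cast_le]
  refine card_le_card_of_surjOn (fun x : ℕ × ℕ => q * x.1 * x.2) ?_
  intro N hN
  rw [mem_coe, mem_filter, D5_FB, mem_Ioc] at hN
  obtain ⟨⟨⟨hN1, hN2⟩, p, c, hp, hkp, hpc, hc⟩, hqN⟩ := hN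
  have hkpR : (k : ℝ) < p := by exact_mod_cast hkp
  have hqk : (q : ℝ) ≤ k := by
    calc (q : ℝ) ≤ (k : ℝ) ^ ε₂ := hq1
      _ ≤ (k : ℝ) ^ (1 : ℝ) := Real.rpow_le_rpow_of_exponent_le hk1 (by linarith)
      _ = k := Real.rpow_one _
  have hqne : q ≠ p := by
    intro h
    rw [h] at hqk
    linarith
  have hqc : q ∣ c := by
    rw [← hpc] at hqN
    rcases (hqp.dvd_mul).mp hqN with h | h
    · exact absurd ((Nat.prime_dvd_prime_iff_eq hqp hp).mp h) hqne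
    · exact h
  obtain ⟨m, hm⟩ := hqc
  have hNm : q * m * p = N := by
    rw [← hpc, hm]
    ring
  have hNR : (q : ℝ) * m * p = N := by exact_mod_cast hNm
  have hN2R : (N : ℝ) ≤ n + k := by exact_mod_cast hN2
  have hNle : (N : ℝ) ≤ 2 * (k : ℝ) ^ (1 + β + ε₂) := by
    have h1 : (k : ℝ) ≤ (k : ℝ) ^ (1 + β + ε₂) := by
      calc (k : ℝ) = (k : ℝ) ^ (1 : ℝ) := (Real.rpow_one _).symm
        _ ≤ _ := Real.rpow_le_rpow_of_exponent_le hk1 (by linarith)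
    linarith
  have hm0 : (0 : ℝ) ≤ m := Nat.cast_nonneg m
  have hcR : (c : ℝ) = q * m := by exact_mod_cast hm
  have hmpos : (0 : ℝ) < m := by
    rcases hm0.eq_or_lt with h | h
    · rw [← h, mul_zero] at hcR
      have := Real.rpow_pos_of_pos hk0 η
      linarith
    · exact h
  have hm1 : (1 : ℝ) ≤ m := by exact_mod_cast (show 0 < m by exact_mod_cast hmpos)
  have hq1' : (1 : ℝ) ≤ q := by exact_mod_cast hqp.one_lt.le
  refine ⟨(m, p), ?_, hNm⟩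
  rw [mem_coe, mem_filter, mem_product, D5_Ms hk1, D5_Ms hk1]
  refine ⟨⟨⟨?_, ?_⟩, ?_, ?_⟩, hp, ?_, ?_⟩
  · -- `k^(η-ε₂) < m`
    show (k : ℝ) ^ (η - ε₂) < m
    rw [Real.rpow_sub hk0, div_lt_iff₀ (Real.rpow_pos_of_pos hk0 _)]
    calc (k : ℝ) ^ η < c := hc
      _ = m * q := by rw [hcR]; ring
      _ ≤ m * (k : ℝ) ^ ε₂ := mul_le_mul_of_nonneg_left hq1 hm0
  · show (m : ℝ) ≤ (k : ℝ) ^ (η - ε₂ + I * lam)
    have h1 : (m : ℝ) ≤ (k : ℝ) ^ (β + ε₂) := by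
      by_contra hcon
      rw [not_le] at hcon
      have h2 : (k : ℝ) ^ ε₁ * k ≤ q * p :=
        mul_le_mul hq2.le hkpR.le hk0.le hq0.le
      have h3 : 2 * (k : ℝ) ≤ q * p := by nlinarith
      have h4 : (2 * (k : ℝ)) * (k : ℝ) ^ (β + ε₂) < (q * p) * m :=
        mul_lt_mul' h3 hcon (Real.rpow_nonneg hk0.le _) (by linarith)
      have h5 : (k : ℝ) * (k : ℝ) ^ (β + ε₂) = (k : ℝ) ^ (1 + β + ε₂) := by
        rw [show (1 : ℝ) + β + ε₂ = 1 + (β + ε₂) by ring, Real.rpow_add hk0 1, Real.rpow_one]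
      nlinarith
    exact h1.trans (Real.rpow_le_rpow_of_exponent_le hk1 hI)
  · show (k : ℝ) ^ ((1 : ℝ) / 2) < p
    calc (k : ℝ) ^ ((1 : ℝ) / 2) ≤ (k : ℝ) ^ (1 : ℝ) :=
          Real.rpow_le_rpow_of_exponent_le hk1 (by norm_num)
      _ = k := Real.rpow_one _
      _ < p := hkpR
  · show (p : ℝ) ≤ (k : ℝ) ^ (2 : ℝ)
    have h1 : (p : ℝ) ≤ N := by
      rw [← hNR]
      have h2 : (1 : ℝ) ≤ q * m := one_le_mul_of_one_le_of_one_le hq1' hm1
      nlinarith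
    have h2 : 2 * (k : ℝ) ^ (1 + β + ε₂) ≤ (k : ℝ) ^ (2 : ℝ) := by
      calc 2 * (k : ℝ) ^ (1 + β + ε₂) ≤ (k : ℝ) ^ (1 / 10 : ℝ) * (k : ℝ) ^ (1 + β + ε₂) :=
            mul_le_mul_of_nonneg_right h2b (Real.rpow_nonneg hk0.le _)
        _ = (k : ℝ) ^ (1 / 10 + (1 + β + ε₂)) := (Real.rpow_add hk0 _ _).symm
        _ ≤ _ := Real.rpow_le_rpow_of_exponent_le hk1 (by linarith)
    linarith
  · show n < q * m * p
    rw [hNm]
    exact hN1
  · show q * m * p ≤ n + k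
    rw [hNm]
    exact hN2

theorem SS_ge (β η ε₁ ε₂ lam : ℝ) (J : ℕ) (hβ : 0 < β) (hβ2 : β ≤ 9 / 11) (hη : 0 < η)
    (hε₁ : 0 < ε₁) (hε₁₂ : ε₁ < ε₂) (hε : ε₂ ≤ 1 / 50) (hlam : 0 < lam)
    (hJ : η + J * lam ≤ β - 3 * ε₂) :
    ∃ k0 : ℝ, ∀ k n : ℕ, k0 ≤ k → (k : ℝ) ^ (1 + β - ε₂) ≤ n → (n : ℝ) ≤ (k : ℝ) ^ (1 + β + ε₂) →
      ∑ i ∈ range J, CC k ε₁ ε₂ (η + i * lam) lam n k ≤ SS k n η ε₁ ε₂ := by
  refine ⟨max 1 ((2 : ℝ) ^ (1 / (1 / 10 : ℝ))), ?_⟩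
  intro k n hk hn1 hn2
  simp only [max_le_iff] at hk
  obtain ⟨hk1, hk3⟩ := hk
  have hk0 : (0 : ℝ) < k := by linarith
  have h2b := D5_two (by norm_num) hk3
  rw [D5_glue (k : ℝ) ε₁ ε₂ η lam n k J hk1 hlam.le, D5_card, D5_SS]
  refine sum_le_sum fun q hq => ?_
  obtain ⟨hqp, hq1, hq2⟩ := D5_Qs hk1 hq
  have hq0 : (0 : ℝ) < q := by exact_mod_cast hqp.pos
  have hq1' : (1 : ℝ) ≤ q := by exact_mod_cast hqp.one_lt.le
  -- the facts for a triple
  have hfact : ∀ m l : ℕ, m ∈ Ms k η (η + J * lam) → n < q * m * l →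
      q * m * l ≤ n + k → k < l ∧ (k : ℝ) ^ η < (m : ℝ) := by
    intro m l hm h1 _
    rw [D5_Ms hk1] at hm
    obtain ⟨hm1, hm2⟩ := hm
    refine ⟨?_, hm1⟩
    have h1R : (n : ℝ) < q * m * l := by exact_mod_cast h1
    have hmle : (m : ℝ) ≤ (k : ℝ) ^ (β - 3 * ε₂) :=
      hm2.trans (Real.rpow_le_rpow_of_exponent_le hk1 hJ)
    by_contra hcon
    rw [not_lt] at hcon
    have hlR : (l : ℝ) ≤ k := by exact_mod_cast hcon
    have h2 : (q : ℝ) * m * l ≤ (k : ℝ) ^ ε₂ * (k : ℝ) ^ (β - 3 * ε₂) * k := by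
      refine mul_le_mul (mul_le_mul hq1 hmle (Nat.cast_nonneg m) (Real.rpow_nonneg hk0.le _))
        hlR (Nat.cast_nonneg l) (by positivity)
    have h3 : (k : ℝ) ^ ε₂ * (k : ℝ) ^ (β - 3 * ε₂) * k = (k : ℝ) ^ (1 + β - 2 * ε₂) := by
      rw [← Real.rpow_add hk0]
      nth_rewrite 2 [← Real.rpow_one (k : ℝ)]
      rw [← Real.rpow_add hk0]
      congr 1
      ring
    have h4 : (k : ℝ) ^ (1 + β - 2 * ε₂) ≤ (k : ℝ) ^ (1 + β - ε₂) :=
      Real.rpow_le_rpow_of_exponent_le hk1 (by linarith)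
    linarith
  have hN2 : ((n + k : ℕ) : ℝ) ≤ (k : ℝ) ^ (2 : ℝ) := by
    have h1 : (k : ℝ) ≤ (k : ℝ) ^ (1 + β + ε₂) := by
      calc (k : ℝ) = (k : ℝ) ^ (1 : ℝ) := (Real.rpow_one _).symm
        _ ≤ _ := Real.rpow_le_rpow_of_exponent_le hk1 (by linarith)
    have h2 : 2 * (k : ℝ) ^ (1 + β + ε₂) ≤ (k : ℝ) ^ (2 : ℝ) := by
      calc 2 * (k : ℝ) ^ (1 + β + ε₂) ≤ (k : ℝ) ^ (1 / 10 : ℝ) * (k : ℝ) ^ (1 + β + ε₂) :=
            mul_le_mul_of_nonneg_right h2b (Real.rpow_nonneg hk0.le _)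
        _ = (k : ℝ) ^ (1 / 10 + (1 + β + ε₂)) := (Real.rpow_add hk0 _ _).symm
        _ ≤ _ := Real.rpow_le_rpow_of_exponent_le hk1 (by linarith)
    push_cast
    linarith
  have hN2' : n + k ≤ k * k := by
    have h1 : ((n + k : ℕ) : ℝ) ≤ ((k * k : ℕ) : ℝ) := by
      refine hN2.trans (le_of_eq ?_)
      rw [show (2 : ℝ) = ((2 : ℕ) : ℝ) by norm_num, Real.rpow_natCast]
      push_cast
      ring
    exact_mod_cast h1
  rw [Nat.cast_le]
  refine card_le_card_of_injOn (fun x : ℕ × ℕ => q * x.1 * x.2) ?_ ?_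
  · intro x hx
    rw [mem_coe, mem_filter, mem_product] at hx
    obtain ⟨⟨hx1, _⟩, hx3, hx4, hx5⟩ := hx
    obtain ⟨h1, h2⟩ := hfact x.1 x.2 hx1 hx4 hx5
    rw [mem_coe, mem_filter, D5_FB, mem_Ioc]
    refine ⟨⟨⟨hx4, hx5⟩, x.2, q * x.1, hx3, h1, by ring, ?_⟩, ?_⟩
    · push_cast
      have h3 : (0 : ℝ) ≤ x.1 := Nat.cast_nonneg _
      nlinarith
    · show q ∣ q * x.1 * x.2
      rw [mul_assoc]
      exact dvd_mul_right _ _
  · intro x hx y hy hxy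
    rw [mem_coe, mem_filter, mem_product] at hx hy
    obtain ⟨⟨hx1, _⟩, hx3, hx4, hx5⟩ := hx
    obtain ⟨⟨hy1, _⟩, hy3, hy4, hy5⟩ := hy
    obtain ⟨h1, _⟩ := hfact x.1 x.2 hx1 hx4 hx5
    obtain ⟨h1', _⟩ := hfact y.1 y.2 hy1 hy4 hy5
    have hxy' : q * x.1 * x.2 = q * y.1 * y.2 := hxy
    have he : x.1 * x.2 = y.1 * y.2 := by
      have h : q * (x.1 * x.2) = q * (y.1 * y.2) := by
        rw [← mul_assoc, ← mul_assoc]
        exact hxy'
      exact Nat.eq_of_mul_eq_mul_left hqp.pos h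
    have h22 : x.2 = y.2 := by
      by_contra hne
      have hd : x.2 ∣ y.1 := by
        have h : x.2 ∣ y.1 * y.2 := ⟨x.1, by rw [← he]; ring⟩
        rcases (hx3.dvd_mul).mp h with h | h
        · exact h
        · exact absurd ((Nat.prime_dvd_prime_iff_eq hx3 hy3).mp h) hne
      have hy0 : 0 < y.1 := by
        rcases Nat.eq_zero_or_pos y.1 with h | h
        · rw [h] at hy4
          simp at hy4
        · exact h
      have h3 : x.2 ≤ y.1 := Nat.le_of_dvd hy0 hd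
      have h4 : x.2 * y.2 ≤ q * y.1 * y.2 := by
        refine Nat.mul_le_mul_right _ (h3.trans ?_)
        exact Nat.le_mul_of_pos_left _ hqp.pos
      have h5 : k * k < x.2 * y.2 := Nat.mul_lt_mul'' h1 h1'
      omega
    have h11 : x.1 = y.1 := by
      rw [h22] at he
      exact Nat.eq_of_mul_eq_mul_right hy3.pos he
    exact Prod.ext h11 h22

end Pool.Agent.Lib.MP_9a8698_nt
end

section

/-!
D2. Bounds for `∑ 1/q` over `k^a < q ≤ k^b` (`Pool.Agent.Lib.H62.mertens_prime_lower`, `mertens_prime_upper` are proved).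

PROOF. For `0 < c < d`, by the two Mertens bounds at `k^c` and `k^d`:
`∑_{k^c < q ≤ k^d} log q/q` is between `(d-c) log k - C` and `(d-c) log k + C` (`C` absolute), and `c log k < log q ≤ d log k`.
Upper bound: `∑_{k^c < q ≤ k^(2c)} 1/q ≤ (c log k + C)/(c log k) ≤ 2` for large `k`; `(a, b]` is covered by `j = ⌈log(b/a)/log 2⌉ ≤ log(b/a)/log 2 + 1`
intervals `(2^i a, 2^(i+1) a]`, so `LL ≤ 2 j ≤ 4 log(b/a) + 4`.
Lower bound: `∑_{k^c < q ≤ k^(4c)} 1/q ≥ (3 c log k - C)/(4 c log k) ≥ 1/2` for large `k`; `(a, b]` contains `j = ⌊log(b/a)/log 4⌋` disjoint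
intervals `(4^i a, 4^(i+1) a]`, so `LL ≥ j/2 ≥ (log(b/a)/log 4 - 1)/2 ≥ (1/4) log(b/a) - 1`.
-/

set_option autoImplicit false

open Finset

namespace Pool.Agent.Lib.MP_9a8698_nt

private theorem D2_pow_le {k c d : ℝ} (hk : 1 ≤ k) (h : c ≤ d) : ⌊k ^ c⌋₊ ≤ ⌊k ^ d⌋₊ :=
  Nat.floor_le_floor (Real.rpow_le_rpow_of_exponent_le hk h)

private theorem D2_add {k a c b : ℝ} (hk : 1 ≤ k) (h1 : a ≤ c) (h2 : c ≤ b) (f : ℕ → ℝ) :
    ∑ q ∈ Qs k a b, f q = ∑ q ∈ Qs k a c, f q + ∑ q ∈ Qs k c b, f q := by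
  unfold Qs
  rw [Finset.sum_filter, Finset.sum_filter, Finset.sum_filter]
  exact (Finset.sum_Ioc_consecutive _ (D2_pow_le hk h1) (D2_pow_le hk h2)).symm

private theorem D2_mono {k a b b' : ℝ} (hk : 1 ≤ k) (h : b ≤ b') : LL k a b ≤ LL k a b' := by
  unfold LL Qs
  refine Finset.sum_le_sum_of_subset_of_nonneg ?_ fun q _ _ => by positivity
  exact Finset.filter_subset_filter _ (Finset.Ioc_subset_Ioc_right (D2_pow_le hk h))

private theorem D2_log : ∃ C : ℝ, 0 ≤ C ∧ ∀ k c d : ℝ, 1 ≤ k → 0 ≤ c → c ≤ d →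
    |∑ q ∈ Qs k c d, Real.log q / q - (d - c) * Real.log k| ≤ C := by
  obtain ⟨C, hC⟩ := H62.mertens_prime_lower
  refine ⟨|C| + 6, by positivity, fun k c d hk hc hcd => ?_⟩
  have hk0 : 0 < k := by linarith
  have e1 : ∑ p ∈ (Ioc 0 ⌊k ^ d⌋₊).filter Nat.Prime, Real.log p / (p : ℝ) =
      ∑ p ∈ (Ioc 0 ⌊k ^ c⌋₊).filter Nat.Prime, Real.log p / (p : ℝ) +
      ∑ q ∈ Qs k c d, Real.log q / (q : ℝ) := by
    unfold Qs
    rw [Finset.sum_filter, Finset.sum_filter, Finset.sum_filter]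
    exact (Finset.sum_Ioc_consecutive _ (Nat.zero_le _) (D2_pow_le hk hcd)).symm
  have a1 := hC (k ^ d) (Real.one_le_rpow hk (hc.trans hcd))
  have a2 := hC (k ^ c) (Real.one_le_rpow hk hc)
  have b1 := H62.mertens_prime_upper (k ^ d) (Real.one_le_rpow hk (hc.trans hcd))
  have b2 := H62.mertens_prime_upper (k ^ c) (Real.one_le_rpow hk hc)
  rw [Real.log_rpow hk0] at a1 a2 b1 b2
  have hCa := le_abs_self C
  rw [abs_le]
  constructor <;> nlinarith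

private theorem D2_upper_step {C k c : ℝ} (hC : 0 ≤ C) (h : ∀ k c d : ℝ, 1 ≤ k → 0 ≤ c → c ≤ d →
    |∑ q ∈ Qs k c d, Real.log q / q - (d - c) * Real.log k| ≤ C) (hk : 1 ≤ k) (hc : 0 < c)
    (hck : C + 1 ≤ c * Real.log k) : LL k c (2 * c) ≤ 2 := by
  have h1 := (abs_le.1 (h k c (2 * c) hk hc.le (by linarith))).2
  have hk0 : 0 < k := by linarith
  have hpos : 0 < c * Real.log k := by linarith
  have h2 : LL k c (2 * c) * (c * Real.log k) ≤ ∑ q ∈ Qs k c (2 * c), Real.log q / q := by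
    unfold LL
    rw [Finset.sum_mul]
    refine Finset.sum_le_sum fun q hq => ?_
    unfold Qs at hq
    rw [Finset.mem_filter, Finset.mem_Ioc] at hq
    have hq0 : (0 : ℝ) < q := by exact_mod_cast hq.2.pos
    have t1 : k ^ c ≤ (q : ℝ) := (Nat.lt_of_floor_lt hq.1.1).le
    have t2 : c * Real.log k ≤ Real.log q := by
      rw [← Real.log_rpow hk0]
      exact Real.log_le_log (Real.rpow_pos_of_pos hk0 c) t1
    rw [one_div, ← div_eq_inv_mul]
    exact div_le_div_of_nonneg_right t2 hq0.le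
  by_contra hcon
  push Not at hcon
  nlinarith

private theorem D2_lower_step {C k c : ℝ} (hC : 0 ≤ C) (h : ∀ k c d : ℝ, 1 ≤ k → 0 ≤ c → c ≤ d →
    |∑ q ∈ Qs k c d, Real.log q / q - (d - c) * Real.log k| ≤ C) (hk : 1 ≤ k) (hc : 0 < c)
    (hck : C + 1 ≤ c * Real.log k) : 1 / 2 ≤ LL k c (4 * c) := by
  have h1 := (abs_le.1 (h k c (4 * c) hk hc.le (by linarith))).1
  have hk0 : 0 < k := by linarith
  have hpos : 0 < c * Real.log k := by linarith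
  have h2 : ∑ q ∈ Qs k c (4 * c), Real.log q / q ≤ LL k c (4 * c) * (4 * c * Real.log k) := by
    unfold LL
    rw [Finset.sum_mul]
    refine Finset.sum_le_sum fun q hq => ?_
    unfold Qs at hq
    rw [Finset.mem_filter, Finset.mem_Ioc] at hq
    have hq0 : (0 : ℝ) < q := by exact_mod_cast hq.2.pos
    have t1 : (q : ℝ) ≤ k ^ (4 * c) := (Nat.le_floor_iff (by positivity)).1 hq.1.2
    have t2 : Real.log q ≤ 4 * c * Real.log k := by
      rw [← Real.log_rpow hk0]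
      exact Real.log_le_log hq0 t1
    rw [one_div, ← div_eq_inv_mul]
    exact div_le_div_of_nonneg_right t2 hq0.le
  by_contra hcon
  push Not at hcon
  nlinarith

theorem LL_upper (a b : ℝ) (ha : 0 < a) (hab : a < b) :
    ∃ k0 : ℝ, ∀ k : ℝ, k0 ≤ k → LL k a b ≤ 4 * Real.log (b / a) + 4 := by
  obtain ⟨C, hC, h⟩ := D2_log
  refine ⟨Real.exp ((C + 1) / a), fun k hk => ?_⟩
  have hk0 : 0 < k := (Real.exp_pos _).trans_le hk
  have hk1 : 1 ≤ k := (Real.one_le_exp (by positivity)).trans hk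
  have hak : C + 1 ≤ a * Real.log k := by
    have := (Real.le_log_iff_exp_le hk0).2 hk
    rw [div_le_iff₀ ha] at this
    linarith
  have hlogk : 0 ≤ Real.log k := Real.log_nonneg hk1
  have key : ∀ j : ℕ, LL k a (2 ^ j * a) ≤ 2 * j := by
    intro j
    induction j with
    | zero =>
      unfold LL Qs
      simp
    | succ j ih =>
      have h2j : (1 : ℝ) ≤ 2 ^ j := one_le_pow₀ (by norm_num)
      have e : (2 : ℝ) ^ (j + 1) * a = 2 * (2 ^ j * a) := by ring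
      have h3 : LL k a (2 * (2 ^ j * a)) = LL k a (2 ^ j * a) +
          LL k (2 ^ j * a) (2 * (2 ^ j * a)) := by
        unfold LL
        exact D2_add hk1 (by nlinarith) (by nlinarith) _
      have h4 := D2_upper_step (c := 2 ^ j * a) hC h hk1 (by positivity) (by nlinarith)
      rw [e, h3]
      push_cast
      linarith
  have hba : 1 < b / a := (one_lt_div ha).2 hab
  have hlog : 0 < Real.log (b / a) := Real.log_pos hba
  have hl2 := Real.log_two_gt_d9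
  set j : ℕ := ⌈Real.log (b / a) / Real.log 2⌉₊ with hj
  have hj1 : Real.log (b / a) / Real.log 2 ≤ j := Nat.le_ceil _
  have hj2 : (j : ℝ) < Real.log (b / a) / Real.log 2 + 1 := Nat.ceil_lt_add_one (by positivity)
  have hb : b ≤ 2 ^ j * a := by
    rw [← div_le_iff₀ ha, ← Real.log_le_log_iff (by linarith) (by positivity), Real.log_pow]
    rw [div_le_iff₀ (by linarith)] at hj1
    exact hj1
  have h5 : Real.log (b / a) / Real.log 2 ≤ 2 * Real.log (b / a) := by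
    rw [div_le_iff₀ (by linarith)]
    nlinarith
  have h6 := D2_mono (a := a) hk1 hb
  have h7 := key j
  linarith

theorem LL_lower (a b : ℝ) (ha : 0 < a) (hab : a < b) :
    ∃ k0 : ℝ, ∀ k : ℝ, k0 ≤ k → (1 / 4) * Real.log (b / a) - 1 ≤ LL k a b := by
  obtain ⟨C, hC, h⟩ := D2_log
  refine ⟨Real.exp ((C + 1) / a), fun k hk => ?_⟩
  have hk0 : 0 < k := (Real.exp_pos _).trans_le hk
  have hk1 : 1 ≤ k := (Real.one_le_exp (by positivity)).trans hk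
  have hak : C + 1 ≤ a * Real.log k := by
    have := (Real.le_log_iff_exp_le hk0).2 hk
    rw [div_le_iff₀ ha] at this
    linarith
  have hlogk : 0 ≤ Real.log k := Real.log_nonneg hk1
  have key : ∀ j : ℕ, (j : ℝ) / 2 ≤ LL k a (4 ^ j * a) := by
    intro j
    induction j with
    | zero =>
      unfold LL Qs
      simp
    | succ j ih =>
      have h2j : (1 : ℝ) ≤ 4 ^ j := one_le_pow₀ (by norm_num)
      have e : (4 : ℝ) ^ (j + 1) * a = 4 * (4 ^ j * a) := by ring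
      have h3 : LL k a (4 * (4 ^ j * a)) = LL k a (4 ^ j * a) +
          LL k (4 ^ j * a) (4 * (4 ^ j * a)) := by
        unfold LL
        exact D2_add hk1 (by nlinarith) (by nlinarith) _
      have h4 := D2_lower_step (c := 4 ^ j * a) hC h hk1 (by positivity) (by nlinarith)
      rw [e, h3]
      push_cast
      linarith
  have hba : 1 < b / a := (one_lt_div ha).2 hab
  have hlog : 0 < Real.log (b / a) := Real.log_pos hba
  have hl2 := Real.log_two_gt_d9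
  have hl2' := Real.log_two_lt_d9
  have hl4 : Real.log 4 = 2 * Real.log 2 := by
    rw [show (4 : ℝ) = 2 ^ 2 by norm_num, Real.log_pow]
    norm_num
  set j : ℕ := ⌊Real.log (b / a) / Real.log 4⌋₊ with hj
  have hj0 : 0 ≤ Real.log (b / a) / Real.log 4 := by
    rw [hl4]
    positivity
  have hj1 : (j : ℝ) ≤ Real.log (b / a) / Real.log 4 := Nat.floor_le hj0
  have hj2 : Real.log (b / a) / Real.log 4 < j + 1 := Nat.lt_floor_add_one _
  have hb : 4 ^ j * a ≤ b := by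
    rw [← le_div_iff₀ ha, ← Real.log_le_log_iff (by positivity) (by linarith), Real.log_pow]
    rw [le_div_iff₀ (by linarith)] at hj1
    exact hj1
  have h5 : Real.log (b / a) / 2 ≤ Real.log (b / a) / Real.log 4 :=
    div_le_div_of_nonneg_left hlog.le (by linarith) (by linarith)
  have h6 := D2_mono (a := a) hk1 hb
  have h7 := key j
  linarith

end Pool.Agent.Lib.MP_9a8698_nt
end

section

/-!
D4. The inequality of Turan and Kubilius applied to the integers with a large prime factor (D1 may be used, `sorry` or not).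

PROOF of `SS_close`. `w(N) = ∑_{q ∈ Qs} 1_(q ∣ N)`, `L = LL k ε₁ ε₂`. The primes `q ∈ Qs k ε₁ ε₂` satisfy `q² ≤ k^(2ε₂) ≤ k`. By Cauchy-Schwarz over
`FB ⊆ Ioc n (n+k)` (`#FB ≤ k`): `|SS - L #FB| = |∑_{N ∈ FB} (w(N) - L)| ≤ (#FB)^(1/2) (∑_N (w(N)-L)²)^(1/2) ≤ k^(1/2) (k (3L+1))^(1/2)`.
PROOF of `small_cofactor`. Put `Q' = Qs k η (1/2)`, `L' = LL k η (1/2)`. If `N ∈ FF \ FB`, then `N = p c` with a prime `p > k` and `c ≤ k^η` (`c ≥ 1`), and no
`q ∈ Q'` divides `N`: `q ∣ p` would give `q = p > k`, but `q ≤ k^(1/2) ≤ k`; `q ∣ c` would give `q ≤ c ≤ k^η`, so `q ≤ ⌊k^η⌋`, but `q > ⌊k^η⌋`.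
So `(w'(N) - L')² = L'²` for these `N`, and `TK` for `Q'` gives the claim. (`FB ⊆ FF`.)
PROOF of `FF_card`. The map `i ↦ n + i` is a bijection from `Icc 1 k` to `Ioc n (n+k)`, `n + i ≠ 0`, `Nat.mem_primeFactors`.
-/

set_option autoImplicit false

open Finset

namespace Pool.Agent.Lib.MP_9a8698_nt

private theorem D4_FF {k n N : ℕ} :
    N ∈ FF k n ↔ N ∈ Ioc n (n + k) ∧ ∃ p : ℕ, p.Prime ∧ k < p ∧ p ∣ N := by
  classical
  simp only [FF, mem_filter]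

private theorem D4_FB {k n N : ℕ} {η : ℝ} :
    N ∈ FB k n η ↔ N ∈ Ioc n (n + k) ∧
      ∃ p c : ℕ, p.Prime ∧ k < p ∧ p * c = N ∧ (k : ℝ) ^ η < (c : ℝ) := by
  classical
  simp only [FB, mem_filter]

theorem FB_subset (k n : ℕ) (η : ℝ) : FB k n η ⊆ FF k n := by
  intro N hN
  rw [D4_FB] at hN
  rw [D4_FF]
  obtain ⟨h1, p, c, hp, hkp, hpc, -⟩ := hN
  exact ⟨h1, p, hp, hkp, ⟨c, hpc.symm⟩⟩

private theorem D4_Qs_le {k : ℕ} {a b : ℝ} {q : ℕ} (hq : q ∈ Qs k a b) :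
    q.Prime ∧ (q : ℝ) ≤ (k : ℝ) ^ b ∧ ⌊(k : ℝ) ^ a⌋₊ < q := by
  unfold Qs at hq
  rw [mem_filter, mem_Ioc] at hq
  refine ⟨hq.2, ?_, hq.1.1⟩
  have h0 : (0 : ℝ) ≤ (k : ℝ) ^ b := Real.rpow_nonneg (Nat.cast_nonneg k) _
  exact (Nat.cast_le.mpr hq.1.2).trans (Nat.floor_le h0)

private theorem D4_Qs_sq {k : ℕ} {a b : ℝ} (hk : 1 ≤ k) (hb : b ≤ 1 / 2) {q : ℕ}
    (hq : q ∈ Qs k a b) : q.Prime ∧ q ^ 2 ≤ k := by
  obtain ⟨h1, h2, -⟩ := D4_Qs_le hq
  refine ⟨h1, ?_⟩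
  have hk1 : (1 : ℝ) ≤ k := by exact_mod_cast hk
  have h3 : (q : ℝ) ≤ (k : ℝ) ^ ((1 : ℝ) / 2) :=
    h2.trans (Real.rpow_le_rpow_of_exponent_le hk1 hb)
  have h4 : (q : ℝ) ^ 2 ≤ k := by
    calc (q : ℝ) ^ 2 ≤ ((k : ℝ) ^ ((1 : ℝ) / 2)) ^ 2 :=
          pow_le_pow_left₀ (Nat.cast_nonneg q) h3 2
      _ = k := by
        rw [← Real.rpow_natCast, ← Real.rpow_mul (by linarith)]
        norm_num
  exact_mod_cast h4

theorem SS_close (k n : ℕ) (η ε₁ ε₂ : ℝ) (hk : 1 ≤ k) (hε₂ : ε₂ ≤ 1 / 2) :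
    |SS k n η ε₁ ε₂ - LL k ε₁ ε₂ * (#(FB k n η) : ℝ)| ≤
      k * Real.sqrt (3 * LL k ε₁ ε₂ + 1) := by
  have hL0 : 0 ≤ LL k ε₁ ε₂ := by
    unfold LL
    exact sum_nonneg fun q _ => by positivity
  have hTK := TK (Qs k ε₁ ε₂) k n (fun q hq => D4_Qs_sq hk hε₂ hq)
  have hsub : FB k n η ⊆ Ioc n (n + k) := fun N hN => (D4_FB.mp hN).1
  have hcard : (#(FB k n η) : ℝ) ≤ k := by
    have h := card_le_card hsub
    rw [Nat.card_Ioc, Nat.add_sub_cancel_left] at h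
    exact_mod_cast h
  have e1 : SS k n η ε₁ ε₂ - LL k ε₁ ε₂ * (#(FB k n η) : ℝ) =
      ∑ N ∈ FB k n η, ((∑ q ∈ Qs k ε₁ ε₂, if q ∣ N then (1 : ℝ) else 0) -
        ∑ q ∈ Qs k ε₁ ε₂, (1 : ℝ) / q) := by
    rw [sum_sub_distrib, sum_const, nsmul_eq_mul]
    unfold SS LL
    ring
  rw [e1]
  apply abs_le_of_sq_le_sq _ (by positivity)
  rw [mul_pow, Real.sq_sqrt (by linarith)]
  have h1 := sq_sum_le_card_mul_sum_sq (s := FB k n η)
    (f := fun N => (∑ q ∈ Qs k ε₁ ε₂, if q ∣ N then (1 : ℝ) else 0) -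
        ∑ q ∈ Qs k ε₁ ε₂, (1 : ℝ) / q)
  have h2 : ∑ N ∈ FB k n η, ((∑ q ∈ Qs k ε₁ ε₂, if q ∣ N then (1 : ℝ) else 0) -
        ∑ q ∈ Qs k ε₁ ε₂, (1 : ℝ) / q) ^ 2 ≤ k * (3 * LL k ε₁ ε₂ + 1) :=
    (sum_le_sum_of_subset_of_nonneg hsub fun N _ _ => sq_nonneg _).trans hTK
  calc _ ≤ _ := h1
    _ ≤ (k : ℝ) * (k * (3 * LL k ε₁ ε₂ + 1)) :=
      mul_le_mul hcard h2 (sum_nonneg fun N _ => sq_nonneg _) (Nat.cast_nonneg k)
    _ = _ := by ring

theorem small_cofactor (k n : ℕ) (η : ℝ) (hk : 1 ≤ k) :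
    ((#(FF k n) : ℝ) - #(FB k n η)) * LL k η (1 / 2) ^ 2 ≤ k * (3 * LL k η (1 / 2) + 1) := by
  have hTK := TK (Qs k η (1 / 2)) k n (fun q hq => D4_Qs_sq hk le_rfl hq)
  have hsub : FF k n \ FB k n η ⊆ Ioc n (n + k) :=
    sdiff_subset.trans fun N hN => (D4_FF.mp hN).1
  have hk1 : (1 : ℝ) ≤ k := by exact_mod_cast hk
  have hzero : ∀ N ∈ FF k n \ FB k n η,
      (∑ q ∈ Qs k η (1 / 2), if q ∣ N then (1 : ℝ) else 0) = 0 := by
    intro N hN
    rw [mem_sdiff] at hN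
    obtain ⟨hF, hB⟩ := hN
    rw [D4_FF] at hF
    obtain ⟨hI, p, hp, hkp, c, hc⟩ := hF
    have hcη : (c : ℝ) ≤ (k : ℝ) ^ η := by
      by_contra hcon
      rw [not_le] at hcon
      apply hB
      rw [D4_FB]
      exact ⟨hI, p, c, hp, hkp, hc.symm, hcon⟩
    rw [mem_Ioc] at hI
    have hc0 : 0 < c := by
      rcases Nat.eq_zero_or_pos c with h | h
      · rw [h, mul_zero] at hc
        omega
      · exact h
    refine sum_eq_zero fun q hq => ?_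
    rw [if_neg]
    intro hqN
    obtain ⟨hqp, hq1, hq2⟩ := D4_Qs_le hq
    rw [hc] at hqN
    rcases (hqp.dvd_mul).mp hqN with h | h
    · have h1 : q = p := (Nat.prime_dvd_prime_iff_eq hqp hp).mp h
      have h2 := (D4_Qs_sq hk le_rfl hq).2
      have h3 : q ≤ q ^ 2 := Nat.le_self_pow (by norm_num) q
      omega
    · have h1 : q ≤ c := Nat.le_of_dvd hc0 h
      have h2 : c ≤ ⌊(k : ℝ) ^ η⌋₊ := Nat.le_floor hcη
      omega
  have hcard : ((#(FF k n) : ℝ) - #(FB k n η)) = (#(FF k n \ FB k n η) : ℝ) := by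
    have h := card_sdiff_add_card_eq_card (FB_subset k n η)
    rw [← h]
    push_cast
    ring
  rw [hcard]
  calc (#(FF k n \ FB k n η) : ℝ) * LL k η (1 / 2) ^ 2
      = ∑ N ∈ FF k n \ FB k n η, ((∑ q ∈ Qs k η (1 / 2), if q ∣ N then (1 : ℝ) else 0) -
        ∑ q ∈ Qs k η (1 / 2), (1 : ℝ) / q) ^ 2 := by
        rw [← nsmul_eq_mul, ← sum_const]
        refine sum_congr rfl fun N hN => ?_
        rw [hzero N hN, zero_sub, neg_sq]
        rfl
    _ ≤ _ := sum_le_sum_of_subset_of_nonneg hsub fun N _ _ => sq_nonneg _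
    _ ≤ _ := hTK

theorem FF_card (k n : ℕ) :
    ((Icc 1 k).filter (fun i => ∃ p ∈ (n + i).primeFactors, k < p)).card = #(FF k n) := by
  refine card_bij (fun i _ => n + i) ?_ ?_ ?_
  · intro i hi
    rw [mem_filter, mem_Icc] at hi
    rw [D4_FF, mem_Ioc]
    obtain ⟨⟨h1, h2⟩, p, hp, hkp⟩ := hi
    rw [Nat.mem_primeFactors] at hp
    exact ⟨⟨by omega, by omega⟩, p, hp.1, hkp, hp.2.1⟩
  · intro i _ j _ hij
    omega
  · intro N hN
    rw [D4_FF, mem_Ioc] at hN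
    obtain ⟨⟨h1, h2⟩, p, hp, hkp, hpN⟩ := hN
    refine ⟨N - n, ?_, by omega⟩
    rw [mem_filter, mem_Icc]
    refine ⟨⟨by omega, by omega⟩, p, ?_, hkp⟩
    have h3 : n + (N - n) = N := by omega
    rw [h3, Nat.mem_primeFactors]
    exact ⟨hp, hpN, by omega⟩

end Pool.Agent.Lib.MP_9a8698_nt
end

section

/-!
H5b. Comparison of the original polynomial with the sum of boxes.

PROOF. `ℓ = log k`. Choose `Z' = max (⌊k^(μ+lam)⌋ * ⌊k^2⌋) (2^(23 (JK k + 1)))` and `Z = ⌊k^ε₂⌋ * Z'`. By `W_eq`, `ML_eq`, `Gf_eq`, `DP_mul` and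
`fourier_JD` (the integrands are integrable: `gauss_integrable`) the difference of the integrals is
`2π ∑_{n ≤ Z} (A n - A' n)/n gs τ (log n - u)` with `A = wA * (mA * lA)`, `A' = wA * gA`. If `|log n - u| ≤ 1/2` then `log n` is within
`ε₂ ℓ + 3/2` of `(1+β) ℓ`, and for `n = q M`, `q ∈ Qs k ε₁ ε₂` (`0 ≤ log q ≤ ε₂ ℓ`), `M` is in the range of `gA_eq` for large `k`, so
`A n = A' n` (`mul_apply`). For the other `n`, `gs τ (log n - u) ≤ τ exp(-τ²/8)`. So the norm is at most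
`2π τ exp(-τ²/8) (nm A Z + nm A' Z)`; `nm_mul`, `nm_prod`, `nm_blk` bound the norms by a power of `ℓ` (`nm wA ≤ 1+ℓ`, `nm mA ≤ 1 + 3ℓ`,
`nm lA ≤ (1+2ℓ) 2ℓ`, every block has norm `≤ 3ℓ + 2`, `#(Ej) ≤ (JK k + 1)^23`, `|hbc j| ≤ 462`; sums over finite sets:
`∑_{n ≤ X} 1/n ≤ 1 + log X`), and since `τ ≥ k^δ`, `τ ≤ k^2` everything is at most `1/k` for large `k`.
-/

set_option autoImplicit false

open Finset MeasureTheory

namespace Pool.Agent.Lib.MP_9a8698_nt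

private theorem H5b_gs {τ x : ℝ} (hτ : 0 ≤ τ) (hx : 1 / 2 < |x|) :
    gs τ x ≤ τ * Real.exp (-(τ ^ 2 / 8)) := by
  unfold gs
  have h1 : (1 : ℝ) ≤ Real.sqrt (2 * Real.pi) := by
    rw [Real.one_le_sqrt]
    have := Real.pi_gt_three
    linarith
  have h2 : τ / Real.sqrt (2 * Real.pi) ≤ τ := div_le_self hτ h1
  have h3 : Real.exp (-((τ * x) ^ 2 / 2)) ≤ Real.exp (-(τ ^ 2 / 8)) := by
    apply Real.exp_le_exp.2
    have h4 : (1 : ℝ) / 4 ≤ x ^ 2 := by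
      rw [← sq_abs]
      nlinarith
    have h5 : τ ^ 2 * (1 / 4) ≤ τ ^ 2 * x ^ 2 := mul_le_mul_of_nonneg_left h4 (sq_nonneg _)
    nlinarith
  exact mul_le_mul h2 h3 (Real.exp_pos _).le hτ

private theorem H5b_nm_le {c : ℕ → ℝ} {Z : ℕ} {B : ℝ} (hB : 0 ≤ B)
    (hc : ∀ n, 1 ≤ n → n ≤ Z → |c n| ≤ B) : nm c Z ≤ B * (1 + Real.log Z) := by
  unfold nm
  calc ∑ n ∈ Icc 1 Z, |c n| / n ≤ ∑ n ∈ Icc 1 Z, B * (1 / n : ℝ) := by
        refine Finset.sum_le_sum fun n hn => ?_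
        rw [mem_Icc] at hn
        rw [mul_one_div]
        exact div_le_div_of_nonneg_right (hc n hn.1 hn.2) (Nat.cast_nonneg _)
    _ = B * ∑ n ∈ Icc 1 Z, (1 / n : ℝ) := by rw [Finset.mul_sum]
    _ ≤ B * (1 + Real.log Z) := by
        refine mul_le_mul_of_nonneg_left ?_ hB
        have := harmonic_le_one_add_log Z
        rw [harmonic_eq_sum_Icc] at this
        push_cast at this
        simpa [one_div] using this

private theorem H5b_nm_sum {α : Type*} (T : Finset α) (r : α → ℝ) (F : α → ℕ → ℝ) (Z : ℕ) :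
    nm (fun n => ∑ a ∈ T, r a * F a n) Z ≤ ∑ a ∈ T, |r a| * nm (F a) Z := by
  unfold nm
  calc _ ≤ ∑ n ∈ Icc 1 Z, ∑ a ∈ T, |r a| * (|F a n| / n) := by
        refine Finset.sum_le_sum fun n _ => ?_
        calc |∑ a ∈ T, r a * F a n| / n ≤ (∑ a ∈ T, |r a * F a n|) / n :=
              div_le_div_of_nonneg_right (Finset.abs_sum_le_sum_abs _ _) (Nat.cast_nonneg _)
          _ = ∑ a ∈ T, |r a| * (|F a n| / n) := by
              rw [Finset.sum_div]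
              refine Finset.sum_congr rfl fun a _ => ?_
              rw [abs_mul]
              ring
    _ = _ := by
        rw [Finset.sum_comm]
        refine Finset.sum_congr rfl fun a _ => ?_
        rw [Finset.mul_sum]

private theorem H5b_sum_apply {α : Type*} (s : Finset α) (f : α → ArithmeticFunction ℝ) (n : ℕ) :
    (∑ a ∈ s, f a) n = ∑ a ∈ s, f a n := by
  classical
  induction s using Finset.induction_on with
  | empty => simp
  | insert a s ha ih => rw [sum_insert ha, sum_insert ha, ArithmeticFunction.add_apply, ih]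

private theorem H5b_gA (k β θ μ lam : ℝ) (n : ℕ) : gA k β θ μ lam n =
    ∑ j ∈ Icc 1 11, hbc j * ∑ e ∈ Ej k β θ j, (∏ i, blk (cf k μ lam j i) (e i)) n := by
  unfold gA
  rw [H5b_sum_apply]
  refine Finset.sum_congr rfl fun j _ => ?_
  rw [← H5b_sum_apply]
  rfl

private theorem H5b_cf_le (k μ lam : ℝ) (j : ℕ) (i : ix j) {n : ℕ} (hn : 1 ≤ n) :
    |cf k μ lam j i n| ≤ 1 + Real.log n := by
  have hlog : 0 ≤ Real.log n := Real.log_natCast_nonneg n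
  rcases i with _ | i | i | _
  · change |(if n ∈ Ms k μ (μ + lam) ∧ n ≠ 0 then (1 : ℝ) else 0)| ≤ _
    split_ifs
    · rw [abs_one]
      linarith
    · rw [abs_zero]
      linarith
  · have := muz_abs_le (zK k) n
    change |muz (zK k) n| ≤ _
    linarith
  · change |zR n| ≤ _
    rw [zR_apply hn, abs_one]
    linarith
  · change |ArithmeticFunction.log n| ≤ _
    rw [ArithmeticFunction.log_apply, abs_of_nonneg hlog]
    linarith

private theorem H5b_card {j : ℕ} (hj : j ∈ Icc 1 11) : Fintype.card (ix j) ≤ 23 := by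
  rw [Finset.mem_Icc] at hj
  simp only [ix, Fintype.card_sum, Fintype.card_unit, Fintype.card_fin]
  omega

private theorem H5b_hbc {j : ℕ} (hj : j ∈ Icc 1 11) : |hbc j| ≤ 462 := by
  unfold hbc
  rw [abs_mul, abs_pow, abs_neg, abs_one, one_pow, one_mul, Nat.abs_cast]
  rw [Finset.mem_Icc] at hj
  obtain ⟨h1, h2⟩ := hj
  interval_cases j <;> norm_num [Nat.choose]

private theorem H5b_JK {k : ℝ} (hk : 1 ≤ k) : ((JK k + 1 : ℕ) : ℝ) ≤ 4 * Real.log k + 1 := by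
  have hlogk : 0 ≤ Real.log k := Real.log_nonneg hk
  have t1 : ((JK k : ℕ) : ℝ) ≤ 2 * Real.logb 2 k := by
    unfold JK
    refine Nat.floor_le ?_
    have := Real.logb_nonneg (b := 2) (by norm_num) hk
    linarith
  have t2 : Real.logb 2 k ≤ 2 * Real.log k := by
    rw [Real.logb, div_le_iff₀ (Real.log_pos (by norm_num))]
    have := Real.log_two_gt_d9
    nlinarith
  push_cast
  linarith

private theorem H5b_two_JK {k : ℝ} (hk : 1 ≤ k) : (2 : ℝ) ^ (JK k) ≤ k ^ 2 := by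
  have hk0 : 0 < k := by linarith
  have t1 : ((JK k : ℕ) : ℝ) ≤ 2 * Real.logb 2 k := by
    unfold JK
    refine Nat.floor_le ?_
    have := Real.logb_nonneg (b := 2) (by norm_num) hk
    linarith
  calc (2 : ℝ) ^ (JK k) = (2 : ℝ) ^ ((JK k : ℕ) : ℝ) := (Real.rpow_natCast _ _).symm
    _ ≤ (2 : ℝ) ^ (2 * Real.logb 2 k) := Real.rpow_le_rpow_of_exponent_le (by norm_num) t1
    _ = k ^ 2 := by
      rw [mul_comm, Real.rpow_mul (by norm_num), Real.rpow_logb (by norm_num) (by norm_num) hk0]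
      norm_num

private theorem H5b_nm_gA {k : ℝ} (hk : 1 ≤ k) (β θ μ lam : ℝ) {Z : ℕ} (hZ : 1 ≤ Z) {L : ℝ}
    (hL : 1 + Real.log Z ≤ L) : nm (fun n => gA k β θ μ lam n) Z ≤
      5082 * ((4 * Real.log k + 1) ^ 23 * (L * L) ^ 23) := by
  have hlogk : 0 ≤ Real.log k := Real.log_nonneg hk
  have hlogZ : 0 ≤ Real.log Z := Real.log_natCast_nonneg Z
  have hL1 : 1 ≤ L := by linarith
  have hJ1 : (1 : ℝ) ≤ ((JK k + 1 : ℕ) : ℝ) := by
    push_cast
    have : (0 : ℝ) ≤ (JK k : ℝ) := Nat.cast_nonneg _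
    linarith
  have hblk : ∀ (j : ℕ) (i : ix j) (e : ℕ),
      nm (fun n => blk (cf k μ lam j i) e n) Z ≤ L * L := by
    intro j i e
    refine (H5b_nm_le (B := L) (by linarith) fun n hn hnZ => ?_).trans
      (mul_le_mul_of_nonneg_left hL (by linarith))
    have h1 : |blk (cf k μ lam j i) e n| ≤ |cf k μ lam j i n| := by
      change |if 2 ^ e ≤ n ∧ n < 2 ^ (e + 1) then cf k μ lam j i n else 0| ≤ _
      split_ifs
      · exact le_rfl
      · rw [abs_zero]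
        exact abs_nonneg _
    have h2 := H5b_cf_le k μ lam j i hn
    have h3 : Real.log n ≤ Real.log Z :=
      Real.log_le_log (by exact_mod_cast hn) (by exact_mod_cast hnZ)
    linarith
  have e1 : (fun n => gA k β θ μ lam n) = fun n => ∑ j ∈ Icc 1 11, hbc j *
      (fun n => ∑ e ∈ Ej k β θ j, (∏ i, blk (cf k μ lam j i) (e i)) n) n := by
    funext n
    exact H5b_gA k β θ μ lam n
  rw [e1]
  refine (H5b_nm_sum _ _ _ _).trans ?_
  have h1 : ∀ j ∈ Icc 1 11, |hbc j| *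
      nm (fun n => ∑ e ∈ Ej k β θ j, (∏ i, blk (cf k μ lam j i) (e i)) n) Z ≤
      462 * ((4 * Real.log k + 1) ^ 23 * (L * L) ^ 23) := by
    intro j hj
    refine mul_le_mul (H5b_hbc hj) ?_ (nm_nonneg _ _) (by norm_num)
    have e2 : (fun n => ∑ e ∈ Ej k β θ j, (∏ i, blk (cf k μ lam j i) (e i)) n) =
        fun n => ∑ e ∈ Ej k β θ j, 1 * (fun n => (∏ i, blk (cf k μ lam j i) (e i)) n) n := by
      funext n
      simp only [one_mul]
    rw [e2]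
    refine (H5b_nm_sum (Ej k β θ j) (fun _ => 1)
      (fun (e : ix j → ℕ) (n : ℕ) => (∏ i, blk (cf k μ lam j i) (e i)) n) Z).trans ?_
    have h2 : ∀ e ∈ Ej k β θ j, |(1 : ℝ)| *
        nm (fun n => (∏ i, blk (cf k μ lam j i) (e i)) n) Z ≤ (L * L) ^ 23 := by
      intro e _
      rw [abs_one, one_mul]
      refine (nm_prod _ _ _ hZ).trans ?_
      calc ∏ i, nm (fun n => blk (cf k μ lam j i) (e i) n) Z
          ≤ ∏ i : ix j, (L * L) :=
            Finset.prod_le_prod (fun i _ => nm_nonneg _ _) fun i _ => hblk j i (e i)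
        _ = (L * L) ^ (Fintype.card (ix j)) := by
            rw [Finset.prod_const, Finset.card_univ]
        _ ≤ (L * L) ^ 23 := pow_le_pow_right₀ (by nlinarith) (H5b_card hj)
    have h3 : ((Ej k β θ j).card : ℝ) ≤ (4 * Real.log k + 1) ^ 23 := by
      have u1 : (Ej k β θ j).card ≤ (JK k + 1) ^ (Fintype.card (ix j)) := by
        unfold Ej
        refine (Finset.card_filter_le _ _).trans (le_of_eq ?_)
        rw [Fintype.card_piFinset, Finset.prod_const, Finset.card_range, Finset.card_univ]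
      calc ((Ej k β θ j).card : ℝ) ≤ (((JK k + 1) ^ (Fintype.card (ix j)) : ℕ) : ℝ) := by
            exact_mod_cast u1
        _ = ((JK k + 1 : ℕ) : ℝ) ^ (Fintype.card (ix j)) := by push_cast; rfl
        _ ≤ ((JK k + 1 : ℕ) : ℝ) ^ 23 := pow_le_pow_right₀ hJ1 (H5b_card hj)
        _ ≤ (4 * Real.log k + 1) ^ 23 := pow_le_pow_left₀ (by positivity) (H5b_JK hk) 23
    calc _ ≤ ∑ e ∈ Ej k β θ j, (L * L) ^ 23 := Finset.sum_le_sum h2
      _ = ((Ej k β θ j).card : ℝ) * (L * L) ^ 23 := by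
          rw [Finset.sum_const, nsmul_eq_mul]
      _ ≤ (4 * Real.log k + 1) ^ 23 * (L * L) ^ 23 :=
          mul_le_mul_of_nonneg_right h3 (by positivity)
  refine (Finset.sum_le_sum h1).trans (le_of_eq ?_)
  rw [Finset.sum_const, Nat.card_Icc, nsmul_eq_mul]
  norm_num
  ring

private theorem H5b_nm_A {k : ℝ} (ε₁ ε₂ μ lam : ℝ) {Z : ℕ} {L : ℝ}
    (hL : 1 + Real.log Z ≤ L) :
    nm (fun n => wA k ε₁ ε₂ n) Z ≤ L ∧ nm (fun n => (mA k μ lam * lA k) n) Z ≤ L * (L * L) := by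
  have hlogZ : 0 ≤ Real.log Z := Real.log_natCast_nonneg Z
  have hL1 : 1 ≤ L := by linarith
  have hw : nm (fun n => wA k ε₁ ε₂ n) Z ≤ L := by
    refine (H5b_nm_le (B := 1) (by norm_num) fun n _ _ => ?_).trans (by rw [one_mul]; exact hL)
    change |(if n ∈ Qs k ε₁ ε₂ ∧ n ≠ 0 then (1 : ℝ) else 0)| ≤ _
    split_ifs
    · rw [abs_one]
    · rw [abs_zero]
      exact zero_le_one
  have hm : nm (fun n => mA k μ lam n) Z ≤ L := by
    refine (H5b_nm_le (B := 1) (by norm_num) fun n _ _ => ?_).trans (by rw [one_mul]; exact hL)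
    change |(if n ∈ Ms k μ (μ + lam) ∧ n ≠ 0 then (1 : ℝ) else 0)| ≤ _
    split_ifs
    · rw [abs_one]
    · rw [abs_zero]
      exact zero_le_one
  have hl : nm (fun n => lA k n) Z ≤ L * L := by
    refine (H5b_nm_le (B := L) (by linarith) fun n hn hnZ => ?_).trans
      (mul_le_mul_of_nonneg_left hL (by linarith))
    have h3 : Real.log n ≤ Real.log Z :=
      Real.log_le_log (by exact_mod_cast hn) (by exact_mod_cast hnZ)
    change |(if n ∈ Ms k (1 / 2) 2 ∧ n ≠ 0 then ArithmeticFunction.vonMangoldt n else 0)| ≤ _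
    split_ifs
    · rw [abs_of_nonneg ArithmeticFunction.vonMangoldt_nonneg]
      have := ArithmeticFunction.vonMangoldt_le_log (n := n)
      linarith
    · rw [abs_zero]
      linarith
  refine ⟨hw, (nm_mul _ _ _).trans ?_⟩
  exact mul_le_mul hm hl (nm_nonneg _ _) (by linarith)

private theorem H5b_eventually (δ : ℝ) (hδ : 0 < δ) :
    ∃ k1 : ℝ, ∀ k : ℝ, k1 ≤ k → k ^ 74 ≤ Real.exp (k ^ (2 * δ) / 8) := by
  have h1 := isLittleO_rpow_exp_pos_mul_atTop (74 / (2 * δ)) (b := 1 / 8) (by norm_num)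
  have h2 : Filter.Tendsto (fun k : ℝ => k ^ (2 * δ)) Filter.atTop Filter.atTop :=
    tendsto_rpow_atTop (by linarith)
  have h3 := (h1.comp_tendsto h2).bound (c := 1) one_pos
  have h4 : ∀ᶠ k : ℝ in Filter.atTop, k ^ 74 ≤ Real.exp (k ^ (2 * δ) / 8) := by
    filter_upwards [h3, Filter.eventually_ge_atTop (1 : ℝ)] with k hk hk1
    have hk0 : 0 < k := by linarith
    simp only [Function.comp] at hk
    rw [one_mul, Real.norm_eq_abs, Real.norm_eq_abs, abs_of_pos (Real.exp_pos _),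
      ← Real.rpow_mul hk0.le, mul_div_cancel₀ _ (by linarith : 2 * δ ≠ 0)] at hk
    rw [abs_of_pos (by positivity)] at hk
    have e1 : k ^ (74 : ℝ) = k ^ 74 := by
      rw [← Real.rpow_natCast]
      norm_num
    rw [e1] at hk
    refine hk.trans (le_of_eq ?_)
    congr 1
    ring
  exact Filter.eventually_atTop.1 h4

/-- the two coefficient functions agree near `exp u` -/
private theorem H5b_eq {β θ ε₁ ε₂ : ℝ} (hε₂ : 0 < ε₂) {k μ lam u : ℝ} (hk : 3 ≤ k)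
    (hℓ : 2 ≤ ε₂ * Real.log k)
    (hgA : ∀ M : ℕ, k ^ (1 + β - 3 * ε₂) ≤ (M : ℝ) →
      (M : ℝ) ≤ k ^ (1 + β + 3 * ε₂) → (mA k μ lam * lA k) M = gA k β θ μ lam M)
    (hu : |u - (1 + β) * Real.log k| ≤ ε₂ * Real.log k + 1) {n : ℕ} (hn : 1 ≤ n)
    (hnu : |Real.log n - u| ≤ 1 / 2) :
    (wA k ε₁ ε₂ * (mA k μ lam * lA k)) n = (wA k ε₁ ε₂ * gA k β θ μ lam) n := by
  have hk0 : 0 < k := by linarith
  rw [ArithmeticFunction.mul_apply, ArithmeticFunction.mul_apply]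
  refine Finset.sum_congr rfl fun x hx => ?_
  have hx1 : x.1 * x.2 = n := (Nat.mem_divisorsAntidiagonal.1 hx).1
  by_cases hw : wA k ε₁ ε₂ x.1 = 0
  · rw [hw, zero_mul, zero_mul]
  congr 1
  have hmem : x.1 ∈ Qs k ε₁ ε₂ ∧ x.1 ≠ 0 := by
    by_contra h0
    apply hw
    change (if x.1 ∈ Qs k ε₁ ε₂ ∧ x.1 ≠ 0 then (1 : ℝ) else 0) = 0
    rw [if_neg h0]
  have hq1 : 1 ≤ x.1 := Nat.one_le_iff_ne_zero.2 hmem.2
  have hq2 : (x.1 : ℝ) ≤ k ^ ε₂ := by
    have h1 := hmem.1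
    unfold Qs at h1
    rw [Finset.mem_filter, Finset.mem_Ioc] at h1
    exact (Nat.le_floor_iff (by positivity)).1 h1.1.2
  have hM1 : 1 ≤ x.2 := by
    rw [Nat.one_le_iff_ne_zero]
    rintro h0
    rw [h0, mul_zero] at hx1
    omega
  have hq0 : (0 : ℝ) < x.1 := by exact_mod_cast hq1
  have hM0 : (0 : ℝ) < x.2 := by exact_mod_cast hM1
  have hlog : Real.log n = Real.log x.1 + Real.log x.2 := by
    rw [← Real.log_mul hq0.ne' hM0.ne', ← hx1]
    push_cast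
    rfl
  have hlq0 : 0 ≤ Real.log x.1 := Real.log_natCast_nonneg _
  have hlq1 : Real.log x.1 ≤ ε₂ * Real.log k := by
    have := Real.log_le_log hq0 hq2
    rwa [Real.log_rpow hk0] at this
  have a1 := abs_le.1 hnu
  have a2 := abs_le.1 hu
  have b1 : (1 + β - 3 * ε₂) * Real.log k ≤ Real.log x.2 := by nlinarith
  have b2 : Real.log x.2 ≤ (1 + β + 3 * ε₂) * Real.log k := by nlinarith
  apply hgA
  · rw [Real.rpow_def_of_pos hk0]
    calc Real.exp (Real.log k * (1 + β - 3 * ε₂)) ≤ Real.exp (Real.log x.2) := by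
          apply Real.exp_le_exp.2
          linarith
      _ = x.2 := Real.exp_log hM0
  · rw [Real.rpow_def_of_pos hk0]
    calc (x.2 : ℝ) = Real.exp (Real.log x.2) := (Real.exp_log hM0).symm
      _ ≤ _ := by
          apply Real.exp_le_exp.2
          linarith

/-- comparison of two sums -/
private theorem H5b_JD {c d : ℕ → ℝ} {Z : ℕ} {τ u : ℝ} (hτ : 0 ≤ τ)
    (hcd : ∀ n : ℕ, 1 ≤ n → |Real.log n - u| ≤ 1 / 2 → c n = d n) :
    |JD (Icc 1 Z) c τ u - JD (Icc 1 Z) d τ u| ≤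
      τ * Real.exp (-(τ ^ 2 / 8)) * (nm c Z + nm d Z) := by
  unfold JD nm
  rw [← Finset.sum_sub_distrib, ← Finset.sum_add_distrib, Finset.mul_sum]
  refine (Finset.abs_sum_le_sum_abs _ _).trans (Finset.sum_le_sum fun n hn => ?_)
  rw [mem_Icc] at hn
  have hn0 : (0 : ℝ) ≤ n := Nat.cast_nonneg n
  have e : c n / n * gs τ (Real.log n - u) - d n / n * gs τ (Real.log n - u) =
      (c n - d n) / n * gs τ (Real.log n - u) := by ring
  rw [e, abs_mul, abs_div, abs_of_nonneg hn0, abs_of_nonneg (gs_nonneg hτ _)]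
  rcases le_or_gt (|Real.log n - u|) (1 / 2) with h | h
  · rw [hcd n hn.1 h, sub_self, abs_zero, zero_div, zero_mul]
    positivity
  · have h1 := H5b_gs hτ h
    have h2 : |c n - d n| / n ≤ |c n| / n + |d n| / n := by
      rw [← add_div]
      exact div_le_div_of_nonneg_right (abs_sub _ _) hn0
    calc |c n - d n| / n * gs τ (Real.log n - u)
        ≤ (|c n| / n + |d n| / n) * (τ * Real.exp (-(τ ^ 2 / 8))) :=
          mul_le_mul h2 h1 (gs_nonneg hτ _) (by positivity)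
      _ = _ := by ring

theorem compare (β θ ε₁ ε₂ δ : ℝ) (hβ : 0 < β) (hβ2 : β ≤ 9 / 11) (hθ : 0 < θ) (hε₁ : 0 < ε₁)
    (hε₁₂ : ε₁ < ε₂) (hε : 16 * ε₂ ≤ θ) (hθ2 : θ ≤ 1 / 20) (hδ : 0 < δ) :
    ∃ k0 : ℝ, ∀ k : ℝ, k0 ≤ k → ∀ μ lam τ u : ℝ, 0 ≤ μ → 0 ≤ lam → μ + lam ≤ β + 2 * ε₂ →
      k ^ δ ≤ τ → τ ≤ k ^ (2 : ℝ) → |u - (1 + β) * Real.log k| ≤ ε₂ * Real.log k + 1 →
      ‖(∫ t : ℝ, ker τ u t * (Wf k ε₁ ε₂ t * (Mf k μ lam t * Pf k t))) -
        ∫ t : ℝ, ker τ u t * (Wf k ε₁ ε₂ t * Gf k β θ μ lam t)‖ ≤ 1 / k := by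
  obtain ⟨kg, hkg⟩ := gA_eq β θ ε₂ hβ hβ2 hθ (hε₁.trans hε₁₂) hε hθ2
  obtain ⟨ke, hke⟩ := H5b_eventually δ hδ
  have hε₂ : 0 < ε₂ := hε₁.trans hε₁₂
  set C₀ : ℝ := 7 * (71 ^ 4 + 71 * (5082 * (5 ^ 23 * (71 * 71) ^ 23))) with hC₀
  have hC₀pos : 0 < C₀ := by rw [hC₀]; positivity
  refine ⟨max (max kg ke) (max (max 3 C₀) (Real.exp (2 / ε₂))), ?_⟩
  intro k hk μ lam τ u hμ hlam hml hτ1 hτ2 hu
  have hk1 : kg ≤ k := (le_max_left _ _).trans ((le_max_left _ _).trans hk)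
  have hk2 : ke ≤ k := (le_max_right _ _).trans ((le_max_left _ _).trans hk)
  have hk3 : 3 ≤ k := (le_max_left _ _).trans ((le_max_left _ _).trans ((le_max_right _ _).trans hk))
  have hk4 : C₀ ≤ k := (le_max_right _ _).trans ((le_max_left _ _).trans ((le_max_right _ _).trans hk))
  have hk5 : Real.exp (2 / ε₂) ≤ k := (le_max_right _ _).trans ((le_max_right _ _).trans hk)
  have hk0 : 0 < k := by linarith
  have hk1' : 1 ≤ k := by linarith
  set ℓ := Real.log k with hℓdef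
  have hℓ2 : 2 ≤ ε₂ * ℓ := by
    have := (Real.le_log_iff_exp_le hk0).2 hk5
    rw [div_le_iff₀ hε₂] at this
    linarith
  have hε₂1 : ε₂ ≤ 1 := by linarith
  have hℓ1 : 1 ≤ ℓ := by nlinarith
  have hτ0 : 0 < τ := lt_of_lt_of_le (by positivity) hτ1
  -- the sets
  set X : ℕ := ⌊k ^ ε₂⌋₊ with hX
  set Z' : ℕ := max (⌊k ^ (μ + lam)⌋₊ * ⌊k ^ (2 : ℝ)⌋₊) (2 ^ (23 * (JK k + 1))) with hZ'
  set Z : ℕ := X * Z' with hZ
  have hX1 : 1 ≤ X := by
    rw [hX]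
    exact Nat.le_floor (by simpa using Real.one_le_rpow hk1' hε₂.le)
  have hZ'1 : 1 ≤ Z' := (Nat.one_le_two_pow).trans (le_max_right _ _)
  have hZ1 : 1 ≤ Z := Nat.mul_pos hX1 hZ'1
  have hwsupp : ∀ n, X < n → wA k ε₁ ε₂ n = 0 := by
    intro n hn
    change (if n ∈ Qs k ε₁ ε₂ ∧ n ≠ 0 then (1 : ℝ) else 0) = 0
    rw [if_neg]
    rintro ⟨h, _⟩
    unfold Qs at h
    rw [Finset.mem_filter, Finset.mem_Ioc] at h
    omega
  have hDA : ∀ t, DP (Icc 1 Z) (fun n => (wA k ε₁ ε₂ * (mA k μ lam * lA k)) n) t =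
      Wf k ε₁ ε₂ t * (Mf k μ lam t * Pf k t) := by
    intro t
    rw [DP_mul (wA k ε₁ ε₂) (mA k μ lam * lA k) X Z' Z hwsupp
      (fun n hn => ML_supp k μ lam n ((le_max_left _ _).trans_lt hn)) le_rfl t,
      W_eq k ε₁ ε₂ X le_rfl t, ML_eq k μ lam Z' (le_max_left _ _) t]
  have hDA' : ∀ t, DP (Icc 1 Z) (fun n => (wA k ε₁ ε₂ * gA k β θ μ lam) n) t =
      Wf k ε₁ ε₂ t * Gf k β θ μ lam t := by
    intro t
    rw [DP_mul (wA k ε₁ ε₂) (gA k β θ μ lam) X Z' Z hwsupp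
      (fun n hn => gA_supp k β θ μ lam n ((le_max_right _ _).trans_lt hn)) le_rfl t,
      W_eq k ε₁ ε₂ X le_rfl t, Gf_eq k β θ μ lam Z' (le_max_right _ _) t]
  have hI1 := fourier_JD (Icc 1 Z) (fun n => (wA k ε₁ ε₂ * (mA k μ lam * lA k)) n) hτ0 u
  have hI2 := fourier_JD (Icc 1 Z) (fun n => (wA k ε₁ ε₂ * gA k β θ μ lam) n) hτ0 u
  simp only [hDA] at hI1
  simp only [hDA'] at hI2
  have hJ := H5b_JD (c := fun n => (wA k ε₁ ε₂ * (mA k μ lam * lA k)) n)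
    (d := fun n => (wA k ε₁ ε₂ * gA k β θ μ lam) n) (Z := Z) (τ := τ) (u := u) hτ0.le
    (fun n hn hnu => H5b_eq hε₂ hk3 hℓ2 (hkg k hk1 μ lam hμ hlam hml) hu hn hnu)
  unfold ker
  rw [hI1, hI2, ← Complex.ofReal_sub, Complex.norm_real, Real.norm_eq_abs, ← mul_sub, abs_mul,
    abs_of_pos (by positivity : (0 : ℝ) < 2 * Real.pi)]
  -- size of `Z`
  have hZle : (Z : ℝ) ≤ k ^ 70 := by
    have h1 : (X : ℝ) ≤ k := by
      calc (X : ℝ) ≤ k ^ ε₂ := Nat.floor_le (by positivity)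
        _ ≤ k ^ (1 : ℝ) := Real.rpow_le_rpow_of_exponent_le hk1' hε₂1
        _ = k := Real.rpow_one k
    have h2 : ((⌊k ^ (μ + lam)⌋₊ * ⌊k ^ (2 : ℝ)⌋₊ : ℕ) : ℝ) ≤ k ^ 69 := by
      push_cast
      have t1 : ((⌊k ^ (μ + lam)⌋₊ : ℕ) : ℝ) ≤ k ^ (2 : ℝ) :=
        (Nat.floor_le (by positivity)).trans
          (Real.rpow_le_rpow_of_exponent_le hk1' (by linarith))
      have t2 : ((⌊k ^ (2 : ℝ)⌋₊ : ℕ) : ℝ) ≤ k ^ (2 : ℝ) := Nat.floor_le (by positivity)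
      have t3 : k ^ (2 : ℝ) = k ^ 2 := by norm_num
      calc _ ≤ k ^ 2 * k ^ 2 :=
            mul_le_mul (t1.trans_eq t3) (t2.trans_eq t3) (Nat.cast_nonneg _) (by positivity)
        _ = k ^ 4 := by ring
        _ ≤ k ^ 69 := pow_le_pow_right₀ hk1' (by norm_num)
    have h3 : ((2 ^ (23 * (JK k + 1)) : ℕ) : ℝ) ≤ k ^ 69 := by
      push_cast
      have t1 := H5b_two_JK hk1'
      calc (2 : ℝ) ^ (23 * (JK k + 1)) = (2 ^ (JK k) * 2) ^ 23 := by
            rw [← pow_succ, ← pow_mul, mul_comm]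
        _ ≤ (k ^ 2 * k) ^ 23 := by
            apply pow_le_pow_left₀ (by positivity)
            exact mul_le_mul t1 (by linarith) (by norm_num) (by positivity)
        _ = k ^ 69 := by ring
    have h4 : (Z' : ℝ) ≤ k ^ 69 := by
      rw [hZ']
      rcases max_choice (⌊k ^ (μ + lam)⌋₊ * ⌊k ^ (2 : ℝ)⌋₊) (2 ^ (23 * (JK k + 1))) with h | h
      · rw [h]
        exact h2
      · rw [h]
        exact h3
    rw [hZ]
    push_cast
    calc (X : ℝ) * Z' ≤ k * k ^ 69 := mul_le_mul h1 h4 (Nat.cast_nonneg _) hk0.le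
      _ = k ^ 70 := by ring
  have hL : 1 + Real.log Z ≤ 71 * ℓ := by
    have h1 : Real.log Z ≤ 70 * ℓ := by
      have := Real.log_le_log (by exact_mod_cast hZ1) hZle
      rw [Real.log_pow] at this
      push_cast at this
      exact this
    linarith
  have hLpos : 0 ≤ 71 * ℓ := by linarith
  obtain ⟨n1, n2⟩ := H5b_nm_A (k := k) ε₁ ε₂ μ lam hL
  have n3 := H5b_nm_gA hk1' β θ μ lam hZ1 hL
  have n4 : nm (fun n => (wA k ε₁ ε₂ * (mA k μ lam * lA k)) n) Z ≤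
      (71 * ℓ) * ((71 * ℓ) * ((71 * ℓ) * (71 * ℓ))) :=
    (nm_mul _ _ _).trans (mul_le_mul n1 n2 (nm_nonneg _ _) hLpos)
  have n5 : nm (fun n => (wA k ε₁ ε₂ * gA k β θ μ lam) n) Z ≤
      (71 * ℓ) * (5082 * ((5 * ℓ) ^ 23 * ((71 * ℓ) * (71 * ℓ)) ^ 23)) := by
    refine (nm_mul _ _ _).trans (mul_le_mul n1 (n3.trans ?_) (nm_nonneg _ _) hLpos)
    refine mul_le_mul_of_nonneg_left ?_ (by norm_num)
    refine mul_le_mul_of_nonneg_right ?_ (by positivity)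
    exact pow_le_pow_left₀ (by linarith) (by linarith) 23
  have n6 : nm (fun n => (wA k ε₁ ε₂ * (mA k μ lam * lA k)) n) Z +
      nm (fun n => (wA k ε₁ ε₂ * gA k β θ μ lam) n) Z ≤ C₀ / 7 * ℓ ^ 70 := by
    have m1 : ℓ ^ 4 ≤ ℓ ^ 70 := pow_le_pow_right₀ hℓ1 (by norm_num)
    calc _ ≤ (71 * ℓ) * ((71 * ℓ) * ((71 * ℓ) * (71 * ℓ))) +
          (71 * ℓ) * (5082 * ((5 * ℓ) ^ 23 * ((71 * ℓ) * (71 * ℓ)) ^ 23)) := add_le_add n4 n5
      _ = 71 ^ 4 * ℓ ^ 4 + 71 * (5082 * (5 ^ 23 * (71 * 71) ^ 23)) * ℓ ^ 70 := by ring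
      _ ≤ 71 ^ 4 * ℓ ^ 70 + 71 * (5082 * (5 ^ 23 * (71 * 71) ^ 23)) * ℓ ^ 70 := by
          have := mul_le_mul_of_nonneg_left m1 (by norm_num : (0 : ℝ) ≤ 71 ^ 4)
          linarith
      _ = C₀ / 7 * ℓ ^ 70 := by rw [hC₀]; ring
  have hℓk : ℓ ≤ k := by
    have := Real.log_le_sub_one_of_pos hk0
    linarith
  have n7 : ℓ ^ 70 ≤ k ^ 70 := pow_le_pow_left₀ (by linarith) hℓk 70
  have hexp : Real.exp (-(τ ^ 2 / 8)) ≤ Real.exp (-(k ^ (2 * δ) / 8)) := by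
    apply Real.exp_le_exp.2
    have : k ^ (2 * δ) ≤ τ ^ 2 := by
      calc k ^ (2 * δ) = (k ^ δ) ^ 2 := by
            rw [← Real.rpow_natCast (k ^ δ), ← Real.rpow_mul hk0.le]
            congr 1
            push_cast
            ring
        _ ≤ τ ^ 2 := pow_le_pow_left₀ (by positivity) hτ1 2
    linarith
  have hτk : τ ≤ k ^ 2 := by
    have t3 : k ^ (2 : ℝ) = k ^ 2 := by norm_num
    rwa [t3] at hτ2
  have hpi : 2 * Real.pi ≤ 7 := by
    have := Real.pi_lt_d2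
    linarith
  have hke' := hke k hk2
  have hE : 0 < Real.exp (k ^ (2 * δ) / 8) := Real.exp_pos _
  calc 2 * Real.pi * |JD (Icc 1 Z) (fun n => (wA k ε₁ ε₂ * (mA k μ lam * lA k)) n) τ u -
        JD (Icc 1 Z) (fun n => (wA k ε₁ ε₂ * gA k β θ μ lam) n) τ u|
      ≤ 7 * ((k ^ 2 * Real.exp (-(k ^ (2 * δ) / 8))) * (C₀ / 7 * k ^ 70)) := by
        refine mul_le_mul hpi (hJ.trans ?_) (abs_nonneg _) (by norm_num)
        refine mul_le_mul (mul_le_mul hτk hexp (Real.exp_pos _).le (by positivity))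
          (n6.trans (mul_le_mul_of_nonneg_left n7 (by positivity))) ?_ (by positivity)
        exact add_nonneg (nm_nonneg _ _) (nm_nonneg _ _)
    _ = (C₀ * k ^ 73) * Real.exp (-(k ^ (2 * δ) / 8)) / k := by
        field_simp
    _ ≤ 1 / k := by
        refine div_le_div_of_nonneg_right ?_ hk0.le
        rw [Real.exp_neg, ← div_eq_mul_inv, div_le_one hE]
        calc C₀ * k ^ 73 ≤ k * k ^ 73 := mul_le_mul_of_nonneg_right hk4 (by positivity)
          _ = k ^ 74 := by ring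
          _ ≤ _ := hke'

end Pool.Agent.Lib.MP_9a8698_nt
end

section

/-!
D6. Telescoping sums of logarithms, the Dickman function on `[1, 2]`.

PROOF of `sum_upper`. `lam/x_i ≤ log(x_i/x_(i+1))`, `x_i = x - i lam`, because `t ≤ -log(1-t)` for `0 ≤ t < 1`; telescope.
PROOF of `sum_lower`. `lam/y_i ≥ log(1 + lam/y_i) = log(y_(i-1)/y_i)`; telescope.
PROOF of `rho_eq`. For `t ∈ [1, α] ⊆ [1, 2]`, `ρ(t-1) = 1`, and `∫_1^α dt/t = log α`.
-/

set_option autoImplicit false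

open Finset

namespace Pool.Agent.Lib.MP_9a8698_nt

theorem sum_upper (x lam : ℝ) (I : ℕ) (hlam : 0 < lam) (hx : 0 < x - I * lam) :
    ∑ i ∈ range I, lam / (x - i * lam) ≤ Real.log (x / (x - I * lam)) := by
  have hpos : ∀ i : ℕ, i ≤ I → 0 < x - i * lam := by
    intro i hi
    have h1 : (i : ℝ) * lam ≤ I * lam := mul_le_mul_of_nonneg_right (by exact_mod_cast hi) hlam.le
    linarith
  have hstep : ∀ i ∈ range I, lam / (x - i * lam) ≤
      Real.log (x - i * lam) - Real.log (x - ((i + 1 : ℕ) : ℝ) * lam) := by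
    intro i hi
    have h0 := hpos i (mem_range.1 hi).le
    have h1 := hpos (i + 1) (mem_range.1 hi)
    have h2 := Real.log_le_sub_one_of_pos (div_pos h1 h0)
    rw [Real.log_div h1.ne' h0.ne'] at h2
    have h3 : (x - ((i + 1 : ℕ) : ℝ) * lam) / (x - i * lam) - 1 = -(lam / (x - i * lam)) := by
      push_cast
      field_simp
      ring
    rw [h3] at h2
    linarith
  refine (sum_le_sum hstep).trans (le_of_eq ?_)
  rw [sum_range_sub' (fun i : ℕ => Real.log (x - (i : ℝ) * lam))]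
  have hx0 := hpos 0 (Nat.zero_le _)
  simp only [Nat.cast_zero, zero_mul, sub_zero] at hx0 ⊢
  rw [Real.log_div hx0.ne' hx.ne']

theorem sum_lower (y lam : ℝ) (J : ℕ) (hlam : 0 < lam) (hy : 0 < y + lam - J * lam) :
    Real.log ((y + lam) / (y + lam - J * lam)) ≤ ∑ i ∈ range J, lam / (y - i * lam) := by
  have hpos : ∀ i : ℕ, i ≤ J → 0 < y + lam - i * lam := by
    intro i hi
    have h1 : (i : ℝ) * lam ≤ J * lam := mul_le_mul_of_nonneg_right (by exact_mod_cast hi) hlam.le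
    linarith
  have hstep : ∀ i ∈ range J, Real.log (y + lam - i * lam) -
      Real.log (y + lam - ((i + 1 : ℕ) : ℝ) * lam) ≤ lam / (y - i * lam) := by
    intro i hi
    have h0 := hpos i (mem_range.1 hi).le
    have h1 := hpos (i + 1) (mem_range.1 hi)
    have h2 := Real.log_le_sub_one_of_pos (div_pos h0 h1)
    rw [Real.log_div h0.ne' h1.ne'] at h2
    have h4 : y + lam - ((i + 1 : ℕ) : ℝ) * lam = y - i * lam := by
      push_cast
      ring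
    have h3 : (y + lam - i * lam) / (y + lam - ((i + 1 : ℕ) : ℝ) * lam) - 1 =
        lam / (y - i * lam) := by
      rw [h4] at h1 ⊢
      rw [div_sub_one h1.ne']
      congr 1
      ring
    rw [h3] at h2
    exact h2
  refine le_trans (le_of_eq ?_) (sum_le_sum hstep)
  rw [sum_range_sub' (fun i : ℕ => Real.log (y + lam - (i : ℝ) * lam))]
  have hx0 := hpos 0 (Nat.zero_le _)
  simp only [Nat.cast_zero, zero_mul, sub_zero] at hx0 ⊢
  rw [Real.log_div hx0.ne' hy.ne']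

theorem rho_eq (ρ : ℝ → ℝ) (h1 : ∀ u ∈ Set.Icc (0 : ℝ) 1, ρ u = 1)
    (h2 : ∀ u : ℝ, 1 ≤ u → ρ u = 1 - ∫ t in (1 : ℝ)..u, ρ (t - 1) / t) (α : ℝ) (hα : 1 ≤ α)
    (hα2 : α ≤ 2) : ρ α = 1 - Real.log α := by
  rw [h2 α hα]
  have h3 : ∫ t in (1 : ℝ)..α, ρ (t - 1) / t = ∫ t in (1 : ℝ)..α, 1 / t := by
    refine intervalIntegral.integral_congr fun t ht => ?_
    rw [Set.uIcc_of_le hα] at ht
    rw [h1 (t - 1) ⟨by linarith [ht.1], by linarith [ht.2]⟩]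
  rw [h3, integral_one_div_of_pos one_pos (by linarith), div_one]

end Pool.Agent.Lib.MP_9a8698_nt
end
end
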