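import Mathlib
import Pool.Agent.Lib.MP_9a8698_nt.C3
import Pool.Agent.Lib.MP_9a8698_nt.E1

section

/-!
R0. The fourth moment of a Dirichlet polynomial with coefficients 1: definitions for the files R1 to R12.
-/

set_option autoImplicit false

open Finset MeasureTheory

namespace Pool.Agent.Lib.MP_9a8698_nt

/-- The logarithmic Gaussian weight `exp(-(log x)^2/2)`. -/
noncomputable def lg (x : ℝ) : ℝ := Real.exp (-((Real.log x) ^ 2 / 2))

/-- `x ↦ lg(x/X) x^(-it)` for `x > 0`, and zero for `x ≤ 0`. -/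
noncomputable def fw (X t x : ℝ) : ℂ :=
  if 0 < x then ((lg (x / X) : ℝ) : ℂ) * Complex.exp (((-(t * Real.log x) : ℝ) : ℂ) * Complex.I)
  else 0

/-- The smooth sum `∑_{n ≥ 1} lg(n/X) n^(-it)`. -/
noncomputable def SG (X t : ℝ) : ℂ := ∑' n : ℕ, fw X t n

/-- The dual sum `∑_{1 ≤ m ≤ M} m^(-1/2+iu)`. -/
noncomputable def DD (M : ℕ) (u : ℝ) : ℂ :=
  ∑ m ∈ Icc 1 M, (((m : ℝ) ^ (-(1 / 2 : ℝ)) : ℝ) : ℂ) *
    Complex.exp (((u * Real.log m : ℝ) : ℂ) * Complex.I)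

/-- The points `s = 1/2 - j + iv`. -/
noncomputable def sj (j : ℕ) (v : ℝ) : ℂ := (((1 / 2 - j : ℝ)) : ℂ) + (v : ℂ) * Complex.I

/-- The points `a = 1 - s - it = 1/2 + j - i(t+v)`. -/
noncomputable def aj (j : ℕ) (t v : ℝ) : ℂ :=
  (((1 / 2 + j : ℝ)) : ℂ) - ((t + v : ℝ) : ℂ) * Complex.I

/-- The integrand of the formula for the Fourier transform of `fw X t` at `ξ`. -/
noncomputable def kj (j : ℕ) (X t ξ v : ℝ) : ℂ :=
  Complex.exp ((sj j v) ^ 2 / 2) * Complex.exp (sj j v * (Real.log X : ℂ)) *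
    Complex.Gamma (aj j t v) * (((2 * Real.pi * ξ : ℝ) : ℂ) * Complex.I) ^ (-(aj j t v))

/-- `∫_α^β e^(ivy) dy`. -/
noncomputable def pk (α β v : ℝ) : ℂ :=
  ∫ y in α..β, Complex.exp (((v * y : ℝ) : ℂ) * Complex.I)

end Pool.Agent.Lib.MP_9a8698_nt
end

section

section

/-!
P3. The combinatorial trichotomy of paper 312 and Lemma G (only Mathlib is used).

PROOF of `tri`. Suppose the first alternative fails: every `I` has sum `< β+θ` (light) or `> 1-θ` (heavy). If some single is heavy: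
second alternative. Otherwise all singles are light (`x i < β + θ`). If some pair `i1 ≠ i2` is heavy: third alternative, and
`x i1 = (x i1 + x i2) - x i2 ≥ 1 - θ - (β + θ)`. Otherwise all pairs are light, and singles too.

PROOF of `lemG`. Every set is light or heavy (`hlh`); the complement of a heavy set `H` has sum
`≤ (1+β+θ/4) - (1-θ) = β + 5θ/4`; it is not heavy because `β + 5θ/4 < 1-θ` (from `β ≤ 9/11 - 20θ`), so it is light. Suppose the claim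
fails: `∑_{i ∈ A} y i < (2/5) Y` for every light `A`, `Y = ∑ y`. (So `Y > 0`, as the empty set is light.) Then every heavy `H` has
`∑_H y > (3/5) Y`. The full set is heavy (its sum is `≥ 1+β-θ/4 > β+θ`). Take a heavy set `H` of minimal cardinality; it has at least
3 elements, because sets with at most 2 elements are light (the empty set, singles: a single `{i}` is light since the pair
condition with `i = j` is included in `hp`: `∑_{a ∈ {i, j}} x a < β + θ` for all `i, j`, where `{i, i} = {i}`). For `i ∈ H`, `H.erase i` is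
not heavy by minimality, so light, so `y i > (3/5) Y - (2/5) Y = Y/5`. For two different elements `i, j` of `H` the light set
`{i, j}` has `y i + y j > (2/5) Y`, contradiction.

PROOF of `final_ineq`. `S - 2u ≤ ∑ max(x i - 2 u i, 0)`; `lemG` with `y i = max(x i - 2 u i, 0)` gives a light `A` with
`∑_A y ≥ (2/5)(S - 2u)`, where `S = ∑ x`, `u = ∑ u i`. Let `A' = {i ∈ A : 2 u i ≤ x i}`; it is light (its `x`-sum is smaller) and
`∑_{A'} (x i - 2 u i) = ∑_A y`. Apply `h1` to `A'`: `(2/5)(S - 2u) ≤ β + θ/2 - u + κ`, so `u ≤ 5(β+θ/2) - 2S + 5κ`. In the same way with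
`y i = max(x i - 3 u i, 0)` and `h2`: `(4/5)(S-3u) ≤ β + θ/2 - u + κ`, so `7u ≥ 4S - 5(β+θ/2) - 5κ`. Hence
`4S - 5(β+θ/2) - 5κ ≤ 35(β+θ/2) - 14 S + 35 κ`, i.e. `18 S ≤ 40 (β+θ/2) + 40 κ`, and with `S ≥ 1+β-θ/4`:
`18 + 18 β - 9θ/2 ≤ 40 β + 20 θ + 40 κ`, i.e. `22 β ≥ 18 - 24.5 θ - 40 κ`, contradicting `β ≤ 9/11 - 20 θ`, `κ ≤ θ`
(`22 β ≤ 18 - 440 θ`).
-/

set_option autoImplicit false

open Finset

namespace Pool.Agent.Lib.MP_9a8698_nt

theorem tri {ι : Type} [Fintype ι] [DecidableEq ι] (x : ι → ℝ) (β θ : ℝ) :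
    (∃ I : Finset ι, β + θ ≤ ∑ i ∈ I, x i ∧ ∑ i ∈ I, x i ≤ 1 - θ) ∨
    (∃ i, 1 - θ < x i) ∨
    ((∀ i, x i < β + θ) ∧ ∃ i1 i2 : ι, i1 ≠ i2 ∧ 1 - θ < x i1 + x i2) ∨
    ((∀ I : Finset ι, ∑ i ∈ I, x i < β + θ ∨ 1 - θ < ∑ i ∈ I, x i) ∧
      ∀ i j : ι, ∑ a ∈ {i, j}, x a < β + θ) := by
  by_cases h1 : ∃ I : Finset ι, β + θ ≤ ∑ i ∈ I, x i ∧ ∑ i ∈ I, x i ≤ 1 - θ
  · exact Or.inl h1
  have hl : ∀ I : Finset ι, ∑ i ∈ I, x i < β + θ ∨ 1 - θ < ∑ i ∈ I, x i := by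
    intro I
    by_contra hc
    push Not at hc
    exact h1 ⟨I, hc⟩
  by_cases h2 : ∃ i, 1 - θ < x i
  · exact Or.inr (Or.inl h2)
  push Not at h2
  have h3 : ∀ i, x i < β + θ := by
    intro i
    rcases hl {i} with h | h
    · simpa using h
    · rw [Finset.sum_singleton] at h
      exact absurd h (not_lt.2 (h2 i))
  by_cases h4 : ∃ i1 i2 : ι, i1 ≠ i2 ∧ 1 - θ < x i1 + x i2
  · exact Or.inr (Or.inr (Or.inl ⟨h3, h4⟩))
  push Not at h4
  refine Or.inr (Or.inr (Or.inr ⟨hl, ?_⟩))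
  intro i j
  by_cases hij : i = j
  · subst hij
    simpa using h3 i
  · rcases hl {i, j} with h | h
    · exact h
    · rw [Finset.sum_pair hij] at h
      exact absurd h (not_lt.2 (h4 i j hij))

theorem lemG {ι : Type} [Fintype ι] [DecidableEq ι] (x : ι → ℝ) (hx : ∀ i, 0 ≤ x i) (β θ : ℝ)
    (hβ : 0 < β) (hθ : 0 < θ) (hβ2 : β ≤ 9 / 11 - 20 * θ) (hS : |∑ i, x i - (1 + β)| ≤ θ / 4)
    (hlh : ∀ I : Finset ι, ∑ i ∈ I, x i < β + θ ∨ 1 - θ < ∑ i ∈ I, x i)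
    (hp : ∀ i j : ι, ∑ a ∈ {i, j}, x a < β + θ) (y : ι → ℝ) (hy : ∀ i, 0 ≤ y i) :
    ∃ A : Finset ι, ∑ i ∈ A, x i < β + θ ∧ 2 / 5 * ∑ i, y i ≤ ∑ i ∈ A, y i := by
  classical
  by_contra hcon
  push Not at hcon
  have hS1 := (abs_le.1 hS).1
  have hS2 := (abs_le.1 hS).2
  have hheavy : 1 - θ < ∑ i, x i := by linarith
  obtain ⟨H, hH, hmin⟩ := Finset.exists_min_image
    ((Finset.univ : Finset (Finset ι)).filter (fun H : Finset ι => 1 - θ < ∑ i ∈ H, x i))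
    Finset.card ⟨Finset.univ, by simp [hheavy]⟩
  rw [Finset.mem_filter] at hH
  have hH2 := hH.2
  -- the complement is light
  have hcompl : ∑ i ∈ Hᶜ, x i < β + θ := by
    have e := Finset.sum_add_sum_compl H x
    rcases hlh Hᶜ with h | h
    · exact h
    · exfalso
      linarith
  have hY1 : 3 / 5 * ∑ i, y i < ∑ i ∈ H, y i := by
    have e := Finset.sum_add_sum_compl H y
    have := hcon Hᶜ hcompl
    linarith
  have hel : ∀ i ∈ H, 1 / 5 * ∑ i, y i < y i := by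
    intro i hi
    have hlight : ∑ a ∈ H.erase i, x a < β + θ := by
      rcases hlh (H.erase i) with h | h
      · exact h
      · exfalso
        have hm := hmin (H.erase i) (by simp [h])
        have hc := Finset.card_erase_lt_of_mem hi
        omega
    have h5 := hcon _ hlight
    have e := Finset.add_sum_erase H y hi
    linarith
  have hcard : 1 < H.card := by
    by_contra hc
    have hc' : H.card ≤ 1 := by omega
    rcases Nat.le_one_iff_eq_zero_or_eq_one.1 hc' with h0 | h1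
    · rw [Finset.card_eq_zero.1 h0, Finset.sum_empty] at hH2
      linarith
    · obtain ⟨i, rfl⟩ := Finset.card_eq_one.1 h1
      have h7 := hp i i
      rw [Finset.pair_eq_singleton] at h7
      linarith
  obtain ⟨i, hi, j, hj, hij⟩ := Finset.one_lt_card.1 hcard
  have h6 := hcon _ (hp i j)
  rw [Finset.sum_pair hij] at h6
  have := hel i hi
  have := hel j hj
  linarith

private lemma P3_aux {ι : Type} [Fintype ι] [DecidableEq ι] (x : ι → ℝ) (hx : ∀ i, 0 ≤ x i)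
    (β θ : ℝ) (hβ : 0 < β) (hθ : 0 < θ) (hβ2 : β ≤ 9 / 11 - 20 * θ)
    (hS : |∑ i, x i - (1 + β)| ≤ θ / 4)
    (hlh : ∀ I : Finset ι, ∑ i ∈ I, x i < β + θ ∨ 1 - θ < ∑ i ∈ I, x i)
    (hp : ∀ i j : ι, ∑ a ∈ {i, j}, x a < β + θ) (u : ι → ℝ) (c : ℝ) :
    ∃ A : Finset ι, ∑ i ∈ A, x i < β + θ ∧
      2 / 5 * (∑ i, x i - c * ∑ i, u i) ≤ ∑ i ∈ A, x i - c * ∑ i ∈ A, u i := by
  classical
  obtain ⟨A, hA1, hA2⟩ := lemG x hx β θ hβ hθ hβ2 hS hlh hp (fun i => max (x i - c * u i) 0)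
    (fun i => le_max_right _ _)
  refine ⟨A.filter (fun i => c * u i ≤ x i), ?_, ?_⟩
  · refine lt_of_le_of_lt ?_ hA1
    apply Finset.sum_le_sum_of_subset_of_nonneg (Finset.filter_subset _ _)
    intro a _ _
    exact hx a
  · have e1 : ∑ i ∈ A.filter (fun i => c * u i ≤ x i), x i -
        c * ∑ i ∈ A.filter (fun i => c * u i ≤ x i), u i =
        ∑ i ∈ A, max (x i - c * u i) 0 := by
      rw [Finset.mul_sum, ← Finset.sum_sub_distrib, Finset.sum_filter]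
      apply Finset.sum_congr rfl
      intro i _
      by_cases h : c * u i ≤ x i
      · rw [if_pos h, max_eq_left (by linarith)]
      · rw [if_neg h, max_eq_right (by linarith [not_le.1 h])]
    have e2 : ∑ i, x i - c * ∑ i, u i ≤ ∑ i, max (x i - c * u i) 0 := by
      rw [Finset.mul_sum, ← Finset.sum_sub_distrib]
      exact Finset.sum_le_sum (fun i _ => le_max_left _ _)
    rw [e1]
    refine le_trans ?_ hA2
    linarith

theorem final_ineq {ι : Type} [Fintype ι] [DecidableEq ι] (x : ι → ℝ) (hx : ∀ i, 0 ≤ x i)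
    (β θ κ : ℝ) (hβ : 0 < β) (hθ : 0 < θ) (hκ : κ ≤ θ) (hβ2 : β ≤ 9 / 11 - 20 * θ)
    (hS : |∑ i, x i - (1 + β)| ≤ θ / 4)
    (hlh : ∀ I : Finset ι, ∑ i ∈ I, x i < β + θ ∨ 1 - θ < ∑ i ∈ I, x i)
    (hp : ∀ i j : ι, ∑ a ∈ {i, j}, x a < β + θ) (u : ι → ℝ) (hu : ∀ i, 0 ≤ u i)
    (h1 : ∀ A : Finset ι, ∑ i ∈ A, x i < β + θ →
      ∑ i ∈ A, x i - 2 * ∑ i ∈ A, u i ≤ β + θ / 2 - ∑ i, u i + κ)
    (h2 : ∀ A : Finset ι, ∑ i ∈ A, x i < β + θ →
      2 * ∑ i ∈ A, x i - 6 * ∑ i ∈ A, u i ≤ β + θ / 2 - ∑ i, u i + κ) : False := by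
  obtain ⟨A, hA1, hA2⟩ := P3_aux x hx β θ hβ hθ hβ2 hS hlh hp u 2
  obtain ⟨B, hB1, hB2⟩ := P3_aux x hx β θ hβ hθ hβ2 hS hlh hp u 3
  have g1 := h1 A hA1
  have g2 := h2 B hB1
  have hS1 := (abs_le.1 hS).1
  linarith

end Pool.Agent.Lib.MP_9a8698_nt
end

section

/-!
X3. The duality (Halasz-Montgomery) inequality for a measurable set of points (only A1 is needed).

PROOF. Write `F t = DP s c t = ∑_{n ∈ s} (c n/n) e(-t log n)` and `b n = ∫_{t ∈ E} conj(F t) e(-t log n)` (all integrands are continuous in `t`,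
`E` is measurable and contained in `[-T, T]`). Then
`∫_E ‖F‖² = ∫_E conj(F) F = ∑_{n ∈ s} (c n/n) b n ≤ (∑_{n∈s} (c n)²/n)^(1/2) (∑_{n∈s} |b n|²/n)^(1/2)` (the norm of the left side, Cauchy-Schwarz),
and since `s ⊆ I := Icc ⌈N⌉₊ ⌊M⌋₊` (all `n ≥ 1` there as `N ≥ 1`),
`∑_{n∈s} |b n|²/n ≤ ∑_{n ∈ I} |b n|²/n = ∑_{n∈I} (1/n) ∫_E ∫_E conj(F t) F(u) e(-(t-u) log n) du dt
 = ∫_E ∫_E conj(F t) F(u) Z(t - u) du dt`, `Z = DP I 1`. With `|F t||F u| ≤ (|F t|² + |F u|²)/2` and symmetry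
(`‖Z(-v)‖ = ‖Z v‖`) this is at most `∫_E ‖F t‖² (∫_E ‖Z(t-u)‖ du) dt ≤ K ∫_E ‖F‖²`. So with `x = ∫_E ‖F‖²`:
`x² ≤ (∑ c²/n) K x`, hence `x ≤ (∑ c²/n) K` (trivial if `x = 0`).
Everything is on the bounded set `E ⊆ [-T,T]`, with continuous integrands: products are integrable on `E × E`
(`Continuous.integrableOn_Icc`, `integral_prod`, or use `intervalIntegral`-free version: `∫_E ∫_E` with `setIntegral` and
`integral_integral_swap`, `integral_mul_const`; the double sum form avoids Fubini: expand everything in finite sums first).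
-/

set_option autoImplicit false

open Finset MeasureTheory

namespace Pool.Agent.Lib.MP_9a8698_nt

private theorem x3_core (μ : Measure ℝ) [IsFiniteMeasure μ] (F Z : ℝ → ℂ) (hF : Continuous F)
    (hZ : Continuous Z) (BF BZ : ℝ) (hBF : ∀ t, ‖F t‖ ≤ BF) (hBZ : ∀ t, ‖Z t‖ ≤ BZ)
    (hsym : ∀ v, ‖Z (-v)‖ = ‖Z v‖) (K : ℝ) (hK : ∀ᵐ t ∂μ, ∫ u, ‖Z (t - u)‖ ∂μ ≤ K) :
    ‖∫ t, ∫ u, (starRingEnd ℂ) (F t) * F u * Z (t - u) ∂μ ∂μ‖ ≤ K * ∫ t, ‖F t‖ ^ 2 ∂μ := by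
  have hBF0 : 0 ≤ BF := (norm_nonneg _).trans (hBF 0)
  have hBZ0 : 0 ≤ BZ := (norm_nonneg _).trans (hBZ 0)
  have hA : Integrable (fun p : ℝ × ℝ => ‖F p.1‖ ^ 2 * ‖Z (p.1 - p.2)‖) (μ.prod μ) := by
    refine Integrable.of_bound (C := BF ^ 2 * BZ) ?_ (Filter.Eventually.of_forall fun p => ?_)
    · apply Continuous.aestronglyMeasurable
      fun_prop
    · rw [Real.norm_of_nonneg (by positivity)]
      exact mul_le_mul (pow_le_pow_left₀ (norm_nonneg _) (hBF _) 2) (hBZ _) (norm_nonneg _)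
        (by positivity)
  have hB : Integrable (fun p : ℝ × ℝ => ‖F p.2‖ ^ 2 * ‖Z (p.1 - p.2)‖) (μ.prod μ) := by
    refine Integrable.of_bound (C := BF ^ 2 * BZ) ?_ (Filter.Eventually.of_forall fun p => ?_)
    · apply Continuous.aestronglyMeasurable
      fun_prop
    · rw [Real.norm_of_nonneg (by positivity)]
      exact mul_le_mul (pow_le_pow_left₀ (norm_nonneg _) (hBF _) 2) (hBZ _) (norm_nonneg _)
        (by positivity)
  have hC : Integrable (fun p : ℝ × ℝ => (‖F p.1‖ ^ 2 * ‖Z (p.1 - p.2)‖ +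
      ‖F p.2‖ ^ 2 * ‖Z (p.1 - p.2)‖) / 2) (μ.prod μ) := (hA.add hB).div_const 2
  have hF2 : Integrable (fun t => ‖F t‖ ^ 2) μ := by
    refine Integrable.of_bound (C := BF ^ 2) ?_ (Filter.Eventually.of_forall fun p => ?_)
    · apply Continuous.aestronglyMeasurable
      fun_prop
    · rw [Real.norm_of_nonneg (by positivity)]
      exact pow_le_pow_left₀ (norm_nonneg _) (hBF _) 2
  have hZc : ∀ t, Integrable (fun u => ‖Z (t - u)‖) μ := by
    intro t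
    refine Integrable.of_bound (C := BZ) ?_ (Filter.Eventually.of_forall fun p => ?_)
    · apply Continuous.aestronglyMeasurable
      fun_prop
    · rw [norm_norm]
      exact hBZ _
  have hAt : ∀ t, Integrable (fun u => ‖F t‖ ^ 2 * ‖Z (t - u)‖) μ :=
    fun t => (hZc t).const_mul _
  have hBt : ∀ t, Integrable (fun u => ‖F u‖ ^ 2 * ‖Z (t - u)‖) μ := by
    intro t
    refine Integrable.of_bound (C := BF ^ 2 * BZ) ?_ (Filter.Eventually.of_forall fun p => ?_)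
    · apply Continuous.aestronglyMeasurable
      fun_prop
    · rw [Real.norm_of_nonneg (by positivity)]
      exact mul_le_mul (pow_le_pow_left₀ (norm_nonneg _) (hBF _) 2) (hBZ _) (norm_nonneg _)
        (by positivity)
  have h1 : ‖∫ t, ∫ u, (starRingEnd ℂ) (F t) * F u * Z (t - u) ∂μ ∂μ‖ ≤
      ∫ t, ∫ u, (‖F t‖ ^ 2 * ‖Z (t - u)‖ + ‖F u‖ ^ 2 * ‖Z (t - u)‖) / 2 ∂μ ∂μ := by
    refine norm_integral_le_of_norm_le hC.integral_prod_left
      (Filter.Eventually.of_forall fun t => ?_)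
    refine norm_integral_le_of_norm_le (((hAt t).add (hBt t)).div_const 2)
      (Filter.Eventually.of_forall fun u => ?_)
    rw [norm_mul, norm_mul, RCLike.norm_conj]
    have h2 := sq_nonneg (‖F t‖ - ‖F u‖)
    have h3 := norm_nonneg (Z (t - u))
    nlinarith [mul_nonneg h2 h3]
  have hA2 : ∫ t, ∫ u, ‖F t‖ ^ 2 * ‖Z (t - u)‖ ∂μ ∂μ ≤ K * ∫ t, ‖F t‖ ^ 2 ∂μ := by
    rw [← integral_const_mul]
    refine integral_mono_ae hA.integral_prod_left (hF2.const_mul K) ?_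
    filter_upwards [hK] with t ht
    rw [integral_const_mul, mul_comm]
    exact mul_le_mul_of_nonneg_right ht (by positivity)
  have hB2 : ∫ t, ∫ u, ‖F u‖ ^ 2 * ‖Z (t - u)‖ ∂μ ∂μ ≤ K * ∫ t, ‖F t‖ ^ 2 ∂μ := by
    rw [integral_integral_swap hB]
    refine le_trans (le_of_eq ?_) hA2
    congr 1
    funext u
    congr 1
    funext t
    rw [← hsym (t - u), neg_sub]
  calc _ ≤ _ := h1
    _ = ((∫ t, ∫ u, ‖F t‖ ^ 2 * ‖Z (t - u)‖ ∂μ ∂μ) +
        ∫ t, ∫ u, ‖F u‖ ^ 2 * ‖Z (t - u)‖ ∂μ ∂μ) / 2 := by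
      rw [← integral_add hA.integral_prod_left hB.integral_prod_left, ← integral_div]
      congr 1
      funext t
      rw [← integral_add (hAt t) (hBt t), ← integral_div]
    _ ≤ K * ∫ t, ‖F t‖ ^ 2 ∂μ := by linarith

private theorem x3_norm_neg (I : Finset ℕ) (v : ℝ) :
    ‖DP I (fun _ => 1) (-v)‖ = ‖DP I (fun _ => 1) v‖ := by
  rw [← RCLike.norm_conj (DP I (fun _ => 1) v)]
  congr 1
  unfold DP
  rw [map_sum]
  refine Finset.sum_congr rfl fun n _ => ?_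
  rw [map_mul, ← Complex.exp_conj, map_mul, Complex.conj_I, Complex.conj_ofReal,
    Complex.conj_ofReal]
  congr 2
  push_cast
  ring

private theorem x3_bb (μ : Measure ℝ) [IsFiniteMeasure μ] (F : ℝ → ℂ) (hF : Continuous F)
    (BF : ℝ) (hBF : ∀ t, ‖F t‖ ≤ BF) (I : Finset ℕ) (e : ℕ → ℝ → ℂ)
    (he : ∀ n, Continuous (e n)) (he1 : ∀ n t, ‖e n t‖ = 1) (w : ℕ → ℝ) (Z : ℝ → ℂ)
    (hZ : ∀ t u, Z (t - u) = ∑ n ∈ I, (w n : ℂ) * (e n t * (starRingEnd ℂ) (e n u))) :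
    ((∑ n ∈ I, w n * ‖∫ t, (starRingEnd ℂ) (F t) * e n t ∂μ‖ ^ 2 : ℝ) : ℂ) =
      ∫ t, ∫ u, (starRingEnd ℂ) (F t) * F u * Z (t - u) ∂μ ∂μ := by
  have hg : ∀ n, Integrable (fun t => (starRingEnd ℂ) (F t) * e n t) μ := by
    intro n
    refine Integrable.of_bound (C := BF) ?_ (Filter.Eventually.of_forall fun p => ?_)
    · apply Continuous.aestronglyMeasurable
      exact (Complex.continuous_conj.comp hF).mul (he n)
    · rw [norm_mul, he1, mul_one, RCLike.norm_conj]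
      exact hBF _
  have hg2 : ∀ n, Integrable (fun t => F t * (starRingEnd ℂ) (e n t)) μ := by
    intro n
    refine Integrable.of_bound (C := BF) ?_ (Filter.Eventually.of_forall fun p => ?_)
    · apply Continuous.aestronglyMeasurable
      exact hF.mul (Complex.continuous_conj.comp (he n))
    · rw [norm_mul, RCLike.norm_conj, he1, mul_one]
      exact hBF _
  have h1 : ∀ t, ∫ u, (starRingEnd ℂ) (F t) * F u * Z (t - u) ∂μ =
      ∑ n ∈ I, ((starRingEnd ℂ) (F t) * e n t) * ((w n : ℂ) *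
        ∫ u, F u * (starRingEnd ℂ) (e n u) ∂μ) := by
    intro t
    have h2 : ∀ u, (starRingEnd ℂ) (F t) * F u * Z (t - u) =
        ∑ n ∈ I, ((starRingEnd ℂ) (F t) * e n t * (w n : ℂ)) *
          (F u * (starRingEnd ℂ) (e n u)) := by
      intro u
      rw [hZ, Finset.mul_sum]
      refine Finset.sum_congr rfl fun n _ => ?_
      ring
    simp_rw [h2]
    rw [integral_finsetSum]
    · refine Finset.sum_congr rfl fun n _ => ?_
      rw [integral_const_mul]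
      ring
    · intro n _
      exact (hg2 n).const_mul _
  simp_rw [h1]
  rw [integral_finsetSum]
  · rw [Complex.ofReal_sum]
    refine Finset.sum_congr rfl fun n _ => ?_
    rw [integral_mul_const]
    have h3 : ∫ u, F u * (starRingEnd ℂ) (e n u) ∂μ =
        (starRingEnd ℂ) (∫ t, (starRingEnd ℂ) (F t) * e n t ∂μ) := by
      rw [← integral_conj]
      congr 1
      funext u
      rw [map_mul, Complex.conj_conj]
    rw [h3, Complex.ofReal_mul, Complex.ofReal_pow, ← Complex.conj_mul']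
    ring
  · intro n _
    exact (hg n).mul_const _

theorem halasz (s : Finset ℕ) (c : ℕ → ℝ) (N M T K : ℝ) (hN : 1 ≤ N)
    (hs : ∀ n ∈ s, 1 ≤ n ∧ N ≤ (n : ℝ) ∧ (n : ℝ) ≤ M) (E : Set ℝ) (hE : MeasurableSet E)
    (hET : E ⊆ Set.Icc (-T) T) (hK0 : 0 ≤ K)
    (hK : ∀ t ∈ E, ∫ u in E, ‖DP (Icc ⌈N⌉₊ ⌊M⌋₊) (fun _ => 1) (t - u)‖ ≤ K) :
    ∫ t in E, ‖DP s c t‖ ^ 2 ≤ (∑ n ∈ s, (c n) ^ 2 / n) * K := by
  classical
  set F : ℝ → ℂ := DP s c with hFd
  set I : Finset ℕ := Icc ⌈N⌉₊ ⌊M⌋₊ with hI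
  set Z : ℝ → ℂ := DP I (fun _ => 1) with hZd
  set μ : Measure ℝ := volume.restrict E with hμ
  haveI : IsFiniteMeasure μ := by
    refine ⟨?_⟩
    rw [hμ, Measure.restrict_apply_univ]
    exact (measure_mono hET).trans_lt measure_Icc_lt_top
  have hF : Continuous F := DP_continuous s c
  have hZ : Continuous Z := DP_continuous I _
  set x : ℝ := ∫ t, ‖F t‖ ^ 2 ∂μ with hx
  set e : ℕ → ℝ → ℂ := fun n t => Complex.exp (((-(t * Real.log n) : ℝ) : ℂ) * Complex.I) with he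
  have hec : ∀ n, Continuous (e n) := by
    intro n
    rw [he]
    fun_prop
  have he1 : ∀ n t, ‖e n t‖ = 1 := fun n t => Complex.norm_exp_ofReal_mul_I _
  have hFe : ∀ t, F t = ∑ n ∈ s, ((c n / n : ℝ) : ℂ) * e n t := by
    intro t
    rw [hFd, he]
    unfold DP
    rfl
  have hZe : ∀ t u, Z (t - u) =
      ∑ n ∈ I, (((1 / n : ℝ)) : ℂ) * (e n t * (starRingEnd ℂ) (e n u)) := by
    intro t u
    rw [hZd, he]
    unfold DP
    refine Finset.sum_congr rfl fun n _ => ?_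
    simp only
    rw [← Complex.exp_conj, ← Complex.exp_add, map_mul, Complex.conj_I, Complex.conj_ofReal]
    congr 2
    push_cast
    ring
  set b : ℕ → ℂ := fun n => ∫ t, (starRingEnd ℂ) (F t) * e n t ∂μ with hb
  have hg : ∀ n, Integrable (fun t => (starRingEnd ℂ) (F t) * e n t) μ := by
    intro n
    refine Integrable.of_bound (C := ∑ n ∈ s, |c n| / n) ?_
      (Filter.Eventually.of_forall fun p => ?_)
    · apply Continuous.aestronglyMeasurable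
      exact (Complex.continuous_conj.comp hF).mul (hec n)
    · rw [norm_mul, he1, mul_one, RCLike.norm_conj]
      exact DP_norm_le s c _
  have hx1 : (x : ℂ) = ∑ n ∈ s, ((c n / n : ℝ) : ℂ) * b n := by
    rw [hx, ← integral_complex_ofReal]
    have h2 : ∀ t, ((‖F t‖ ^ 2 : ℝ) : ℂ) =
        ∑ n ∈ s, ((c n / n : ℝ) : ℂ) * ((starRingEnd ℂ) (F t) * e n t) := by
      intro t
      rw [Complex.ofReal_pow, ← Complex.conj_mul']
      nth_rw 2 [hFe t]
      rw [Finset.mul_sum]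
      refine Finset.sum_congr rfl fun n _ => ?_
      ring
    simp_rw [h2]
    rw [integral_finsetSum]
    · refine Finset.sum_congr rfl fun n _ => ?_
      rw [integral_const_mul]
    · intro n _
      exact (hg n).const_mul _
  have hx0 : 0 ≤ x := integral_nonneg fun t => by positivity
  have hx2 : x ≤ ∑ n ∈ s, (|c n| / Real.sqrt n) * (‖b n‖ / Real.sqrt n) := by
    have h3 : x = ‖(x : ℂ)‖ := by rw [Complex.norm_real, Real.norm_of_nonneg hx0]
    rw [h3, hx1]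
    refine (norm_sum_le _ _).trans (Finset.sum_le_sum fun n hn => le_of_eq ?_)
    rw [norm_mul, Complex.norm_real, Real.norm_eq_abs, abs_div,
      abs_of_nonneg (Nat.cast_nonneg n : (0 : ℝ) ≤ n), div_mul_div_comm,
      Real.mul_self_sqrt (Nat.cast_nonneg n)]
    ring
  have hx3 : x ^ 2 ≤ (∑ n ∈ s, (c n) ^ 2 / n) * ∑ n ∈ s, (1 / n : ℝ) * ‖b n‖ ^ 2 := by
    have h4 := Finset.sum_mul_sq_le_sq_mul_sq s (fun n => |c n| / Real.sqrt n)
      (fun n => ‖b n‖ / Real.sqrt n)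
    refine (pow_le_pow_left₀ hx0 hx2 2).trans (h4.trans (le_of_eq ?_))
    congr 1
    · refine Finset.sum_congr rfl fun n _ => ?_
      rw [div_pow, Real.sq_sqrt (Nat.cast_nonneg n), sq_abs]
    · refine Finset.sum_congr rfl fun n _ => ?_
      rw [div_pow, Real.sq_sqrt (Nat.cast_nonneg n)]
      ring
  have hsI : s ⊆ I := by
    intro n hn
    obtain ⟨h1, h2, h3⟩ := hs n hn
    rw [hI, Finset.mem_Icc]
    exact ⟨Nat.ceil_le.2 h2, Nat.le_floor h3⟩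
  have hx4 : ∑ n ∈ s, (1 / n : ℝ) * ‖b n‖ ^ 2 ≤ ∑ n ∈ I, (1 / n : ℝ) * ‖b n‖ ^ 2 := by
    refine Finset.sum_le_sum_of_subset_of_nonneg hsI fun n _ _ => ?_
    positivity
  have hx5 : ∑ n ∈ I, (1 / n : ℝ) * ‖b n‖ ^ 2 ≤ K * x := by
    have h5 := x3_bb μ F hF (∑ n ∈ s, |c n| / n) (DP_norm_le s c) I e hec he1
      (fun n => 1 / (n : ℝ)) Z hZe
    have h6 := x3_core μ F Z hF hZ (∑ n ∈ s, |c n| / n) (∑ n ∈ I, |(1 : ℝ)| / n)
      (DP_norm_le s c) (DP_norm_le I _) (x3_norm_neg I) K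
      ((ae_restrict_iff' hE).2 (Filter.Eventually.of_forall hK))
    rw [← h5, Complex.norm_real] at h6
    exact (le_abs_self _).trans h6
  have hcs : 0 ≤ ∑ n ∈ s, (c n) ^ 2 / (n : ℝ) := Finset.sum_nonneg fun n _ => by positivity
  have hx6 : x ^ 2 ≤ (∑ n ∈ s, (c n) ^ 2 / n) * (K * x) :=
    hx3.trans (mul_le_mul_of_nonneg_left (hx4.trans hx5) hcs)
  change x ≤ _
  rcases hx0.eq_or_lt with h0 | h0
  · rw [← h0]
    positivity
  · nlinarith

end Pool.Agent.Lib.MP_9a8698_nt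
end

section

/-!
X2. The second derivative bound for the kernel `∑_{N ≤ n ≤ M} n^(-1-it)` (A1 and `es_vdc`, `norm_ES_le_X` of H62.ExpSum2 may be used).

PROOF of `block_vdc`. As `block_weyl` in E2 (see `e2_inv`, `e2_ES`, `e2_DP_one` there, they are private: copy them) with `es_vdc`
instead of `es_weyl`: Abel summation against the decreasing weight `1/n ≤ 1/X` gives
`‖DP (Ico a b) 1 t‖ ≤ (1/X) 30 (X/|t| + √|t| (1 + log X))`.

PROOF of `block_triv`. `DP_norm_le` and `∑_{a ≤ n < b} 1/n ≤ (b - a)/X ≤ 1` (if `a ≤ b`, `b - a ≤ 2X - X`).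

PROOF of `kernel_bound`. Put `a₀ = ⌈N⌉₊` (`≥ N ≥ 1`), `X_j = 2^j a₀`, `J = Nat.log 2 ⌊M⌋₊ + 1`; the interval `Icc a₀ ⌊M⌋₊` is the disjoint union of
the intervals `Ico (2^j a₀) (min (2^(j+1) a₀) (⌊M⌋₊+1))`, `0 ≤ j < J` (for `j` with `2^j a₀ > ⌊M⌋₊` they are empty). For every block
with `X = X_j ≥ N`, `X_j ≤ M` (otherwise the block is empty) the norm is at most `min(1, 30(1/|t| + √|t|(1+log X)/X))`, hence at most
`30 (1 + log M) (min 1 (1/|t|) + √|t|/N)`: if `|t| ≥ 1` this is `block_vdc` with `1/|t| = min 1 (1/|t|)`, if `|t| < 1` use the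
trivial bound `1 = min 1 (1/|t|)`. There are `J ≤ 2 (1 + log M)` blocks (`J ≤ log M/log 2 + 1`).
-/

set_option autoImplicit false

open Finset

namespace Pool.Agent.Lib.MP_9a8698_nt

open Pool.Agent.Lib.H62

private theorem x2_abel_id (w : ℕ → ℝ) (z : ℕ → ℂ) (a b : ℕ) (hab : a ≤ b) :
    ∑ n ∈ Ico a b, ((w n : ℝ) : ℂ) * z n = ((w b : ℝ) : ℂ) * ∑ n ∈ Ico a b, z n +
      ∑ n ∈ Ico a b, (((w n - w (n + 1) : ℝ)) : ℂ) * ∑ m ∈ Ico a (n + 1), z m := by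
  induction b, hab using Nat.le_induction with
  | base => simp
  | succ b hb ih =>
    rw [sum_Ico_succ_top hb, sum_Ico_succ_top hb, sum_Ico_succ_top hb, ih, sum_Ico_succ_top hb]
    push_cast
    ring

private theorem x2_abel (w : ℕ → ℝ) (z : ℕ → ℂ) (a b : ℕ) (hab : a ≤ b) (E : ℝ)
    (hE : ∀ y, y ≤ b → ‖∑ n ∈ Ico a y, z n‖ ≤ E) :
    ‖∑ n ∈ Ico a b, ((w n : ℝ) : ℂ) * z n‖ ≤
      (|w b| + ∑ n ∈ Ico a b, |w n - w (n + 1)|) * E := by
  rw [x2_abel_id w z a b hab]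
  refine (norm_add_le _ _).trans ?_
  rw [add_mul, sum_mul]
  apply add_le_add
  · rw [norm_mul, Complex.norm_real, Real.norm_eq_abs]
    exact mul_le_mul_of_nonneg_left (hE b le_rfl) (abs_nonneg _)
  · refine (norm_sum_le _ _).trans (sum_le_sum fun n hn => ?_)
    rw [mem_Ico] at hn
    rw [norm_mul, Complex.norm_real, Real.norm_eq_abs]
    exact mul_le_mul_of_nonneg_left (hE (n + 1) (by omega)) (abs_nonneg _)

private theorem x2_tele (w : ℕ → ℝ) (a b : ℕ) (hab : a ≤ b) :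
    ∑ n ∈ Ico a b, (w n - w (n + 1)) = w a - w b := by
  induction b, hab using Nat.le_induction with
  | base => simp
  | succ b hb ih =>
    rw [sum_Ico_succ_top hb, ih]
    ring

private theorem x2_inv (z : ℕ → ℂ) (X : ℝ) (hX : 1 ≤ X) (a b : ℕ) (hXa : X ≤ a) (E : ℝ)
    (hE : ∀ y, y ≤ b → ‖∑ n ∈ Ico a y, z n‖ ≤ E) :
    ‖∑ n ∈ Ico a b, ((1 / n : ℝ) : ℂ) * z n‖ ≤ E / X := by
  have hX0 : 0 < X := by linarith
  have hE0 : 0 ≤ E := (norm_nonneg _).trans (hE 0 (Nat.zero_le _))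
  rcases le_total b a with h | hab
  · rw [Ico_eq_empty_of_le h, sum_empty, norm_zero]
    positivity
  have ha0 : (0 : ℝ) < a := by linarith
  have h1 := x2_abel (fun n => 1 / (n : ℝ)) z a b hab E hE
  refine h1.trans ?_
  have h2 : ∑ n ∈ Ico a b, |1 / (n : ℝ) - 1 / ((n + 1 : ℕ) : ℝ)| =
      ∑ n ∈ Ico a b, (1 / (n : ℝ) - 1 / ((n + 1 : ℕ) : ℝ)) := by
    refine sum_congr rfl fun n hn => abs_of_nonneg ?_
    rw [mem_Ico] at hn
    have hn0 : (0 : ℝ) < n := lt_of_lt_of_le ha0 (by exact_mod_cast hn.1)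
    rw [sub_nonneg]
    apply one_div_le_one_div_of_le hn0
    push_cast
    linarith
  have h3 := x2_tele (fun n => 1 / (n : ℝ)) a b hab
  have h4 : |1 / (b : ℝ)| = 1 / (b : ℝ) := abs_of_nonneg (by positivity)
  have h5 : |1 / (b : ℝ)| + ∑ n ∈ Ico a b, |1 / (n : ℝ) - 1 / ((n + 1 : ℕ) : ℝ)| = 1 / (a : ℝ) := by
    rw [h2, h4]
    linarith
  rw [h5, div_mul_eq_mul_div, one_mul]
  exact div_le_div_of_nonneg_left hE0 hX0 hXa

private theorem x2_ES (t : ℝ) (a y : ℕ) :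
    ‖∑ n ∈ Ico a y, Complex.exp (((-(t * Real.log n) : ℝ) : ℂ) * Complex.I)‖ =
      ‖ES (ph t []) a y‖ := by
  have h1 : ‖ES (ph (-t) []) a y‖ = ‖ES (ph t []) a y‖ := by
    rw [norm_ES_abs, norm_ES_abs t, abs_neg]
  rw [← h1]
  unfold ES
  congr 1
  refine sum_congr rfl fun n _ => ?_
  rw [ph_nil, neg_mul]

private theorem x2_DP_one (t : ℝ) (a b : ℕ) :
    DP (Ico a b) (fun _ => 1) t = ∑ n ∈ Ico a b, ((1 / n : ℝ) : ℂ) *
      Complex.exp (((-(t * Real.log n) : ℝ) : ℂ) * Complex.I) := rfl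

theorem block_vdc (X t : ℝ) (hX : 1 ≤ X) (ht : t ≠ 0) (a b : ℕ) (ha : X ≤ a)
    (hb : (b : ℝ) ≤ 2 * X) : ‖DP (Ico a b) (fun _ => 1) t‖ ≤
      30 * (1 / |t| + Real.sqrt |t| * (1 + Real.log X) / X) := by
  have hX0 : 0 < X := by linarith
  rw [x2_DP_one]
  have h1 := x2_inv (fun n => Complex.exp (((-(t * Real.log n) : ℝ) : ℂ) * Complex.I)) X hX a b ha
    (30 * (X / |t| + Real.sqrt |t| * (1 + Real.log X)))
    (fun y hy => by
      rw [x2_ES]
      refine es_vdc hX ht a y ha (le_trans ?_ hb)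
      exact_mod_cast hy)
  refine h1.trans (le_of_eq ?_)
  have ht0 : |t| ≠ 0 := abs_ne_zero.2 ht
  field_simp

theorem block_triv (X t : ℝ) (hX : 1 ≤ X) (a b : ℕ) (ha : X ≤ a)
    (hb : (b : ℝ) ≤ 2 * X) : ‖DP (Ico a b) (fun _ => 1) t‖ ≤ 1 := by
  have hX0 : 0 < X := by linarith
  refine (DP_norm_le _ _ _).trans ?_
  rcases le_total b a with h | hab
  · rw [Ico_eq_empty_of_le h, sum_empty]
    exact zero_le_one
  have h1 : ∑ n ∈ Ico a b, |(1 : ℝ)| / (n : ℝ) ≤ ∑ _n ∈ Ico a b, 1 / X := by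
    refine sum_le_sum fun n hn => ?_
    rw [mem_Ico] at hn
    rw [abs_one]
    have h2 : (a : ℝ) ≤ n := by exact_mod_cast hn.1
    exact one_div_le_one_div_of_le hX0 (by linarith)
  refine h1.trans ?_
  rw [sum_const, Nat.card_Ico, nsmul_eq_mul, Nat.cast_sub hab, mul_one_div, div_le_one hX0]
  linarith

theorem kernel_bound (N M t : ℝ) (hN : 1 ≤ N) (hNM : N ≤ M) (ht : t ≠ 0) :
    ‖DP (Icc ⌈N⌉₊ ⌊M⌋₊) (fun _ => 1) t‖ ≤
      60 * (1 + Real.log M) ^ 2 * (min 1 (1 / |t|) + Real.sqrt |t| / N) := by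
  have hN0 : 0 < N := by linarith
  have hM1 : 1 ≤ M := by linarith
  have hlM : 0 ≤ Real.log M := Real.log_nonneg hM1
  have ht0 : 0 < |t| := abs_pos.2 ht
  have hmin : 0 ≤ min 1 (1 / |t|) := le_min zero_le_one (by positivity)
  have hs : 0 ≤ Real.sqrt |t| / N := by positivity
  set a₀ : ℕ := ⌈N⌉₊ with ha₀
  have hNa : N ≤ (a₀ : ℝ) := Nat.le_ceil N
  set K : ℝ := 30 * (1 + Real.log M) * (min 1 (1 / |t|) + Real.sqrt |t| / N) with hK
  have hK0 : 0 ≤ K := by positivity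
  have hblock : ∀ j b : ℕ, ((2 ^ j * a₀ : ℕ) : ℝ) ≤ M → b ≤ 2 ^ (j + 1) * a₀ →
      ‖DP (Ico (2 ^ j * a₀) b) (fun _ => 1) t‖ ≤ K := by
    intro j b h1 h2
    have h2j : (1 : ℝ) ≤ 2 ^ j := one_le_pow₀ (by norm_num)
    have hX1 : N ≤ ((2 ^ j * a₀ : ℕ) : ℝ) := by
      push_cast
      nlinarith
    have hX2 : 1 ≤ ((2 ^ j * a₀ : ℕ) : ℝ) := by linarith
    have hb : (b : ℝ) ≤ 2 * ((2 ^ j * a₀ : ℕ) : ℝ) := by
      have h3 : (b : ℝ) ≤ ((2 ^ (j + 1) * a₀ : ℕ) : ℝ) := by exact_mod_cast h2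
      refine h3.trans (le_of_eq ?_)
      push_cast
      ring
    rcases le_total |t| 1 with ht1 | ht1
    · refine (block_triv _ t hX2 _ b le_rfl hb).trans ?_
      have h4 : min 1 (1 / |t|) = 1 := by
        apply min_eq_left
        rw [le_div_iff₀ ht0]
        linarith
      rw [hK, h4]
      nlinarith [mul_nonneg hlM hs]
    · refine (block_vdc _ t hX2 ht _ b le_rfl hb).trans ?_
      have h4 : min 1 (1 / |t|) = 1 / |t| := by
        apply min_eq_right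
        rw [div_le_one ht0]
        exact ht1
      have h5 : Real.log ((2 ^ j * a₀ : ℕ) : ℝ) ≤ Real.log M := Real.log_le_log (by linarith) h1
      have h6 : Real.sqrt |t| * (1 + Real.log ((2 ^ j * a₀ : ℕ) : ℝ)) / ((2 ^ j * a₀ : ℕ) : ℝ) ≤
          Real.sqrt |t| * (1 + Real.log M) / N := by
        have h7 : 0 ≤ Real.log ((2 ^ j * a₀ : ℕ) : ℝ) := Real.log_nonneg hX2
        exact div_le_div₀ (by positivity) (mul_le_mul_of_nonneg_left (by linarith)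
          (Real.sqrt_nonneg _)) hN0 hX1
      rw [hK, h4]
      have h8 : 0 ≤ Real.log M * (1 / |t|) := by positivity
      have h9 : Real.sqrt |t| * (1 + Real.log M) / N = (1 + Real.log M) * (Real.sqrt |t| / N) := by
        ring
      rw [h9] at h6
      nlinarith
  have hind : ∀ J b : ℕ, b ≤ ⌊M⌋₊ + 1 → b ≤ 2 ^ J * a₀ →
      ‖DP (Ico a₀ b) (fun _ => 1) t‖ ≤ J * K := by
    intro J
    induction J with
    | zero =>
      intro b _ h2
      rw [pow_zero, one_mul] at h2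
      rw [Ico_eq_empty_of_le h2]
      simp [DP]
    | succ J ih =>
      intro b h1 h2
      rcases le_total b (2 ^ J * a₀) with h3 | h3
      · refine (ih b h1 h3).trans ?_
        push_cast
        linarith
      · rcases Nat.eq_or_lt_of_le h3 with h4 | h4
        · rw [← h4]
          refine (ih _ (by omega) le_rfl).trans ?_
          push_cast
          linarith
        have h5 : a₀ ≤ 2 ^ J * a₀ := Nat.le_mul_of_pos_left _ (by positivity)
        have h6 : DP (Ico a₀ b) (fun _ => 1) t = DP (Ico a₀ (2 ^ J * a₀)) (fun _ => 1) t +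
            DP (Ico (2 ^ J * a₀) b) (fun _ => 1) t := by
          unfold DP
          rw [sum_Ico_consecutive _ h5 h3]
        have h7 : ((2 ^ J * a₀ : ℕ) : ℝ) ≤ M := by
          have h8 : 2 ^ J * a₀ ≤ ⌊M⌋₊ := by omega
          have h9 : ((2 ^ J * a₀ : ℕ) : ℝ) ≤ (⌊M⌋₊ : ℝ) := by exact_mod_cast h8
          exact h9.trans (Nat.floor_le (by linarith))
        rw [h6]
        refine (norm_add_le _ _).trans ?_
        have h10 := ih (2 ^ J * a₀) (by omega) le_rfl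
        have h11 := hblock J b h7 h2
        push_cast
        linarith
  have hIcc : Icc a₀ ⌊M⌋₊ = Ico a₀ (⌊M⌋₊ + 1) := by
    ext x
    simp only [mem_Icc, mem_Ico]
    omega
  rw [hIcc]
  have hM0 : ⌊M⌋₊ ≠ 0 := by
    have : 1 ≤ ⌊M⌋₊ := (Nat.one_le_floor_iff M).2 hM1
    omega
  have ha1 : 1 ≤ a₀ := by
    have : (0 : ℝ) < (a₀ : ℝ) := by linarith
    exact_mod_cast this
  have h1 : ⌊M⌋₊ + 1 ≤ 2 ^ (Nat.log 2 ⌊M⌋₊ + 1) * a₀ := by
    have h2 : ⌊M⌋₊ < 2 ^ (Nat.log 2 ⌊M⌋₊ + 1) := Nat.lt_pow_succ_log_self (by norm_num) _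
    exact h2.trans_le (Nat.le_mul_of_pos_right _ ha1)
  refine (hind (Nat.log 2 ⌊M⌋₊ + 1) _ le_rfl h1).trans ?_
  have h3 : ((Nat.log 2 ⌊M⌋₊ : ℕ) : ℝ) * Real.log 2 ≤ Real.log M := by
    have h4 : 2 ^ Nat.log 2 ⌊M⌋₊ ≤ ⌊M⌋₊ := Nat.pow_log_le_self 2 hM0
    have h5 : ((2 : ℝ) ^ Nat.log 2 ⌊M⌋₊) ≤ M := by
      have h6 : ((2 ^ Nat.log 2 ⌊M⌋₊ : ℕ) : ℝ) ≤ (⌊M⌋₊ : ℝ) := by exact_mod_cast h4
      push_cast at h6
      exact h6.trans (Nat.floor_le (by linarith))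
    rw [← Real.log_pow]
    exact Real.log_le_log (by positivity) h5
  have h4 := Real.log_two_gt_d9
  have h5 : ((Nat.log 2 ⌊M⌋₊ + 1 : ℕ) : ℝ) ≤ 2 * (1 + Real.log M) := by
    push_cast
    have h6 : (0 : ℝ) ≤ ((Nat.log 2 ⌊M⌋₊ : ℕ) : ℝ) := Nat.cast_nonneg _
    nlinarith
  calc ((Nat.log 2 ⌊M⌋₊ + 1 : ℕ) : ℝ) * K ≤ (2 * (1 + Real.log M)) * K :=
        mul_le_mul_of_nonneg_right h5 hK0
    _ = 60 * (1 + Real.log M) ^ 2 * (min 1 (1 / |t|) + Real.sqrt |t| / N) := by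
        rw [hK]
        ring

end Pool.Agent.Lib.MP_9a8698_nt
end

section

/-!
X4. Huxley's large values theorem, continuous form with logarithmic losses (X2, X3, A3, A4 may be used, `sorry` or not).

PROOF of `kernel_int`. `E ⊆ [p, p + T₀]`, `t ∈ E`: for `u ∈ E`, `|t - u| ≤ T₀`. By `kernel_bound` (the point `u = t` is a null set)
`∫_E ‖Z(t-u)‖ du ≤ 60 (1+log M)² (∫_{|v| ≤ T₀} min(1, 1/|v|) dv + |E| √T₀/N)` and `∫_{|v| ≤ T₀} min(1,1/|v|) dv ≤ 2 + 2 log⁺ T₀ ≤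
2 (1 + log (1 + T₀))`.

PROOF of `huxley_short`. `F = DP s c` with `∑ c²/n ≤ B² ∑ dd r n²/n ≤ B² (1 + log M)^(r²) =: G` (`sum_dd_sq` as in A4). `V² |E| ≤ ∫_E ‖F‖² ≤ G K` with
`K = 60 (1+log M)² (2 (1+log(1+T₀)) + |E| √T₀/N)`. By `hT₀` the second part is `≤ V² |E|/2`, so
`|E| ≤ 240 G (1+log M)² (1 + log (1+T₀))/V²`.

PROOF of `huxley`. `H = B² (1+log M)^(r²+2) (1+log T)`. If `B = 0` then `F = 0`, so `E = ∅`. Let
`T₀ = (V² N/(120 B² (1+log M)^(r²+2)))²`.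
(a) `T₀ ≥ 2T`: apply `huxley_short` with `T₀' = 2T` and `p = -T` (the condition is monotone in `T₀`):
`|E| ≤ 240 H'.. /V² ≤ 1000 H/V²` (`1 + log(1+2T) ≤ 3 (1 + log T)`).
(b) `T₀ < 2T`: cover `[-T, T]` by `m = ⌈2T/T₀⌉ ≤ 4T/T₀` intervals of length `T₀`; on every one `|E ∩ J| ≤ 240 .../V²` as before, and
`4T/T₀ = 4 T (120 B² (1+log M)^(r²+2))²/(V⁴ N²)`. Total: at most `C H³ T/(N² V⁶)`.
-/

set_option autoImplicit false

open Finset MeasureTheory

namespace Pool.Agent.Lib.MP_9a8698_nt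

private noncomputable def x4h (v : ℝ) : ℝ := min 1 (1 / |v|)

private lemma x4h_nonneg (v : ℝ) : 0 ≤ x4h v := by unfold x4h; positivity

private lemma x4h_le (v : ℝ) : x4h v ≤ 1 := min_le_left _ _

private lemma x4h_meas : Measurable x4h := by unfold x4h; fun_prop

private lemma x4h_ii (a b : ℝ) : IntervalIntegrable x4h volume a b := by
  have h1 : IntervalIntegrable (fun _ : ℝ => (1 : ℝ)) volume a b := intervalIntegrable_const
  refine h1.mono_fun x4h_meas.aestronglyMeasurable ?_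
  filter_upwards with v
  rw [Real.norm_of_nonneg (x4h_nonneg v), norm_one]
  exact x4h_le v

private lemma x4h_int (T : ℝ) (hT : 1 ≤ T) :
    ∫ v in (-T)..T, x4h v ≤ 2 * (1 + Real.log T) := by
  have e1 : ∫ v in (-T)..(-1), x4h v = ∫ v in (1 : ℝ)..T, x4h v := by
    have h1 := intervalIntegral.integral_comp_neg (f := x4h) (a := 1) (b := T)
    rw [← h1]
    refine intervalIntegral.integral_congr fun v _ => ?_
    simp only [x4h, abs_neg]
  have e2 : ∫ v in (1 : ℝ)..T, x4h v = Real.log T := by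
    have h1 : ∫ v in (1 : ℝ)..T, x4h v = ∫ v in (1 : ℝ)..T, 1 / v := by
      refine intervalIntegral.integral_congr fun v hv => ?_
      rw [Set.uIcc_of_le hT] at hv
      have hv0 : 0 < v := by linarith [hv.1]
      simp only [x4h]
      rw [abs_of_pos hv0, min_eq_right]
      rw [div_le_one hv0]
      exact hv.1
    rw [h1, integral_one_div_of_pos one_pos (by linarith)]
    simp
  have e3 : ∫ v in (-1 : ℝ)..1, x4h v ≤ 2 := by
    have h1 := intervalIntegral.integral_mono_on (by norm_num : (-1 : ℝ) ≤ 1)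
      (x4h_ii (-1) 1) (intervalIntegrable_const (c := (1 : ℝ))) (fun v _ => x4h_le v)
    refine h1.trans (le_of_eq ?_)
    simp
    norm_num
  have h2 := intervalIntegral.integral_add_adjacent_intervals (x4h_ii (-T) (-1)) (x4h_ii (-1) 1)
  have h3 := intervalIntegral.integral_add_adjacent_intervals (x4h_ii (-T) 1) (x4h_ii 1 T)
  linarith

private lemma x4h_set (T t : ℝ) (hT : 1 ≤ T) (E : Set ℝ) (hE : E ⊆ Set.Icc (t - T) (t + T)) :
    ∫ u in E, x4h (t - u) ≤ 2 * (1 + Real.log T) := by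
  have hm : Measurable fun u : ℝ => x4h (t - u) := x4h_meas.comp (measurable_const.sub measurable_id)
  have hi : IntegrableOn (fun u : ℝ => x4h (t - u)) (Set.Icc (t - T) (t + T)) := by
    refine Measure.integrableOn_of_bounded (M := 1) (by simp) hm.aestronglyMeasurable ?_
    filter_upwards with v
    rw [Real.norm_of_nonneg (x4h_nonneg _)]
    exact x4h_le _
  have h1 : ∫ u in E, x4h (t - u) ≤ ∫ u in Set.Icc (t - T) (t + T), x4h (t - u) :=
    setIntegral_mono_set hi (Filter.Eventually.of_forall fun u => x4h_nonneg _)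
      (LE.le.eventuallyLE hE)
  refine h1.trans ?_
  rw [integral_Icc_eq_integral_Ioc, ← intervalIntegral.integral_of_le (by linarith),
    intervalIntegral.integral_comp_sub_left (fun v => x4h v)]
  have h2 := x4h_int T hT
  have e1 : t - (t + T) = -T := by ring
  have e2 : t - (t - T) = T := by ring
  rw [e1, e2]
  exact h2

theorem kernel_int (N M T₀ p t : ℝ) (hN : 1 ≤ N) (hNM : N ≤ M) (hT₀ : 0 < T₀) (E : Set ℝ)
    (hE : MeasurableSet E) (hEp : E ⊆ Set.Icc p (p + T₀)) (ht : t ∈ E) :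
    ∫ u in E, ‖DP (Icc ⌈N⌉₊ ⌊M⌋₊) (fun _ => 1) (t - u)‖ ≤
      60 * (1 + Real.log M) ^ 2 *
        (2 * (1 + Real.log (1 + T₀)) + volume.real E * (Real.sqrt T₀ / N)) := by
  have hM : 1 ≤ M := hN.trans hNM
  have hN0 : 0 < N := by linarith
  obtain ⟨K, hK⟩ : ∃ K : ℝ, K = 60 * (1 + Real.log M) ^ 2 := ⟨_, rfl⟩
  have hK0 : 0 ≤ K := by rw [hK]; positivity
  have hEfin : volume E ≠ ⊤ := ((measure_mono hEp).trans_lt (by simp)).ne
  have : IsFiniteMeasure (volume.restrict E) := ⟨by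
    rw [Measure.restrict_apply_univ]
    exact lt_top_iff_ne_top.2 hEfin⟩
  have hm : Measurable fun u : ℝ => x4h (t - u) := x4h_meas.comp (measurable_const.sub measurable_id)
  have hi : IntegrableOn (fun u : ℝ => x4h (t - u)) E := by
    refine Measure.integrableOn_of_bounded (M := 1) hEfin hm.aestronglyMeasurable ?_
    filter_upwards with v
    rw [Real.norm_of_nonneg (x4h_nonneg _)]
    exact x4h_le _
  have hcont : Continuous fun u : ℝ => DP (Icc ⌈N⌉₊ ⌊M⌋₊) (fun _ => 1) (t - u) :=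
    (DP_continuous _ _).comp (continuous_const.sub continuous_id)
  have hi1 : IntegrableOn (fun u : ℝ => ‖DP (Icc ⌈N⌉₊ ⌊M⌋₊) (fun _ => 1) (t - u)‖) E :=
    (hcont.norm.continuousOn.integrableOn_compact isCompact_Icc).mono_set hEp
  have hi2 : IntegrableOn (fun u : ℝ => K * (x4h (t - u) + Real.sqrt T₀ / N)) E :=
    (hi.add (integrableOn_const hEfin)).const_mul K
  have hle : ∫ u in E, ‖DP (Icc ⌈N⌉₊ ⌊M⌋₊) (fun _ => 1) (t - u)‖ ≤
      ∫ u in E, K * (x4h (t - u) + Real.sqrt T₀ / N) := by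
    refine integral_mono_ae hi1 hi2 ?_
    have hne : ∀ᵐ u : ℝ ∂(volume.restrict E), u ≠ t := by
      refine ae_restrict_of_ae ?_
      rw [ae_iff]
      simp
    filter_upwards [hne, ae_restrict_mem hE] with u hu huE
    have h1 := hEp ht
    have h2 := hEp huE
    have h3 : |t - u| ≤ T₀ := by
      rw [abs_le]
      constructor
      · linarith [h1.1, h2.2]
      · linarith [h1.2, h2.1]
    have h4 : t - u ≠ 0 := sub_ne_zero.2 (Ne.symm hu)
    have h5 := kernel_bound N M (t - u) hN hNM h4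
    rw [← hK] at h5
    refine h5.trans ?_
    refine mul_le_mul_of_nonneg_left ?_ hK0
    have h6 : Real.sqrt |t - u| ≤ Real.sqrt T₀ := Real.sqrt_le_sqrt h3
    have h7 : Real.sqrt |t - u| / N ≤ Real.sqrt T₀ / N := by gcongr
    unfold x4h
    linarith
  refine hle.trans ?_
  rw [← hK, integral_const_mul]
  refine mul_le_mul_of_nonneg_left ?_ hK0
  rw [integral_add hi (integrableOn_const hEfin), setIntegral_const, smul_eq_mul]
  refine add_le_add ?_ le_rfl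
  have h8 : E ⊆ Set.Icc (t - (1 + T₀)) (t + (1 + T₀)) := by
    intro u hu
    have h1 := hEp ht
    have h2 := hEp hu
    constructor
    · linarith [h1.2, h2.1]
    · linarith [h1.1, h2.2]
  exact x4h_set (1 + T₀) t (by linarith) E h8

theorem huxley_short (r : ℕ) (B N M T₀ V p : ℝ) (F : ℝ → ℂ) (hF : IsDP r B N M F) (hB : 0 ≤ B)
    (hN : 1 ≤ N) (hNM : N ≤ M) (hV : 0 < V) (hT₀ : 0 < T₀)
    (hT₀' : 120 * (B ^ 2 * (1 + Real.log M) ^ (r ^ 2 + 2)) * (Real.sqrt T₀ / N) ≤ V ^ 2)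
    (E : Set ℝ) (hE : MeasurableSet E) (hEp : E ⊆ Set.Icc p (p + T₀))
    (hEV : ∀ t ∈ E, V ≤ ‖F t‖) :
    volume.real E ≤
      240 * (B ^ 2 * (1 + Real.log M) ^ (r ^ 2 + 2)) * (1 + Real.log (1 + T₀)) / V ^ 2 := by
  have hM : 1 ≤ M := hN.trans hNM
  have hN0 : 0 < N := by linarith
  have hlM : 0 ≤ Real.log M := Real.log_nonneg hM
  have hlT : 0 ≤ Real.log (1 + T₀) := Real.log_nonneg (by linarith)
  obtain ⟨s, c, hs, hf⟩ := hF
  have hEfin : volume E ≠ ⊤ := ((measure_mono hEp).trans_lt (by simp)).ne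
  obtain ⟨H, hH⟩ : ∃ H : ℝ, H = B ^ 2 * (1 + Real.log M) ^ (r ^ 2 + 2) := ⟨_, rfl⟩
  obtain ⟨q, hq⟩ : ∃ q : ℝ, q = Real.sqrt T₀ / N := ⟨_, rfl⟩
  obtain ⟨L, hL⟩ : ∃ L : ℝ, L = 1 + Real.log (1 + T₀) := ⟨_, rfl⟩
  obtain ⟨m, hm⟩ : ∃ m : ℝ, m = volume.real E := ⟨_, rfl⟩
  have hm0 : 0 ≤ m := by rw [hm]; exact measureReal_nonneg
  have hq0 : 0 ≤ q := by rw [hq]; positivity
  have hL0 : 0 ≤ L := by rw [hL]; linarith
  have hH0 : 0 ≤ H := by rw [hH]; positivity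
  rw [← hH, ← hq] at hT₀'
  rw [← hm, ← hH, ← hL]
  -- coefficient sum
  have hG : ∑ n ∈ s, (c n) ^ 2 / n ≤ B ^ 2 * (1 + Real.log M) ^ (r ^ 2) := by
    have f1 : 1 ≤ ⌊M⌋₊ := (Nat.one_le_floor_iff M).2 hM
    have f2 : (1 : ℝ) ≤ (⌊M⌋₊ : ℝ) := by exact_mod_cast f1
    have f3 : Real.log ⌊M⌋₊ ≤ Real.log M :=
      Real.log_le_log (by linarith) (Nat.floor_le (by linarith))
    have f4 : 0 ≤ Real.log ⌊M⌋₊ := Real.log_nonneg f2
    have hsub : s ⊆ Icc 1 ⌊M⌋₊ := by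
      intro n hn
      obtain ⟨h1, -, h2, -⟩ := hs n hn
      exact mem_Icc.2 ⟨h1, Nat.le_floor h2⟩
    calc ∑ n ∈ s, c n ^ 2 / n ≤ ∑ n ∈ s, B ^ 2 * (dd r n ^ 2 / n) := by
          refine sum_le_sum fun n hn => ?_
          obtain ⟨h1, -, -, h2⟩ := hs n hn
          rw [← mul_div_assoc]
          refine div_le_div_of_nonneg_right ?_ (Nat.cast_nonneg _)
          rw [← mul_pow, ← sq_abs (c n)]
          exact pow_le_pow_left₀ (abs_nonneg _) h2 2
      _ ≤ ∑ n ∈ Icc 1 ⌊M⌋₊, B ^ 2 * (dd r n ^ 2 / n) :=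
          sum_le_sum_of_subset_of_nonneg hsub fun n _ _ => by positivity
      _ = B ^ 2 * ∑ n ∈ Icc 1 ⌊M⌋₊, dd r n ^ 2 / n := by rw [mul_sum]
      _ ≤ B ^ 2 * (1 + Real.log ⌊M⌋₊) ^ (r ^ 2) :=
          mul_le_mul_of_nonneg_left (sum_dd_sq r _ f1) (by positivity)
      _ ≤ B ^ 2 * (1 + Real.log M) ^ (r ^ 2) := by
          refine mul_le_mul_of_nonneg_left ?_ (by positivity)
          exact pow_le_pow_left₀ (by linarith) (by linarith) _
  have hker : ∀ t ∈ E, ∫ u in E, ‖DP (Icc ⌈N⌉₊ ⌊M⌋₊) (fun _ => 1) (t - u)‖ ≤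
      60 * (1 + Real.log M) ^ 2 * (2 * L + m * q) := by
    intro t ht
    rw [hL, hm, hq]
    exact kernel_int N M T₀ p t hN hNM hT₀ E hE hEp ht
  have hET : E ⊆ Set.Icc (-(|p| + T₀)) (|p| + T₀) := by
    intro u hu
    have h1 := hEp hu
    have h2 := abs_le.1 (le_refl |p|)
    constructor
    · linarith [h1.1, h2.1]
    · linarith [h1.2, h2.2]
  have hK0 : 0 ≤ 60 * (1 + Real.log M) ^ 2 * (2 * L + m * q) := by positivity
  have h1 := halasz s c N M (|p| + T₀) _ hN (fun n hn => ⟨(hs n hn).1, (hs n hn).2.1, (hs n hn).2.2.1⟩)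
    E hE hET hK0 hker
  have hcont : Continuous fun t => DP s c t := DP_continuous s c
  have hi1 : IntegrableOn (fun t : ℝ => ‖DP s c t‖ ^ 2) E :=
    ((hcont.norm.pow 2).continuousOn.integrableOn_compact isCompact_Icc).mono_set hEp
  have h2 : V ^ 2 * m ≤ ∫ t in E, ‖DP s c t‖ ^ 2 := by
    calc V ^ 2 * m = ∫ _ in E, V ^ 2 := by
          rw [setIntegral_const, smul_eq_mul, mul_comm, hm]
      _ ≤ ∫ t in E, ‖DP s c t‖ ^ 2 := by
          refine setIntegral_mono_on (integrableOn_const hEfin) hi1 hE fun t ht => ?_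
          have h3 := hEV t ht
          rw [hf] at h3
          exact pow_le_pow_left₀ hV.le h3 2
  have h3 : (∑ n ∈ s, (c n) ^ 2 / n) * (60 * (1 + Real.log M) ^ 2 * (2 * L + m * q)) ≤
      60 * H * (2 * L + m * q) := by
    calc (∑ n ∈ s, (c n) ^ 2 / n) * (60 * (1 + Real.log M) ^ 2 * (2 * L + m * q)) ≤
          (B ^ 2 * (1 + Real.log M) ^ (r ^ 2)) * (60 * (1 + Real.log M) ^ 2 * (2 * L + m * q)) :=
          mul_le_mul_of_nonneg_right hG hK0
      _ = 60 * H * (2 * L + m * q) := by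
          rw [hH, pow_add]
          ring
  have h4 : V ^ 2 * m ≤ 60 * H * (2 * L + m * q) := h2.trans (h1.trans h3)
  have h5 : 120 * H * q * m ≤ V ^ 2 * m := mul_le_mul_of_nonneg_right hT₀' hm0
  have hV2 : 0 < V ^ 2 := by positivity
  rw [le_div_iff₀ hV2]
  nlinarith

private lemma x4_log (T : ℝ) (hT : 1 ≤ T) : 1 + Real.log (1 + 2 * T) ≤ 3 * (1 + Real.log T) := by
  have h1 : Real.log (1 + 2 * T) ≤ Real.log (3 * T) :=
    Real.log_le_log (by linarith) (by linarith)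
  have h2 : Real.log (3 * T) = Real.log 3 + Real.log T :=
    Real.log_mul (by norm_num) (by linarith)
  have h3 : Real.log 3 ≤ 2 := by
    have h4 := Real.log_le_sub_one_of_pos (by norm_num : (0 : ℝ) < 3)
    linarith
  have h5 : 0 ≤ Real.log T := Real.log_nonneg hT
  linarith

private lemma x4_cover (T T₀ W : ℝ) (hT₀ : 0 < T₀) (hT : T₀ < 2 * T) (hW : 0 ≤ W) (E : Set ℝ)
    (hET : E ⊆ Set.Icc (-T) T)
    (h : ∀ p : ℝ, volume.real (E ∩ Set.Icc p (p + T₀)) ≤ W) :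
    volume.real E ≤ 4 * T / T₀ * W := by
  have hEfin : volume E ≠ ⊤ := ((measure_mono hET).trans_lt (by simp)).ne
  obtain ⟨m, hm⟩ : ∃ m : ℕ, m = ⌈2 * T / T₀⌉₊ := ⟨_, rfl⟩
  have h1 : 1 < 2 * T / T₀ := by rw [lt_div_iff₀ hT₀]; linarith
  have hm1 : (m : ℝ) ≤ 4 * T / T₀ := by
    rw [hm]
    have h2 := (Nat.ceil_lt_add_one (by linarith : (0 : ℝ) ≤ 2 * T / T₀)).le
    have e : 4 * T / T₀ = 2 * T / T₀ + 2 * T / T₀ := by ring
    rw [e]
    linarith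
  have hm2 : 2 * T / T₀ ≤ m := by rw [hm]; exact Nat.le_ceil _
  have hcov : E ⊆ ⋃ i ∈ range m, (E ∩ Set.Icc (-T + i * T₀) (-T + i * T₀ + T₀)) := by
    intro u hu
    have hu1 := hET hu
    obtain ⟨i, hi⟩ : ∃ i : ℕ, i = ⌊(u + T) / T₀⌋₊ := ⟨_, rfl⟩
    have hpos : 0 ≤ (u + T) / T₀ := div_nonneg (by linarith [hu1.1]) hT₀.le
    have hi1 : (i : ℝ) ≤ (u + T) / T₀ := by rw [hi]; exact Nat.floor_le hpos
    have hi2 : (u + T) / T₀ < i + 1 := by rw [hi]; exact Nat.lt_floor_add_one _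
    rw [le_div_iff₀ hT₀] at hi1
    rw [div_lt_iff₀ hT₀] at hi2
    by_cases him : i < m
    · rw [Set.mem_iUnion₂]
      refine ⟨i, mem_range.2 him, hu, ?_⟩
      constructor <;> linarith
    · have hmi : m ≤ i := not_lt.1 him
      have hmi' : (m : ℝ) ≤ i := by exact_mod_cast hmi
      have h3 : 2 * T ≤ m * T₀ := by rwa [div_le_iff₀ hT₀] at hm2
      have h4 : (m : ℝ) * T₀ ≤ i * T₀ := mul_le_mul_of_nonneg_right hmi' hT₀.le
      have h5 : u = T := le_antisymm hu1.2 (by linarith)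
      have hm0 : 1 ≤ m := by
        by_contra h6
        have h7 : m = 0 := by omega
        rw [h7] at hm2
        push_cast at hm2
        linarith
      rw [Set.mem_iUnion₂]
      refine ⟨m - 1, mem_range.2 (by omega), hu, ?_⟩
      rw [Nat.cast_sub hm0]
      push_cast
      have h8 : (m : ℝ) < 2 * T / T₀ + 1 := by
        rw [hm]
        exact Nat.ceil_lt_add_one (by linarith)
      have h9 : (m : ℝ) * T₀ < 2 * T + T₀ := by
        have h10 := mul_lt_mul_of_pos_right h8 hT₀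
        have h11 : (2 * T / T₀ + 1) * T₀ = 2 * T + T₀ := by field_simp
        linarith
      constructor <;> nlinarith
  have h2 : volume.real E ≤
      volume.real (⋃ i ∈ range m, (E ∩ Set.Icc (-T + i * T₀) (-T + i * T₀ + T₀))) := by
    refine measureReal_mono hcov ?_
    refine ((measure_mono ?_).trans_lt (lt_top_iff_ne_top.2 hEfin)).ne
    intro u hu
    rw [Set.mem_iUnion₂] at hu
    obtain ⟨i, -, hi⟩ := hu
    exact hi.1
  have h3 := measureReal_biUnion_finset_le (μ := volume) (range m)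
    (fun i : ℕ => E ∩ Set.Icc (-T + i * T₀) (-T + i * T₀ + T₀))
  calc volume.real E ≤ _ := h2
    _ ≤ ∑ i ∈ range m, volume.real (E ∩ Set.Icc (-T + i * T₀) (-T + i * T₀ + T₀)) := h3
    _ ≤ ∑ _i ∈ range m, W := sum_le_sum fun i _ => h _
    _ = m * W := by rw [sum_const, card_range, nsmul_eq_mul]
    _ ≤ 4 * T / T₀ * W := mul_le_mul_of_nonneg_right hm1 hW

theorem huxley : ∃ C : ℝ, 0 < C ∧ ∀ (r : ℕ) (B N M T V : ℝ) (F : ℝ → ℂ), IsDP r B N M F →
    0 ≤ B → 1 ≤ N → N ≤ M → 1 ≤ T → 0 < V → ∀ E : Set ℝ, MeasurableSet E →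
    E ⊆ Set.Icc (-T) T → (∀ t ∈ E, V ≤ ‖F t‖) →
    volume.real E ≤ C * ((B ^ 2 * (1 + Real.log M) ^ (r ^ 2 + 2) * (1 + Real.log T)) / V ^ 2 +
      (B ^ 2 * (1 + Real.log M) ^ (r ^ 2 + 2) * (1 + Real.log T)) ^ 3 * T / (N ^ 2 * V ^ 6)) := by
  refine ⟨4 * 14400 * 720, by norm_num, ?_⟩
  intro r B N M T V F hF hB hN hNM hT hV E hE hET hEV
  have hM : 1 ≤ M := hN.trans hNM
  have hN0 : 0 < N := by linarith
  have hlM : 0 ≤ Real.log M := Real.log_nonneg hM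
  have hlT : 0 ≤ Real.log T := Real.log_nonneg hT
  have hlog := x4_log T hT
  obtain ⟨H, hH⟩ : ∃ H : ℝ, H = B ^ 2 * (1 + Real.log M) ^ (r ^ 2 + 2) := ⟨_, rfl⟩
  rw [← hH]
  rcases hB.eq_or_lt with hB0 | hB0
  · have hE0 : E = ∅ := by
      rw [Set.eq_empty_iff_forall_notMem]
      intro t ht
      have h1 := hEV t ht
      obtain ⟨s, c, hs, hf⟩ := hF
      have h2 : F t = 0 := by
        rw [hf]
        unfold DP
        refine sum_eq_zero fun n hn => ?_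
        have h3 := (hs n hn).2.2.2
        rw [← hB0, zero_mul] at h3
        have h4 : c n = 0 := abs_nonpos_iff.1 h3
        rw [h4]
        simp
      rw [h2, norm_zero] at h1
      linarith
    rw [hE0, hH, ← hB0]
    simp
  · have hH0 : 0 < H := by rw [hH]; positivity
    obtain ⟨T₀, hT₀⟩ : ∃ T₀ : ℝ, T₀ = (V ^ 2 * N / (120 * H)) ^ 2 := ⟨_, rfl⟩
    have hT₀0 : 0 < T₀ := by rw [hT₀]; positivity
    have hsq : Real.sqrt T₀ = V ^ 2 * N / (120 * H) := by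
      rw [hT₀]
      exact Real.sqrt_sq (by positivity)
    have hcond : ∀ T' : ℝ, T' ≤ T₀ →
        120 * (B ^ 2 * (1 + Real.log M) ^ (r ^ 2 + 2)) * (Real.sqrt T' / N) ≤ V ^ 2 := by
      intro T' hT'
      rw [← hH]
      have h1 : Real.sqrt T' ≤ V ^ 2 * N / (120 * H) := by
        rw [← hsq]
        exact Real.sqrt_le_sqrt hT'
      calc 120 * H * (Real.sqrt T' / N) ≤ 120 * H * ((V ^ 2 * N / (120 * H)) / N) := by gcongr
        _ = V ^ 2 := by field_simp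
    rcases le_or_gt (2 * T) T₀ with hc | hc
    · have h1 := huxley_short r B N M (2 * T) V (-T) F hF hB hN hNM hV (by linarith)
        (hcond _ hc) E hE (by
          have e : -T + 2 * T = T := by ring
          rw [e]
          exact hET) hEV
      rw [← hH] at h1
      have h2 : 0 ≤ (H * (1 + Real.log T)) ^ 3 * T / (N ^ 2 * V ^ 6) := by positivity
      have h3 : 240 * H * (1 + Real.log (1 + 2 * T)) / V ^ 2 ≤
          240 * H * (3 * (1 + Real.log T)) / V ^ 2 := by gcongr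
      have h4 : 240 * H * (3 * (1 + Real.log T)) / V ^ 2 = 720 * (H * (1 + Real.log T) / V ^ 2) := by
        ring
      have h5 : 0 ≤ H * (1 + Real.log T) / V ^ 2 := by positivity
      linarith
    · obtain ⟨W, hW⟩ : ∃ W : ℝ, W = 240 * H * (3 * (1 + Real.log T)) / V ^ 2 := ⟨_, rfl⟩
      have hW0 : 0 ≤ W := by rw [hW]; positivity
      have h1 := x4_cover T T₀ W hT₀0 hc hW0 E hET (by
        intro p
        have h2 := huxley_short r B N M T₀ V p F hF hB hN hNM hV hT₀0 (hcond _ le_rfl)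
          (E ∩ Set.Icc p (p + T₀)) (hE.inter measurableSet_Icc) Set.inter_subset_right
          (fun t ht => hEV t ht.1)
        rw [← hH] at h2
        refine h2.trans ?_
        rw [hW]
        have h3 : Real.log (1 + T₀) ≤ Real.log (1 + 2 * T) :=
          Real.log_le_log (by linarith) (by linarith)
        gcongr
        linarith)
      have h2 : 4 * T / T₀ * W =
          4 * 14400 * 720 * (H ^ 3 * (1 + Real.log T) * T / (N ^ 2 * V ^ 6)) := by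
        rw [hW, hT₀]
        field_simp
        ring
      have h3 : H ^ 3 * (1 + Real.log T) * T / (N ^ 2 * V ^ 6) ≤
          (H * (1 + Real.log T)) ^ 3 * T / (N ^ 2 * V ^ 6) := by
        have h4 : H ^ 3 * (1 + Real.log T) ≤ (H * (1 + Real.log T)) ^ 3 := by
          rw [mul_pow]
          refine mul_le_mul_of_nonneg_left ?_ (by positivity)
          exact le_self_pow₀ (by linarith) (by norm_num)
        gcongr
      have h5 : 0 ≤ H * (1 + Real.log T) / V ^ 2 := by positivity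
      linarith

end Pool.Agent.Lib.MP_9a8698_nt
end

section

/-!
X5. The measure of a level set of all variables, when all pairs are light (A4, X4 `huxley`, P3 `final_ineq` are used).

NOTATION. `ℓ = log k`, `τ = β + θ/2`, `T = k^τ`, `S = ∑ x`, `U = ∑ u`; for a set `A` of indices `x_A = ∑_{i ∈ A} x i`, `u_A = ∑_{i∈A} u i`,
`F_A t = ∏_{i ∈ A} f i t`. By `IsDP.prod` (with `N i = k^(x i)`, `M i = 2 k^(x i)`, `B = ℓ^b`), `F_A` is
`IsDP (#A) (B^#A) (k^(x_A)) (2^#A k^(x_A))`, `#A ≤ r`, `2^#A k^(x_A) ≤ 2^r k^2 ≤ k^4` for large `k` (`x_A ≤ S ≤ 2`), and on `E`: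
`‖F_A t‖ ≥ ∏ k^(-u i) = k^(-u_A)`. If `A` is empty, `F_A = 1`: this is covered (`IsDP 0 1 1 1`), all statements below remain true.

PROOF. Suppose `|E| := volume.real E > ℓ^C k^U`. Let `D = C₀ ℓ^(C₀')` denote the logarithmic factors
(`(B^r)^2 (1+4ℓ)^(r²+2) (1 + ℓ)` and its third power times constants; `C` is chosen large afterwards so that `ℓ^C ≥ 9 D` for large `k`).
(M) for every `A`: Chebyshev and `IsDP.mvt` on `[-T,T]`: `k^(-2u_A) |E| ≤ ∫_{[-T,T]} ‖F_A‖² ≤ D (k^(τ - x_A) + 1)`, so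
`|E| ≤ D k^(τ - x_A + 2u_A) + D k^(2u_A)`.
(H) for every `A`: `huxley` with `V = k^(-u_A)`: `|E| ≤ D k^(2u_A) + D k^(τ - 2 x_A + 6 u_A)`.
Let `A` be light (`x_A < β+θ`). Its complement has `x = S - x_A > 1+β-θ/4-β-θ = 1 - 5θ/4 ≥ β+θ` (as `β ≤ 9/11-20θ`), so it is heavy by `hlh`,
`x_{Aᶜ} > 1-θ ≥ τ`, and (M) gives `|E| ≤ 2 D k^(2u_{Aᶜ})`. If `|E| ≤ 4 D k^(2 u_A)`, then (product of the two)
`|E|² ≤ 8 D² k^(2U)`, so `|E| ≤ 3 D k^U`, contradiction. So `|E| > 4 D k^(2u_A)`, and then (M), (H) give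
`|E| ≤ 2 D k^(τ-x_A+2u_A)` and `|E| ≤ 2 D k^(τ-2x_A+6u_A)`; with `|E| > ℓ^C k^U ≥ 2 D k^U`:
`U < τ - x_A + 2u_A` and `U < τ - 2x_A + 6u_A`, which are the hypotheses `h1`, `h2` of `final_ineq` with `κ = 0`. Contradiction.
-/

set_option autoImplicit false

open Finset MeasureTheory

namespace Pool.Agent.Lib.MP_9a8698_nt

private lemma x5_cheb (T V : ℝ) (F : ℝ → ℂ) (hF : Continuous F) (hV : 0 ≤ V) (E : Set ℝ)
    (hE : MeasurableSet E) (hET : E ⊆ Set.Icc (-T) T) (h : ∀ t ∈ E, V ≤ ‖F t‖) :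
    V ^ 2 * volume.real E ≤ ∫ t in Set.Icc (-T) T, ‖F t‖ ^ 2 := by
  have hc : Continuous fun t => ‖F t‖ ^ 2 := by fun_prop
  have hint : IntegrableOn (fun t => ‖F t‖ ^ 2) (Set.Icc (-T) T) :=
    hc.continuousOn.integrableOn_compact isCompact_Icc
  have hlt : volume E < ⊤ := (measure_mono hET).trans_lt (by simp [Real.volume_Icc])
  calc V ^ 2 * volume.real E = ∫ _ in E, V ^ 2 := by
        rw [setIntegral_const, smul_eq_mul, mul_comm]
    _ ≤ ∫ t in E, ‖F t‖ ^ 2 :=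
        setIntegral_mono_on (integrableOn_const hlt.ne) (hint.mono_set hET) hE
          (fun t ht => pow_le_pow_left₀ hV (h t ht) 2)
    _ ≤ _ := setIntegral_mono_set hint (Filter.Eventually.of_forall fun _ => by positivity)
        (LE.le.eventuallyLE hET)

/-- the logarithmic factor -/
private noncomputable def x5D (b : ℝ) (r : ℕ) (l : ℝ) : ℝ :=
  2 * 4 ^ (r ^ 2 + 2) * l ^ (2 * b * r + ((r : ℝ) ^ 2 + 3))

private lemma x5_one_le (b : ℝ) (hb : 0 ≤ b) (r : ℕ) (l : ℝ) (hl : 1 ≤ l) : 1 ≤ x5D b r l := by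
  unfold x5D
  have h1 : (1 : ℝ) ≤ 4 ^ (r ^ 2 + 2) := one_le_pow₀ (by norm_num)
  have h2 : 1 ≤ l ^ (2 * b * r + ((r : ℝ) ^ 2 + 3)) := Real.one_le_rpow hl (by positivity)
  nlinarith

private lemma x5_H (b : ℝ) (hb : 0 ≤ b) (r a : ℕ) (har : a ≤ r) (l LM LT : ℝ) (hl : 1 ≤ l)
    (hLM0 : 0 ≤ LM) (hLM : LM ≤ 3 * l) (hLT0 : 0 ≤ LT) (hLT : LT ≤ l) :
    ((l ^ b) ^ a) ^ 2 * (1 + LM) ^ (a ^ 2 + 2) * (1 + LT) ≤ x5D b r l := by
  have hl0 : 0 < l := by linarith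
  have h1 : ((l ^ b) ^ a) ^ 2 ≤ l ^ (2 * b * r) := by
    rw [← Real.rpow_natCast (l ^ b) a, ← Real.rpow_mul hl0.le, ← Real.rpow_natCast _ 2,
      ← Real.rpow_mul hl0.le]
    apply Real.rpow_le_rpow_of_exponent_le hl
    have : (a : ℝ) ≤ r := by exact_mod_cast har
    push_cast
    nlinarith
  have h2 : (1 + LM) ^ (a ^ 2 + 2) ≤ 4 ^ (r ^ 2 + 2) * l ^ ((r : ℝ) ^ 2 + 2) := by
    calc (1 + LM) ^ (a ^ 2 + 2) ≤ (4 * l) ^ (a ^ 2 + 2) :=
          pow_le_pow_left₀ (by linarith) (by linarith) _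
      _ ≤ (4 * l) ^ (r ^ 2 + 2) := by
          apply pow_le_pow_right₀ (by linarith)
          have := Nat.pow_le_pow_left har 2
          omega
      _ = 4 ^ (r ^ 2 + 2) * l ^ ((r : ℝ) ^ 2 + 2) := by
          rw [mul_pow, ← Real.rpow_natCast l]
          push_cast
          rfl
  have h3 : 1 + LT ≤ 2 * l := by linarith
  calc ((l ^ b) ^ a) ^ 2 * (1 + LM) ^ (a ^ 2 + 2) * (1 + LT)
      ≤ l ^ (2 * b * r) * (4 ^ (r ^ 2 + 2) * l ^ ((r : ℝ) ^ 2 + 2)) * (2 * l) := by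
        apply mul_le_mul (mul_le_mul h1 h2 (by positivity) (by positivity)) h3 (by positivity)
          (by positivity)
    _ = x5D b r l := by
        unfold x5D
        have e : l ^ (2 * b * r + ((r : ℝ) ^ 2 + 3)) = l ^ (2 * b * r) * l ^ ((r : ℝ) ^ 2 + 2) * l := by
          have e1 : (2 * b * r + ((r : ℝ) ^ 2 + 3)) = 2 * b * r + ((r : ℝ) ^ 2 + 2) + 1 := by ring
          rw [e1, Real.rpow_add hl0, Real.rpow_add hl0, Real.rpow_one]
        rw [e]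
        ring

private lemma x5_G (b : ℝ) (hb : 0 ≤ b) (r a : ℕ) (har : a ≤ r) (l LM : ℝ) (hl : 1 ≤ l)
    (hLM0 : 0 ≤ LM) (hLM : LM ≤ 3 * l) :
    ((l ^ b) ^ a) ^ 2 * (1 + LM) ^ (a ^ 2) ≤ x5D b r l := by
  have hl0 : 0 < l := by linarith
  have h := x5_H b hb r a har l LM 0 hl hLM0 hLM le_rfl (by linarith)
  rw [add_zero, mul_one] at h
  refine le_trans (mul_le_mul_of_nonneg_left ?_ (by positivity)) h
  exact pow_le_pow_right₀ (by linarith) (by omega)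

/-- the product over a set of indices -/
private lemma x5_dp {ι : Type} (A : Finset ι) (k b : ℝ) (hk : 0 < k) (hl : 0 ≤ Real.log k)
    (x : ι → ℝ) (f : ι → ℝ → ℂ)
    (h : ∀ i, IsDP 1 ((Real.log k) ^ b) (k ^ x i) (2 * k ^ x i) (f i)) :
    IsDP (#A) (((Real.log k) ^ b) ^ (#A)) (k ^ (∑ i ∈ A, x i)) (2 ^ (#A) * k ^ (∑ i ∈ A, x i))
      (fun t => ∏ i ∈ A, f i t) := by
  have h1 := IsDP.prod A (Real.rpow_nonneg hl b) (fun i => k ^ x i) (fun i => 2 * k ^ x i) f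
    (fun i _ => by positivity) (fun i _ => h i)
  rw [prod_mul_distrib, prod_const, ← Real.rpow_sum_of_pos hk] at h1
  exact h1

/-- the lower bound for the product -/
private lemma x5_low {ι : Type} (A : Finset ι) (k : ℝ) (hk : 0 < k) (u : ι → ℝ) (f : ι → ℝ → ℂ)
    (t : ℝ) (h : ∀ i, k ^ (-u i) ≤ ‖f i t‖) : k ^ (-∑ i ∈ A, u i) ≤ ‖∏ i ∈ A, f i t‖ := by
  rw [norm_prod, ← Finset.sum_neg_distrib, Real.rpow_sum_of_pos hk]
  exact Finset.prod_le_prod (fun i _ => (Real.rpow_pos_of_pos hk _).le) (fun i _ => h i)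

private lemma x5_k (r : ℕ) (k X : ℝ) (hk2 : (2 : ℝ) ^ r ≤ k) (hl : 1 ≤ Real.log k) (a : ℕ)
    (ha : a ≤ r) (hX0 : 0 ≤ X) (hX : X ≤ 2) : 0 < k ∧ 1 ≤ k ∧ 1 ≤ k ^ X ∧ 1 ≤ 2 ^ a * k ^ X ∧
      0 ≤ Real.log (2 ^ a * k ^ X) ∧ Real.log (2 ^ a * k ^ X) ≤ 3 * Real.log k := by
  have h1 : (1 : ℝ) ≤ 2 ^ r := one_le_pow₀ (by norm_num)
  have hk1 : 1 ≤ k := le_trans h1 hk2
  have hk0 : 0 < k := by linarith
  have h2 : 1 ≤ k ^ X := Real.one_le_rpow hk1 hX0
  have h3 : (1 : ℝ) ≤ 2 ^ a := one_le_pow₀ (by norm_num)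
  have h4 : 1 ≤ 2 ^ a * k ^ X := by nlinarith
  refine ⟨hk0, hk1, h2, h4, Real.log_nonneg h4, ?_⟩
  have h5 : (2 : ℝ) ^ a ≤ k := le_trans (pow_le_pow_right₀ (by norm_num) ha) hk2
  rw [Real.log_mul (by positivity) (by positivity), Real.log_rpow hk0]
  have h6 : Real.log (2 ^ a) ≤ Real.log k := Real.log_le_log (by positivity) h5
  nlinarith

/-- (M): the mean value theorem for a set of indices -/
private lemma x5_M : ∃ C : ℝ, 0 < C ∧ ∀ (b : ℝ) (r : ℕ) (k τ : ℝ) (ι : Type) (A : Finset ι)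
    (x u : ι → ℝ) (f : ι → ℝ → ℂ) (E : Set ℝ), 0 ≤ b → 1 ≤ Real.log k → 0 ≤ τ → #A ≤ r →
    (∀ i, 0 ≤ x i) → (2 : ℝ) ^ r ≤ k → ∑ i ∈ A, x i ≤ 2 →
    (∀ i, IsDP 1 ((Real.log k) ^ b) (k ^ x i) (2 * k ^ x i) (f i)) →
    MeasurableSet E → E ⊆ Set.Icc (-k ^ τ) (k ^ τ) → (∀ i, ∀ t ∈ E, k ^ (-u i) ≤ ‖f i t‖) →
    volume.real E ≤ C * x5D b r (Real.log k) *
      (k ^ (τ - ∑ i ∈ A, x i + 2 * ∑ i ∈ A, u i) + k ^ (2 * ∑ i ∈ A, u i)) := by
  obtain ⟨C, hC, hmv⟩ := IsDP.mvt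
  refine ⟨C, hC, ?_⟩
  intro b r k τ ι A x u f E hb hl hτ hA hx hk2 hxA hdp hE hET hlow
  have hX0 : 0 ≤ ∑ i ∈ A, x i := Finset.sum_nonneg fun i _ => hx i
  obtain ⟨hk0, hk1, hN, hM, hL0, hL⟩ := x5_k r k _ hk2 hl (#A) hA hX0 hxA
  have hdp' := x5_dp A k b hk0 (by linarith) x f hdp
  have hl0 : 0 < Real.log k := by linarith
  have h1 := hmv _ _ _ _ (k ^ τ) _ hdp' (Real.one_le_rpow hk1 hτ) hN hM
    (pow_nonneg (Real.rpow_nonneg hl0.le _) _)
  have h2 := x5_cheb (k ^ τ) (k ^ (-∑ i ∈ A, u i)) (fun t => ∏ i ∈ A, f i t) hdp'.cont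
    (Real.rpow_pos_of_pos hk0 _).le E hE hET
    (fun t ht => x5_low A k hk0 u f t (fun i => hlow i t ht))
  have h3 := x5_G b hb r (#A) hA (Real.log k) _ hl hL0 hL
  have hD0 := x5_one_le b hb r (Real.log k) hl
  set X := ∑ i ∈ A, x i
  set U := ∑ i ∈ A, u i
  set G := (((Real.log k) ^ b) ^ #A) ^ 2 * (1 + Real.log (2 ^ #A * k ^ X)) ^ (#A ^ 2) with hG
  set v := volume.real E
  have hp : 0 < k ^ U := Real.rpow_pos_of_pos hk0 _
  have hq : 0 < k ^ X := Real.rpow_pos_of_pos hk0 _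
  have hw : 0 < k ^ τ := Real.rpow_pos_of_pos hk0 _
  have e1 : k ^ (2 * U) = (k ^ U) ^ 2 := by
    rw [mul_comm, Real.rpow_mul hk0.le]
    norm_num
  have e2 : k ^ (τ - X + 2 * U) = k ^ τ / k ^ X * (k ^ U) ^ 2 := by
    rw [Real.rpow_add hk0, Real.rpow_sub hk0, e1]
  rw [Real.rpow_neg hk0.le] at h2
  rw [e1, e2]
  have h4 : ((k ^ U)⁻¹) ^ 2 * v ≤ C * (k ^ τ / k ^ X + 1) * x5D b r (Real.log k) := by
    refine (h2.trans h1).trans ?_
    exact mul_le_mul_of_nonneg_left h3 (by positivity)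
  calc v = (k ^ U) ^ 2 * (((k ^ U)⁻¹) ^ 2 * v) := by field_simp
    _ ≤ (k ^ U) ^ 2 * (C * (k ^ τ / k ^ X + 1) * x5D b r (Real.log k)) :=
        mul_le_mul_of_nonneg_left h4 (by positivity)
    _ = C * x5D b r (Real.log k) * (k ^ τ / k ^ X * (k ^ U) ^ 2 + (k ^ U) ^ 2) := by ring

/-- (H): the large values theorem for a set of indices -/
private lemma x5_Hux : ∃ C : ℝ, 0 < C ∧ ∀ (b : ℝ) (r : ℕ) (k τ : ℝ) (ι : Type) (A : Finset ι)
    (x u : ι → ℝ) (f : ι → ℝ → ℂ) (E : Set ℝ), 0 ≤ b → 1 ≤ Real.log k → 0 ≤ τ → τ ≤ 1 → #A ≤ r →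
    (∀ i, 0 ≤ x i) → (2 : ℝ) ^ r ≤ k → ∑ i ∈ A, x i ≤ 2 →
    (∀ i, IsDP 1 ((Real.log k) ^ b) (k ^ x i) (2 * k ^ x i) (f i)) →
    MeasurableSet E → E ⊆ Set.Icc (-k ^ τ) (k ^ τ) → (∀ i, ∀ t ∈ E, k ^ (-u i) ≤ ‖f i t‖) →
    volume.real E ≤ C * (x5D b r (Real.log k)) ^ 3 *
      (k ^ (2 * ∑ i ∈ A, u i) + k ^ (τ - 2 * ∑ i ∈ A, x i + 6 * ∑ i ∈ A, u i)) := by
  obtain ⟨C, hC, hmv⟩ := huxley
  refine ⟨C, hC, ?_⟩
  intro b r k τ ι A x u f E hb hl hτ hτ1 hA hx hk2 hxA hdp hE hET hlow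
  have hX0 : 0 ≤ ∑ i ∈ A, x i := Finset.sum_nonneg fun i _ => hx i
  obtain ⟨hk0, hk1, hN, hM, hL0, hL⟩ := x5_k r k _ hk2 hl (#A) hA hX0 hxA
  have hdp' := x5_dp A k b hk0 (by linarith) x f hdp
  have hl0 : 0 < Real.log k := by linarith
  have hNM : k ^ (∑ i ∈ A, x i) ≤ 2 ^ (#A) * k ^ (∑ i ∈ A, x i) := by
    have h3 : (1 : ℝ) ≤ 2 ^ (#A) := one_le_pow₀ (by norm_num)
    nlinarith
  have h1 := hmv _ _ _ _ (k ^ τ) (k ^ (-∑ i ∈ A, u i)) _ hdp'
    (pow_nonneg (Real.rpow_nonneg hl0.le _) _) hN hNM (Real.one_le_rpow hk1 hτ)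
    (Real.rpow_pos_of_pos hk0 _) E hE hET
    (fun t ht => x5_low A k hk0 u f t (fun i => hlow i t ht))
  have hT : Real.log (k ^ τ) = τ * Real.log k := Real.log_rpow hk0 _
  have h3 := x5_H b hb r (#A) hA (Real.log k) (Real.log (2 ^ #A * k ^ (∑ i ∈ A, x i)))
    (Real.log (k ^ τ)) hl hL0 hL (by rw [hT]; positivity) (by rw [hT]; nlinarith)
  have hD0 := x5_one_le b hb r (Real.log k) hl
  set X := ∑ i ∈ A, x i
  set U := ∑ i ∈ A, u i
  set H := (((Real.log k) ^ b) ^ #A) ^ 2 * (1 + Real.log (2 ^ #A * k ^ X)) ^ (#A ^ 2 + 2) *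
    (1 + Real.log (k ^ τ)) with hH
  set v := volume.real E
  set D := x5D b r (Real.log k)
  have hH0 : 0 ≤ H := by
    rw [hH]
    have : 0 ≤ Real.log (k ^ τ) := by rw [hT]; positivity
    positivity
  have hp : 0 < k ^ U := Real.rpow_pos_of_pos hk0 _
  have hq : 0 < k ^ X := Real.rpow_pos_of_pos hk0 _
  have hw : 0 < k ^ τ := Real.rpow_pos_of_pos hk0 _
  have e1 : k ^ (2 * U) = (k ^ U) ^ 2 := by
    rw [mul_comm, Real.rpow_mul hk0.le]
    norm_num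
  have e6 : k ^ (6 * U) = (k ^ U) ^ 6 := by
    rw [mul_comm, Real.rpow_mul hk0.le]
    norm_num
  have e7 : k ^ (2 * X) = (k ^ X) ^ 2 := by
    rw [mul_comm, Real.rpow_mul hk0.le]
    norm_num
  have e2 : k ^ (τ - 2 * X + 6 * U) = k ^ τ / (k ^ X) ^ 2 * (k ^ U) ^ 6 := by
    rw [Real.rpow_add hk0, Real.rpow_sub hk0, e6, e7]
  rw [Real.rpow_neg hk0.le] at h1
  rw [e1, e2]
  have h5 : H ≤ D ^ 3 := h3.trans (le_self_pow₀ hD0 (by norm_num))
  have h6 : H ^ 3 ≤ D ^ 3 := pow_le_pow_left₀ hH0 h3 3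
  calc v ≤ C * (H / ((k ^ U)⁻¹) ^ 2 + H ^ 3 * k ^ τ / ((k ^ X) ^ 2 * ((k ^ U)⁻¹) ^ 6)) := h1
    _ = C * (H * (k ^ U) ^ 2 + H ^ 3 * (k ^ τ / (k ^ X) ^ 2 * (k ^ U) ^ 6)) := by
        field_simp
    _ ≤ C * (D ^ 3 * (k ^ U) ^ 2 + D ^ 3 * (k ^ τ / (k ^ X) ^ 2 * (k ^ U) ^ 6)) := by
        apply mul_le_mul_of_nonneg_left _ hC.le
        exact add_le_add (mul_le_mul_of_nonneg_right h5 (by positivity))
          (mul_le_mul_of_nonneg_right h6 (by positivity))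
    _ = C * D ^ 3 * ((k ^ U) ^ 2 + k ^ τ / (k ^ X) ^ 2 * (k ^ U) ^ 6) := by ring

theorem levelE (β θ b : ℝ) (r : ℕ) (hβ : 0 < β) (hθ : 0 < θ) (hβ2 : β ≤ 9 / 11 - 20 * θ)
    (hb : 0 ≤ b) :
    ∃ C k0 : ℝ, ∀ k : ℝ, k0 ≤ k → ∀ (ι : Type) [Fintype ι] [DecidableEq ι] (x u : ι → ℝ)
      (f : ι → ℝ → ℂ), Fintype.card ι ≤ r → (∀ i, 0 ≤ x i) → (∀ i, 0 ≤ u i) →
      (∀ i, IsDP 1 ((Real.log k) ^ b) (k ^ x i) (2 * k ^ x i) (f i)) →
      |∑ i, x i - (1 + β)| ≤ θ / 4 →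
      (∀ I : Finset ι, ∑ i ∈ I, x i < β + θ ∨ 1 - θ < ∑ i ∈ I, x i) →
      (∀ i j : ι, ∑ a ∈ {i, j}, x a < β + θ) →
      ∀ E : Set ℝ, MeasurableSet E → E ⊆ Set.Icc (-k ^ (β + θ / 2)) (k ^ (β + θ / 2)) →
      (∀ i, ∀ t ∈ E, k ^ (-u i) ≤ ‖f i t‖) →
      volume.real E ≤ (Real.log k) ^ C * k ^ (∑ i, u i) := by
  obtain ⟨C1, hC1, hM⟩ := x5_M
  obtain ⟨C2, hC2, hH⟩ := x5_Hux
  refine ⟨3 * (2 * b * r + ((r : ℝ) ^ 2 + 3)) + 1,
    max (Real.exp (max 1 (2 * (C1 + C2) * (2 * 4 ^ (r ^ 2 + 2)) ^ 3))) (2 ^ r), ?_⟩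
  intro k hk ι _ _ x u f hcard hx hu hdp hS hlh hp E hE hET hlow
  have hk2 : (2 : ℝ) ^ r ≤ k := le_trans (le_max_right _ _) hk
  have hl : max 1 (2 * (C1 + C2) * (2 * 4 ^ (r ^ 2 + 2)) ^ 3) ≤ Real.log k := by
    rw [← Real.log_exp (max 1 (2 * (C1 + C2) * (2 * 4 ^ (r ^ 2 + 2)) ^ 3))]
    exact Real.log_le_log (Real.exp_pos _) (le_trans (le_max_left _ _) hk)
  have hl1 : 1 ≤ Real.log k := le_trans (le_max_left _ _) hl
  have hlK : 2 * (C1 + C2) * (2 * 4 ^ (r ^ 2 + 2)) ^ 3 ≤ Real.log k := le_trans (le_max_right _ _) hl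
  have hl0 : 0 < Real.log k := by linarith
  have hk0 : 0 < k := lt_of_lt_of_le (by positivity) hk2
  have hk1 : 1 < k := (Real.log_pos_iff hk0.le).1 hl0
  by_contra hcon
  push Not at hcon
  have hx5 := x5_one_le b hb r (Real.log k) hl1
  -- the constant
  have hD : 2 * ((C1 + C2) * (x5D b r (Real.log k)) ^ 3) ≤
      (Real.log k) ^ (3 * (2 * b * r + ((r : ℝ) ^ 2 + 3)) + 1) := by
    have e1 : (Real.log k) ^ (3 * (2 * b * r + ((r : ℝ) ^ 2 + 3)) + 1) =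
        Real.log k * ((Real.log k) ^ (2 * b * r + ((r : ℝ) ^ 2 + 3))) ^ 3 := by
      rw [Real.rpow_add hl0, Real.rpow_one, mul_comm 3 (2 * b * r + ((r : ℝ) ^ 2 + 3)),
        Real.rpow_mul hl0.le]
      norm_num
      ring
    rw [e1]
    unfold x5D
    calc 2 * ((C1 + C2) * (2 * 4 ^ (r ^ 2 + 2) *
          Real.log k ^ (2 * b * r + ((r : ℝ) ^ 2 + 3))) ^ 3) =
          (2 * (C1 + C2) * (2 * 4 ^ (r ^ 2 + 2)) ^ 3) *
            (Real.log k ^ (2 * b * r + ((r : ℝ) ^ 2 + 3))) ^ 3 := by ring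
      _ ≤ _ := mul_le_mul_of_nonneg_right hlK (by positivity)
  set D := (C1 + C2) * (x5D b r (Real.log k)) ^ 3 with hDdef
  have hD0 : 0 < D := by positivity
  set v := volume.real E with hv
  set U := ∑ i, u i with hU
  have hUp : 0 < k ^ U := Real.rpow_pos_of_pos hk0 _
  have hv2 : 2 * D * k ^ U < v := lt_of_le_of_lt (mul_le_mul_of_nonneg_right hD hUp.le) hcon
  have hS1 := (abs_le.1 hS).1
  have hS2 := (abs_le.1 hS).2
  have hτ0 : 0 ≤ β + θ / 2 := by linarith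
  have hτ1 : β + θ / 2 ≤ 1 := by linarith
  have hxA : ∀ A : Finset ι, ∑ i ∈ A, x i ≤ 2 := by
    intro A
    have := Finset.sum_le_univ_sum_of_nonneg (s := A) hx
    linarith
  have hcA : ∀ A : Finset ι, #A ≤ r := fun A => le_trans (Finset.card_le_univ A) hcard
  have hMA : ∀ A : Finset ι, v ≤ D * (k ^ (β + θ / 2 - ∑ i ∈ A, x i + 2 * ∑ i ∈ A, u i) +
      k ^ (2 * ∑ i ∈ A, u i)) := by
    intro A
    refine (hM b r k (β + θ / 2) ι A x u f E hb hl1 hτ0 (hcA A) hx hk2 (hxA A) hdp hE hET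
      hlow).trans ?_
    refine mul_le_mul_of_nonneg_right ?_ (by positivity)
    rw [hDdef]
    have h1 : x5D b r (Real.log k) ≤ (x5D b r (Real.log k)) ^ 3 := le_self_pow₀ hx5 (by norm_num)
    nlinarith
  have hHA : ∀ A : Finset ι, v ≤ D * (k ^ (2 * ∑ i ∈ A, u i) +
      k ^ (β + θ / 2 - 2 * ∑ i ∈ A, x i + 6 * ∑ i ∈ A, u i)) := by
    intro A
    refine (hH b r k (β + θ / 2) ι A x u f E hb hl1 hτ0 hτ1 (hcA A) hx hk2 (hxA A) hdp hE hET
      hlow).trans ?_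
    refine mul_le_mul_of_nonneg_right ?_ (by positivity)
    rw [hDdef]
    have : 0 < (x5D b r (Real.log k)) ^ 3 := by positivity
    nlinarith
  have hkey : ∀ A : Finset ι, ∑ i ∈ A, x i < β + θ → 2 * D * k ^ (2 * ∑ i ∈ A, u i) < v := by
    intro A hA
    by_contra hc
    push Not at hc
    have ex := Finset.sum_add_sum_compl A x
    have eu := Finset.sum_add_sum_compl A u
    have hheavy : 1 - θ < ∑ i ∈ Aᶜ, x i := by
      rcases hlh Aᶜ with h | h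
      · exfalso
        linarith
      · exact h
    have h1 := hMA Aᶜ
    have h2 : k ^ (β + θ / 2 - ∑ i ∈ Aᶜ, x i + 2 * ∑ i ∈ Aᶜ, u i) ≤ k ^ (2 * ∑ i ∈ Aᶜ, u i) :=
      Real.rpow_le_rpow_of_exponent_le hk1.le (by linarith)
    have h3 : v ≤ 2 * D * k ^ (2 * ∑ i ∈ Aᶜ, u i) := by
      calc v ≤ _ := h1
        _ ≤ D * (k ^ (2 * ∑ i ∈ Aᶜ, u i) + k ^ (2 * ∑ i ∈ Aᶜ, u i)) :=
            mul_le_mul_of_nonneg_left (by linarith) hD0.le
        _ = _ := by ring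
    have hv0 : 0 ≤ v := measureReal_nonneg
    have h4 : v * v ≤ (2 * D * k ^ (2 * ∑ i ∈ A, u i)) * (2 * D * k ^ (2 * ∑ i ∈ Aᶜ, u i)) :=
      mul_le_mul hc h3 hv0 (by positivity)
    have h5 : (2 * D * k ^ (2 * ∑ i ∈ A, u i)) * (2 * D * k ^ (2 * ∑ i ∈ Aᶜ, u i)) =
        (2 * D * k ^ U) * (2 * D * k ^ U) := by
      have e1 : k ^ (2 * ∑ i ∈ A, u i) * k ^ (2 * ∑ i ∈ Aᶜ, u i) = k ^ U * k ^ U := by
        rw [← Real.rpow_add hk0, ← Real.rpow_add hk0]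
        congr 1
        rw [hU, ← eu]
        ring
      calc _ = 4 * D ^ 2 * (k ^ (2 * ∑ i ∈ A, u i) * k ^ (2 * ∑ i ∈ Aᶜ, u i)) := by ring
        _ = _ := by rw [e1]; ring
    rw [h5] at h4
    have h6 : (2 * D * k ^ U) * (2 * D * k ^ U) < v * v :=
      mul_self_lt_mul_self (by positivity) hv2
    linarith
  refine final_ineq x hx β θ 0 hβ hθ hθ.le hβ2 hS hlh hp u hu ?_ ?_
  · intro A hA
    have h1 := hkey A hA
    have h2 := hMA A
    have h3 : 2 * D * k ^ U < 2 * D * k ^ (β + θ / 2 - ∑ i ∈ A, x i + 2 * ∑ i ∈ A, u i) := by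
      linarith
    have h4 := lt_of_mul_lt_mul_left h3 (by positivity)
    rw [Real.rpow_lt_rpow_left_iff hk1] at h4
    linarith
  · intro A hA
    have h1 := hkey A hA
    have h2 := hHA A
    have h3 : 2 * D * k ^ U < 2 * D * k ^ (β + θ / 2 - 2 * ∑ i ∈ A, x i + 6 * ∑ i ∈ A, u i) := by
      linarith
    have h4 := lt_of_mul_lt_mul_left h3 (by positivity)
    rw [Real.rpow_lt_rpow_left_iff hk1] at h4
    linarith

end Pool.Agent.Lib.MP_9a8698_nt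
end
end
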