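import Mathlib
import Pool.Agent.Lib.MP_9a8698_nt.X5
import Pool.Agent.Lib.MP_9a8698_nt.S3

section

/-!
R0b. First properties of `fw`, `SG`, `DD`.

PROOF. `fw_norm`: the exponential has norm 1 and `lg > 0`. For `y > 0`: `(log y)^2/2 ≥ 2 log y - 2` (a square), so
`lg y ≤ min(1, e^2 y^(-2))`. Hence `∑' n, ‖fw X t n‖ ≤ ∑_{1 ≤ n ≤ X} 1 + e^2 X^2 ∑_{n > X} n^(-2) ≤ C X` for `X ≥ 1`, and summability
for every `X > 0`. `SG_norm_le` from `norm_tsum_le_tsum_norm`. `SG_continuous`: `continuous_tsum` with the bound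
`‖fw X t n‖ = ‖fw X 0 n‖` (independent of `t`). `DD_continuous`: `fun_prop`. `DD_norm_le`: every term has norm at most 1.
`fw_continuous`: for `x > 0` clear; at `x = 0`: `lg (x/X) ≤ e^2 (x/X)^2`-type bound: for `y > 0`, `(log y)^2/2 ≥ -2 log y - 2`, so
`lg y ≤ e^2 y^2`, hence `‖fw X t x‖ ≤ e^2 (x/X)^2` for all `x` (both sides are nonnegative, for `x ≤ 0` the left side is 0).
`fw_decay`: the bound `lg y ≤ e^2 y^(-2)`.
-/

set_option autoImplicit false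

open Finset MeasureTheory

namespace Pool.Agent.Lib.MP_9a8698_nt

theorem fw_norm (X t x : ℝ) : ‖fw X t x‖ = if 0 < x then lg (x / X) else 0 := by
  unfold fw
  split_ifs with h
  · rw [norm_mul, Complex.norm_exp_ofReal_mul_I, mul_one, Complex.norm_real, Real.norm_eq_abs,
      abs_of_nonneg]
    unfold lg
    exact (Real.exp_pos _).le
  · exact norm_zero

theorem lg_le_one (x : ℝ) : lg x ≤ 1 := by
  unfold lg
  rw [Real.exp_le_one_iff]
  have : 0 ≤ (Real.log x) ^ 2 / 2 := by positivity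
  linarith

theorem lg_pos (x : ℝ) : 0 < lg x := by
  unfold lg
  exact Real.exp_pos _

theorem lg_le_inv_sq {x : ℝ} (hx : 0 < x) : lg x ≤ Real.exp 2 * (1 / x) ^ 2 := by
  have h1 : (1 / x) ^ 2 = Real.exp (-(2 * Real.log x)) := by
    rw [Real.exp_neg, mul_comm, Real.exp_mul, Real.exp_log hx]
    norm_num
  rw [h1, ← Real.exp_add]
  unfold lg
  rw [Real.exp_le_exp]
  nlinarith [sq_nonneg (Real.log x - 2)]

theorem lg_le_sq {x : ℝ} (hx : 0 < x) : lg x ≤ Real.exp 2 * x ^ 2 := by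
  have h1 : x ^ 2 = Real.exp (2 * Real.log x) := by
    rw [mul_comm, Real.exp_mul, Real.exp_log hx]
    norm_num
  rw [h1, ← Real.exp_add]
  unfold lg
  rw [Real.exp_le_exp]
  nlinarith [sq_nonneg (Real.log x + 2)]

private lemma R0b_norm_nonneg_bound (X t x : ℝ) : ‖fw X t x‖ ≤ 1 := by
  rw [fw_norm]
  split_ifs
  · exact lg_le_one _
  · exact zero_le_one

private lemma R0b_small {X : ℝ} (hX : 0 < X) (t x : ℝ) :
    ‖fw X t x‖ ≤ Real.exp 2 * (x / X) ^ 2 := by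
  rw [fw_norm]
  split_ifs with h
  · exact lg_le_sq (div_pos h hX)
  · positivity

theorem fw_decay {X : ℝ} (hX : 0 < X) (t : ℝ) {x : ℝ} (hx : x ≠ 0) :
    ‖fw X t x‖ ≤ Real.exp 2 * (X / x) ^ 2 := by
  rw [fw_norm]
  split_ifs with h
  · have h1 := lg_le_inv_sq (div_pos h hX)
    rwa [one_div_div] at h1
  · positivity

theorem fw_continuous {X : ℝ} (hX : 0 < X) (t : ℝ) : Continuous (fw X t) := by
  rw [continuous_iff_continuousAt]
  intro x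
  rcases lt_trichotomy x 0 with hx | hx | hx
  · have : fw X t =ᶠ[nhds x] fun _ => (0 : ℂ) := by
      filter_upwards [Iio_mem_nhds hx] with y hy
      unfold fw
      rw [if_neg (not_lt.2 (le_of_lt hy))]
    exact (continuousAt_const).congr this.symm
  · subst hx
    have h0 : fw X t 0 = 0 := by
      unfold fw
      rw [if_neg (lt_irrefl _)]
    unfold ContinuousAt
    rw [h0]
    apply squeeze_zero_norm (R0b_small hX t)
    have : Filter.Tendsto (fun x : ℝ => Real.exp 2 * (x / X) ^ 2) (nhds 0)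
        (nhds (Real.exp 2 * ((0 : ℝ) / X) ^ 2)) := by
      apply Continuous.tendsto
      fun_prop
    simpa using this
  · have : fw X t =ᶠ[nhds x] fun y => ((Real.exp (-((Real.log (y / X)) ^ 2 / 2)) : ℝ) : ℂ) *
        Complex.exp (((-(t * Real.log y) : ℝ) : ℂ) * Complex.I) := by
      filter_upwards [Ioi_mem_nhds hx] with y hy
      unfold fw lg
      rw [if_pos (show (0 : ℝ) < y from hy)]
    refine ContinuousAt.congr ?_ this.symm
    have h1 : ContinuousAt (fun y : ℝ => Real.log (y / X)) x :=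
      ContinuousAt.log (by fun_prop) (div_pos hx hX).ne'
    have h2 : ContinuousAt (fun y : ℝ => Real.log y) x := Real.continuousAt_log hx.ne'
    apply ContinuousAt.mul
    · exact Complex.continuous_ofReal.continuousAt.comp
        (Real.continuous_exp.continuousAt.comp ((h1.pow 2).div_const 2).neg)
    · exact Complex.continuous_exp.continuousAt.comp
        ((Complex.continuous_ofReal.continuousAt.comp ((h2.const_mul t).neg)).mul
          continuousAt_const)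

private lemma R0b_dom {X : ℝ} (hX : 0 < X) (t x : ℝ) :
    ‖fw X t x‖ ≤ (1 + Real.exp 2 * X ^ 2) * (1 + x ^ 2)⁻¹ := by
  have h1 := R0b_norm_nonneg_bound X t x
  have h2 : ‖fw X t x‖ * x ^ 2 ≤ Real.exp 2 * X ^ 2 := by
    by_cases hx : x = 0
    · rw [hx]
      have : 0 ≤ Real.exp 2 * X ^ 2 := by positivity
      simpa using this
    · have h3 := fw_decay hX t hx
      have h4 : 0 < x ^ 2 := by positivity
      calc ‖fw X t x‖ * x ^ 2 ≤ Real.exp 2 * (X / x) ^ 2 * x ^ 2 :=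
            mul_le_mul_of_nonneg_right h3 h4.le
        _ = Real.exp 2 * X ^ 2 := by
            field_simp
  have h5 : (0 : ℝ) < 1 + x ^ 2 := by positivity
  rw [← div_eq_mul_inv, le_div_iff₀ h5]
  linarith

theorem fw_integrable {X : ℝ} (hX : 0 < X) (t : ℝ) : Integrable (fw X t) := by
  refine Integrable.mono' (integrable_inv_one_add_sq.const_mul (1 + Real.exp 2 * X ^ 2))
    (fw_continuous hX t).aestronglyMeasurable ?_
  filter_upwards with x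
  exact R0b_dom hX t x

private lemma R0b_nat {X : ℝ} (hX : 0 < X) (t : ℝ) (n : ℕ) :
    ‖fw X t n‖ ≤ Real.exp 2 * X ^ 2 * (1 / (n : ℝ) ^ 2) := by
  by_cases hn : n = 0
  · subst hn
    rw [fw_norm]
    simp
  · have h := fw_decay hX t (x := (n : ℝ)) (by exact_mod_cast hn)
    have e : Real.exp 2 * (X / (n : ℝ)) ^ 2 = Real.exp 2 * X ^ 2 * (1 / (n : ℝ) ^ 2) := by
      rw [div_pow]
      ring
    rwa [e] at h

theorem fw_summable {X : ℝ} (hX : 0 < X) (t : ℝ) : Summable (fun n : ℕ => ‖fw X t n‖) := by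
  refine Summable.of_nonneg_of_le (fun n => norm_nonneg _) (R0b_nat hX t) ?_
  exact (Real.summable_one_div_nat_pow.2 one_lt_two).mul_left _

private lemma R0b_part {X : ℝ} (hX : 0 < X) (t : ℝ) (N : ℕ) (hN : 1 ≤ N) (K : ℕ) :
    ∑ n ∈ range K, ‖fw X t n‖ ≤ (N + 1 : ℝ) + Real.exp 2 * X ^ 2 * (1 / (N : ℝ)) := by
  have hpos : 0 ≤ Real.exp 2 * X ^ 2 * (1 / (N : ℝ)) := by positivity
  have hsmall : ∀ K : ℕ, ∑ n ∈ range K, ‖fw X t n‖ ≤ K := by
    intro K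
    have h1 : ∑ n ∈ range K, ‖fw X t n‖ ≤ ∑ n ∈ range K, (1 : ℝ) :=
      Finset.sum_le_sum fun n _ => R0b_norm_nonneg_bound X t n
    simpa using h1
  have hNR : (1 : ℝ) ≤ N := by exact_mod_cast hN
  rcases le_total K (N + 1) with hK | hK
  · have h1 : (K : ℝ) ≤ N + 1 := by exact_mod_cast hK
    linarith [hsmall K]
  · have key : ∀ j : ℕ, ∑ n ∈ range (N + 1 + j), ‖fw X t n‖ ≤
        (N + 1 : ℝ) + Real.exp 2 * X ^ 2 * (1 / (N : ℝ) - 1 / ((N : ℝ) + j)) := by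
      intro j
      induction j with
      | zero =>
        have := hsmall (N + 1)
        push_cast at this
        simpa using this
      | succ j ih =>
        rw [← Nat.add_assoc, Finset.sum_range_succ]
        have h2 := R0b_nat hX t (N + 1 + j)
        have hNj : (0 : ℝ) < (N : ℝ) + j := by positivity
        have h3 : 1 / (((N + 1 + j : ℕ) : ℝ)) ^ 2 ≤ 1 / ((N : ℝ) + j) - 1 / ((N : ℝ) + (j + 1)) := by
          have e1 : 1 / ((N : ℝ) + j) - 1 / ((N : ℝ) + (j + 1)) =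
              1 / (((N : ℝ) + j) * ((N : ℝ) + (j + 1))) := by
            field_simp
            ring
          rw [e1]
          apply one_div_le_one_div_of_le (by positivity)
          push_cast
          nlinarith
        have h4 : 0 ≤ Real.exp 2 * X ^ 2 := by positivity
        have h5 := mul_le_mul_of_nonneg_left h3 h4
        push_cast at h2 h5 ih ⊢
        nlinarith
    obtain ⟨j, rfl⟩ := Nat.exists_eq_add_of_le hK
    have h1 := key j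
    have h2 : 0 ≤ 1 / ((N : ℝ) + j) := by positivity
    have h3 : 0 ≤ Real.exp 2 * X ^ 2 := by positivity
    nlinarith [mul_nonneg h3 h2]

theorem fw_sum_le : ∃ C : ℝ, 0 < C ∧ ∀ X t : ℝ, 1 ≤ X → ∑' n : ℕ, ‖fw X t n‖ ≤ C * X := by
  refine ⟨3 + Real.exp 2, by positivity, ?_⟩
  intro X t hX1
  have hX : 0 < X := by linarith
  apply Real.tsum_le_of_sum_range_le (fun n => norm_nonneg _)
  intro K
  set N := ⌈X⌉₊ with hN
  have h1 : X ≤ N := Nat.le_ceil X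
  have h2 : (N : ℝ) < X + 1 := Nat.ceil_lt_add_one hX.le
  have h3 : 1 ≤ N := by
    have : (0 : ℝ) < N := by linarith
    exact_mod_cast this
  have h4 := R0b_part hX t N h3 K
  have h5 : X ^ 2 * (1 / (N : ℝ)) ≤ X := by
    have hNpos : (0 : ℝ) < N := by linarith
    rw [mul_one_div, div_le_iff₀ hNpos]
    nlinarith
  have h6 := mul_le_mul_of_nonneg_left h5 (Real.exp_pos 2).le
  nlinarith

theorem SG_norm_le : ∃ C : ℝ, 0 < C ∧ ∀ X t : ℝ, 1 ≤ X → ‖SG X t‖ ≤ C * X := by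
  obtain ⟨C, hC, h⟩ := fw_sum_le
  refine ⟨C, hC, fun X t hX => ?_⟩
  unfold SG
  exact (norm_tsum_le_tsum_norm (fw_summable (by linarith) t)).trans (h X t hX)

theorem SG_continuous {X : ℝ} (hX : 0 < X) : Continuous (SG X) := by
  unfold SG
  apply continuous_tsum (u := fun n : ℕ => ‖fw X 0 n‖) _ (fw_summable hX 0)
  · intro n t
    rw [fw_norm, fw_norm]
  · intro n
    unfold fw
    split_ifs
    · fun_prop
    · exact continuous_const

theorem DD_continuous (M : ℕ) : Continuous (DD M) := by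
  unfold DD
  fun_prop

theorem DD_norm_le (M : ℕ) (u : ℝ) : ‖DD M u‖ ≤ M := by
  unfold DD
  refine (norm_sum_le _ _).trans ?_
  have : ∑ m ∈ Icc 1 M, ‖(((m : ℝ) ^ (-(1 / 2 : ℝ)) : ℝ) : ℂ) *
      Complex.exp (((u * Real.log m : ℝ) : ℂ) * Complex.I)‖ ≤ ∑ m ∈ Icc 1 M, (1 : ℝ) := by
    apply Finset.sum_le_sum
    intro m hm
    rw [Finset.mem_Icc] at hm
    have hm1 : (1 : ℝ) ≤ m := by exact_mod_cast hm.1
    rw [norm_mul, Complex.norm_exp_ofReal_mul_I, mul_one, Complex.norm_real, Real.norm_eq_abs,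
      abs_of_nonneg (by positivity)]
    exact Real.rpow_le_one_of_one_le_of_nonpos hm1 (by norm_num)
  refine this.trans ?_
  simp

end Pool.Agent.Lib.MP_9a8698_nt
end

section

section

/-!
S2. The combinatorial lemma for the exponents, and the numerical inequality.

PROOF of `comb`. Suppose no subset has its sum in the window `[β+θ, 1-θ]`. Put `w = 1-β-2θ` (the length of the window);
`w > 1/4`, `3w ≥ β + θ`, because `β ≤ 3/4 - 20θ`. Let `i0` be an index with `x i0` maximal.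
(a) `x i0 ≥ w`: otherwise all `x i < w`; adding the `x i` one by one (induction over finsets) the partial sums go from `0` to
the total `≥ 1+β-θ/4 > 1-θ` in steps `< w`, so one of them is in the window.
(b) If `x i0 > 1-θ`: `I = univ \ {i0}`; its sum is at most `(1+β+θ/4) - (1-θ) ≤ β+2θ`, the other part is empty.
(c) Otherwise `x i0 < β+θ` (the singleton is not in the window), so `x i < β+θ` for all `i`. Among the subsets `I` of
`univ \ {i0}` with sum `< β+θ` choose one with maximal sum, and let `J` be its complement in `univ \ {i0}`. For every `j ∈ J`: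
`sum I + x j ≥ β+θ` by maximality (or `x j = 0`; choose `I` of maximal cardinality among those of maximal sum, then even
`x j = 0` is impossible, since `I ∪ {j}` would have the same sum), hence `sum I + x j > 1-θ`, hence `x j > w`.
Claim `sum J < β+θ`, which finishes. `#J = 0`: clear (`β + θ > 0`). `#J = 1`: `x j ≤ x i0 < β+θ`.
`#J = 2`, `J = {j, l}`: if `x j + x l ≥ β+θ` then `x j + x l > 1-θ`, so `x i0 + x l ≥ x j + x l > 1-θ`, and the total is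
`≥ (sum I + x j) + (x i0 + x l) > 2 - 2θ > 1+β+θ/4`, contradiction. `#J ≥ 3`, `j, l, m ∈ J` distinct: `x j + x l + x m > 3w ≥ β+θ`, so
`> 1-θ`; then `x i0 + x l + x m > 1-θ` too, and the total is `≥ (sum I + x j) + (x i0 + x l + x m) > 2-2θ`, contradiction.

PROOF of `numeric`. Four cases for the two maxima (everything is linear; `t = β + θ/2`):
both positive: `t/6 + t - (x+u+v)/2 ≤ (7/6)t - (1+β-θ/4)/2 ≤ -θ`; only the first: `(2/3)t - (x+u)/2` and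
`x + u = S - v ≥ 1+β-θ/4-β-2θ`; none: `t/6 - x/2`; use `β ≤ 3/4-20θ`.
-/

set_option autoImplicit false

open Finset

namespace Pool.Agent.Lib.MP_9a8698_nt

theorem comb {ι : Type} [Fintype ι] [DecidableEq ι] (x : ι → ℝ) (hx : ∀ i, 0 ≤ x i) (β θ : ℝ)
    (hθ : 0 < θ) (hβ : 0 < β) (hβ2 : β ≤ 3 / 4 - 20 * θ) (hS : |∑ i, x i - (1 + β)| ≤ θ / 4) :
    (∃ I : Finset ι, β + θ ≤ ∑ i ∈ I, x i ∧ ∑ i ∈ I, x i ≤ 1 - θ) ∨
    ∃ i0 : ι, 1 - β - 2 * θ ≤ x i0 ∧ ∃ I : Finset ι, i0 ∉ I ∧ ∑ i ∈ I, x i ≤ β + 2 * θ ∧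
      ∑ i ∈ (insert i0 I)ᶜ, x i ≤ β + 2 * θ := by
  rw [abs_le] at hS
  obtain ⟨hS1, hS2⟩ := hS
  by_cases hex : ∃ I : Finset ι, β + θ ≤ ∑ i ∈ I, x i ∧ ∑ i ∈ I, x i ≤ 1 - θ
  · exact Or.inl hex
  right
  have hno : ∀ I : Finset ι, β + θ ≤ ∑ i ∈ I, x i → 1 - θ < ∑ i ∈ I, x i := by
    intro I h
    by_contra h2
    exact hex ⟨I, h, not_lt.1 h2⟩
  have hne : (univ : Finset ι).Nonempty := by
    rw [Finset.nonempty_iff_ne_empty]
    intro h
    rw [h, Finset.sum_empty] at hS1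
    linarith
  obtain ⟨i0, -, hmax⟩ := Finset.exists_max_image univ x hne
  have ha : 1 - β - 2 * θ ≤ x i0 := by
    by_contra h
    rw [not_le] at h
    have hall : ∀ I : Finset ι, ∑ i ∈ I, x i < β + θ := by
      intro I
      induction I using Finset.induction_on with
      | empty => rw [Finset.sum_empty]; linarith
      | insert a I haI ih =>
        by_contra h2
        rw [not_lt] at h2
        have h3 := hno _ h2
        rw [Finset.sum_insert haI] at h3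
        have h4 := hmax a (Finset.mem_univ a)
        linarith
    have := hall univ
    linarith
  by_cases hb : 1 - θ < x i0
  · refine ⟨i0, ha, univ.erase i0, Finset.notMem_erase _ _, ?_, ?_⟩
    · have h1 := Finset.add_sum_erase univ x (Finset.mem_univ i0)
      linarith
    · rw [Finset.insert_erase (Finset.mem_univ i0), Finset.compl_univ, Finset.sum_empty]
      linarith
  · have hi0 : x i0 < β + θ := by
      by_contra h
      rw [not_lt] at h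
      have := hno {i0} (by rw [Finset.sum_singleton]; exact h)
      rw [Finset.sum_singleton] at this
      exact hb this
    obtain ⟨I, hI, hImax⟩ := Finset.exists_max_image
      ((univ.erase i0).powerset.filter (fun I => ∑ i ∈ I, x i < β + θ)) Finset.card
      ⟨∅, by
        rw [Finset.mem_filter]
        refine ⟨Finset.empty_mem_powerset _, ?_⟩
        rw [Finset.sum_empty]
        linarith⟩
    rw [Finset.mem_filter, Finset.mem_powerset] at hI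
    obtain ⟨hI1, hI2⟩ := hI
    have hi0I : i0 ∉ I := fun h => Finset.notMem_erase i0 univ (hI1 h)
    refine ⟨i0, ha, I, hi0I, by linarith, ?_⟩
    by_contra hJ
    rw [not_le] at hJ
    have hJ2 := hno (insert i0 I)ᶜ (by linarith)
    obtain ⟨j, hj⟩ : (insert i0 I)ᶜ.Nonempty := by
      rw [Finset.nonempty_iff_ne_empty]
      intro h
      rw [h, Finset.sum_empty] at hJ
      linarith
    have hj' : j ≠ i0 ∧ j ∉ I := by
      rw [Finset.mem_compl, Finset.mem_insert, not_or] at hj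
      exact hj
    have h1 : 1 - θ < x j + ∑ i ∈ I, x i := by
      rw [← Finset.sum_insert hj'.2]
      apply hno
      by_contra h
      rw [not_le] at h
      have h2 := hImax (insert j I) (by
        rw [Finset.mem_filter, Finset.mem_powerset]
        refine ⟨?_, h⟩
        intro a haa
        rcases Finset.mem_insert.1 haa with rfl | haa
        · exact Finset.mem_erase.2 ⟨hj'.1, Finset.mem_univ _⟩
        · exact hI1 haa)
      rw [Finset.card_insert_of_notMem hj'.2] at h2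
      omega
    have h2 : ∑ i, x i = x i0 + ∑ i ∈ I, x i + ∑ i ∈ (insert i0 I)ᶜ, x i := by
      rw [← Finset.sum_insert hi0I, Finset.sum_add_sum_compl]
    have h3 := Finset.add_sum_erase (insert i0 I)ᶜ x hj
    have h4 := hmax j (Finset.mem_univ j)
    have h5 : 0 ≤ ∑ i ∈ ((insert i0 I)ᶜ).erase j, x i := Finset.sum_nonneg fun i _ => hx i
    linarith

theorem numeric (β θ x u v : ℝ) (hθ : 0 < θ) (hβ : 0 < β) (hβ2 : β ≤ 3 / 4 - 20 * θ)
    (hx : 1 - β - 2 * θ ≤ x) (hu : 0 ≤ u) (hv : 0 ≤ v) (hu2 : u ≤ β + 2 * θ)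
    (hv2 : v ≤ β + 2 * θ) (hS : 1 + β - θ / 4 ≤ x + u + v) :
    (β + θ / 2) / 6 - x / 2 + max (β + θ / 2 - u) 0 / 2 + max (β + θ / 2 - v) 0 / 2 ≤ -θ := by
  rcases le_total (β + θ / 2 - u) 0 with h1 | h1 <;>
    rcases le_total (β + θ / 2 - v) 0 with h2 | h2
  · rw [max_eq_right h1, max_eq_right h2]
    linarith
  · rw [max_eq_right h1, max_eq_left h2]
    linarith
  · rw [max_eq_left h1, max_eq_right h2]
    linarith
  · rw [max_eq_left h1, max_eq_left h2]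
    linarith

end Pool.Agent.Lib.MP_9a8698_nt
end

section

/-!
S4. Boxes with one smooth variable and two parts that are not much longer than the height
(A1-A4, S1-S3 are used).

PROOF. `T₀ = k^δ`, `T₁ = k^(β+θ/2)` (if `T₁ < T₀` the set is empty), `ℓ = log k`. By the bound for `f`,
`∫ ‖f U V‖ ≤ ℓ^b (T₁^(1/6) X^(-1/2) ∫_{Tm} ‖U‖‖V‖ + ∫_{Tm} ‖U‖‖V‖/|t|)`.
First term: Cauchy-Schwarz and `IsDP.mvt` at height `T₁`: `(∫‖U‖²∫‖V‖²)^(1/2) ≤ C ((T₁/N₁+1)(T₁/N₂+1))^(1/2) ℓ^(2b)(1+4ℓ)^(r²)`; with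
`N₁ = k^u`, `N₂ = k^v`, `X = k^x`, `T₁/N + 1 ≤ 2 k^(max(β+θ/2-u, 0))`, and `numeric` (S2) shows that the first term is at most
`2C ℓ^(3b) (1+4ℓ)^(r²) k^(-θ)`.
Second term: Cauchy-Schwarz (`‖U‖‖V‖/|t| = (‖U‖/|t|^(1/2))(‖V‖/|t|^(1/2))`) and `mvt_log`:
`≤ C (1+log T₁) ℓ^(2b) (1+4ℓ)^(r²) ((1/N₁+1/T₀)(1/N₂+1/T₀))^(1/2)`, and since `N₁ N₂ ≥ k^(η/2)`, one of `N₁, N₂` is
`≥ k^(η/4)`: the last factor is at most `2 (k^(-η/4) + k^(-δ))^(1/2)`.
So `c = min(θ, η/8, δ/2)/2` works for large `k`.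
-/

set_option autoImplicit false

open Finset MeasureTheory

namespace Pool.Agent.Lib.MP_9a8698_nt

private lemma S4_cs {S : Set ℝ} (hS : IsCompact S) {F G w : ℝ → ℝ} (hF : ContinuousOn F S)
    (hG : ContinuousOn G S) (hw : ContinuousOn w S) (hw0 : ∀ t ∈ S, 0 ≤ w t) {K a b : ℝ}
    (ha : 0 < a) (hb : 0 < b) (h1 : ∫ t in S, F t ^ 2 * w t ≤ K * a)
    (h2 : ∫ t in S, G t ^ 2 * w t ≤ K * b) :
    ∫ t in S, F t * G t * w t ≤ K * Real.sqrt (a * b) := by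
  have hFi : IntegrableOn (fun t => F t ^ 2 * w t) S :=
    ((hF.pow 2).mul hw).integrableOn_compact hS
  have hGi : IntegrableOn (fun t => G t ^ 2 * w t) S :=
    ((hG.pow 2).mul hw).integrableOn_compact hS
  have hFGi : IntegrableOn (fun t => F t * G t * w t) S :=
    ((hF.mul hG).mul hw).integrableOn_compact hS
  obtain ⟨p, hp⟩ : ∃ p : ℝ, p = Real.sqrt a := ⟨_, rfl⟩
  obtain ⟨q, hq⟩ : ∃ q : ℝ, q = Real.sqrt b := ⟨_, rfl⟩
  have hp0 : 0 < p := by rw [hp]; exact Real.sqrt_pos.2 ha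
  have hq0 : 0 < q := by rw [hq]; exact Real.sqrt_pos.2 hb
  have hpa : p ^ 2 = a := by rw [hp]; exact Real.sq_sqrt ha.le
  have hqb : q ^ 2 = b := by rw [hq]; exact Real.sq_sqrt hb.le
  have hpq : Real.sqrt (a * b) = p * q := by rw [Real.sqrt_mul ha.le, hp, hq]
  have hle : ∫ t in S, F t * G t * w t ≤
      ∫ t in S, (q / p / 2 * (F t ^ 2 * w t) + p / q / 2 * (G t ^ 2 * w t)) := by
    refine setIntegral_mono_on hFGi ((hFi.const_mul _).add (hGi.const_mul _)) hS.measurableSet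
      fun t ht => ?_
    have h3 : F t * G t ≤ q / p / 2 * F t ^ 2 + p / q / 2 * G t ^ 2 := by
      have h4 : q / p / 2 * F t ^ 2 + p / q / 2 * G t ^ 2 - F t * G t =
          (q * F t - p * G t) ^ 2 / (2 * p * q) := by
        field_simp
        ring
      have h5 : 0 ≤ (q * F t - p * G t) ^ 2 / (2 * p * q) := by positivity
      linarith
    have h6 := mul_le_mul_of_nonneg_right h3 (hw0 t ht)
    linarith
  rw [integral_add (hFi.const_mul _) (hGi.const_mul _), integral_const_mul,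
    integral_const_mul] at hle
  have h7 : q / p / 2 * ∫ t in S, F t ^ 2 * w t ≤ q / p / 2 * (K * a) :=
    mul_le_mul_of_nonneg_left h1 (by positivity)
  have h8 : p / q / 2 * ∫ t in S, G t ^ 2 * w t ≤ p / q / 2 * (K * b) :=
    mul_le_mul_of_nonneg_left h2 (by positivity)
  have h9 : q / p / 2 * (K * a) + p / q / 2 * (K * b) = K * (p * q) := by
    rw [← hpa, ← hqb]
    field_simp
    ring
  rw [hpq]
  linarith

private lemma S4_first {β θ k X N1 N2 : ℝ} (hk : 1 < k) (hβ : 0 < β) (hθ : 0 < θ)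
    (hβ2 : β ≤ 3 / 4 - 20 * θ) (hN1 : 1 ≤ N1) (hN2 : 1 ≤ N2) (hX : k ^ (1 - β - 2 * θ) ≤ X)
    (hN1k : N1 ≤ k ^ (β + 2 * θ)) (hN2k : N2 ≤ k ^ (β + 2 * θ))
    (hS : k ^ (1 + β - θ / 4) ≤ X * N1 * N2) :
    (k ^ (β + θ / 2)) ^ ((1 : ℝ) / 6) * X ^ (-((1 : ℝ) / 2)) *
      Real.sqrt ((k ^ (β + θ / 2) / N1 + 1) * (k ^ (β + θ / 2) / N2 + 1)) ≤ 2 * k ^ (-θ) := by
  have hk0 : 0 < k := by linarith
  have hX0 : 0 < X := lt_of_lt_of_le (Real.rpow_pos_of_pos hk0 _) hX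
  obtain ⟨u, rfl⟩ : ∃ u : ℝ, k ^ u = N1 :=
    ⟨Real.logb k N1, Real.rpow_logb hk0 hk.ne' (by linarith)⟩
  obtain ⟨v, rfl⟩ : ∃ v : ℝ, k ^ v = N2 :=
    ⟨Real.logb k N2, Real.rpow_logb hk0 hk.ne' (by linarith)⟩
  obtain ⟨x, rfl⟩ : ∃ x : ℝ, k ^ x = X := ⟨Real.logb k X, Real.rpow_logb hk0 hk.ne' hX0⟩
  rw [Real.rpow_le_rpow_left_iff hk] at hX hN1k hN2k
  have hu : 0 ≤ u := by
    rw [← Real.rpow_zero k, Real.rpow_le_rpow_left_iff hk] at hN1
    exact hN1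
  have hv : 0 ≤ v := by
    rw [← Real.rpow_zero k, Real.rpow_le_rpow_left_iff hk] at hN2
    exact hN2
  rw [← Real.rpow_add hk0, ← Real.rpow_add hk0, Real.rpow_le_rpow_left_iff hk] at hS
  have hnum := numeric β θ x u v hθ hβ hβ2 hX hu hv hN1k hN2k hS
  have hone : ∀ y : ℝ, k ^ (β + θ / 2) / k ^ y + 1 ≤ 2 * k ^ (max (β + θ / 2 - y) 0) := by
    intro y
    rw [← Real.rpow_sub hk0]
    have h1 : k ^ (β + θ / 2 - y) ≤ k ^ (max (β + θ / 2 - y) 0) :=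
      (Real.rpow_le_rpow_left_iff hk).2 (le_max_left _ _)
    have h2 : (1 : ℝ) ≤ k ^ (max (β + θ / 2 - y) 0) := Real.one_le_rpow hk.le (le_max_right _ _)
    linarith
  obtain ⟨m₁, hm₁⟩ : ∃ m₁ : ℝ, m₁ = max (β + θ / 2 - u) 0 := ⟨_, rfl⟩
  obtain ⟨m₂, hm₂⟩ : ∃ m₂ : ℝ, m₂ = max (β + θ / 2 - v) 0 := ⟨_, rfl⟩
  have h1 := hone u
  have h2 := hone v
  rw [← hm₁, ← hm₂] at hnum
  rw [← hm₁] at h1
  rw [← hm₂] at h2
  have h3 : Real.sqrt ((k ^ (β + θ / 2) / k ^ u + 1) * (k ^ (β + θ / 2) / k ^ v + 1)) ≤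
      2 * k ^ (m₁ / 2 + m₂ / 2) := by
    rw [Real.sqrt_le_left (by positivity)]
    have h4 : (2 * k ^ (m₁ / 2 + m₂ / 2)) ^ 2 = (2 * k ^ m₁) * (2 * k ^ m₂) := by
      have h5 : k ^ m₁ * k ^ m₂ = k ^ (m₁ / 2 + m₂ / 2) * k ^ (m₁ / 2 + m₂ / 2) := by
        rw [← Real.rpow_add hk0, ← Real.rpow_add hk0]
        congr 1
        ring
      linear_combination -4 * h5
    rw [h4]
    exact mul_le_mul h1 h2 (by positivity) (by positivity)
  have h6 : (k ^ (β + θ / 2)) ^ ((1 : ℝ) / 6) * (k ^ x) ^ (-((1 : ℝ) / 2)) =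
      k ^ ((β + θ / 2) / 6 - x / 2) := by
    rw [← Real.rpow_mul hk0.le, ← Real.rpow_mul hk0.le, ← Real.rpow_add hk0]
    congr 1
    ring
  rw [h6]
  calc k ^ ((β + θ / 2) / 6 - x / 2) *
        Real.sqrt ((k ^ (β + θ / 2) / k ^ u + 1) * (k ^ (β + θ / 2) / k ^ v + 1))
      ≤ k ^ ((β + θ / 2) / 6 - x / 2) * (2 * k ^ (m₁ / 2 + m₂ / 2)) :=
        mul_le_mul_of_nonneg_left h3 (by positivity)
    _ = 2 * k ^ ((β + θ / 2) / 6 - x / 2 + m₁ / 2 + m₂ / 2) := by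
        rw [add_assoc ((β + θ / 2) / 6 - x / 2), Real.rpow_add hk0 ((β + θ / 2) / 6 - x / 2)]
        ring
    _ ≤ 2 * k ^ (-θ) :=
        mul_le_mul_of_nonneg_left ((Real.rpow_le_rpow_left_iff hk).2 hnum) (by norm_num)

private lemma S4_second {δ η k N1 N2 : ℝ} (hk : 1 < k) (hδ : 0 < δ)
    (hN1 : 1 ≤ N1) (hN2 : 1 ≤ N2) (hN : k ^ (η / 2) ≤ N1 * N2) :
    Real.sqrt ((1 / N1 + 1 / k ^ δ) * (1 / N2 + 1 / k ^ δ)) ≤ 2 * k ^ (-(min (η / 2) δ / 2)) := by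
  have hk0 : 0 < k := by linarith
  rw [Real.sqrt_le_left (by positivity)]
  obtain ⟨T, hT⟩ : ∃ T : ℝ, T = k ^ δ := ⟨_, rfl⟩
  obtain ⟨z, hz⟩ : ∃ z : ℝ, z = k ^ (-(min (η / 2) δ)) := ⟨_, rfl⟩
  have hT1 : 1 ≤ T := by rw [hT]; exact Real.one_le_rpow hk.le hδ.le
  have h1 : (2 * k ^ (-(min (η / 2) δ / 2))) ^ 2 = 4 * z := by
    have h5 : z = k ^ (-(min (η / 2) δ / 2)) * k ^ (-(min (η / 2) δ / 2)) := by
      rw [hz, ← Real.rpow_add hk0]
      congr 1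
      ring
    rw [h5]
    ring
  have h2 : 1 / T ≤ z := by
    rw [hT, hz, one_div, ← Real.rpow_neg hk0.le]
    exact (Real.rpow_le_rpow_left_iff hk).2 (neg_le_neg (min_le_right _ _))
  have h3 : 1 / (N1 * N2) ≤ z := by
    have h4 : 1 / (N1 * N2) ≤ 1 / k ^ (η / 2) :=
      one_div_le_one_div_of_le (by positivity) hN
    refine h4.trans ?_
    rw [hz, one_div, ← Real.rpow_neg hk0.le]
    exact (Real.rpow_le_rpow_left_iff hk).2 (neg_le_neg (min_le_left _ _))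
  rw [h1, ← hT]
  have hi1 : 1 / N1 ≤ 1 := by rw [div_le_one (by linarith)]; exact hN1
  have hi2 : 1 / N2 ≤ 1 := by rw [div_le_one (by linarith)]; exact hN2
  have hi3 : 1 / T ≤ 1 := by rw [div_le_one (by linarith)]; exact hT1
  have hi0 : 0 ≤ 1 / T := by positivity
  have h6 : (1 / N1 + 1 / T) * (1 / N2 + 1 / T) =
      1 / (N1 * N2) + 1 / T * (1 / N1) + 1 / T * (1 / N2) + 1 / T * (1 / T) := by
    field_simp
    ring
  rw [h6]
  have h7 : 1 / T * (1 / N1) ≤ z := (mul_le_of_le_one_right hi0 hi1).trans h2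
  have h8 : 1 / T * (1 / N2) ≤ z := (mul_le_of_le_one_right hi0 hi2).trans h2
  have h9 : 1 / T * (1 / T) ≤ z := (mul_le_of_le_one_right hi0 hi3).trans h2
  linarith

private lemma S4_compact (k δ T : ℝ) : IsCompact (Tm k δ T) := by
  refine (isCompact_Icc (a := -(k ^ T)) (b := k ^ T)).of_isClosed_subset ?_ ?_
  · have h1 : IsClosed {t : ℝ | k ^ δ ≤ |t|} := isClosed_le continuous_const continuous_abs
    have h2 : IsClosed {t : ℝ | |t| ≤ k ^ T} := isClosed_le continuous_abs continuous_const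
    exact h1.inter h2
  · intro t ht
    exact abs_le.1 ht.2

private lemma S4_large (K m c : ℝ) (hc : 0 < c) :
    ∃ k0 : ℝ, ∀ k : ℝ, k0 ≤ k → Real.exp 1 ≤ k ∧ K * (Real.log k) ^ m ≤ k ^ c := by
  have h1 := (isLittleO_log_rpow_rpow_atTop m hc).const_mul_left K
  have h2 := h1.bound (c := 1) one_pos
  have h3 : ∀ᶠ k : ℝ in Filter.atTop, Real.exp 1 ≤ k ∧ K * (Real.log k) ^ m ≤ k ^ c := by
    filter_upwards [h2, Filter.eventually_ge_atTop (Real.exp 1)] with k hk1 hk2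
    refine ⟨hk2, ?_⟩
    have hk0 : 0 < k := (Real.exp_pos 1).trans_le hk2
    rw [one_mul, Real.norm_of_nonneg (Real.rpow_nonneg hk0.le c)] at hk1
    exact (Real.le_norm_self _).trans hk1
  exact Filter.eventually_atTop.1 h3

private lemma S4_L {ℓ b : ℝ} {r r1 : ℕ} (hℓ : 1 ≤ ℓ) (hr : r1 ≤ r) {M k : ℝ}
    (hk : ℓ = Real.log k) (hk0 : 0 < k) (hM1 : 1 ≤ M) (hM : M ≤ k ^ (4 : ℝ)) :
    (ℓ ^ b) ^ 2 * (1 + Real.log M) ^ (r1 ^ 2) ≤ (ℓ ^ b) ^ 2 * (5 * ℓ) ^ (r ^ 2) := by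
  refine mul_le_mul_of_nonneg_left ?_ (by positivity)
  have h1 : Real.log M ≤ 4 * ℓ := by
    have h2 := Real.log_le_log (by linarith) hM
    rwa [Real.log_rpow hk0, ← hk] at h2
  have h3 : 0 ≤ Real.log M := Real.log_nonneg hM1
  calc (1 + Real.log M) ^ (r1 ^ 2) ≤ (5 * ℓ) ^ (r1 ^ 2) := by
        apply pow_le_pow_left₀ (by linarith)
        linarith
    _ ≤ (5 * ℓ) ^ (r ^ 2) := pow_le_pow_right₀ (by linarith) (Nat.pow_le_pow_left hr 2)

theorem boxD (β θ δ η b : ℝ) (r : ℕ) (hβ : 0 < β) (hθ : 0 < θ) (hβ2 : β ≤ 3 / 4 - 20 * θ)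
    (hδ : 0 < δ) (hη : 0 < η) (hb : 0 ≤ b) :
    ∃ c k0 : ℝ, 0 < c ∧ ∀ k : ℝ, k0 ≤ k → ∀ (r1 r2 : ℕ) (N1 N2 M1 M2 X : ℝ) (f U V : ℝ → ℂ),
      r1 ≤ r → r2 ≤ r → Continuous f → IsDP r1 ((Real.log k) ^ b) N1 M1 U →
      IsDP r2 ((Real.log k) ^ b) N2 M2 V → 1 ≤ N1 → 1 ≤ N2 → 1 ≤ M1 → 1 ≤ M2 →
      M1 ≤ k ^ (4 : ℝ) → M2 ≤ k ^ (4 : ℝ) → k ^ (1 - β - 2 * θ) ≤ X → N1 ≤ k ^ (β + 2 * θ) →
      N2 ≤ k ^ (β + 2 * θ) → k ^ (1 + β - θ / 4) ≤ X * N1 * N2 → k ^ (η / 2) ≤ N1 * N2 →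
      (∀ t, 1 ≤ |t| → ‖f t‖ ≤
        (Real.log k) ^ b * (|t| ^ ((1 : ℝ) / 6) * X ^ (-((1 : ℝ) / 2)) + 1 / |t|)) →
      ∫ t in Tm k δ (β + θ / 2), ‖f t * (U t * V t)‖ ≤ k ^ (-c) := by
  obtain ⟨C₁, hC₁, hmvt⟩ := IsDP.mvt
  obtain ⟨C₂, hC₂, hml⟩ := mvt_log
  obtain ⟨κ, hκ⟩ : ∃ κ : ℝ, κ = min θ (min (η / 2) δ / 2) := ⟨_, rfl⟩
  have hκ0 : 0 < κ := by
    rw [hκ]
    exact lt_min hθ (half_pos (lt_min (half_pos hη) hδ))
  obtain ⟨k0, hk0⟩ := S4_large (5 ^ (r ^ 2) * (2 * C₁ + 4 * C₂)) (3 * b + (r ^ 2 : ℕ) + 1)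
    (κ / 2) (half_pos hκ0)
  refine ⟨κ / 2, k0, half_pos hκ0, ?_⟩
  intro k hk r1 r2 N1 N2 M1 M2 X f U V hr1 hr2 hf hU hV hN1 hN2 hM1 hM2 hM1k hM2k hX hN1k hN2k
    hSk hNk hfb
  obtain ⟨hke, hkK⟩ := hk0 k hk
  have hk0' : 0 < k := (Real.exp_pos 1).trans_le hke
  have hk1 : 1 < k := lt_of_lt_of_le (by
    have := Real.add_one_lt_exp (one_ne_zero' ℝ)
    linarith) hke
  obtain ⟨ℓ, hℓ⟩ : ∃ ℓ : ℝ, ℓ = Real.log k := ⟨_, rfl⟩
  have hℓ1 : 1 ≤ ℓ := by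
    rw [hℓ, Real.le_log_iff_exp_le hk0']
    exact hke
  rw [← hℓ] at hkK hU hV hfb
  obtain ⟨S, hS⟩ : ∃ S : Set ℝ, S = Tm k δ (β + θ / 2) := ⟨_, rfl⟩
  have hSc : IsCompact S := by rw [hS]; exact S4_compact _ _ _
  obtain ⟨T₁, hT₁⟩ : ∃ T₁ : ℝ, T₁ = k ^ (β + θ / 2) := ⟨_, rfl⟩
  obtain ⟨T₀, hT₀⟩ : ∃ T₀ : ℝ, T₀ = k ^ δ := ⟨_, rfl⟩
  have hSmem : ∀ t ∈ S, T₀ ≤ |t| ∧ |t| ≤ T₁ := by
    intro t ht
    rw [hS] at ht
    rw [hT₀, hT₁]
    exact ht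
  have hT₀1 : 1 ≤ T₀ := by rw [hT₀]; exact Real.one_le_rpow hk1.le hδ.le
  have hT₁1 : 1 ≤ T₁ := by rw [hT₁]; exact Real.one_le_rpow hk1.le (by linarith)
  rw [← hS]
  by_cases hT : T₀ ≤ T₁
  swap
  · have hempty : S = ∅ := by
      rw [Set.eq_empty_iff_forall_notMem]
      intro t ht
      obtain ⟨h1, h2⟩ := hSmem t ht
      exact hT (h1.trans h2)
    rw [hempty, Measure.restrict_empty, integral_zero_measure]
    positivity
  obtain ⟨L, hL⟩ : ∃ L : ℝ, L = (ℓ ^ b) ^ 2 * (5 * ℓ) ^ (r ^ 2) := ⟨_, rfl⟩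
  have hL0 : 0 ≤ L := by rw [hL]; positivity
  have hUc : Continuous U := hU.cont
  have hVc : Continuous V := hV.cont
  have hX0 : 0 < X := lt_of_lt_of_le (Real.rpow_pos_of_pos hk0' _) hX
  have hN1' : 0 < N1 := by linarith
  have hN2' : 0 < N2 := by linarith
  have hT₀' : 0 < T₀ := by linarith
  have hT₁' : 0 < T₁ := by linarith
  -- mean values
  have hsub : S ⊆ Set.Icc (-T₁) T₁ := fun t ht => abs_le.1 (hSmem t ht).2
  have hmv : ∀ {r1 : ℕ} {N M : ℝ} {U : ℝ → ℂ}, r1 ≤ r → IsDP r1 (ℓ ^ b) N M U → 1 ≤ N → 1 ≤ M →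
      M ≤ k ^ (4 : ℝ) → ∫ t in S, ‖U t‖ ^ 2 * 1 ≤ (C₁ * L) * (T₁ / N + 1) := by
    intro r1 N M U hr hU hN hM hMk
    have hUc : Continuous U := hU.cont
    have h1 : ∫ t in S, ‖U t‖ ^ 2 ≤ ∫ t in Set.Icc (-T₁) T₁, ‖U t‖ ^ 2 := by
      refine setIntegral_mono_set ?_ ?_ ?_
      · exact ((hUc.norm.pow 2).continuousOn).integrableOn_compact isCompact_Icc
      · exact Filter.Eventually.of_forall fun t => by positivity
      · exact LE.le.eventuallyLE hsub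
    have h2 := hmvt r1 (ℓ ^ b) N M T₁ U hU hT₁1 hN hM (by positivity)
    have h3 := S4_L (b := b) hℓ1 hr hℓ hk0' hM hMk
    rw [← hL] at h3
    simp_rw [mul_one]
    calc ∫ t in S, ‖U t‖ ^ 2 ≤ C₁ * (T₁ / N + 1) * ((ℓ ^ b) ^ 2 * (1 + Real.log M) ^ (r1 ^ 2)) :=
          h1.trans h2
      _ ≤ C₁ * (T₁ / N + 1) * L := mul_le_mul_of_nonneg_left h3 (by positivity)
      _ = (C₁ * L) * (T₁ / N + 1) := by ring
  have hlogT : Real.log T₁ ≤ ℓ := by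
    rw [hT₁, Real.log_rpow hk0', ← hℓ]
    have : β + θ / 2 ≤ 1 := by linarith
    nlinarith
  have hlogT0 : 0 ≤ Real.log T₁ := Real.log_nonneg hT₁1
  have hmw : ∀ {r1 : ℕ} {N M : ℝ} {U : ℝ → ℂ}, r1 ≤ r → IsDP r1 (ℓ ^ b) N M U → 1 ≤ N → 1 ≤ M →
      M ≤ k ^ (4 : ℝ) → ∫ t in S, ‖U t‖ ^ 2 * |t|⁻¹ ≤
        (C₂ * (1 + ℓ) * L) * (1 / N + 1 / T₀) := by
    intro r1 N M U hr hU hN hM hMk
    have h2 := hml r1 (ℓ ^ b) N M T₀ T₁ U hU (by positivity) hN hM hT₀1 hT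
    have hS' : {t : ℝ | T₀ ≤ |t| ∧ |t| ≤ T₁} = S := by
      rw [hS, hT₀, hT₁]
      rfl
    rw [hS'] at h2
    simp_rw [div_eq_mul_inv (‖U _‖ ^ 2)] at h2
    refine h2.trans ?_
    have h3 := S4_L (b := b) hℓ1 hr hℓ hk0' hM hMk
    rw [← hL] at h3
    have h4 : 0 ≤ Real.log M := Real.log_nonneg hM
    have h5 : 0 < 1 / N + 1 / T₀ := by positivity
    calc C₂ * (1 + Real.log T₁) * ((ℓ ^ b) ^ 2 * (1 + Real.log M) ^ (r1 ^ 2)) * (1 / N + 1 / T₀)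
        ≤ C₂ * (1 + ℓ) * L * (1 / N + 1 / T₀) := by gcongr
      _ = (C₂ * (1 + ℓ) * L) * (1 / N + 1 / T₀) := by ring
  have hpos : ∀ t ∈ S, 0 < |t| := fun t ht => hT₀'.trans_le (hSmem t ht).1
  have hinv : ContinuousOn (fun t : ℝ => |t|⁻¹) S :=
    continuous_abs.continuousOn.inv₀ fun t ht => (hpos t ht).ne'
  have hc1 := S4_cs hSc (F := fun t => ‖U t‖) (G := fun t => ‖V t‖) (w := fun _ => 1)
    hUc.norm.continuousOn hVc.norm.continuousOn continuousOn_const (fun _ _ => zero_le_one)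
    (by positivity) (by positivity) (hmv hr1 hU hN1 hM1 hM1k) (hmv hr2 hV hN2 hM2 hM2k)
  have hc2 := S4_cs hSc (F := fun t => ‖U t‖) (G := fun t => ‖V t‖) (w := fun t => |t|⁻¹)
    hUc.norm.continuousOn hVc.norm.continuousOn hinv (fun t _ => by positivity)
    (by positivity) (by positivity) (hmw hr1 hU hN1 hM1 hM1k) (hmw hr2 hV hN2 hM2 hM2k)
  have hi1 : IntegrableOn (fun t => ‖U t‖ * ‖V t‖ * 1) S :=
    ((hUc.norm.mul hVc.norm).mul continuous_const).continuousOn.integrableOn_compact hSc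
  have hi2 : IntegrableOn (fun t => ‖U t‖ * ‖V t‖ * |t|⁻¹) S :=
    ((hUc.norm.mul hVc.norm).continuousOn.mul hinv).integrableOn_compact hSc
  obtain ⟨D, hD⟩ : ∃ D : ℝ, D = T₁ ^ ((1 : ℝ) / 6) * X ^ (-((1 : ℝ) / 2)) := ⟨_, rfl⟩
  have hD0 : 0 ≤ D := by rw [hD]; positivity
  have hmain : ∫ t in S, ‖f t * (U t * V t)‖ ≤
      ∫ t in S, (ℓ ^ b * D * (‖U t‖ * ‖V t‖ * 1) + ℓ ^ b * (‖U t‖ * ‖V t‖ * |t|⁻¹)) := by
    refine setIntegral_mono_on ?_ ((hi1.const_mul _).add (hi2.const_mul _)) hSc.measurableSet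
      fun t ht => ?_
    · exact (hf.mul (hUc.mul hVc)).norm.continuousOn.integrableOn_compact hSc
    · rw [norm_mul, norm_mul]
      obtain ⟨h1, h2⟩ := hSmem t ht
      have h3 := hfb t (hT₀1.trans h1)
      have h4 : |t| ^ ((1 : ℝ) / 6) * X ^ (-((1 : ℝ) / 2)) ≤ D := by
        rw [hD]
        have h5 : |t| ^ ((1 : ℝ) / 6) ≤ T₁ ^ ((1 : ℝ) / 6) :=
          Real.rpow_le_rpow (abs_nonneg t) h2 (by norm_num)
        exact mul_le_mul_of_nonneg_right h5 (by positivity)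
      have h6 : ‖f t‖ ≤ ℓ ^ b * (D + |t|⁻¹) := by
        refine h3.trans (mul_le_mul_of_nonneg_left ?_ (by positivity))
        rw [one_div |t|]
        linarith
      calc ‖f t‖ * (‖U t‖ * ‖V t‖) ≤ ℓ ^ b * (D + |t|⁻¹) * (‖U t‖ * ‖V t‖) :=
            mul_le_mul_of_nonneg_right h6 (by positivity)
        _ = ℓ ^ b * D * (‖U t‖ * ‖V t‖ * 1) + ℓ ^ b * (‖U t‖ * ‖V t‖ * |t|⁻¹) := by ring
  rw [integral_add (hi1.const_mul _) (hi2.const_mul _), integral_const_mul,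
    integral_const_mul] at hmain
  -- the two numerical estimates
  have hfirst := S4_first hk1 hβ hθ hβ2 hN1 hN2 hX hN1k hN2k hSk
  have hsecond := S4_second hk1 hδ hN1 hN2 hNk
  rw [← hT₁, ← hD] at hfirst
  rw [← hT₀] at hsecond
  have hkθ : k ^ (-θ) ≤ k ^ (-κ) :=
    (Real.rpow_le_rpow_left_iff hk1).2 (neg_le_neg (by rw [hκ]; exact min_le_left _ _))
  have hkδ : k ^ (-(min (η / 2) δ / 2)) ≤ k ^ (-κ) :=
    (Real.rpow_le_rpow_left_iff hk1).2 (neg_le_neg (by rw [hκ]; exact min_le_right _ _))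
  obtain ⟨z, hz⟩ : ∃ z : ℝ, z = k ^ (-κ) := ⟨_, rfl⟩
  rw [← hz] at hkθ hkδ
  have hz0 : 0 < z := by rw [hz]; positivity
  have hB0 : 0 < ℓ ^ b := by positivity
  have h1 : ℓ ^ b * D * ∫ t in S, ‖U t‖ * ‖V t‖ * 1 ≤ ℓ ^ b * (C₁ * L) * (2 * z) := by
    calc ℓ ^ b * D * ∫ t in S, ‖U t‖ * ‖V t‖ * 1
        ≤ ℓ ^ b * D * (C₁ * L * Real.sqrt ((T₁ / N1 + 1) * (T₁ / N2 + 1))) :=
          mul_le_mul_of_nonneg_left hc1 (by positivity)
      _ = ℓ ^ b * (C₁ * L) * (D * Real.sqrt ((T₁ / N1 + 1) * (T₁ / N2 + 1))) := by ring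
      _ ≤ ℓ ^ b * (C₁ * L) * (2 * z) := by
          refine mul_le_mul_of_nonneg_left ?_ (by positivity)
          linarith
  have h2 : ℓ ^ b * ∫ t in S, ‖U t‖ * ‖V t‖ * |t|⁻¹ ≤
      ℓ ^ b * (C₂ * (1 + ℓ) * L) * (2 * z) := by
    calc ℓ ^ b * ∫ t in S, ‖U t‖ * ‖V t‖ * |t|⁻¹
        ≤ ℓ ^ b * (C₂ * (1 + ℓ) * L *
            Real.sqrt ((1 / N1 + 1 / T₀) * (1 / N2 + 1 / T₀))) :=
          mul_le_mul_of_nonneg_left hc2 (by positivity)
      _ = ℓ ^ b * (C₂ * (1 + ℓ) * L) *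
            Real.sqrt ((1 / N1 + 1 / T₀) * (1 / N2 + 1 / T₀)) := by ring
      _ ≤ ℓ ^ b * (C₂ * (1 + ℓ) * L) * (2 * z) := by
          refine mul_le_mul_of_nonneg_left ?_ (by positivity)
          linarith
  -- logarithms
  have h3 : ℓ ^ b * (C₁ * L) * (2 * z) + ℓ ^ b * (C₂ * (1 + ℓ) * L) * (2 * z) ≤
      (5 ^ (r ^ 2) * (2 * C₁ + 4 * C₂) * ℓ ^ (3 * b + (r ^ 2 : ℕ) + 1)) * z := by
    have h4 : ℓ ^ (3 * b + (r ^ 2 : ℕ) + 1) = ℓ ^ b * (ℓ ^ b) ^ 2 * ℓ ^ (r ^ 2) * ℓ := by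
      have hℓ0 : 0 < ℓ := by linarith
      rw [Real.rpow_add hℓ0, Real.rpow_add hℓ0, Real.rpow_one, Real.rpow_natCast,
        show (3 : ℝ) * b = b + b * 2 by ring, Real.rpow_add hℓ0, Real.rpow_mul hℓ0.le,
        show ((2 : ℝ)) = ((2 : ℕ) : ℝ) by norm_num, Real.rpow_natCast]
    have h5 : ℓ ^ b * (C₁ * L) * (2 * z) + ℓ ^ b * (C₂ * (1 + ℓ) * L) * (2 * z) =
        (ℓ ^ b * L * z) * (2 * C₁ + 2 * C₂ * (1 + ℓ)) := by ring
    have h6 : (2 * C₁ + 2 * C₂ * (1 + ℓ)) ≤ (2 * C₁ + 4 * C₂) * ℓ := by nlinarith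
    rw [h5]
    refine (mul_le_mul_of_nonneg_left h6 (by positivity)).trans (le_of_eq ?_)
    rw [h4, hL, mul_pow]
    ring
  have h7 : z = k ^ (-(κ / 2)) * k ^ (-(κ / 2)) := by
    rw [hz, ← Real.rpow_add hk0']
    congr 1
    ring
  have h8 : k ^ (κ / 2) * k ^ (-(κ / 2)) = 1 := by
    rw [← Real.rpow_add hk0', add_neg_cancel, Real.rpow_zero]
  calc ∫ t in S, ‖f t * (U t * V t)‖
      ≤ (5 ^ (r ^ 2) * (2 * C₁ + 4 * C₂) * ℓ ^ (3 * b + (r ^ 2 : ℕ) + 1)) * z := by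
        linarith
    _ ≤ k ^ (κ / 2) * z := mul_le_mul_of_nonneg_right hkK hz0.le
    _ = k ^ (-(κ / 2)) := by
        rw [h7, ← mul_assoc, h8, one_mul]

end Pool.Agent.Lib.MP_9a8698_nt
end

section

/-!
S5. The bound for one box (A1-A4, S1-S4 may be used).

PROOF. `ℓ = log k`, `x i = e i log 2 / ℓ` (so `2^(e i) = k^(x i)`, and `∑ x i` is within `θ/4` of `1+β`). Let `b' = b r + b`.
Apply `comb` (S2).
Case 1, a subset `I` with sum in `[β+θ, 1-θ]`. `U = ∏_{i ∈ I} f i`, `V = ∏_{i ∉ I} f i` (`IsDP.prod` with `N i = 2^(e i)`,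
`M i = 2^(e i+1)`; `∏_{i ∈ I} 2^(e i) = 2^(∑_I e)`; coefficients `(ℓ^b)^#I ≤ ℓ^(b')`, enlarge `B`); `N₁ = k^(sum of x over I) ≥ k^(β+θ)`,
`N₂ = 2^(∑ e)/N₁ ≥ k^(1+β-θ/4-(1-θ)) ≥ k^(β+θ/2)`, `M₁, M₂ ≤ 2^(∑ e + r) ≤ k^4` for large `k`. On `Tm`
`‖U V‖ = ∏ ‖f i‖ ≤ k^(-c) (ℓ^b (1 + log(k^3)))^r ≤ k^(-c/2)` by the hypothesis for `i0` and `IsDP.sup` for the others
(`2^(e i + 1) ≤ k^3`). Now `boxA` with `c/2`, `b'`.
Case 2: `i1` with `x i1 ≥ 1-β-2θ ≥ 1/4 + 18θ`, and `I`. Then `i1 ∈ Sm` (otherwise `x i1 ≤ 1/4`). `f = f i1`, `U = ∏_I f i`,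
`V = ∏_{(insert i1 I)ᶜ} f i`, `X = 2^(e i1)`, `X N₁ N₂ = 2^(∑ e)`. `N₁ N₂ ≥ k^(η/2)`: if `i0 ≠ i1` then `N₁ N₂ ≥ 2^(e i0)`; if
`i0 = i1` then `N₁ N₂ = 2^(∑ e)/2^(e i0) ≥ k^(1+β-θ/4-(β+θ)) ≥ k^(1/2) ≥ k^(η/2)`. `boxD` and `‖Wf‖ ≤ 1 + ℓ` (`Wf_le`) give
at most `(1+ℓ) k^(-c')`, which is at most `ℓ^(-A)` for large `k`.
-/

set_option autoImplicit false

open Finset MeasureTheory

namespace Pool.Agent.Lib.MP_9a8698_nt

private lemma s5_growth (K s : ℝ) {σ : ℝ} (hK : 0 < K) (hσ : 0 < σ) :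
    ∃ k0 : ℝ, ∀ k : ℝ, k0 ≤ k → K * Real.log k ^ s ≤ k ^ σ := by
  have h := (isLittleO_log_rpow_rpow_atTop s hσ).def (inv_pos.2 hK)
  obtain ⟨k0, hk0⟩ := Filter.eventually_atTop.1 (h.and (Filter.eventually_ge_atTop (1 : ℝ)))
  refine ⟨k0, fun k hk => ?_⟩
  obtain ⟨h1, h2⟩ := hk0 k hk
  rw [Real.norm_eq_abs, Real.norm_eq_abs, abs_of_nonneg (Real.rpow_nonneg (by linarith) σ)] at h1
  have h3 : Real.log k ^ s ≤ K⁻¹ * k ^ σ := (le_abs_self _).trans h1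
  calc K * Real.log k ^ s ≤ K * (K⁻¹ * k ^ σ) := mul_le_mul_of_nonneg_left h3 hK.le
    _ = k ^ σ := by rw [← mul_assoc, mul_inv_cancel₀ hK.ne', one_mul]

private lemma s5_mono {r : ℕ} {B B' N M : ℝ} {f : ℝ → ℂ} (h : IsDP r B N M f) (hB : B ≤ B') :
    IsDP r B' N M f := by
  obtain ⟨s, c, h1, h2⟩ := h
  exact ⟨s, c, fun n hn => ⟨(h1 n hn).1, (h1 n hn).2.1, (h1 n hn).2.2.1,
    (h1 n hn).2.2.2.trans (mul_le_mul_of_nonneg_right hB (dd_nonneg r n))⟩, h2⟩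

private lemma s5_pow {k : ℝ} (hk : 1 < k) (n : ℕ) :
    (2 : ℝ) ^ n = k ^ ((n : ℝ) * Real.log 2 / Real.log k) := by
  have hl := Real.log_pos hk
  rw [Real.rpow_def_of_pos (by linarith), mul_div_cancel₀ _ hl.ne', Real.exp_nat_mul,
    Real.exp_log (by norm_num)]

private lemma s5_sum {ι : Type} (e : ι → ℕ) {k : ℝ} (hk : 1 < k) (I : Finset ι) :
    (2 : ℝ) ^ (∑ i ∈ I, e i) = k ^ (∑ i ∈ I, (e i : ℝ) * Real.log 2 / Real.log k) := by
  rw [s5_pow hk]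
  congr 1
  push_cast
  rw [Finset.sum_mul, Finset.sum_div]

private lemma s5_M {ι : Type} [Fintype ι] (e : ι → ℕ) {k : ℝ} (hk : 1 < k) (I : Finset ι)
    {r : ℕ} (hr : Fintype.card ι ≤ r) (h1 : (2 : ℝ) ^ (∑ i, e i) ≤ k ^ (2 : ℝ))
    (h2 : (2 : ℝ) ^ r ≤ k ^ (2 : ℝ)) :
    1 ≤ ∏ i ∈ I, (2 : ℝ) ^ (e i + 1) ∧ ∏ i ∈ I, (2 : ℝ) ^ (e i + 1) ≤ k ^ (4 : ℝ) := by
  have e1 : ∏ i ∈ I, (2 : ℝ) ^ (e i + 1) = (2 : ℝ) ^ (∑ i ∈ I, (e i + 1)) :=
    Finset.prod_pow_eq_pow_sum _ _ _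
  rw [e1]
  refine ⟨one_le_pow₀ (by norm_num), ?_⟩
  have e2 : ∑ i ∈ I, (e i + 1) ≤ ∑ i, e i + r := by
    rw [Finset.sum_add_distrib, Finset.sum_const, smul_eq_mul, mul_one]
    have h3 : ∑ i ∈ I, e i ≤ ∑ i, e i :=
      Finset.sum_le_sum_of_subset (Finset.subset_univ I)
    have h4 : #I ≤ Fintype.card ι := Finset.card_le_univ I
    omega
  calc (2 : ℝ) ^ (∑ i ∈ I, (e i + 1)) ≤ 2 ^ (∑ i, e i + r) :=
        pow_le_pow_right₀ (by norm_num) e2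
    _ = 2 ^ (∑ i, e i) * 2 ^ r := pow_add _ _ _
    _ ≤ k ^ (2 : ℝ) * k ^ (2 : ℝ) :=
        mul_le_mul h1 h2 (by positivity) (Real.rpow_nonneg (by linarith) _)
    _ = k ^ (4 : ℝ) := by
        rw [← Real.rpow_add (by linarith)]
        norm_num

private lemma s5_B {ℓ b : ℝ} (hℓ : 1 ≤ ℓ) (hb : 0 ≤ b) {n r : ℕ} (hn : n ≤ r) :
    (ℓ ^ b) ^ n ≤ ℓ ^ (b * r + b) := by
  rw [← Real.rpow_natCast (ℓ ^ b) n, ← Real.rpow_mul (by linarith)]
  refine Real.rpow_le_rpow_of_exponent_le hℓ ?_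
  have h1 : (n : ℝ) ≤ r := by exact_mod_cast hn
  have h2 := mul_le_mul_of_nonneg_left h1 hb
  linarith

theorem box (β θ η ε₁ ε₂ δ c b A : ℝ) (r : ℕ) (hβ : 0 < β) (hθ : 0 < θ)
    (hβ2 : β ≤ 3 / 4 - 20 * θ) (hη : 0 < η) (hη1 : η ≤ 1) (hε : 0 < ε₁) (hε₂ : ε₁ < ε₂)
    (hε1 : ε₂ ≤ 1) (hδ : 0 < δ) (hc : 0 < c) (hb : 0 ≤ b) :
    ∃ k0 : ℝ, ∀ k : ℝ, k0 ≤ k → ∀ (ι : Type) [Fintype ι] [DecidableEq ι] (e : ι → ℕ)
      (f : ι → ℝ → ℂ) (i0 : ι) (Sm : Finset ι), Fintype.card ι ≤ r → i0 ∈ Sm →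
      (∀ i, IsDP 1 ((Real.log k) ^ b) ((2 : ℝ) ^ e i) ((2 : ℝ) ^ (e i + 1)) (f i)) →
      (∀ i ∈ Sm, ∀ t, 1 ≤ |t| → ‖f i t‖ ≤ (Real.log k) ^ b *
        (|t| ^ ((1 : ℝ) / 6) * ((2 : ℝ) ^ e i) ^ (-((1 : ℝ) / 2)) + 1 / |t|)) →
      (∀ i, i ∉ Sm → (2 : ℝ) ^ e i ≤ k ^ ((1 : ℝ) / 4)) →
      (∀ t ∈ Tm k δ (β + θ / 2), ‖f i0 t‖ ≤ k ^ (-c)) →
      k ^ (η / 2) ≤ (2 : ℝ) ^ e i0 → (2 : ℝ) ^ e i0 ≤ k ^ (β + θ) →
      k ^ (1 + β - θ / 4) ≤ (2 : ℝ) ^ (∑ i, e i) → (2 : ℝ) ^ (∑ i, e i) ≤ k ^ (1 + β + θ / 4) →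
      ∫ t in Tm k δ (β + θ / 2), ‖Wf k ε₁ ε₂ t * ∏ i, f i t‖ ≤ (Real.log k) ^ (-A) := by
  have hb' : 0 ≤ b * r + b := by positivity
  obtain ⟨kA, hkA⟩ := boxA β θ ε₁ ε₂ δ (c / 2) (b * r + b) A r hβ hθ (by linarith) hε hε₂ hε1 hδ
    (by linarith) hb'
  obtain ⟨c', kD, hc', hkD⟩ := boxD β θ δ η (b * r + b) r hβ hθ hβ2 hδ hη hb'
  obtain ⟨k1, hk1⟩ := s5_growth (4 ^ r) ((b + 1) * r) (σ := c / 2) (by positivity) (by linarith)
  obtain ⟨k2, hk2⟩ := s5_growth 2 (A + 1) (σ := c') (by norm_num) hc'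
  refine ⟨max kA (max kD (max k1 (max k2 (max (Real.exp 1) (2 ^ r + 3))))), ?_⟩
  intro k hk ι _ _ e f i0 Sm hcard hi0 hf hsm hnsm hf0 he0 he0' hS hS'
  simp only [max_le_iff] at hk
  obtain ⟨q1, q2, q3, q4, q5, q6⟩ := hk
  have hk3' : 3 ≤ k := by
    have : (0 : ℝ) < 2 ^ r := by positivity
    linarith
  have hk2' : 2 ≤ k := by linarith
  have hk1' : 1 < k := by linarith
  have hk0' : 0 < k := by linarith
  obtain ⟨ℓ, hℓdef⟩ : ∃ ℓ : ℝ, ℓ = Real.log k := ⟨_, rfl⟩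
  have hℓ : 1 ≤ ℓ := by
    rw [hℓdef]
    exact (Real.le_log_iff_exp_le hk0').2 q5
  have hℓ0 : 0 < ℓ := by linarith
  obtain ⟨x, hx⟩ : ∃ x : ι → ℝ, x = fun i => (e i : ℝ) * Real.log 2 / Real.log k := ⟨_, rfl⟩
  have hlog2 : 0 < Real.log 2 := Real.log_pos (by norm_num)
  have hx0 : ∀ i, 0 ≤ x i := fun i => by
    rw [hx, ← hℓdef]
    positivity
  have hxI : ∀ I : Finset ι, (2 : ℝ) ^ (∑ i ∈ I, e i) = k ^ (∑ i ∈ I, x i) := fun I => by
    rw [hx]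
    exact s5_sum e hk1' I
  have hx1 : ∀ i, (2 : ℝ) ^ e i = k ^ x i := fun i => by
    rw [hx]
    exact s5_pow hk1' (e i)
  have hle : ∀ a b : ℝ, k ^ a ≤ k ^ b ↔ a ≤ b := fun a b => Real.rpow_le_rpow_left_iff hk1'
  have hT : |∑ i, x i - (1 + β)| ≤ θ / 4 := by
    rw [hxI, hle] at hS hS'
    rw [abs_le]
    constructor <;> linarith
  have hS2 : (2 : ℝ) ^ (∑ i, e i) ≤ k ^ (2 : ℝ) := by
    refine hS'.trans ?_
    rw [hle]
    linarith
  have hr2 : (2 : ℝ) ^ r ≤ k ^ (2 : ℝ) := by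
    have h1 : k ^ (1 : ℝ) ≤ k ^ (2 : ℝ) := by
      rw [hle]
      norm_num
    rw [Real.rpow_one] at h1
    linarith
  have hprodN : ∀ I : Finset ι, ∏ i ∈ I, (2 : ℝ) ^ e i = k ^ (∑ i ∈ I, x i) := fun I => by
    rw [Finset.prod_pow_eq_pow_sum, hxI]
  have hN1 : ∀ I : Finset ι, 1 ≤ ∏ i ∈ I, (2 : ℝ) ^ e i := fun I => by
    rw [Finset.prod_pow_eq_pow_sum]
    exact one_le_pow₀ (by norm_num)
  have hℓb : 0 ≤ ℓ ^ b := Real.rpow_nonneg hℓ0.le _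
  have hcardI : ∀ I : Finset ι, #I ≤ r := fun I => (Finset.card_le_univ I).trans hcard
  have hDP : ∀ I : Finset ι, IsDP (#I) (Real.log k ^ (b * r + b)) (∏ i ∈ I, (2 : ℝ) ^ e i)
      (∏ i ∈ I, (2 : ℝ) ^ (e i + 1)) (fun t => ∏ i ∈ I, f i t) := by
    intro I
    rw [← hℓdef]
    refine s5_mono (IsDP.prod I hℓb (fun i => (2 : ℝ) ^ e i) (fun i => (2 : ℝ) ^ (e i + 1)) f
      (fun i _ => by positivity) (fun i _ => ?_)) (s5_B hℓ hb (hcardI I))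
    rw [hℓdef]
    exact hf i
  have hcont : ∀ i, Continuous (f i) := fun i => (hf i).cont
  rcases comb x hx0 β θ hθ hβ hβ2 hT with ⟨I, hI1, hI2⟩ | ⟨i1, hi1, I, hi1I, hI1, hI2⟩
  · -- two long factors
    have hcompl : ∑ i ∈ I, x i + ∑ i ∈ Iᶜ, x i = ∑ i, x i := Finset.sum_add_sum_compl I x
    have hT' := abs_le.1 hT
    have hM1 := s5_M e hk1' I hcard hS2 hr2
    have hM2 := s5_M e hk1' Iᶜ hcard hS2 hr2
    have hmain := hkA k q1 (#I) (#Iᶜ) (∏ i ∈ I, (2 : ℝ) ^ e i) (∏ i ∈ Iᶜ, (2 : ℝ) ^ e i)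
      (∏ i ∈ I, (2 : ℝ) ^ (e i + 1)) (∏ i ∈ Iᶜ, (2 : ℝ) ^ (e i + 1))
      (fun t => ∏ i ∈ I, f i t) (fun t => ∏ i ∈ Iᶜ, f i t) (hcardI I) (hcardI Iᶜ) (hDP I)
      (hDP Iᶜ) (by rw [hprodN, hle]; linarith) (by rw [hprodN, hle]; linarith) hM1.1 hM2.1
      hM1.2 hM2.2 (fun t ht => ?_)
    · refine le_trans (le_of_eq ?_) hmain
      refine integral_congr_ae (Filter.Eventually.of_forall fun t => ?_)
      simp only
      rw [Finset.prod_mul_prod_compl]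
    · rw [Finset.prod_mul_prod_compl, ← Finset.mul_prod_erase Finset.univ _ (Finset.mem_univ i0),
        norm_mul, norm_prod]
      obtain ⟨D, hD⟩ : ∃ D : ℝ, D = 4 * ℓ ^ (b + 1) := ⟨_, rfl⟩
      have hD1 : 1 ≤ D := by
        rw [hD]
        have h1 : (1 : ℝ) ≤ ℓ ^ (b + 1) := Real.one_le_rpow hℓ (by linarith)
        linarith
      have hfi : ∀ i, ‖f i t‖ ≤ D := by
        intro i
        have h1 := (hf i).sup (one_le_pow₀ (by norm_num)) (by rw [← hℓdef]; exact hℓb) t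
        rw [← hℓdef, pow_one] at h1
        refine h1.trans ?_
        have h2 : (2 : ℝ) ^ (e i + 1) ≤ k ^ (3 : ℝ) := by
          have h3 : (2 : ℝ) ^ e i ≤ 2 ^ (∑ i, e i) :=
            pow_le_pow_right₀ (by norm_num)
              (Finset.single_le_sum (f := e) (fun _ _ => Nat.zero_le _) (Finset.mem_univ i))
          have h4 : k ^ (3 : ℝ) = k ^ (2 : ℝ) * k := by
            rw [show (3 : ℝ) = 2 + 1 by norm_num, Real.rpow_add hk0', Real.rpow_one]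
          rw [h4, pow_succ]
          exact mul_le_mul (h3.trans hS2) hk2' (by norm_num) (Real.rpow_nonneg hk0'.le _)
        have h5 : Real.log ((2 : ℝ) ^ (e i + 1)) ≤ 3 * ℓ := by
          have h6 := Real.log_le_log (by positivity) h2
          rw [Real.log_rpow hk0', ← hℓdef] at h6
          exact h6
        have h7 : 1 + Real.log ((2 : ℝ) ^ (e i + 1)) ≤ 4 * ℓ := by linarith
        calc ℓ ^ b * (1 + Real.log ((2 : ℝ) ^ (e i + 1))) ≤ ℓ ^ b * (4 * ℓ) :=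
              mul_le_mul_of_nonneg_left h7 hℓb
          _ = D := by
              rw [hD, Real.rpow_add hℓ0, Real.rpow_one]
              ring
      have hprod : ∏ i ∈ Finset.univ.erase i0, ‖f i t‖ ≤ D ^ r := by
        calc ∏ i ∈ Finset.univ.erase i0, ‖f i t‖ ≤ ∏ _i ∈ Finset.univ.erase i0, D :=
              Finset.prod_le_prod (fun i _ => norm_nonneg _) (fun i _ => hfi i)
          _ = D ^ #(Finset.univ.erase i0) := Finset.prod_const D
          _ ≤ D ^ r := pow_le_pow_right₀ hD1 (hcardI _)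
      have hDr : D ^ r ≤ k ^ (c / 2) := by
        have h1 := hk1 k q3
        rw [← hℓdef] at h1
        refine le_trans (le_of_eq ?_) h1
        rw [hD, mul_pow, ← Real.rpow_natCast (ℓ ^ (b + 1)) r, ← Real.rpow_mul hℓ0.le]
      calc ‖f i0 t‖ * ∏ i ∈ Finset.univ.erase i0, ‖f i t‖ ≤ k ^ (-c) * D ^ r :=
            mul_le_mul (hf0 t ht) hprod (Finset.prod_nonneg fun i _ => norm_nonneg _)
              (Real.rpow_nonneg hk0'.le _)
        _ ≤ k ^ (-c) * k ^ (c / 2) :=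
            mul_le_mul_of_nonneg_left hDr (Real.rpow_nonneg hk0'.le _)
        _ = k ^ (-(c / 2)) := by
            rw [← Real.rpow_add hk0']
            congr 1
            ring
  · -- one smooth variable
    have hT' := abs_le.1 hT
    have hi1S : i1 ∈ Sm := by
      by_contra hn
      have h1 := hnsm i1 hn
      rw [hx1, hle] at h1
      linarith
    obtain ⟨J, hJ⟩ : ∃ J : Finset ι, J = (insert i1 I)ᶜ := ⟨_, rfl⟩
    rw [← hJ] at hI2
    have hsplit : ∑ i, x i = x i1 + ∑ i ∈ I, x i + ∑ i ∈ J, x i := by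
      rw [hJ, ← Finset.sum_insert hi1I, Finset.sum_add_sum_compl]
    have hM1 := s5_M e hk1' I hcard hS2 hr2
    have hM2 := s5_M e hk1' J hcard hS2 hr2
    have hNN : k ^ (η / 2) ≤ (∏ i ∈ I, (2 : ℝ) ^ e i) * ∏ i ∈ J, (2 : ℝ) ^ e i := by
      rw [hprodN, hprodN, ← Real.rpow_add hk0', hle]
      rw [hx1, hle] at he0 he0'
      by_cases h01 : i0 = i1
      · rw [h01] at he0'
        linarith
      · by_cases h0I : i0 ∈ I
        · have h1 : x i0 ≤ ∑ i ∈ I, x i := Finset.single_le_sum (fun i _ => hx0 i) h0I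
          have h2 : 0 ≤ ∑ i ∈ J, x i := Finset.sum_nonneg fun i _ => hx0 i
          linarith
        · have h0J : i0 ∈ J := by
            rw [hJ, Finset.mem_compl, Finset.mem_insert, not_or]
            exact ⟨h01, h0I⟩
          have h1 : x i0 ≤ ∑ i ∈ J, x i := Finset.single_le_sum (fun i _ => hx0 i) h0J
          have h2 : 0 ≤ ∑ i ∈ I, x i := Finset.sum_nonneg fun i _ => hx0 i
          linarith
    have hmain := hkD k q2 (#I) (#J) (∏ i ∈ I, (2 : ℝ) ^ e i) (∏ i ∈ J, (2 : ℝ) ^ e i)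
      (∏ i ∈ I, (2 : ℝ) ^ (e i + 1)) (∏ i ∈ J, (2 : ℝ) ^ (e i + 1)) ((2 : ℝ) ^ e i1)
      (f i1) (fun t => ∏ i ∈ I, f i t) (fun t => ∏ i ∈ J, f i t) (hcardI I) (hcardI J)
      (hcont i1) (hDP I) (hDP J) (hN1 I) (hN1 J) hM1.1 hM2.1 hM1.2 hM2.2
      (by rw [hx1, hle]; exact hi1) (by rw [hprodN, hle]; exact hI1)
      (by rw [hprodN, hle]; exact hI2)
      (by
        rw [hprodN, hprodN, hx1, ← Real.rpow_add hk0', ← Real.rpow_add hk0', hle]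
        linarith) hNN
      (fun t ht => by
        refine (hsm i1 hi1S t ht).trans (mul_le_mul_of_nonneg_right ?_ ?_)
        · rw [← hℓdef]
          refine Real.rpow_le_rpow_of_exponent_le hℓ ?_
          have : 0 ≤ b * (r : ℝ) := by positivity
          linarith
        · positivity)
    have hW : ∀ t, ‖Wf k ε₁ ε₂ t‖ ≤ 1 + ℓ := fun t => by
      rw [hℓdef]
      exact Wf_le k ε₁ ε₂ t hk3' hε hε1
    have hpt : ∀ t, ‖Wf k ε₁ ε₂ t * ∏ i, f i t‖ ≤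
        (1 + ℓ) * ‖f i1 t * ((∏ i ∈ I, f i t) * ∏ i ∈ J, f i t)‖ := by
      intro t
      have e1 : ∏ i, f i t = f i1 t * ((∏ i ∈ I, f i t) * ∏ i ∈ J, f i t) := by
        rw [← mul_assoc, ← Finset.prod_insert (f := fun i => f i t) hi1I, hJ,
          Finset.prod_mul_prod_compl]
      rw [e1, norm_mul]
      exact mul_le_mul_of_nonneg_right (hW t) (norm_nonneg _)
    have hint : IntegrableOn (fun t => (1 + ℓ) *
        ‖f i1 t * ((∏ i ∈ I, f i t) * ∏ i ∈ J, f i t)‖) (Tm k δ (β + θ / 2)) := by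
      have hc1 : Continuous fun t => (1 + ℓ) *
          ‖f i1 t * ((∏ i ∈ I, f i t) * ∏ i ∈ J, f i t)‖ := by
        have hcI : ∀ I : Finset ι, Continuous fun t => ∏ i ∈ I, f i t := fun I =>
          continuous_finsetProd I fun i _ => hcont i
        exact continuous_const.mul ((hcont i1).mul ((hcI I).mul (hcI J))).norm
      refine (hc1.continuousOn.integrableOn_Icc (a := -k ^ (β + θ / 2))
        (b := k ^ (β + θ / 2))).mono_set fun t ht => ?_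
      exact abs_le.1 ht.2
    have h1 := integral_mono_of_nonneg (μ := volume.restrict (Tm k δ (β + θ / 2)))
      (Filter.Eventually.of_forall fun t => norm_nonneg (Wf k ε₁ ε₂ t * ∏ i, f i t)) hint
      (Filter.Eventually.of_forall hpt)
    refine h1.trans ?_
    rw [integral_const_mul]
    have h2 := mul_le_mul_of_nonneg_left hmain (by linarith : (0 : ℝ) ≤ 1 + ℓ)
    refine h2.trans ?_
    have h3 := hk2 k q4
    rw [← hℓdef] at h3 ⊢
    have hkc : 0 < k ^ c' := Real.rpow_pos_of_pos hk0' _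
    rw [Real.rpow_neg hk0'.le, Real.rpow_neg hℓ0.le, ← div_eq_mul_inv, div_le_iff₀ hkc]
    have h4 : 2 * ℓ ^ (A + 1) = 2 * ℓ * ℓ ^ A := by
      rw [Real.rpow_add hℓ0, Real.rpow_one]
      ring
    rw [h4] at h3
    have hA : 0 < ℓ ^ A := Real.rpow_pos_of_pos hℓ0 _
    have h5 := mul_le_mul_of_nonneg_left h3 (inv_pos.2 hA).le
    have h6 : (ℓ ^ A)⁻¹ * (2 * ℓ * ℓ ^ A) = 2 * ℓ := by
      field_simp
    rw [h6] at h5
    linarith

end Pool.Agent.Lib.MP_9a8698_nt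
end
end
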