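import Pool.Agent.Lib.MP_9a8698_nt.X5
import Pool.Agent.Lib.MP_9a8698_nt.S5

section

section

/-!
R2. The Gamma integral with a complex parameter (only Mathlib is used).

PROOF. For real `z > 0` this is `Complex.integral_cpow_mul_exp_neg_mul_Ioi`. Let
`F(z) = ∫_0^∞ x^(a-1) e^(-zx) dx` on the half plane `Re z > 0`. Dominated differentiation
(`hasDerivAt_integral_of_dominated_loc_of_deriv_le`, the derivative in `z` of the integrand is `-x^a e^(-zx)`, bounded by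
`x^(Re a) e^(-x Re z₀/2)` near `z₀`) gives `F'(z) = -∫ x^a e^(-zx) dx`, and integration by parts
(`integral_Ioi_of_hasDerivAt_of_tendsto` for `x^a e^(-zx)`, whose derivative is `a x^(a-1) e^(-zx) - z x^a e^(-zx)`, limits 0 at
`0` and `∞`) gives `z ∫ x^a e^(-zx) dx = a F(z)`. So the derivative of `F(z) z^a` vanishes on the convex open set `Re z > 0`
(`z^a` is differentiable on the slit plane), hence `F(z) z^a` is constant, equal to its value `Γ(a)` at `z = 1`.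
Alternative: identity theorem (`AnalyticOnNhd.eqOn_of_preconnected_of_frequently_eq`).
-/

set_option autoImplicit false

open MeasureTheory

namespace Pool.Agent.Lib.MP_9a8698_nt

private theorem R2_ri {s b : ℝ} (hs : 0 < s) (hb : 0 < b) :
    IntegrableOn (fun x : ℝ => x ^ (s - 1) * Real.exp (-(b * x))) (Set.Ioi 0) := by
  have h := integrableOn_rpow_mul_exp_neg_mul_rpow (p := 1) (s := s - 1) (b := b) (by linarith)
    one_pos hb
  refine h.congr_fun (fun x _ => ?_) measurableSet_Ioi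
  simp only [Real.rpow_one, neg_mul]

private theorem R2_norm (a z : ℂ) {x : ℝ} (hx : 0 < x) :
    ‖(x : ℂ) ^ (a - 1) * Complex.exp (-(z * x))‖ = x ^ (a.re - 1) * Real.exp (-(z.re * x)) := by
  rw [norm_mul, Complex.norm_cpow_eq_rpow_re_of_pos hx, Complex.norm_exp]
  simp

private theorem R2_meas (a z : ℂ) : AEStronglyMeasurable
    (fun x : ℝ => (x : ℂ) ^ (a - 1) * Complex.exp (-(z * x))) (volume.restrict (Set.Ioi 0)) := by
  refine ContinuousOn.aestronglyMeasurable ?_ measurableSet_Ioi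
  refine ContinuousOn.mul ?_ (Continuous.continuousOn (by fun_prop))
  intro x hx
  exact (Complex.continuousAt_ofReal_cpow_const x (a - 1)
    (Or.inr (ne_of_gt hx))).continuousWithinAt

theorem gam_integrable (a z : ℂ) (ha : 0 < a.re) (hz : 0 < z.re) :
    IntegrableOn (fun x : ℝ => (x : ℂ) ^ (a - 1) * Complex.exp (-(z * x))) (Set.Ioi 0) := by
  refine Integrable.mono' (R2_ri ha hz) (R2_meas a z) ?_
  refine (ae_restrict_iff' measurableSet_Ioi).2 (Filter.Eventually.of_forall fun x hx => ?_)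
  rw [R2_norm a z hx]

private theorem R2_diff (a : ℂ) (ha : 0 < a.re) {z₀ : ℂ} (hz : 0 < z₀.re) :
    DifferentiableAt ℂ (fun z : ℂ => ∫ x in Set.Ioi (0 : ℝ), (x : ℂ) ^ (a - 1) *
      Complex.exp (-(z * x))) z₀ := by
  have hs : {z : ℂ | z₀.re / 2 < z.re} ∈ nhds z₀ :=
    (isOpen_lt continuous_const Complex.continuous_re).mem_nhds (by
      show z₀.re / 2 < z₀.re
      linarith)
  have hb : IntegrableOn (fun x : ℝ => x ^ (a.re + 1 - 1) * Real.exp (-(z₀.re / 2 * x)))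
      (Set.Ioi 0) := R2_ri (by linarith) (by linarith)
  have key := hasDerivAt_integral_of_dominated_loc_of_deriv_le
    (μ := volume.restrict (Set.Ioi (0 : ℝ)))
    (F := fun (z : ℂ) (x : ℝ) => (x : ℂ) ^ (a - 1) * Complex.exp (-(z * x)))
    (F' := fun (z : ℂ) (x : ℝ) => (x : ℂ) ^ (a - 1) * (Complex.exp (-(z * x)) * -(1 * (x : ℂ))))
    (bound := fun x : ℝ => x ^ (a.re + 1 - 1) * Real.exp (-(z₀.re / 2 * x)))
    (x₀ := z₀) hs (Filter.Eventually.of_forall fun z => R2_meas a z)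
    (gam_integrable a z₀ ha hz) ?_ ?_ hb ?_
  · exact key.2.differentiableAt
  · have h1 : (fun x : ℝ => (x : ℂ) ^ (a - 1) * (Complex.exp (-(z₀ * x)) * -(1 * (x : ℂ)))) =
        fun x : ℝ => ((x : ℂ) ^ (a - 1) * Complex.exp (-(z₀ * x))) * -(x : ℂ) := by
      funext x
      ring
    rw [h1]
    exact (R2_meas a z₀).mul (Continuous.aestronglyMeasurable (by fun_prop))
  · refine (ae_restrict_iff' measurableSet_Ioi).2 (Filter.Eventually.of_forall fun x hx z hz' => ?_)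
    have hx0 : 0 < x := hx
    have hz1 : z₀.re / 2 < z.re := hz'
    have h1 : (x : ℂ) ^ (a - 1) * (Complex.exp (-(z * x)) * -(1 * (x : ℂ))) =
        ((x : ℂ) ^ (a - 1) * Complex.exp (-(z * x))) * -(x : ℂ) := by ring
    rw [h1, norm_mul, R2_norm a z hx0, norm_neg, Complex.norm_real, Real.norm_eq_abs,
      abs_of_pos hx0]
    have h2 : x ^ (a.re + 1 - 1) = x ^ (a.re - 1) * x := by
      rw [← Real.rpow_add_one hx0.ne']
      congr 1
      ring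
    rw [h2]
    have h3 : Real.exp (-(z.re * x)) ≤ Real.exp (-(z₀.re / 2 * x)) := by
      apply Real.exp_le_exp.2
      nlinarith
    have h4 : 0 ≤ x ^ (a.re - 1) * x := mul_nonneg (Real.rpow_nonneg hx0.le _) hx0.le
    nlinarith [mul_le_mul_of_nonneg_left h3 h4]
  · refine (ae_restrict_iff' measurableSet_Ioi).2 (Filter.Eventually.of_forall fun x _ z _ => ?_)
    exact ((((hasDerivAt_id z).mul_const (x : ℂ)).neg).cexp).const_mul _

theorem gam_int (a z : ℂ) (ha : 0 < a.re) (hz : 0 < z.re) :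
    ∫ x in Set.Ioi (0 : ℝ), (x : ℂ) ^ (a - 1) * Complex.exp (-(z * x)) =
      z ^ (-a) * Complex.Gamma a := by
  have hU : IsOpen {w : ℂ | 0 < w.re} := isOpen_lt continuous_const Complex.continuous_re
  have hf : AnalyticOnNhd ℂ (fun z : ℂ => ∫ x in Set.Ioi (0 : ℝ), (x : ℂ) ^ (a - 1) *
      Complex.exp (-(z * x))) {w : ℂ | 0 < w.re} :=
    DifferentiableOn.analyticOnNhd (fun w hw => (R2_diff a ha hw).differentiableWithinAt) hU
  have hg : AnalyticOnNhd ℂ (fun z : ℂ => z ^ (-a) * Complex.Gamma a) {w : ℂ | 0 < w.re} := by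
    refine DifferentiableOn.analyticOnNhd (fun w hw => ?_) hU
    refine DifferentiableAt.differentiableWithinAt ?_
    refine DifferentiableAt.mul_const ?_ _
    exact DifferentiableAt.cpow differentiableAt_id (differentiableAt_const _) (Or.inl hw)
  have hpre : IsPreconnected {w : ℂ | 0 < w.re} := (convex_halfSpace_re_gt 0).isPreconnected
  have h1 : (1 : ℂ) ∈ {w : ℂ | 0 < w.re} := by
    simp
  have ht : Filter.Tendsto (fun x : ℝ => (x : ℂ)) (nhdsWithin 1 {1}ᶜ) (nhdsWithin 1 {1}ᶜ) := by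
    refine tendsto_nhdsWithin_iff.2 ⟨?_, ?_⟩
    · have h2 := Complex.continuous_ofReal.tendsto 1
      rw [Complex.ofReal_one] at h2
      exact h2.mono_left nhdsWithin_le_nhds
    · filter_upwards [self_mem_nhdsWithin] with x hx
      intro h2
      apply hx
      have h3 : (x : ℂ) = 1 := h2
      exact_mod_cast h3
  have hfreq : ∃ᶠ w in nhdsWithin (1 : ℂ) {1}ᶜ,
      (fun z : ℂ => ∫ x in Set.Ioi (0 : ℝ), (x : ℂ) ^ (a - 1) * Complex.exp (-(z * x))) w =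
        (fun z : ℂ => z ^ (-a) * Complex.Gamma a) w := by
    refine ht.frequently ?_
    refine Filter.Eventually.frequently ?_
    have h2 : ∀ᶠ x : ℝ in nhdsWithin (1 : ℝ) {1}ᶜ, 0 < x :=
      (eventually_gt_nhds one_pos).filter_mono nhdsWithin_le_nhds
    filter_upwards [h2] with x hx
    have h3 := Complex.integral_cpow_mul_exp_neg_mul_Ioi ha hx
    rw [h3, Complex.cpow_neg, one_div, Complex.inv_cpow]
    rw [Complex.arg_ofReal_of_nonneg hx.le]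
    exact Real.pi_ne_zero.symm
  exact hf.eqOn_of_preconnected_of_frequently_eq hg hpre h1 hfreq hz

end Pool.Agent.Lib.MP_9a8698_nt
end

section

/-!
R7. The fourth moment of the dual sum (A4: `IsDP.of_bound`, `IsDP.mul`, `IsDP.mvt`; R0b).

PROOF. Let `L = Nat.log 2 M + 1` (`L ≤ 2 (1 + log M)`) and for `i < L` let `s_i = {m : 2^i ≤ m < 2^(i+1), m ≤ M}`,
`D_i(u) = ∑_{m ∈ s_i} m^(-1/2) e^(iu log m)`, so `DD M = ∑_{i<L} D_i` and `‖DD M u‖^4 ≤ L^3 ∑_i ‖D_i u‖^4` (Hoelder for finite sums,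
`inner_le_nnorm_mul_nnorm` or `pow_arith_mean_le_arith_mean_pow`/`Finset.sum_pow_le_...`). With `c_i(n) = (n/2^i)^(1/2) ≤ 2` one has
`D_i(u) = 2^(i/2) DP s_i c_i (-u)`, `IsDP 1 2 (2^i) (2^(i+1)) (DP s_i c_i)`, its square is `IsDP 2 4 (4^i) (4^(i+1))` and
`IsDP.mvt` gives `∫_{|u| ≤ τ} ‖DP s_i c_i (-u)‖^4 du ≤ C (τ/4^i + 1) 16 (1 + log 4^(i+1))^4` (substitute `u → -u`). Hence
`∫ ‖D_i‖^4 ≤ 4^i C (τ/4^i + 1) 16 (1 + log 4^(i+1))^4 ≤ 16 C (τ + M^2) (10 (1 + log M))^4` and `A = 8` works.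
-/

set_option autoImplicit false

open Finset MeasureTheory

namespace Pool.Agent.Lib.MP_9a8698_nt

private noncomputable def R7s (M i : ℕ) : Finset ℕ := (Icc 1 M).filter (fun m => Nat.log 2 m = i)

private noncomputable def R7c (i n : ℕ) : ℝ := Real.sqrt n / Real.sqrt (2 ^ i)

private lemma R7_mem {M i m : ℕ} (h : m ∈ R7s M i) : 1 ≤ m ∧ m ≤ M ∧ 2 ^ i ≤ m ∧ m < 2 ^ (i + 1) := by
  unfold R7s at h
  rw [mem_filter, mem_Icc] at h
  obtain ⟨⟨h1, h2⟩, h3⟩ := h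
  refine ⟨h1, h2, ?_, ?_⟩
  · rw [← h3]
    exact Nat.pow_log_le_self 2 (by omega)
  · rw [← h3]
    exact Nat.lt_pow_succ_log_self (by norm_num) m

private lemma R7_isDP (M i : ℕ) :
    IsDP 1 2 (2 ^ i : ℝ) (2 ^ (i + 1) : ℝ) (DP (R7s M i) (R7c i)) := by
  apply IsDP.of_bound
  intro n hn
  obtain ⟨h1, h2, h3, h4⟩ := R7_mem hn
  have h3' : (2 ^ i : ℝ) ≤ n := by exact_mod_cast h3
  have h4' : (n : ℝ) ≤ 2 ^ (i + 1) := by exact_mod_cast h4.le
  refine ⟨h1, h3', h4', ?_⟩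
  unfold R7c
  have hp : (0 : ℝ) < 2 ^ i := by positivity
  rw [abs_of_nonneg (by positivity), div_le_iff₀ (Real.sqrt_pos.2 hp)]
  have h5 : Real.sqrt n ≤ Real.sqrt (2 ^ 2 * 2 ^ i) := by
    apply Real.sqrt_le_sqrt
    rw [pow_succ] at h4'
    nlinarith
  rw [Real.sqrt_mul (by positivity), Real.sqrt_sq (by norm_num)] at h5
  exact h5

private lemma R7_term (M i : ℕ) (u : ℝ) :
    ∑ m ∈ R7s M i, (((m : ℝ) ^ (-(1 / 2 : ℝ)) : ℝ) : ℂ) *
      Complex.exp (((u * Real.log m : ℝ) : ℂ) * Complex.I) =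
    ((Real.sqrt (2 ^ i) : ℝ) : ℂ) * DP (R7s M i) (R7c i) (-u) := by
  unfold DP
  rw [mul_sum]
  apply sum_congr rfl
  intro m hm
  obtain ⟨h1, -, -, -⟩ := R7_mem hm
  have hm0 : (0 : ℝ) < m := by exact_mod_cast h1
  rw [← mul_assoc, ← Complex.ofReal_mul]
  have e1 : Real.sqrt (2 ^ i) * (R7c i m / m) = (m : ℝ) ^ (-(1 / 2 : ℝ)) := by
    unfold R7c
    have hp : (0 : ℝ) < Real.sqrt (2 ^ i) := Real.sqrt_pos.2 (by positivity)
    rw [Real.rpow_neg hm0.le, ← Real.sqrt_eq_rpow]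
    have hs : Real.sqrt m * Real.sqrt m = m := Real.mul_self_sqrt hm0.le
    have hs0 : 0 < Real.sqrt m := Real.sqrt_pos.2 hm0
    field_simp
    rw [sq, hs]
  rw [e1]
  congr 3
  push_cast
  ring

private lemma R7_split (M : ℕ) (u : ℝ) :
    DD M u = ∑ i ∈ range (Nat.log 2 M + 1),
      ((Real.sqrt (2 ^ i) : ℝ) : ℂ) * DP (R7s M i) (R7c i) (-u) := by
  unfold DD
  rw [← sum_fiberwise_of_maps_to (s := Icc 1 M) (t := range (Nat.log 2 M + 1))
    (g := fun m => Nat.log 2 m)]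
  · apply sum_congr rfl
    intro i _
    rw [← R7_term]
    rfl
  · intro m hm
    rw [mem_Icc] at hm
    rw [mem_range]
    have := Nat.log_mono_right (b := 2) hm.2
    omega

private lemma R7_neg (g : ℝ → ℝ) {τ : ℝ} (hτ : 0 ≤ τ) :
    ∫ u in Set.Icc (-τ) τ, g (-u) = ∫ u in Set.Icc (-τ) τ, g u := by
  rw [integral_Icc_eq_integral_Ioc, integral_Icc_eq_integral_Ioc,
    ← intervalIntegral.integral_of_le (by linarith), ← intervalIntegral.integral_of_le (by linarith),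
    intervalIntegral.integral_comp_neg, neg_neg]

private lemma R7_log (M : ℕ) (hM : 1 ≤ M) :
    ((Nat.log 2 M : ℕ) : ℝ) + 1 ≤ 2 * (1 + Real.log M) := by
  have h1 : 2 ^ (Nat.log 2 M) ≤ M := Nat.pow_log_le_self 2 (by omega)
  have h2 : (2 : ℝ) ^ (Nat.log 2 M) ≤ M := by exact_mod_cast h1
  have h3 := Real.log_le_log (by positivity) h2
  rw [Real.log_pow] at h3
  have h4 : (1 / 2 : ℝ) ≤ Real.log 2 := by
    have := Real.log_two_gt_d9
    linarith
  have h5 : (0 : ℝ) ≤ (Nat.log 2 M : ℕ) := Nat.cast_nonneg _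
  nlinarith [mul_le_mul_of_nonneg_left h4 h5]

theorem DD_fourth : ∃ (C : ℝ) (A : ℕ), 0 < C ∧ ∀ (τ : ℝ) (M : ℕ), 1 ≤ τ → 1 ≤ M →
    ∫ u in Set.Icc (-τ) τ, ‖DD M u‖ ^ 4 ≤ C * (τ + (M : ℝ) ^ 2) * (1 + Real.log M) ^ A := by
  obtain ⟨C, hC, hmv⟩ := IsDP.mvt
  refine ⟨16 * 81 * C * 2 ^ 8, 8, by positivity, ?_⟩
  intro τ M hτ hM
  set L := Nat.log 2 M + 1 with hL
  have hLR : (L : ℝ) = ((Nat.log 2 M : ℕ) : ℝ) + 1 := by rw [hL]; push_cast; rfl
  have hL1 : (1 : ℝ) ≤ L := by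
    rw [hLR]
    have : (0 : ℝ) ≤ (Nat.log 2 M : ℕ) := Nat.cast_nonneg _
    linarith
  have hlog : 0 ≤ Real.log M := Real.log_nonneg (by exact_mod_cast hM)
  have hL2 : (L : ℝ) ≤ 2 * (1 + Real.log M) := by rw [hLR]; exact R7_log M hM
  have hMR : (1 : ℝ) ≤ M := by exact_mod_cast hM
  -- each dyadic part
  set F : ℕ → ℝ → ℝ := fun i u => ‖((Real.sqrt (2 ^ i) : ℝ) : ℂ) * DP (R7s M i) (R7c i) (-u)‖
    with hF
  have hFc : ∀ i, Continuous (F i) := by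
    intro i
    have := DP_continuous (R7s M i) (R7c i)
    simp only [hF]
    fun_prop
  have hpart : ∀ i ∈ range L, ∫ u in Set.Icc (-τ) τ, F i u ^ 4 ≤
      16 * C * (τ + (M : ℝ) ^ 2) * (3 * L) ^ 4 := by
    intro i hi
    have hi' : i ≤ Nat.log 2 M := by
      rw [mem_range] at hi
      omega
    have hiM : (2 : ℝ) ^ i ≤ M := by
      have h1 : 2 ^ i ≤ M := (Nat.pow_le_pow_right (by norm_num) hi').trans
        (Nat.pow_log_le_self 2 (by omega))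
      exact_mod_cast h1
    have hp : (0 : ℝ) < 2 ^ i := by positivity
    have hp1 : (1 : ℝ) ≤ 2 ^ i := one_le_pow₀ (by norm_num)
    have h1 := IsDP.pow (B := 2) (N := 2 ^ i) (M := 2 ^ (i + 1)) (by norm_num) hp.le (R7_isDP M i) 2
    have h2 := hmv 2 (2 ^ 2) ((2 ^ i) ^ 2) ((2 ^ (i + 1)) ^ 2) τ _ h1 hτ (one_le_pow₀ hp1)
      (one_le_pow₀ (one_le_pow₀ (by norm_num))) (by norm_num)
    have h3 : ∫ u in Set.Icc (-τ) τ, F i u ^ 4 =
        (2 ^ i) ^ 2 * ∫ u in Set.Icc (-τ) τ, ‖(DP (R7s M i) (R7c i) u) ^ 2‖ ^ 2 := by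
      rw [← R7_neg (fun u => ‖(DP (R7s M i) (R7c i) u) ^ 2‖ ^ 2) (by linarith), ← integral_const_mul]
      congr 1
      funext u
      simp only [hF]
      have e4 : Real.sqrt (2 ^ i) ^ 4 = ((2 : ℝ) ^ i) ^ 2 := by
        have : Real.sqrt (2 ^ i) ^ 4 = (Real.sqrt (2 ^ i) ^ 2) ^ 2 := by ring
        rw [this, Real.sq_sqrt hp.le]
      rw [norm_mul, norm_pow, Complex.norm_real, Real.norm_eq_abs, abs_of_nonneg (Real.sqrt_nonneg _),
        mul_pow, e4]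
      ring
    rw [h3]
    have h4 : Real.log ((2 ^ (i + 1)) ^ 2) ≤ 2 * L := by
      rw [Real.log_pow, Real.log_pow]
      have h5 : Real.log 2 ≤ 1 := by
        have := Real.log_two_lt_d9
        linarith
      have h6 : ((i + 1 : ℕ) : ℝ) ≤ L := by
        rw [mem_range] at hi
        exact_mod_cast hi
      have h7 : ((i + 1 : ℕ) : ℝ) * Real.log 2 ≤ L * 1 :=
        mul_le_mul h6 h5 (Real.log_nonneg (by norm_num)) (by linarith)
      push_cast at h7 ⊢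
      linarith
    have h4' : 0 ≤ Real.log (((2 : ℝ) ^ (i + 1)) ^ 2) :=
      Real.log_nonneg (one_le_pow₀ (one_le_pow₀ (by norm_num)))
    have h5 : (1 + Real.log (((2 : ℝ) ^ (i + 1)) ^ 2)) ^ (2 ^ 2) ≤ (3 * (L : ℝ)) ^ 4 := by
      have : (1 + Real.log (((2 : ℝ) ^ (i + 1)) ^ 2)) ≤ 3 * L := by linarith
      exact pow_le_pow_left₀ (by linarith) this 4
    calc (2 ^ i) ^ 2 * ∫ u in Set.Icc (-τ) τ, ‖(DP (R7s M i) (R7c i) u) ^ 2‖ ^ 2
        ≤ (2 ^ i) ^ 2 * (C * (τ / (2 ^ i) ^ 2 + 1) *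
          ((2 ^ 2) ^ 2 * (1 + Real.log ((2 ^ (i + 1)) ^ 2)) ^ (2 ^ 2))) :=
          mul_le_mul_of_nonneg_left h2 (by positivity)
      _ = (16 * C * (τ + ((2 : ℝ) ^ i) ^ 2)) * (1 + Real.log ((2 ^ (i + 1)) ^ 2)) ^ (2 ^ 2) := by
          field_simp
          ring
      _ ≤ (16 * C * (τ + (M : ℝ) ^ 2)) * (3 * (L : ℝ)) ^ 4 := by
          apply mul_le_mul _ h5 (by positivity) (by positivity)
          apply mul_le_mul_of_nonneg_left _ (by positivity)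
          have := pow_le_pow_left₀ hp.le hiM 2
          linarith
  have hpoint : ∀ u : ℝ, ‖DD M u‖ ^ 4 ≤ (L : ℝ) ^ 3 * ∑ i ∈ range L, F i u ^ 4 := by
    intro u
    have h1 : ‖DD M u‖ ≤ ∑ i ∈ range L, F i u := by
      rw [R7_split]
      exact norm_sum_le _ _
    have h2 := pow_sum_div_card_le_sum_pow (s := range L) (f := fun i => F i u)
      (fun i _ => norm_nonneg _) 3
    rw [card_range, div_le_iff₀ (by positivity)] at h2
    calc ‖DD M u‖ ^ 4 ≤ (∑ i ∈ range L, F i u) ^ 4 := pow_le_pow_left₀ (norm_nonneg _) h1 4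
      _ ≤ (∑ i ∈ range L, F i u ^ 4) * (L : ℝ) ^ 3 := h2
      _ = _ := by ring
  have hint : ∀ i ∈ range L, Integrable (fun u => F i u ^ 4) (volume.restrict (Set.Icc (-τ) τ)) := by
    intro i _
    exact ((hFc i).pow 4).continuousOn.integrableOn_compact isCompact_Icc
  calc ∫ u in Set.Icc (-τ) τ, ‖DD M u‖ ^ 4
      ≤ ∫ u in Set.Icc (-τ) τ, (L : ℝ) ^ 3 * ∑ i ∈ range L, F i u ^ 4 := by
        apply setIntegral_mono_on _ _ measurableSet_Icc (fun u _ => hpoint u)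
        · exact (((DD_continuous M).norm).pow 4).continuousOn.integrableOn_compact isCompact_Icc
        · exact (integrable_finsetSum _ hint).const_mul _
    _ = (L : ℝ) ^ 3 * ∑ i ∈ range L, ∫ u in Set.Icc (-τ) τ, F i u ^ 4 := by
        rw [integral_const_mul, integral_finsetSum _ hint]
    _ ≤ (L : ℝ) ^ 3 * ∑ i ∈ range L, 16 * C * (τ + (M : ℝ) ^ 2) * (3 * L) ^ 4 :=
        mul_le_mul_of_nonneg_left (sum_le_sum hpart) (by positivity)
    _ = 16 * 81 * C * (τ + (M : ℝ) ^ 2) * (L : ℝ) ^ 8 := by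
        rw [sum_const, card_range, nsmul_eq_mul]
        ring
    _ ≤ 16 * 81 * C * (τ + (M : ℝ) ^ 2) * (2 * (1 + Real.log M)) ^ 8 := by
        apply mul_le_mul_of_nonneg_left _ (by positivity)
        exact pow_le_pow_left₀ (by positivity) hL2 8
    _ = 16 * 81 * C * 2 ^ 8 * (τ + (M : ℝ) ^ 2) * (1 + Real.log M) ^ 8 := by
        rw [mul_pow]
        ring

end Pool.Agent.Lib.MP_9a8698_nt
end

section

/-!
R1. The Gamma function on the lines `Re s = 1/2 + j` (nothing else is used, only Mathlib).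

PROOF. Induction on `j`. `j = 0`: with `s = 1/2 + iτ`, `Complex.Gamma_mul_Gamma_one_sub` gives
`Γ(s) Γ(1-s) = π / sin(π s) = π / cosh(π τ)` and `1 - s = conj s`, `Complex.Gamma_conj`, so
`‖Γ(s)‖^2 = π / cosh(π τ) ≤ 2 π exp(-π |τ|)`. Step: `Γ(s+1) = s Γ(s)` (`Complex.Gamma_add_one`) and
`‖1/2 + j + iτ‖ ≤ (1 + j)(1 + |τ|)`.
-/

set_option autoImplicit false

namespace Pool.Agent.Lib.MP_9a8698_nt

private lemma R1_sq (τ : ℝ) :
    ‖Complex.Gamma ((((1 / 2 : ℝ)) : ℂ) + (τ : ℂ) * Complex.I)‖ ^ 2 =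
      Real.pi / Real.cosh (Real.pi * τ) := by
  set s : ℂ := (((1 / 2 : ℝ)) : ℂ) + (τ : ℂ) * Complex.I with hs
  have h1 : (1 : ℂ) - s = (starRingEnd ℂ) s := by
    rw [hs]
    apply Complex.ext
    · simp
      norm_num
    · simp
  have h2 := Complex.Gamma_mul_Gamma_one_sub s
  rw [h1, Complex.Gamma_conj, Complex.mul_conj] at h2
  have h3 : Complex.sin ((Real.pi : ℂ) * s) = ((Real.cosh (Real.pi * τ) : ℝ) : ℂ) := by
    rw [hs]
    have : (Real.pi : ℂ) * ((((1 / 2 : ℝ)) : ℂ) + (τ : ℂ) * Complex.I) =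
        ((Real.pi * τ : ℝ) : ℂ) * Complex.I + (Real.pi : ℂ) / 2 := by
      push_cast
      ring
    rw [this, Complex.sin_add_pi_div_two, Complex.cos_mul_I, Complex.ofReal_cosh]
  rw [h3] at h2
  have h4 : Complex.normSq (Complex.Gamma s) = Real.pi / Real.cosh (Real.pi * τ) := by
    have : ((Complex.normSq (Complex.Gamma s) : ℝ) : ℂ) =
        ((Real.pi / Real.cosh (Real.pi * τ) : ℝ) : ℂ) := by
      rw [h2]
      push_cast
      rfl
    exact_mod_cast this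
  rw [← Complex.normSq_eq_norm_sq, h4]

private lemma R1_zero (τ : ℝ) :
    ‖Complex.Gamma ((((1 / 2 : ℝ)) : ℂ) + (τ : ℂ) * Complex.I)‖ ≤
      Real.sqrt (2 * Real.pi) * Real.exp (-(Real.pi * |τ| / 2)) := by
  have h := R1_sq τ
  have hpi := Real.pi_pos
  have hc : Real.exp (Real.pi * |τ|) / 2 ≤ Real.cosh (Real.pi * τ) := by
    rw [← Real.cosh_abs (Real.pi * τ), abs_mul, abs_of_pos hpi, Real.cosh_eq]
    have := Real.exp_pos (-(Real.pi * |τ|))
    linarith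
  have hsq : (Real.sqrt (2 * Real.pi) * Real.exp (-(Real.pi * |τ| / 2))) ^ 2 =
      2 * Real.pi * Real.exp (-(Real.pi * |τ|)) := by
    rw [mul_pow, Real.sq_sqrt (by positivity), ← Real.exp_nat_mul]
    congr 2
    push_cast
    ring
  have hle : ‖Complex.Gamma ((((1 / 2 : ℝ)) : ℂ) + (τ : ℂ) * Complex.I)‖ ^ 2 ≤
      (Real.sqrt (2 * Real.pi) * Real.exp (-(Real.pi * |τ| / 2))) ^ 2 := by
    rw [h, hsq]
    rw [div_le_iff₀ (Real.cosh_pos _)]
    have he : Real.exp (-(Real.pi * |τ|)) * Real.exp (Real.pi * |τ|) = 1 := by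
      rw [← Real.exp_add]
      simp
    have hp := Real.exp_pos (-(Real.pi * |τ|))
    have h5 : Real.exp (-(Real.pi * |τ|)) * (Real.exp (Real.pi * |τ|) / 2) ≤
        Real.exp (-(Real.pi * |τ|)) * Real.cosh (Real.pi * τ) :=
      mul_le_mul_of_nonneg_left hc hp.le
    have h6 : (1 : ℝ) / 2 ≤ Real.exp (-(Real.pi * |τ|)) * Real.cosh (Real.pi * τ) := by
      calc (1 : ℝ) / 2 = Real.exp (-(Real.pi * |τ|)) * (Real.exp (Real.pi * |τ|) / 2) := by
            rw [mul_div_assoc', he]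
        _ ≤ _ := h5
    nlinarith
  exact le_trans (le_abs_self _) (abs_le_of_sq_le_sq hle (by positivity))

theorem gam_bound (j : ℕ) : ∃ C : ℝ, 0 < C ∧ ∀ τ : ℝ,
    ‖Complex.Gamma ((((1 / 2 + j : ℝ)) : ℂ) + (τ : ℂ) * Complex.I)‖ ≤
      C * (1 + |τ|) ^ j * Real.exp (-(Real.pi * |τ| / 2)) := by
  induction j with
  | zero =>
    refine ⟨Real.sqrt (2 * Real.pi), Real.sqrt_pos.2 (by positivity), fun τ => ?_⟩
    have h := R1_zero τ
    simpa using h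
  | succ j ih =>
    obtain ⟨C, hC, h⟩ := ih
    refine ⟨C * (1 + j), by positivity, fun τ => ?_⟩
    set s : ℂ := (((1 / 2 + j : ℝ)) : ℂ) + (τ : ℂ) * Complex.I with hs
    have hs0 : s ≠ 0 := by
      intro h0
      have := congrArg Complex.re h0
      rw [hs] at this
      simp at this
      have hj : (0 : ℝ) ≤ (j : ℝ) := Nat.cast_nonneg j
      linarith
    have h1 : ((((1 / 2 + ((j + 1 : ℕ) : ℝ) : ℝ)) : ℂ) + (τ : ℂ) * Complex.I) = s + 1 := by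
      rw [hs]
      push_cast
      ring
    rw [h1, Complex.Gamma_add_one s hs0, norm_mul]
    have h2 : ‖s‖ ≤ (1 + j) * (1 + |τ|) := by
      have hj : (0 : ℝ) ≤ (j : ℝ) := Nat.cast_nonneg j
      calc ‖s‖ ≤ ‖((((1 / 2 + j : ℝ)) : ℂ))‖ + ‖(τ : ℂ) * Complex.I‖ := by
            rw [hs]
            exact norm_add_le _ _
        _ = (1 / 2 + j) + |τ| := by
            rw [norm_mul, Complex.norm_I, mul_one, Complex.norm_real, Complex.norm_real,
              Real.norm_eq_abs, Real.norm_eq_abs, abs_of_nonneg (by positivity)]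
        _ ≤ (1 + j) * (1 + |τ|) := by
            have := abs_nonneg τ
            nlinarith
    have h3 := h τ
    calc ‖s‖ * ‖Complex.Gamma s‖ ≤ ((1 + j) * (1 + |τ|)) *
          (C * (1 + |τ|) ^ j * Real.exp (-(Real.pi * |τ| / 2))) :=
          mul_le_mul h2 h3 (norm_nonneg _) (by positivity)
      _ = C * (1 + j) * (1 + |τ|) ^ (j + 1) * Real.exp (-(Real.pi * |τ| / 2)) := by
          rw [pow_succ]
          ring

end Pool.Agent.Lib.MP_9a8698_nt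
end
end

section

section

/-!
R3. The logarithmic Gaussian as a Mellin integral over the line `Re s = σ` (only Mathlib is used).

PROOF. With `L = log x`, `s = σ + iv`: `s^2/2 - sL = (s - L)^2/2 - L^2/2` and `(s-L)^2/2 = -(v + (L-σ) i)^2/2 `
(since `s - L = i (v + (L-σ) i)`), so `integral_cexp_neg_mul_sq_add_real_mul_I` with `b = 1/2`, `c = L - σ` gives
`∫ = exp(-L^2/2) (2π)^(1/2)`. Integrability: `integrable_cexp_neg_mul_sq_add_real_mul_I`.
`mel_norm`: `Re (s^2/2) = (σ^2 - v^2)/2`.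
-/

set_option autoImplicit false

open MeasureTheory

namespace Pool.Agent.Lib.MP_9a8698_nt

theorem mel_norm (σ v : ℝ) :
    ‖Complex.exp ((((σ : ℂ) + (v : ℂ) * Complex.I) ^ 2) / 2)‖ = Real.exp ((σ ^ 2 - v ^ 2) / 2) := by
  rw [Complex.norm_exp]
  congr 1
  have h : (((σ : ℂ) + (v : ℂ) * Complex.I) ^ 2) / 2 =
      (((σ ^ 2 - v ^ 2) / 2 : ℝ) : ℂ) + ((σ * v : ℝ) : ℂ) * Complex.I := by
    push_cast
    ring_nf
    rw [Complex.I_sq]
    ring
  rw [h, Complex.add_re, Complex.ofReal_re, Complex.re_ofReal_mul, Complex.I_re]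
  ring

private theorem mel_fun (σ L : ℝ) :
    (fun v : ℝ => Complex.exp ((((σ : ℂ) + (v : ℂ) * Complex.I) ^ 2) / 2) *
      Complex.exp (-(((σ : ℂ) + (v : ℂ) * Complex.I) * (L : ℂ)))) =
    fun v : ℝ => Complex.exp (-(((L : ℂ)) ^ 2 / 2)) *
      Complex.exp (-(1 / 2 : ℂ) * ((v : ℂ) + ((L - σ : ℝ) : ℂ) * Complex.I) ^ 2) := by
  funext v
  rw [← Complex.exp_add, ← Complex.exp_add]
  congr 1
  push_cast
  ring_nf
  rw [Complex.I_sq]
  ring

private theorem half_re : 0 < (1 / 2 : ℂ).re := by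
  norm_num

theorem mel_integrable (σ L : ℝ) :
    Integrable (fun v : ℝ => Complex.exp ((((σ : ℂ) + (v : ℂ) * Complex.I) ^ 2) / 2) *
      Complex.exp (-(((σ : ℂ) + (v : ℂ) * Complex.I) * (L : ℂ)))) := by
  rw [mel_fun]
  exact (GaussianFourier.integrable_cexp_neg_mul_sq_add_real_mul_I half_re (L - σ)).const_mul _

theorem lg_mellin (σ : ℝ) {x : ℝ} (hx : 0 < x) :
    ∫ v : ℝ, Complex.exp ((((σ : ℂ) + (v : ℂ) * Complex.I) ^ 2) / 2) *
      Complex.exp (-(((σ : ℂ) + (v : ℂ) * Complex.I) * (Real.log x : ℂ))) =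
      ((Real.sqrt (2 * Real.pi) * lg x : ℝ) : ℂ) := by
  rw [mel_fun, integral_const_mul, GaussianFourier.integral_cexp_neg_mul_sq_add_real_mul_I half_re]
  have h1 : ((Real.pi : ℂ) / (1 / 2 : ℂ)) = ((2 * Real.pi : ℝ) : ℂ) := by
    push_cast
    ring
  have h2 : (((2 * Real.pi : ℝ) : ℂ)) ^ (1 / 2 : ℂ) = ((Real.sqrt (2 * Real.pi) : ℝ) : ℂ) := by
    rw [Real.sqrt_eq_rpow, Complex.ofReal_cpow (by positivity)]
    norm_num
  rw [h1, h2]
  unfold lg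
  push_cast
  ring

end Pool.Agent.Lib.MP_9a8698_nt
end

section

/-!
R4. The formula for the Fourier transform of `fw X t` (R0b, R1, R2, R3 may be used).

PROOF of `kj_norm`. `|exp(s^2/2)| = exp(((1/2-j)^2 - v^2)/2)` (`mel_norm`), `|exp(s log X)| = X^(1/2-j)`, `gam_bound j` with `τ = -(t+v)`
bounds the Gamma factor by `C (1+|t+v|)^j exp(-π|t+v|/2)`, and for `ξ ≠ 0` the number `w = 2πξ i` has `|w| = 2π|ξ|`,
`arg w = ± π/2`, so `|w^(-a)| = |w|^(-Re a) exp(Im a · arg w) ≤ (2π|ξ|)^(-(1/2+j)) exp(π|t+v|/2)` (`Complex.norm_cpow_of_ne_zero`),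
and `(2π)^(-(1/2+j)) ≤ 1`.

PROOF of `fw_fourier`. Let `c = 1/√(2π)`, `z_δ = δ + 2πξ i` for `δ > 0`. By `lg_mellin` with `σ = 1/2 - j` at `x/X`:
`fw X t x = c ∫ exp(s²/2) exp(s log X) x^(-s-it) dv` for `x > 0` (`s = sj j v`, `-s-it = aj j t v - 1`). Multiply by `exp(-z_δ x)`
and integrate over `x > 0`; Fubini (`integral_integral_swap`) is justified because
`∫∫ |exp(s²/2)| X^(1/2-j) x^(j-1/2) e^(-δx) dx dv < ∞` (the Gamma integral at the real exponent `1/2+j`, and `mel_norm`).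
With `gam_int`: `∫_{x>0} fw X t x exp(-z_δ x) dx = c ∫ exp(s²/2) exp(s log X) Γ(a) z_δ^(-a) dv`. Now `δ → 0+`. Left side: dominated
by `‖fw X t x‖` (`fw_integrable`), the limit is `∫ fw X t x exp(-2πiξx) dx = 𝓕 (fw X t) ξ` (`Real.fourier_eq'` or
`Real.fourierIntegral_eq'`, whatever it is called here; `fw` vanishes for `x ≤ 0`). Right side: pointwise limit because `z ↦ z^(-a)` is
continuous at `2πξi` (slit plane); domination: `|z_δ^(-a)| ≤ |z_δ|^(-(1/2+j)) exp(π|t+v|/2) ≤ (2π|ξ|)^(-(1/2+j)) exp(π|t+v|/2)`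
(`|arg z_δ| ≤ π/2`, `|z_δ| ≥ 2π|ξ|`), so the integrand is at most `C X^(1/2-j) |ξ|^(-(1/2+j)) (1+|t+v|)^j exp(-v²/2)`, integrable.
-/

set_option autoImplicit false

open MeasureTheory
open scoped FourierTransform

namespace Pool.Agent.Lib.MP_9a8698_nt

theorem poly_gauss_integrable (j : ℕ) (t : ℝ) :
    Integrable (fun v : ℝ => (1 + |t + v|) ^ j * Real.exp (-(v ^ 2 / 2))) := by
  have h1 : Integrable (fun v : ℝ => Real.exp (j * |t| + (j : ℝ) ^ 2) * Real.exp (-(1 / 4) * v ^ 2)) :=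
    (integrable_exp_neg_mul_sq (by norm_num)).const_mul _
  refine h1.mono' (Continuous.aestronglyMeasurable (by fun_prop)) ?_
  refine Filter.Eventually.of_forall fun v => ?_
  have h0 : (0 : ℝ) ≤ (1 + |t + v|) ^ j * Real.exp (-(v ^ 2 / 2)) := by positivity
  rw [Real.norm_eq_abs, abs_of_nonneg h0]
  have h2 : 1 + |t + v| ≤ Real.exp (|t| + |v|) := by
    have h3 := Real.add_one_le_exp (|t| + |v|)
    have h4 := abs_add_le t v
    linarith
  have h5 : (1 + |t + v|) ^ j ≤ Real.exp (j * (|t| + |v|)) := by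
    rw [Real.exp_nat_mul]
    exact pow_le_pow_left₀ (by positivity) h2 j
  calc (1 + |t + v|) ^ j * Real.exp (-(v ^ 2 / 2))
      ≤ Real.exp (j * (|t| + |v|)) * Real.exp (-(v ^ 2 / 2)) :=
        mul_le_mul_of_nonneg_right h5 (Real.exp_pos _).le
    _ = Real.exp (j * (|t| + |v|) + -(v ^ 2 / 2)) := (Real.exp_add _ _).symm
    _ ≤ Real.exp ((j * |t| + (j : ℝ) ^ 2) + -(1 / 4) * v ^ 2) := by
        apply Real.exp_le_exp.mpr
        have h6 : v ^ 2 = |v| ^ 2 := (sq_abs v).symm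
        rw [h6]
        nlinarith [sq_nonneg (|v| / 2 - j)]
    _ = Real.exp (j * |t| + (j : ℝ) ^ 2) * Real.exp (-(1 / 4) * v ^ 2) := Real.exp_add _ _

private theorem R4_aj (j : ℕ) (t v : ℝ) :
    aj j t v = (((1 / 2 + j : ℝ)) : ℂ) + ((-(t + v) : ℝ) : ℂ) * Complex.I := by
  unfold aj
  push_cast
  ring

private theorem R4_aj_re (j : ℕ) (t v : ℝ) : (aj j t v).re = 1 / 2 + j := by
  rw [R4_aj, Complex.add_re, Complex.ofReal_re, Complex.re_ofReal_mul, Complex.I_re, mul_zero,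
    add_zero]

private theorem R4_aj_im (j : ℕ) (t v : ℝ) : (aj j t v).im = -(t + v) := by
  rw [R4_aj, Complex.add_im, Complex.ofReal_im, Complex.im_ofReal_mul, Complex.I_im, mul_one,
    zero_add]

private theorem R4_cpow (j : ℕ) (t v : ℝ) {z : ℂ} (hz : 0 ≤ z.re) (hz0 : z ≠ 0) :
    ‖z ^ (-(aj j t v))‖ ≤ ‖z‖ ^ (-((1 / 2 : ℝ) + j)) * Real.exp (Real.pi * |t + v| / 2) := by
  rw [Complex.norm_cpow_of_ne_zero hz0, Complex.neg_re, Complex.neg_im, R4_aj_re, R4_aj_im,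
    neg_neg, div_eq_mul_inv, ← Real.exp_neg]
  refine mul_le_mul_of_nonneg_left (Real.exp_le_exp.mpr ?_) (Real.rpow_nonneg (norm_nonneg _) _)
  have h1 : |z.arg| ≤ Real.pi / 2 := Complex.abs_arg_le_pi_div_two_iff.mpr hz
  calc -(z.arg * (t + v)) ≤ |z.arg * (t + v)| := neg_le_abs _
    _ = |z.arg| * |t + v| := abs_mul _ _
    _ ≤ Real.pi / 2 * |t + v| := mul_le_mul_of_nonneg_right h1 (abs_nonneg _)
    _ = Real.pi * |t + v| / 2 := by ring

private theorem R4_X (j : ℕ) {X : ℝ} (hX : 0 < X) (v : ℝ) :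
    ‖Complex.exp (sj j v * (Real.log X : ℂ))‖ = X ^ ((1 / 2 : ℝ) - j) := by
  rw [Complex.norm_exp, Real.rpow_def_of_pos hX]
  congr 1
  unfold sj
  rw [Complex.mul_re, Complex.ofReal_re, Complex.ofReal_im, mul_zero, sub_zero, Complex.add_re,
    Complex.ofReal_re, Complex.re_ofReal_mul, Complex.I_re, mul_zero, add_zero]
  ring

private theorem R4_sq (j : ℕ) (v : ℝ) :
    ‖Complex.exp ((sj j v) ^ 2 / 2)‖ = Real.exp (((1 / 2 - j : ℝ) ^ 2 - v ^ 2) / 2) := by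
  unfold sj
  exact mel_norm _ v

/-- the integrand with a general `z` in the right half plane -/
private theorem R4_norm (j : ℕ) : ∃ C : ℝ, 0 < C ∧ ∀ (X t v : ℝ) (z : ℂ), 0 < X → 0 ≤ z.re → z ≠ 0 →
    ‖Complex.exp ((sj j v) ^ 2 / 2) * Complex.exp (sj j v * (Real.log X : ℂ)) *
      Complex.Gamma (aj j t v) * z ^ (-(aj j t v))‖ ≤
      C * X ^ ((1 / 2 : ℝ) - j) * ‖z‖ ^ (-((1 / 2 : ℝ) + j)) *
      ((1 + |t + v|) ^ j * Real.exp (-(v ^ 2 / 2))) := by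
  obtain ⟨C, hC, hG⟩ := gam_bound j
  refine ⟨Real.exp ((1 / 2 - j : ℝ) ^ 2 / 2) * C, by positivity, fun X t v z hX hz hz0 => ?_⟩
  have h1 := hG (-(t + v))
  rw [← R4_aj, abs_neg] at h1
  have h2 := R4_cpow j t v hz hz0
  rw [norm_mul, norm_mul, norm_mul, R4_X j hX, R4_sq]
  have h3 : Real.exp (((1 / 2 - j : ℝ) ^ 2 - v ^ 2) / 2) =
      Real.exp ((1 / 2 - j : ℝ) ^ 2 / 2) * Real.exp (-(v ^ 2 / 2)) := by
    rw [← Real.exp_add]
    congr 1
    ring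
  have h4 : Real.exp (-(Real.pi * |t + v| / 2)) * Real.exp (Real.pi * |t + v| / 2) = 1 := by
    rw [← Real.exp_add, neg_add_cancel, Real.exp_zero]
  have h5 : 0 ≤ X ^ ((1 / 2 : ℝ) - j) := Real.rpow_nonneg hX.le _
  have h6 : 0 ≤ ‖z‖ ^ (-((1 / 2 : ℝ) + j)) := Real.rpow_nonneg (norm_nonneg _) _
  rw [h3]
  calc Real.exp ((1 / 2 - j : ℝ) ^ 2 / 2) * Real.exp (-(v ^ 2 / 2)) * X ^ ((1 / 2 : ℝ) - j) *
        ‖Complex.Gamma (aj j t v)‖ * ‖z ^ (-(aj j t v))‖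
      ≤ Real.exp ((1 / 2 - j : ℝ) ^ 2 / 2) * Real.exp (-(v ^ 2 / 2)) * X ^ ((1 / 2 : ℝ) - j) *
        (C * (1 + |t + v|) ^ j * Real.exp (-(Real.pi * |t + v| / 2))) *
        (‖z‖ ^ (-((1 / 2 : ℝ) + j)) * Real.exp (Real.pi * |t + v| / 2)) := by
        gcongr
    _ = Real.exp ((1 / 2 - j : ℝ) ^ 2 / 2) * C * X ^ ((1 / 2 : ℝ) - j) *
        ‖z‖ ^ (-((1 / 2 : ℝ) + j)) * ((1 + |t + v|) ^ j * Real.exp (-(v ^ 2 / 2))) *
        (Real.exp (-(Real.pi * |t + v| / 2)) * Real.exp (Real.pi * |t + v| / 2)) := by ring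
    _ = _ := by rw [h4, mul_one]

private theorem R4_w {ξ : ℝ} (hξ : ξ ≠ 0) :
    (((2 * Real.pi * ξ : ℝ) : ℂ) * Complex.I) ≠ 0 ∧
      0 ≤ (((2 * Real.pi * ξ : ℝ) : ℂ) * Complex.I).re ∧
      ‖((2 * Real.pi * ξ : ℝ) : ℂ) * Complex.I‖ = 2 * Real.pi * |ξ| := by
  refine ⟨?_, ?_, ?_⟩
  · refine mul_ne_zero ?_ Complex.I_ne_zero
    exact_mod_cast mul_ne_zero (by positivity) hξ
  · rw [Complex.re_ofReal_mul, Complex.I_re, mul_zero]
  · rw [norm_mul, Complex.norm_I, mul_one, Complex.norm_real, Real.norm_eq_abs, abs_mul,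
      abs_of_pos (by positivity : (0 : ℝ) < 2 * Real.pi)]

private theorem R4_pi (j : ℕ) {ξ y : ℝ} (hξ : ξ ≠ 0) (hy : 2 * Real.pi * |ξ| ≤ y) :
    y ^ (-((1 / 2 : ℝ) + j)) ≤ |ξ| ^ (-((1 / 2 : ℝ) + j)) := by
  have h1 : 0 < |ξ| := abs_pos.mpr hξ
  have h2 : |ξ| ≤ y := by
    have : 1 * |ξ| ≤ 2 * Real.pi * |ξ| := by
      refine mul_le_mul_of_nonneg_right ?_ h1.le
      have := Real.pi_gt_three
      linarith
    linarith
  refine Real.rpow_le_rpow_of_nonpos h1 h2 ?_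
  have : (0 : ℝ) ≤ j := Nat.cast_nonneg j
  linarith

theorem kj_norm (j : ℕ) : ∃ C : ℝ, 0 < C ∧ ∀ X t ξ v : ℝ, 0 < X → ξ ≠ 0 →
    ‖kj j X t ξ v‖ ≤ C * X ^ ((1 / 2 : ℝ) - j) * |ξ| ^ (-((1 / 2 : ℝ) + j)) *
      ((1 + |t + v|) ^ j * Real.exp (-(v ^ 2 / 2))) := by
  obtain ⟨C, hC, h⟩ := R4_norm j
  refine ⟨C, hC, fun X t ξ v hX hξ => ?_⟩
  obtain ⟨h1, h2, h3⟩ := R4_w hξ
  refine (h X t v _ hX h2 h1).trans ?_
  refine mul_le_mul_of_nonneg_right ?_ (by positivity)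
  refine mul_le_mul_of_nonneg_left ?_ (by positivity)
  rw [h3]
  exact R4_pi j hξ le_rfl

private theorem R4_sj_cont (j : ℕ) : Continuous (sj j) := by
  unfold sj
  fun_prop

private theorem R4_aj_cont (j : ℕ) (t : ℝ) : Continuous (aj j t) := by
  unfold aj
  fun_prop

private theorem R4_gam_cont (j : ℕ) (t : ℝ) : Continuous fun v => Complex.Gamma (aj j t v) := by
  rw [continuous_iff_continuousAt]
  intro v
  have h1 : ContinuousAt Complex.Gamma (aj j t v) := by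
    refine (Complex.differentiableAt_Gamma _ fun m hm => ?_).continuousAt
    have h2 := congrArg Complex.re hm
    rw [R4_aj_re, Complex.neg_re, Complex.natCast_re] at h2
    have h3 : (0 : ℝ) ≤ j := Nat.cast_nonneg j
    have h4 : (0 : ℝ) ≤ m := Nat.cast_nonneg m
    linarith
  exact ContinuousAt.comp (f := aj j t) h1 (R4_aj_cont j t).continuousAt

private theorem R4_cont (j : ℕ) (X t : ℝ) {z : ℂ} (hz : z ≠ 0) : Continuous fun v =>
    Complex.exp ((sj j v) ^ 2 / 2) * Complex.exp (sj j v * (Real.log X : ℂ)) *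
      Complex.Gamma (aj j t v) * z ^ (-(aj j t v)) := by
  have h1 := R4_sj_cont j
  have h2 := R4_aj_cont j t
  have h3 := R4_gam_cont j t
  refine ((Continuous.mul ?_ ?_).mul h3).mul ?_
  · exact Complex.continuous_exp.comp ((h1.pow 2).div_const 2)
  · exact Complex.continuous_exp.comp (h1.mul continuous_const)
  · exact Continuous.const_cpow h2.neg (Or.inl hz)

theorem kj_continuous (j : ℕ) (X t : ℝ) {ξ : ℝ} (hξ : ξ ≠ 0) : Continuous (kj j X t ξ) :=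
  R4_cont j X t (R4_w hξ).1

/-- the weight as a Mellin integral -/
private theorem R4_mellin (j : ℕ) {X : ℝ} (hX : 0 < X) (t : ℝ) {x : ℝ} (hx : 0 < x) :
    fw X t x = ((1 / Real.sqrt (2 * Real.pi) : ℝ) : ℂ) * ∫ v : ℝ,
      Complex.exp ((sj j v) ^ 2 / 2) * Complex.exp (sj j v * (Real.log X : ℂ)) *
        (x : ℂ) ^ (aj j t v - 1) := by
  have h1 := lg_mellin (1 / 2 - j) (div_pos hx hX)
  have hpi : (Real.sqrt (2 * Real.pi) : ℝ) ≠ 0 := by
    have := Real.sqrt_pos.mpr (show (0 : ℝ) < 2 * Real.pi by positivity)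
    exact this.ne'
  have h2 : ((lg (x / X) : ℝ) : ℂ) = ((1 / Real.sqrt (2 * Real.pi) : ℝ) : ℂ) *
      ((Real.sqrt (2 * Real.pi) * lg (x / X) : ℝ) : ℂ) := by
    rw [← Complex.ofReal_mul]
    congr 1
    field_simp
  rw [fw, if_pos hx, h2, ← h1, mul_assoc, ← integral_mul_const]
  congr 1
  refine integral_congr_ae (Filter.Eventually.of_forall fun v => ?_)
  have hx0 : (x : ℂ) ≠ 0 := by exact_mod_cast hx.ne'
  simp only
  rw [Complex.cpow_def_of_ne_zero hx0, ← Complex.ofReal_log hx.le, Real.log_div hx.ne' hX.ne']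
  simp only [← Complex.exp_add]
  unfold sj aj
  congr 1
  push_cast
  ring

/-- Fubini -/
private theorem R4_fubini (j : ℕ) {X : ℝ} (hX : 0 < X) (t : ℝ) {z : ℂ} (hz : 0 < z.re) :
    ∫ x in Set.Ioi (0 : ℝ), fw X t x * Complex.exp (-(z * x)) =
      ((1 / Real.sqrt (2 * Real.pi) : ℝ) : ℂ) * ∫ v : ℝ,
        Complex.exp ((sj j v) ^ 2 / 2) * Complex.exp (sj j v * (Real.log X : ℂ)) *
          Complex.Gamma (aj j t v) * z ^ (-(aj j t v)) := by
  have e1 : ∫ x in Set.Ioi (0 : ℝ), fw X t x * Complex.exp (-(z * x)) =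
      ∫ x in Set.Ioi (0 : ℝ), ((1 / Real.sqrt (2 * Real.pi) : ℝ) : ℂ) * ∫ v : ℝ,
        Complex.exp ((sj j v) ^ 2 / 2) * Complex.exp (sj j v * (Real.log X : ℂ)) *
          ((x : ℂ) ^ (aj j t v - 1) * Complex.exp (-(z * x))) := by
    refine setIntegral_congr_fun measurableSet_Ioi fun x hx => ?_
    rw [R4_mellin j hX t hx, mul_assoc, ← integral_mul_const]
    congr 1
    refine integral_congr_ae (Filter.Eventually.of_forall fun v => ?_)
    beta_reduce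
    ring
  rw [e1, integral_const_mul]
  congr 1
  have hare : ∀ v, 0 < (aj j t v).re := fun v => by
    rw [R4_aj_re]
    positivity
  have hmeas : Measurable (Function.uncurry fun (x : ℝ) (v : ℝ) =>
      Complex.exp ((sj j v) ^ 2 / 2) * Complex.exp (sj j v * (Real.log X : ℂ)) *
          ((x : ℂ) ^ (aj j t v - 1) * Complex.exp (-(z * x)))) := by
    have h1 : Measurable fun p : ℝ × ℝ => sj j p.2 := (R4_sj_cont j).measurable.comp measurable_snd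
    have h2 : Measurable fun p : ℝ × ℝ => aj j t p.2 :=
      (R4_aj_cont j t).measurable.comp measurable_snd
    have h3 : Measurable fun p : ℝ × ℝ => (p.1 : ℂ) :=
      Complex.measurable_ofReal.comp measurable_fst
    refine ((Complex.measurable_exp.comp ((h1.pow_const 2).div_const 2)).mul
      (Complex.measurable_exp.comp (h1.mul_const _))).mul
      ((h3.pow (h2.sub_const 1)).mul (Complex.measurable_exp.comp ((h3.const_mul z).neg)))
  have hint : Integrable (Function.uncurry fun (x : ℝ) (v : ℝ) =>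
      Complex.exp ((sj j v) ^ 2 / 2) * Complex.exp (sj j v * (Real.log X : ℂ)) *
          ((x : ℂ) ^ (aj j t v - 1) * Complex.exp (-(z * x))))
      ((volume.restrict (Set.Ioi (0 : ℝ))).prod volume) := by
    have hf : Integrable (fun x : ℝ => ‖(x : ℂ) ^ ((((1 / 2 + j : ℝ)) : ℂ) - 1) *
        Complex.exp (-(z * x))‖) (volume.restrict (Set.Ioi (0 : ℝ))) := by
      refine (gam_integrable _ z ?_ hz).norm
      rw [Complex.ofReal_re]
      positivity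
    have hg : Integrable (fun v : ℝ => Real.exp ((1 / 2 - j : ℝ) ^ 2 / 2) * X ^ ((1 / 2 : ℝ) - j) *
        Real.exp (-(1 / 2) * v ^ 2)) :=
      (integrable_exp_neg_mul_sq (by norm_num)).const_mul _
    refine (hf.mul_prod hg).mono' hmeas.aestronglyMeasurable ?_
    have h3 : ∀ᵐ p : ℝ × ℝ ∂((volume.restrict (Set.Ioi (0 : ℝ))).prod volume),
        p.1 ∈ Set.Ioi (0 : ℝ) := by
      have h4 : (volume.restrict (Set.Ioi (0 : ℝ))).prod (volume : Measure ℝ) =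
          ((volume : Measure ℝ).prod (volume : Measure ℝ)).restrict (Set.Ioi (0 : ℝ) ×ˢ Set.univ) := by
        rw [← Measure.prod_restrict, Measure.restrict_univ]
      rw [h4, ae_restrict_iff' (measurableSet_Ioi.prod MeasurableSet.univ)]
      exact Filter.Eventually.of_forall fun p hp => hp.1
    filter_upwards [h3] with p hp
    obtain ⟨x, v⟩ := p
    simp only [Function.uncurry]
    have hx : 0 < x := hp
    rw [norm_mul, norm_mul, norm_mul, norm_mul, R4_X j hX, R4_sq,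
      Complex.norm_cpow_eq_rpow_re_of_pos hx, Complex.norm_cpow_eq_rpow_re_of_pos hx, Complex.sub_re,
      Complex.sub_re, R4_aj_re, Complex.ofReal_re]
    have h5 : Real.exp (((1 / 2 - j : ℝ) ^ 2 - v ^ 2) / 2) =
        Real.exp ((1 / 2 - j : ℝ) ^ 2 / 2) * Real.exp (-(1 / 2) * v ^ 2) := by
      rw [← Real.exp_add]
      congr 1
      ring
    rw [h5]
    apply le_of_eq
    ring
  rw [integral_integral_swap hint]
  refine integral_congr_ae (Filter.Eventually.of_forall fun v => ?_)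
  simp only
  rw [integral_const_mul, gam_int _ _ (hare v) hz]
  ring

theorem fw_fourier (j : ℕ) {X : ℝ} (hX : 0 < X) (t : ℝ) {ξ : ℝ} (hξ : ξ ≠ 0) :
    𝓕 (fw X t) ξ = ((1 / Real.sqrt (2 * Real.pi) : ℝ) : ℂ) * ∫ v : ℝ, kj j X t ξ v := by
  set w : ℂ := ((2 * Real.pi * ξ : ℝ) : ℂ) * Complex.I with hw
  obtain ⟨hw0, hwre, hwn⟩ := R4_w hξ
  rw [← hw] at hw0 hwre hwn
  have hwre' : w.re = 0 := by
    rw [hw, Complex.re_ofReal_mul, Complex.I_re, mul_zero]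
  have hwim : w.im = 2 * Real.pi * ξ := by
    rw [hw, Complex.im_ofReal_mul, Complex.I_im, mul_one]
  have hwim0 : w.im ≠ 0 := by
    rw [hwim]
    exact mul_ne_zero (by positivity) hξ
  set z : ℕ → ℂ := fun n => ((1 / ((n : ℝ) + 1) : ℝ) : ℂ) + w with hz
  have hzre : ∀ n, 0 < (z n).re := fun n => by
    simp only [hz, Complex.add_re, Complex.ofReal_re, hwre', add_zero]
    positivity
  have hz0 : ∀ n, z n ≠ 0 := fun n h => by
    have := hzre n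
    rw [h, Complex.zero_re] at this
    exact lt_irrefl _ this
  have hzlim : Filter.Tendsto z Filter.atTop (nhds w) := by
    have h1 : Filter.Tendsto (fun n : ℕ => ((1 / ((n : ℝ) + 1) : ℝ) : ℂ)) Filter.atTop
        (nhds ((0 : ℝ) : ℂ)) :=
      (Complex.continuous_ofReal.tendsto _).comp tendsto_one_div_add_atTop_nhds_zero_nat
    have h2 := h1.add_const w
    rw [Complex.ofReal_zero, zero_add] at h2
    exact h2
  have hzn : ∀ n, 2 * Real.pi * |ξ| ≤ ‖z n‖ := fun n => by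
    have h1 := Complex.abs_im_le_norm (z n)
    have h2 : (z n).im = 2 * Real.pi * ξ := by
      simp only [hz, Complex.add_im, Complex.ofReal_im, hwim, zero_add]
    rw [h2, abs_mul, abs_of_pos (by positivity : (0 : ℝ) < 2 * Real.pi)] at h1
    exact h1
  -- the left side
  have hL : Filter.Tendsto (fun n => ∫ x in Set.Ioi (0 : ℝ), fw X t x * Complex.exp (-(z n * x)))
      Filter.atTop (nhds (∫ x in Set.Ioi (0 : ℝ), fw X t x * Complex.exp (-(w * x)))) := by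
    have hfm : Measurable (fw X t) := (fw_continuous hX t).measurable
    refine tendsto_integral_of_dominated_convergence (fun x => ‖fw X t x‖) (fun n => ?_)
      (fw_integrable hX t).norm.integrableOn (fun n => ?_) ?_
    · refine (hfm.mul ?_).aestronglyMeasurable
      exact Complex.measurable_exp.comp ((Complex.measurable_ofReal.const_mul (z n)).neg)
    · rw [ae_restrict_iff' measurableSet_Ioi]
      refine Filter.Eventually.of_forall fun x hx => ?_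
      rw [norm_mul, Complex.norm_exp]
      refine mul_le_of_le_one_right (norm_nonneg _) ?_
      rw [Real.exp_le_one_iff, Complex.neg_re, Complex.re_mul_ofReal, neg_nonpos]
      exact mul_nonneg (hzre n).le (le_of_lt hx)
    · refine Filter.Eventually.of_forall fun x => ?_
      refine Filter.Tendsto.const_mul _ ?_
      exact (Complex.continuous_exp.tendsto _).comp ((hzlim.mul_const _).neg)
  -- the right side
  obtain ⟨C, hC, hCb⟩ := R4_norm j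
  have hR : Filter.Tendsto (fun n => ∫ v : ℝ,
        Complex.exp ((sj j v) ^ 2 / 2) * Complex.exp (sj j v * (Real.log X : ℂ)) *
          Complex.Gamma (aj j t v) * (z n) ^ (-(aj j t v)))
      Filter.atTop (nhds (∫ v : ℝ, kj j X t ξ v)) := by
    refine tendsto_integral_of_dominated_convergence
      (fun v => C * X ^ ((1 / 2 : ℝ) - j) * |ξ| ^ (-((1 / 2 : ℝ) + j)) *
        ((1 + |t + v|) ^ j * Real.exp (-(v ^ 2 / 2)))) (fun n => ?_)
      ((poly_gauss_integrable j t).const_mul _) (fun n => ?_) ?_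
    · exact (R4_cont j X t (hz0 n)).aestronglyMeasurable
    · refine Filter.Eventually.of_forall fun v => ?_
      refine (hCb X t v _ hX (hzre n).le (hz0 n)).trans ?_
      refine mul_le_mul_of_nonneg_right ?_ (by positivity)
      refine mul_le_mul_of_nonneg_left ?_ (by positivity)
      exact R4_pi j hξ (hzn n)
    · refine Filter.Eventually.of_forall fun v => ?_
      unfold kj
      refine Filter.Tendsto.const_mul _ ?_
      have h1 : ContinuousAt (fun y : ℂ => y ^ (-(aj j t v))) w := by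
        refine (continuousAt_cpow_const ?_)
        exact Or.inr hwim0
      exact h1.tendsto.comp hzlim
  have hLR := tendsto_nhds_unique hL (by
    have h1 := hR.const_mul ((1 / Real.sqrt (2 * Real.pi) : ℝ) : ℂ)
    refine h1.congr fun n => ?_
    exact (R4_fubini j hX t (hzre n)).symm)
  rw [← hLR, Real.fourier_real_eq_integral_exp_smul]
  rw [← setIntegral_eq_integral_of_forall_compl_eq_zero (s := Set.Ioi (0 : ℝ))]
  · refine setIntegral_congr_fun measurableSet_Ioi fun x _ => ?_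
    simp only [smul_eq_mul]
    rw [mul_comm]
    congr 2
    rw [hw]
    push_cast
    ring
  · intro x hx
    have hx' : ¬ 0 < x := hx
    rw [fw, if_neg hx', smul_zero]

end Pool.Agent.Lib.MP_9a8698_nt
end

section

/-!
R5. Consequences of the formula for the Fourier transform (R4 may be used).

PROOF of `fw_fourier_decay`. `fw_fourier`, `kj_norm` and `(1+|t+v|)^j ≤ (1+|t|)^j (1+|v|)^j`;
`C' = C ∫ (1+|v|)^j exp(-v²/2) dv + 1`.

PROOF of `fw_fourier_zero`. `𝓕 (fw X t) 0 = ∫_{x>0} lg(x/X) x^(-it) dx`; substitute `x = X e^y`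
(`integral_exp_neg_Ioi`-free: use `MeasureTheory.integral_comp_...` or the change of variables `x = exp y`, then shift `y` by `log X`):
`= X^(1-it) ∫ exp(-y²/2 + (1-it) y) dy = X^(1-it) √(2π) exp((1-it)²/2)` and `|exp((1-it)²/2)| = exp((1-t²)/2)`,
`√(2π) e^(1/2) < 5`. Alternatively: `lg_mellin`-like completion of the square (`integral_cexp_quadratic`).

PROOF of `fw_fourier_sum`. Line `j = 0`, `a = 1/2 - i(t+v)`. For a positive real `m` and `w = 2πi` resp. `-2πi`: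
`(m w)^(-a) = m^(-a) w^(-a)` (`Complex.mul_cpow_ofReal_nonneg` or `Complex.natCast_mul_natCast_cpow`-type lemma; `m` is a positive real),
`m^(-a) = m^(-1/2) exp(i (t+v) log m)`. Exchange the finite sum and the integral (integrable by `kj_norm`, `kj_continuous`,
`poly_gauss_integrable`): `∑_{m ≤ M} 𝓕 (fw X t) (± m) = c ∫ exp(s²/2) exp(s log X) Γ(a) w^(-a) DD M (t+v) dv`, and
`|exp(s²/2) exp(s log X) Γ(a) w^(-a)| ≤ C X^(1/2) exp(-v²/2)`: this is `kj_norm 0` at `ξ = ± 1`.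
-/

set_option autoImplicit false

open Finset MeasureTheory
open scoped FourierTransform

namespace Pool.Agent.Lib.MP_9a8698_nt

theorem R5_c_le : (1 / Real.sqrt (2 * Real.pi) : ℝ) ≤ 1 := by
  have h1 : (1 : ℝ) ≤ Real.sqrt (2 * Real.pi) := by
    rw [Real.one_le_sqrt]
    nlinarith [Real.pi_gt_three]
  rw [div_le_one (by positivity)]
  exact h1

theorem R5_c_nonneg : 0 ≤ (1 / Real.sqrt (2 * Real.pi) : ℝ) := by positivity

theorem fw_fourier_decay (j : ℕ) : ∃ C : ℝ, 0 < C ∧ ∀ X t ξ : ℝ, 0 < X → ξ ≠ 0 →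
    ‖𝓕 (fw X t) ξ‖ ≤ C * X ^ ((1 / 2 : ℝ) - j) * |ξ| ^ (-((1 / 2 : ℝ) + j)) * (1 + |t|) ^ j := by
  obtain ⟨C, hC, h⟩ := kj_norm j
  set I : ℝ := ∫ v : ℝ, (1 + |(0 : ℝ) + v|) ^ j * Real.exp (-(v ^ 2 / 2)) with hI
  have hI0 : 0 ≤ I := integral_nonneg fun v => by positivity
  refine ⟨C * I + 1, by positivity, ?_⟩
  intro X t ξ hX hξ
  rw [fw_fourier j hX t hξ, norm_mul, Complex.norm_real, Real.norm_of_nonneg R5_c_nonneg]
  have h1 : ‖∫ v : ℝ, kj j X t ξ v‖ ≤ ∫ v : ℝ, (C * X ^ ((1 / 2 : ℝ) - j) * |ξ| ^ (-((1 / 2 : ℝ) + j)) *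
      (1 + |t|) ^ j) * ((1 + |(0 : ℝ) + v|) ^ j * Real.exp (-(v ^ 2 / 2))) := by
    refine norm_integral_le_of_norm_le ((poly_gauss_integrable j 0).const_mul _)
      (Filter.Eventually.of_forall fun v => ?_)
    refine (h X t ξ v hX hξ).trans ?_
    have h2 : (1 + |t + v|) ^ j ≤ (1 + |t|) ^ j * (1 + |(0 : ℝ) + v|) ^ j := by
      rw [← mul_pow]
      refine pow_le_pow_left₀ (by positivity) ?_ j
      rw [zero_add]
      nlinarith [abs_add_le t v, abs_nonneg t, abs_nonneg v, mul_nonneg (abs_nonneg t) (abs_nonneg v)]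
    have h3 : 0 ≤ C * X ^ ((1 / 2 : ℝ) - j) * |ξ| ^ (-((1 / 2 : ℝ) + j)) := by positivity
    calc C * X ^ ((1 / 2 : ℝ) - j) * |ξ| ^ (-((1 / 2 : ℝ) + j)) * ((1 + |t + v|) ^ j * Real.exp (-(v ^ 2 / 2)))
        ≤ C * X ^ ((1 / 2 : ℝ) - j) * |ξ| ^ (-((1 / 2 : ℝ) + j)) *
          (((1 + |t|) ^ j * (1 + |(0 : ℝ) + v|) ^ j) * Real.exp (-(v ^ 2 / 2))) :=
          mul_le_mul_of_nonneg_left (mul_le_mul_of_nonneg_right h2 (Real.exp_pos _).le) h3
      _ = _ := by ring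
  rw [integral_const_mul, ← hI] at h1
  have h4 : 0 ≤ X ^ ((1 / 2 : ℝ) - j) * |ξ| ^ (-((1 / 2 : ℝ) + j)) * (1 + |t|) ^ j := by positivity
  calc (1 / Real.sqrt (2 * Real.pi) : ℝ) * ‖∫ v : ℝ, kj j X t ξ v‖
      ≤ 1 * (C * X ^ ((1 / 2 : ℝ) - j) * |ξ| ^ (-((1 / 2 : ℝ) + j)) * (1 + |t|) ^ j * I) :=
        mul_le_mul R5_c_le h1 (norm_nonneg _) zero_le_one
    _ = C * I * (X ^ ((1 / 2 : ℝ) - j) * |ξ| ^ (-((1 / 2 : ℝ) + j)) * (1 + |t|) ^ j) := by ring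
    _ ≤ (C * I + 1) * (X ^ ((1 / 2 : ℝ) - j) * |ξ| ^ (-((1 / 2 : ℝ) + j)) * (1 + |t|) ^ j) :=
        mul_le_mul_of_nonneg_right (by linarith) h4
    _ = _ := by ring

theorem R5_zero_eq {X : ℝ} (hX : 0 < X) (t : ℝ) :
    𝓕 (fw X t) 0 = ∫ y : ℝ, Complex.exp ((-(1 / 2) : ℂ) * (y : ℂ) ^ 2 +
      ((Real.log X : ℂ) + 1 - (t : ℂ) * Complex.I) * (y : ℂ) + (-((Real.log X : ℂ) ^ 2 / 2))) := by
  have h1 : 𝓕 (fw X t) 0 = ∫ x : ℝ, fw X t x := by
    rw [Real.fourier_eq']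
    refine integral_congr_ae (Filter.Eventually.of_forall fun x => ?_)
    simp
  have h2 : ∫ x : ℝ, fw X t x = ∫ x in Set.Ioi (0 : ℝ), fw X t x := by
    symm
    refine setIntegral_eq_integral_of_forall_compl_eq_zero fun x hx => ?_
    exact if_neg hx
  have h3 : Set.Ioi (0 : ℝ) = Real.exp '' Set.univ := by
    rw [Set.image_univ, Real.range_exp]
  rw [h1, h2, h3, integral_image_eq_integral_abs_deriv_smul MeasurableSet.univ
    (fun x _ => (Real.hasDerivAt_exp x).hasDerivWithinAt) Real.exp_injective.injOn, setIntegral_univ]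
  refine integral_congr_ae (Filter.Eventually.of_forall fun y => ?_)
  have hy := Real.exp_pos y
  simp only
  unfold fw lg
  rw [if_pos hy, abs_of_pos hy, Real.log_div hy.ne' hX.ne', Real.log_exp, Complex.real_smul, Complex.ofReal_exp,
    Complex.ofReal_exp, ← Complex.exp_add, ← Complex.exp_add]
  congr 1
  push_cast
  ring

theorem fw_fourier_zero {X : ℝ} (hX : 0 < X) (t : ℝ) :
    ‖𝓕 (fw X t) 0‖ ≤ 5 * X * Real.exp (-(t ^ 2 / 2)) := by
  rw [R5_zero_eq hX t, integral_cexp_quadratic (by norm_num), norm_mul]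
  have e1 : ((Real.pi : ℂ) / -(-(1 / 2))) = ((2 * Real.pi : ℝ) : ℂ) := by push_cast; ring
  have e2 : ‖((Real.pi : ℂ) / -(-(1 / 2))) ^ (1 / 2 : ℂ)‖ = Real.sqrt (2 * Real.pi) := by
    rw [e1, Complex.norm_cpow_eq_rpow_re_of_pos (by positivity), Real.sqrt_eq_rpow]
    norm_num
  have e3 : ‖Complex.exp (-((Real.log X : ℂ) ^ 2 / 2) -
      ((Real.log X : ℂ) + 1 - (t : ℂ) * Complex.I) ^ 2 / (4 * (-(1 / 2))))‖ =
      Real.exp (Real.log X + 1 / 2 - t ^ 2 / 2) := by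
    rw [Complex.norm_exp]
    congr 1
    have : (-((Real.log X : ℂ) ^ 2 / 2) - ((Real.log X : ℂ) + 1 - (t : ℂ) * Complex.I) ^ 2 / (4 * (-(1 / 2)))) =
        (((Real.log X + 1 / 2 - t ^ 2 / 2 : ℝ)) : ℂ) + ((-(Real.log X + 1) * t : ℝ) : ℂ) * Complex.I := by
      push_cast
      ring_nf
      rw [Complex.I_sq]
      ring
    rw [this, Complex.add_re, Complex.ofReal_re, Complex.re_ofReal_mul, Complex.I_re]
    ring
  rw [e2, e3, show Real.log X + 1 / 2 - t ^ 2 / 2 = Real.log X + (1 / 2 + -(t ^ 2 / 2)) by ring, Real.exp_add,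
    Real.exp_log hX, Real.exp_add]
  have h1 : Real.sqrt (2 * Real.pi) * Real.exp (1 / 2) ≤ 5 := by
    have h2 : (Real.sqrt (2 * Real.pi) * Real.exp (1 / 2)) ^ 2 ≤ 5 ^ 2 := by
      rw [mul_pow, Real.sq_sqrt (by positivity), ← Real.exp_nat_mul]
      have h3 : ((2 : ℕ) : ℝ) * (1 / 2) = 1 := by norm_num
      rw [h3]
      have h4 := Real.pi_lt_d2
      have h5 := Real.exp_one_lt_d9
      have h6 := Real.exp_pos 1
      nlinarith [Real.pi_pos]
    exact le_of_sq_le_sq h2 (by norm_num)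
  calc Real.sqrt (2 * Real.pi) * (X * (Real.exp (1 / 2) * Real.exp (-(t ^ 2 / 2))))
      = (Real.sqrt (2 * Real.pi) * Real.exp (1 / 2)) * (X * Real.exp (-(t ^ 2 / 2))) := by ring
    _ ≤ 5 * (X * Real.exp (-(t ^ 2 / 2))) := mul_le_mul_of_nonneg_right h1 (by positivity)
    _ = _ := by ring

theorem R5_gauss : Integrable (fun v : ℝ => Real.exp (-(v ^ 2 / 2))) := by
  have h := poly_gauss_integrable 0 0
  simpa using h

theorem R5_mul_cpow {m : ℝ} (hm : 0 < m) {w : ℂ} (hw : w ≠ 0) (a : ℂ) :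
    ((m : ℂ) * w) ^ a = (m : ℂ) ^ a * w ^ a := by
  have hm' : (m : ℂ) ≠ 0 := by exact_mod_cast hm.ne'
  rw [Complex.cpow_def_of_ne_zero (mul_ne_zero hm' hw), Complex.cpow_def_of_ne_zero hm',
    Complex.cpow_def_of_ne_zero hw, Complex.log_ofReal_mul hm hw, ← Complex.ofReal_log hm.le, ← Complex.exp_add]
  congr 1
  ring

theorem R5_kj_mul {m : ℝ} (hm : 0 < m) (X t : ℝ) {ε : ℝ} (hε : ε ≠ 0) (v : ℝ) :
    kj 0 X t (m * ε) v = (((m : ℝ) ^ (-(1 / 2 : ℝ)) : ℝ) : ℂ) *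
          Complex.exp ((((t + v) * Real.log m : ℝ) : ℂ) * Complex.I) * kj 0 X t ε v := by
  unfold kj
  have e1 : (((2 * Real.pi * (m * ε) : ℝ) : ℂ) * Complex.I) = (m : ℂ) * (((2 * Real.pi * ε : ℝ) : ℂ) * Complex.I) := by
    push_cast; ring
  have e2 : ((m : ℂ) * (((2 * Real.pi * ε : ℝ) : ℂ) * Complex.I)) ^ (-(aj 0 t v)) =
      (m : ℂ) ^ (-(aj 0 t v)) * (((2 * Real.pi * ε : ℝ) : ℂ) * Complex.I) ^ (-(aj 0 t v)) :=
    R5_mul_cpow hm (by
      refine mul_ne_zero ?_ Complex.I_ne_zero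
      exact_mod_cast mul_ne_zero (by positivity) hε) _
  have e3 : (m : ℂ) ^ (-(aj 0 t v)) = (((m : ℝ) ^ (-(1 / 2 : ℝ)) : ℝ) : ℂ) *
          Complex.exp ((((t + v) * Real.log m : ℝ) : ℂ) * Complex.I) := by
    rw [Complex.ofReal_cpow hm.le, Complex.cpow_def_of_ne_zero (by exact_mod_cast hm.ne'),
      Complex.cpow_def_of_ne_zero (by exact_mod_cast hm.ne'), ← Complex.ofReal_log hm.le, ← Complex.exp_add]
    congr 1
    unfold aj
    push_cast
    ring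
  rw [e1, e2, e3]
  ring

theorem fw_fourier_sum : ∃ C : ℝ, 0 < C ∧ ∀ (X t : ℝ) (M : ℕ), 0 < X →
    ‖∑ m ∈ Icc 1 M, (𝓕 (fw X t) (m : ℝ) + 𝓕 (fw X t) (-(m : ℝ)))‖ ≤
      C * X ^ (1 / 2 : ℝ) * ∫ v : ℝ, Real.exp (-(v ^ 2 / 2)) * ‖DD M (t + v)‖ := by
  obtain ⟨C, hC, h⟩ := kj_norm 0
  refine ⟨2 * C, by positivity, ?_⟩
  intro X t M hX
  set J : ℝ := ∫ v : ℝ, Real.exp (-(v ^ 2 / 2)) * ‖DD M (t + v)‖ with hJ
  have hb : ∀ (ξ : ℝ), ξ ≠ 0 → ∀ v : ℝ, ‖kj 0 X t ξ v‖ ≤ C * X ^ (1 / 2 : ℝ) * |ξ| ^ (-(1 / 2 : ℝ)) *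
      Real.exp (-(v ^ 2 / 2)) := by
    intro ξ hξ v
    have := h X t ξ v hX hξ
    simpa using this
  have hint : ∀ (ξ : ℝ), ξ ≠ 0 → Integrable (kj 0 X t ξ) := by
    intro ξ hξ
    refine Integrable.mono' (((R5_gauss).const_mul (C * X ^ (1 / 2 : ℝ) * |ξ| ^ (-(1 / 2 : ℝ)))))
      (kj_continuous 0 X t hξ).aestronglyMeasurable (Filter.Eventually.of_forall fun v => hb ξ hξ v)
  have hDD : Integrable (fun v : ℝ => Real.exp (-(v ^ 2 / 2)) * ‖DD M (t + v)‖) := by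
    refine Integrable.mono' (R5_gauss.mul_const (M : ℝ)) ?_ (Filter.Eventually.of_forall fun v => ?_)
    · have h1 : Continuous fun v : ℝ => DD M (t + v) := (DD_continuous M).comp (by fun_prop)
      exact (Continuous.mul (by fun_prop) h1.norm).aestronglyMeasurable
    · rw [norm_mul, Real.norm_of_nonneg (Real.exp_pos _).le, norm_norm]
      exact mul_le_mul_of_nonneg_left (DD_norm_le M _) (Real.exp_pos _).le
  have key : ∀ ε : ℝ, |ε| = 1 → ‖∑ m ∈ Icc 1 M, 𝓕 (fw X t) ((m : ℝ) * ε)‖ ≤ C * X ^ (1 / 2 : ℝ) * J := by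
    intro ε hε
    have hε0 : ε ≠ 0 := by
      intro h0
      rw [h0, abs_zero] at hε
      norm_num at hε
    have hterm : ∀ m ∈ Icc 1 M, 𝓕 (fw X t) ((m : ℝ) * ε) = ((1 / Real.sqrt (2 * Real.pi) : ℝ) : ℂ) *
        ∫ v : ℝ, (((m : ℝ) ^ (-(1 / 2 : ℝ)) : ℝ) : ℂ) *
          Complex.exp ((((t + v) * Real.log m : ℝ) : ℂ) * Complex.I) * kj 0 X t ε v := by
      intro m hm
      have hm0 : (0 : ℝ) < m := by
        have := (Finset.mem_Icc.mp hm).1
        exact_mod_cast this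
      rw [fw_fourier 0 hX t (mul_ne_zero hm0.ne' hε0)]
      congr 1
      refine integral_congr_ae (Filter.Eventually.of_forall fun v => ?_)
      exact R5_kj_mul hm0 X t hε0 v
    rw [Finset.sum_congr rfl hterm, ← Finset.mul_sum, ← integral_finsetSum]
    · have e1 : (fun v : ℝ => ∑ m ∈ Icc 1 M, (((m : ℝ) ^ (-(1 / 2 : ℝ)) : ℝ) : ℂ) *
          Complex.exp ((((t + v) * Real.log m : ℝ) : ℂ) * Complex.I) * kj 0 X t ε v) =
          fun v : ℝ => DD M (t + v) * kj 0 X t ε v := by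
        funext v
        rw [← Finset.sum_mul]
        rfl
      rw [e1, norm_mul, Complex.norm_real, Real.norm_of_nonneg R5_c_nonneg]
      have h1 : ‖∫ v : ℝ, DD M (t + v) * kj 0 X t ε v‖ ≤
          ∫ v : ℝ, (C * X ^ (1 / 2 : ℝ)) * (Real.exp (-(v ^ 2 / 2)) * ‖DD M (t + v)‖) := by
        refine norm_integral_le_of_norm_le (hDD.const_mul _) (Filter.Eventually.of_forall fun v => ?_)
        rw [norm_mul]
        have h2 := hb ε hε0 v
        rw [hε, Real.one_rpow, mul_one] at h2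
        calc ‖DD M (t + v)‖ * ‖kj 0 X t ε v‖ ≤ ‖DD M (t + v)‖ * (C * X ^ (1 / 2 : ℝ) * Real.exp (-(v ^ 2 / 2))) :=
              mul_le_mul_of_nonneg_left h2 (norm_nonneg _)
          _ = _ := by ring
      rw [integral_const_mul, ← hJ] at h1
      calc (1 / Real.sqrt (2 * Real.pi) : ℝ) * ‖∫ v : ℝ, DD M (t + v) * kj 0 X t ε v‖
          ≤ 1 * (C * X ^ (1 / 2 : ℝ) * J) := mul_le_mul R5_c_le h1 (norm_nonneg _) zero_le_one
        _ = _ := one_mul _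
    · intro m _
      refine Integrable.bdd_mul (hint ε hε0) (c := (m : ℝ) ^ (-(1 / 2 : ℝ))) ?_ (Filter.Eventually.of_forall fun v => ?_)
      · exact (Continuous.mul continuous_const (by fun_prop)).aestronglyMeasurable
      · rw [norm_mul, Complex.norm_exp_ofReal_mul_I, mul_one, Complex.norm_real]
        exact le_of_eq (Real.norm_of_nonneg (by positivity))
  have k1 := key 1 (by norm_num)
  have k2 := key (-1) (by norm_num)
  rw [Finset.sum_add_distrib]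
  have e1 : ∑ m ∈ Icc 1 M, 𝓕 (fw X t) (m : ℝ) = ∑ m ∈ Icc 1 M, 𝓕 (fw X t) ((m : ℝ) * 1) := by simp
  have e2 : ∑ m ∈ Icc 1 M, 𝓕 (fw X t) (-(m : ℝ)) = ∑ m ∈ Icc 1 M, 𝓕 (fw X t) ((m : ℝ) * (-1)) := by
    refine Finset.sum_congr rfl fun m _ => ?_
    rw [mul_neg, mul_one]
  rw [e1, e2]
  refine (norm_add_le _ _).trans ?_
  linarith

end Pool.Agent.Lib.MP_9a8698_nt
end

section

/-!
R6. The smooth sum in terms of the dual sum: Poisson summation (R0b, R5 may be used).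

PROOF of `SG_eq`. `Real.tsum_eq_tsum_fourier_of_rpow_decay` at `x = 0` with `b = 3/2`: `fw X t` is continuous (`fw_continuous`),
`O(|x|^(-2))` by `fw_decay`, and `𝓕 (fw X t) = O(|ξ|^(-3/2))` by `fw_fourier_decay 1`. `fourier n 0 = 1`. The sum over the
integers of `fw X t` is the sum over the natural numbers because `fw X t x = 0` for `x ≤ 0`.

PROOF of `SG_le`. Split the sum over the integers: `m = 0` (`fw_fourier_zero`), `1 ≤ |m| ≤ M` (`fw_fourier_sum`), `|m| > M`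
(`fw_fourier_decay J`): the last part is at most `2 C X^(1/2-J) (1+|t|)^J ∑_{m > M} m^(-1/2-J)` and
`∑_{m > M} m^(-1/2-J) ≤ ∫_M^∞ x^(-1/2-J) dx = M^(1/2-J)/(J-1/2) ≤ 2 M^(1/2-J)`, and
`X^(1/2-J) M^(1/2-J) (1+|t|)^J = (X M)^(1/2) ((1+|t|)/(X M))^J`.
-/

set_option autoImplicit false

open Finset MeasureTheory
open scoped FourierTransform

namespace Pool.Agent.Lib.MP_9a8698_nt

theorem R6_step {k : ℝ} (hk : 0 < k) :
    (k + 1) ^ (-(3 / 2 : ℝ)) ≤ 2 * (k ^ (-(1 / 2 : ℝ)) - (k + 1) ^ (-(1 / 2 : ℝ))) := by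
  have hk1 : 0 < k + 1 := by linarith
  set a := Real.sqrt k with ha
  set b := Real.sqrt (k + 1) with hb
  have ha0 : 0 < a := Real.sqrt_pos.mpr hk
  have hb0 : 0 < b := Real.sqrt_pos.mpr hk1
  have ha2 : a ^ 2 = k := Real.sq_sqrt hk.le
  have hb2 : b ^ 2 = k + 1 := Real.sq_sqrt hk1.le
  have hab : a ≤ b := Real.sqrt_le_sqrt (by linarith)
  have e1 : k ^ (-(1 / 2 : ℝ)) = a⁻¹ := by
    rw [Real.rpow_neg hk.le, ← Real.sqrt_eq_rpow]
  have e2 : (k + 1) ^ (-(1 / 2 : ℝ)) = b⁻¹ := by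
    rw [Real.rpow_neg hk1.le, ← Real.sqrt_eq_rpow]
  have e3 : (k + 1) ^ (-(3 / 2 : ℝ)) = (b ^ 3)⁻¹ := by
    rw [Real.rpow_neg hk1.le, show (3 / 2 : ℝ) = (1 / 2) * 3 by norm_num, Real.rpow_mul hk1.le, ← Real.sqrt_eq_rpow]
    norm_cast
  rw [e1, e2, e3]
  have h1 : a⁻¹ - b⁻¹ = 1 / (a * b * (a + b)) := by
    have : b - a = 1 / (a + b) := by
      field_simp
      nlinarith
    field_simp
    have h2 : (b - a) * (a + b) = 1 := by nlinarith
    linarith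
  rw [h1, inv_eq_one_div, mul_one_div, div_le_div_iff₀ (by positivity) (by positivity)]
  nlinarith [mul_pos ha0 hb0, mul_nonneg (mul_pos ha0 hb0).le (sub_nonneg.mpr hab),
    mul_nonneg hb0.le (sub_nonneg.mpr hab), mul_nonneg (mul_pos hb0 hb0).le (sub_nonneg.mpr hab)]

theorem R6_tail {J M : ℕ} (hJ : 1 ≤ J) (hM : 1 ≤ M) (N : ℕ) :
    ∑ n ∈ range N, ((n : ℝ) + M + 1) ^ (-((1 / 2 : ℝ) + J)) ≤ 2 * (M : ℝ) ^ ((1 / 2 : ℝ) - J) := by
  have hM0 : (0 : ℝ) < M := by exact_mod_cast hM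
  have h1 : ∀ n : ℕ, ((n : ℝ) + M + 1) ^ (-((1 / 2 : ℝ) + J)) ≤
      (M : ℝ) ^ (-((J : ℝ) - 1)) * (2 * (((n : ℝ) + M) ^ (-(1 / 2 : ℝ)) - ((n : ℝ) + M + 1) ^ (-(1 / 2 : ℝ)))) := by
    intro n
    have hn : (0 : ℝ) < (n : ℝ) + M := by positivity
    have e1 : ((n : ℝ) + M + 1) ^ (-((1 / 2 : ℝ) + J)) =
        ((n : ℝ) + M + 1) ^ (-((J : ℝ) - 1)) * ((n : ℝ) + M + 1) ^ (-(3 / 2 : ℝ)) := by
      rw [← Real.rpow_add (by positivity)]
      congr 1
      ring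
    rw [e1]
    refine mul_le_mul ?_ (R6_step hn) (by positivity) (by positivity)
    refine Real.rpow_le_rpow_of_nonpos hM0 (by linarith) ?_
    have : (1 : ℝ) ≤ J := by exact_mod_cast hJ
    linarith
  have h2 : ∑ n ∈ range N, (((n : ℝ) + M) ^ (-(1 / 2 : ℝ)) - ((n : ℝ) + M + 1) ^ (-(1 / 2 : ℝ))) =
      (M : ℝ) ^ (-(1 / 2 : ℝ)) - ((N : ℝ) + M) ^ (-(1 / 2 : ℝ)) := by
    have := Finset.sum_range_sub' (fun n : ℕ => ((n : ℝ) + M) ^ (-(1 / 2 : ℝ))) N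
    simp only [Nat.cast_zero, zero_add] at this
    rw [← this]
    refine Finset.sum_congr rfl fun n _ => ?_
    congr 2
    push_cast
    ring
  calc ∑ n ∈ range N, ((n : ℝ) + M + 1) ^ (-((1 / 2 : ℝ) + J))
      ≤ ∑ n ∈ range N, (M : ℝ) ^ (-((J : ℝ) - 1)) *
        (2 * (((n : ℝ) + M) ^ (-(1 / 2 : ℝ)) - ((n : ℝ) + M + 1) ^ (-(1 / 2 : ℝ)))) :=
        Finset.sum_le_sum fun n _ => h1 n
    _ = (M : ℝ) ^ (-((J : ℝ) - 1)) * (2 * ((M : ℝ) ^ (-(1 / 2 : ℝ)) - ((N : ℝ) + M) ^ (-(1 / 2 : ℝ)))) := by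
        rw [← Finset.mul_sum, ← Finset.mul_sum, h2]
    _ ≤ (M : ℝ) ^ (-((J : ℝ) - 1)) * (2 * (M : ℝ) ^ (-(1 / 2 : ℝ))) := by
        have : 0 ≤ ((N : ℝ) + M) ^ (-(1 / 2 : ℝ)) := by positivity
        exact mul_le_mul_of_nonneg_left (by linarith) (by positivity)
    _ = 2 * (M : ℝ) ^ ((1 / 2 : ℝ) - J) := by
        have : (M : ℝ) ^ ((1 / 2 : ℝ) - J) = (M : ℝ) ^ (-((J : ℝ) - 1)) * (M : ℝ) ^ (-(1 / 2 : ℝ)) := by
          rw [← Real.rpow_add hM0]
          congr 1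
          ring
        rw [this]; ring

theorem fw_fourier_summable {X : ℝ} (hX : 0 < X) (t : ℝ) :
    Summable (fun m : ℤ => 𝓕 (fw X t) (m : ℝ)) := by
  obtain ⟨C, hC, h⟩ := fw_fourier_decay 1
  have h1 : Summable (fun m : ℤ => (C * X ^ ((1 / 2 : ℝ) - (1 : ℕ)) * (1 + |t|) ^ 1) * |(m : ℝ)| ^ (-(3 / 2 : ℝ))) :=
    (Real.summable_abs_int_rpow (by norm_num)).mul_left _
  refine Summable.of_norm_bounded_eventually h1 ?_
  rw [Filter.eventually_cofinite]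
  refine (Set.finite_singleton (0 : ℤ)).subset fun m hm => ?_
  by_contra hm0
  refine hm ?_
  have hm1 : (m : ℝ) ≠ 0 := by
    intro h0
    exact hm0 (by simpa using h0)
  refine (h X t m hX hm1).trans (le_of_eq ?_)
  have e : (-((1 / 2 : ℝ) + (1 : ℕ))) = -(3 / 2 : ℝ) := by norm_num
  rw [e]
  ring

theorem SG_eq {X : ℝ} (hX : 0 < X) (t : ℝ) : SG X t = ∑' m : ℤ, 𝓕 (fw X t) (m : ℝ) := by
  obtain ⟨C, hC, h⟩ := fw_fourier_decay 1
  have hev : ∀ᶠ x : ℝ in Filter.cocompact ℝ, 1 ≤ |x| := by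
    have := tendsto_norm_cocompact_atTop (E := ℝ)
    exact this.eventually_ge_atTop 1
  have b1 : fw X t =O[Filter.cocompact ℝ] fun x => |x| ^ (-(3 / 2 : ℝ)) := by
    refine Asymptotics.IsBigO.of_bound (Real.exp 2 * X ^ 2) ?_
    filter_upwards [hev] with x hx
    have hx0 : x ≠ 0 := by
      intro h0
      rw [h0, abs_zero] at hx
      norm_num at hx
    have hx1 : 0 < |x| := abs_pos.mpr hx0
    refine (fw_decay hX t hx0).trans ?_
    rw [Real.norm_of_nonneg (by positivity), div_pow, ← sq_abs x]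
    have e1 : |x| ^ (-(3 / 2 : ℝ)) ≥ (|x| ^ 2)⁻¹ := by
      rw [← Real.rpow_natCast, ← Real.rpow_neg hx1.le]
      exact Real.rpow_le_rpow_of_exponent_le hx (by norm_num)
    calc Real.exp 2 * (X ^ 2 / |x| ^ 2) = (Real.exp 2 * X ^ 2) * (|x| ^ 2)⁻¹ := by ring
      _ ≤ _ := mul_le_mul_of_nonneg_left e1 (by positivity)
  have b2 : 𝓕 (fw X t) =O[Filter.cocompact ℝ] fun x => |x| ^ (-(3 / 2 : ℝ)) := by
    refine Asymptotics.IsBigO.of_bound (C * X ^ ((1 / 2 : ℝ) - (1 : ℕ)) * (1 + |t|) ^ 1) ?_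
    filter_upwards [hev] with x hx
    have hx0 : x ≠ 0 := by
      intro h0
      rw [h0, abs_zero] at hx
      norm_num at hx
    refine (h X t x hX hx0).trans (le_of_eq ?_)
    have e : (-((1 / 2 : ℝ) + (1 : ℕ))) = -(3 / 2 : ℝ) := by norm_num
    rw [Real.norm_of_nonneg (by positivity), e]
    ring
  have h2 := Real.tsum_eq_tsum_fourier_of_rpow_decay (fw_continuous hX t) (b := 3 / 2) (by norm_num) b1 b2 0
  have h3 : ∑' n : ℤ, fw X t (0 + n) = ∑' n : ℤ, fw X t n := by simp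
  have h4 : ∑' n : ℤ, 𝓕 (fw X t) n * (fourier n) ((0 : ℝ) : UnitAddCircle) = ∑' n : ℤ, 𝓕 (fw X t) n := by simp
  rw [h3, h4] at h2
  rw [← h2]
  have hneg : ∀ n : ℕ, fw X t ((-((n : ℤ) + 1) : ℤ) : ℝ) = 0 := by
    intro n
    unfold fw
    rw [if_neg]
    push_cast
    have : (0 : ℝ) ≤ n := by positivity
    linarith
  have s1 : Summable fun n : ℕ => fw X t (((n : ℤ)) : ℝ) := by
    have := (fw_summable hX t).of_norm
    simpa using this
  have s2 : Summable fun n : ℕ => fw X t ((-((n : ℤ) + 1) : ℤ) : ℝ) := by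
    simp only [hneg]
    exact summable_zero
  rw [tsum_of_nat_of_neg_add_one (f := fun m : ℤ => fw X t (m : ℝ)) s1 s2]
  simp only [hneg, tsum_zero, add_zero]
  unfold SG
  simp

theorem SG_le (J : ℕ) (hJ : 1 ≤ J) : ∃ C : ℝ, 0 < C ∧ ∀ (X t : ℝ) (M : ℕ), 1 ≤ X → 1 ≤ M →
    ‖SG X t‖ ≤ C * (X ^ (1 / 2 : ℝ) * (∫ v : ℝ, Real.exp (-(v ^ 2 / 2)) * ‖DD M (t + v)‖) +
      X * Real.exp (-(t ^ 2 / 2)) + (X * M) ^ (1 / 2 : ℝ) * ((1 + |t|) / (X * M)) ^ J) := by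
  obtain ⟨C1, hC1, h1⟩ := fw_fourier_sum
  obtain ⟨C2, hC2, h2⟩ := fw_fourier_decay J
  refine ⟨5 + C1 + 4 * C2, by positivity, ?_⟩
  intro X t M hX hM
  have hX0 : 0 < X := by linarith
  have hM0 : (0 : ℝ) < M := by exact_mod_cast hM
  set I : ℝ := ∫ v : ℝ, Real.exp (-(v ^ 2 / 2)) * ‖DD M (t + v)‖ with hI
  have hI0 : 0 ≤ I := integral_nonneg fun v => by positivity
  have hs := fw_fourier_summable hX0 t
  set S : ℤ → ℂ := fun m => 𝓕 (fw X t) (m : ℝ) with hS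
  have s1 : Summable fun n : ℕ => S ((n : ℤ) + 1) :=
    hs.comp_injective (i := fun n : ℕ => (n : ℤ) + 1) fun a b hab => by simpa using hab
  have s2 : Summable fun n : ℕ => S (-((n : ℤ) + 1)) :=
    hs.comp_injective (i := fun n : ℕ => -((n : ℤ) + 1)) fun a b hab => by simpa using hab
  set T : ℕ → ℂ := fun n => S ((n : ℤ) + 1) + S (-((n : ℤ) + 1)) with hT
  have sT : Summable T := s1.add s2
  have e0 : SG X t = S 0 + ∑' n : ℕ, T n := by
    rw [SG_eq hX0 t, tsum_of_add_one_of_neg_add_one s1 s2]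
    show _ = _ + ∑' n : ℕ, (S ((n : ℤ) + 1) + S (-((n : ℤ) + 1)))
    rw [s1.tsum_add s2]
    ring
  have e1 : ∑ n ∈ range M, T n = ∑ m ∈ Icc 1 M, (𝓕 (fw X t) (m : ℝ) + 𝓕 (fw X t) (-(m : ℝ))) := by
    rw [← Finset.Ico_add_one_right_eq_Icc, Finset.sum_Ico_eq_sum_range]
    refine Finset.sum_congr (by simp) fun n _ => ?_
    have a1 : (((n : ℤ) + 1 : ℤ) : ℝ) = ((1 + n : ℕ) : ℝ) := by push_cast; ring
    have a2 : ((-((n : ℤ) + 1) : ℤ) : ℝ) = -((1 + n : ℕ) : ℝ) := by push_cast; ring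
    show 𝓕 (fw X t) (((n : ℤ) + 1 : ℤ) : ℝ) + 𝓕 (fw X t) ((-((n : ℤ) + 1) : ℤ) : ℝ) = _
    rw [a1, a2]
  have b0 : ‖S 0‖ ≤ 5 * X * Real.exp (-(t ^ 2 / 2)) := by
    have := fw_fourier_zero hX0 t
    simpa [hS] using this
  have b1 : ‖∑ n ∈ range M, T n‖ ≤ C1 * X ^ (1 / 2 : ℝ) * I := by
    rw [e1]; exact h1 X t M hX0
  set D : ℝ := C2 * X ^ ((1 / 2 : ℝ) - J) * (1 + |t|) ^ J with hD
  have hD0 : 0 ≤ D := by positivity
  have bT : ∀ n : ℕ, ‖T (n + M)‖ ≤ 2 * D * ((n : ℝ) + M + 1) ^ (-((1 / 2 : ℝ) + J)) := by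
    intro n
    have hp : (0 : ℝ) < (n : ℝ) + M + 1 := by positivity
    have c1 : ‖S (((n + M : ℕ) : ℤ) + 1)‖ ≤ D * ((n : ℝ) + M + 1) ^ (-((1 / 2 : ℝ) + J)) := by
      have e : ((((n + M : ℕ) : ℤ) + 1 : ℤ) : ℝ) = (n : ℝ) + M + 1 := by push_cast; ring
      show ‖𝓕 (fw X t) _‖ ≤ _
      rw [e]
      refine (h2 X t _ hX0 hp.ne').trans (le_of_eq ?_)
      rw [abs_of_pos hp, hD]
      ring
    have c2 : ‖S (-(((n + M : ℕ) : ℤ) + 1))‖ ≤ D * ((n : ℝ) + M + 1) ^ (-((1 / 2 : ℝ) + J)) := by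
      have e : ((-(((n + M : ℕ) : ℤ) + 1) : ℤ) : ℝ) = -((n : ℝ) + M + 1) := by push_cast; ring
      show ‖𝓕 (fw X t) _‖ ≤ _
      rw [e]
      refine (h2 X t _ hX0 (neg_ne_zero.mpr hp.ne')).trans (le_of_eq ?_)
      rw [abs_neg, abs_of_pos hp, hD]
      ring
    refine (norm_add_le _ _).trans ?_
    linarith
  have sTM : Summable fun n : ℕ => T (n + M) := (summable_nat_add_iff M).mpr sT
  have b2 : ‖∑' n : ℕ, T (n + M)‖ ≤ 2 * D * (2 * (M : ℝ) ^ ((1 / 2 : ℝ) - J)) := by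
    have sn : Summable fun n : ℕ => 2 * D * ((n : ℝ) + M + 1) ^ (-((1 / 2 : ℝ) + J)) := by
      refine summable_of_sum_range_le (c := 2 * D * (2 * (M : ℝ) ^ ((1 / 2 : ℝ) - J))) (fun n => by positivity) fun N => ?_
      rw [← Finset.mul_sum]
      exact mul_le_mul_of_nonneg_left (R6_tail hJ hM N) (by positivity)
    refine (tsum_of_norm_bounded sn.hasSum bT).trans ?_
    refine Real.tsum_le_of_sum_range_le (fun n => by positivity) fun N => ?_
    rw [← Finset.mul_sum]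
    exact mul_le_mul_of_nonneg_left (R6_tail hJ hM N) (by positivity)
  have e2 : X ^ ((1 / 2 : ℝ) - J) * (1 + |t|) ^ J * (M : ℝ) ^ ((1 / 2 : ℝ) - J) =
      (X * M) ^ (1 / 2 : ℝ) * ((1 + |t|) / (X * M)) ^ J := by
    rw [Real.rpow_sub hX0, Real.rpow_sub hM0, Real.rpow_natCast, Real.rpow_natCast,
      Real.mul_rpow hX0.le hM0.le, div_pow, mul_pow]
    field_simp
  have hsplit := sT.sum_add_tsum_nat_add M
  rw [e0, ← hsplit]
  have g1 : 0 ≤ X ^ (1 / 2 : ℝ) * I := by positivity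
  have g2 : 0 ≤ X * Real.exp (-(t ^ 2 / 2)) := by positivity
  have g3 : 0 ≤ (X * M) ^ (1 / 2 : ℝ) * ((1 + |t|) / (X * M)) ^ J := by positivity
  have b3 : 2 * D * (2 * (M : ℝ) ^ ((1 / 2 : ℝ) - J)) =
      4 * C2 * ((X * M) ^ (1 / 2 : ℝ) * ((1 + |t|) / (X * M)) ^ J) := by
    rw [← e2, hD]; ring
  rw [b3] at b2
  calc ‖S 0 + (∑ n ∈ range M, T n + ∑' n : ℕ, T (n + M))‖
      ≤ ‖S 0‖ + (‖∑ n ∈ range M, T n‖ + ‖∑' n : ℕ, T (n + M)‖) :=
        (norm_add_le _ _).trans (add_le_add le_rfl (norm_add_le _ _))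
    _ ≤ 5 * X * Real.exp (-(t ^ 2 / 2)) + (C1 * X ^ (1 / 2 : ℝ) * I +
        4 * C2 * ((X * M) ^ (1 / 2 : ℝ) * ((1 + |t|) / (X * M)) ^ J)) := add_le_add b0 (add_le_add b1 b2)
    _ ≤ (5 + C1 + 4 * C2) * (X ^ (1 / 2 : ℝ) * I + X * Real.exp (-(t ^ 2 / 2)) +
        (X * M) ^ (1 / 2 : ℝ) * ((1 + |t|) / (X * M)) ^ J) := by
        nlinarith [mul_nonneg hC1.le g2, mul_nonneg hC1.le g3, mul_nonneg hC2.le g1, mul_nonneg hC2.le g2]

end Pool.Agent.Lib.MP_9a8698_nt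
end

section

/-!
R8. The fourth moment of the smooth sum (R0b, R6, R7 may be used).

PROOF. Assume `ε ≤ 1` (for `ε > 1` use the case `ε = 1`, as `T ≥ 1`). Put `ε' = ε/8`, `M = ⌈T^(1+ε')/X⌉` (so
`T^(1+ε') ≤ X M`, and `M ≤ T^(1+ε')/X + 1 ≤ 2 T^(1/2+ε')` since `X ≥ T^(1/2)`, `X ≤ T`), `J = ⌈1/ε'⌉ + 1`. For
`T/2 ≤ |t| ≤ 5T/2`: `(X M)^(1/2) ((1+|t|)/(X M))^J ≤ (X M)^(1/2-J) (4T)^J ≤ 4^J T^((1+ε')(1/2-J)+J) ≤ 4^J` because
`(1+ε')(1/2-J)+J = 1/2 + ε'/2 - ε' J ≤ 0`, and `X exp(-t²/2) ≤ T exp(-T²/8) ≤ 4`. So by `SG_le J`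
`‖SG X t‖ ≤ C (X^(1/2) G(t) + C')`, `G(t) = ∫ exp(-v²/2) ‖DD M (t+v)‖ dv`, and
`‖SG X t‖^4 ≤ 8 C^4 (X^2 G(t)^4 + C'^4)`. By Hoelder (twice Cauchy-Schwarz) `G(t)^4 ≤ (2π)^(3/2) ∫ exp(-v²/2) ‖DD M (t+v)‖^4 dv`,
and by Tonelli `∫_{T/2 ≤ |t| ≤ 5T/2} G^4 ≤ 16 ∫ exp(-v²/2) (∫_{|u| ≤ 3T+|v|} ‖DD M u‖^4 du) dv`
`≤ 16 ∫ exp(-v²/2) C (3T + |v| + M²)(1 + log M)^A dv ≤ C'' (T + M²) (1 + log M)^A ≤ C''' T^(1+ε/2)` (`M² ≤ 4 T^(1+2ε')`,
`(1+log M)^A ≤ C T^(ε')`). The total is `≤ C (X² T^(1+ε/2) + T) ≤ C T^(1+ε) X²`.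
-/

set_option autoImplicit false

open Finset MeasureTheory

namespace Pool.Agent.Lib.MP_9a8698_nt

/-! ### The Gaussian weight -/

private noncomputable def gw (v : ℝ) : ℝ := Real.exp (-(v ^ 2 / 2))

private theorem gw_pos (v : ℝ) : 0 < gw v := Real.exp_pos _

private theorem gw_cont : Continuous gw := by
  unfold gw
  fun_prop

private theorem gw_int : Integrable gw := by
  have h := integrable_exp_neg_mul_sq (b := 1 / 2) (by norm_num)
  refine h.congr (Filter.Eventually.of_forall fun v => ?_)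
  show Real.exp (-(1 / 2) * v ^ 2) = Real.exp (-(v ^ 2 / 2))
  congr 1
  ring

private theorem gw_int_pos : 0 < ∫ v, gw v := by
  have h := gw_int
  unfold gw at h ⊢
  exact integral_exp_pos h

private theorem gw1_int : Integrable (fun v => gw v * (1 + |v|)) := by
  have h := (integrable_mul_exp_neg_mul_sq (b := 1 / 2) (by norm_num)).abs
  refine (gw_int.add h).congr (Filter.Eventually.of_forall fun v => ?_)
  show gw v + |v * Real.exp (-(1 / 2) * v ^ 2)| = gw v * (1 + |v|)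
  have e : Real.exp (-(1 / 2) * v ^ 2) = gw v := by
    unfold gw
    congr 1
    ring
  rw [e, abs_mul, abs_of_pos (gw_pos v)]
  ring

private theorem gw1_nonneg : 0 ≤ ∫ v, gw v * (1 + |v|) :=
  integral_nonneg fun v => mul_nonneg (gw_pos v).le (by positivity)

private theorem bdd_int {f : ℝ → ℝ} (hf : Continuous f) {B : ℝ} (hB : ∀ v, |f v| ≤ B) :
    Integrable (fun v => gw v * f v) := by
  refine (gw_int.mul_const B).mono' ((gw_cont.mul hf).aestronglyMeasurable) ?_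
  refine Filter.Eventually.of_forall fun v => ?_
  rw [Real.norm_eq_abs, abs_mul, abs_of_pos (gw_pos v)]
  exact mul_le_mul_of_nonneg_left (hB v) (gw_pos v).le

private theorem gcs {f : ℝ → ℝ} (hf : Continuous f) {B : ℝ} (hB : ∀ v, |f v| ≤ B) :
    (∫ v, gw v * f v) ^ 2 ≤ (∫ v, gw v) * ∫ v, gw v * f v ^ 2 := by
  have hf2 : Integrable (fun v => gw v * f v ^ 2) := by
    refine bdd_int (f := fun v => f v ^ 2) (hf.pow 2) (B := B ^ 2) fun v => ?_
    rw [abs_pow]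
    exact pow_le_pow_left₀ (abs_nonneg _) (hB v) 2
  have hf1 := bdd_int hf hB
  have hW := gw_int_pos
  set W := ∫ v, gw v with hWd
  set a := ∫ v, gw v * f v with had
  set b := ∫ v, gw v * f v ^ 2 with hbd
  have key : 0 ≤ ∫ v, gw v * (W * f v - a) ^ 2 :=
    integral_nonneg fun v => mul_nonneg (gw_pos v).le (sq_nonneg _)
  have e : ∫ v, gw v * (W * f v - a) ^ 2 = W ^ 2 * b - 2 * W * a * a + a ^ 2 * W := by
    have e1 : (fun v => gw v * (W * f v - a) ^ 2) =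
        fun v => (W ^ 2 * (gw v * f v ^ 2) - 2 * W * a * (gw v * f v)) + a ^ 2 * gw v := by
      funext v
      ring
    have i1 : Integrable (fun v => W ^ 2 * (gw v * f v ^ 2) - 2 * W * a * (gw v * f v)) :=
      (hf2.const_mul _).sub (hf1.const_mul _)
    rw [e1, integral_add i1 (gw_int.const_mul _),
      integral_sub (hf2.const_mul _) (hf1.const_mul _), integral_const_mul, integral_const_mul,
      integral_const_mul]
  rw [e] at key
  have h2 : 0 ≤ W * (W * b - a ^ 2) := by nlinarith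
  have h3 : 0 ≤ W * b - a ^ 2 := nonneg_of_mul_nonneg_right h2 hW
  linarith

private theorem gG4 {f : ℝ → ℝ} (hf : Continuous f) {B : ℝ} (hB : ∀ v, |f v| ≤ B) :
    (∫ v, gw v * f v) ^ 4 ≤ (∫ v, gw v) ^ 3 * ∫ v, gw v * f v ^ 4 := by
  have h1 := gcs hf hB
  have h2 := gcs (f := fun v => f v ^ 2) (hf.pow 2) (B := B ^ 2) fun v => by
    rw [abs_pow]
    exact pow_le_pow_left₀ (abs_nonneg _) (hB v) 2
  have e : (fun v => gw v * (f v ^ 2) ^ 2) = fun v => gw v * f v ^ 4 := by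
    funext v
    ring
  rw [e] at h2
  have hW := gw_int_pos
  set W := ∫ v, gw v with hWd
  set a := ∫ v, gw v * f v with had
  set b := ∫ v, gw v * f v ^ 2 with hbd
  set c := ∫ v, gw v * f v ^ 4 with hcd
  calc a ^ 4 = (a ^ 2) ^ 2 := by ring
    _ ≤ (W * b) ^ 2 := pow_le_pow_left₀ (sq_nonneg _) h1 2
    _ = W ^ 2 * b ^ 2 := by ring
    _ ≤ W ^ 2 * (W * c) := mul_le_mul_of_nonneg_left h2 (sq_nonneg _)
    _ = W ^ 3 * c := by ring

/-! ### Translation and Tonelli -/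

private theorem shift_le {g : ℝ → ℝ} (hg : Continuous g) (hg0 : ∀ u, 0 ≤ g u) {S : Set ℝ}
    {R : ℝ} (hR : 0 ≤ R) (hS : S ⊆ Set.Icc (-R) R) (v : ℝ) :
    ∫ t in S, g (t + v) ≤ ∫ u in Set.Icc (-(R + |v|)) (R + |v|), g u := by
  have hgs : Continuous fun t => g (t + v) := by fun_prop
  have h1 : ∫ t in S, g (t + v) ≤ ∫ t in Set.Icc (-R) R, g (t + v) :=
    setIntegral_mono_set hgs.integrableOn_Icc (ae_of_all _ fun t => hg0 _) (LE.le.eventuallyLE hS)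
  have h2 : ∫ t in Set.Icc (-R) R, g (t + v) = ∫ u in Set.Icc (-R + v) (R + v), g u := by
    rw [integral_Icc_eq_integral_Ioc, integral_Icc_eq_integral_Ioc,
      ← intervalIntegral.integral_of_le (by linarith), ← intervalIntegral.integral_of_le (by linarith),
      intervalIntegral.integral_comp_add_right]
  have h3 : ∫ u in Set.Icc (-R + v) (R + v), g u ≤ ∫ u in Set.Icc (-(R + |v|)) (R + |v|), g u := by
    refine setIntegral_mono_set hg.integrableOn_Icc (ae_of_all _ fun t => hg0 _)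
      (LE.le.eventuallyLE ?_)
    have h4 := neg_abs_le v
    have h5 := le_abs_self v
    exact Set.Icc_subset_Icc (by linarith) (by linarith)
  linarith

private theorem prod_int {g : ℝ → ℝ} (hg : Continuous g) {B : ℝ} (hB : ∀ v, |g v| ≤ B)
    {S : Set ℝ} (hSf : volume S ≠ ⊤) :
    Integrable (Function.uncurry fun t v : ℝ => gw v * g (t + v))
      ((volume.restrict S).prod volume) := by
  have : IsFiniteMeasure (volume.restrict S) := ⟨by
    rw [Measure.restrict_apply_univ]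
    exact lt_top_iff_ne_top.2 hSf⟩
  have h1 : Integrable (fun z : ℝ × ℝ => (1 : ℝ) * (gw z.2 * B))
      ((volume.restrict S).prod volume) :=
    Integrable.mul_prod (integrable_const 1) (gw_int.mul_const B)
  refine h1.mono' ?_ (Filter.Eventually.of_forall fun z => ?_)
  · have hc : Continuous (Function.uncurry fun t v : ℝ => gw v * g (t + v)) := by
      have := gw_cont
      unfold Function.uncurry
      fun_prop
    exact hc.aestronglyMeasurable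
  · show ‖gw z.2 * g (z.1 + z.2)‖ ≤ 1 * (gw z.2 * B)
    rw [Real.norm_eq_abs, abs_mul, abs_of_pos (gw_pos z.2), one_mul]
    exact mul_le_mul_of_nonneg_left (hB _) (gw_pos _).le

private theorem tonelli_le {g : ℝ → ℝ} (hg : Continuous g) (hg0 : ∀ u, 0 ≤ g u) {B : ℝ}
    (hB : ∀ v, |g v| ≤ B) {S : Set ℝ} (hSf : volume S ≠ ⊤) {R K : ℝ} (hR : 0 ≤ R)
    (hS : S ⊆ Set.Icc (-R) R)
    (hK : ∀ v : ℝ, ∫ u in Set.Icc (-(R + |v|)) (R + |v|), g u ≤ K * (1 + |v|)) :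
    ∫ t in S, ∫ v, gw v * g (t + v) ≤ K * ∫ v, gw v * (1 + |v|) := by
  rw [integral_integral_swap (prod_int hg hB hSf), ← integral_const_mul]
  refine integral_mono_of_nonneg (Filter.Eventually.of_forall fun v => ?_)
    (gw1_int.const_mul K) (Filter.Eventually.of_forall fun v => ?_)
  · exact integral_nonneg fun t => mul_nonneg (gw_pos v).le (hg0 _)
  · show ∫ t in S, gw v * g (t + v) ≤ K * (gw v * (1 + |v|))
    rw [integral_const_mul]
    have h1 := shift_le hg hg0 hR hS v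
    have h2 := h1.trans (hK v)
    calc gw v * ∫ t in S, g (t + v) ≤ gw v * (K * (1 + |v|)) :=
          mul_le_mul_of_nonneg_left h2 (gw_pos v).le
      _ = K * (gw v * (1 + |v|)) := by ring

/-! ### Elementary bounds -/

private theorem log_pow_le' (δ : ℝ) (hδ : 0 < δ) (A : ℕ) : ∃ C : ℝ, 0 < C ∧ ∀ T : ℝ, 1 ≤ T →
    (1 + 2 * Real.log T) ^ A ≤ C * T ^ δ := by
  have hη : 0 < δ / (A + 1) := by positivity
  set η := δ / (A + 1) with hηd
  refine ⟨(1 + 2 / η) ^ A, by positivity, fun T hT => ?_⟩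
  have h0 : (0 : ℝ) < T := by linarith
  have hl : Real.log T ≤ T ^ η / η := Real.log_le_rpow_div h0.le hη
  have hT1 : 1 ≤ T ^ η := Real.one_le_rpow hT hη.le
  have hlog : 0 ≤ Real.log T := Real.log_nonneg hT
  have h1 : 1 + 2 * Real.log T ≤ (1 + 2 / η) * T ^ η := by
    calc 1 + 2 * Real.log T ≤ T ^ η + 2 * (T ^ η / η) := by linarith
      _ = (1 + 2 / η) * T ^ η := by ring
  calc (1 + 2 * Real.log T) ^ A ≤ ((1 + 2 / η) * T ^ η) ^ A := pow_le_pow_left₀ (by linarith) h1 A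
    _ = (1 + 2 / η) ^ A * (T ^ η) ^ A := mul_pow _ _ _
    _ ≤ (1 + 2 / η) ^ A * T ^ δ := by
      refine mul_le_mul_of_nonneg_left ?_ (by positivity)
      rw [← Real.rpow_natCast, ← Real.rpow_mul h0.le]
      refine Real.rpow_le_rpow_of_exponent_le hT ?_
      rw [hηd, div_mul_eq_mul_div, div_le_iff₀ (by positivity)]
      nlinarith

private theorem second_le {X T t : ℝ} (hT : 2 ≤ T) (hX : X ≤ T) (ht : T / 2 ≤ |t|) :
    X * Real.exp (-(t ^ 2 / 2)) ≤ 2 := by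
  have h1 : T ^ 2 / 8 ≤ t ^ 2 / 2 := by
    have := pow_le_pow_left₀ (by linarith) ht 2
    rw [sq_abs] at this
    linarith
  have h2 : T ≤ 2 * Real.exp (t ^ 2 / 2) := by
    have h3 := Real.add_one_le_exp (t ^ 2 / 2)
    nlinarith [sq_nonneg (T / 2 - 1)]
  have h4 : 0 < Real.exp (t ^ 2 / 2) := Real.exp_pos _
  rw [Real.exp_neg, ← div_eq_mul_inv, div_le_iff₀ h4]
  linarith

private theorem third_le {T Y s δ : ℝ} {J : ℕ} (hT : 1 ≤ T) (hY : T ^ (1 + δ) ≤ Y) (hs : 0 ≤ s)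
    (hs3 : s ≤ 3 * T) (hJ : 1 ≤ J) (hJ' : (J : ℝ) + (1 + δ) * (1 / 2 - J) ≤ 0) :
    Y ^ (1 / 2 : ℝ) * (s / Y) ^ J ≤ 3 ^ J := by
  have hT0 : 0 < T := by linarith
  have hY0 : 0 < Y := lt_of_lt_of_le (Real.rpow_pos_of_pos hT0 _) hY
  have hJ1 : (1 : ℝ) ≤ J := by exact_mod_cast hJ
  have h1 : (s / Y) ^ J ≤ (3 * T / Y) ^ J :=
    pow_le_pow_left₀ (by positivity) (div_le_div_of_nonneg_right hs3 hY0.le) J
  have h2 : Y ^ (1 / 2 : ℝ) * (3 * T / Y) ^ J = 3 ^ J * (T ^ (J : ℝ) * Y ^ (1 / 2 - (J : ℝ))) := by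
    rw [Real.rpow_sub hY0, Real.rpow_natCast, Real.rpow_natCast, div_pow, mul_pow]
    ring
  have h3 : Y ^ (1 / 2 - (J : ℝ)) ≤ (T ^ (1 + δ)) ^ (1 / 2 - (J : ℝ)) :=
    Real.rpow_le_rpow_of_nonpos (Real.rpow_pos_of_pos hT0 _) hY (by linarith)
  have h4 : T ^ (J : ℝ) * (T ^ (1 + δ)) ^ (1 / 2 - (J : ℝ)) ≤ 1 := by
    rw [← Real.rpow_mul hT0.le, ← Real.rpow_add hT0]
    exact Real.rpow_le_one_of_one_le_of_nonpos hT hJ'
  calc Y ^ (1 / 2 : ℝ) * (s / Y) ^ J ≤ Y ^ (1 / 2 : ℝ) * (3 * T / Y) ^ J :=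
        mul_le_mul_of_nonneg_left h1 (by positivity)
    _ = 3 ^ J * (T ^ (J : ℝ) * Y ^ (1 / 2 - (J : ℝ))) := h2
    _ ≤ 3 ^ J * (T ^ (J : ℝ) * (T ^ (1 + δ)) ^ (1 / 2 - (J : ℝ))) := by
        refine mul_le_mul_of_nonneg_left ?_ (by positivity)
        exact mul_le_mul_of_nonneg_left h3 (by positivity)
    _ ≤ 3 ^ J * 1 := mul_le_mul_of_nonneg_left h4 (by positivity)
    _ = 3 ^ J := mul_one _

private theorem add_pow4_le {a b : ℝ} : (a + b) ^ 4 ≤ 8 * (a ^ 4 + b ^ 4) := by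
  have h1 : (a + b) ^ 2 ≤ 2 * (a ^ 2 + b ^ 2) := by nlinarith [sq_nonneg (a - b)]
  have h2 : ((a + b) ^ 2) ^ 2 ≤ (2 * (a ^ 2 + b ^ 2)) ^ 2 := pow_le_pow_left₀ (sq_nonneg _) h1 2
  nlinarith [sq_nonneg (a ^ 2 - b ^ 2)]

/-! ### The pointwise bound -/

private theorem pointwise {C1 X T t : ℝ} {M J : ℕ} {δ : ℝ} (hC1 : 0 < C1) (hT : 2 ≤ T) (hX1 : 1 ≤ X)
    (hXT : X ≤ T) (ht1 : T / 2 ≤ |t|) (ht2 : |t| ≤ 5 / 2 * T) (hM : T ^ (1 + δ) ≤ X * M)
    (hJ : 1 ≤ J) (hJ' : (J : ℝ) + (1 + δ) * (1 / 2 - J) ≤ 0)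
    (h1 : ‖SG X t‖ ≤ C1 * (X ^ (1 / 2 : ℝ) * (∫ v : ℝ, Real.exp (-(v ^ 2 / 2)) * ‖DD M (t + v)‖) +
      X * Real.exp (-(t ^ 2 / 2)) + (X * M) ^ (1 / 2 : ℝ) * ((1 + |t|) / (X * M)) ^ J)) :
    ‖SG X t‖ ^ 4 ≤ 8 * C1 ^ 4 * (X ^ 2 * ((∫ v, gw v) ^ 3 * ∫ v, gw v * ‖DD M (t + v)‖ ^ 4) +
      (2 + 3 ^ J) ^ 4) := by
  have h2 := second_le hT hXT ht1
  have h3 := third_le (T := T) (Y := X * M) (s := 1 + |t|) (δ := δ) (J := J) (by linarith) hM
    (by positivity) (by linarith) hJ hJ'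
  have hcont : Continuous fun v => ‖DD M (t + v)‖ := by
    have := DD_continuous M
    fun_prop
  have hG := gG4 (f := fun v => ‖DD M (t + v)‖) hcont (B := M) (fun v => by
    rw [abs_of_nonneg (norm_nonneg _)]
    exact DD_norm_le M _)
  have hX0 : (0 : ℝ) ≤ X := by linarith
  have e0 : ∫ v : ℝ, Real.exp (-(v ^ 2 / 2)) * ‖DD M (t + v)‖ = ∫ v, gw v * ‖DD M (t + v)‖ := rfl
  rw [e0] at h1
  have hG0 : 0 ≤ ∫ v, gw v * ‖DD M (t + v)‖ :=
    integral_nonneg fun v => mul_nonneg (gw_pos v).le (norm_nonneg _)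
  set G := ∫ v, gw v * ‖DD M (t + v)‖ with hGd
  have h4 : ‖SG X t‖ ≤ C1 * (X ^ (1 / 2 : ℝ) * G + (2 + 3 ^ J)) := by
    refine h1.trans (mul_le_mul_of_nonneg_left ?_ hC1.le)
    linarith
  have hXs : (X ^ (1 / 2 : ℝ)) ^ 4 = X ^ 2 := by
    rw [← Real.rpow_natCast, ← Real.rpow_mul hX0, ← Real.rpow_natCast]
    norm_num
  calc ‖SG X t‖ ^ 4 ≤ (C1 * (X ^ (1 / 2 : ℝ) * G + (2 + 3 ^ J))) ^ 4 :=
        pow_le_pow_left₀ (norm_nonneg _) h4 4
    _ = C1 ^ 4 * (X ^ (1 / 2 : ℝ) * G + (2 + 3 ^ J)) ^ 4 := mul_pow _ _ _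
    _ ≤ C1 ^ 4 * (8 * ((X ^ (1 / 2 : ℝ) * G) ^ 4 + (2 + 3 ^ J) ^ 4)) :=
        mul_le_mul_of_nonneg_left add_pow4_le (by positivity)
    _ = 8 * C1 ^ 4 * (X ^ 2 * G ^ 4 + (2 + 3 ^ J) ^ 4) := by rw [mul_pow _ G, hXs]; ring
    _ ≤ 8 * C1 ^ 4 * (X ^ 2 * ((∫ v, gw v) ^ 3 * ∫ v, gw v * ‖DD M (t + v)‖ ^ 4) +
      (2 + 3 ^ J) ^ 4) := by
        refine mul_le_mul_of_nonneg_left ?_ (by positivity)
        have h5 := mul_le_mul_of_nonneg_left hG (sq_nonneg X)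
        linarith

private def S8 (T : ℝ) : Set ℝ := {t : ℝ | T / 2 ≤ |t| ∧ |t| ≤ 5 / 2 * T}

private theorem S8_sub (T : ℝ) : S8 T ⊆ Set.Icc (-(5 / 2 * T)) (5 / 2 * T) := fun _ ht =>
  abs_le.1 ht.2

private theorem S8_meas (T : ℝ) : MeasurableSet (S8 T) := by
  have h1 : IsClosed (S8 T) := by
    have h2 : S8 T = {t : ℝ | T / 2 ≤ |t|} ∩ {t : ℝ | |t| ≤ 5 / 2 * T} := rfl
    rw [h2]
    exact (isClosed_le continuous_const continuous_abs).inter
      (isClosed_le continuous_abs continuous_const)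
  exact h1.measurableSet

private theorem S8_fin (T : ℝ) : volume (S8 T) ≠ ⊤ :=
  ((measure_mono (S8_sub T)).trans_lt (by rw [Real.volume_Icc]; exact ENNReal.ofReal_lt_top)).ne

private theorem S8_vol {T : ℝ} (hT : 0 ≤ T) : (volume.real (S8 T)) ≤ 5 * T := by
  have h1 : volume.real (S8 T) ≤ volume.real (Set.Icc (-(5 / 2 * T)) (5 / 2 * T)) :=
    measureReal_mono (S8_sub T) (by rw [Real.volume_Icc]; exact ENNReal.ofReal_ne_top)
  rw [Real.volume_real_Icc_of_le (by linarith)] at h1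
  linarith

/-- the integrated bound for given `M` -/
private theorem integrated {C1 C2 X T : ℝ} {M J A : ℕ} {δ : ℝ} (hC1 : 0 < C1) (hC2 : 0 < C2)
    (hT : 2 ≤ T) (hX1 : 1 ≤ X)
    (hXT : X ≤ T) (hM1 : 1 ≤ M) (hM : T ^ (1 + δ) ≤ X * M)
    (hJ : 1 ≤ J) (hJ' : (J : ℝ) + (1 + δ) * (1 / 2 - J) ≤ 0)
    (h1 : ∀ t : ℝ, ‖SG X t‖ ≤
      C1 * (X ^ (1 / 2 : ℝ) * (∫ v : ℝ, Real.exp (-(v ^ 2 / 2)) * ‖DD M (t + v)‖) +
      X * Real.exp (-(t ^ 2 / 2)) + (X * M) ^ (1 / 2 : ℝ) * ((1 + |t|) / (X * M)) ^ J))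
    (h2 : ∀ τ : ℝ, 1 ≤ τ →
      ∫ u in Set.Icc (-τ) τ, ‖DD M u‖ ^ 4 ≤ C2 * (τ + (M : ℝ) ^ 2) * (1 + Real.log M) ^ A) :
    ∫ t in S8 T, ‖SG X t‖ ^ 4 ≤ 8 * C1 ^ 4 * (X ^ 2 * ((∫ v, gw v) ^ 3 *
      (C2 * (5 / 2 * T + (M : ℝ) ^ 2) * (1 + Real.log M) ^ A * ∫ v, gw v * (1 + |v|))) +
      (2 + 3 ^ J) ^ 4 * (5 * T)) := by
  have hT0 : 0 ≤ T := by linarith
  have hg : Continuous fun u => ‖DD M u‖ ^ 4 := by
    have := DD_continuous M
    fun_prop
  have hgB : ∀ u : ℝ, |‖DD M u‖ ^ 4| ≤ (M : ℝ) ^ 4 := fun u => by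
    rw [abs_of_nonneg (by positivity)]
    exact pow_le_pow_left₀ (norm_nonneg _) (DD_norm_le M u) 4
  have hlog : 0 ≤ Real.log M := Real.log_nonneg (by exact_mod_cast hM1)
  have hto := tonelli_le (g := fun u => ‖DD M u‖ ^ 4) hg (fun u => by positivity) hgB (S8_fin T)
    (R := 5 / 2 * T) (K := C2 * (5 / 2 * T + (M : ℝ) ^ 2) * (1 + Real.log M) ^ A) (by linarith)
    (S8_sub T) (fun v => by
      refine (h2 (5 / 2 * T + |v|) (by have := abs_nonneg v; linarith)).trans ?_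
      have h3 : 5 / 2 * T + |v| + (M : ℝ) ^ 2 ≤ (5 / 2 * T + (M : ℝ) ^ 2) * (1 + |v|) := by
        have := abs_nonneg v
        nlinarith [sq_nonneg (M : ℝ), mul_nonneg this (sq_nonneg (M : ℝ))]
      calc C2 * (5 / 2 * T + |v| + (M : ℝ) ^ 2) * (1 + Real.log M) ^ A
          ≤ C2 * ((5 / 2 * T + (M : ℝ) ^ 2) * (1 + |v|)) * (1 + Real.log M) ^ A := by
            refine mul_le_mul_of_nonneg_right ?_ (by positivity)
            exact mul_le_mul_of_nonneg_left h3 hC2.le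
        _ = C2 * (5 / 2 * T + (M : ℝ) ^ 2) * (1 + Real.log M) ^ A * (1 + |v|) := by ring)
  have hHint : Integrable (fun t => ∫ v, gw v * ‖DD M (t + v)‖ ^ 4) (volume.restrict (S8 T)) :=
    (prod_int (g := fun u => ‖DD M u‖ ^ 4) hg hgB (S8_fin T)).integral_prod_left
  have hci : Integrable (fun _ : ℝ => (2 + 3 ^ J : ℝ) ^ 4) (volume.restrict (S8 T)) := by
    have : IsFiniteMeasure (volume.restrict (S8 T)) := ⟨by
      rw [Measure.restrict_apply_univ]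
      exact lt_top_iff_ne_top.2 (S8_fin T)⟩
    exact integrable_const _
  have hW := gw_int_pos
  have hfin : ∫ t in S8 T, ‖SG X t‖ ^ 4 ≤ ∫ t in S8 T, 8 * C1 ^ 4 *
      (X ^ 2 * ((∫ v, gw v) ^ 3 * ∫ v, gw v * ‖DD M (t + v)‖ ^ 4) + (2 + 3 ^ J) ^ 4) := by
    refine integral_mono_of_nonneg (Filter.Eventually.of_forall fun t => by positivity) ?_ ?_
    · exact (((hHint.const_mul _).const_mul _).add hci).const_mul _
    · refine (ae_restrict_iff' (S8_meas T)).2 (Filter.Eventually.of_forall fun t ht => ?_)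
      exact pointwise hC1 hT hX1 hXT ht.1 ht.2 hM hJ hJ' (h1 t)
  refine hfin.trans ?_
  rw [integral_const_mul, integral_add ((hHint.const_mul _).const_mul _) hci, integral_const_mul,
    integral_const_mul]
  refine mul_le_mul_of_nonneg_left ?_ (by positivity)
  have hc : ∫ _ in S8 T, (2 + 3 ^ J : ℝ) ^ 4 ≤ (2 + 3 ^ J) ^ 4 * (5 * T) := by
    rw [setIntegral_const, smul_eq_mul, mul_comm]
    exact mul_le_mul_of_nonneg_left (S8_vol hT0) (by positivity)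
  refine add_le_add ?_ hc
  refine mul_le_mul_of_nonneg_left ?_ (sq_nonneg _)
  exact mul_le_mul_of_nonneg_left hto (by positivity)

theorem SG_fourth (ε : ℝ) (hε : 0 < ε) : ∃ C : ℝ, 0 < C ∧ ∀ X T : ℝ, 2 ≤ T →
    T ^ (1 / 2 : ℝ) ≤ X → X ≤ T →
    ∫ t in {t : ℝ | T / 2 ≤ |t| ∧ |t| ≤ 5 / 2 * T}, ‖SG X t‖ ^ 4 ≤ C * T ^ (1 + ε) * X ^ 2 := by
  have hδ0 : 0 < min ε 1 / 8 := by positivity
  have hδ1 : min ε 1 / 8 ≤ 1 / 8 := by
    have := min_le_right ε 1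
    linarith
  have hδ2 : min ε 1 / 8 * 8 ≤ ε := by
    have := min_le_left ε 1
    linarith
  set δ := min ε 1 / 8 with hδd
  obtain ⟨J, hJ⟩ := exists_nat_gt (1 / δ)
  have hJδ : 1 < J * δ := by rwa [div_lt_iff₀ hδ0] at hJ
  have hJ1 : 1 ≤ J := by
    rcases Nat.eq_zero_or_pos J with h | h
    · rw [h] at hJδ
      norm_num at hJδ
    · exact h
  have hJ' : (J : ℝ) + (1 + δ) * (1 / 2 - J) ≤ 0 := by nlinarith
  obtain ⟨C1, hC1, h1⟩ := SG_le J hJ1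
  obtain ⟨C2, A, hC2, h2⟩ := DD_fourth
  obtain ⟨C3, hC3, h3⟩ := log_pow_le' δ hδ0 A
  have hW := gw_int_pos
  have hW1 := gw1_nonneg
  refine ⟨8 * C1 ^ 4 * ((∫ v, gw v) ^ 3 * (C2 * 7 * C3 * ∫ v, gw v * (1 + |v|)) +
      (2 + 3 ^ J) ^ 4 * 5), by positivity, fun X T hT hX1 hX2 => ?_⟩
  have hT0 : 0 < T := by linarith
  have hT1 : 1 ≤ T := by linarith
  have hXone : 1 ≤ X := (Real.one_le_rpow hT1 (by norm_num)).trans hX1
  have hX0 : 0 < X := by linarith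
  have hTδ : 0 < T ^ (1 + δ) := Real.rpow_pos_of_pos hT0 _
  -- the choice of M
  set M := ⌈T ^ (1 + δ) / X⌉₊ with hMd
  have hM1 : 1 ≤ M := Nat.ceil_pos.2 (by positivity)
  have hM : T ^ (1 + δ) ≤ X * M := by
    have h4 := Nat.le_ceil (T ^ (1 + δ) / X)
    rw [div_le_iff₀ hX0] at h4
    rw [mul_comm]
    exact h4
  have hMle : (M : ℝ) ≤ 2 * T ^ (1 / 2 + δ) := by
    have h4 := (Nat.ceil_lt_add_one (a := T ^ (1 + δ) / X) (by positivity)).le
    have h5 : T ^ (1 + δ) / X ≤ T ^ (1 / 2 + δ) := by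
      rw [div_le_iff₀ hX0]
      have h6 : T ^ (1 + δ) = T ^ (1 / 2 + δ) * T ^ (1 / 2 : ℝ) := by
        rw [← Real.rpow_add hT0]
        congr 1
        ring
      rw [h6]
      exact mul_le_mul_of_nonneg_left hX1 (Real.rpow_nonneg hT0.le _)
    have h7 : 1 ≤ T ^ (1 / 2 + δ) := Real.one_le_rpow hT1 (by linarith)
    linarith
  have hM2 : (M : ℝ) ^ 2 ≤ 4 * T ^ (1 + 2 * δ) := by
    have h4 := pow_le_pow_left₀ (Nat.cast_nonneg M) hMle 2
    have h5 : (2 * T ^ (1 / 2 + δ)) ^ 2 = 4 * T ^ (1 + 2 * δ) := by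
      rw [mul_pow, ← Real.rpow_natCast (T ^ (1 / 2 + δ)), ← Real.rpow_mul hT0.le]
      have h6 : (1 / 2 + δ) * ((2 : ℕ) : ℝ) = 1 + 2 * δ := by push_cast; ring
      rw [h6]
      norm_num
    rwa [h5] at h4
  have hsum : 5 / 2 * T + (M : ℝ) ^ 2 ≤ 7 * T ^ (1 + 2 * δ) := by
    have h4 : T ≤ T ^ (1 + 2 * δ) := by
      calc T = T ^ (1 : ℝ) := (Real.rpow_one T).symm
        _ ≤ T ^ (1 + 2 * δ) := Real.rpow_le_rpow_of_exponent_le hT1 (by linarith)
    linarith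
  have hlogM : 1 + Real.log M ≤ 1 + 2 * Real.log T := by
    have h4 : (M : ℝ) ≤ T ^ 2 := by
      have h5 : T ^ (1 / 2 + δ) ≤ T := by
        calc T ^ (1 / 2 + δ) ≤ T ^ (1 : ℝ) := Real.rpow_le_rpow_of_exponent_le hT1 (by linarith)
          _ = T := Real.rpow_one T
      nlinarith
    have h6 := Real.log_le_log (by exact_mod_cast hM1) h4
    rw [Real.log_pow] at h6
    push_cast at h6
    linarith
  have hlog0 : 0 ≤ Real.log M := Real.log_nonneg (by exact_mod_cast hM1)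
  have hlogA : (1 + Real.log M) ^ A ≤ C3 * T ^ δ :=
    (pow_le_pow_left₀ (by linarith) hlogM A).trans (h3 T hT1)
  have hmain := integrated (A := A) hC1 hC2 hT hXone hX2 hM1 hM hJ1 hJ' (fun t => h1 X t M hXone hM1)
    (fun τ hτ => h2 τ M hτ hM1)
  refine hmain.trans ?_
  have hTT : T ^ (1 + 2 * δ) * T ^ δ ≤ T ^ (1 + ε) := by
    rw [← Real.rpow_add hT0]
    exact Real.rpow_le_rpow_of_exponent_le hT1 (by linarith)
  have hT5 : T ≤ T ^ (1 + ε) * X ^ 2 := by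
    have h4 : T ≤ T ^ (1 + ε) := by
      calc T = T ^ (1 : ℝ) := (Real.rpow_one T).symm
        _ ≤ T ^ (1 + ε) := Real.rpow_le_rpow_of_exponent_le hT1 (by linarith)
    have h5 : 1 ≤ X ^ 2 := one_le_pow₀ hXone
    have h6 : 0 ≤ T ^ (1 + ε) := Real.rpow_nonneg hT0.le _
    nlinarith
  have hprod : (5 / 2 * T + (M : ℝ) ^ 2) * (1 + Real.log M) ^ A ≤ 7 * C3 * T ^ (1 + ε) := by
    calc (5 / 2 * T + (M : ℝ) ^ 2) * (1 + Real.log M) ^ A
        ≤ 7 * T ^ (1 + 2 * δ) * (C3 * T ^ δ) :=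
          mul_le_mul hsum hlogA (by positivity) (by positivity)
      _ = 7 * C3 * (T ^ (1 + 2 * δ) * T ^ δ) := by ring
      _ ≤ 7 * C3 * T ^ (1 + ε) := mul_le_mul_of_nonneg_left hTT (by positivity)
  set W := ∫ v, gw v with hWd
  set W1 := ∫ v, gw v * (1 + |v|) with hW1d
  have e1 : X ^ 2 * (W ^ 3 * (C2 * (5 / 2 * T + (M : ℝ) ^ 2) * (1 + Real.log M) ^ A * W1)) ≤
      W ^ 3 * (C2 * 7 * C3 * W1) * (T ^ (1 + ε) * X ^ 2) := by
    calc X ^ 2 * (W ^ 3 * (C2 * (5 / 2 * T + (M : ℝ) ^ 2) * (1 + Real.log M) ^ A * W1))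
        = X ^ 2 * W ^ 3 * C2 * W1 * ((5 / 2 * T + (M : ℝ) ^ 2) * (1 + Real.log M) ^ A) := by ring
      _ ≤ X ^ 2 * W ^ 3 * C2 * W1 * (7 * C3 * T ^ (1 + ε)) :=
          mul_le_mul_of_nonneg_left hprod (by positivity)
      _ = W ^ 3 * (C2 * 7 * C3 * W1) * (T ^ (1 + ε) * X ^ 2) := by ring
  have e2 : (2 + 3 ^ J : ℝ) ^ 4 * (5 * T) ≤ (2 + 3 ^ J) ^ 4 * 5 * (T ^ (1 + ε) * X ^ 2) := by
    calc (2 + 3 ^ J : ℝ) ^ 4 * (5 * T) = (2 + 3 ^ J) ^ 4 * 5 * T := by ring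
      _ ≤ (2 + 3 ^ J) ^ 4 * 5 * (T ^ (1 + ε) * X ^ 2) :=
          mul_le_mul_of_nonneg_left hT5 (by positivity)
  calc 8 * C1 ^ 4 * (X ^ 2 * (W ^ 3 *
        (C2 * (5 / 2 * T + (M : ℝ) ^ 2) * (1 + Real.log M) ^ A * W1)) + (2 + 3 ^ J) ^ 4 * (5 * T))
      ≤ 8 * C1 ^ 4 * (W ^ 3 * (C2 * 7 * C3 * W1) * (T ^ (1 + ε) * X ^ 2) +
        (2 + 3 ^ J) ^ 4 * 5 * (T ^ (1 + ε) * X ^ 2)) :=
        mul_le_mul_of_nonneg_left (add_le_add e1 e2) (by positivity)
    _ = 8 * C1 ^ 4 * (W ^ 3 * (C2 * 7 * C3 * W1) + (2 + 3 ^ J) ^ 4 * 5) * T ^ (1 + ε) * X ^ 2 := by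
        ring

end Pool.Agent.Lib.MP_9a8698_nt
end
end
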