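import Pool.Agent.Lib.MP_9a8698_nt.X5
import Pool.Agent.Lib.MP_9a8698_nt.S5
import Pool.Agent.Lib.MP_9a8698_nt.R8

section

/-!
R9. The Gaussian form of the Perron formula (A1: `gs_nonneg`, `integral_gs`, `gauss_ft` may be used).

PROOF of `pk_norm`. `‖pk α β v‖ ≤ β - α ≤ 2`, and for `v ≠ 0` the integral is `(e^(ivβ) - e^(ivα))/(iv)`, so the norm is `≤ 2/|v|`;
both are `≤ 4/(1+|v|)` in the ranges `|v| ≤ 1`, `|v| ≥ 1`.

PROOF of `perron_id`. By `gauss_ft` (A1) with `τ = V`: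
`gs V x = (1/(2π)) ∫ exp(-(v/V)²/2) exp(i x v) dv`; here use it at `x = y - L` (`gs` is even), integrate over `y ∈ [α, β]`, and exchange the
integrals (the integrand is bounded by the integrable function `exp(-(v/V)²/2)` on a bounded interval of `y`).

PROOF of `perron_err`. The function `y ↦ gs V (L - y)` is a probability density. Tail bound: for `x ≥ 0`,
`∫_{z > x} gs V z dz ≤ exp(-(V x)²/2)` (for `z ≥ x`: `z² ≥ x² + (z-x)²`, so `gs V z ≤ exp(-(Vx)²/2) gs V (z-x)` and `integral_gs`). If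
`α ≤ L ≤ β`, `1 - ∫_α^β = ` the two tails beyond `α` and `β`. If `L < α` the integral is at most the tail beyond `α - L`; if `L > β` the
tail beyond `L - β`.
-/

set_option autoImplicit false

open MeasureTheory

namespace Pool.Agent.Lib.MP_9a8698_nt

theorem r9_pk_le {α β : ℝ} (h : α ≤ β) (v : ℝ) : ‖pk α β v‖ ≤ β - α := by
  unfold pk
  have h1 := intervalIntegral.norm_integral_le_of_norm_le_const (a := α) (b := β)
    (f := fun y : ℝ => Complex.exp (((v * y : ℝ) : ℂ) * Complex.I)) (C := 1)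
    (fun y _ => by rw [Complex.norm_exp_ofReal_mul_I])
  rwa [one_mul, abs_of_nonneg (sub_nonneg.2 h)] at h1

theorem r9_pk_eq (α β : ℝ) {v : ℝ} (hv : v ≠ 0) : pk α β v =
    (Complex.exp (((v * β : ℝ) : ℂ) * Complex.I) - Complex.exp (((v * α : ℝ) : ℂ) * Complex.I)) /
      ((v : ℂ) * Complex.I) := by
  have hc : (v : ℂ) * Complex.I ≠ 0 := mul_ne_zero (by exact_mod_cast hv) Complex.I_ne_zero
  have h := integral_exp_mul_complex (a := α) (b := β) hc
  have e : ∀ y : ℝ, ((v * y : ℝ) : ℂ) * Complex.I = (v : ℂ) * Complex.I * (y : ℂ) := by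
    intro y
    push_cast
    ring
  unfold pk
  simp only [e]
  exact h

theorem r9_pk_le' (α β : ℝ) {v : ℝ} (hv : v ≠ 0) : ‖pk α β v‖ ≤ 2 / |v| := by
  rw [r9_pk_eq α β hv, norm_div, norm_mul, Complex.norm_I, mul_one, Complex.norm_real, Real.norm_eq_abs]
  refine div_le_div_of_nonneg_right ?_ (abs_nonneg v)
  refine (norm_sub_le _ _).trans ?_
  rw [Complex.norm_exp_ofReal_mul_I, Complex.norm_exp_ofReal_mul_I]
  norm_num

theorem pk_norm {α β : ℝ} (h : α ≤ β) (h2 : β - α ≤ 2) (v : ℝ) : ‖pk α β v‖ ≤ 4 / (1 + |v|) := by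
  have hv0 := abs_nonneg v
  rcases le_total |v| 1 with hv | hv
  · refine (r9_pk_le h v).trans (h2.trans ?_)
    rw [le_div_iff₀ (by linarith)]
    linarith
  · have hv1 : v ≠ 0 := by
      rintro rfl
      rw [abs_zero] at hv
      linarith
    refine (r9_pk_le' α β hv1).trans ?_
    rw [div_le_div_iff₀ (by linarith) (by linarith)]
    linarith

theorem pk_continuous (α β : ℝ) : Continuous (pk α β) := by
  unfold pk
  exact intervalIntegral.continuous_parametric_intervalIntegral_of_continuous'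
    (f := fun v y : ℝ => Complex.exp (((v * y : ℝ) : ℂ) * Complex.I)) (by fun_prop) α β

theorem perron_id {V : ℝ} (hV : 0 < V) {α β : ℝ} (h : α ≤ β) (L : ℝ) :
    ((∫ y in α..β, gs V (L - y) : ℝ) : ℂ) = ((1 / (2 * Real.pi) : ℝ) : ℂ) *
      ∫ v : ℝ, ((Real.exp (-((v / V) ^ 2 / 2)) : ℝ) : ℂ) * pk α β v *
        Complex.exp (((-(v * L) : ℝ) : ℂ) * Complex.I) := by
  have h1 : ∀ v : ℝ, ((Real.exp (-((v / V) ^ 2 / 2)) : ℝ) : ℂ) * pk α β v *
        Complex.exp (((-(v * L) : ℝ) : ℂ) * Complex.I) =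
      ∫ y in Set.Ioc α β, ((Real.exp (-((v / V) ^ 2 / 2)) : ℝ) : ℂ) *
        Complex.exp ((((y - L) * v : ℝ) : ℂ) * Complex.I) := by
    intro v
    unfold pk
    rw [intervalIntegral.integral_of_le h, mul_right_comm, ← integral_const_mul]
    refine integral_congr_ae (Filter.Eventually.of_forall fun y => ?_)
    show _ * _ * _ = _ * _
    rw [mul_assoc, ← Complex.exp_add]
    congr 2
    push_cast
    ring
  have hint : Integrable (Function.uncurry fun (v y : ℝ) => ((Real.exp (-((v / V) ^ 2 / 2)) : ℝ) : ℂ) *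
        Complex.exp ((((y - L) * v : ℝ) : ℂ) * Complex.I))
      ((volume : Measure ℝ).prod ((volume : Measure ℝ).restrict (Set.Ioc α β))) := by
    have hg := (gauss_norm_integrable hV).mul_prod (ν := (volume : Measure ℝ).restrict (Set.Ioc α β))
      (integrable_const (1 : ℝ))
    refine Integrable.mono' hg ?_ (Filter.Eventually.of_forall fun z => ?_)
    · apply Continuous.aestronglyMeasurable
      unfold Function.uncurry
      fun_prop
    · show ‖_ * _‖ ≤ _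
      rw [norm_mul, Complex.norm_exp_ofReal_mul_I, mul_one, Complex.norm_real,
        Real.norm_eq_abs, abs_of_pos (Real.exp_pos _), mul_one]
  simp only [h1]
  rw [integral_integral_swap hint]
  have h2 : ∀ y : ℝ, ∫ v : ℝ, ((Real.exp (-((v / V) ^ 2 / 2)) : ℝ) : ℂ) *
        Complex.exp ((((y - L) * v : ℝ) : ℂ) * Complex.I) =
      ((2 * Real.pi * gs V (L - y) : ℝ) : ℂ) := by
    intro y
    rw [gauss_ft hV]
    congr 1
    unfold gs
    have h3 : 0 < Real.sqrt (2 * Real.pi) := Real.sqrt_pos.2 (by positivity)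
    have h4 : Real.sqrt (2 * Real.pi) * Real.sqrt (2 * Real.pi) = 2 * Real.pi :=
      Real.mul_self_sqrt (by positivity)
    have h5 : (V * (y - L)) ^ 2 = (V * (L - y)) ^ 2 := by ring
    rw [h5]
    have h6 : 2 * Real.pi * (V / Real.sqrt (2 * Real.pi) * Real.exp (-((V * (L - y)) ^ 2 / 2))) =
        (2 * Real.pi / Real.sqrt (2 * Real.pi)) * V * Real.exp (-((V * (L - y)) ^ 2 / 2)) := by
      ring
    rw [h6]
    congr 2
    rw [eq_div_iff h3.ne', h4]
  simp only [h2]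
  rw [integral_complex_ofReal, integral_const_mul, intervalIntegral.integral_of_le h,
    ← Complex.ofReal_mul]
  congr 1
  have hpi := Real.pi_pos
  field_simp

theorem r9_gs_neg (V x : ℝ) : gs V (-x) = gs V x := by
  unfold gs
  have h : (V * -x) ^ 2 = (V * x) ^ 2 := by ring
  rw [h]

theorem r9_gs_int {V : ℝ} (hV : 0 < V) : Integrable (gs V) := by
  by_contra h
  have h1 := integral_undef h
  rw [integral_gs hV] at h1
  exact one_ne_zero h1

theorem r9_tail {V : ℝ} (hV : 0 < V) {x : ℝ} (hx : 0 ≤ x) :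
    ∫ z in Set.Ioi x, gs V z ≤ Real.exp (-((V * x) ^ 2 / 2)) := by
  have hi : Integrable (fun z => gs V (z - x)) := (r9_gs_int hV).comp_sub_right x
  have h1 : ∫ z in Set.Ioi x, gs V z ≤
      ∫ z in Set.Ioi x, Real.exp (-((V * x) ^ 2 / 2)) * gs V (z - x) := by
    refine setIntegral_mono_on (r9_gs_int hV).integrableOn (hi.const_mul _).integrableOn measurableSet_Ioi ?_
    intro z hz
    have hz' : x < z := hz
    unfold gs
    rw [mul_left_comm, ← Real.exp_add]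
    refine mul_le_mul_of_nonneg_left (Real.exp_le_exp.2 ?_) (by positivity)
    have h2 : 0 ≤ V ^ 2 * (x * (z - x)) := by
      have := sub_nonneg.2 hz'.le
      positivity
    nlinarith
  refine h1.trans ?_
  rw [integral_const_mul]
  have h3 : ∫ z in Set.Ioi x, gs V (z - x) ≤ 1 := by
    have h4 := setIntegral_le_integral (s := Set.Ioi x) hi
      (Filter.Eventually.of_forall fun z => gs_nonneg hV.le (z - x))
    have h5 : ∫ z : ℝ, gs V (z - x) = ∫ z : ℝ, gs V z := integral_sub_right_eq_self (gs V) x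
    rw [h5, integral_gs hV] at h4
    exact h4
  have h6 := Real.exp_pos (-((V * x) ^ 2 / 2))
  nlinarith

theorem r9_tail' {V : ℝ} (hV : 0 < V) {x : ℝ} (hx : x ≤ 0) :
    ∫ z in Set.Iic x, gs V z ≤ Real.exp (-((V * x) ^ 2 / 2)) := by
  have h1 := integral_comp_neg_Iic x (gs V)
  simp only [r9_gs_neg] at h1
  rw [h1]
  have h2 := r9_tail hV (x := -x) (by linarith)
  have h3 : (V * -x) ^ 2 = (V * x) ^ 2 := by ring
  rwa [h3] at h2

theorem r9_err {V : ℝ} (hV : 0 < V) {a b : ℝ} (h : a ≤ b) :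
    |(if a ≤ 0 ∧ 0 ≤ b then (1 : ℝ) else 0) - ∫ z in a..b, gs V z| ≤
      Real.exp (-((V * a) ^ 2 / 2)) + Real.exp (-((V * b) ^ 2 / 2)) := by
  have hi := r9_gs_int hV
  have ea := Real.exp_pos (-((V * a) ^ 2 / 2))
  have eb := Real.exp_pos (-((V * b) ^ 2 / 2))
  have h0 : 0 ≤ ∫ z in a..b, gs V z :=
    intervalIntegral.integral_nonneg h fun z _ => gs_nonneg hV.le z
  have h1 : (∫ z in Set.Iic b, gs V z) - ∫ z in Set.Iic a, gs V z = ∫ z in a..b, gs V z :=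
    intervalIntegral.integral_Iic_sub_Iic hi.integrableOn hi.integrableOn
  have h2 : (∫ z in Set.Iic b, gs V z) + ∫ z in Set.Ioi b, gs V z = 1 := by
    rw [intervalIntegral.integral_Iic_add_Ioi hi.integrableOn hi.integrableOn, integral_gs hV]
  have h3 : (∫ z in Set.Iic a, gs V z) + ∫ z in Set.Ioi a, gs V z = 1 := by
    rw [intervalIntegral.integral_Iic_add_Ioi hi.integrableOn hi.integrableOn, integral_gs hV]
  have n1 : 0 ≤ ∫ z in Set.Iic a, gs V z := setIntegral_nonneg measurableSet_Iic fun z _ => gs_nonneg hV.le z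
  have n2 : 0 ≤ ∫ z in Set.Ioi b, gs V z := setIntegral_nonneg measurableSet_Ioi fun z _ => gs_nonneg hV.le z
  split_ifs with hc
  · have t1 := r9_tail' hV hc.1
    have t2 := r9_tail hV hc.2
    rw [abs_le]
    constructor <;> linarith
  · rw [zero_sub, abs_neg, abs_of_nonneg h0]
    rcases lt_or_ge 0 a with ha | ha
    · have t := r9_tail hV ha.le
      linarith
    · have hb : b < 0 := by
        by_contra hb
        exact hc ⟨ha, not_lt.1 hb⟩
      have t := r9_tail' hV hb.le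
      linarith

theorem perron_err {V : ℝ} (hV : 0 < V) {α β : ℝ} (h : α ≤ β) (L : ℝ) :
    |(if α ≤ L ∧ L ≤ β then (1 : ℝ) else 0) - ∫ y in α..β, gs V (L - y)| ≤
      Real.exp (-((V * (L - α)) ^ 2 / 2)) + Real.exp (-((V * (L - β)) ^ 2 / 2)) := by
  have h1 := r9_err hV (a := α - L) (b := β - L) (by linarith)
  have h2 : ∫ y in α..β, gs V (L - y) = ∫ z in (α - L)..(β - L), gs V z := by
    rw [← intervalIntegral.integral_comp_sub_right (gs V) L]
    refine intervalIntegral.integral_congr fun y _ => ?_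
    show gs V (L - y) = gs V (y - L)
    rw [← r9_gs_neg V (y - L), neg_sub]
  have h3 : (α - L ≤ 0 ∧ 0 ≤ β - L) ↔ (α ≤ L ∧ L ≤ β) := by
    constructor
    · rintro ⟨h4, h5⟩
      exact ⟨by linarith, by linarith⟩
    · rintro ⟨h4, h5⟩
      exact ⟨by linarith, by linarith⟩
  have h4 : (V * (α - L)) ^ 2 = (V * (L - α)) ^ 2 := by ring
  have h5 : (V * (β - L)) ^ 2 = (V * (L - β)) ^ 2 := by ring
  rw [h2, ← h4, ← h5]
  simp only [h3] at h1
  exact h1

end Pool.Agent.Lib.MP_9a8698_nt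
end

section

section

/-!
R10. Sharp sums in terms of the smooth sum (A2: `gauss_sum`; R0b, R9 may be used).

PROOF. If `a = b` the left side is 0. Let `a < b`, `α = log(a - 1/2)`, `β = log(b - 1/2)`; `a ≥ X ≥ 1`, so `a - 1/2 ≥ a/2`, and
`b - 1/2 ≤ 2X ≤ 4 (a - 1/2)`, so `0 ≤ β - α ≤ log 4 ≤ 2`. For an integer `n ≥ 1`: `α ≤ log n ≤ β` iff `a ≤ n < b`. Put
`g(n) = ∫_α^β gs V (log n - y) dy ∈ [0,1]`. By `perron_id` and `e^(-iv log n) fw X t n = fw X (t+v) n`,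
`∑' n, fw X t n g(n) = (1/2π) ∫ exp(-(v/V)²/2) pk α β v SG X (t+v) dv` (exchange of sum and integral:
`∑' ‖fw X t n‖ < ∞`, `integral_tsum` or `hasSum_integral_of_summable_integral_norm`), whose norm is at most
`∫ exp(-(v/V)²/2) 4/(1+|v|) ‖SG X (t+v)‖ dv` (`1/2π ≤ 1`, `pk_norm`). The difference `∑_{a ≤ n < b} fw X t n - ∑' n, fw X t n g(n)` is, by
`perron_err` and `lg ≤ 1`, at most `∑_{n ≥ 1} (exp(-(V(log n - α))²/2) + exp(-(V (log n - β))²/2))`. For `n ≥ a`,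
`log n - α ≥ log n - log a ≥ 0`; for `n ≤ a - 1`, `α - log n ≥ log (a-1) - log n ≥ 0` (only if `a ≥ 2`). So the first sum is at most
`∑_n exp(-(V (log n - log a))²/2) + ∑_n exp(-(V(log n - log(a-1)))²/2)` and `gauss_sum` (divided by `τ = V`) bounds both by `C (1 + a/V)`
(for all finite sets of `n`, hence for the `tsum`). The same for `b`. As `a, b ≤ 2X` the total is `≤ C' (1 + X/V)`.
-/

set_option autoImplicit false

open Finset MeasureTheory

namespace Pool.Agent.Lib.MP_9a8698_nt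

theorem r10_fw_norm_eq (X t u x : ℝ) : ‖fw X u x‖ = ‖fw X t x‖ := by
  rw [fw_norm, fw_norm]

theorem sharp_integrable {X : ℝ} (hX : 1 ≤ X) {V : ℝ} (hV : 0 < V) (t : ℝ) :
    Integrable (fun v : ℝ => Real.exp (-((v / V) ^ 2 / 2)) * (4 / (1 + |v|)) * ‖SG X (t + v)‖) := by
  obtain ⟨C, hC, h⟩ := SG_norm_le
  have hX0 : 0 < X := by linarith
  have hSG : Continuous (fun v : ℝ => SG X (t + v)) := (SG_continuous hX0).comp (by fun_prop)
  refine Integrable.mono' ((gauss_norm_integrable hV).mul_const (4 * (C * X))) ?_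
    (Filter.Eventually.of_forall fun v => ?_)
  · apply Continuous.aestronglyMeasurable
    have h1 : ∀ v : ℝ, (1 + |v|) ≠ 0 := fun v => by positivity
    have h2 : Continuous (fun v : ℝ => 4 / (1 + |v|)) :=
      continuous_const.div (by fun_prop) h1
    exact ((by fun_prop : Continuous fun v : ℝ => Real.exp (-((v / V) ^ 2 / 2))).mul h2).mul hSG.norm
  · have h1 : 0 ≤ ‖SG X (t + v)‖ := norm_nonneg _
    have h2 : 4 / (1 + |v|) ≤ 4 := by
      rw [div_le_iff₀ (by positivity)]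
      nlinarith [abs_nonneg v]
    rw [Real.norm_eq_abs, abs_of_nonneg (by positivity), mul_assoc]
    refine mul_le_mul_of_nonneg_left ?_ (Real.exp_pos _).le
    exact mul_le_mul h2 (h X _ hX) h1 (by norm_num)

/-- the Gaussian sum around the half integer `c - 1/2` -/
theorem r10_half {C : ℝ} (hC : 0 < C) (hG : ∀ (s : Finset ℕ) (m : ℕ) (τ : ℝ), 1 ≤ m → 1 ≤ τ →
    (∀ n ∈ s, 1 ≤ n) →
    ∑ n ∈ s, τ * Real.exp (-((τ * (Real.log n - Real.log m)) ^ 2 / 2)) ≤ C * (τ + m))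
    {V : ℝ} (hV : 1 ≤ V) {c : ℕ} (hc : 1 ≤ c) (s : Finset ℕ) (hs : ∀ n ∈ s, 1 ≤ n) :
    ∑ n ∈ s, Real.exp (-((V * (Real.log n - Real.log ((c : ℝ) - 1 / 2))) ^ 2 / 2)) ≤
      2 * C * (1 + c / V) := by
  have hV0 : 0 < V := by linarith
  have hc' : (1 : ℝ) ≤ c := by exact_mod_cast hc
  have key : ∀ m : ℕ, 1 ≤ m → (m : ℝ) ≤ c →
      ∑ n ∈ s, Real.exp (-((V * (Real.log n - Real.log m)) ^ 2 / 2)) ≤ C * (1 + c / V) := by
    intro m hm hmc
    have h1 := hG s m V hm hV hs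
    rw [← Finset.mul_sum] at h1
    have h2 : V * ∑ n ∈ s, Real.exp (-((V * (Real.log n - Real.log m)) ^ 2 / 2)) ≤
        V * (C * (1 + c / V)) := by
      refine h1.trans ?_
      have : V * (C * (1 + c / V)) = C * (V + c) := by field_simp
      rw [this]
      exact mul_le_mul_of_nonneg_left (by linarith) hC.le
    exact le_of_mul_le_mul_left h2 hV0
  have mono : ∀ x y : ℝ, 0 ≤ x → x ≤ y → Real.exp (-((V * y) ^ 2 / 2)) ≤ Real.exp (-((V * x) ^ 2 / 2)) := by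
    intro x y hx hxy
    refine Real.exp_le_exp.2 ?_
    have h1 : V * x ≤ V * y := mul_le_mul_of_nonneg_left hxy hV0.le
    have h2 : 0 ≤ V * x := by positivity
    nlinarith
  rcases Nat.eq_or_lt_of_le hc with h1 | h1
  · -- c = 1
    subst h1
    have h2 : ∑ n ∈ s, Real.exp (-((V * (Real.log n - Real.log (((1 : ℕ) : ℝ) - 1 / 2))) ^ 2 / 2)) ≤
        ∑ n ∈ s, Real.exp (-((V * (Real.log n - Real.log ((1 : ℕ) : ℝ))) ^ 2 / 2)) := by
      refine Finset.sum_le_sum fun n hn => mono _ _ ?_ ?_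
      · have : (1 : ℝ) ≤ n := by exact_mod_cast hs n hn
        simpa using Real.log_nonneg this
      · have : Real.log (((1 : ℕ) : ℝ) - 1 / 2) ≤ Real.log ((1 : ℕ) : ℝ) :=
          Real.log_le_log (by norm_num) (by norm_num)
        linarith
    have h3 := key 1 le_rfl le_rfl
    have h4 : 0 ≤ C * (1 + ((1 : ℕ) : ℝ) / V) := by positivity
    linarith
  · have hc1 : 1 ≤ c - 1 := by omega
    have hc2 : ((c - 1 : ℕ) : ℝ) = (c : ℝ) - 1 := by rw [Nat.cast_sub hc, Nat.cast_one]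
    have hc3 : (2 : ℝ) ≤ c := by exact_mod_cast h1
    have h2 : ∑ n ∈ s, Real.exp (-((V * (Real.log n - Real.log ((c : ℝ) - 1 / 2))) ^ 2 / 2)) ≤
        ∑ n ∈ s, (Real.exp (-((V * (Real.log n - Real.log c)) ^ 2 / 2)) +
          Real.exp (-((V * (Real.log n - Real.log ((c - 1 : ℕ) : ℝ))) ^ 2 / 2))) := by
      refine Finset.sum_le_sum fun n hn => ?_
      have hn1 : 1 ≤ n := hs n hn
      have hn0 : (0 : ℝ) < n := by exact_mod_cast hn1
      rcases le_or_gt c n with hcn | hcn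
      · have hcn' : (c : ℝ) ≤ n := by exact_mod_cast hcn
        have e1 := mono (Real.log n - Real.log c) (Real.log n - Real.log ((c : ℝ) - 1 / 2))
          (sub_nonneg.2 (Real.log_le_log (by linarith) hcn'))
          (by
            have := Real.log_le_log (by linarith : (0 : ℝ) < (c : ℝ) - 1 / 2) (by linarith : (c : ℝ) - 1 / 2 ≤ c)
            linarith)
        have e2 := Real.exp_pos (-((V * (Real.log n - Real.log ((c - 1 : ℕ) : ℝ))) ^ 2 / 2))
        linarith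
      · have hcn' : (n : ℝ) ≤ (c : ℝ) - 1 := by
          have : n ≤ c - 1 := by omega
          have h5 : (n : ℝ) ≤ ((c - 1 : ℕ) : ℝ) := by exact_mod_cast this
          rwa [hc2] at h5
        have e1 := mono (Real.log ((c - 1 : ℕ) : ℝ) - Real.log n) (Real.log ((c : ℝ) - 1 / 2) - Real.log n)
          (sub_nonneg.2 (Real.log_le_log hn0 (by rw [hc2]; exact hcn')))
          (by
            have := Real.log_le_log (by linarith : (0 : ℝ) < (c : ℝ) - 1) (by linarith : (c : ℝ) - 1 ≤ (c : ℝ) - 1 / 2)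
            rw [hc2]
            linarith)
        have e2 := Real.exp_pos (-((V * (Real.log n - Real.log c)) ^ 2 / 2))
        have e3 : (V * (Real.log ((c - 1 : ℕ) : ℝ) - Real.log n)) ^ 2 =
            (V * (Real.log n - Real.log ((c - 1 : ℕ) : ℝ))) ^ 2 := by ring
        have e4 : (V * (Real.log ((c : ℝ) - 1 / 2) - Real.log n)) ^ 2 =
            (V * (Real.log n - Real.log ((c : ℝ) - 1 / 2))) ^ 2 := by ring
        rw [e3, e4] at e1
        linarith
    rw [Finset.sum_add_distrib] at h2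
    have h3 := key c hc le_rfl
    have h4 := key (c - 1) hc1 (by rw [hc2]; linarith)
    linarith

theorem r10_fw_shift (X t v : ℝ) (n : ℕ) :
    fw X t n * Complex.exp (((-(v * Real.log n) : ℝ) : ℂ) * Complex.I) = fw X (t + v) n := by
  unfold fw
  split_ifs with h
  · rw [mul_assoc, ← Complex.exp_add]
    congr 2
    push_cast
    ring
  · rw [zero_mul]

theorem r10_fw_cont (X t : ℝ) (n : ℕ) : Continuous (fun v : ℝ => fw X (t + v) n) := by
  unfold fw
  split_ifs with h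
  · fun_prop
  · fun_prop

theorem r10_perron {X : ℝ} (hX : 1 ≤ X) {V : ℝ} (hV : 0 < V) (t : ℝ) {α β : ℝ} (h : α ≤ β) (h2 : β - α ≤ 2) :
    ∑' n : ℕ, fw X t n * ((∫ y in α..β, gs V (Real.log n - y) : ℝ) : ℂ) =
      ((1 / (2 * Real.pi) : ℝ) : ℂ) * ∫ v : ℝ, ((Real.exp (-((v / V) ^ 2 / 2)) : ℝ) : ℂ) * pk α β v *
        SG X (t + v) := by
  have hX0 : 0 < X := by linarith
  set F : ℕ → ℝ → ℂ := fun n v => ((Real.exp (-((v / V) ^ 2 / 2)) : ℝ) : ℂ) * pk α β v * fw X (t + v) n with hF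
  have hFn : ∀ n v, ‖F n v‖ ≤ Real.exp (-((v / V) ^ 2 / 2)) * (2 * ‖fw X t n‖) := by
    intro n v
    simp only [hF]
    rw [norm_mul, norm_mul, Complex.norm_real, Real.norm_eq_abs, abs_of_pos (Real.exp_pos _), mul_assoc,
      r10_fw_norm_eq X t (t + v)]
    refine mul_le_mul_of_nonneg_left ?_ (Real.exp_pos _).le
    exact mul_le_mul_of_nonneg_right ((r9_pk_le h v).trans h2) (norm_nonneg _)
  have hFc : ∀ n, Continuous (F n) := by
    intro n
    simp only [hF]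
    exact ((by fun_prop : Continuous fun v : ℝ => ((Real.exp (-((v / V) ^ 2 / 2)) : ℝ) : ℂ)).mul
      (pk_continuous α β)).mul (r10_fw_cont X t n)
  have hFi : ∀ n, Integrable (F n) := fun n =>
    Integrable.mono' ((gauss_norm_integrable hV).mul_const _) (hFc n).aestronglyMeasurable
      (Filter.Eventually.of_forall fun v => hFn n v)
  have hFs : Summable fun n => ∫ v, ‖F n v‖ := by
    refine Summable.of_nonneg_of_le (fun n => integral_nonneg fun v => norm_nonneg _) (fun n => ?_)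
      ((fw_summable hX0 t).mul_left ((∫ v : ℝ, Real.exp (-((v / V) ^ 2 / 2))) * 2))
    refine (integral_mono (hFi n).norm ((gauss_norm_integrable hV).mul_const _) (hFn n)).trans ?_
    rw [integral_mul_const, mul_assoc]
  have h1 : ∀ n : ℕ, fw X t n * ((∫ y in α..β, gs V (Real.log n - y) : ℝ) : ℂ) =
      ((1 / (2 * Real.pi) : ℝ) : ℂ) * ∫ v : ℝ, F n v := by
    intro n
    rw [perron_id hV h (Real.log n), mul_left_comm, ← integral_const_mul]
    congr 1
    refine integral_congr_ae (Filter.Eventually.of_forall fun v => ?_)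
    simp only [hF]
    rw [← r10_fw_shift X t v n]
    ring
  simp only [h1]
  rw [tsum_mul_left, integral_tsum_of_summable_integral_norm hFi hFs]
  congr 1
  refine integral_congr_ae (Filter.Eventually.of_forall fun v => ?_)
  simp only [hF]
  rw [tsum_mul_left]
  rfl

theorem sharp_le : ∃ C : ℝ, 0 < C ∧ ∀ (X t V : ℝ) (a b : ℕ), 1 ≤ X → 1 ≤ V → X ≤ a →
    (b : ℝ) ≤ 2 * X → a ≤ b →
    ‖∑ n ∈ Ico a b, fw X t n‖ ≤
      (∫ v : ℝ, Real.exp (-((v / V) ^ 2 / 2)) * (4 / (1 + |v|)) * ‖SG X (t + v)‖) +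
        C * (1 + X / V) := by
  obtain ⟨C, hC, hG⟩ := gauss_sum
  refine ⟨8 * C, by positivity, fun X t V a b hX hV hXa hbX hab => ?_⟩
  have hV0 : 0 < V := by linarith
  have hX0 : 0 < X := by linarith
  have hI0 : 0 ≤ ∫ v : ℝ, Real.exp (-((v / V) ^ 2 / 2)) * (4 / (1 + |v|)) * ‖SG X (t + v)‖ :=
    integral_nonneg fun v => by positivity
  have hR0 : 0 ≤ 8 * C * (1 + X / V) := by positivity
  rcases Nat.eq_or_lt_of_le hab with rfl | hlt
  · rw [Ico_self, sum_empty, norm_zero]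
    linarith
  have ha1 : (1 : ℝ) ≤ a := hX.trans hXa
  have ha1' : 1 ≤ a := by exact_mod_cast ha1
  have hab' : (a : ℝ) ≤ b := by exact_mod_cast hab
  have hpa : 0 < (a : ℝ) - 1 / 2 := by linarith
  have hpb : 0 < (b : ℝ) - 1 / 2 := by linarith
  set α := Real.log ((a : ℝ) - 1 / 2) with hα
  set β := Real.log ((b : ℝ) - 1 / 2) with hβ
  have h1 : α ≤ β := Real.log_le_log hpa (by linarith)
  have h2 : β - α ≤ 2 := by
    have h3 : β ≤ Real.log (4 * ((a : ℝ) - 1 / 2)) := Real.log_le_log hpb (by linarith)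
    rw [Real.log_mul (by norm_num) hpa.ne'] at h3
    have h4 : Real.log 4 = 2 * Real.log 2 := by
      rw [show (4 : ℝ) = 2 ^ 2 by norm_num, Real.log_pow]
      push_cast
      ring
    have h5 := Real.log_le_sub_one_of_pos (show (0 : ℝ) < 2 by norm_num)
    linarith
  have hind : ∀ n : ℕ, 1 ≤ n → ((α ≤ Real.log n ∧ Real.log n ≤ β) ↔ (a ≤ n ∧ n < b)) := by
    intro n hn
    have hn0 : (0 : ℝ) < n := by exact_mod_cast hn
    rw [hα, hβ, Real.log_le_log_iff hpa hn0, Real.log_le_log_iff hn0 hpb]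
    constructor
    · rintro ⟨h3, h4⟩
      constructor
      · by_contra hcon
        push Not at hcon
        have : (n : ℝ) + 1 ≤ a := by exact_mod_cast hcon
        linarith
      · by_contra hcon
        push Not at hcon
        have : (b : ℝ) ≤ n := by exact_mod_cast hcon
        linarith
    · rintro ⟨h3, h4⟩
      have h5 : (a : ℝ) ≤ n := by exact_mod_cast h3
      have h6 : (n : ℝ) + 1 ≤ b := by exact_mod_cast h4
      constructor <;> linarith
  set g : ℕ → ℝ := fun n => ∫ y in α..β, gs V (Real.log n - y) with hg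
  set E : ℕ → ℝ := fun n => Real.exp (-((V * (Real.log n - α)) ^ 2 / 2)) +
    Real.exp (-((V * (Real.log n - β)) ^ 2 / 2)) with hE
  have hE2 : ∀ n, E n ≤ 2 := by
    intro n
    have e1 : Real.exp (-((V * (Real.log n - α)) ^ 2 / 2)) ≤ 1 := Real.exp_le_one_iff.2 (by
      have := sq_nonneg (V * (Real.log n - α)); linarith)
    have e2 : Real.exp (-((V * (Real.log n - β)) ^ 2 / 2)) ≤ 1 := Real.exp_le_one_iff.2 (by
      have := sq_nonneg (V * (Real.log n - β)); linarith)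
    simp only [hE]
    linarith
  have hE0 : ∀ n, 0 ≤ E n := fun n => by simp only [hE]; positivity
  have herr : ∀ n : ℕ, 1 ≤ n → |(if a ≤ n ∧ n < b then (1 : ℝ) else 0) - g n| ≤ E n := by
    intro n hn
    have h3 := perron_err hV0 h1 (Real.log n)
    simp only [hind n hn] at h3
    exact h3
  have hfw0 : fw X t ((0 : ℕ) : ℝ) = 0 := by
    unfold fw
    rw [if_neg (by simp)]
  have hfw1 : ∀ n : ℕ, ‖fw X t n‖ ≤ 1 := by
    intro n
    rw [fw_norm]
    split_ifs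
    · exact lg_le_one _
    · exact zero_le_one
  have hgle : ∀ n : ℕ, 1 ≤ n → |g n| ≤ 3 := by
    intro n hn
    have h3 := herr n hn
    have h4 := hE2 n
    rw [abs_le] at h3 ⊢
    split_ifs at h3 <;> constructor <;> linarith [h3.1, h3.2]
  have hs1 : Summable fun n : ℕ => fw X t n * (g n : ℂ) := by
    refine Summable.of_norm_bounded ((fw_summable hX0 t).mul_right 3) fun n => ?_
    rcases Nat.eq_zero_or_pos n with rfl | hn
    · rw [hfw0]; simp
    · rw [norm_mul, Complex.norm_real, Real.norm_eq_abs]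
      exact mul_le_mul_of_nonneg_left (hgle n hn) (norm_nonneg _)
  have hs2 : HasSum (fun n : ℕ => fw X t n * ((if a ≤ n ∧ n < b then (1 : ℝ) else 0 : ℝ) : ℂ))
      (∑ n ∈ Ico a b, fw X t n) := by
    have h3 : ∑ n ∈ Ico a b, fw X t n =
        ∑ n ∈ Ico a b, fw X t n * ((if a ≤ n ∧ n < b then (1 : ℝ) else 0 : ℝ) : ℂ) := by
      refine sum_congr rfl fun n hn => ?_
      rw [if_pos (mem_Ico.1 hn)]
      simp
    rw [h3]
    refine hasSum_sum_of_ne_finset_zero fun n hn => ?_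
    rw [if_neg (fun h => hn (mem_Ico.2 h))]
    simp
  have hdiff := hs2.sub hs1.hasSum
  have hfin : ∀ s : Finset ℕ, ∑ n ∈ s, (if 1 ≤ n then E n else 0) ≤ 8 * C * (1 + X / V) := by
    intro s
    rw [← Finset.sum_filter]
    simp only [hE]
    rw [Finset.sum_add_distrib]
    have h3 := r10_half hC hG hV ha1' (s.filter fun n => 1 ≤ n) (fun n hn => (Finset.mem_filter.1 hn).2)
    have h4 := r10_half hC hG hV (show 1 ≤ b by omega) (s.filter fun n => 1 ≤ n)
      (fun n hn => (Finset.mem_filter.1 hn).2)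
    have h5 : (a : ℝ) / V ≤ 2 * (X / V) := by
      rw [← mul_div_assoc]
      exact div_le_div_of_nonneg_right (by linarith) hV0.le
    have h6 : (b : ℝ) / V ≤ 2 * (X / V) := by
      rw [← mul_div_assoc]
      exact div_le_div_of_nonneg_right (by linarith) hV0.le
    have h7 : 2 * C * (1 + a / V) ≤ 2 * C * (1 + 2 * (X / V)) :=
      mul_le_mul_of_nonneg_left (by linarith) (by positivity)
    have h8 : 2 * C * (1 + b / V) ≤ 2 * C * (1 + 2 * (X / V)) :=
      mul_le_mul_of_nonneg_left (by linarith) (by positivity)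
    have h9 : 0 ≤ C * (1 + X / V) := by positivity
    have h10 : 2 * C * (1 + 2 * (X / V)) + 2 * C * (1 + 2 * (X / V)) ≤ 8 * C * (1 + X / V) := by
      nlinarith [hC]
    linarith
  have hE'0 : ∀ n : ℕ, 0 ≤ (if 1 ≤ n then E n else 0) := by
    intro n
    split_ifs
    · exact hE0 n
    · exact le_rfl
  have hsE : Summable fun n : ℕ => (if 1 ≤ n then E n else 0) :=
    summable_of_sum_le hE'0 hfin
  have htE : ∑' n : ℕ, (if 1 ≤ n then E n else 0) ≤ 8 * C * (1 + X / V) :=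
    Real.tsum_le_of_sum_le hE'0 hfin
  have hD : ‖∑ n ∈ Ico a b, fw X t n - ∑' n : ℕ, fw X t n * (g n : ℂ)‖ ≤ 8 * C * (1 + X / V) := by
    rw [← hdiff.tsum_eq]
    refine (tsum_of_norm_bounded hsE.hasSum fun n => ?_).trans htE
    rcases Nat.eq_zero_or_pos n with rfl | hn
    · rw [hfw0]; simp
    · rw [if_pos (show 1 ≤ n from hn), ← mul_sub, norm_mul, ← Complex.ofReal_sub, Complex.norm_real, Real.norm_eq_abs]
      have h3 := herr n hn
      have h4 := hfw1 n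
      have h5 := abs_nonneg ((if a ≤ n ∧ n < b then (1 : ℝ) else 0) - g n)
      have h6 := norm_nonneg (fw X t n)
      nlinarith
  have hT : ‖∑' n : ℕ, fw X t n * (g n : ℂ)‖ ≤
      ∫ v : ℝ, Real.exp (-((v / V) ^ 2 / 2)) * (4 / (1 + |v|)) * ‖SG X (t + v)‖ := by
    simp only [hg]
    rw [r10_perron hX hV0 t h1 h2, norm_mul]
    have h3 : ‖((1 / (2 * Real.pi) : ℝ) : ℂ)‖ ≤ 1 := by
      rw [Complex.norm_real, Real.norm_eq_abs, abs_of_pos (by positivity)]
      have := Real.pi_gt_three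
      rw [div_le_one (by positivity)]
      linarith
    have h4 : ‖∫ v : ℝ, ((Real.exp (-((v / V) ^ 2 / 2)) : ℝ) : ℂ) * pk α β v * SG X (t + v)‖ ≤
        ∫ v : ℝ, Real.exp (-((v / V) ^ 2 / 2)) * (4 / (1 + |v|)) * ‖SG X (t + v)‖ := by
      refine norm_integral_le_of_norm_le (sharp_integrable hX hV0 t) (Filter.Eventually.of_forall fun v => ?_)
      rw [norm_mul, norm_mul, Complex.norm_real, Real.norm_eq_abs, abs_of_pos (Real.exp_pos _)]
      refine mul_le_mul_of_nonneg_right ?_ (norm_nonneg _)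
      exact mul_le_mul_of_nonneg_left (pk_norm h1 h2 v) (Real.exp_pos _).le
    have h5 := norm_nonneg (∫ v : ℝ, ((Real.exp (-((v / V) ^ 2 / 2)) : ℝ) : ℂ) * pk α β v * SG X (t + v))
    have h6 := norm_nonneg (((1 / (2 * Real.pi) : ℝ) : ℂ))
    nlinarith
  have hfinal : ‖∑ n ∈ Ico a b, fw X t n‖ ≤ ‖∑' n : ℕ, fw X t n * (g n : ℂ)‖ +
      ‖∑ n ∈ Ico a b, fw X t n - ∑' n : ℕ, fw X t n * (g n : ℂ)‖ := by
    have := norm_add_le (∑' n : ℕ, fw X t n * (g n : ℂ))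
      (∑ n ∈ Ico a b, fw X t n - ∑' n : ℕ, fw X t n * (g n : ℂ))
    rwa [add_sub_cancel] at this
  linarith

end Pool.Agent.Lib.MP_9a8698_nt
end

section

/-!
R11. The fourth moment of the sharp sums (R0b, R8, R10 may be used).

PROOF. Let `V = T^(1-ε/16)` (if `ε ≤ 1`; for `ε > 1` use `ε = 1`). For `T ≤ |t| ≤ 2T`, by `sharp_le`,
`‖∑_{a ≤ n < b} fw X t n‖ ≤ G(t) + F(t) + C (1 + X/V)`, `G(t) = ∫_{|v| ≤ T/2} 4/(1+|v|) ‖SG X (t+v)‖ dv`, `F` the part `|v| > T/2`. There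
`exp(-(v/V)²/2) ≤ exp(-(v/V)²/4) exp(-T^(ε/8)/16)` and `‖SG‖ ≤ C X` (`SG_norm_le`), so
`F ≤ 4 C X exp(-T^(ε/8)/16) ∫ exp(-(v/V)²/4) dv ≤ C T² exp(-T^(ε/8)/16) ≤ C'` (bounded in `T ≥ 2`). `C (1 + X/V) ≤ 2 C T^(ε/16)`.
Hoelder with the measure `4/(1+|v|) dv` on `|v| ≤ T/2` of mass `m ≤ 8 log(1 + T/2)`:
`G(t)^4 ≤ m^3 ∫_{|v| ≤ T/2} 4/(1+|v|) ‖SG X (t+v)‖^4 dv`, and for `|v| ≤ T/2`, `{T ≤ |t| ≤ 2T} + v ⊆ {T/2 ≤ |u| ≤ 5T/2}`, so by Tonelli
`∫_{T ≤ |t| ≤ 2T} G^4 ≤ m^4 ∫_{T/2 ≤ |u| ≤ 5T/2} ‖SG X u‖^4 du ≤ C m^4 T^(1+ε/4) X²` (`SG_fourth (ε/4)`). The rest contributes at most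
`C (T^(ε/16))^4 · 2T`. As `X ≥ 1` and `m^4 ≤ C T^(ε/4)` the total is at most `C T^(1+ε) X²` (use `(x+y+z)^4 ≤ 27 (x^4+y^4+z^4)`).
-/

set_option autoImplicit false

open Finset MeasureTheory

namespace Pool.Agent.Lib.MP_9a8698_nt

private theorem R11_holder {S : Set ℝ} (hS : MeasurableSet S) {w f : ℝ → ℝ} {M : ℝ} (hM : 0 < M)
    (hw : IntegrableOn w S) (hwf : IntegrableOn (fun v => w v * f v) S)
    (hwf4 : IntegrableOn (fun v => w v * f v ^ 4) S) (hw0 : ∀ v, 0 ≤ w v) (hf0 : ∀ v, 0 ≤ f v)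
    (hm : ∫ v in S, w v ≤ M) :
    (∫ v in S, w v * f v) ^ 4 ≤ M ^ 3 * ∫ v in S, w v * f v ^ 4 := by
  have hI0 : 0 ≤ ∫ v in S, w v * f v :=
    setIntegral_nonneg hS fun v _ => mul_nonneg (hw0 v) (hf0 v)
  obtain ⟨c, hc0, hIc⟩ : ∃ c : ℝ, 0 ≤ c ∧ ∫ v in S, w v * f v = c * M :=
    ⟨(∫ v in S, w v * f v) / M, div_nonneg hI0 hM.le, by field_simp⟩
  have h1 : ∫ v in S, (4 * c ^ 3 * (w v * f v) - 3 * c ^ 4 * w v) ≤ ∫ v in S, w v * f v ^ 4 := by
    refine integral_mono ((hwf.const_mul _).sub (hw.const_mul _)) hwf4 fun v => ?_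
    have h2 : 0 ≤ (f v - c) ^ 2 * (f v ^ 2 + 2 * c * f v + 3 * c ^ 2) := by
      have := hf0 v
      positivity
    have h3 := mul_nonneg (hw0 v) h2
    show 4 * c ^ 3 * (w v * f v) - 3 * c ^ 4 * w v ≤ w v * f v ^ 4
    nlinarith [h3]
  rw [integral_sub (hwf.const_mul _) (hw.const_mul _), integral_const_mul, integral_const_mul,
    hIc] at h1
  have h4 : c ^ 4 * ∫ v in S, w v ≤ c ^ 4 * M := mul_le_mul_of_nonneg_left hm (by positivity)
  have h5 : c ^ 4 * M ≤ ∫ v in S, w v * f v ^ 4 := by nlinarith [h1, h4]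
  have h6 := mul_le_mul_of_nonneg_left h5 (show (0 : ℝ) ≤ M ^ 3 by positivity)
  rw [hIc]
  calc (c * M) ^ 4 = M ^ 3 * (c ^ 4 * M) := by ring
    _ ≤ _ := h6

private theorem R11_wcont : Continuous (fun v : ℝ => 4 / (1 + |v|)) :=
  continuous_const.div (continuous_const.add continuous_abs)
    fun v => by have := abs_nonneg v; positivity

private theorem R11_mass {T : ℝ} (hT : 2 ≤ T) :
    ∫ v in Set.Icc (-(T / 2)) (T / 2), 4 / (1 + |v|) ≤ 8 * Real.log T := by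
  rw [integral_Icc_eq_integral_Ioc, ← intervalIntegral.integral_of_le (by linarith)]
  have hi : ∀ a b : ℝ, IntervalIntegrable (fun v : ℝ => 4 / (1 + |v|)) volume a b :=
    fun a b => R11_wcont.intervalIntegrable a b
  rw [← intervalIntegral.integral_add_adjacent_intervals (hi _ 0) (hi 0 _)]
  have h1 : ∫ v in (0 : ℝ)..(T / 2), 4 / (1 + |v|) =
      4 * Real.log (1 + T / 2) - 4 * Real.log (1 + 0) := by
    refine intervalIntegral.integral_eq_sub_of_hasDerivAt (f := fun v => 4 * Real.log (1 + v))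
      (fun x hx => ?_) (hi _ _)
    rw [Set.uIcc_of_le (by linarith)] at hx
    have hx0 := hx.1
    have h2 : HasDerivAt (fun v : ℝ => 1 + v) 1 x := (hasDerivAt_id x).const_add 1
    have h3 := (h2.log (by positivity)).const_mul 4
    rw [abs_of_nonneg hx0]
    exact h3.congr_deriv (by ring)
  have h2 : ∫ v in (-(T / 2))..(0 : ℝ), 4 / (1 + |v|) =
      -(4 * Real.log (1 - 0)) - -(4 * Real.log (1 - -(T / 2))) := by
    refine intervalIntegral.integral_eq_sub_of_hasDerivAt (f := fun v => -(4 * Real.log (1 - v)))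
      (fun x hx => ?_) (hi _ _)
    rw [Set.uIcc_of_le (by linarith)] at hx
    have hx0 := hx.2
    have h2 : HasDerivAt (fun v : ℝ => 1 - v) (-1) x := (hasDerivAt_id x).const_sub 1
    have hx1 : (1 : ℝ) - x ≠ 0 := by linarith
    have h3 : HasDerivAt (fun v : ℝ => -(4 * Real.log (1 - v))) (-(4 * (-1 / (1 - x)))) x :=
      ((h2.log hx1).const_mul 4).neg
    rw [abs_of_nonpos hx0]
    exact h3.congr_deriv (by rw [← sub_eq_add_neg]; ring)
  rw [h1, h2]
  have h3 : Real.log (1 + T / 2) ≤ Real.log T :=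
    Real.log_le_log (by linarith) (by linarith)
  have h4 : (1 : ℝ) - -(T / 2) = 1 + T / 2 := by ring
  rw [h4, add_zero, sub_zero, Real.log_one]
  linarith

private theorem R11_exp (ε : ℝ) (hε : 0 < ε) : ∃ C : ℝ, 0 < C ∧ ∀ T : ℝ, 1 ≤ T →
    T ^ 2 * Real.exp (-(T ^ (ε / 8) / 16)) ≤ C := by
  set k : ℕ := ⌈16 / ε⌉₊ with hk
  refine ⟨16 ^ k * (k.factorial : ℝ), by positivity, fun T hT => ?_⟩
  have hT0 : (0 : ℝ) < T := by linarith
  have h1 : (T ^ (ε / 8) / 16) ^ k / (k.factorial : ℝ) ≤ Real.exp (T ^ (ε / 8) / 16) :=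
    Real.pow_div_factorial_le_exp _ (by positivity) k
  have h2 : T ^ 2 ≤ (T ^ (ε / 8)) ^ k := by
    rw [← Real.rpow_natCast (T ^ (ε / 8)) k, ← Real.rpow_mul hT0.le, ← Real.rpow_natCast T 2]
    refine Real.rpow_le_rpow_of_exponent_le hT ?_
    have h3 : 16 / ε ≤ k := Nat.le_ceil _
    rw [div_le_iff₀ hε] at h3
    push_cast
    linarith
  have h3 : T ^ 2 ≤ 16 ^ k * (k.factorial : ℝ) * Real.exp (T ^ (ε / 8) / 16) := by
    rw [div_pow, div_div, div_le_iff₀ (by positivity)] at h1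
    calc T ^ 2 ≤ (T ^ (ε / 8)) ^ k := h2
      _ ≤ _ := h1
      _ = _ := by ring
  rw [Real.exp_neg, ← div_eq_mul_inv, div_le_iff₀ (Real.exp_pos _)]
  exact h3

private theorem R11_gauss {V : ℝ} (hV : 0 < V) :
    Integrable (fun v : ℝ => Real.exp (-((v / V) ^ 2 / 4))) ∧
      ∫ v : ℝ, Real.exp (-((v / V) ^ 2 / 4)) ≤ 4 * V := by
  have h1 : (fun v : ℝ => Real.exp (-((v / V) ^ 2 / 4))) =
      fun v => Real.exp (-(1 / (4 * V ^ 2)) * v ^ 2) := by
    funext v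
    congr 1
    field_simp
  rw [h1]
  refine ⟨integrable_exp_neg_mul_sq (by positivity), ?_⟩
  rw [integral_gaussian]
  refine Real.sqrt_le_iff.2 ⟨by positivity, ?_⟩
  rw [one_div, div_inv_eq_mul]
  have h2 := Real.pi_le_four
  nlinarith [mul_le_mul_of_nonneg_right h2 (show (0 : ℝ) ≤ 4 * V ^ 2 by positivity)]

private theorem R11_pt (ε : ℝ) (hε : 0 < ε) (hε1 : ε ≤ 1) : ∃ C : ℝ, 0 < C ∧ ∀ X T : ℝ, 2 ≤ T →
    T ^ (1 / 2 : ℝ) ≤ X → X ≤ T → ∀ a b : ℕ, X ≤ a → (b : ℝ) ≤ 2 * X → a ≤ b → ∀ t : ℝ,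
    ‖∑ n ∈ Ico a b, fw X t n‖ ≤
      (∫ v in Set.Icc (-(T / 2)) (T / 2), 4 / (1 + |v|) * ‖SG X (t + v)‖) +
        C * T ^ (ε / 16) := by
  obtain ⟨C1, hC1, h1⟩ := sharp_le
  obtain ⟨C2, hC2, h2⟩ := SG_norm_le
  obtain ⟨C3, hC3, h3⟩ := R11_exp ε hε
  refine ⟨2 * C1 + 16 * C2 * C3, by positivity, fun X T hT hX hXT a b ha hb hab t => ?_⟩
  have hT0 : (0 : ℝ) < T := by linarith
  have hT1 : (1 : ℝ) ≤ T := by linarith
  have hX1 : 1 ≤ X := (Real.one_le_rpow hT1 (by norm_num)).trans hX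
  have hX0 : 0 < X := by linarith
  obtain ⟨V, hVdef⟩ : ∃ V : ℝ, V = T ^ (1 - ε / 16) := ⟨_, rfl⟩
  have hV1 : 1 ≤ V := by
    rw [hVdef]
    exact Real.one_le_rpow hT1 (by linarith)
  have hV0 : 0 < V := by linarith
  have hVT : V ≤ T := by
    rw [hVdef]
    calc T ^ (1 - ε / 16) ≤ T ^ (1 : ℝ) := Real.rpow_le_rpow_of_exponent_le hT1 (by linarith)
      _ = T := Real.rpow_one T
  have hTV : T / V = T ^ (ε / 16) := by
    rw [hVdef, eq_comm, eq_div_iff (by positivity), ← Real.rpow_add hT0]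
    rw [show ε / 16 + (1 - ε / 16) = 1 by ring, Real.rpow_one]
  have hone : 1 ≤ T ^ (ε / 16) := Real.one_le_rpow hT1 (by positivity)
  have hφ := sharp_integrable hX1 hV0 t
  have hA : MeasurableSet (Set.Icc (-(T / 2)) (T / 2)) := measurableSet_Icc
  have hmain := h1 X t V a b hX1 hV1 ha hb hab
  rw [← integral_add_compl hA hφ] at hmain
  have hwc : Continuous (fun v : ℝ => 4 / (1 + |v|) * ‖SG X (t + v)‖) :=
    R11_wcont.mul ((SG_continuous hX0).comp (continuous_const.add continuous_id)).norm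
  have hin : ∫ v in Set.Icc (-(T / 2)) (T / 2),
      Real.exp (-((v / V) ^ 2 / 2)) * (4 / (1 + |v|)) * ‖SG X (t + v)‖ ≤
      ∫ v in Set.Icc (-(T / 2)) (T / 2), 4 / (1 + |v|) * ‖SG X (t + v)‖ := by
    refine integral_mono hφ.integrableOn (hwc.continuousOn.integrableOn_compact isCompact_Icc)
      fun v => ?_
    show Real.exp (-((v / V) ^ 2 / 2)) * (4 / (1 + |v|)) * ‖SG X (t + v)‖ ≤
      4 / (1 + |v|) * ‖SG X (t + v)‖
    have hv : Real.exp (-((v / V) ^ 2 / 2)) ≤ 1 := Real.exp_le_one_iff.2 (by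
      have : 0 ≤ (v / V) ^ 2 / 2 := by positivity
      linarith)
    have hw0 : 0 ≤ 4 / (1 + |v|) * ‖SG X (t + v)‖ := by positivity
    calc Real.exp (-((v / V) ^ 2 / 2)) * (4 / (1 + |v|)) * ‖SG X (t + v)‖
        = Real.exp (-((v / V) ^ 2 / 2)) * (4 / (1 + |v|) * ‖SG X (t + v)‖) := by ring
      _ ≤ 1 * (4 / (1 + |v|) * ‖SG X (t + v)‖) := mul_le_mul_of_nonneg_right hv hw0
      _ = _ := one_mul _
  obtain ⟨hgi, hgle⟩ := R11_gauss hV0
  obtain ⟨E, hE⟩ : ∃ E : ℝ, E = Real.exp (-(T ^ (ε / 8) / 16)) := ⟨_, rfl⟩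
  have hE0 : 0 < E := by rw [hE]; exact Real.exp_pos _
  have hout : ∫ v in (Set.Icc (-(T / 2)) (T / 2))ᶜ,
      Real.exp (-((v / V) ^ 2 / 2)) * (4 / (1 + |v|)) * ‖SG X (t + v)‖ ≤
      ∫ v : ℝ, 4 * (C2 * X) * E * Real.exp (-((v / V) ^ 2 / 4)) := by
    have hgi' := hgi.const_mul (4 * (C2 * X) * E)
    calc ∫ v in (Set.Icc (-(T / 2)) (T / 2))ᶜ,
        Real.exp (-((v / V) ^ 2 / 2)) * (4 / (1 + |v|)) * ‖SG X (t + v)‖
        ≤ ∫ v in (Set.Icc (-(T / 2)) (T / 2))ᶜ,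
          4 * (C2 * X) * E * Real.exp (-((v / V) ^ 2 / 4)) := by
          refine setIntegral_mono_on hφ.integrableOn hgi'.integrableOn hA.compl fun v hv => ?_
          have hv1 : T / 2 < |v| := by
            by_contra hcon
            push Not at hcon
            exact hv (abs_le.1 hcon)
          have hv2 : T ^ (ε / 8) / 4 ≤ (v / V) ^ 2 := by
            have h5 : T ^ (ε / 16) / 2 ≤ |v / V| := by
              rw [abs_div, abs_of_pos hV0, ← hTV, div_right_comm]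
              exact div_le_div_of_nonneg_right hv1.le hV0.le
            have h6 : T ^ (ε / 8) = T ^ (ε / 16) * T ^ (ε / 16) := by
              rw [← Real.rpow_add hT0]
              congr 1
              ring
            rw [h6, ← sq_abs (v / V)]
            nlinarith [h5, hone]
          have hsplit : Real.exp (-((v / V) ^ 2 / 2)) =
              Real.exp (-((v / V) ^ 2 / 4)) * Real.exp (-((v / V) ^ 2 / 4)) := by
            rw [← Real.exp_add]
            congr 1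
            ring
          have h7 : Real.exp (-((v / V) ^ 2 / 4)) ≤ E := by
            rw [hE]
            exact Real.exp_le_exp.2 (by linarith)
          have h8 : 4 / (1 + |v|) ≤ 4 := by
            rw [div_le_iff₀ (by positivity)]
            nlinarith [abs_nonneg v]
          have h9 : ‖SG X (t + v)‖ ≤ C2 * X := h2 X (t + v) hX1
          rw [hsplit]
          calc Real.exp (-((v / V) ^ 2 / 4)) * Real.exp (-((v / V) ^ 2 / 4)) * (4 / (1 + |v|)) *
                ‖SG X (t + v)‖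
              ≤ Real.exp (-((v / V) ^ 2 / 4)) * E * 4 * (C2 * X) := by gcongr
            _ = _ := by ring
      _ ≤ _ := setIntegral_le_integral hgi' (Filter.Eventually.of_forall fun v => by positivity)
  rw [integral_const_mul] at hout
  have h10 : 4 * (C2 * X) * E * ∫ v : ℝ, Real.exp (-((v / V) ^ 2 / 4)) ≤ 16 * C2 * C3 := by
    calc 4 * (C2 * X) * E * ∫ v : ℝ, Real.exp (-((v / V) ^ 2 / 4))
        ≤ 4 * (C2 * T) * E * (4 * T) := by
          have : 4 * V ≤ 4 * T := by linarith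
          have h11 := hgle.trans this
          gcongr
      _ = 16 * C2 * (T ^ 2 * E) := by ring
      _ ≤ 16 * C2 * C3 := by
          have := h3 T hT1
          rw [← hE] at this
          gcongr
  have h12 : X / V ≤ T ^ (ε / 16) := by
    rw [← hTV]
    exact div_le_div_of_nonneg_right hXT hV0.le
  have h13 : C1 * (1 + X / V) ≤ 2 * C1 * T ^ (ε / 16) := by
    nlinarith [h12, hone, hC1]
  have h14 : 16 * C2 * C3 ≤ 16 * C2 * C3 * T ^ (ε / 16) :=
    le_mul_of_one_le_right (by positivity) hone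
  linarith [hmain, hin, hout, h10, h13, h14]

private theorem R11_compact {T : ℝ} : IsCompact {t : ℝ | T ≤ |t| ∧ |t| ≤ 2 * T} := by
  refine IsCompact.of_isClosed_subset (isCompact_Icc (a := -(2 * T)) (b := 2 * T)) ?_ ?_
  · exact (isClosed_le continuous_const continuous_abs).inter
      (isClosed_le continuous_abs continuous_const)
  · intro t ht
    exact abs_le.1 ht.2

private theorem R11_compact' {T : ℝ} : IsCompact {t : ℝ | T / 2 ≤ |t| ∧ |t| ≤ 5 / 2 * T} := by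
  refine IsCompact.of_isClosed_subset (isCompact_Icc (a := -(5 / 2 * T)) (b := 5 / 2 * T)) ?_ ?_
  · exact (isClosed_le continuous_const continuous_abs).inter
      (isClosed_le continuous_abs continuous_const)
  · intro t ht
    exact abs_le.1 ht.2

private theorem R11_shift {T v : ℝ} (hv : |v| ≤ T / 2) {h : ℝ → ℝ} (hc : Continuous h)
    (h0 : ∀ u, 0 ≤ h u) :
    ∫ t in {t : ℝ | T ≤ |t| ∧ |t| ≤ 2 * T}, h (t + v) ≤
      ∫ u in {t : ℝ | T / 2 ≤ |t| ∧ |t| ≤ 5 / 2 * T}, h u := by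
  have h1 := (measurePreserving_add_right volume v).setIntegral_preimage_emb
    (measurableEmbedding_addRight v) h {t : ℝ | T / 2 ≤ |t| ∧ |t| ≤ 5 / 2 * T}
  rw [← h1]
  have hcl : IsClosed ((fun x : ℝ => x + v) ⁻¹' {t : ℝ | T / 2 ≤ |t| ∧ |t| ≤ 5 / 2 * T}) :=
    R11_compact'.isClosed.preimage (continuous_id.add continuous_const)
  have hcomp : IsCompact ((fun x : ℝ => x + v) ⁻¹' {t : ℝ | T / 2 ≤ |t| ∧ |t| ≤ 5 / 2 * T}) := by
    refine IsCompact.of_isClosed_subset (isCompact_Icc (a := -(3 * T)) (b := 3 * T)) hcl ?_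
    intro t ht
    have h2 : |t + v| ≤ 5 / 2 * T := ht.2
    have h3 : |t| ≤ |t + v| + |v| := by
      have := abs_sub_abs_le_abs_sub t (-v)
      rw [abs_neg, sub_neg_eq_add] at this
      linarith
    exact abs_le.1 (by linarith)
  refine setIntegral_mono_set
    ((hc.comp (continuous_id.add continuous_const)).continuousOn.integrableOn_compact hcomp)
    (Filter.Eventually.of_forall fun t => h0 _) (Filter.Eventually.of_forall fun t ht => ?_)
  have ht1 : T ≤ |t| := ht.1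
  have ht2 : |t| ≤ 2 * T := ht.2
  have h3 : |t| ≤ |t + v| + |v| := by
    have := abs_sub_abs_le_abs_sub t (-v)
    rw [abs_neg, sub_neg_eq_add] at this
    linarith
  have h4 : |t + v| ≤ |t| + |v| := abs_add_le t v
  exact ⟨by linarith, by linarith⟩

private theorem R11_fwc (X : ℝ) (n : ℕ) : Continuous (fun t : ℝ => fw X t n) := by
  unfold fw
  by_cases hn : (0 : ℝ) < n
  · simp only [if_pos hn]
    fun_prop
  · simp only [if_neg hn]
    exact continuous_const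

private theorem R11_main (ε : ℝ) (hε : 0 < ε) (hε1 : ε ≤ 1) : ∃ C : ℝ, 0 < C ∧ ∀ X T : ℝ, 2 ≤ T →
    T ^ (1 / 2 : ℝ) ≤ X → X ≤ T → ∀ a b : ℕ, X ≤ a → (b : ℝ) ≤ 2 * X → a ≤ b →
    ∫ t in {t : ℝ | T ≤ |t| ∧ |t| ≤ 2 * T}, ‖∑ n ∈ Ico a b, fw X t n‖ ^ 4 ≤
      C * T ^ (1 + ε) * X ^ 2 := by
  obtain ⟨C4, hC4, hpt⟩ := R11_pt ε hε hε1
  obtain ⟨C5, hC5, hSG⟩ := SG_fourth (ε / 4) (by positivity)
  refine ⟨8 * (128 / ε) ^ 4 * C5 + 32 * C4 ^ 4, by positivity,
    fun X T hT hX hXT a b ha hb hab => ?_⟩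
  have hT0 : (0 : ℝ) < T := by linarith
  have hT1 : (1 : ℝ) ≤ T := by linarith
  have hX1 : 1 ≤ X := (Real.one_le_rpow hT1 (by norm_num)).trans hX
  have hX0 : 0 < X := by linarith
  obtain ⟨M, hMdef⟩ : ∃ M : ℝ, M = 128 / ε * T ^ (ε / 16) := ⟨_, rfl⟩
  have hM0 : 0 < M := by rw [hMdef]; positivity
  have hmass : ∫ v in Set.Icc (-(T / 2)) (T / 2), 4 / (1 + |v|) ≤ M := by
    refine (R11_mass hT).trans ?_
    have h1 := Real.log_le_rpow_div hT0.le (show (0 : ℝ) < ε / 16 by positivity)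
    calc 8 * Real.log T ≤ 8 * (T ^ (ε / 16) / (ε / 16)) := by linarith
      _ = M := by
        rw [hMdef]
        field_simp
        ring
  have hE := R11_compact (T := T)
  have hA : IsCompact (Set.Icc (-(T / 2)) (T / 2)) := isCompact_Icc
  have hSGc := SG_continuous hX0
  have hjc : Continuous (fun p : ℝ × ℝ => 4 / (1 + |p.2|) * ‖SG X (p.1 + p.2)‖ ^ 4) :=
    (R11_wcont.comp continuous_snd).mul
      ((hSGc.comp (continuous_fst.add continuous_snd)).norm.pow 4)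
  have hji : Integrable (Function.uncurry fun t v : ℝ => 4 / (1 + |v|) * ‖SG X (t + v)‖ ^ 4)
      ((volume.restrict {t : ℝ | T ≤ |t| ∧ |t| ≤ 2 * T}).prod
        (volume.restrict (Set.Icc (-(T / 2)) (T / 2)))) := by
    rw [Measure.prod_restrict]
    exact hjc.continuousOn.integrableOn_compact (hE.prod hA)
  have hGc : ∀ t : ℝ, Continuous (fun v : ℝ => ‖SG X (t + v)‖) := fun t =>
    (hSGc.comp (continuous_const.add continuous_id)).norm
  have hpw : ∀ t : ℝ, ‖∑ n ∈ Ico a b, fw X t n‖ ^ 4 ≤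
      8 * M ^ 3 * (∫ v in Set.Icc (-(T / 2)) (T / 2), 4 / (1 + |v|) * ‖SG X (t + v)‖ ^ 4) +
        8 * (C4 ^ 4 * T ^ (ε / 4)) := by
    intro t
    have h1 := hpt X T hT hX hXT a b ha hb hab t
    have h2 := R11_holder (measurableSet_Icc (a := -(T / 2)) (b := T / 2)) (w := fun v => 4 / (1 + |v|))
      (f := fun v => ‖SG X (t + v)‖) hM0 (R11_wcont.continuousOn.integrableOn_compact hA)
      ((R11_wcont.mul (hGc t)).continuousOn.integrableOn_compact hA)
      ((R11_wcont.mul ((hGc t).pow 4)).continuousOn.integrableOn_compact hA)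
      (fun v => by positivity) (fun v => norm_nonneg _) hmass
    have hG0 : 0 ≤ ∫ v in Set.Icc (-(T / 2)) (T / 2), 4 / (1 + |v|) * ‖SG X (t + v)‖ :=
      setIntegral_nonneg measurableSet_Icc fun v _ => by positivity
    have hK0 : 0 ≤ C4 * T ^ (ε / 16) := by positivity
    have h3 : ‖∑ n ∈ Ico a b, fw X t n‖ ^ 4 ≤
        ((∫ v in Set.Icc (-(T / 2)) (T / 2), 4 / (1 + |v|) * ‖SG X (t + v)‖) +
          C4 * T ^ (ε / 16)) ^ 4 := pow_le_pow_left₀ (norm_nonneg _) h1 4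
    have h4 : ∀ x y : ℝ, 0 ≤ x → 0 ≤ y → (x + y) ^ 4 ≤ 8 * x ^ 4 + 8 * y ^ 4 := by
      intro x y hx hy
      have h5 : (x + y) ^ 2 ≤ 2 * (x ^ 2 + y ^ 2) := by nlinarith [sq_nonneg (x - y)]
      have h6 : (x ^ 2 + y ^ 2) ^ 2 ≤ 2 * (x ^ 4 + y ^ 4) := by
        nlinarith [sq_nonneg (x ^ 2 - y ^ 2)]
      have h7 : 0 ≤ (x + y) ^ 2 := sq_nonneg _
      calc (x + y) ^ 4 = ((x + y) ^ 2) ^ 2 := by ring
        _ ≤ (2 * (x ^ 2 + y ^ 2)) ^ 2 := pow_le_pow_left₀ h7 h5 2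
        _ = 4 * (x ^ 2 + y ^ 2) ^ 2 := by ring
        _ ≤ _ := by linarith
    have h5 : (T ^ (ε / 16)) ^ 4 = T ^ (ε / 4) := by
      rw [← Real.rpow_natCast (T ^ (ε / 16)) 4, ← Real.rpow_mul hT0.le]
      congr 1
      push_cast
      ring
    calc ‖∑ n ∈ Ico a b, fw X t n‖ ^ 4 ≤ _ := h3
      _ ≤ 8 * (∫ v in Set.Icc (-(T / 2)) (T / 2), 4 / (1 + |v|) * ‖SG X (t + v)‖) ^ 4 +
          8 * (C4 * T ^ (ε / 16)) ^ 4 := h4 _ _ hG0 hK0
      _ ≤ 8 * (M ^ 3 * ∫ v in Set.Icc (-(T / 2)) (T / 2),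
          4 / (1 + |v|) * ‖SG X (t + v)‖ ^ 4) + 8 * (C4 * T ^ (ε / 16)) ^ 4 := by
        linarith
      _ = _ := by
        rw [mul_pow, h5]
        ring
  have hLi : IntegrableOn (fun t : ℝ => ‖∑ n ∈ Ico a b, fw X t n‖ ^ 4)
      {t : ℝ | T ≤ |t| ∧ |t| ≤ 2 * T} := by
    refine ContinuousOn.integrableOn_compact hE (Continuous.continuousOn ?_)
    exact (continuous_finsetSum _ fun n _ => R11_fwc X n).norm.pow 4
  have hHi : IntegrableOn (fun t : ℝ => ∫ v in Set.Icc (-(T / 2)) (T / 2),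
      4 / (1 + |v|) * ‖SG X (t + v)‖ ^ 4) {t : ℝ | T ≤ |t| ∧ |t| ≤ 2 * T} :=
    hji.integral_prod_left
  have hvol : volume.real {t : ℝ | T ≤ |t| ∧ |t| ≤ 2 * T} ≤ 4 * T := by
    have h1 : volume.real {t : ℝ | T ≤ |t| ∧ |t| ≤ 2 * T} ≤
        volume.real (Set.Icc (-(2 * T)) (2 * T)) :=
      measureReal_mono (fun t ht => abs_le.1 ht.2) (by
        rw [Real.volume_Icc]
        exact ENNReal.ofReal_ne_top)
    rw [Real.volume_real_Icc_of_le (by linarith)] at h1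
    linarith
  have hci : IntegrableOn (fun _ : ℝ => 8 * (C4 ^ 4 * T ^ (ε / 4)))
      {t : ℝ | T ≤ |t| ∧ |t| ≤ 2 * T} :=
    continuous_const.continuousOn.integrableOn_compact hE
  have hstep := integral_mono hLi ((hHi.const_mul (8 * M ^ 3)).add hci) fun t => hpw t
  rw [integral_add' (hHi.const_mul (8 * M ^ 3)) hci, integral_const_mul, setIntegral_const,
    smul_eq_mul] at hstep
  have hJ := hSG X T hT hX hXT
  have hswap : ∫ t in {t : ℝ | T ≤ |t| ∧ |t| ≤ 2 * T}, ∫ v in Set.Icc (-(T / 2)) (T / 2),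
      4 / (1 + |v|) * ‖SG X (t + v)‖ ^ 4 ≤ M * (C5 * T ^ (1 + ε / 4) * X ^ 2) := by
    rw [integral_integral_swap hji]
    have h1 : ∀ v ∈ Set.Icc (-(T / 2)) (T / 2), ∫ t in {t : ℝ | T ≤ |t| ∧ |t| ≤ 2 * T},
        4 / (1 + |v|) * ‖SG X (t + v)‖ ^ 4 ≤
        4 / (1 + |v|) * (C5 * T ^ (1 + ε / 4) * X ^ 2) := by
      intro v hv
      rw [integral_const_mul]
      refine mul_le_mul_of_nonneg_left ?_ (by positivity)
      exact (R11_shift (abs_le.2 hv) (h := fun u => ‖SG X u‖ ^ 4) (hSGc.norm.pow 4)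
        fun u => by positivity).trans hJ
    have hwi : IntegrableOn (fun v : ℝ => 4 / (1 + |v|) * (C5 * T ^ (1 + ε / 4) * X ^ 2))
        (Set.Icc (-(T / 2)) (T / 2)) :=
      (R11_wcont.mul continuous_const).continuousOn.integrableOn_compact hA
    calc ∫ v in Set.Icc (-(T / 2)) (T / 2), ∫ t in {t : ℝ | T ≤ |t| ∧ |t| ≤ 2 * T},
        4 / (1 + |v|) * ‖SG X (t + v)‖ ^ 4
        ≤ ∫ v in Set.Icc (-(T / 2)) (T / 2), 4 / (1 + |v|) * (C5 * T ^ (1 + ε / 4) * X ^ 2) :=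
          setIntegral_mono_on hji.integral_prod_right hwi measurableSet_Icc h1
      _ = (∫ v in Set.Icc (-(T / 2)) (T / 2), 4 / (1 + |v|)) * (C5 * T ^ (1 + ε / 4) * X ^ 2) :=
          integral_mul_const _ _
      _ ≤ _ := mul_le_mul_of_nonneg_right hmass (by positivity)
  have hM4 : M ^ 4 = (128 / ε) ^ 4 * T ^ (ε / 4) := by
    rw [hMdef, mul_pow, ← Real.rpow_natCast (T ^ (ε / 16)) 4, ← Real.rpow_mul hT0.le]
    congr 2
    push_cast
    ring
  have e1 : T ^ (ε / 4) * T ^ (1 + ε / 4) ≤ T ^ (1 + ε) := by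
    rw [← Real.rpow_add hT0]
    exact Real.rpow_le_rpow_of_exponent_le hT1 (by linarith)
  have e2 : T ^ (ε / 4) * T ≤ T ^ (1 + ε) := by
    calc T ^ (ε / 4) * T = T ^ (ε / 4 + 1) := by rw [Real.rpow_add hT0, Real.rpow_one]
      _ ≤ _ := Real.rpow_le_rpow_of_exponent_le hT1 (by linarith)
  have hX2 : 1 ≤ X ^ 2 := one_le_pow₀ hX1
  calc ∫ t in {t : ℝ | T ≤ |t| ∧ |t| ≤ 2 * T}, ‖∑ n ∈ Ico a b, fw X t n‖ ^ 4
      ≤ 8 * M ^ 3 * (∫ t in {t : ℝ | T ≤ |t| ∧ |t| ≤ 2 * T}, ∫ v in Set.Icc (-(T / 2)) (T / 2),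
          4 / (1 + |v|) * ‖SG X (t + v)‖ ^ 4) +
        volume.real {t : ℝ | T ≤ |t| ∧ |t| ≤ 2 * T} * (8 * (C4 ^ 4 * T ^ (ε / 4))) := hstep
    _ ≤ 8 * M ^ 3 * (M * (C5 * T ^ (1 + ε / 4) * X ^ 2)) +
        4 * T * (8 * (C4 ^ 4 * T ^ (ε / 4))) := by gcongr
    _ = 8 * (128 / ε) ^ 4 * C5 * (T ^ (ε / 4) * T ^ (1 + ε / 4)) * X ^ 2 +
        32 * C4 ^ 4 * (T ^ (ε / 4) * T) := by
        rw [show 8 * M ^ 3 * (M * (C5 * T ^ (1 + ε / 4) * X ^ 2)) =
          8 * M ^ 4 * C5 * T ^ (1 + ε / 4) * X ^ 2 by ring, hM4]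
        ring
    _ ≤ 8 * (128 / ε) ^ 4 * C5 * T ^ (1 + ε) * X ^ 2 + 32 * C4 ^ 4 * (T ^ (1 + ε)) * X ^ 2 := by
        refine add_le_add (by gcongr) ?_
        calc 32 * C4 ^ 4 * (T ^ (ε / 4) * T) ≤ 32 * C4 ^ 4 * T ^ (1 + ε) := by gcongr
          _ ≤ _ := le_mul_of_one_le_right (by positivity) hX2
    _ = _ := by ring

theorem sharp_fourth (ε : ℝ) (hε : 0 < ε) : ∃ C : ℝ, 0 < C ∧ ∀ X T : ℝ, 2 ≤ T →
    T ^ (1 / 2 : ℝ) ≤ X → X ≤ T → ∀ a b : ℕ, X ≤ a → (b : ℝ) ≤ 2 * X → a ≤ b →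
    ∫ t in {t : ℝ | T ≤ |t| ∧ |t| ≤ 2 * T}, ‖∑ n ∈ Ico a b, fw X t n‖ ^ 4 ≤
      C * T ^ (1 + ε) * X ^ 2 := by
  rcases le_or_gt ε 1 with h | h
  · exact R11_main ε hε h
  · obtain ⟨C, hC, hh⟩ := R11_main 1 one_pos le_rfl
    refine ⟨C, hC, fun X T hT hX hXT a b ha hb hab =>
      (hh X T hT hX hXT a b ha hb hab).trans ?_⟩
    have hT1 : (1 : ℝ) ≤ T := by linarith
    have h2 : T ^ (1 + 1 : ℝ) ≤ T ^ (1 + ε) :=
      Real.rpow_le_rpow_of_exponent_le hT1 (by linarith)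
    gcongr

end Pool.Agent.Lib.MP_9a8698_nt
end

section

/-!
R12. The fourth moment of Dirichlet polynomials of one smooth variable (A4, R0b, R11 may be used).

PROOF. `w_fourth`: Abel summation. Let `z_n = fw X t n`, `S_y = ∑_{a ≤ n < y} z_n`, and `w` real. Then
`∑_{a ≤ n < b} w_n z_n = w_b S_b + ∑_{a ≤ n < b} (w_n - w_(n+1)) S_(n+1)`. With `W = |w_b| + ∑_{a ≤ n < b} |w_n - w_(n+1)|`, Hoelder for
finite weighted sums gives `‖∑ w_n z_n‖^4 ≤ W^3 (|w_b| ‖S_b‖^4 + ∑ |w_n - w_(n+1)| ‖S_(n+1)‖^4)`, and `sharp_fourth` bounds every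
`∫ ‖S_y‖^4` (`a ≤ y ≤ b`) by `C T^(1+ε) X²`. So `∫ ‖∑ w_n z_n‖^4 ≤ W^4 C T^(1+ε) X²`.

`block_fourth`, case `X ≥ T^(1/2)`. On `[a, b)` one has `n ≥ 1` and
`c_n/n e^(-it log n) = w_n fw X t n` with `w_n = c_n exp((log(n/X))²/2)/n`, `c_n = 1` or `log n`. For `X ≤ n ≤ 2X`:
`exp((log(n/X))²/2)/n` is decreasing, at most `1/X`; `log n = log X + log(n/X)`, and
`log(n/X) exp((log(n/X))²/2)/n` is increasing, at most `1/X`; this gives `W ≤ 1/X` resp. `W ≤ (2 + log X)/X` (the index `n+1 = b`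
may be `2X` exactly, still in the range; note `b ≤ 2X`). With `ε/2` instead of `ε` and `(2+log X)^4 ≤ C T^(ε/2)` this gives
`C T^(1+ε) X² /X^4`.

Case `X < T^(1/2)` (or `a ≥ b`, trivial). `DP (Ico a b) c` is `IsDP 1 B X (2X)` with `B = 1` resp. `1 + log X`
(`IsDP.of_bound`; `log n ≤ log 2X ≤ 1 + log X`), its square is `IsDP 2 B² X² 4X²` (`IsDP.mul`), and `IsDP.mvt` at height `2T`
gives `∫_{|t| ≤ 2T} ‖DP‖^4 ≤ C (2T/X² + 1) B^4 (1 + log 4X²)^4 ≤ C' T^(1+ε)/X²` since `X² ≤ T`.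
-/

set_option autoImplicit false

open Finset MeasureTheory

namespace Pool.Agent.Lib.MP_9a8698_nt

private theorem r12_cs {ι : Type*} (s : Finset ι) (p x : ι → ℝ) (hp : ∀ i ∈ s, 0 ≤ p i) :
    (∑ i ∈ s, p i * x i) ^ 2 ≤ (∑ i ∈ s, p i) * ∑ i ∈ s, p i * x i ^ 2 := by
  have h := Finset.sum_mul_sq_le_sq_mul_sq s (fun i => Real.sqrt (p i))
    (fun i => Real.sqrt (p i) * x i)
  have e1 : ∑ i ∈ s, Real.sqrt (p i) * (Real.sqrt (p i) * x i) = ∑ i ∈ s, p i * x i := by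
    refine sum_congr rfl fun i hi => ?_
    rw [← mul_assoc, Real.mul_self_sqrt (hp i hi)]
  have e2 : ∑ i ∈ s, Real.sqrt (p i) ^ 2 = ∑ i ∈ s, p i := by
    refine sum_congr rfl fun i hi => ?_
    rw [Real.sq_sqrt (hp i hi)]
  have e3 : ∑ i ∈ s, (Real.sqrt (p i) * x i) ^ 2 = ∑ i ∈ s, p i * x i ^ 2 := by
    refine sum_congr rfl fun i hi => ?_
    rw [mul_pow, Real.sq_sqrt (hp i hi)]
  rw [e1, e2, e3] at h
  exact h

private theorem r12_holder {ι : Type*} (s : Finset ι) (p x : ι → ℝ) (hp : ∀ i ∈ s, 0 ≤ p i) :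
    (∑ i ∈ s, p i * x i) ^ 4 ≤ (∑ i ∈ s, p i) ^ 3 * ∑ i ∈ s, p i * x i ^ 4 := by
  have h1 := r12_cs s p x hp
  have h2 := r12_cs s p (fun i => x i ^ 2) hp
  have e : ∀ i, (x i ^ 2) ^ 2 = x i ^ 4 := fun i => by ring
  simp only [e] at h2
  set A := ∑ i ∈ s, p i with hA
  set B := ∑ i ∈ s, p i * x i with hB
  set D := ∑ i ∈ s, p i * x i ^ 2 with hD
  set E := ∑ i ∈ s, p i * x i ^ 4 with hE
  have hA0 : 0 ≤ A := sum_nonneg hp
  calc B ^ 4 = (B ^ 2) ^ 2 := by ring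
    _ ≤ (A * D) ^ 2 := pow_le_pow_left₀ (sq_nonneg B) h1 2
    _ = A ^ 2 * D ^ 2 := by ring
    _ ≤ A ^ 2 * (A * E) := mul_le_mul_of_nonneg_left h2 (sq_nonneg A)
    _ = A ^ 3 * E := by ring

private theorem r12_abel (w : ℕ → ℝ) (z : ℕ → ℂ) (a b : ℕ) (hab : a ≤ b) :
    ∑ n ∈ Ico a b, ((w n : ℝ) : ℂ) * z n = ((w b : ℝ) : ℂ) * ∑ n ∈ Ico a b, z n +
      ∑ n ∈ Ico a b, ((w n - w (n + 1) : ℝ) : ℂ) * ∑ m ∈ Ico a (n + 1), z m := by
  induction b, hab using Nat.le_induction with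
  | base => simp
  | succ b hab ih =>
    rw [sum_Ico_succ_top hab, ih, sum_Ico_succ_top hab (fun n => ((w n - w (n + 1) : ℝ) : ℂ) * _),
      sum_Ico_succ_top hab z]
    push_cast
    ring

private theorem r12_point (w : ℕ → ℝ) (z : ℕ → ℂ) (a b : ℕ) (hab : a ≤ b) :
    ‖∑ n ∈ Ico a b, ((w n : ℝ) : ℂ) * z n‖ ^ 4 ≤
      (|w b| + ∑ n ∈ Ico a b, |w n - w (n + 1)|) ^ 3 *
        (|w b| * ‖∑ n ∈ Ico a b, z n‖ ^ 4 +
          ∑ n ∈ Ico a b, |w n - w (n + 1)| * ‖∑ m ∈ Ico a (n + 1), z m‖ ^ 4) := by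
  have h1 : ‖∑ n ∈ Ico a b, ((w n : ℝ) : ℂ) * z n‖ ≤ |w b| * ‖∑ n ∈ Ico a b, z n‖ +
      ∑ n ∈ Ico a b, |w n - w (n + 1)| * ‖∑ m ∈ Ico a (n + 1), z m‖ := by
    rw [r12_abel w z a b hab]
    refine (norm_add_le _ _).trans ?_
    refine add_le_add ?_ ((norm_sum_le _ _).trans (sum_le_sum fun n _ => ?_))
    · rw [norm_mul, Complex.norm_real, Real.norm_eq_abs]
    · rw [norm_mul, Complex.norm_real, Real.norm_eq_abs]
  have h2 := r12_holder (Ico a (b + 1)) (fun n => if n = b then |w b| else |w n - w (n + 1)|)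
    (fun n => if n = b then ‖∑ n ∈ Ico a b, z n‖ else ‖∑ m ∈ Ico a (n + 1), z m‖)
    (fun n _ => by split_ifs <;> exact abs_nonneg _)
  have e : ∀ F G : ℕ → ℝ, ∑ n ∈ Ico a b, (if n = b then F n else G n) = ∑ n ∈ Ico a b, G n := by
    intro F G
    refine sum_congr rfl fun n hn => ?_
    rw [mem_Ico] at hn
    rw [if_neg (by omega)]
  have e1 : ∑ n ∈ Ico a (b + 1), (if n = b then |w b| else |w n - w (n + 1)|) =
      |w b| + ∑ n ∈ Ico a b, |w n - w (n + 1)| := by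
    rw [sum_Ico_succ_top hab, e (fun _ => |w b|) (fun n => |w n - w (n + 1)|), if_pos rfl, add_comm]
  have e2 : ∑ n ∈ Ico a (b + 1), (if n = b then |w b| else |w n - w (n + 1)|) *
      (if n = b then ‖∑ n ∈ Ico a b, z n‖ else ‖∑ m ∈ Ico a (n + 1), z m‖) =
      |w b| * ‖∑ n ∈ Ico a b, z n‖ +
        ∑ n ∈ Ico a b, |w n - w (n + 1)| * ‖∑ m ∈ Ico a (n + 1), z m‖ := by
    rw [sum_Ico_succ_top hab, if_pos rfl, if_pos rfl, add_comm]
    congr 1
    refine sum_congr rfl fun n hn => ?_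
    rw [mem_Ico] at hn
    rw [if_neg (by omega), if_neg (by omega)]
  have e3 : ∑ n ∈ Ico a (b + 1), (if n = b then |w b| else |w n - w (n + 1)|) *
      (if n = b then ‖∑ n ∈ Ico a b, z n‖ else ‖∑ m ∈ Ico a (n + 1), z m‖) ^ 4 =
      |w b| * ‖∑ n ∈ Ico a b, z n‖ ^ 4 +
        ∑ n ∈ Ico a b, |w n - w (n + 1)| * ‖∑ m ∈ Ico a (n + 1), z m‖ ^ 4 := by
    rw [sum_Ico_succ_top hab, if_pos rfl, if_pos rfl, add_comm]
    congr 1
    refine sum_congr rfl fun n hn => ?_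
    rw [mem_Ico] at hn
    rw [if_neg (by omega), if_neg (by omega)]
  beta_reduce at h2
  rw [e1, e2, e3] at h2
  exact (pow_le_pow_left₀ (norm_nonneg _) h1 4).trans h2

private theorem r12_fw_cont (X : ℝ) (x : ℝ) : Continuous (fun t => fw X t x) := by
  unfold fw
  by_cases hx : 0 < x
  · simp only [if_pos hx]
    fun_prop
  · simp only [if_neg hx]
    exact continuous_const

private theorem r12_sub (T : ℝ) : {t : ℝ | T ≤ |t| ∧ |t| ≤ 2 * T} ⊆ Set.Icc (-(2 * T)) (2 * T) :=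
  fun _ ht => abs_le.1 ht.2

private theorem r12_meas (T : ℝ) : MeasurableSet {t : ℝ | T ≤ |t| ∧ |t| ≤ 2 * T} :=
  ((isClosed_le continuous_const continuous_abs).inter
    (isClosed_le continuous_abs continuous_const)).measurableSet

private theorem r12_int {f : ℝ → ℝ} (hf : Continuous f) (T : ℝ) :
    IntegrableOn f {t : ℝ | T ≤ |t| ∧ |t| ≤ 2 * T} :=
  (hf.integrableOn_Icc (a := -(2 * T)) (b := 2 * T)).mono_set (r12_sub T)

theorem w_fourth (ε : ℝ) (hε : 0 < ε) : ∃ C : ℝ, 0 < C ∧ ∀ X T : ℝ, 2 ≤ T →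
    T ^ (1 / 2 : ℝ) ≤ X → X ≤ T → ∀ a b : ℕ, X ≤ a → (b : ℝ) ≤ 2 * X → a ≤ b → ∀ w : ℕ → ℝ,
    ∫ t in {t : ℝ | T ≤ |t| ∧ |t| ≤ 2 * T}, ‖∑ n ∈ Ico a b, ((w n : ℝ) : ℂ) * fw X t n‖ ^ 4 ≤
      C * T ^ (1 + ε) * X ^ 2 * (|w b| + ∑ n ∈ Ico a b, |w n - w (n + 1)|) ^ 4 := by
  obtain ⟨C, hC, hs⟩ := sharp_fourth ε hε
  refine ⟨C, hC, fun X T hT hTX hXT a b ha hb hab w => ?_⟩
  set W := |w b| + ∑ n ∈ Ico a b, |w n - w (n + 1)| with hW
  have hW0 : 0 ≤ W := add_nonneg (abs_nonneg _) (sum_nonneg fun _ _ => abs_nonneg _)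
  have hcont : ∀ y : ℕ, Continuous (fun t => ‖∑ n ∈ Ico a y, fw X t n‖ ^ 4) := fun y =>
    (continuous_pow 4).comp (continuous_finsetSum _ fun (n : ℕ) _ => r12_fw_cont X n).norm
  have hK : ∀ y : ℕ, a ≤ y → y ≤ b →
      ∫ t in {t : ℝ | T ≤ |t| ∧ |t| ≤ 2 * T}, ‖∑ n ∈ Ico a y, fw X t n‖ ^ 4 ≤
        C * T ^ (1 + ε) * X ^ 2 := by
    intro y hay hyb
    refine hs X T hT hTX hXT a y ha ?_ hay
    have : (y : ℝ) ≤ b := by exact_mod_cast hyb
    linarith
  have hLc : Continuous (fun t => ‖∑ n ∈ Ico a b, ((w n : ℝ) : ℂ) * fw X t n‖ ^ 4) :=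
    (continuous_pow 4).comp
      (continuous_finsetSum _ fun (n : ℕ) _ => continuous_const.mul (r12_fw_cont X n)).norm
  have hsc : Continuous (fun t => ∑ n ∈ Ico a b, |w n - w (n + 1)| *
      ‖∑ m ∈ Ico a (n + 1), fw X t m‖ ^ 4) :=
    continuous_finsetSum _ fun n _ => continuous_const.mul (hcont (n + 1))
  have hRc : Continuous (fun t => W ^ 3 * (|w b| * ‖∑ n ∈ Ico a b, fw X t n‖ ^ 4 +
      ∑ n ∈ Ico a b, |w n - w (n + 1)| * ‖∑ m ∈ Ico a (n + 1), fw X t m‖ ^ 4)) :=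
    continuous_const.mul ((continuous_const.mul (hcont b)).add hsc)
  calc ∫ t in {t : ℝ | T ≤ |t| ∧ |t| ≤ 2 * T}, ‖∑ n ∈ Ico a b, ((w n : ℝ) : ℂ) * fw X t n‖ ^ 4
      ≤ ∫ t in {t : ℝ | T ≤ |t| ∧ |t| ≤ 2 * T}, W ^ 3 * (|w b| * ‖∑ n ∈ Ico a b, fw X t n‖ ^ 4 +
        ∑ n ∈ Ico a b, |w n - w (n + 1)| * ‖∑ m ∈ Ico a (n + 1), fw X t m‖ ^ 4) := by
        refine setIntegral_mono (r12_int hLc T) (r12_int hRc T) fun t => ?_
        exact r12_point w (fun n => fw X t n) a b hab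
    _ = W ^ 3 * (|w b| * (∫ t in {t : ℝ | T ≤ |t| ∧ |t| ≤ 2 * T},
          ‖∑ n ∈ Ico a b, fw X t n‖ ^ 4) +
        ∑ n ∈ Ico a b, |w n - w (n + 1)| * (∫ t in {t : ℝ | T ≤ |t| ∧ |t| ≤ 2 * T},
          ‖∑ m ∈ Ico a (n + 1), fw X t m‖ ^ 4)) := by
        have hbc : Continuous (fun t => |w b| * ‖∑ n ∈ Ico a b, fw X t n‖ ^ 4) :=
          continuous_const.mul (hcont b)
        have hnc : ∀ n : ℕ, Continuous (fun t => |w n - w (n + 1)| *
            ‖∑ m ∈ Ico a (n + 1), fw X t m‖ ^ 4) := fun n => continuous_const.mul (hcont (n + 1))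
        have i1 : Integrable (fun t => |w b| * ‖∑ n ∈ Ico a b, fw X t n‖ ^ 4)
            (volume.restrict {t : ℝ | T ≤ |t| ∧ |t| ≤ 2 * T}) := r12_int hbc T
        have i2 : Integrable (fun t => ∑ n ∈ Ico a b, |w n - w (n + 1)| *
            ‖∑ m ∈ Ico a (n + 1), fw X t m‖ ^ 4)
            (volume.restrict {t : ℝ | T ≤ |t| ∧ |t| ≤ 2 * T}) := r12_int hsc T
        have i3 : ∀ n ∈ Ico a b, Integrable (fun t => |w n - w (n + 1)| *
            ‖∑ m ∈ Ico a (n + 1), fw X t m‖ ^ 4)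
            (volume.restrict {t : ℝ | T ≤ |t| ∧ |t| ≤ 2 * T}) := fun n _ => r12_int (hnc n) T
        rw [integral_const_mul, integral_add i1 i2, integral_const_mul, integral_finsetSum _ i3]
        simp only [integral_const_mul]
    _ ≤ W ^ 3 * (|w b| * (C * T ^ (1 + ε) * X ^ 2) +
        ∑ n ∈ Ico a b, |w n - w (n + 1)| * (C * T ^ (1 + ε) * X ^ 2)) := by
        refine mul_le_mul_of_nonneg_left (add_le_add ?_ (sum_le_sum fun n hn => ?_))
          (pow_nonneg hW0 3)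
        · exact mul_le_mul_of_nonneg_left (hK b hab le_rfl) (abs_nonneg _)
        · rw [mem_Ico] at hn
          exact mul_le_mul_of_nonneg_left (hK (n + 1) (by omega) (by omega)) (abs_nonneg _)
    _ = C * T ^ (1 + ε) * X ^ 2 * W ^ 4 := by
        rw [← sum_mul, ← add_mul, ← hW]
        ring

/-! ### The weights -/

/-- `exp((log x)²/2)/x` -/
private noncomputable def ph (x : ℝ) : ℝ := Real.exp (Real.log x ^ 2 / 2 - Real.log x)

private theorem ph_pos (x : ℝ) : 0 < ph x := Real.exp_pos _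

private theorem log_two_le : Real.log 2 ≤ 1 := by
  have := Real.log_two_lt_d9
  linarith

private theorem ph_anti {x y : ℝ} (hx : 1 ≤ x) (hxy : x ≤ y) (hy : y ≤ 2) : ph y ≤ ph x := by
  unfold ph
  refine Real.exp_le_exp.2 ?_
  have h1 : Real.log x ≤ Real.log y := Real.log_le_log (by linarith) hxy
  have h2 : Real.log y ≤ Real.log 2 := Real.log_le_log (by linarith) hy
  have h3 := log_two_le
  have h4 : 0 ≤ Real.log x := Real.log_nonneg hx
  nlinarith

private theorem ph_le_one {x : ℝ} (hx : 1 ≤ x) (hx2 : x ≤ 2) : ph x ≤ 1 := by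
  have h := ph_anti le_rfl hx hx2
  have h1 : ph 1 = 1 := by
    unfold ph
    simp
  rwa [h1] at h

private theorem lph_mono {x y : ℝ} (hx : 1 ≤ x) (hxy : x ≤ y) (hy : y ≤ 2) :
    Real.log x * ph x ≤ Real.log y * ph y := by
  have h1 : Real.log x ≤ Real.log y := Real.log_le_log (by linarith) hxy
  have h2 : Real.log y ≤ Real.log 2 := Real.log_le_log (by linarith) hy
  have h3 := log_two_le
  have h4 : 0 ≤ Real.log x := Real.log_nonneg hx
  set u := Real.log x with hu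
  set v := Real.log y with hv
  -- `ph y ≥ ph x (1 + (v²/2 - v - u²/2 + u))`
  have e1 : ph y = ph x * Real.exp (v ^ 2 / 2 - v - (u ^ 2 / 2 - u)) := by
    unfold ph
    rw [← Real.exp_add]
    congr 1
    rw [← hu, ← hv]
    ring
  have e2 : v ^ 2 / 2 - v - (u ^ 2 / 2 - u) + 1 ≤ Real.exp (v ^ 2 / 2 - v - (u ^ 2 / 2 - u)) :=
    Real.add_one_le_exp _
  rw [e1]
  have hp := ph_pos x
  have hv0 : 0 ≤ v := h4.trans h1
  have e3 : u ≤ v * (v ^ 2 / 2 - v - (u ^ 2 / 2 - u) + 1) := by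
    have : v * (v ^ 2 / 2 - v - (u ^ 2 / 2 - u) + 1) - u = (v - u) * (1 + v * ((u + v) / 2 - 1)) := by
      ring
    have h5 : 0 ≤ 1 + v * ((u + v) / 2 - 1) := by nlinarith
    nlinarith [mul_nonneg (sub_nonneg.2 h1) h5]
  calc u * ph x ≤ (v * (v ^ 2 / 2 - v - (u ^ 2 / 2 - u) + 1)) * ph x :=
        mul_le_mul_of_nonneg_right e3 hp.le
    _ ≤ (v * Real.exp (v ^ 2 / 2 - v - (u ^ 2 / 2 - u))) * ph x :=
        mul_le_mul_of_nonneg_right (mul_le_mul_of_nonneg_left e2 hv0) hp.le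
    _ = v * (ph x * Real.exp (v ^ 2 / 2 - v - (u ^ 2 / 2 - u))) := by ring

private theorem tv_anti (w : ℕ → ℝ) (a b : ℕ) (hab : a ≤ b)
    (h : ∀ n, a ≤ n → n < b → w (n + 1) ≤ w n) :
    ∑ n ∈ Ico a b, |w n - w (n + 1)| = w a - w b := by
  induction b, hab using Nat.le_induction with
  | base => simp
  | succ b hab ih =>
    rw [sum_Ico_succ_top hab, ih fun n h1 h2 => h n h1 (by omega),
      abs_of_nonneg (sub_nonneg.2 (h b hab (by omega)))]
    ring

private theorem tv_mono (w : ℕ → ℝ) (a b : ℕ) (hab : a ≤ b)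
    (h : ∀ n, a ≤ n → n < b → w n ≤ w (n + 1)) :
    ∑ n ∈ Ico a b, |w n - w (n + 1)| = w b - w a := by
  induction b, hab using Nat.le_induction with
  | base => simp
  | succ b hab ih =>
    rw [sum_Ico_succ_top hab, ih fun n h1 h2 => h n h1 (by omega),
      abs_of_nonpos (sub_nonpos.2 (h b hab (by omega)))]
    ring

private theorem r12_range {X : ℝ} (hX : 1 ≤ X) {a b n : ℕ} (ha : X ≤ a) (hb : (b : ℝ) ≤ 2 * X)
    (h1 : a ≤ n) (h2 : n ≤ b) : 1 ≤ (n : ℝ) / X ∧ (n : ℝ) / X ≤ 2 := by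
  have hX0 : 0 < X := by linarith
  have h3 : (a : ℝ) ≤ n := by exact_mod_cast h1
  have h4 : (n : ℝ) ≤ b := by exact_mod_cast h2
  rw [le_div_iff₀ hX0, div_le_iff₀ hX0]
  constructor <;> linarith

private theorem r12_W1 {X : ℝ} (hX : 1 ≤ X) {a b : ℕ} (ha : X ≤ a) (hb : (b : ℝ) ≤ 2 * X)
    (hab : a ≤ b) : |ph (b / X) / X| +
      ∑ n ∈ Ico a b, |ph (n / X) / X - ph (((n + 1 : ℕ) : ℝ) / X) / X| ≤ 1 / X := by
  have hX0 : 0 < X := by linarith
  rw [tv_anti (fun n : ℕ => ph (n / X) / X) a b hab]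
  · rw [abs_of_pos (div_pos (ph_pos _) hX0)]
    have h1 := r12_range hX ha hb le_rfl hab
    have h2 := ph_le_one h1.1 h1.2
    have h3 : ph (a / X) / X ≤ 1 / X := div_le_div_of_nonneg_right h2 hX0.le
    linarith
  · intro n h1 h2
    have h3 := r12_range hX ha hb h1 h2.le
    have h4 := r12_range hX ha hb (n := n + 1) (by omega) (by omega)
    refine div_le_div_of_nonneg_right (ph_anti h3.1 ?_ h4.2) hX0.le
    refine div_le_div_of_nonneg_right ?_ hX0.le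
    push_cast
    linarith

private theorem r12_W2 {X : ℝ} (hX : 1 ≤ X) {a b : ℕ} (ha : X ≤ a) (hb : (b : ℝ) ≤ 2 * X)
    (hab : a ≤ b) : |Real.log (b / X) * ph (b / X) / X| +
      ∑ n ∈ Ico a b, |Real.log (n / X) * ph (n / X) / X -
        Real.log (((n + 1 : ℕ) : ℝ) / X) * ph (((n + 1 : ℕ) : ℝ) / X) / X| ≤ 2 / X := by
  have hX0 : 0 < X := by linarith
  rw [tv_mono (fun n : ℕ => Real.log (n / X) * ph (n / X) / X) a b hab]
  · have h1 := r12_range hX ha hb le_rfl hab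
    have h2 := r12_range hX ha hb hab le_rfl
    have h3 : 0 ≤ Real.log (b / X) := Real.log_nonneg h2.1
    have h4 : 0 ≤ Real.log (a / X) := Real.log_nonneg h1.1
    have h5 : Real.log (b / X) ≤ 1 :=
      (Real.log_le_log (by linarith [h2.1]) h2.2).trans log_two_le
    have h6 := ph_le_one h2.1 h2.2
    have h7 := ph_pos (b / X)
    have h8 := ph_pos (a / X)
    have h9 : Real.log (b / X) * ph (b / X) / X ≤ 1 / X := by
      refine div_le_div_of_nonneg_right ?_ hX0.le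
      nlinarith
    have h10 : 0 ≤ Real.log (a / X) * ph (a / X) / X := by positivity
    rw [abs_of_nonneg (by positivity)]
    have h11 : 2 / X = 1 / X + 1 / X := by ring
    linarith
  · intro n h1 h2
    have h3 := r12_range hX ha hb h1 h2.le
    have h4 := r12_range hX ha hb (n := n + 1) (by omega) (by omega)
    refine div_le_div_of_nonneg_right (lph_mono h3.1 ?_ h4.2) hX0.le
    refine div_le_div_of_nonneg_right ?_ hX0.le
    push_cast
    linarith

private theorem r12_term {X : ℝ} (hX : 1 ≤ X) (c : ℝ) (t : ℝ) {n : ℕ} (hn : X ≤ n) :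
    ((c / n : ℝ) : ℂ) * Complex.exp (((-(t * Real.log n) : ℝ) : ℂ) * Complex.I) =
      ((c * (ph (n / X) / X) : ℝ) : ℂ) * fw X t n := by
  have hX0 : 0 < X := by linarith
  have hn0 : (0 : ℝ) < n := by linarith
  have hq : 0 < (n : ℝ) / X := by positivity
  unfold fw
  rw [if_pos hn0, ← mul_assoc, ← Complex.ofReal_mul]
  congr 2
  have e : ph (n / X) * lg (n / X) = X / n := by
    unfold ph lg
    rw [← Real.exp_add]
    have : Real.log (n / X) ^ 2 / 2 - Real.log (n / X) + -(Real.log (n / X) ^ 2 / 2) =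
        -Real.log (n / X) := by ring
    rw [this, Real.exp_neg, Real.exp_log hq, inv_div]
  calc c / n = c * ((X / n) / X) := by field_simp
    _ = c * (ph (n / X) / X) * lg (n / X) := by rw [← e]; ring

private theorem r12_log {ε : ℝ} (hε : 0 < ε) (T X : ℝ) (hX : 1 ≤ X) (hT : 2 ≤ T) (hXT : X ≤ T) :
    2 + Real.log X ≤ (2 + 1 / ε) * T ^ ε := by
  have h1 : Real.log X ≤ Real.log T := Real.log_le_log (by linarith) hXT
  have h2 : Real.log T ≤ T ^ ε / ε := Real.log_le_rpow_div (by linarith) hε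
  have h3 : 1 ≤ T ^ ε := Real.one_le_rpow (by linarith) hε.le
  have h4 : (2 + 1 / ε) * T ^ ε = 2 * T ^ ε + T ^ ε / ε := by ring
  linarith

/-- The case `T^(1/2) ≤ X`. -/
private theorem block_large (ε : ℝ) (hε : 0 < ε) : ∃ C : ℝ, 0 < C ∧ ∀ X T : ℝ, 1 ≤ X → 2 ≤ T →
    T ^ (1 / 2 : ℝ) ≤ X → X ≤ T → ∀ a b : ℕ, X ≤ a → (b : ℝ) ≤ 2 * X → a ≤ b →
    (∫ t in {t : ℝ | T ≤ |t| ∧ |t| ≤ 2 * T}, ‖DP (Ico a b) (fun _ => 1) t‖ ^ 4 ≤
      C * T ^ (1 + ε) / X ^ 2) ∧
    (∫ t in {t : ℝ | T ≤ |t| ∧ |t| ≤ 2 * T}, ‖DP (Ico a b) (fun n => Real.log n) t‖ ^ 4 ≤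
      C * T ^ (1 + ε) / X ^ 2) := by
  obtain ⟨C, hC, hw⟩ := w_fourth (ε / 2) (by positivity)
  refine ⟨C * (2 + 1 / (ε / 8)) ^ 4, by positivity, ?_⟩
  intro X T hX hT hTX hXT a b ha hb hab
  have hX0 : 0 < X := by linarith
  have hT0 : 0 < T := by linarith
  have hlog := r12_log (ε := ε / 8) (by positivity) T X hX hT hXT
  have hlog0 : 0 ≤ Real.log X := Real.log_nonneg hX
  -- the general bound
  have key : ∀ w : ℕ → ℝ, |w b| + ∑ n ∈ Ico a b, |w n - w (n + 1)| ≤ (2 + Real.log X) / X →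
      ∫ t in {t : ℝ | T ≤ |t| ∧ |t| ≤ 2 * T}, ‖∑ n ∈ Ico a b, ((w n : ℝ) : ℂ) * fw X t n‖ ^ 4 ≤
        C * (2 + 1 / (ε / 8)) ^ 4 * T ^ (1 + ε) / X ^ 2 := by
    intro w hW
    refine (hw X T hT hTX hXT a b ha hb hab w).trans ?_
    have h1 : 0 ≤ |w b| + ∑ n ∈ Ico a b, |w n - w (n + 1)| :=
      add_nonneg (abs_nonneg _) (sum_nonneg fun _ _ => abs_nonneg _)
    have h2 : (|w b| + ∑ n ∈ Ico a b, |w n - w (n + 1)|) ^ 4 ≤
        ((2 + 1 / (ε / 8)) * T ^ (ε / 8) / X) ^ 4 := by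
      refine pow_le_pow_left₀ h1 (hW.trans ?_) 4
      exact div_le_div_of_nonneg_right hlog hX0.le
    calc C * T ^ (1 + ε / 2) * X ^ 2 * (|w b| + ∑ n ∈ Ico a b, |w n - w (n + 1)|) ^ 4
        ≤ C * T ^ (1 + ε / 2) * X ^ 2 * ((2 + 1 / (ε / 8)) * T ^ (ε / 8) / X) ^ 4 :=
          mul_le_mul_of_nonneg_left h2 (by positivity)
      _ = C * (2 + 1 / (ε / 8)) ^ 4 * (T ^ (1 + ε / 2) * (T ^ (ε / 8)) ^ 4) / X ^ 2 := by
          field_simp
      _ = C * (2 + 1 / (ε / 8)) ^ 4 * T ^ (1 + ε) / X ^ 2 := by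
          have e : T ^ (1 + ε / 2) * (T ^ (ε / 8)) ^ 4 = T ^ (1 + ε) := by
            rw [← Real.rpow_natCast (T ^ (ε / 8)) 4, ← Real.rpow_mul hT0.le, ← Real.rpow_add hT0]
            congr 1
            push_cast
            ring
          rw [e]
  constructor
  · have e : ∀ t, DP (Ico a b) (fun _ => 1) t =
        ∑ n ∈ Ico a b, ((ph (n / X) / X : ℝ) : ℂ) * fw X t n := by
      intro t
      unfold DP
      refine sum_congr rfl fun n hn => ?_
      rw [mem_Ico] at hn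
      have h1 : (a : ℝ) ≤ n := by exact_mod_cast hn.1
      rw [r12_term hX 1 t (ha.trans h1), one_mul]
    simp only [e]
    refine key (fun n : ℕ => ph (n / X) / X) ?_
    refine (r12_W1 hX ha hb hab).trans ?_
    exact div_le_div_of_nonneg_right (by linarith) hX0.le
  · have e : ∀ t, DP (Ico a b) (fun n => Real.log n) t =
        ∑ n ∈ Ico a b, ((Real.log X * (ph (n / X) / X) + Real.log (n / X) * ph (n / X) / X : ℝ) : ℂ) *
          fw X t n := by
      intro t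
      unfold DP
      refine sum_congr rfl fun n hn => ?_
      rw [mem_Ico] at hn
      have h1 : (a : ℝ) ≤ n := by exact_mod_cast hn.1
      have h2 : (n : ℝ) ≠ 0 := by
        have : 0 < (n : ℝ) := by linarith
        exact this.ne'
      rw [r12_term hX (Real.log n) t (ha.trans h1)]
      congr 2
      rw [Real.log_div h2 hX0.ne']
      ring
    simp only [e]
    refine key (fun n : ℕ => Real.log X * (ph (n / X) / X) + Real.log (n / X) * ph (n / X) / X) ?_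
    have h1 := r12_W1 hX ha hb hab
    have h2 := r12_W2 hX ha hb hab
    have h3 : ∀ x y x' y' : ℝ, |(Real.log X * x + y) - (Real.log X * x' + y')| ≤
        Real.log X * |x - x'| + |y - y'| := by
      intro x y x' y'
      have : (Real.log X * x + y) - (Real.log X * x' + y') = Real.log X * (x - x') + (y - y') := by
        ring
      rw [this]
      refine (abs_add_le _ _).trans ?_
      rw [abs_mul, abs_of_nonneg hlog0]
    have h4 : ∀ x y : ℝ, |Real.log X * x + y| ≤ Real.log X * |x| + |y| := by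
      intro x y
      refine (abs_add_le _ _).trans ?_
      rw [abs_mul, abs_of_nonneg hlog0]
    calc |Real.log X * (ph (b / X) / X) + Real.log (b / X) * ph (b / X) / X| +
          ∑ n ∈ Ico a b, |(Real.log X * (ph (n / X) / X) + Real.log (n / X) * ph (n / X) / X) -
            (Real.log X * (ph (((n + 1 : ℕ) : ℝ) / X) / X) +
              Real.log (((n + 1 : ℕ) : ℝ) / X) * ph (((n + 1 : ℕ) : ℝ) / X) / X)|
        ≤ (Real.log X * |ph (b / X) / X| + |Real.log (b / X) * ph (b / X) / X|) +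
          ∑ n ∈ Ico a b, (Real.log X * |ph (n / X) / X - ph (((n + 1 : ℕ) : ℝ) / X) / X| +
            |Real.log (n / X) * ph (n / X) / X -
              Real.log (((n + 1 : ℕ) : ℝ) / X) * ph (((n + 1 : ℕ) : ℝ) / X) / X|) :=
          add_le_add (h4 _ _) (sum_le_sum fun n _ => h3 _ _ _ _)
      _ = Real.log X * (|ph (b / X) / X| +
            ∑ n ∈ Ico a b, |ph (n / X) / X - ph (((n + 1 : ℕ) : ℝ) / X) / X|) +
          (|Real.log (b / X) * ph (b / X) / X| +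
            ∑ n ∈ Ico a b, |Real.log (n / X) * ph (n / X) / X -
              Real.log (((n + 1 : ℕ) : ℝ) / X) * ph (((n + 1 : ℕ) : ℝ) / X) / X|) := by
          rw [sum_add_distrib, ← mul_sum]
          ring
      _ ≤ Real.log X * (1 / X) + 2 / X :=
          add_le_add (mul_le_mul_of_nonneg_left h1 hlog0) h2
      _ = (2 + Real.log X) / X := by ring

/-- The case `X² ≤ T`. -/
private theorem block_small (ε : ℝ) (hε : 0 < ε) : ∃ C : ℝ, 0 < C ∧ ∀ X T B : ℝ, 1 ≤ X → 2 ≤ T →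
    X ^ 2 ≤ T → 0 ≤ B → B ≤ 2 + Real.log X → ∀ f : ℝ → ℂ, IsDP 1 B X (2 * X) f →
    ∫ t in {t : ℝ | T ≤ |t| ∧ |t| ≤ 2 * T}, ‖f t‖ ^ 4 ≤ C * T ^ (1 + ε) / X ^ 2 := by
  obtain ⟨C, hC, hm⟩ := IsDP.mvt
  refine ⟨C * 48 * (2 + 1 / (ε / 8)) ^ 8, by positivity, ?_⟩
  intro X T B hX hT hXT hB0 hB f hf
  have hX0 : 0 < X := by linarith
  have hT0 : 0 < T := by linarith
  have hXT' : X ≤ T := by nlinarith
  have hlog := r12_log (ε := ε / 8) (by positivity) T X hX hT hXT'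
  have hlog0 : 0 ≤ Real.log X := Real.log_nonneg hX
  have hLog0 : 0 ≤ 2 + Real.log X := by linarith
  have hff := IsDP.mul hB0 hB0 hX0.le hX0.le hf hf
  have h1 := hm (1 + 1) (B * B) (X * X) (2 * X * (2 * X)) (2 * T) (fun t => f t * f t) hff
    (by linarith) (by nlinarith) (by nlinarith) (mul_nonneg hB0 hB0)
  have hc : Continuous (fun t => ‖f t * f t‖ ^ 2) := (continuous_pow 2).comp hff.cont.norm
  have h2 : ∫ t in {t : ℝ | T ≤ |t| ∧ |t| ≤ 2 * T}, ‖f t‖ ^ 4 ≤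
      ∫ t in Set.Icc (-(2 * T)) (2 * T), ‖f t * f t‖ ^ 2 := by
    have e : ∀ t, ‖f t‖ ^ 4 = ‖f t * f t‖ ^ 2 := fun t => by
      rw [norm_mul]
      ring
    simp only [e]
    exact setIntegral_mono_set (hc.integrableOn_Icc)
      (Filter.Eventually.of_forall fun t => by positivity)
      (Filter.Eventually.of_forall (r12_sub T))
  refine (h2.trans h1).trans ?_
  have h3 : 1 + Real.log (2 * X * (2 * X)) ≤ 2 * (2 + Real.log X) := by
    rw [Real.log_mul (by positivity) (by positivity), Real.log_mul (by norm_num) hX0.ne']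
    have := log_two_le
    linarith
  have h4 : 0 ≤ 1 + Real.log (2 * X * (2 * X)) := by
    have := Real.log_nonneg (x := 2 * X * (2 * X)) (by nlinarith)
    linarith
  have h5 : 2 * T / (X * X) + 1 ≤ 3 * T / X ^ 2 := by
    have e : 3 * T / X ^ 2 = 2 * T / (X * X) + T / X ^ 2 := by ring
    have e2 : 1 ≤ T / X ^ 2 := by
      rw [le_div_iff₀ (by positivity)]
      linarith
    rw [e]
    linarith
  have h6 : (B * B) ^ 2 * (1 + Real.log (2 * X * (2 * X))) ^ ((1 + 1) ^ 2) ≤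
      16 * ((2 + 1 / (ε / 8)) * T ^ (ε / 8)) ^ 8 := by
    have e1 : (B * B) ^ 2 ≤ (2 + Real.log X) ^ 4 := by
      have : (B * B) ^ 2 = B ^ 4 := by ring
      rw [this]
      exact pow_le_pow_left₀ hB0 hB 4
    have e2 : (1 + Real.log (2 * X * (2 * X))) ^ ((1 + 1) ^ 2) ≤ (2 * (2 + Real.log X)) ^ 4 :=
      pow_le_pow_left₀ h4 h3 4
    calc (B * B) ^ 2 * (1 + Real.log (2 * X * (2 * X))) ^ ((1 + 1) ^ 2)
        ≤ (2 + Real.log X) ^ 4 * (2 * (2 + Real.log X)) ^ 4 :=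
          mul_le_mul e1 e2 (pow_nonneg h4 _) (pow_nonneg hLog0 4)
      _ = 16 * (2 + Real.log X) ^ 8 := by ring
      _ ≤ 16 * ((2 + 1 / (ε / 8)) * T ^ (ε / 8)) ^ 8 :=
          mul_le_mul_of_nonneg_left (pow_le_pow_left₀ hLog0 hlog 8) (by norm_num)
  have h7 : 0 ≤ (B * B) ^ 2 * (1 + Real.log (2 * X * (2 * X))) ^ ((1 + 1) ^ 2) :=
    mul_nonneg (sq_nonneg _) (pow_nonneg h4 _)
  calc C * (2 * T / (X * X) + 1) *
        ((B * B) ^ 2 * (1 + Real.log (2 * X * (2 * X))) ^ ((1 + 1) ^ 2))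
      ≤ C * (3 * T / X ^ 2) * (16 * ((2 + 1 / (ε / 8)) * T ^ (ε / 8)) ^ 8) :=
        mul_le_mul (mul_le_mul_of_nonneg_left h5 hC.le) h6 h7 (by positivity)
    _ = C * 48 * (2 + 1 / (ε / 8)) ^ 8 * (T * (T ^ (ε / 8)) ^ 8) / X ^ 2 := by ring
    _ = C * 48 * (2 + 1 / (ε / 8)) ^ 8 * T ^ (1 + ε) / X ^ 2 := by
        have e : T * (T ^ (ε / 8)) ^ 8 = T ^ (1 + ε) := by
          rw [← Real.rpow_natCast (T ^ (ε / 8)) 8, ← Real.rpow_mul hT0.le, Real.rpow_add hT0,
            Real.rpow_one]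
          congr 2
          push_cast
          ring
        rw [e]

theorem block_fourth (ε : ℝ) (hε : 0 < ε) : ∃ C : ℝ, 0 < C ∧ ∀ X T : ℝ, 1 ≤ X → 2 ≤ T → X ≤ T →
    ∀ a b : ℕ, X ≤ a → (b : ℝ) ≤ 2 * X →
    (∫ t in {t : ℝ | T ≤ |t| ∧ |t| ≤ 2 * T}, ‖DP (Ico a b) (fun _ => 1) t‖ ^ 4 ≤
      C * T ^ (1 + ε) / X ^ 2) ∧
    (∫ t in {t : ℝ | T ≤ |t| ∧ |t| ≤ 2 * T}, ‖DP (Ico a b) (fun n => Real.log n) t‖ ^ 4 ≤
      C * T ^ (1 + ε) / X ^ 2) := by
  obtain ⟨C₁, hC₁, h₁⟩ := block_large ε hε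
  obtain ⟨C₂, hC₂, h₂⟩ := block_small ε hε
  refine ⟨C₁ + C₂, by positivity, ?_⟩
  intro X T hX hT hXT a b ha hb
  have hX0 : 0 < X := by linarith
  have hT0 : 0 < T := by linarith
  have hp : 0 ≤ T ^ (1 + ε) / X ^ 2 := by positivity
  have g1 : C₁ * T ^ (1 + ε) / X ^ 2 ≤ (C₁ + C₂) * T ^ (1 + ε) / X ^ 2 := by
    rw [mul_div_assoc, mul_div_assoc]
    exact mul_le_mul_of_nonneg_right (by linarith) hp
  have g2 : C₂ * T ^ (1 + ε) / X ^ 2 ≤ (C₁ + C₂) * T ^ (1 + ε) / X ^ 2 := by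
    rw [mul_div_assoc, mul_div_assoc]
    exact mul_le_mul_of_nonneg_right (by linarith) hp
  have g0 : 0 ≤ (C₁ + C₂) * T ^ (1 + ε) / X ^ 2 := by positivity
  rcases le_or_gt a b with hab | hab
  · rcases le_or_gt (T ^ (1 / 2 : ℝ)) X with hTX | hTX
    · obtain ⟨k1, k2⟩ := h₁ X T hX hT hTX hXT a b ha hb hab
      exact ⟨k1.trans g1, k2.trans g1⟩
    · have hX2 : X ^ 2 ≤ T := by
        have e := pow_le_pow_left₀ hX0.le hTX.le 2
        rwa [← Real.rpow_natCast (T ^ (1 / 2 : ℝ)) 2, ← Real.rpow_mul hT0.le,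
          show (1 / 2 : ℝ) * ((2 : ℕ) : ℝ) = 1 by norm_num, Real.rpow_one] at e
      have hlog0 : 0 ≤ Real.log X := Real.log_nonneg hX
      have hr : ∀ n ∈ Ico a b, 1 ≤ n ∧ X ≤ (n : ℝ) ∧ (n : ℝ) ≤ 2 * X := by
        intro n hn
        rw [mem_Ico] at hn
        have e1 : (a : ℝ) ≤ n := by exact_mod_cast hn.1
        have e2 : (n : ℝ) ≤ b := by exact_mod_cast hn.2.le
        refine ⟨?_, by linarith, by linarith⟩
        have : (1 : ℝ) ≤ n := by linarith
        exact_mod_cast this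
      constructor
      · refine (h₂ X T 1 hX hT hX2 (by norm_num) (by linarith) _
          (IsDP.of_bound (Ico a b) (fun _ => 1) fun n hn => ?_)).trans g2
        obtain ⟨e1, e2, e3⟩ := hr n hn
        exact ⟨e1, e2, e3, by norm_num⟩
      · refine (h₂ X T (1 + Real.log X) hX hT hX2 (by linarith) (by linarith) _
          (IsDP.of_bound (Ico a b) (fun n => Real.log n) fun n hn => ?_)).trans g2
        obtain ⟨e1, e2, e3⟩ := hr n hn
        refine ⟨e1, e2, e3, ?_⟩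
        have e4 : (1 : ℝ) ≤ n := by exact_mod_cast e1
        rw [abs_of_nonneg (Real.log_nonneg e4)]
        have e5 : Real.log n ≤ Real.log (2 * X) := Real.log_le_log (by linarith) e3
        rw [Real.log_mul (by norm_num) hX0.ne'] at e5
        have := log_two_le
        linarith
  · have hE : Ico a b = ∅ := Ico_eq_empty_of_le hab.le
    rw [hE]
    have e : ∀ c : ℕ → ℝ, ∀ t, ‖DP ∅ c t‖ ^ 4 = 0 := by
      intro c t
      unfold DP
      simp
    simp only [e, integral_zero]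
    exact ⟨g0, g0⟩

end Pool.Agent.Lib.MP_9a8698_nt
end
end
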