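import Pool.Agent.Lib.MP_9a8698_nt.X5
import Pool.Agent.Lib.MP_9a8698_nt.E1
import Pool.Agent.Lib.MP_9a8698_nt.R12
import Pool.Agent.Lib.MP_9a8698_nt.S5
import Pool.Agent.Lib.MP_9a8698_nt.X1
import Pool.Agent.Lib.MP_9a8698_nt.H4

section

/-!
X6. The mean of the product of all variables, when all pairs are light (A4, X5 `levelE` may be used).

PROOF. `ℓ = log k`, `T = k^(β+θ/2) ≤ k`, `Λ = 4 ℓ^(b+1)` (`≥ 1` for large `k`): `‖f i t‖ ≤ ℓ^b (1 + log(2 k^(x i))) ≤ Λ` by `IsDP.sup`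
(`2 k^(x i) ≤ k^3`). Let `m₀ = ⌈6 ℓ⌉₊` (so `2^(m₀) ≥ k^4`, as `6 log 2 ≥ 4`). For `m : ι → Fin m₀` (finitely many classes,
`(m₀)^(card ι) ≤ (7ℓ)^r` for large `k`) let `E_m = {t ∈ [-T,T] : ∀ i, Λ 2^(-m i-1) < ‖f i t‖ ≤ Λ 2^(-m i)}`, and
`E' = {t ∈ [-T,T] : ∃ i, ‖f i t‖ ≤ Λ 2^(-m₀)}`. These sets cover `[-T,T]` and are measurable (`f i` continuous).
On `E'`: `∏ ‖f i t‖ ≤ Λ^r 2^(-m₀) ≤ Λ^r k^(-4)`, so `∫_{E'} ≤ 2 k Λ^r k^(-4) ≤ 1`.
On `E_m`: put `u i = (m i + 1) log 2/ℓ ≥ 0`, so `k^(-u i) = 2^(-m i-1) ≤ ‖f i t‖` (as `Λ ≥ 1`) and `‖f i t‖ ≤ 2 Λ k^(-u i)`, so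
`∫_{E_m} ∏ ‖f i‖ ≤ |E_m| (2Λ)^(card ι) k^(-∑ u) ≤ (2Λ)^r ℓ^C₀` by `levelE`. Total: `1 + (7ℓ)^r (2Λ)^r ℓ^C₀ ≤ ℓ^C`.
-/

set_option autoImplicit false

open Finset MeasureTheory

namespace Pool.Agent.Lib.MP_9a8698_nt

private theorem x6_class {Λ : ℝ} (hΛ : 0 < Λ) {m₀ : ℕ} {y : ℝ} (h1 : y ≤ Λ)
    (h2 : Λ * (1 / 2) ^ m₀ < y) : ∃ m : Fin m₀, Λ * (1 / 2) ^ ((m : ℕ) + 1) < y ∧ y ≤ Λ * (1 / 2) ^ (m : ℕ) := by
  classical
  have hex : ∃ m : ℕ, Λ * (1 / 2) ^ (m + 1) < y := by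
    refine ⟨m₀, lt_of_le_of_lt ?_ h2⟩
    refine mul_le_mul_of_nonneg_left ?_ hΛ.le
    exact pow_le_pow_of_le_one (by norm_num) (by norm_num) (Nat.le_succ _)
  set m := Nat.find hex with hm
  have hm1 : Λ * (1 / 2) ^ (m + 1) < y := Nat.find_spec hex
  have hm0 : m₀ ≠ 0 := by
    rintro rfl
    simp at h2
    linarith
  have hlt : m < m₀ := by
    have : m ≤ m₀ - 1 := Nat.find_min' hex (by
      have : m₀ - 1 + 1 = m₀ := by omega
      rw [this]; exact h2)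
    omega
  refine ⟨⟨m, hlt⟩, hm1, ?_⟩
  show y ≤ Λ * (1 / 2) ^ m
  rcases Nat.eq_zero_or_pos m with h0 | h0
  · rw [h0, pow_zero, mul_one]; exact h1
  · have h3 := Nat.find_min hex (m := m - 1) (by omega)
    have h4 : m - 1 + 1 = m := by omega
    rw [h4] at h3
    exact not_lt.mp h3

private theorem x6_prod {ι : Type} [Fintype ι] {Λ e : ℝ} {r : ℕ} (hΛ : 1 ≤ Λ) (he : 0 ≤ e) (hr : Fintype.card ι ≤ r)
    (y : ι → ℝ) (hy0 : ∀ i, 0 ≤ y i) (hy : ∀ i, y i ≤ Λ) (i : ι) (hi : y i ≤ Λ * e) : ∏ j, y j ≤ Λ ^ r * e := by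
  classical
  rw [← Finset.mul_prod_erase univ y (mem_univ i)]
  have h1 : ∏ j ∈ univ.erase i, y j ≤ Λ ^ (Fintype.card ι - 1) := by
    have h2 := Finset.prod_le_prod (s := univ.erase i) (f := y) (g := fun _ => Λ) (fun j _ => hy0 j) fun j _ => hy j
    rw [Finset.prod_const, Finset.card_erase_of_mem (mem_univ i), Finset.card_univ] at h2
    exact h2
  have hc : 0 < Fintype.card ι := Fintype.card_pos_iff.mpr ⟨i⟩
  calc y i * ∏ j ∈ univ.erase i, y j ≤ (Λ * e) * Λ ^ (Fintype.card ι - 1) :=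
        mul_le_mul hi h1 (Finset.prod_nonneg fun j _ => hy0 j) (mul_nonneg (by linarith) he)
    _ = Λ ^ (Fintype.card ι - 1 + 1) * e := by rw [pow_succ]; ring
    _ ≤ Λ ^ r * e := by
        refine mul_le_mul_of_nonneg_right ?_ he
        exact pow_le_pow_right₀ hΛ (by omega)

theorem level3 (β θ b : ℝ) (r : ℕ) (hβ : 0 < β) (hθ : 0 < θ) (hβ2 : β ≤ 9 / 11 - 20 * θ)
    (hb : 0 ≤ b) :
    ∃ C k0 : ℝ, ∀ k : ℝ, k0 ≤ k → ∀ (ι : Type) [Fintype ι] [DecidableEq ι] (x : ι → ℝ)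
      (f : ι → ℝ → ℂ), Fintype.card ι ≤ r → (∀ i, 0 ≤ x i) →
      (∀ i, IsDP 1 ((Real.log k) ^ b) (k ^ x i) (2 * k ^ x i) (f i)) →
      |∑ i, x i - (1 + β)| ≤ θ / 4 →
      (∀ I : Finset ι, ∑ i ∈ I, x i < β + θ ∨ 1 - θ < ∑ i ∈ I, x i) →
      (∀ i j : ι, ∑ a ∈ {i, j}, x a < β + θ) →
      ∫ t in Set.Icc (-k ^ (β + θ / 2)) (k ^ (β + θ / 2)), ‖∏ i, f i t‖ ≤ (Real.log k) ^ C := by
  obtain ⟨C₀, k₀, hL⟩ := levelE β θ b r hβ hθ hβ2 hb
  refine ⟨(b + 3) * r + |C₀| + 1, max k₀ (Real.exp 60), ?_⟩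
  intro k hk ι _ _ x f hcard hx hf hS hlh hpair
  have hk0 : k₀ ≤ k := (le_max_left _ _).trans hk
  have hk1 : Real.exp 60 ≤ k := (le_max_right _ _).trans hk
  have hkpos : 0 < k := lt_of_lt_of_le (Real.exp_pos _) hk1
  set l : ℝ := Real.log k with hl
  have hl60 : 60 ≤ l := by
    rw [hl, Real.le_log_iff_exp_le hkpos]
    exact hk1
  have hl0 : 0 < l := by linarith
  have hl1 : 1 ≤ l := by linarith
  have hkexp : Real.exp l = k := Real.exp_log hkpos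
  have hk_one : 1 ≤ k := le_trans (Real.one_le_exp (by norm_num)) hk1
  set Λ : ℝ := 4 * l ^ (b + 1) with hΛ
  have hlb : 1 ≤ l ^ (b + 1) := Real.one_le_rpow hl1 (by linarith)
  have hΛ1 : 1 ≤ Λ := by rw [hΛ]; linarith
  have hΛ0 : 0 < Λ := by linarith
  have hxi : ∀ i, x i ≤ 2 := by
    intro i
    have h1 := Finset.single_le_sum (f := x) (fun j _ => hx j) (mem_univ i)
    have h2 := (abs_le.mp hS).2
    linarith
  have hsup : ∀ i t, ‖f i t‖ ≤ Λ := by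
    intro i t
    have hkx : 1 ≤ k ^ x i := Real.one_le_rpow hk_one (hx i)
    have h1 := (hf i).sup (by linarith) (by positivity) t
    refine h1.trans ?_
    have h2 : Real.log (2 * k ^ x i) ≤ 1 + 2 * l := by
      rw [Real.log_mul (by norm_num) (by positivity), Real.log_rpow hkpos, ← hl]
      have h3 := Real.log_two_lt_d9
      nlinarith [hxi i, hx i]
    have h3 : (1 + Real.log (2 * k ^ x i)) ^ 1 ≤ 4 * l := by rw [pow_one]; linarith
    calc l ^ b * (1 + Real.log (2 * k ^ x i)) ^ 1 ≤ l ^ b * (4 * l) := mul_le_mul_of_nonneg_left h3 (by positivity)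
      _ = Λ := by rw [hΛ, Real.rpow_add_one hl0.ne']; ring
  set m₀ : ℕ := ⌈6 * l⌉₊ with hm₀
  have hm₀1 : (m₀ : ℝ) ≤ 7 * l := by
    have := Nat.ceil_lt_add_one (show 0 ≤ 6 * l by positivity)
    rw [← hm₀] at this
    linarith
  have hm₀2 : (1 / 2 : ℝ) ^ m₀ ≤ k ^ (-(4 : ℝ)) := by
    have h1 : 6 * l ≤ m₀ := Nat.le_ceil _
    have h2 : (1 / 2 : ℝ) ^ m₀ = Real.exp (-(m₀ * Real.log 2)) := by
      rw [Real.exp_neg, Real.exp_nat_mul, Real.exp_log (by norm_num)]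
      rw [one_div, inv_pow]
    rw [h2, Real.rpow_def_of_pos hkpos, ← hl, Real.exp_le_exp]
    have h3 := Real.log_two_gt_d9
    nlinarith
  set T : ℝ := k ^ (β + θ / 2) with hT
  have hT0 : 0 < T := by positivity
  have hTk : T ≤ k := by
    rw [hT]
    conv_rhs => rw [← Real.rpow_one k]
    exact Real.rpow_le_rpow_of_exponent_le hk_one (by linarith)
  set E : (ι → Fin m₀) → Set ℝ := fun m => Set.Icc (-T) T ∩
    ⋂ i : ι, {t : ℝ | Λ * (1 / 2) ^ ((m i : ℕ) + 1) < ‖f i t‖} ∩ {t : ℝ | ‖f i t‖ ≤ Λ * (1 / 2) ^ (m i : ℕ)} with hE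
  have hEm : ∀ m, MeasurableSet (E m) := by
    intro m
    refine measurableSet_Icc.inter (MeasurableSet.iInter fun i => ?_)
    have hc := (hf i).cont.norm
    exact (measurableSet_lt measurable_const hc.measurable).inter (measurableSet_le hc.measurable measurable_const)
  set c : (ι → Fin m₀) → ℝ := fun m => ∏ i, Λ * (1 / 2) ^ (m i : ℕ) with hc
  have hc0 : ∀ m, 0 ≤ c m := fun m => Finset.prod_nonneg fun i _ => by positivity
  have hvol : ∀ m, c m * volume.real (E m) ≤ l ^ C₀ * (2 * Λ) ^ Fintype.card ι := by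
    intro m
    set u : ι → ℝ := fun i => ((m i : ℕ) + 1 : ℝ) * Real.log 2 / l with hu
    have hku : ∀ i, k ^ (u i) = 2 ^ ((m i : ℕ) + 1) := by
      intro i
      rw [Real.rpow_def_of_pos hkpos, ← hl, hu]
      have : l * (((m i : ℕ) + 1 : ℝ) * Real.log 2 / l) = (((m i : ℕ) + 1 : ℕ) : ℝ) * Real.log 2 := by
        push_cast
        field_simp
      rw [this, Real.exp_nat_mul, Real.exp_log (by norm_num)]
    have h1 := hL k hk0 ι x u f hcard hx (fun i => by positivity) hf hS hlh hpair (E m) (hEm m)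
      Set.inter_subset_left (by
        intro i t ht
        have h2 := (Set.mem_iInter.mp ht.2 i).1
        have h3 : Λ * (1 / 2) ^ ((m i : ℕ) + 1) < ‖f i t‖ := h2
        rw [Real.rpow_neg hkpos.le, hku i]
        have h4 : ((2 : ℝ) ^ ((m i : ℕ) + 1))⁻¹ = (1 / 2) ^ ((m i : ℕ) + 1) := by
          rw [one_div, inv_pow]
        rw [h4]
        have h5 : (0 : ℝ) ≤ (1 / 2) ^ ((m i : ℕ) + 1) := by positivity
        nlinarith)
    have h2 : k ^ (∑ i, u i) = ∏ i, (2 : ℝ) ^ ((m i : ℕ) + 1) := by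
      rw [Real.rpow_sum_of_pos hkpos]
      exact Finset.prod_congr rfl fun i _ => hku i
    rw [h2] at h1
    calc c m * volume.real (E m) ≤ c m * (l ^ C₀ * ∏ i, (2 : ℝ) ^ ((m i : ℕ) + 1)) :=
          mul_le_mul_of_nonneg_left h1 (hc0 m)
      _ = l ^ C₀ * ∏ i, ((Λ * (1 / 2) ^ (m i : ℕ)) * (2 : ℝ) ^ ((m i : ℕ) + 1)) := by
          rw [Finset.prod_mul_distrib]; ring
      _ = l ^ C₀ * ∏ i : ι, (2 * Λ) := by
          congr 1
          refine Finset.prod_congr rfl fun i _ => ?_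
          rw [pow_succ, show (Λ * (1 / 2) ^ (m i : ℕ)) * ((2 : ℝ) ^ (m i : ℕ) * 2) =
            2 * Λ * ((1 / 2) ^ (m i : ℕ) * (2 : ℝ) ^ (m i : ℕ)) by ring, ← mul_pow]
          norm_num
      _ = l ^ C₀ * (2 * Λ) ^ Fintype.card ι := by
          rw [Finset.prod_const, Finset.card_univ]
  have hpt : ∀ t ∈ Set.Icc (-T) T, ‖∏ i, f i t‖ ≤ Λ ^ r * (1 / 2) ^ m₀ +
      ∑ m : ι → Fin m₀, (E m).indicator (fun _ => c m) t := by
    intro t ht
    rw [norm_prod]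
    have hind : 0 ≤ ∑ m : ι → Fin m₀, (E m).indicator (fun _ => c m) t :=
      Finset.sum_nonneg fun m _ => Set.indicator_nonneg (fun _ _ => hc0 m) t
    by_cases hs : ∃ i, ‖f i t‖ ≤ Λ * (1 / 2) ^ m₀
    · obtain ⟨i, hi⟩ := hs
      have := x6_prod hΛ1 (by positivity) hcard (fun i => ‖f i t‖) (fun i => norm_nonneg _) (fun i => hsup i t) i hi
      linarith
    · push Not at hs
      have h1 := fun i => x6_class hΛ0 (hsup i t) (hs i)
      choose m hm using h1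
      have h2 : t ∈ E m := ⟨ht, Set.mem_iInter.mpr fun i => ⟨(hm i).1, (hm i).2⟩⟩
      have h3 : ∏ i, ‖f i t‖ ≤ c m := Finset.prod_le_prod (fun i _ => norm_nonneg _) fun i _ => (hm i).2
      have h4 := Finset.single_le_sum (f := fun m : ι → Fin m₀ => (E m).indicator (fun _ => c m) t)
        (fun m _ => Set.indicator_nonneg (fun _ _ => hc0 m) t) (mem_univ m)
      have h4' : (E m).indicator (fun _ => c m) t ≤ ∑ m : ι → Fin m₀, (E m).indicator (fun _ => c m) t := h4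
      rw [Set.indicator_of_mem h2] at h4'
      have h5 : 0 ≤ Λ ^ r * (1 / 2 : ℝ) ^ m₀ := by positivity
      linarith
  have hcont : Continuous fun t => ‖∏ i, f i t‖ := (continuous_finsetProd _ fun i _ => (hf i).cont).norm
  have hint1 : ∀ m, Integrable ((E m).indicator (fun _ => c m)) (volume.restrict (Set.Icc (-T) T)) := by
    intro m
    exact (integrable_const (c m)).indicator (hEm m)
  have hmain : ∫ t in Set.Icc (-T) T, ‖∏ i, f i t‖ ≤
      Λ ^ r * (1 / 2) ^ m₀ * (2 * T) + ∑ m : ι → Fin m₀, c m * volume.real (E m) := by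
    have h1 := setIntegral_mono_on (μ := volume) (s := Set.Icc (-T) T) (f := fun t => ‖∏ i, f i t‖)
      (g := fun t => Λ ^ r * (1 / 2) ^ m₀ + ∑ m : ι → Fin m₀, (E m).indicator (fun _ => c m) t)
      (hcont.integrableOn_Icc) ((integrable_const _).add (integrable_finsetSum _ fun m _ => hint1 m))
      measurableSet_Icc hpt
    refine h1.trans (le_of_eq ?_)
    rw [integral_add (integrable_const _) (integrable_finsetSum _ fun m _ => hint1 m),
      integral_finsetSum _ fun m _ => hint1 m]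
    congr 1
    · rw [setIntegral_const, Real.volume_real_Icc_of_le (by linarith), smul_eq_mul]
      ring
    · refine Finset.sum_congr rfl fun m _ => ?_
      rw [integral_indicator_const _ (hEm m), measureReal_restrict_apply (hEm m),
        Set.inter_eq_left.mpr Set.inter_subset_left, smul_eq_mul, mul_comm]
  have hsum : ∑ m : ι → Fin m₀, c m * volume.real (E m) ≤ (m₀ * (2 * Λ)) ^ Fintype.card ι * l ^ C₀ := by
    refine (Finset.sum_le_sum fun m _ => hvol m).trans (le_of_eq ?_)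
    rw [Finset.sum_const, Finset.card_univ, Fintype.card_fun, Fintype.card_fin, nsmul_eq_mul, mul_pow]
    push_cast
    ring_nf
  have hq : (m₀ : ℝ) * (2 * Λ) ≤ l ^ (b + 3) := by
    have e1 : l ^ (b + 3) = l ^ (b + 1) * l * l := by
      rw [show b + 3 = b + 1 + 1 + 1 by ring, Real.rpow_add_one hl0.ne', Real.rpow_add_one hl0.ne']
    rw [e1, hΛ]
    have h1 : (m₀ : ℝ) * (2 * (4 * l ^ (b + 1))) ≤ (7 * l) * (2 * (4 * l ^ (b + 1))) :=
      mul_le_mul_of_nonneg_right hm₀1 (by positivity)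
    have h2 : 0 ≤ l ^ (b + 1) * l := by positivity
    nlinarith
  have hb3 : 1 ≤ l ^ (b + 3) := Real.one_le_rpow hl1 (by linarith)
  have hlC : 1 ≤ l ^ |C₀| := Real.one_le_rpow hl1 (abs_nonneg _)
  have hpw : (l ^ (b + 3)) ^ r = l ^ ((b + 3) * r) := by
    rw [Real.rpow_mul hl0.le, Real.rpow_natCast]
  have h1 : (m₀ * (2 * Λ)) ^ Fintype.card ι * l ^ C₀ ≤ l ^ ((b + 3) * r) * l ^ |C₀| := by
    rw [← hpw]
    refine mul_le_mul ?_ (Real.rpow_le_rpow_of_exponent_le hl1 (le_abs_self _)) (by positivity) (by positivity)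
    calc ((m₀ : ℝ) * (2 * Λ)) ^ Fintype.card ι ≤ (l ^ (b + 3)) ^ Fintype.card ι :=
          pow_le_pow_left₀ (by positivity) hq _
      _ ≤ (l ^ (b + 3)) ^ r := pow_le_pow_right₀ hb3 hcard
  have hΛb : Λ ≤ l ^ (b + 3) := by
    have e1 : l ^ (b + 3) = l ^ (b + 1) * l * l := by
      rw [show b + 3 = b + 1 + 1 + 1 by ring, Real.rpow_add_one hl0.ne', Real.rpow_add_one hl0.ne']
    rw [e1, hΛ]
    nlinarith [mul_nonneg (by positivity : (0 : ℝ) ≤ l ^ (b + 1)) hl0.le]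
  have h2 : Λ ^ r * (1 / 2) ^ m₀ * (2 * T) ≤ l ^ ((b + 3) * r) * l ^ |C₀| := by
    have h3 : (1 / 2 : ℝ) ^ m₀ * (2 * T) ≤ 1 := by
      have h4 : k ^ (-(4 : ℝ)) * (2 * k) ≤ 1 := by
        have h5 : k ^ (-(4 : ℝ)) = (k ^ 4)⁻¹ := by
          rw [Real.rpow_neg hkpos.le]
          norm_cast
        have h6 : (60 : ℝ) ≤ k := by
          have := Real.add_one_le_exp (60 : ℝ)
          linarith
        rw [h5, inv_mul_le_iff₀ (by positivity), mul_one]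
        have h7 : (2 : ℝ) ≤ k ^ 3 := by nlinarith [sq_nonneg k, mul_pos hkpos hkpos]
        nlinarith
      calc (1 / 2 : ℝ) ^ m₀ * (2 * T) ≤ k ^ (-(4 : ℝ)) * (2 * k) :=
            mul_le_mul hm₀2 (by linarith) (by positivity) (by positivity)
        _ ≤ 1 := h4
    calc Λ ^ r * (1 / 2) ^ m₀ * (2 * T) = Λ ^ r * ((1 / 2) ^ m₀ * (2 * T)) := by ring
      _ ≤ Λ ^ r * 1 := mul_le_mul_of_nonneg_left h3 (by positivity)
      _ ≤ (l ^ (b + 3)) ^ r * l ^ |C₀| :=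
          mul_le_mul (pow_le_pow_left₀ hΛ0.le hΛb r) hlC zero_le_one (by positivity)
      _ = _ := by rw [hpw]
  have h3 : l ^ ((b + 3) * r + |C₀| + 1) = l ^ ((b + 3) * r) * l ^ |C₀| * l := by
    rw [Real.rpow_add_one hl0.ne', Real.rpow_add hl0]
  rw [h3]
  have h4 : 0 ≤ l ^ ((b + 3) * r) * l ^ |C₀| := by positivity
  have h5 := hmain.trans (add_le_add h2 (hsum.trans h1))
  nlinarith

end Pool.Agent.Lib.MP_9a8698_nt
end

section

/-!
P4. Blocks of one smooth variable: the bound `C/|t|` for `|t| ≤ X` (Kusmin-Landau), and the fourth moment with a factor `k^θ`.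
These give the hypotheses of `boxL` (P1) and `boxP` (P2).
-/

set_option autoImplicit false

open Finset MeasureTheory

namespace Pool.Agent.Lib.MP_9a8698_nt

open Pool.Agent.Lib.H62

private theorem p4_abel_id (w : ℕ → ℝ) (z : ℕ → ℂ) (a b : ℕ) (hab : a ≤ b) :
    ∑ n ∈ Ico a b, ((w n : ℝ) : ℂ) * z n = ((w b : ℝ) : ℂ) * ∑ n ∈ Ico a b, z n +
      ∑ n ∈ Ico a b, (((w n - w (n + 1) : ℝ)) : ℂ) * ∑ m ∈ Ico a (n + 1), z m := by
  induction b, hab using Nat.le_induction with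
  | base => simp
  | succ b hb ih =>
    rw [sum_Ico_succ_top hb, sum_Ico_succ_top hb, sum_Ico_succ_top hb, ih, sum_Ico_succ_top hb]
    push_cast
    ring

private theorem p4_abel (w : ℕ → ℝ) (z : ℕ → ℂ) (a b : ℕ) (hab : a ≤ b) (E : ℝ)
    (hE : ∀ y, y ≤ b → ‖∑ n ∈ Ico a y, z n‖ ≤ E) :
    ‖∑ n ∈ Ico a b, ((w n : ℝ) : ℂ) * z n‖ ≤
      (|w b| + ∑ n ∈ Ico a b, |w n - w (n + 1)|) * E := by
  rw [p4_abel_id w z a b hab]
  refine (norm_add_le _ _).trans ?_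
  rw [add_mul, sum_mul]
  apply add_le_add
  · rw [norm_mul, Complex.norm_real, Real.norm_eq_abs]
    exact mul_le_mul_of_nonneg_left (hE b le_rfl) (abs_nonneg _)
  · refine (norm_sum_le _ _).trans (sum_le_sum fun n hn => ?_)
    rw [mem_Ico] at hn
    rw [norm_mul, Complex.norm_real, Real.norm_eq_abs]
    exact mul_le_mul_of_nonneg_left (hE (n + 1) (by omega)) (abs_nonneg _)

private theorem p4_tele (w : ℕ → ℝ) (a b : ℕ) (hab : a ≤ b) :
    ∑ n ∈ Ico a b, (w n - w (n + 1)) = w a - w b := by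
  induction b, hab using Nat.le_induction with
  | base => simp
  | succ b hb ih =>
    rw [sum_Ico_succ_top hb, ih]
    ring

private theorem p4_inv (z : ℕ → ℂ) (X : ℝ) (hX : 1 ≤ X) (a b : ℕ) (hXa : X ≤ a) (E : ℝ)
    (hE : ∀ y, y ≤ b → ‖∑ n ∈ Ico a y, z n‖ ≤ E) :
    ‖∑ n ∈ Ico a b, ((1 / n : ℝ) : ℂ) * z n‖ ≤ E / X := by
  have hX0 : 0 < X := by linarith
  have hE0 : 0 ≤ E := (norm_nonneg _).trans (hE 0 (Nat.zero_le _))
  rcases le_total b a with h | hab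
  · rw [Ico_eq_empty_of_le h, sum_empty, norm_zero]
    positivity
  have ha0 : (0 : ℝ) < a := by linarith
  have h1 := p4_abel (fun n => 1 / (n : ℝ)) z a b hab E hE
  refine h1.trans ?_
  have h2 : ∑ n ∈ Ico a b, |1 / (n : ℝ) - 1 / ((n + 1 : ℕ) : ℝ)| =
      ∑ n ∈ Ico a b, (1 / (n : ℝ) - 1 / ((n + 1 : ℕ) : ℝ)) := by
    refine sum_congr rfl fun n hn => abs_of_nonneg ?_
    rw [mem_Ico] at hn
    have hn0 : (0 : ℝ) < n := lt_of_lt_of_le ha0 (by exact_mod_cast hn.1)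
    rw [sub_nonneg]
    apply one_div_le_one_div_of_le hn0
    push_cast
    linarith
  have h3 := p4_tele (fun n => 1 / (n : ℝ)) a b hab
  have h4 : |1 / (b : ℝ)| = 1 / (b : ℝ) := abs_of_nonneg (by positivity)
  have h5 : |1 / (b : ℝ)| + ∑ n ∈ Ico a b, |1 / (n : ℝ) - 1 / ((n + 1 : ℕ) : ℝ)| = 1 / (a : ℝ) := by
    rw [h2, h4]
    linarith
  rw [h5, div_mul_eq_mul_div, one_mul]
  exact div_le_div_of_nonneg_left hE0 hX0 hXa

private theorem p4_log (z : ℕ → ℂ) (X : ℝ) (hX : 1 ≤ X) (a b : ℕ) (hXa : X ≤ a)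
    (hb : (b : ℝ) ≤ 2 * X) (E : ℝ)
    (hE : ∀ y, y ≤ b → ‖∑ n ∈ Ico a y, z n‖ ≤ E) :
    ‖∑ n ∈ Ico a b, ((Real.log n : ℝ) : ℂ) * z n‖ ≤ 2 * (1 + Real.log X) * E := by
  have hX0 : 0 < X := by linarith
  have hlX : 0 ≤ Real.log X := Real.log_nonneg hX
  have hE0 : 0 ≤ E := (norm_nonneg _).trans (hE 0 (Nat.zero_le _))
  rcases le_total b a with h | hab
  · rw [Ico_eq_empty_of_le h, sum_empty, norm_zero]
    positivity
  have ha0 : (0 : ℝ) < a := by linarith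
  have hb0 : (1 : ℝ) ≤ b := by
    have : (a : ℝ) ≤ b := by exact_mod_cast hab
    linarith
  have h1 := p4_abel (fun n => Real.log (n : ℝ)) z a b hab E hE
  refine h1.trans (mul_le_mul_of_nonneg_right ?_ hE0)
  have h2 : ∑ n ∈ Ico a b, |Real.log (n : ℝ) - Real.log ((n + 1 : ℕ) : ℝ)| =
      ∑ n ∈ Ico a b, -(Real.log (n : ℝ) - Real.log ((n + 1 : ℕ) : ℝ)) := by
    refine sum_congr rfl fun n hn => abs_of_nonpos ?_
    rw [mem_Ico] at hn
    have hn0 : (0 : ℝ) < n := lt_of_lt_of_le ha0 (by exact_mod_cast hn.1)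
    rw [sub_nonpos]
    apply Real.log_le_log hn0
    push_cast
    linarith
  have h3 := p4_tele (fun n => Real.log (n : ℝ)) a b hab
  rw [sum_neg_distrib] at h2
  have h4 : |Real.log (b : ℝ)| = Real.log (b : ℝ) := abs_of_nonneg (Real.log_nonneg hb0)
  have h6 : 0 ≤ Real.log (a : ℝ) := Real.log_nonneg (by linarith)
  have h7 : Real.log (b : ℝ) ≤ 1 + Real.log X := by
    calc Real.log (b : ℝ) ≤ Real.log (2 * X) := Real.log_le_log (by linarith) hb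
      _ = Real.log 2 + Real.log X := Real.log_mul (by norm_num) hX0.ne'
      _ ≤ 1 + Real.log X := by
          have := Real.log_two_lt_d9
          linarith
  rw [h2, h4, h3]
  linarith

private theorem p4_ES (t : ℝ) (a y : ℕ) :
    ‖∑ n ∈ Ico a y, Complex.exp (((-(t * Real.log n) : ℝ) : ℂ) * Complex.I)‖ =
      ‖ES (ph t []) a y‖ := by
  have h1 : ‖ES (ph (-t) []) a y‖ = ‖ES (ph t []) a y‖ := by
    rw [norm_ES_abs, norm_ES_abs t, abs_neg]
  rw [← h1]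
  unfold ES
  congr 1
  refine sum_congr rfl fun n _ => ?_
  rw [ph_nil, neg_mul]

private theorem p4_DP_one (t : ℝ) (a b : ℕ) :
    DP (Ico a b) (fun _ => 1) t = ∑ n ∈ Ico a b, ((1 / n : ℝ) : ℂ) *
      Complex.exp (((-(t * Real.log n) : ℝ) : ℂ) * Complex.I) := rfl

private theorem p4_DP_log (t : ℝ) (a b : ℕ) :
    DP (Ico a b) (fun n => Real.log n) t = ∑ n ∈ Ico a b, ((1 / n : ℝ) : ℂ) *
      (((Real.log n : ℝ) : ℂ) * Complex.exp (((-(t * Real.log n) : ℝ) : ℂ) * Complex.I)) := by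
  unfold DP
  refine sum_congr rfl fun n _ => ?_
  rw [← mul_assoc, ← Complex.ofReal_mul]
  congr 2
  ring

theorem block_kl : ∃ C : ℝ, 0 < C ∧ ∀ X t : ℝ, 1 ≤ X → t ≠ 0 → |t| ≤ X → ∀ a b : ℕ, X ≤ a →
    (b : ℝ) ≤ 2 * X → ‖DP (Ico a b) (fun _ => 1) t‖ ≤ C / |t| ∧
      ‖DP (Ico a b) (fun n => Real.log n) t‖ ≤ C * (1 + Real.log X) / |t| := by
  refine ⟨40, by norm_num, fun X t hX ht htX a b ha hb => ?_⟩
  have hX0 : 0 < X := by linarith
  have ht0 : 0 < |t| := abs_pos.mpr ht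
  have hlX : 0 ≤ Real.log X := Real.log_nonneg hX
  have hES : ∀ y, y ≤ b → ‖∑ n ∈ Ico a y, Complex.exp (((-(t * Real.log n) : ℝ) : ℂ) * Complex.I)‖ ≤
      20 * (X / |t|) := by
    intro y hy
    rw [p4_ES, norm_ES_abs]
    refine es_small hX ht0 htX a y ha (le_trans ?_ hb)
    exact_mod_cast hy
  constructor
  · rw [p4_DP_one]
    have h1 := p4_inv (fun n => Complex.exp (((-(t * Real.log n) : ℝ) : ℂ) * Complex.I)) X hX a b ha
      (20 * (X / |t|)) hES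
    refine h1.trans ?_
    have h2 : 20 * (X / |t|) / X = 20 / |t| := by
      have ht1 : |t| ≠ 0 := ht0.ne'
      field_simp
    rw [h2]
    exact div_le_div_of_nonneg_right (by norm_num) ht0.le
  · rw [p4_DP_log]
    have h1 := p4_inv (fun n => ((Real.log n : ℝ) : ℂ) *
      Complex.exp (((-(t * Real.log n) : ℝ) : ℂ) * Complex.I)) X hX a b ha
      (2 * (1 + Real.log X) * (20 * (X / |t|)))
      (fun y hy => by
        have hyb : (y : ℝ) ≤ b := by exact_mod_cast hy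
        exact p4_log _ X hX a y ha (hyb.trans hb) _ (fun y' hy' => hES y' (hy'.trans hy)))
    refine h1.trans (le_of_eq ?_)
    have ht1 : |t| ≠ 0 := ht0.ne'
    field_simp
    ring

theorem fourth_k (θ : ℝ) (hθ : 0 < θ) : ∃ k0 : ℝ, ∀ k : ℝ, k0 ≤ k → ∀ X Y : ℝ, 1 ≤ X → 2 ≤ Y →
    X ≤ Y → Y ≤ k → ∀ a b : ℕ, X ≤ a → (b : ℝ) ≤ 2 * X →
    (∫ t in {t : ℝ | Y ≤ |t| ∧ |t| ≤ 2 * Y}, ‖DP (Ico a b) (fun _ => 1) t‖ ^ 4 ≤
      k ^ θ * Y / X ^ 2) ∧
    (∫ t in {t : ℝ | Y ≤ |t| ∧ |t| ≤ 2 * Y}, ‖DP (Ico a b) (fun n => Real.log n) t‖ ^ 4 ≤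
      k ^ θ * Y / X ^ 2) := by
  obtain ⟨C, hC, h⟩ := block_fourth (θ / 2) (by positivity)
  have hev : ∀ᶠ k : ℝ in Filter.atTop, C ≤ k ^ (θ / 2) :=
    (tendsto_rpow_atTop (by positivity : 0 < θ / 2)).eventually_ge_atTop C
  obtain ⟨k0, hk0⟩ := Filter.eventually_atTop.mp hev
  refine ⟨max k0 1, fun k hk X Y hX hY hXY hYk a b ha hb => ?_⟩
  have hk1 : 1 ≤ k := (le_max_right _ _).trans hk
  have hCk : C ≤ k ^ (θ / 2) := hk0 k ((le_max_left _ _).trans hk)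
  have hk0' : 0 < k := by linarith
  have hY0 : 0 < Y := by linarith
  have hX0 : 0 < X := by linarith
  have hmain : C * Y ^ (1 + θ / 2) / X ^ 2 ≤ k ^ θ * Y / X ^ 2 := by
    apply div_le_div_of_nonneg_right _ (by positivity)
    have h1 : Y ^ (1 + θ / 2) = Y * Y ^ (θ / 2) := by
      rw [Real.rpow_add hY0, Real.rpow_one]
    have h2 : Y ^ (θ / 2) ≤ k ^ (θ / 2) := Real.rpow_le_rpow hY0.le hYk (by positivity)
    have h3 : k ^ θ = k ^ (θ / 2) * k ^ (θ / 2) := by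
      rw [← Real.rpow_add hk0']
      congr 1
      ring
    have h4 : C * Y ^ (θ / 2) ≤ k ^ (θ / 2) * k ^ (θ / 2) :=
      mul_le_mul hCk h2 (by positivity) (by positivity)
    rw [h1, h3]
    nlinarith [h4]
  have h5 := h X Y hX hY hXY a b ha hb
  exact ⟨h5.1.trans hmain, h5.2.trans hmain⟩

end Pool.Agent.Lib.MP_9a8698_nt
end

section

/-!
X7. The bound for one box for `β < 9/11` (S3 `boxA`, P1, P2, P3, X1, X6 may be used, `sorry` or not).

PROOF. As the proof of `box` in S5 (copy its preliminaries: `x i = e i log 2/log k`, `hx1`, `hxI`, `hprodN`, `hDP`, `s5_M`, ...; the private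
lemmas of S5 have to be copied). Note `2^(e i) = k^(x i)`, `2^(e i+1) = 2 k^(x i)`. Use `tri` (P3).
(A) a set `I` with `β+θ ≤ ∑_I x ≤ 1-θ`: `boxA`, literally as in S5.
(0) a single `i1` with `x i1 > 1-θ`: `i1 ∈ Sm` (else `x i1 ≤ 2/11 < 1-θ`), `i1 ≠ i0` (`x i0 ≤ β+θ < 1-θ`). `boxL` with `f = f i1`,
`R = ∏_{i ≠ i1} f i`, `N = ∏_{i≠i1} 2^(e i) ≥ 2^(e i0) ≥ k^(η/2)`; on `Tm`, `1 ≤ |t| ≤ k^(β+θ/2) ≤ k^(1-θ) ≤ 2^(e i1)`, so `hsm1` gives
`‖f i1 t‖ ≤ ℓ^b/|t|`. The factor `Wf` is at most `1 + ℓ` (`Wf_le`), absorbed by the power saving.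
(2) all singles light and a pair `i1 ≠ i2` with `x i1 + x i2 > 1-θ`; w.l.o.g. `x i2 ≤ x i1` (swap). `x i2 > 1-θ-x i1 > 1-2θ-β ≥ 2/11`,
so both are in `Sm`. `boxP` with `X1 = 2^(e i1)`, `X2 = 2^(e i2)`, `R = ∏_{i ≠ i1, i2} f i`, `N = ∏ 2^(e i)` over `i ≠ i1, i2`. Again `Wf ≤ 1+ℓ`.
(3) otherwise: `level3` gives `∫_{|t| ≤ k^(β+θ/2)} ‖∏ f i‖ ≤ ℓ^C` (so the same on `Tm`, which is contained in this interval), and on `Tm`
`‖∏ f i t‖ ≤ k^(-c) (4ℓ^(b+1))^r ≤ k^(-c/2)` as in (A) of S5; conclude by `boxW` with `c/2`, `C`.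
-/

set_option autoImplicit false

open Finset MeasureTheory

namespace Pool.Agent.Lib.MP_9a8698_nt

private lemma x7_growth (K s : ℝ) {σ : ℝ} (hK : 0 < K) (hσ : 0 < σ) :
    ∃ k0 : ℝ, ∀ k : ℝ, k0 ≤ k → K * Real.log k ^ s ≤ k ^ σ := by
  have h := (isLittleO_log_rpow_rpow_atTop s hσ).def (inv_pos.2 hK)
  obtain ⟨k0, hk0⟩ := Filter.eventually_atTop.1 (h.and (Filter.eventually_ge_atTop (1 : ℝ)))
  refine ⟨k0, fun k hk => ?_⟩
  obtain ⟨h1, h2⟩ := hk0 k hk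
  rw [Real.norm_eq_abs, Real.norm_eq_abs, abs_of_nonneg (Real.rpow_nonneg (by linarith) σ)] at h1
  have h3 : Real.log k ^ s ≤ K⁻¹ * k ^ σ := (le_abs_self _).trans h1
  calc K * Real.log k ^ s ≤ K * (K⁻¹ * k ^ σ) := mul_le_mul_of_nonneg_left h3 hK.le
    _ = k ^ σ := by rw [← mul_assoc, mul_inv_cancel₀ hK.ne', one_mul]

private lemma x7_mono {r : ℕ} {B B' N M : ℝ} {f : ℝ → ℂ} (h : IsDP r B N M f) (hB : B ≤ B') :
    IsDP r B' N M f := by
  obtain ⟨s, c, h1, h2⟩ := h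
  exact ⟨s, c, fun n hn => ⟨(h1 n hn).1, (h1 n hn).2.1, (h1 n hn).2.2.1,
    (h1 n hn).2.2.2.trans (mul_le_mul_of_nonneg_right hB (dd_nonneg r n))⟩, h2⟩

private lemma x7_pow {k : ℝ} (hk : 1 < k) (n : ℕ) :
    (2 : ℝ) ^ n = k ^ ((n : ℝ) * Real.log 2 / Real.log k) := by
  have hl := Real.log_pos hk
  rw [Real.rpow_def_of_pos (by linarith), mul_div_cancel₀ _ hl.ne', Real.exp_nat_mul,
    Real.exp_log (by norm_num)]

private lemma x7_sum {ι : Type} (e : ι → ℕ) {k : ℝ} (hk : 1 < k) (I : Finset ι) :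
    (2 : ℝ) ^ (∑ i ∈ I, e i) = k ^ (∑ i ∈ I, (e i : ℝ) * Real.log 2 / Real.log k) := by
  rw [x7_pow hk]
  congr 1
  push_cast
  rw [Finset.sum_mul, Finset.sum_div]

private lemma x7_M {ι : Type} [Fintype ι] (e : ι → ℕ) {k : ℝ} (hk : 1 < k) (I : Finset ι)
    {r : ℕ} (hr : Fintype.card ι ≤ r) (h1 : (2 : ℝ) ^ (∑ i, e i) ≤ k ^ (2 : ℝ))
    (h2 : (2 : ℝ) ^ r ≤ k ^ (2 : ℝ)) :
    1 ≤ ∏ i ∈ I, (2 : ℝ) ^ (e i + 1) ∧ ∏ i ∈ I, (2 : ℝ) ^ (e i + 1) ≤ k ^ (4 : ℝ) := by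
  have e1 : ∏ i ∈ I, (2 : ℝ) ^ (e i + 1) = (2 : ℝ) ^ (∑ i ∈ I, (e i + 1)) :=
    Finset.prod_pow_eq_pow_sum _ _ _
  rw [e1]
  refine ⟨one_le_pow₀ (by norm_num), ?_⟩
  have e2 : ∑ i ∈ I, (e i + 1) ≤ ∑ i, e i + r := by
    rw [Finset.sum_add_distrib, Finset.sum_const, smul_eq_mul, mul_one]
    have h3 : ∑ i ∈ I, e i ≤ ∑ i, e i :=
      Finset.sum_le_sum_of_subset (Finset.subset_univ I)
    have h4 : #I ≤ Fintype.card ι := Finset.card_le_univ I
    omega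
  calc (2 : ℝ) ^ (∑ i ∈ I, (e i + 1)) ≤ 2 ^ (∑ i, e i + r) :=
        pow_le_pow_right₀ (by norm_num) e2
    _ = 2 ^ (∑ i, e i) * 2 ^ r := pow_add _ _ _
    _ ≤ k ^ (2 : ℝ) * k ^ (2 : ℝ) :=
        mul_le_mul h1 h2 (by positivity) (Real.rpow_nonneg (by linarith) _)
    _ = k ^ (4 : ℝ) := by
        rw [← Real.rpow_add (by linarith)]
        norm_num

private lemma x7_B {ℓ b : ℝ} (hℓ : 1 ≤ ℓ) (hb : 0 ≤ b) {n r : ℕ} (hn : n ≤ r) :
    (ℓ ^ b) ^ n ≤ ℓ ^ (b * r + b) := by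
  rw [← Real.rpow_natCast (ℓ ^ b) n, ← Real.rpow_mul (by linarith)]
  refine Real.rpow_le_rpow_of_exponent_le hℓ ?_
  have h1 : (n : ℝ) ≤ r := by exact_mod_cast hn
  have h2 := mul_le_mul_of_nonneg_left h1 hb
  linarith

private lemma x7_end {k ε₁ ε₂ δ T c' A : ℝ} (hk3 : 3 ≤ k) (hε : 0 < ε₁) (hε1 : ε₂ ≤ 1)
    (hl : 1 ≤ Real.log k) (F : ℝ → ℂ) (hF : Continuous F)
    (h : ∫ t in Tm k δ T, ‖F t‖ ≤ k ^ (-c'))
    (hg : 2 * Real.log k ^ (A + 1) ≤ k ^ c') :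
    ∫ t in Tm k δ T, ‖Wf k ε₁ ε₂ t * F t‖ ≤ (Real.log k) ^ (-A) := by
  obtain ⟨ℓ, hℓdef⟩ : ∃ ℓ : ℝ, ℓ = Real.log k := ⟨_, rfl⟩
  rw [← hℓdef] at hl hg ⊢
  have hk0' : 0 < k := by linarith
  have hℓ0 : 0 < ℓ := by linarith
  have hW : ∀ t, ‖Wf k ε₁ ε₂ t‖ ≤ 1 + ℓ := fun t => by
    rw [hℓdef]
    exact Wf_le k ε₁ ε₂ t hk3 hε hε1
  have hpt : ∀ t, ‖Wf k ε₁ ε₂ t * F t‖ ≤ (1 + ℓ) * ‖F t‖ := by
    intro t
    rw [norm_mul]
    exact mul_le_mul_of_nonneg_right (hW t) (norm_nonneg _)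
  have hint : IntegrableOn (fun t => (1 + ℓ) * ‖F t‖) (Tm k δ T) := by
    have hc1 : Continuous fun t => (1 + ℓ) * ‖F t‖ := continuous_const.mul hF.norm
    refine (hc1.continuousOn.integrableOn_Icc (a := -k ^ T) (b := k ^ T)).mono_set fun t ht => ?_
    exact abs_le.1 ht.2
  have h1 := integral_mono_of_nonneg (μ := volume.restrict (Tm k δ T))
    (Filter.Eventually.of_forall fun t => norm_nonneg (Wf k ε₁ ε₂ t * F t)) hint
    (Filter.Eventually.of_forall hpt)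
  refine h1.trans ?_
  rw [integral_const_mul]
  have h2 := mul_le_mul_of_nonneg_left h (by linarith : (0 : ℝ) ≤ 1 + ℓ)
  refine h2.trans ?_
  have hkc : 0 < k ^ c' := Real.rpow_pos_of_pos hk0' _
  rw [Real.rpow_neg hk0'.le, Real.rpow_neg hℓ0.le, ← div_eq_mul_inv, div_le_iff₀ hkc]
  have h4 : 2 * ℓ ^ (A + 1) = 2 * ℓ * ℓ ^ A := by
    rw [Real.rpow_add hℓ0, Real.rpow_one]
    ring
  rw [h4] at hg
  have hA : 0 < ℓ ^ A := Real.rpow_pos_of_pos hℓ0 _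
  have h5 := mul_le_mul_of_nonneg_left hg (inv_pos.2 hA).le
  have h6 : (ℓ ^ A)⁻¹ * (2 * ℓ * ℓ ^ A) = 2 * ℓ := by
    field_simp
  rw [h6] at h5
  linarith

theorem box11 (β θ η ε₁ ε₂ δ c b A : ℝ) (r : ℕ) (hβ : 0 < β) (hθ : 0 < θ)
    (hβ2 : β ≤ 9 / 11 - 20 * θ) (hη : 0 < η) (hη1 : η ≤ 1) (hε : 0 < ε₁) (hε₂ : ε₁ < ε₂)
    (hε1 : ε₂ ≤ 1) (hδ : 0 < δ) (hc : 0 < c) (hb : 0 ≤ b) :
    ∃ k0 : ℝ, ∀ k : ℝ, k0 ≤ k → ∀ (ι : Type) [Fintype ι] [DecidableEq ι] (e : ι → ℕ)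
      (f : ι → ℝ → ℂ) (i0 : ι) (Sm : Finset ι), Fintype.card ι ≤ r → i0 ∈ Sm →
      (∀ i, IsDP 1 ((Real.log k) ^ b) ((2 : ℝ) ^ e i) ((2 : ℝ) ^ (e i + 1)) (f i)) →
      (∀ i ∈ Sm, ∀ t, 1 ≤ |t| → |t| ≤ (2 : ℝ) ^ e i → ‖f i t‖ ≤ (Real.log k) ^ b / |t|) →
      (∀ i ∈ Sm, ∀ Y : ℝ, 2 ≤ Y → (2 : ℝ) ^ e i ≤ Y → Y ≤ k →
        ∫ t in {t : ℝ | Y ≤ |t| ∧ |t| ≤ 2 * Y}, ‖f i t‖ ^ 4 ≤ k ^ θ * Y / ((2 : ℝ) ^ e i) ^ 2) →
      (∀ i, i ∉ Sm → (2 : ℝ) ^ e i ≤ k ^ ((2 : ℝ) / 11)) →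
      (∀ t ∈ Tm k δ (β + θ / 2), ‖f i0 t‖ ≤ k ^ (-c)) →
      k ^ (η / 2) ≤ (2 : ℝ) ^ e i0 → (2 : ℝ) ^ e i0 ≤ k ^ (β + θ) →
      k ^ (1 + β - θ / 4) ≤ (2 : ℝ) ^ (∑ i, e i) → (2 : ℝ) ^ (∑ i, e i) ≤ k ^ (1 + β + θ / 4) →
      ∫ t in Tm k δ (β + θ / 2), ‖Wf k ε₁ ε₂ t * ∏ i, f i t‖ ≤ (Real.log k) ^ (-A) := by
  have hb' : 0 ≤ b * r + b := by positivity
  obtain ⟨kA, hkA⟩ := boxA β θ ε₁ ε₂ δ (c / 2) (b * r + b) A r hβ hθ (by linarith) hε hε₂ hε1 hδ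
    (by linarith) hb'
  obtain ⟨cL, kL, hcL, hkL⟩ := boxL β θ δ η (b * r + b) r hβ hθ (by linarith) hδ hη hb'
  obtain ⟨cP, kP, hcP, hkP⟩ := boxP β θ δ (b * r + b) r hβ hθ hβ2 hδ hb'
  obtain ⟨C3, kC, hkC⟩ := level3 β θ b r hβ hθ hβ2 hb
  obtain ⟨kW, hkW⟩ := boxW β θ ε₁ ε₂ δ (c / 2) A C3 hβ hθ (by linarith) hε hε₂ hε1 hδ
    (by linarith)
  obtain ⟨k1, hk1⟩ := x7_growth (4 ^ r) ((b + 1) * r) (σ := c / 2) (by positivity) (by linarith)
  obtain ⟨k2, hk2⟩ := x7_growth 2 (A + 1) (σ := cL) (by norm_num) hcL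
  obtain ⟨k3, hk3⟩ := x7_growth 2 (A + 1) (σ := cP) (by norm_num) hcP
  refine ⟨max kA (max kL (max kP (max kC (max kW (max k1 (max k2 (max k3
    (max (Real.exp 1) (2 ^ r + 3))))))))), ?_⟩
  intro k hk ι _ _ e f i0 Sm hcard hi0 hf hsm1 hsm4 hnsm hf0 he0 he0' hS hS'
  simp only [max_le_iff] at hk
  obtain ⟨qA, qL, qP, qC, qW, q1, q2, q3, q4, q5⟩ := hk
  have hk3' : 3 ≤ k := by
    have : (0 : ℝ) < 2 ^ r := by positivity
    linarith
  have hk2' : 2 ≤ k := by linarith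
  have hk1' : 1 < k := by linarith
  have hk0' : 0 < k := by linarith
  obtain ⟨ℓ, hℓdef⟩ : ∃ ℓ : ℝ, ℓ = Real.log k := ⟨_, rfl⟩
  have hℓ : 1 ≤ ℓ := by
    rw [hℓdef]
    exact (Real.le_log_iff_exp_le hk0').2 q4
  have hℓ' : 1 ≤ Real.log k := by rw [← hℓdef]; exact hℓ
  have hℓ0 : 0 < ℓ := by linarith
  obtain ⟨x, hx⟩ : ∃ x : ι → ℝ, x = fun i => (e i : ℝ) * Real.log 2 / Real.log k := ⟨_, rfl⟩
  have hlog2 : 0 < Real.log 2 := Real.log_pos (by norm_num)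
  have hx0 : ∀ i, 0 ≤ x i := fun i => by
    rw [hx, ← hℓdef]
    positivity
  have hxI : ∀ I : Finset ι, (2 : ℝ) ^ (∑ i ∈ I, e i) = k ^ (∑ i ∈ I, x i) := fun I => by
    rw [hx]
    exact x7_sum e hk1' I
  have hx1 : ∀ i, (2 : ℝ) ^ e i = k ^ x i := fun i => by
    rw [hx]
    exact x7_pow hk1' (e i)
  have hle : ∀ a b : ℝ, k ^ a ≤ k ^ b ↔ a ≤ b := fun a b => Real.rpow_le_rpow_left_iff hk1'
  have hT : |∑ i, x i - (1 + β)| ≤ θ / 4 := by
    rw [hxI, hle] at hS hS'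
    rw [abs_le]
    constructor <;> linarith
  have hS2 : (2 : ℝ) ^ (∑ i, e i) ≤ k ^ (2 : ℝ) := by
    refine hS'.trans ?_
    rw [hle]
    linarith
  have hr2 : (2 : ℝ) ^ r ≤ k ^ (2 : ℝ) := by
    have h1 : k ^ (1 : ℝ) ≤ k ^ (2 : ℝ) := by
      rw [hle]
      norm_num
    rw [Real.rpow_one] at h1
    linarith
  have hprodN : ∀ I : Finset ι, ∏ i ∈ I, (2 : ℝ) ^ e i = k ^ (∑ i ∈ I, x i) := fun I => by
    rw [Finset.prod_pow_eq_pow_sum, hxI]
  have hN1 : ∀ I : Finset ι, 1 ≤ ∏ i ∈ I, (2 : ℝ) ^ e i := fun I => by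
    rw [Finset.prod_pow_eq_pow_sum]
    exact one_le_pow₀ (by norm_num)
  have hℓb : 0 ≤ ℓ ^ b := Real.rpow_nonneg hℓ0.le _
  have hcardI : ∀ I : Finset ι, #I ≤ r := fun I => (Finset.card_le_univ I).trans hcard
  have hDP : ∀ I : Finset ι, IsDP (#I) (Real.log k ^ (b * r + b)) (∏ i ∈ I, (2 : ℝ) ^ e i)
      (∏ i ∈ I, (2 : ℝ) ^ (e i + 1)) (fun t => ∏ i ∈ I, f i t) := by
    intro I
    rw [← hℓdef]
    refine x7_mono (IsDP.prod I hℓb (fun i => (2 : ℝ) ^ e i) (fun i => (2 : ℝ) ^ (e i + 1)) f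
      (fun i _ => by positivity) (fun i _ => ?_)) (x7_B hℓ hb (hcardI I))
    rw [hℓdef]
    exact hf i
  have hbb : ℓ ^ b ≤ ℓ ^ (b * r + b) := by
    refine Real.rpow_le_rpow_of_exponent_le hℓ ?_
    have : 0 ≤ b * (r : ℝ) := by positivity
    linarith
  have hDP1 : ∀ i, IsDP 1 (Real.log k ^ (b * r + b)) ((2 : ℝ) ^ e i) (2 * (2 : ℝ) ^ e i) (f i) := by
    intro i
    have h1 := hf i
    rw [pow_succ, mul_comm] at h1
    rw [← hℓdef] at h1 ⊢
    exact x7_mono h1 hbb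
  have hsm1' : ∀ i ∈ Sm, ∀ t, 1 ≤ |t| → |t| ≤ (2 : ℝ) ^ e i →
      ‖f i t‖ ≤ (Real.log k) ^ (b * r + b) / |t| := by
    intro i hi t ht ht'
    refine (hsm1 i hi t ht ht').trans ?_
    rw [← hℓdef]
    gcongr
  have hcont : ∀ i, Continuous (f i) := fun i => (hf i).cont
  have hcontI : ∀ I : Finset ι, Continuous fun t => ∏ i ∈ I, f i t := fun I =>
    continuous_finsetProd I fun i _ => hcont i
  -- the pointwise bound
  have hptw : ∀ t ∈ Tm k δ (β + θ / 2), ‖∏ i, f i t‖ ≤ k ^ (-(c / 2)) := by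
    intro t ht
    rw [← Finset.mul_prod_erase Finset.univ _ (Finset.mem_univ i0), norm_mul, norm_prod]
    obtain ⟨D, hD⟩ : ∃ D : ℝ, D = 4 * ℓ ^ (b + 1) := ⟨_, rfl⟩
    have hD1 : 1 ≤ D := by
      rw [hD]
      have h1 : (1 : ℝ) ≤ ℓ ^ (b + 1) := Real.one_le_rpow hℓ (by linarith)
      linarith
    have hfi : ∀ i, ‖f i t‖ ≤ D := by
      intro i
      have h1 := (hf i).sup (one_le_pow₀ (by norm_num)) (by rw [← hℓdef]; exact hℓb) t
      rw [← hℓdef, pow_one] at h1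
      refine h1.trans ?_
      have h2 : (2 : ℝ) ^ (e i + 1) ≤ k ^ (3 : ℝ) := by
        have h3 : (2 : ℝ) ^ e i ≤ 2 ^ (∑ i, e i) :=
          pow_le_pow_right₀ (by norm_num)
            (Finset.single_le_sum (f := e) (fun _ _ => Nat.zero_le _) (Finset.mem_univ i))
        have h4 : k ^ (3 : ℝ) = k ^ (2 : ℝ) * k := by
          rw [show (3 : ℝ) = 2 + 1 by norm_num, Real.rpow_add hk0', Real.rpow_one]
        rw [h4, pow_succ]
        exact mul_le_mul (h3.trans hS2) hk2' (by norm_num) (Real.rpow_nonneg hk0'.le _)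
      have h5 : Real.log ((2 : ℝ) ^ (e i + 1)) ≤ 3 * ℓ := by
        have h6 := Real.log_le_log (by positivity) h2
        rw [Real.log_rpow hk0', ← hℓdef] at h6
        exact h6
      have h7 : 1 + Real.log ((2 : ℝ) ^ (e i + 1)) ≤ 4 * ℓ := by linarith
      calc ℓ ^ b * (1 + Real.log ((2 : ℝ) ^ (e i + 1))) ≤ ℓ ^ b * (4 * ℓ) :=
            mul_le_mul_of_nonneg_left h7 hℓb
        _ = D := by
            rw [hD, Real.rpow_add hℓ0, Real.rpow_one]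
            ring
    have hprod : ∏ i ∈ Finset.univ.erase i0, ‖f i t‖ ≤ D ^ r := by
      calc ∏ i ∈ Finset.univ.erase i0, ‖f i t‖ ≤ ∏ _i ∈ Finset.univ.erase i0, D :=
            Finset.prod_le_prod (fun i _ => norm_nonneg _) (fun i _ => hfi i)
        _ = D ^ #(Finset.univ.erase i0) := Finset.prod_const D
        _ ≤ D ^ r := pow_le_pow_right₀ hD1 (hcardI _)
    have hDr : D ^ r ≤ k ^ (c / 2) := by
      have h1 := hk1 k q1
      rw [← hℓdef] at h1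
      refine le_trans (le_of_eq ?_) h1
      rw [hD, mul_pow, ← Real.rpow_natCast (ℓ ^ (b + 1)) r, ← Real.rpow_mul hℓ0.le]
    calc ‖f i0 t‖ * ∏ i ∈ Finset.univ.erase i0, ‖f i t‖ ≤ k ^ (-c) * D ^ r :=
          mul_le_mul (hf0 t ht) hprod (Finset.prod_nonneg fun i _ => norm_nonneg _)
            (Real.rpow_nonneg hk0'.le _)
      _ ≤ k ^ (-c) * k ^ (c / 2) :=
          mul_le_mul_of_nonneg_left hDr (Real.rpow_nonneg hk0'.le _)
      _ = k ^ (-(c / 2)) := by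
          rw [← Real.rpow_add hk0']
          congr 1
          ring
  have hT' := abs_le.1 hT
  have hx0' : x i0 ≤ β + θ := by
    rw [hx1, hle] at he0'
    exact he0'
  have hx0'' : η / 2 ≤ x i0 := by
    rw [hx1, hle] at he0
    exact he0
  rcases tri x β θ with ⟨I, hI1, hI2⟩ | ⟨i1, hi1⟩ | ⟨hlt, i1, i2, h12, hpair⟩ | ⟨hlh, hp⟩
  · -- two long factors
    have hcompl : ∑ i ∈ I, x i + ∑ i ∈ Iᶜ, x i = ∑ i, x i := Finset.sum_add_sum_compl I x
    have hM1 := x7_M e hk1' I hcard hS2 hr2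
    have hM2 := x7_M e hk1' Iᶜ hcard hS2 hr2
    have hmain := hkA k qA (#I) (#Iᶜ) (∏ i ∈ I, (2 : ℝ) ^ e i) (∏ i ∈ Iᶜ, (2 : ℝ) ^ e i)
      (∏ i ∈ I, (2 : ℝ) ^ (e i + 1)) (∏ i ∈ Iᶜ, (2 : ℝ) ^ (e i + 1))
      (fun t => ∏ i ∈ I, f i t) (fun t => ∏ i ∈ Iᶜ, f i t) (hcardI I) (hcardI Iᶜ) (hDP I)
      (hDP Iᶜ) (by rw [hprodN, hle]; linarith) (by rw [hprodN, hle]; linarith) hM1.1 hM2.1
      hM1.2 hM2.2 (fun t ht => by
        rw [Finset.prod_mul_prod_compl]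
        exact hptw t ht)
    refine le_trans (le_of_eq ?_) hmain
    refine integral_congr_ae (Filter.Eventually.of_forall fun t => ?_)
    simp only
    rw [Finset.prod_mul_prod_compl]
  · -- one very long smooth variable
    have hi1S : i1 ∈ Sm := by
      by_contra hn
      have h1 := hnsm i1 hn
      rw [hx1, hle] at h1
      linarith
    have h01 : i0 ≠ i1 := by
      intro h
      rw [h] at hx0'
      linarith
    obtain ⟨J, hJ⟩ : ∃ J : Finset ι, J = Finset.univ.erase i1 := ⟨_, rfl⟩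
    have hM := x7_M e hk1' J hcard hS2 hr2
    have h0J : i0 ∈ J := by
      rw [hJ, Finset.mem_erase]
      exact ⟨h01, Finset.mem_univ _⟩
    have hmain := hkL k qL (#J) (∏ i ∈ J, (2 : ℝ) ^ e i) (∏ i ∈ J, (2 : ℝ) ^ (e i + 1))
      (f i1) (fun t => ∏ i ∈ J, f i t) (hcardI J) (hcont i1) (hDP J) (hN1 J) hM.1 hM.2
      (by
        rw [hprodN, hle]
        have h1 : x i0 ≤ ∑ i ∈ J, x i := Finset.single_le_sum (fun i _ => hx0 i) h0J
        linarith)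
      (fun t ht => by
        refine hsm1' i1 hi1S t ?_ ?_
        · exact (Real.one_le_rpow hk1'.le hδ.le).trans ht.1
        · rw [hx1]
          refine ht.2.trans ?_
          rw [hle]
          linarith)
    have e1 : ∀ t, f i1 t * ∏ i ∈ J, f i t = ∏ i, f i t := fun t => by
      rw [hJ]
      exact Finset.mul_prod_erase Finset.univ (fun i => f i t) (Finset.mem_univ i1)
    simp only [e1] at hmain
    exact x7_end hk3' hε hε1 hℓ' (fun t => ∏ i, f i t) (hcontI _) hmain (hk2 k q2)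
  · -- a heavy pair
    have key : ∀ i1 i2 : ι, i1 ≠ i2 → 1 - θ < x i1 + x i2 → x i2 ≤ x i1 →
        ∫ t in Tm k δ (β + θ / 2), ‖Wf k ε₁ ε₂ t * ∏ i, f i t‖ ≤ (Real.log k) ^ (-A) := by
      intro i1 i2 h12 hpair h21
      have hb1 := hlt i1
      have hi2S : i2 ∈ Sm := by
        by_contra hn
        have h1 := hnsm i2 hn
        rw [hx1, hle] at h1
        linarith
      have hi1S : i1 ∈ Sm := by
        by_contra hn
        have h1 := hnsm i1 hn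
        rw [hx1, hle] at h1
        linarith
      obtain ⟨J, hJ⟩ : ∃ J : Finset ι, J = (Finset.univ.erase i1).erase i2 := ⟨_, rfl⟩
      have hM := x7_M e hk1' J hcard hS2 hr2
      have hmem2 : i2 ∈ Finset.univ.erase i1 := by
        rw [Finset.mem_erase]
        exact ⟨Ne.symm h12, Finset.mem_univ _⟩
      have hsplit : x i1 + (x i2 + ∑ i ∈ J, x i) = ∑ i, x i := by
        rw [hJ, Finset.add_sum_erase _ x hmem2]
        exact Finset.add_sum_erase Finset.univ x (Finset.mem_univ i1)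
      have hmain := hkP k qP (#J) (∏ i ∈ J, (2 : ℝ) ^ e i) (∏ i ∈ J, (2 : ℝ) ^ (e i + 1))
        ((2 : ℝ) ^ e i1) ((2 : ℝ) ^ e i2) (f i1) (f i2) (fun t => ∏ i ∈ J, f i t) (hcardI J)
        (hDP1 i1) (hDP1 i2) (hDP J) (hN1 J) hM.1 hM.2
        (by rw [hx1, hle]; linarith) (by rw [hx1, hx1, hle]; exact h21)
        (by
          rw [hx1]
          calc k ^ x i1 ≤ k ^ (1 : ℝ) := by rw [hle]; linarith
            _ = k := Real.rpow_one k)
        (by rw [hx1, hx1, ← Real.rpow_add hk0', hle]; linarith)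
        (by
          rw [hx1, hx1, hprodN, ← Real.rpow_add hk0', ← Real.rpow_add hk0', hle]
          linarith)
        (hsm1' i1 hi1S) (hsm4 i1 hi1S) (hsm4 i2 hi2S)
      have e1 : ∀ t, f i1 t * f i2 t * ∏ i ∈ J, f i t = ∏ i, f i t := fun t => by
        rw [hJ, mul_assoc, Finset.mul_prod_erase _ (fun i => f i t) hmem2]
        exact Finset.mul_prod_erase Finset.univ (fun i => f i t) (Finset.mem_univ i1)
      simp only [e1] at hmain
      exact x7_end hk3' hε hε1 hℓ' (fun t => ∏ i, f i t) (hcontI _) hmain (hk3 k q3)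
    rcases le_total (x i2) (x i1) with h | h
    · exact key i1 i2 h12 hpair h
    · exact key i2 i1 (Ne.symm h12) (by linarith) h
  · -- all pairs light
    have h3 := hkC k qC ι x f hcard hx0 (fun i => by
      have h1 := hf i
      rw [pow_succ, mul_comm, hx1] at h1
      exact h1) hT hlh hp
    have hsub : Tm k δ (β + θ / 2) ⊆ Set.Icc (-k ^ (β + θ / 2)) (k ^ (β + θ / 2)) :=
      fun t ht => abs_le.1 ht.2
    have h4 : ∫ t in Tm k δ (β + θ / 2), ‖∏ i, f i t‖ ≤ (Real.log k) ^ C3 := by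
      refine le_trans ?_ h3
      refine setIntegral_mono_set ?_ (Filter.Eventually.of_forall fun t => norm_nonneg _)
        (LE.le.eventuallyLE hsub)
      exact (hcontI _).norm.continuousOn.integrableOn_compact isCompact_Icc
    exact hkW k qW (fun t => ∏ i, f i t) (hcontI _) hptw h4

end Pool.Agent.Lib.MP_9a8698_nt
end

section

/-!
H6. The integral of the sum of boxes over the middle range (A4, E2, H4, P4, X7 may be used).

PROOF. `Gf` is the sum over `j ≤ 11` and `e ∈ Ej` (at most `11 (JK k + 1)^23 ≤ (log k)^24` terms for large `k`) of `hbc j` (at most 462 in absolute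
value) times `∏ i, f i`, `f i = DP (Ico (2^(e i)) (2^(e i + 1))) (cf k μ lam j i)`. Apply `box11` (X7) with `ι = ix j`, `r = 23`,
`i0 = Sum.inl ()` (the variable `m`), `Sm = ` all indices except the `Fin j` part (the Moebius variables), exponent `A + 20`, a suitable
`b` (e.g. `b = 3`: for large `k`, `1 + log (2^(e+1)) ≤ 3 log k` and the constants are absorbed), and a suitable `c > 0`. If one of the blocks is
identically zero, the product is `0` and there is nothing to prove; use this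
* for the Moebius variables: if `2^(e i) > k^(2/11)` the block of `muz (zK k)` is zero;
* for `m`: if `2^(e i0 + 1) ≤ k^μ` or `2^(e i0) > k^(μ+lam)` the block of `mA` is zero. Otherwise
  `2^(e i0) ≥ k^η/2 ≥ k^(η/2)` and `2^(e i0) ≤ k^(β+2ε₂) ≤ k^(β+θ)`.
Hypotheses of `box`: `IsDP 1 B (2^e) (2^(e+1))`: `IsDP.of_bound` with `|cf| ≤ 1 + log n` (the elements of `Ico` are `≤ 2^(e+1)`). The bounds for the
smooth variables: `block_kl` and `fourth_k` (for `zR` and `mA`: the block of `mA` is `DP (Ico a b) 1` with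
`[a,b) = [2^e, 2^(e+1)) ∩ (⌊k^μ⌋, ⌊k^(μ+lam)⌋]`); `X = 2^e`. The power saving for `i0`: `block_pow` with `K = ⌈4/η⌉` (`|t| ≤ k^(β+θ/2) ≤ k ≤ (2^(e i0))^K` as
`2^(e i0) ≥ k^(η/2)`), giving `C (k^(-ηδ'/2) + k^(-δ)) ≤ k^(-c)`.
-/

set_option autoImplicit false

open Finset MeasureTheory

namespace Pool.Agent.Lib.MP_9a8698_nt

private theorem h6_card (j : ℕ) (hj : 1 ≤ j) (hj8 : j ≤ 11) : Fintype.card (ix j) ≤ 23 := by
  simp only [Fintype.card_sum, Fintype.card_fin, Fintype.card_unit]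
  omega

private theorem h6_JK {k : ℝ} (hk : 1 ≤ k) {e : ℕ} (he : e < JK k + 1) :
    (2 : ℝ) ^ e ≤ k ^ 2 := by
  have hk0 : 0 < k := by linarith
  have hlb : 0 ≤ 2 * Real.logb 2 k := by
    have := Real.logb_nonneg (b := 2) (by norm_num) hk
    linarith
  have h1 : (e : ℝ) ≤ 2 * Real.logb 2 k := by
    have h2 : e ≤ ⌊2 * Real.logb 2 k⌋₊ := by
      have : JK k = ⌊2 * Real.logb 2 k⌋₊ := rfl
      omega
    exact (Nat.le_floor_iff hlb).1 h2
  calc (2 : ℝ) ^ e = (2 : ℝ) ^ (e : ℝ) := (Real.rpow_natCast 2 e).symm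
    _ ≤ (2 : ℝ) ^ (2 * Real.logb 2 k) := Real.rpow_le_rpow_of_exponent_le (by norm_num) h1
    _ = ((2 : ℝ) ^ (Real.logb 2 k)) ^ (2 : ℝ) := by
        rw [mul_comm, Real.rpow_mul (by norm_num)]
    _ = k ^ 2 := by
        rw [Real.rpow_logb (by norm_num) (by norm_num) hk0]
        exact Real.rpow_two k

private theorem h6_ne {s : Finset ℕ} {c : ℕ → ℝ} {t : ℝ} (h : DP s c t ≠ 0) :
    ∃ n ∈ s, c n ≠ 0 := by
  unfold DP at h
  obtain ⟨n, hn, h1⟩ := exists_ne_zero_of_sum_ne_zero h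
  refine ⟨n, hn, fun h2 => h1 ?_⟩
  rw [h2]
  simp

private theorem h6_mA_apply (k μ lam : ℝ) (n : ℕ) :
    mA k μ lam n = if n ∈ Ms k μ (μ + lam) ∧ n ≠ 0 then 1 else 0 := rfl

private theorem h6_mA (k μ lam : ℝ) (e : ℕ) (t : ℝ) :
    DP (Ico (2 ^ e) (2 ^ (e + 1))) (fun n => mA k μ lam n) t =
      DP (Ico (max (2 ^ e) (⌊k ^ μ⌋₊ + 1)) (min (2 ^ (e + 1)) (⌊k ^ (μ + lam)⌋₊ + 1)))
        (fun _ => 1) t := by
  unfold DP
  symm
  apply sum_subset_zero_on_sdiff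
  · intro n hn
    rw [mem_Ico] at hn ⊢
    exact ⟨(le_max_left _ _).trans hn.1, hn.2.trans_le (min_le_left _ _)⟩
  · intro n hn
    rw [mem_sdiff, mem_Ico, mem_Ico] at hn
    have h1 : mA k μ lam n = 0 := by
      rw [h6_mA_apply, if_neg]
      rintro ⟨h2, _⟩
      unfold Ms at h2
      rw [mem_Ioc] at h2
      apply hn.2
      refine ⟨max_le hn.1.1 (by omega), lt_min hn.1.2 (by omega)⟩
    beta_reduce
    rw [h1]
    simp
  · intro n hn
    rw [mem_Ico, max_le_iff, lt_min_iff] at hn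
    have h0 : 1 ≤ 2 ^ e := Nat.one_le_two_pow
    have h1 : mA k μ lam n = 1 := by
      rw [h6_mA_apply, if_pos]
      refine ⟨?_, by omega⟩
      unfold Ms
      rw [mem_Ioc]
      omega
    beta_reduce
    rw [h1]

private theorem h6_zR (e : ℕ) (t : ℝ) :
    DP (Ico (2 ^ e) (2 ^ (e + 1))) (fun n => zR n) t =
      DP (Ico (2 ^ e) (2 ^ (e + 1))) (fun _ => 1) t := by
  unfold DP
  refine sum_congr rfl fun n hn => ?_
  rw [mem_Ico] at hn
  have h0 : 1 ≤ 2 ^ e := Nat.one_le_two_pow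
  beta_reduce
  rw [zR_apply (by omega : 1 ≤ n)]

private theorem h6_abs {k : ℝ} (hk : 1 ≤ Real.log k) (hk0 : 3 ≤ k) (μ lam : ℝ) (j : ℕ) (i : ix j)
    (e n : ℕ) (he : (2 : ℝ) ^ e ≤ k ^ 2) (hn1 : 1 ≤ n) (hn : (n : ℝ) ≤ (2 : ℝ) ^ (e + 1)) :
    |cf k μ lam j i n| ≤ 3 * Real.log k := by
  have h1 : (1 : ℝ) ≤ 3 * Real.log k := by linarith
  rcases i with u | i | i | u
  · refine le_trans ?_ h1
    show |mA k μ lam n| ≤ 1
    rw [h6_mA_apply]
    split_ifs <;> simp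
  · exact (muz_abs_le _ _).trans h1
  · refine le_trans ?_ h1
    show |zR n| ≤ 1
    rw [zR_apply hn1]
    simp
  · show |ArithmeticFunction.log n| ≤ _
    rw [ArithmeticFunction.log_apply]
    have hn0 : (1 : ℝ) ≤ n := by exact_mod_cast hn1
    rw [abs_of_nonneg (Real.log_nonneg hn0)]
    calc Real.log n ≤ Real.log (k ^ 3) := by
          apply Real.log_le_log (by linarith)
          rw [pow_succ] at hn
          nlinarith [sq_nonneg k]
      _ = 3 * Real.log k := by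
          rw [Real.log_pow]
          norm_num

private theorem h6_logX {k X : ℝ} (hX : 1 ≤ X) (hXk : X ≤ k ^ 2)
    (hk : 1 ≤ Real.log k) : 0 ≤ 1 + Real.log X ∧ 1 + Real.log X ≤ 3 * Real.log k := by
  have h1 : 0 ≤ Real.log X := Real.log_nonneg hX
  have h2 : Real.log X ≤ Real.log (k ^ 2) := Real.log_le_log (by linarith) hXk
  rw [Real.log_pow] at h2
  push_cast at h2
  constructor <;> linarith

private theorem h6_box (β θ η ε₁ ε₂ δ A : ℝ) (hβ : 0 < β) (hθ : 0 < θ) (hβ2 : β ≤ 9 / 11 - 20 * θ)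
    (hη : 0 < η) (hη1 : η ≤ 1) (hε₁ : 0 < ε₁) (hε₁₂ : ε₁ < ε₂) (hε : 16 * ε₂ ≤ θ) (hδ : 0 < δ) :
    ∃ k0 : ℝ, ∀ k : ℝ, k0 ≤ k → ∀ μ lam : ℝ, η ≤ μ → 0 ≤ lam → μ + lam ≤ β + 2 * ε₂ →
      ∀ j ∈ Icc 1 11, ∀ e ∈ Ej k β θ j,
      ∫ t in Tm k δ (β + θ / 2), ‖Wf k ε₁ ε₂ t * ∏ i, DP (Ico (2 ^ e i) (2 ^ (e i + 1)))
        (fun n => cf k μ lam j i n) t‖ ≤ (Real.log k) ^ (-A) := by
  obtain ⟨C2, hC2, hw⟩ := block_kl
  obtain ⟨k4, h4k⟩ := fourth_k θ hθ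
  obtain ⟨δ', hδ', hδ'1, C1, hC1, hbp⟩ := block_pow ⌈2 / η⌉₊
  set c : ℝ := min (η * δ' / 2) δ / 2 with hc
  have hm0 : 0 < min (η * δ' / 2) δ := lt_min (by positivity) hδ
  have hc0 : 0 < c := by rw [hc]; linarith
  have hε₂1 : ε₂ ≤ 1 := by linarith
  obtain ⟨kb, hkb⟩ := box11 β θ η ε₁ ε₂ δ c 3 A 23 hβ hθ hβ2 hη hη1 hε₁ hε₁₂ hε₂1 hδ hc0
    (by norm_num)
  have e1 : ∀ᶠ k : ℝ in Filter.atTop, max kb k4 ≤ k := Filter.eventually_ge_atTop _
  have e2 : ∀ᶠ k : ℝ in Filter.atTop, 3 ≤ k := Filter.eventually_ge_atTop 3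
  have e3 : ∀ᶠ k : ℝ in Filter.atTop, 1 + 9 * C2 + 3 ≤ Real.log k :=
    Real.tendsto_log_atTop.eventually_ge_atTop _
  have e4 : ∀ᶠ k : ℝ in Filter.atTop, 2 ≤ k ^ (η / 2) :=
    (tendsto_rpow_atTop (by positivity)).eventually_ge_atTop _
  have e5 : ∀ᶠ k : ℝ in Filter.atTop, 2 * C1 ≤ k ^ c :=
    (tendsto_rpow_atTop hc0).eventually_ge_atTop _
  obtain ⟨k0, hk0⟩ := Filter.eventually_atTop.1 (((e1.and e2).and (e3.and e4)).and e5)
  refine ⟨k0, fun k hk μ lam hμ hlam hμl j hj e he => ?_⟩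
  obtain ⟨⟨⟨hkb4, hk3⟩, hlog, hkη⟩, hkc⟩ := hk0 k hk
  have hkb' : kb ≤ k := (le_max_left _ _).trans hkb4
  have hk4 : k4 ≤ k := (le_max_right _ _).trans hkb4
  have hkpos : 0 < k := by linarith
  have hk1 : 1 ≤ k := by linarith
  have hL1 : 1 ≤ Real.log k := by linarith
  have hL0 : 0 < Real.log k := by linarith
  have hb3 : (Real.log k) ^ (3 : ℝ) = (Real.log k) ^ 3 := by
    rw [← Real.rpow_natCast]
    norm_num
  by_cases h0 : ∃ i : ix j, ∀ t, DP (Ico (2 ^ e i) (2 ^ (e i + 1)))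
      (fun n => cf k μ lam j i n) t = 0
  · obtain ⟨i, hi⟩ := h0
    have h1 : ∀ t, ‖Wf k ε₁ ε₂ t * ∏ i, DP (Ico (2 ^ e i) (2 ^ (e i + 1)))
        (fun n => cf k μ lam j i n) t‖ = 0 := by
      intro t
      rw [prod_eq_zero (mem_univ i) (hi t), mul_zero, norm_zero]
    simp only [h1, integral_zero]
    positivity
  push Not at h0
  unfold Ej at he
  rw [mem_filter, Fintype.mem_piFinset] at he
  obtain ⟨heJ, he1, he2⟩ := he
  have heJ' : ∀ i, (2 : ℝ) ^ e i ≤ k ^ 2 := fun i => h6_JK hk1 (mem_range.1 (heJ i))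
  have hX1 : ∀ i, (1 : ℝ) ≤ (2 : ℝ) ^ e i := fun i => one_le_pow₀ (by norm_num)
  rw [mem_Icc] at hj
  -- the variable m
  have hm : k ^ (η / 2) ≤ (2 : ℝ) ^ e (Sum.inl ()) ∧ (2 : ℝ) ^ e (Sum.inl ()) ≤ k ^ (β + θ) := by
    obtain ⟨t, ht⟩ := h0 (Sum.inl ())
    obtain ⟨n, hn, hn1⟩ := h6_ne ht
    have hn2 : mA k μ lam n ≠ 0 := hn1
    rw [h6_mA_apply] at hn2
    have hn3 : n ∈ Ms k μ (μ + lam) ∧ n ≠ 0 := by
      by_contra h
      rw [if_neg h] at hn2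
      exact hn2 rfl
    have hn4 := hn3.1
    unfold Ms at hn4
    rw [mem_Ioc] at hn4
    rw [mem_Ico] at hn
    have a1 : k ^ μ < n := Nat.lt_of_floor_lt hn4.1
    have a2 : (n : ℝ) ≤ k ^ (μ + lam) :=
      (Nat.le_floor_iff (Real.rpow_nonneg hkpos.le _)).1 hn4.2
    have a3 : (n : ℝ) < 2 ^ (e (Sum.inl ()) + 1) := by exact_mod_cast hn.2
    have a4 : (2 : ℝ) ^ e (Sum.inl ()) ≤ n := by exact_mod_cast hn.1
    constructor
    · have a5 : k ^ η ≤ k ^ μ := Real.rpow_le_rpow_of_exponent_le hk1 hμ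
      have a6 : k ^ η = k ^ (η / 2) * k ^ (η / 2) := by
        rw [← Real.rpow_add hkpos]
        congr 1
        ring
      rw [pow_succ] at a3
      nlinarith
    · refine a4.trans (a2.trans ?_)
      exact Real.rpow_le_rpow_of_exponent_le hk1 (by linarith)
  refine hkb k hkb' (ix j) e (fun i t => DP (Ico (2 ^ e i) (2 ^ (e i + 1)))
      (fun n => cf k μ lam j i n) t) (Sum.inl ())
      (univ.filter (fun i => ∀ x : Fin j, i ≠ Sum.inr (Sum.inl x))) (h6_card j hj.1 hj.2) ?_ ?_ ?_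
      ?_ ?_ ?_ hm.1 hm.2 he1 he2
  · rw [mem_filter]
    refine ⟨mem_univ _, fun x hx => ?_⟩
    exact absurd hx (by simp)
  · intro i
    apply IsDP.of_bound
    intro n hn
    rw [mem_Ico] at hn
    have h01 : 1 ≤ 2 ^ e i := Nat.one_le_two_pow
    have hn1 : 1 ≤ n := by omega
    have hn2 : (n : ℝ) ≤ 2 ^ (e i + 1) := by exact_mod_cast hn.2.le
    refine ⟨hn1, by exact_mod_cast hn.1, hn2, ?_⟩
    refine (h6_abs hL1 hk3 μ lam j i (e i) n (heJ' i) hn1 hn2).trans ?_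
    rw [hb3]
    have hl4 : 4 ≤ Real.log k := by linarith
    nlinarith [mul_pos hL0 hL0, mul_self_nonneg (Real.log k)]
  · intro i hi t ht htX
    rw [mem_filter] at hi
    have hX := hX1 i
    obtain ⟨hl1, hl2⟩ := h6_logX hX (heJ' i) hL1
    rw [hb3]
    have ht0 : 0 < |t| := by linarith
    have ht1 : t ≠ 0 := abs_pos.1 ht0
    have hl4 : 4 ≤ Real.log k := by linarith
    have hL3 : Real.log k ≤ (Real.log k) ^ 3 := by
      have := pow_le_pow_right₀ hL1 (by norm_num : 1 ≤ 3)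
      rwa [pow_one] at this
    have hd2 : C2 / |t| ≤ (Real.log k) ^ 3 / |t| := by
      refine div_le_div_of_nonneg_right ?_ ht0.le
      linarith
    have hd3 : C2 * (1 + Real.log ((2 : ℝ) ^ e i)) / |t| ≤ (Real.log k) ^ 3 / |t| := by
      refine div_le_div_of_nonneg_right ?_ ht0.le
      calc C2 * (1 + Real.log ((2 : ℝ) ^ e i)) ≤ C2 * (3 * Real.log k) := by gcongr
        _ = (3 * C2) * Real.log k * 1 := by ring
        _ ≤ Real.log k * Real.log k * Real.log k := by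
            gcongr
            linarith
        _ = (Real.log k) ^ 3 := by ring
    rcases i with u | i | i | u
    · have h1 : DP (Ico (2 ^ e (Sum.inl u)) (2 ^ (e (Sum.inl u) + 1)))
          (fun n => cf k μ lam j (Sum.inl u) n) t = _ := h6_mA k μ lam (e (Sum.inl u)) t
      rw [h1]
      refine (hw ((2 : ℝ) ^ e (Sum.inl u)) t hX ht1 htX _ _ ?_ ?_).1.trans hd2
      · push_cast
        exact le_max_left _ _
      · push_cast
        refine (min_le_left _ _).trans (le_of_eq ?_)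
        ring
    · exact absurd rfl (hi.2 i)
    · have h1 : DP (Ico (2 ^ e (Sum.inr (Sum.inr (Sum.inl i))))
          (2 ^ (e (Sum.inr (Sum.inr (Sum.inl i))) + 1)))
          (fun n => cf k μ lam j (Sum.inr (Sum.inr (Sum.inl i))) n) t = _ :=
        h6_zR (e (Sum.inr (Sum.inr (Sum.inl i)))) t
      rw [h1]
      refine (hw ((2 : ℝ) ^ e (Sum.inr (Sum.inr (Sum.inl i)))) t hX ht1 htX _ _ ?_ ?_).1.trans hd2
      · push_cast
        exact le_rfl
      · push_cast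
        refine le_of_eq ?_
        ring
    · refine (hw ((2 : ℝ) ^ e (Sum.inr (Sum.inr (Sum.inr u)))) t hX ht1 htX (2 ^ e _)
        (2 ^ (e (Sum.inr (Sum.inr (Sum.inr u))) + 1)) ?_ ?_).2.trans hd3
      · push_cast
        exact le_rfl
      · push_cast
        refine le_of_eq ?_
        ring
  · intro i hi Y hY2 hXY hYk
    rw [mem_filter] at hi
    have hX := hX1 i
    rcases i with u | i | i | u
    · have h1 := h6_mA k μ lam (e (Sum.inl u))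
      have h2 := (h4k k hk4 ((2 : ℝ) ^ e (Sum.inl u)) Y hX hY2 hXY hYk
        (max (2 ^ e (Sum.inl u)) (⌊k ^ μ⌋₊ + 1))
        (min (2 ^ (e (Sum.inl u) + 1)) (⌊k ^ (μ + lam)⌋₊ + 1)) (by
          push_cast
          exact le_max_left _ _) (by
          push_cast
          refine (min_le_left _ _).trans (le_of_eq ?_)
          ring)).1
      simp only [← h1] at h2
      exact h2
    · exact absurd rfl (hi.2 i)
    · have h1 := h6_zR (e (Sum.inr (Sum.inr (Sum.inl i))) : ℕ)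
      have h2 := (h4k k hk4 ((2 : ℝ) ^ e (Sum.inr (Sum.inr (Sum.inl i)))) Y hX hY2 hXY hYk
        (2 ^ e (Sum.inr (Sum.inr (Sum.inl i))))
        (2 ^ (e (Sum.inr (Sum.inr (Sum.inl i))) + 1)) (by
          push_cast
          exact le_rfl) (by
          push_cast
          refine le_of_eq ?_
          ring)).1
      simp only [← h1] at h2
      exact h2
    · exact (h4k k hk4 ((2 : ℝ) ^ e (Sum.inr (Sum.inr (Sum.inr u)))) Y hX hY2 hXY hYk
        (2 ^ e (Sum.inr (Sum.inr (Sum.inr u))))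
        (2 ^ (e (Sum.inr (Sum.inr (Sum.inr u))) + 1)) (by
          push_cast
          exact le_rfl) (by
          push_cast
          refine le_of_eq ?_
          ring)).2
  · intro i hi
    rw [mem_filter, not_and] at hi
    have hi2 := hi (mem_univ _)
    push Not at hi2
    obtain ⟨x, hx⟩ := hi2
    subst hx
    obtain ⟨t, ht⟩ := h0 (Sum.inr (Sum.inl x))
    obtain ⟨n, hn, hn1⟩ := h6_ne ht
    have hn2 : muz (zK k) n ≠ 0 := hn1
    have hn3 : n ≤ zK k := by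
      by_contra h
      apply hn2
      show (if n ≤ zK k then ((ArithmeticFunction.moebius n : ℤ) : ℝ) else 0) = 0
      rw [if_neg h]
    rw [mem_Ico] at hn
    have hn4 : (n : ℝ) ≤ k ^ ((2 : ℝ) / 11) :=
      (Nat.le_floor_iff (Real.rpow_nonneg hkpos.le _)).1 hn3
    refine le_trans ?_ hn4
    exact_mod_cast hn.1
  · intro t ht
    obtain ⟨ht1, ht2⟩ := ht
    have hkδ : 0 < k ^ δ := Real.rpow_pos_of_pos hkpos _
    have ht0 : 0 < |t| := by linarith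
    have h1 : DP (Ico (2 ^ e (Sum.inl ())) (2 ^ (e (Sum.inl ()) + 1)))
          (fun n => cf k μ lam j (Sum.inl ()) n) t = _ := h6_mA k μ lam (e (Sum.inl ())) t
    have hX := hX1 (Sum.inl ())
    have hXK : |t| ≤ ((2 : ℝ) ^ e (Sum.inl ())) ^ ⌈2 / η⌉₊ := by
      calc |t| ≤ k ^ (β + θ / 2) := ht2
        _ ≤ k ^ (1 : ℝ) := Real.rpow_le_rpow_of_exponent_le hk1 (by linarith)
        _ ≤ k ^ ((η / 2) * (⌈2 / η⌉₊ : ℕ)) := by
            apply Real.rpow_le_rpow_of_exponent_le hk1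
            have h2 : 2 / η ≤ (⌈2 / η⌉₊ : ℕ) := Nat.le_ceil _
            rw [div_le_iff₀ hη] at h2
            linarith
        _ = (k ^ (η / 2)) ^ ⌈2 / η⌉₊ := by
            rw [Real.rpow_mul hkpos.le, Real.rpow_natCast]
        _ ≤ _ := by
            have := hm.1
            gcongr
    have h2 := hbp ((2 : ℝ) ^ e (Sum.inl ())) t hX (abs_pos.1 ht0) hXK
      (max (2 ^ e (Sum.inl ())) (⌊k ^ μ⌋₊ + 1))
      (min (2 ^ (e (Sum.inl ()) + 1)) (⌊k ^ (μ + lam)⌋₊ + 1)) (by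
        push_cast
        exact le_max_left _ _) (by
        push_cast
        refine (min_le_left _ _).trans (le_of_eq ?_)
        ring)
    show ‖DP (Ico (2 ^ e (Sum.inl ())) (2 ^ (e (Sum.inl ()) + 1)))
          (fun n => cf k μ lam j (Sum.inl ()) n) t‖ ≤ _
    rw [h1]
    refine h2.trans ?_
    have h2c : 2 * c = min (η * δ' / 2) δ := by rw [hc]; ring
    have h3 : ((2 : ℝ) ^ e (Sum.inl ())) ^ (-δ') ≤ k ^ (-(2 * c)) := by
      calc ((2 : ℝ) ^ e (Sum.inl ())) ^ (-δ') ≤ (k ^ (η / 2)) ^ (-δ') :=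
            Real.rpow_le_rpow_of_nonpos (Real.rpow_pos_of_pos hkpos _) hm.1 (by linarith)
        _ = k ^ (-(η * δ' / 2)) := by
            rw [← Real.rpow_mul hkpos.le]
            congr 1
            ring
        _ ≤ k ^ (-(2 * c)) := by
            apply Real.rpow_le_rpow_of_exponent_le hk1
            have := min_le_left (η * δ' / 2) δ
            linarith
    have h4 : 1 / |t| ≤ k ^ (-(2 * c)) := by
      calc 1 / |t| ≤ 1 / k ^ δ := one_div_le_one_div_of_le hkδ ht1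
        _ = k ^ (-δ) := by rw [Real.rpow_neg hkpos.le, one_div]
        _ ≤ k ^ (-(2 * c)) := by
            apply Real.rpow_le_rpow_of_exponent_le hk1
            have := min_le_right (η * δ' / 2) δ
            linarith
    have h5 : k ^ (-(2 * c)) = k ^ (-c) * k ^ (-c) := by
      rw [← Real.rpow_add hkpos]
      congr 1
      ring
    have h6 : 0 < k ^ (-c) := Real.rpow_pos_of_pos hkpos _
    have h7 : k ^ c * k ^ (-c) = 1 := by
      rw [← Real.rpow_add hkpos]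
      simp
    calc C1 * (((2 : ℝ) ^ e (Sum.inl ())) ^ (-δ') + 1 / |t|)
        ≤ C1 * (k ^ (-(2 * c)) + k ^ (-(2 * c))) := by gcongr
      _ = (2 * C1) * k ^ (-c) * k ^ (-c) := by rw [h5]; ring
      _ ≤ k ^ c * k ^ (-c) * k ^ (-c) := by gcongr
      _ = k ^ (-c) := by rw [h7, one_mul]

private theorem h6_DP_cont (s : Finset ℕ) (c : ℕ → ℝ) : Continuous (DP s c) := by
  unfold DP
  refine continuous_finsetSum _ fun n _ => ?_
  refine continuous_const.mul (Complex.continuous_exp.comp ?_)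
  refine Continuous.mul (Complex.continuous_ofReal.comp ?_) continuous_const
  fun_prop

private theorem h6_hbc {j : ℕ} (hj : j ∈ Icc 1 11) : |hbc j| ≤ 462 := by
  unfold hbc
  rw [abs_mul, abs_pow, abs_neg, abs_one, one_pow, one_mul]
  rw [mem_Icc] at hj
  obtain ⟨h1, h2⟩ := hj
  interval_cases j <;> norm_num [Nat.choose]

private theorem h6_Ej {k : ℝ} (hk : 1 ≤ Real.log k) (hk0 : 3 ≤ k) (β θ : ℝ) {j : ℕ}
    (hj : j ∈ Icc 1 11) : (#(Ej k β θ j) : ℝ) ≤ (4 * Real.log k) ^ 23 := by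
  rw [mem_Icc] at hj
  have h1 : #(Ej k β θ j) ≤ (JK k + 1) ^ (Fintype.card (ix j)) := by
    calc #(Ej k β θ j) ≤ #(Fintype.piFinset (fun _ : ix j => range (JK k + 1))) :=
          card_filter_le _ _
      _ = (JK k + 1) ^ (Fintype.card (ix j)) := by
          rw [Fintype.card_piFinset]
          simp only [card_range, prod_const, card_univ]
  have h2 : ((JK k + 1 : ℕ) : ℝ) ≤ 4 * Real.log k := by
    push_cast
    have hlb : 0 ≤ 2 * Real.logb 2 k := by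
      have := Real.logb_nonneg (b := 2) (by norm_num) (by linarith : 1 ≤ k)
      linarith
    have h3 : (JK k : ℝ) ≤ 2 * Real.logb 2 k := Nat.floor_le hlb
    have h4 : Real.logb 2 k ≤ 3 / 2 * Real.log k := by
      rw [← Real.log_div_log, div_le_iff₀ (Real.log_pos (by norm_num))]
      have := Real.log_two_gt_d9
      nlinarith
    linarith
  have h5 : (1 : ℝ) ≤ ((JK k + 1 : ℕ) : ℝ) := by
    push_cast
    have : (0 : ℝ) ≤ (JK k : ℝ) := Nat.cast_nonneg _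
    linarith
  calc (#(Ej k β θ j) : ℝ) ≤ (((JK k + 1) ^ (Fintype.card (ix j)) : ℕ) : ℝ) := by
        exact_mod_cast h1
    _ = ((JK k + 1 : ℕ) : ℝ) ^ (Fintype.card (ix j)) := Nat.cast_pow _ _
    _ ≤ ((JK k + 1 : ℕ) : ℝ) ^ 23 := pow_le_pow_right₀ h5 (h6_card j hj.1 hj.2)
    _ ≤ (4 * Real.log k) ^ 23 := pow_le_pow_left₀ (by linarith) h2 23

theorem Gf_int (β θ η ε₁ ε₂ δ A : ℝ) (hβ : 0 < β) (hθ : 0 < θ) (hβ2 : β ≤ 9 / 11 - 20 * θ)
    (hη : 0 < η) (hη1 : η ≤ 1) (hε₁ : 0 < ε₁) (hε₁₂ : ε₁ < ε₂) (hε : 16 * ε₂ ≤ θ) (hδ : 0 < δ) :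
    ∃ k0 : ℝ, ∀ k : ℝ, k0 ≤ k → ∀ μ lam : ℝ, η ≤ μ → 0 ≤ lam → μ + lam ≤ β + 2 * ε₂ →
      ∫ t in Tm k δ (β + θ / 2), ‖Wf k ε₁ ε₂ t * Gf k β θ μ lam t‖ ≤ (Real.log k) ^ (-A) := by
  obtain ⟨kb, hkb⟩ := h6_box β θ η ε₁ ε₂ δ (A + 26) hβ hθ hβ2 hη hη1 hε₁ hε₁₂ hε hδ
  have e1 : ∀ᶠ k : ℝ in Filter.atTop, kb ≤ k := Filter.eventually_ge_atTop _
  have e2 : ∀ᶠ k : ℝ in Filter.atTop, 3 ≤ k := Filter.eventually_ge_atTop 3
  have e3 : ∀ᶠ k : ℝ in Filter.atTop, 5082 * 4 ^ 23 ≤ Real.log k :=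
    Real.tendsto_log_atTop.eventually_ge_atTop _
  obtain ⟨k0, hk0⟩ := Filter.eventually_atTop.1 ((e1.and e2).and e3)
  refine ⟨k0, fun k hk μ lam hμ hlam hμl => ?_⟩
  obtain ⟨⟨hkb', hk3⟩, hlog⟩ := hk0 k hk
  have hkpos : 0 < k := by linarith
  have hL1 : 1 ≤ Real.log k := by linarith
  have hL0 : 0 < Real.log k := by linarith
  have hcont : ∀ (j : ℕ) (e : ix j → ℕ), Continuous (fun t => ‖Wf k ε₁ ε₂ t *
      ∏ i, DP (Ico (2 ^ e i) (2 ^ (e i + 1))) (fun n => cf k μ lam j i n) t‖) := by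
    intro j e
    refine Continuous.norm (Continuous.mul ?_ ?_)
    · exact h6_DP_cont _ _
    · exact continuous_finsetProd _ fun i _ => h6_DP_cont _ _
  have hsub : Tm k δ (β + θ / 2) ⊆ Set.Icc (-(k ^ (β + θ / 2))) (k ^ (β + θ / 2)) := by
    intro t ht
    exact abs_le.1 ht.2
  have hint : ∀ g : ℝ → ℝ, Continuous g → IntegrableOn g (Tm k δ (β + θ / 2)) :=
    fun g hg => hg.integrableOn_Icc.mono_set hsub
  have hpt : ∀ t, ‖Wf k ε₁ ε₂ t * Gf k β θ μ lam t‖ ≤ ∑ j ∈ Icc 1 11, |hbc j| *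
      ∑ e ∈ Ej k β θ j, ‖Wf k ε₁ ε₂ t *
        ∏ i, DP (Ico (2 ^ e i) (2 ^ (e i + 1))) (fun n => cf k μ lam j i n) t‖ := by
    intro t
    unfold Gf
    rw [mul_sum]
    refine (norm_sum_le _ _).trans (sum_le_sum fun j _ => ?_)
    rw [mul_left_comm, norm_mul, Complex.norm_real, Real.norm_eq_abs, mul_sum]
    exact mul_le_mul_of_nonneg_left (norm_sum_le _ _) (abs_nonneg _)
  have hcG : Continuous (fun t => ‖Wf k ε₁ ε₂ t * Gf k β θ μ lam t‖) := by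
    refine Continuous.norm (Continuous.mul (h6_DP_cont _ _) ?_)
    unfold Gf
    refine continuous_finsetSum _ fun j _ => continuous_const.mul ?_
    exact continuous_finsetSum _ fun e _ => continuous_finsetProd _ fun i _ => h6_DP_cont _ _
  have hi2 : ∀ j ∈ Icc 1 11, IntegrableOn (fun t => |hbc j| *
      ∑ e ∈ Ej k β θ j, ‖Wf k ε₁ ε₂ t *
        ∏ i, DP (Ico (2 ^ e i) (2 ^ (e i + 1))) (fun n => cf k μ lam j i n) t‖)
      (Tm k δ (β + θ / 2)) := by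
    intro j _
    apply hint
    exact continuous_const.mul (continuous_finsetSum _ fun e _ => hcont j e)
  calc ∫ t in Tm k δ (β + θ / 2), ‖Wf k ε₁ ε₂ t * Gf k β θ μ lam t‖
      ≤ ∫ t in Tm k δ (β + θ / 2), ∑ j ∈ Icc 1 11, |hbc j| *
      ∑ e ∈ Ej k β θ j, ‖Wf k ε₁ ε₂ t *
        ∏ i, DP (Ico (2 ^ e i) (2 ^ (e i + 1))) (fun n => cf k μ lam j i n) t‖ := by
        apply setIntegral_mono (hint _ hcG)
        · exact integrable_finsetSum _ hi2
        · exact hpt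
    _ = ∑ j ∈ Icc 1 11, |hbc j| * ∑ e ∈ Ej k β θ j, ∫ t in Tm k δ (β + θ / 2), ‖Wf k ε₁ ε₂ t *
        ∏ i, DP (Ico (2 ^ e i) (2 ^ (e i + 1))) (fun n => cf k μ lam j i n) t‖ := by
        rw [integral_finsetSum _ hi2]
        refine sum_congr rfl fun j _ => ?_
        rw [integral_const_mul, integral_finsetSum _ (fun e _ => hint _ (hcont j e))]
    _ ≤ ∑ j ∈ Icc 1 11, 462 * ((4 * Real.log k) ^ 23 * (Real.log k) ^ (-(A + 26))) := by
        refine sum_le_sum fun j hj => ?_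
        have h1 : ∑ e ∈ Ej k β θ j, ∫ t in Tm k δ (β + θ / 2), ‖Wf k ε₁ ε₂ t *
            ∏ i, DP (Ico (2 ^ e i) (2 ^ (e i + 1))) (fun n => cf k μ lam j i n) t‖ ≤
            (4 * Real.log k) ^ 23 * (Real.log k) ^ (-(A + 26)) := by
          calc _ ≤ ∑ e ∈ Ej k β θ j, (Real.log k) ^ (-(A + 26)) :=
                sum_le_sum fun e he => hkb k hkb' μ lam hμ hlam hμl j hj e he
            _ = (#(Ej k β θ j) : ℝ) * (Real.log k) ^ (-(A + 26)) := by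
                rw [sum_const, nsmul_eq_mul]
            _ ≤ _ := mul_le_mul_of_nonneg_right (h6_Ej hL1 hk3 β θ hj)
                (Real.rpow_nonneg hL0.le _)
        have h2 : 0 ≤ ∑ e ∈ Ej k β θ j, ∫ t in Tm k δ (β + θ / 2), ‖Wf k ε₁ ε₂ t *
            ∏ i, DP (Ico (2 ^ e i) (2 ^ (e i + 1))) (fun n => cf k μ lam j i n) t‖ :=
          sum_nonneg fun e _ => integral_nonneg fun t => norm_nonneg _
        exact mul_le_mul (h6_hbc hj) h1 h2 (by norm_num)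
    _ = (5082 * 4 ^ 23) * (Real.log k) ^ 23 * (Real.log k) ^ (-(A + 26)) := by
        rw [sum_const, nsmul_eq_mul]
        simp only [Nat.card_Icc]
        push_cast
        ring
    _ ≤ (Real.log k) ^ 3 * (Real.log k) ^ 23 * (Real.log k) ^ (-(A + 26)) := by
        have h3 : Real.log k ≤ (Real.log k) ^ 3 := by
          nlinarith [mul_pos hL0 hL0, mul_nonneg hL0.le (sub_nonneg.2 hL1)]
        have h4 : (5082 * 4 ^ 23 : ℝ) ≤ (Real.log k) ^ 3 := hlog.trans h3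
        gcongr
    _ = (Real.log k) ^ (-A) := by
        rw [← pow_add, ← Real.rpow_natCast, ← Real.rpow_add hL0]
        congr 1
        push_cast
        ring

end Pool.Agent.Lib.MP_9a8698_nt
end
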