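import Pool.Agent.Lib.MP_9a8698_nt.C2
import Pool.Agent.Lib.MP_9a8698_nt.C3
import Pool.Agent.Lib.MP_9a8698_nt.D6
import Pool.Agent.Lib.MP_9a8698_nt.H6
import Pool.Agent.Lib.MP_9a8698_nt.C6

section

/-!
C4. The sum at constant precision: only Mertens is needed (A1, C1-C3 are used).

PROOF. `ℓ = log k`, `A = ⌊k^μ⌋`, `B = ⌊k^(μ+lam)⌋`. Fix `q ∈ Qs`. For fixed `l` the sum over `m` of `(1/m) gs R (log m - w_l)`,
`w_l = u - log q - log l`, is `∫_{log A}^{log B} gs R (x - w_l) dx + O(2R²/A)` (`sum_gs`), and `∑_l Λ(l)/l · 2R²/A ≤ (2ℓ+6) 4R²/k^η ≤ 1/10`. Substituting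
`x = s + w_l`: `∑_l (Λ(l)/l) ∫_{log A}^{log B} gs R (x - w_l) dx = ∫ gs R s · F(s) ds`, `F(s) = ∑_{l ∈ Ms k (1/2) 2} (Λ(l)/l) [log A ≤ s + u - log q - log l ≤ log B]`.
* `|s| ≤ ℓ/20`: the condition is `y₁ ≤ log l ≤ y₂`, `y₁ = s+u-log q-log B`, `y₂ = s+u-log q-log A`; since `|u-(1+β)ℓ| ≤ ε₂ℓ+1`, `0 ≤ log q ≤ ε₂ℓ`,
  `log B ≤ (β+2ε₂)ℓ`, `β ≤ 9/11`, `ε₂ ≤ 1/20`, we have `ℓ/2 + 1 < y₁`, `y₂ < 2ℓ - 1` for large `k`, so `l` automatically lies in `Ms k (1/2) 2`, and by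
  `mertens` at `exp y₂` and just below `exp y₁` (e.g. at `exp y₁` and at `exp y₁ - 1`, or at `exp y₁` adding the term `l = exp y₁`, which is at most
  `y₁ exp(-y₁) ≤ 1/10`) `|F(s) - (log B - log A)| ≤ 13`.
* `|s| > ℓ/20`: `0 ≤ F(s) ≤ 2ℓ+6`, and `∫_{|s| ≥ ℓ/20} gs R ≤ 2 exp(-(Rℓ/20)²/4)` (`gs_tail`).
`|log B - log A - lam ℓ| ≤ 1/10` for large `k` (`A, B ≥ k^η/2`). Altogether the sum for `q` is within `20` of `lam ℓ`; multiply by `1/q` and sum.
-/

set_option autoImplicit false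

open Finset MeasureTheory

namespace Pool.Agent.Lib.MP_9a8698_nt

private theorem C4_floor {x : ℝ} (hx : 1 ≤ x) : 1 ≤ ⌊x⌋₊ ∧ x / 2 ≤ (⌊x⌋₊ : ℝ) ∧
    Real.log ⌊x⌋₊ ≤ Real.log x ∧ Real.log x ≤ Real.log ⌊x⌋₊ + 1 := by
  have h1 : 1 ≤ ⌊x⌋₊ := (Nat.one_le_floor_iff x).2 hx
  have h1' : (1 : ℝ) ≤ ⌊x⌋₊ := by exact_mod_cast h1
  have h2 : x < ⌊x⌋₊ + 1 := Nat.lt_floor_add_one x
  have h3 : x / 2 ≤ ⌊x⌋₊ := by linarith
  have h4 := Nat.floor_le (by linarith : 0 ≤ x)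
  refine ⟨h1, h3, Real.log_le_log (by linarith) h4, ?_⟩
  have h5 : Real.log x ≤ Real.log (2 * ⌊x⌋₊) := Real.log_le_log (by linarith) (by linarith)
  rw [Real.log_mul (by norm_num) (by positivity)] at h5
  have h6 := Real.log_two_lt_d9
  linarith

private theorem C4_lam0 (l : ℕ) : 0 ≤ ArithmeticFunction.vonMangoldt l / (l : ℝ) :=
  div_nonneg ArithmeticFunction.vonMangoldt_nonneg (Nat.cast_nonneg _)

private theorem C4_lsum {k : ℝ} (hk : 1 ≤ k) :
    ∑ l ∈ Ms k (1 / 2) 2, ArithmeticFunction.vonMangoldt l / (l : ℝ) ≤ 2 * Real.log k + 6 := by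
  have h1 := Pool.Agent.Lib.H62.mertens (k ^ (2 : ℝ)) (Real.one_le_rpow hk (by norm_num))
  rw [Real.log_rpow (by linarith)] at h1
  have h2 : ∑ l ∈ Ms k (1 / 2) 2, ArithmeticFunction.vonMangoldt l / (l : ℝ) ≤
      ∑ l ∈ Ioc 0 ⌊k ^ (2 : ℝ)⌋₊, ArithmeticFunction.vonMangoldt l / (l : ℝ) :=
    sum_le_sum_of_subset_of_nonneg (Ioc_subset_Ioc_left (Nat.zero_le _)) fun l _ _ => C4_lam0 l
  have h3 := (abs_le.1 h1).2
  linarith

private theorem C4_F {k y₁ y₂ : ℝ} (hk : 1 ≤ k) (h1 : 1 / 2 * Real.log k ≤ y₁) (h12 : y₁ ≤ y₂)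
    (h2 : y₂ ≤ 2 * Real.log k) :
    |(∑ l ∈ Ms k (1 / 2) 2, ArithmeticFunction.vonMangoldt l / (l : ℝ) *
      (if y₁ < Real.log l ∧ Real.log l ≤ y₂ then 1 else 0)) - (y₂ - y₁)| ≤ 12 := by
  have hk0 : 0 < k := by linarith
  have hl0 : 0 ≤ Real.log k := Real.log_nonneg hk
  have hfil : (Ms k (1 / 2) 2).filter (fun l : ℕ => y₁ < Real.log l ∧ Real.log l ≤ y₂) =
      Ioc ⌊Real.exp y₁⌋₊ ⌊Real.exp y₂⌋₊ := by
    ext l
    unfold Ms
    rw [mem_filter, mem_Ioc, mem_Ioc]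
    constructor
    · rintro ⟨⟨h3, h4⟩, h5, h6⟩
      have hl : (0 : ℝ) < l := by
        have : 0 < l := by omega
        exact_mod_cast this
      constructor
      · rw [Nat.floor_lt (Real.exp_pos _).le]
        exact (Real.lt_log_iff_exp_lt hl).1 h5
      · exact Nat.le_floor ((Real.log_le_iff_le_exp hl).1 h6)
    · rintro ⟨h3, h4⟩
      have hl : (0 : ℝ) < l := by
        have : 0 < l := by omega
        exact_mod_cast this
      rw [Nat.floor_lt (Real.exp_pos _).le] at h3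
      rw [Nat.le_floor_iff (Real.exp_pos _).le] at h4
      refine ⟨⟨?_, ?_⟩, (Real.lt_log_iff_exp_lt hl).2 h3, (Real.log_le_iff_le_exp hl).2 h4⟩
      · rw [Nat.floor_lt (Real.rpow_nonneg hk0.le _)]
        refine lt_of_le_of_lt ?_ h3
        rw [Real.rpow_def_of_pos hk0, Real.exp_le_exp]
        linarith
      · refine Nat.le_floor (h4.trans ?_)
        rw [Real.rpow_def_of_pos hk0, Real.exp_le_exp]
        linarith
  have hsum : ∑ l ∈ Ms k (1 / 2) 2, ArithmeticFunction.vonMangoldt l / (l : ℝ) *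
      (if y₁ < Real.log l ∧ Real.log l ≤ y₂ then 1 else 0) =
      ∑ l ∈ Ioc ⌊Real.exp y₁⌋₊ ⌊Real.exp y₂⌋₊, ArithmeticFunction.vonMangoldt l / (l : ℝ) := by
    rw [← hfil, sum_filter]
    refine sum_congr rfl fun l _ => ?_
    split_ifs <;> simp
  have hy1 : 0 ≤ y₁ := by linarith
  have hm1 := Pool.Agent.Lib.H62.mertens (Real.exp y₁) (Real.one_le_exp hy1)
  have hm2 := Pool.Agent.Lib.H62.mertens (Real.exp y₂) (Real.one_le_exp (hy1.trans h12))
  rw [Real.log_exp] at hm1 hm2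
  have hcon := sum_Ioc_consecutive
    (fun l : ℕ => ArithmeticFunction.vonMangoldt l / (l : ℝ)) (Nat.zero_le ⌊Real.exp y₁⌋₊)
    (Nat.floor_le_floor (Real.exp_le_exp.2 h12))
  rw [hsum]
  rw [abs_le] at hm1 hm2 ⊢
  constructor <;> linarith

private theorem C4_J {R : ℝ} (a b w : ℝ) (hab : a ≤ b) :
    ∫ x in a..b, gs R (x - w) = ∫ s, gs R s * (if a - w ≤ s ∧ s < b - w then 1 else 0) := by
  rw [intervalIntegral.integral_comp_sub_right (fun x => gs R x) w,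
    intervalIntegral.integral_of_le (by linarith), ← integral_Ico_eq_integral_Ioc,
    ← integral_indicator measurableSet_Ico]
  refine integral_congr_ae (Filter.Eventually.of_forall fun s => ?_)
  simp only [Set.indicator_apply, Set.mem_Ico]
  split_ifs <;> simp

private theorem C4_Ji {R : ℝ} (hR : 0 < R) (a b : ℝ) :
    Integrable fun s => gs R s * (if a ≤ s ∧ s < b then (1 : ℝ) else 0) := by
  have h1 := (gs_integrable hR).indicator (measurableSet_Ico (a := a) (b := b))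
  refine h1.congr (Filter.Eventually.of_forall fun s => ?_)
  simp only [Set.indicator_apply, Set.mem_Ico]
  split_ifs <;> simp

/-- the comparison with the length of the interval -/
private theorem C4_main {k R v a b : ℝ} (hk : 1 ≤ k) (hR : 1 ≤ R) (hab : a ≤ b) (ha : 0 ≤ a)
    (hb : b ≤ Real.log k) (hℓ : 20000 ≤ Real.log k)
    (hv1 : 1 / 2 * Real.log k + Real.log k / 20 ≤ v - b)
    (hv2 : v - a + Real.log k / 20 ≤ 2 * Real.log k) :
    |(∑ l ∈ Ms k (1 / 2) 2, ArithmeticFunction.vonMangoldt l / (l : ℝ) *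
      ∫ x in a..b, gs R (x - (v - Real.log l))) - (b - a)| ≤ 13 := by
  have hR0 : 0 < R := by linarith
  obtain ⟨ℓ, hℓd⟩ : ∃ ℓ, ℓ = Real.log k := ⟨_, rfl⟩
  rw [← hℓd] at hb hℓ hv1 hv2
  have hℓ0 : 0 ≤ ℓ := by linarith
  obtain ⟨F, hF⟩ : ∃ F : ℝ → ℝ, F = fun s => ∑ l ∈ Ms k (1 / 2) 2,
      ArithmeticFunction.vonMangoldt l / (l : ℝ) *
        (if a - (v - Real.log l) ≤ s ∧ s < b - (v - Real.log l) then 1 else 0) := ⟨_, rfl⟩
  have hFi : ∀ s, gs R s * F s = ∑ l ∈ Ms k (1 / 2) 2,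
      ArithmeticFunction.vonMangoldt l / (l : ℝ) *
        (gs R s * (if a - (v - Real.log l) ≤ s ∧ s < b - (v - Real.log l) then 1 else 0)) := by
    intro s
    rw [hF, mul_sum]
    refine sum_congr rfl fun l _ => ?_
    ring
  have hgi := gs_integrable hR0
  have hg1 := integral_gs hR0
  have hint : Integrable fun s => gs R s * F s := by
    simp only [hFi]
    exact integrable_finsetSum _ fun l _ => (C4_Ji hR0 _ _).const_mul _
  have hS : ∑ l ∈ Ms k (1 / 2) 2, ArithmeticFunction.vonMangoldt l / (l : ℝ) *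
      ∫ x in a..b, gs R (x - (v - Real.log l)) = ∫ s, gs R s * F s := by
    simp only [hFi]
    rw [integral_finsetSum _ fun l _ => (C4_Ji hR0 _ _).const_mul _]
    refine sum_congr rfl fun l _ => ?_
    rw [integral_const_mul, C4_J a b (v - Real.log l) hab]
  have hD : b - a = ∫ s, gs R s * (b - a) := by
    rw [integral_mul_const, hg1, one_mul]
  rw [hS]
  have hdiff : (∫ s, gs R s * F s) - (b - a) = ∫ s, gs R s * (F s - (b - a)) := by
    conv_lhs => rw [hD]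
    rw [← integral_sub hint (hgi.mul_const _)]
    refine integral_congr_ae (Filter.Eventually.of_forall fun s => ?_)
    simp only
    ring
  rw [hdiff]
  -- pointwise bound
  have hF0 : ∀ s, 0 ≤ F s := fun s => by
    rw [hF]
    refine sum_nonneg fun l _ => mul_nonneg (C4_lam0 l) ?_
    split_ifs <;> norm_num
  have hF1 : ∀ s, F s ≤ 2 * ℓ + 6 := fun s => by
    rw [hF]
    refine le_trans (sum_le_sum fun l _ => ?_) (by rw [hℓd]; exact C4_lsum hk)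
    refine mul_le_of_le_one_right (C4_lam0 l) ?_
    split_ifs <;> norm_num
  have hmem : MeasurableSet {x : ℝ | ℓ / 20 ≤ |x|} :=
    measurableSet_le measurable_const continuous_abs.measurable
  have hpt : ∀ s, |F s - (b - a)| ≤ 12 +
      (2 * ℓ + 6) * ({x : ℝ | ℓ / 20 ≤ |x|}.indicator (fun _ => (1 : ℝ)) s) := by
    intro s
    by_cases hs : ℓ / 20 ≤ |s|
    · rw [Set.indicator_of_mem (show s ∈ {x : ℝ | ℓ / 20 ≤ |x|} from hs), abs_le]
      have h1 := hF0 s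
      have h2 := hF1 s
      constructor <;> linarith
    · rw [Set.indicator_of_notMem (show s ∉ {x : ℝ | ℓ / 20 ≤ |x|} from hs), mul_zero, add_zero]
      rw [not_le] at hs
      have hs1 := (abs_lt.1 hs).1
      have hs2 := (abs_lt.1 hs).2
      have h3 := C4_F (k := k) (y₁ := s + v - b) (y₂ := s + v - a) hk
        (by rw [← hℓd]; linarith) (by linarith) (by rw [← hℓd]; linarith)
      have h4 : F s = ∑ l ∈ Ms k (1 / 2) 2, ArithmeticFunction.vonMangoldt l / (l : ℝ) *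
          (if s + v - b < Real.log l ∧ Real.log l ≤ s + v - a then 1 else 0) := by
        rw [hF]
        refine sum_congr rfl fun l _ => ?_
        have e1 : (a - (v - Real.log l) ≤ s ∧ s < b - (v - Real.log l)) ↔
            (s + v - b < Real.log l ∧ Real.log l ≤ s + v - a) := by
          constructor
          · rintro ⟨h5, h6⟩
            exact ⟨by linarith, by linarith⟩
          · rintro ⟨h5, h6⟩
            exact ⟨by linarith, by linarith⟩
        simp only [e1]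
      rw [h4]
      have e2 : s + v - a - (s + v - b) = b - a := by ring
      rw [e2] at h3
      exact h3
  have hgi2 : Integrable fun s => gs R s *
      ({x : ℝ | ℓ / 20 ≤ |x|}.indicator (fun _ => (1 : ℝ)) s) := by
    refine (hgi.indicator hmem).congr (Filter.Eventually.of_forall fun s => ?_)
    simp only [Set.indicator_apply]
    split_ifs <;> simp
  have hb1 : Integrable fun s => gs R s * (12 +
      (2 * ℓ + 6) * ({x : ℝ | ℓ / 20 ≤ |x|}.indicator (fun _ => (1 : ℝ)) s)) := by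
    have h1 := (hgi.mul_const 12).add (hgi2.const_mul (2 * ℓ + 6))
    refine h1.congr (Filter.Eventually.of_forall fun s => ?_)
    simp only [Pi.add_apply]
    ring
  have htail := gs_tail R (ℓ / 20) hR0 (by linarith)
  have hval : ∫ s, gs R s * (12 +
      (2 * ℓ + 6) * ({x : ℝ | ℓ / 20 ≤ |x|}.indicator (fun _ => (1 : ℝ)) s)) =
      12 + (2 * ℓ + 6) * ∫ x in {x : ℝ | ℓ / 20 ≤ |x|}, gs R x := by
    have h1 : ∫ x in {x : ℝ | ℓ / 20 ≤ |x|}, gs R x =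
        ∫ s, gs R s * ({x : ℝ | ℓ / 20 ≤ |x|}.indicator (fun _ => (1 : ℝ)) s) := by
      rw [← integral_indicator hmem]
      refine integral_congr_ae (Filter.Eventually.of_forall fun s => ?_)
      simp only [Set.indicator_apply]
      split_ifs <;> simp
    have h2 : ∫ s, gs R s * (12 +
        (2 * ℓ + 6) * ({x : ℝ | ℓ / 20 ≤ |x|}.indicator (fun _ => (1 : ℝ)) s)) =
        ∫ s, (gs R s * 12 + (2 * ℓ + 6) *
          (gs R s * ({x : ℝ | ℓ / 20 ≤ |x|}.indicator (fun _ => (1 : ℝ)) s))) := by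
      refine integral_congr_ae (Filter.Eventually.of_forall fun s => ?_)
      simp only
      ring
    rw [h2, integral_add (hgi.mul_const 12) (hgi2.const_mul (2 * ℓ + 6)), integral_mul_const, hg1,
      integral_const_mul, h1, one_mul]
  calc |∫ s, gs R s * (F s - (b - a))| ≤ ∫ s, |gs R s * (F s - (b - a))| :=
        abs_integral_le_integral_abs
    _ ≤ ∫ s, gs R s * (12 +
        (2 * ℓ + 6) * ({x : ℝ | ℓ / 20 ≤ |x|}.indicator (fun _ => (1 : ℝ)) s)) := by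
        refine integral_mono_of_nonneg (Filter.Eventually.of_forall fun s => abs_nonneg _) hb1
          (Filter.Eventually.of_forall fun s => ?_)
        simp only
        rw [abs_mul, abs_of_nonneg (gs_nonneg hR0.le s)]
        exact mul_le_mul_of_nonneg_left (hpt s) (gs_nonneg hR0.le s)
    _ = 12 + (2 * ℓ + 6) * ∫ x in {x : ℝ | ℓ / 20 ≤ |x|}, gs R x := hval
    _ ≤ 12 + (2 * ℓ + 6) * (2 * Real.exp (-((R * (ℓ / 20)) ^ 2 / 4))) := by
        have : 0 ≤ 2 * ℓ + 6 := by linarith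
        linarith [mul_le_mul_of_nonneg_left htail this]
    _ ≤ 13 := by
        have h1 : (2 * ℓ + 6) * (2 * Real.exp (-((R * (ℓ / 20)) ^ 2 / 4))) ≤ 1 := by
          rw [Real.exp_neg]
          have h2 : 1 + ℓ ^ 2 / 1600 ≤ Real.exp ((R * (ℓ / 20)) ^ 2 / 4) := by
            have h3 := Real.add_one_le_exp ((R * (ℓ / 20)) ^ 2 / 4)
            have h4 : ℓ ^ 2 / 1600 ≤ (R * (ℓ / 20)) ^ 2 / 4 := by
              have h5 : (ℓ / 20) ^ 2 ≤ (R * (ℓ / 20)) ^ 2 := by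
                refine pow_le_pow_left₀ (by linarith) ?_ 2
                exact le_mul_of_one_le_left (by linarith) hR
              nlinarith
            linarith
          have h6 : (2 * ℓ + 6) * 2 ≤ 1 + ℓ ^ 2 / 1600 := by nlinarith
          have h7 : 0 < Real.exp ((R * (ℓ / 20)) ^ 2 / 4) := Real.exp_pos _
          rw [← mul_assoc, ← div_eq_mul_inv, div_le_one h7]
          linarith
        linarith

theorem B3 (β η ε₁ ε₂ R : ℝ) (hβ : 0 < β) (hβ2 : β ≤ 9 / 11) (hη : 0 < η) (hε₁ : 0 < ε₁)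
    (hε₁₂ : ε₁ < ε₂) (hε₂ : ε₂ ≤ 1 / 20) (hR : 1 ≤ R) :
    ∃ k0 : ℝ, ∀ k : ℝ, k0 ≤ k → ∀ μ lam u : ℝ, η ≤ μ → 0 ≤ lam → μ + lam ≤ β + 2 * ε₂ →
      |u - (1 + β) * Real.log k| ≤ ε₂ * Real.log k + 1 →
      |JT k ε₁ ε₂ μ lam R u - LL k ε₁ ε₂ * (lam * Real.log k)| ≤ 20 * LL k ε₁ ε₂ := by
  refine ⟨Real.exp (max 20000 (24 * R ^ 2 / η ^ 2)), ?_⟩
  intro k hk μ lam u hμ hlam hμl hu
  have hk0 : 0 < k := (Real.exp_pos _).trans_le hk
  have hL := (Real.le_log_iff_exp_le hk0).2 hk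
  have hL1 : 20000 ≤ Real.log k := (le_max_left _ _).trans hL
  have hL2 : 24 * R ^ 2 / η ^ 2 ≤ Real.log k := (le_max_right _ _).trans hL
  have hk1 : 1 ≤ k := by
    have h1 : Real.exp 0 ≤ Real.exp (max 20000 (24 * R ^ 2 / η ^ 2)) :=
      Real.exp_le_exp.2 ((by norm_num : (0 : ℝ) ≤ 20000).trans (le_max_left _ _))
    rw [Real.exp_zero] at h1
    linarith
  have hR0 : 0 < R := by linarith
  -- the interval
  have hx1 : 1 ≤ k ^ μ := Real.one_le_rpow hk1 (by linarith)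
  have hx2 : 1 ≤ k ^ (μ + lam) := Real.one_le_rpow hk1 (by linarith)
  obtain ⟨A1, A2, A3, A4⟩ := C4_floor hx1
  obtain ⟨B1, B2, B3', B4⟩ := C4_floor hx2
  rw [Real.log_rpow hk0] at A3 A4 B3' B4
  have hAB : ⌊k ^ μ⌋₊ ≤ ⌊k ^ (μ + lam)⌋₊ :=
    Nat.floor_le_floor (Real.rpow_le_rpow_of_exponent_le hk1 (by linarith))
  have hlogAB : Real.log ⌊k ^ μ⌋₊ ≤ Real.log ⌊k ^ (μ + lam)⌋₊ :=
    Real.log_le_log (by exact_mod_cast A1) (by exact_mod_cast hAB)
  have hlogA0 : 0 ≤ Real.log ⌊k ^ μ⌋₊ := Real.log_nonneg (by exact_mod_cast A1)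
  have hεp : 0 < ε₂ := hε₁.trans hε₁₂
  have hlamℓ : (μ + lam) * Real.log k ≤ (β + 2 * ε₂) * Real.log k :=
    mul_le_mul_of_nonneg_right hμl (by linarith)
  obtain ⟨hu1, hu2⟩ := abs_le.1 hu
  have hβℓ : β * Real.log k ≤ 9 / 11 * Real.log k := mul_le_mul_of_nonneg_right hβ2 (by linarith)
  have hεℓ : ε₂ * Real.log k ≤ 1 / 20 * Real.log k := mul_le_mul_of_nonneg_right hε₂ (by linarith)
  have hεℓ0 : 0 ≤ ε₂ * Real.log k := mul_nonneg hεp.le (by linarith)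
  -- every prime
  have hq : ∀ q ∈ Qs k ε₁ ε₂, |(∑ m ∈ Ms k μ (μ + lam), ∑ l ∈ Ms k (1 / 2) 2,
      ArithmeticFunction.vonMangoldt l / ((m : ℝ) * l) *
        gs R (Real.log q + Real.log m + Real.log l - u)) - lam * Real.log k| ≤ 20 := by
    intro q hq
    unfold Qs at hq
    rw [mem_filter, mem_Ioc] at hq
    have hq1 : 1 ≤ q := hq.2.one_lt.le
    have hq1' : (1 : ℝ) ≤ q := by exact_mod_cast hq1
    have hq0 : 0 ≤ Real.log q := Real.log_nonneg hq1'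
    have hq2 : Real.log q ≤ ε₂ * Real.log k := by
      rw [← Real.log_rpow hk0]
      exact Real.log_le_log (by linarith)
        ((Nat.le_floor_iff (Real.rpow_nonneg hk0.le _)).1 hq.1.2)
    have hT : ∑ m ∈ Ms k μ (μ + lam), ∑ l ∈ Ms k (1 / 2) 2,
        ArithmeticFunction.vonMangoldt l / ((m : ℝ) * l) *
          gs R (Real.log q + Real.log m + Real.log l - u) =
        ∑ l ∈ Ms k (1 / 2) 2, ArithmeticFunction.vonMangoldt l / (l : ℝ) *
          ∑ m ∈ Ioc ⌊k ^ μ⌋₊ ⌊k ^ (μ + lam)⌋₊, (1 : ℝ) / m *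
            gs R (Real.log m - ((u - Real.log q) - Real.log l)) := by
      rw [sum_comm]
      refine sum_congr rfl fun l _ => ?_
      rw [mul_sum]
      refine sum_congr rfl fun m _ => ?_
      have e1 : Real.log q + Real.log m + Real.log l - u =
          Real.log m - ((u - Real.log q) - Real.log l) := by ring
      rw [e1, ← mul_assoc, div_mul_div_comm, mul_one, mul_comm (m : ℝ) (l : ℝ)]
    have hmain := C4_main (k := k) (R := R) (v := u - Real.log q) (a := Real.log ⌊k ^ μ⌋₊)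
      (b := Real.log ⌊k ^ (μ + lam)⌋₊) hk1 hR hlogAB hlogA0 (by linarith) hL1 (by linarith)
      (by linarith)
    have hdiff : |(∑ l ∈ Ms k (1 / 2) 2, ArithmeticFunction.vonMangoldt l / (l : ℝ) *
          ∑ m ∈ Ioc ⌊k ^ μ⌋₊ ⌊k ^ (μ + lam)⌋₊, (1 : ℝ) / m *
            gs R (Real.log m - ((u - Real.log q) - Real.log l))) -
        ∑ l ∈ Ms k (1 / 2) 2, ArithmeticFunction.vonMangoldt l / (l : ℝ) *
          ∫ x in (Real.log ⌊k ^ μ⌋₊)..(Real.log ⌊k ^ (μ + lam)⌋₊),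
            gs R (x - ((u - Real.log q) - Real.log l))| ≤ 1 := by
      rw [← sum_sub_distrib]
      refine (abs_sum_le_sum_abs _ _).trans ?_
      have hA0 : (0 : ℝ) < ⌊k ^ μ⌋₊ := by exact_mod_cast A1
      calc ∑ l ∈ Ms k (1 / 2) 2, |ArithmeticFunction.vonMangoldt l / (l : ℝ) *
              ∑ m ∈ Ioc ⌊k ^ μ⌋₊ ⌊k ^ (μ + lam)⌋₊, (1 : ℝ) / m *
                gs R (Real.log m - ((u - Real.log q) - Real.log l)) -
            ArithmeticFunction.vonMangoldt l / (l : ℝ) *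
              ∫ x in (Real.log ⌊k ^ μ⌋₊)..(Real.log ⌊k ^ (μ + lam)⌋₊),
                gs R (x - ((u - Real.log q) - Real.log l))|
          ≤ ∑ l ∈ Ms k (1 / 2) 2, ArithmeticFunction.vonMangoldt l / (l : ℝ) *
              (2 * R ^ 2 / ⌊k ^ μ⌋₊) := by
            refine sum_le_sum fun l _ => ?_
            rw [← mul_sub, abs_mul, abs_of_nonneg (C4_lam0 l)]
            exact mul_le_mul_of_nonneg_left (sum_gs _ _ A1 hAB R _ hR) (C4_lam0 l)
        _ = (∑ l ∈ Ms k (1 / 2) 2, ArithmeticFunction.vonMangoldt l / (l : ℝ)) *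
              (2 * R ^ 2 / ⌊k ^ μ⌋₊) := by rw [sum_mul]
        _ ≤ (2 * Real.log k + 6) * (2 * R ^ 2 / ⌊k ^ μ⌋₊) :=
            mul_le_mul_of_nonneg_right (C4_lsum hk1) (by positivity)
        _ ≤ 1 := by
            rw [← mul_div_assoc, div_le_one hA0]
            have h1 : k ^ η ≤ k ^ μ := Real.rpow_le_rpow_of_exponent_le hk1 hμ
            have h2 : (η * Real.log k) ^ 2 / 2 ≤ k ^ η := by
              rw [Real.rpow_def_of_pos hk0, mul_comm η]
              have h3 := Real.quadratic_le_exp_of_nonneg (x := Real.log k * η)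
                (mul_nonneg (by linarith) hη.le)
              have h4 : 0 ≤ Real.log k * η := mul_nonneg (by linarith) hη.le
              linarith
            have h5 : 24 * R ^ 2 ≤ Real.log k * η ^ 2 := (div_le_iff₀ (by positivity)).1 hL2
            have h6 : 24 * R ^ 2 * Real.log k ≤ (η * Real.log k) ^ 2 := by
              have := mul_le_mul_of_nonneg_right h5 (by linarith : 0 ≤ Real.log k)
              nlinarith
            have h7 : (2 * Real.log k + 6) * (2 * R ^ 2) ≤ 6 * R ^ 2 * Real.log k := by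
              have h8 : 2 * Real.log k + 6 ≤ 3 * Real.log k := by linarith
              have := mul_le_mul_of_nonneg_right h8 (by positivity : 0 ≤ 2 * R ^ 2)
              linarith
            linarith
    rw [hT]
    rw [abs_le] at hmain hdiff ⊢
    have e2 : (μ + lam) * Real.log k = μ * Real.log k + lam * Real.log k := by ring
    constructor <;> linarith
  have hJT : JT k ε₁ ε₂ μ lam R u = ∑ q ∈ Qs k ε₁ ε₂, (1 : ℝ) / q *
      ∑ m ∈ Ms k μ (μ + lam), ∑ l ∈ Ms k (1 / 2) 2,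
      ArithmeticFunction.vonMangoldt l / ((m : ℝ) * l) *
        gs R (Real.log q + Real.log m + Real.log l - u) := by
    unfold JT
    refine sum_congr rfl fun q _ => ?_
    rw [mul_sum]
    refine sum_congr rfl fun m _ => ?_
    rw [mul_sum]
    refine sum_congr rfl fun l _ => ?_
    rw [← mul_assoc, div_mul_div_comm, one_mul, mul_assoc (q : ℝ)]
  rw [hJT]
  unfold LL
  rw [sum_mul, ← sum_sub_distrib, mul_sum]
  refine (abs_sum_le_sum_abs _ _).trans (sum_le_sum fun q hq' => ?_)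
  rw [← mul_sub, abs_mul, abs_of_nonneg (by positivity : (0 : ℝ) ≤ 1 / q), mul_comm (20 : ℝ)]
  exact mul_le_mul_of_nonneg_left (hq q hq') (by positivity)

end Pool.Agent.Lib.MP_9a8698_nt
end

section

/-!
H7. From the precision `k^(β+θ/4)` to the precision `k^δ` (H5, H5b, H6, S3, A1 may be used, `sorry` or not).

PROOF. `τ₁ = k^(β+θ/4)`, `τ₂ = k^δ`. By `JT_fourier` and `compare` (for `τ₁` and `τ₂`),
`2π |JT τ₁ - JT τ₂| ≤ 2/k + ‖∫ (ker τ₁ - ker τ₂) W G‖ ≤ 2/k + ∫ |exp(-(t/τ₁)²/2) - exp(-(t/τ₂)²/2)| ‖W G‖`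
(`τ₁ ≥ τ₂`: hypothesis `δ ≤ β`). Split the last integral:
* `|t| ≤ k^(δ/2)`: `|exp(-x) - exp(-y)| ≤ |x - y| ≤ (t/τ₂)²/2 ≤ k^(-δ)/2`, so this part is at most `k^(δ/2) · k^(-δ) · (log k)^b`
  (`WGf_sup`);
* `t ∈ Tm k (δ/2) (β+θ/2)`: the weight is at most `1`; `Gf_int` with `δ/2`, `A = 1`;
* `|t| ≥ k^(β+θ/2)`: the weight is at most `exp(-(t/τ₁)²/2) ≤ exp(-k^(θ/2)/4) exp(-(t/τ₁)²/4)`, the integral of the last factor
  is at most `4 τ₁`; this part is at most `exp(-k^(θ/2)/4) · 4 k · (log k)^b`.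
All three are at most `1` for large `k`.
-/

set_option autoImplicit false

open Finset MeasureTheory

namespace Pool.Agent.Lib.MP_9a8698_nt

private theorem H7_int {τ₁ τ₂ R1 R2 M : ℝ} (hτ₂ : 0 < τ₂) (hτ : τ₂ ≤ τ₁) (hR1 : 0 ≤ R1)
    (hR2 : 0 ≤ R2) (g : ℝ → ℝ) (hg : Continuous g) (h0 : ∀ t, 0 ≤ g t) (hM : ∀ t, g t ≤ M) :
    ∫ t : ℝ, |Real.exp (-((t / τ₁) ^ 2 / 2)) - Real.exp (-((t / τ₂) ^ 2 / 2))| * g t ≤
      R1 * (R1 / τ₂) ^ 2 * M + (∫ t in {t : ℝ | R1 ≤ |t| ∧ |t| ≤ R2}, g t) +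
        4 * τ₁ * Real.exp (-((R2 / τ₁) ^ 2 / 4)) * M := by
  have hτ₁ : 0 < τ₁ := lt_of_lt_of_le hτ₂ hτ
  have hM0 : 0 ≤ M := (h0 0).trans (hM 0)
  set T : Set ℝ := {t : ℝ | R1 ≤ |t| ∧ |t| ≤ R2} with hT
  have hTm : MeasurableSet T :=
    ((isClosed_le continuous_const continuous_abs).inter
      (isClosed_le continuous_abs continuous_const)).measurableSet
  have hTs : T ⊆ Set.Icc (-R2) R2 := fun t ht => abs_le.mp ht.2
  have hgT : IntegrableOn g T := (hg.continuousOn.integrableOn_Icc).mono_set hTs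
  have hgauss : Integrable (fun t : ℝ => Real.exp (-((t / τ₁) ^ 2 / 4))) := by
    have h := integrable_exp_neg_mul_sq (b := 1 / (4 * τ₁ ^ 2)) (by positivity)
    refine h.congr (Filter.Eventually.of_forall fun t => ?_)
    simp only
    congr 1
    rw [div_pow]
    ring
  have hgauss2 : ∫ t : ℝ, Real.exp (-((t / τ₁) ^ 2 / 4)) ≤ 4 * τ₁ := by
    have h1 : ∫ t : ℝ, Real.exp (-((t / τ₁) ^ 2 / 4)) = √(Real.pi / (1 / (4 * τ₁ ^ 2))) := by
      rw [← integral_gaussian]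
      refine integral_congr_ae (Filter.Eventually.of_forall fun t => ?_)
      simp only
      congr 1
      rw [div_pow]
      ring
    rw [h1, Real.sqrt_le_left (by positivity)]
    have h2 : Real.pi / (1 / (4 * τ₁ ^ 2)) = Real.pi * (4 * τ₁ ^ 2) := by
      field_simp
    rw [h2]
    have h3 := Real.pi_le_four
    nlinarith [sq_nonneg τ₁]
  have hI1 : Integrable ((Set.Icc (-R1) R1).indicator fun _ : ℝ => (R1 / τ₂) ^ 2 / 2 * M) :=
    (integrable_indicator_iff measurableSet_Icc).mpr (integrableOn_const (by simp))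
  have hI2 : Integrable (T.indicator g) := (integrable_indicator_iff hTm).mpr hgT
  have hI3 : Integrable (fun t : ℝ => Real.exp (-((R2 / τ₁) ^ 2 / 4)) * M *
      Real.exp (-((t / τ₁) ^ 2 / 4))) := hgauss.const_mul _
  have hmain : ∀ t : ℝ,
      |Real.exp (-((t / τ₁) ^ 2 / 2)) - Real.exp (-((t / τ₂) ^ 2 / 2))| * g t ≤
      ((Set.Icc (-R1) R1).indicator (fun _ : ℝ => (R1 / τ₂) ^ 2 / 2 * M) t + T.indicator g t) +
        Real.exp (-((R2 / τ₁) ^ 2 / 4)) * M * Real.exp (-((t / τ₁) ^ 2 / 4)) := by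
    intro t
    have hE1 : Real.exp (-((t / τ₁) ^ 2 / 2)) ≤ 1 := by
      rw [Real.exp_le_one_iff]
      have : 0 ≤ (t / τ₁) ^ 2 / 2 := by positivity
      linarith
    have hE12 : Real.exp (-((t / τ₂) ^ 2 / 2)) ≤ Real.exp (-((t / τ₁) ^ 2 / 2)) := by
      apply Real.exp_le_exp.mpr
      have : (t / τ₁) ^ 2 ≤ (t / τ₂) ^ 2 := by
        rw [div_pow, div_pow]
        exact div_le_div_of_nonneg_left (sq_nonneg t) (by positivity)
          (pow_le_pow_left₀ hτ₂.le hτ 2)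
      linarith
    have hE2 : 0 < Real.exp (-((t / τ₂) ^ 2 / 2)) := Real.exp_pos _
    have hd : |Real.exp (-((t / τ₁) ^ 2 / 2)) - Real.exp (-((t / τ₂) ^ 2 / 2))| =
        Real.exp (-((t / τ₁) ^ 2 / 2)) - Real.exp (-((t / τ₂) ^ 2 / 2)) :=
      abs_of_nonneg (by linarith)
    rw [hd]
    have hp1 : 0 ≤ (Set.Icc (-R1) R1).indicator (fun _ : ℝ => (R1 / τ₂) ^ 2 / 2 * M) t :=
      Set.indicator_nonneg (fun _ _ => by positivity) t
    have hp2 : 0 ≤ T.indicator g t := Set.indicator_nonneg (fun x _ => h0 x) t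
    have hp3 : 0 ≤ Real.exp (-((R2 / τ₁) ^ 2 / 4)) * M * Real.exp (-((t / τ₁) ^ 2 / 4)) := by
      positivity
    rcases le_or_gt |t| R1 with h1 | h1
    · have h2 : t ∈ Set.Icc (-R1) R1 := abs_le.mp h1
      have h3 : Real.exp (-((t / τ₁) ^ 2 / 2)) - Real.exp (-((t / τ₂) ^ 2 / 2)) ≤
          (R1 / τ₂) ^ 2 / 2 := by
        have h4 := Real.add_one_le_exp (-((t / τ₂) ^ 2 / 2))
        have h5 : (t / τ₂) ^ 2 ≤ (R1 / τ₂) ^ 2 := by
          rw [div_pow, div_pow]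
          refine div_le_div_of_nonneg_right ?_ (by positivity)
          rw [← sq_abs]
          exact pow_le_pow_left₀ (abs_nonneg t) h1 2
        linarith
      have h4 : (Real.exp (-((t / τ₁) ^ 2 / 2)) - Real.exp (-((t / τ₂) ^ 2 / 2))) * g t ≤
          (R1 / τ₂) ^ 2 / 2 * M :=
        mul_le_mul h3 (hM t) (h0 t) (by positivity)
      rw [Set.indicator_of_mem h2]
      linarith
    · rcases le_or_gt |t| R2 with h2 | h2
      · have h3 : t ∈ T := ⟨h1.le, h2⟩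
        rw [Set.indicator_of_mem h3]
        have h4 : (Real.exp (-((t / τ₁) ^ 2 / 2)) - Real.exp (-((t / τ₂) ^ 2 / 2))) * g t ≤
            1 * g t := mul_le_mul_of_nonneg_right (by linarith) (h0 t)
        linarith
      · have h3 : Real.exp (-((t / τ₁) ^ 2 / 2)) ≤
            Real.exp (-((R2 / τ₁) ^ 2 / 4)) * Real.exp (-((t / τ₁) ^ 2 / 4)) := by
          rw [← Real.exp_add]
          apply Real.exp_le_exp.mpr
          have h5 : (R2 / τ₁) ^ 2 ≤ (t / τ₁) ^ 2 := by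
            rw [div_pow, div_pow]
            refine div_le_div_of_nonneg_right ?_ (by positivity)
            rw [← sq_abs t]
            exact pow_le_pow_left₀ hR2 h2.le 2
          linarith
        have h4 : (Real.exp (-((t / τ₁) ^ 2 / 2)) - Real.exp (-((t / τ₂) ^ 2 / 2))) * g t ≤
            Real.exp (-((R2 / τ₁) ^ 2 / 4)) * Real.exp (-((t / τ₁) ^ 2 / 4)) * M :=
          mul_le_mul (by linarith) (hM t) (h0 t) (by positivity)
        calc (Real.exp (-((t / τ₁) ^ 2 / 2)) - Real.exp (-((t / τ₂) ^ 2 / 2))) * g t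
            ≤ Real.exp (-((R2 / τ₁) ^ 2 / 4)) * Real.exp (-((t / τ₁) ^ 2 / 4)) * M := h4
          _ = Real.exp (-((R2 / τ₁) ^ 2 / 4)) * M * Real.exp (-((t / τ₁) ^ 2 / 4)) := by ring
          _ ≤ _ := by linarith
  calc ∫ t : ℝ, |Real.exp (-((t / τ₁) ^ 2 / 2)) - Real.exp (-((t / τ₂) ^ 2 / 2))| * g t
      ≤ ∫ t : ℝ, (((Set.Icc (-R1) R1).indicator (fun _ : ℝ => (R1 / τ₂) ^ 2 / 2 * M) t +
          T.indicator g t) +
          Real.exp (-((R2 / τ₁) ^ 2 / 4)) * M * Real.exp (-((t / τ₁) ^ 2 / 4))) := by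
        refine integral_mono_of_nonneg (Filter.Eventually.of_forall fun t => ?_)
          ((hI1.add hI2).add hI3) (Filter.Eventually.of_forall hmain)
        exact mul_nonneg (abs_nonneg _) (h0 t)
    _ = (∫ t : ℝ, (Set.Icc (-R1) R1).indicator (fun _ : ℝ => (R1 / τ₂) ^ 2 / 2 * M) t) +
          (∫ t : ℝ, T.indicator g t) +
          Real.exp (-((R2 / τ₁) ^ 2 / 4)) * M * ∫ t : ℝ, Real.exp (-((t / τ₁) ^ 2 / 4)) := by
        have hI12 : Integrable (fun t : ℝ =>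
            (Set.Icc (-R1) R1).indicator (fun _ : ℝ => (R1 / τ₂) ^ 2 / 2 * M) t +
              T.indicator g t) := hI1.add hI2
        rw [integral_add hI12 hI3, integral_add hI1 hI2, integral_const_mul]
    _ = R1 * (R1 / τ₂) ^ 2 * M + (∫ t in T, g t) +
          Real.exp (-((R2 / τ₁) ^ 2 / 4)) * M * ∫ t : ℝ, Real.exp (-((t / τ₁) ^ 2 / 4)) := by
        rw [integral_indicator hTm, integral_indicator measurableSet_Icc, setIntegral_const,
          smul_eq_mul, Real.volume_real_Icc_of_le (by linarith)]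
        ring
    _ ≤ R1 * (R1 / τ₂) ^ 2 * M + (∫ t in T, g t) +
          Real.exp (-((R2 / τ₁) ^ 2 / 4)) * M * (4 * τ₁) := by
        have := mul_le_mul_of_nonneg_left hgauss2
          (show 0 ≤ Real.exp (-((R2 / τ₁) ^ 2 / 4)) * M by positivity)
        linarith
    _ = _ := by ring

private theorem H7_log (b s : ℝ) (hs : 0 < s) :
    ∃ k0 : ℝ, ∀ k : ℝ, k0 ≤ k → (Real.log k) ^ b ≤ k ^ s := by
  have h := (isLittleO_log_rpow_rpow_atTop b hs).bound one_pos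
  obtain ⟨k0, hk0⟩ := Filter.eventually_atTop.1 h
  refine ⟨max k0 1, fun k hk => ?_⟩
  have h1 := hk0 k ((le_max_left _ _).trans hk)
  have hk1 : 1 ≤ k := (le_max_right _ _).trans hk
  have h2 : 0 ≤ Real.log k := Real.log_nonneg hk1
  rw [one_mul, Real.norm_eq_abs, Real.norm_eq_abs, abs_of_nonneg (Real.rpow_nonneg h2 _),
    abs_of_nonneg (Real.rpow_nonneg (by linarith) _)] at h1
  exact h1

private theorem H7_exp (θ : ℝ) (hθ : 0 < θ) :
    ∃ k0 : ℝ, ∀ k : ℝ, k0 ≤ k → 4 * k ^ (2 : ℝ) * Real.exp (-(k ^ (θ / 2) / 4)) ≤ 1 := by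
  have h1 := tendsto_rpow_mul_exp_neg_mul_atTop_nhds_zero (4 / θ) (1 / 4) (by norm_num)
  have h2 := h1.comp (tendsto_rpow_atTop (show (0 : ℝ) < θ / 2 by positivity))
  have h3 := h2.eventually (gt_mem_nhds (show (0 : ℝ) < 1 / 4 by norm_num))
  obtain ⟨k0, hk0⟩ := Filter.eventually_atTop.1 h3
  refine ⟨max k0 1, fun k hk => ?_⟩
  have h4 := hk0 k ((le_max_left _ _).trans hk)
  have hk1 : 1 ≤ k := (le_max_right _ _).trans hk
  simp only [Function.comp_apply] at h4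
  have h5 : (k ^ (θ / 2)) ^ (4 / θ) = k ^ (2 : ℝ) := by
    rw [← Real.rpow_mul (by linarith)]
    congr 1
    field_simp
    norm_num
  rw [h5] at h4
  have h6 : -(1 / 4 : ℝ) * k ^ (θ / 2) = -(k ^ (θ / 2) / 4) := by ring
  rw [h6] at h4
  linarith

theorem B2 (β θ η ε₁ ε₂ δ : ℝ) (hβ : 0 < β) (hθ : 0 < θ) (hβ2 : β ≤ 9 / 11 - 20 * θ)
    (hη : 0 < η) (hη1 : η ≤ 1) (hε₁ : 0 < ε₁) (hε₁₂ : ε₁ < ε₂) (hε : 16 * ε₂ ≤ θ) (hδ : 0 < δ)
    (hδβ : δ ≤ β) :
    ∃ k0 : ℝ, ∀ k : ℝ, k0 ≤ k → ∀ μ lam u : ℝ, η ≤ μ → 0 ≤ lam → μ + lam ≤ β + 2 * ε₂ →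
      |u - (1 + β) * Real.log k| ≤ ε₂ * Real.log k + 1 →
      |JT k ε₁ ε₂ μ lam (k ^ (β + θ / 4)) u - JT k ε₁ ε₂ μ lam (k ^ δ) u| ≤ 1 := by
  have hβ3 : β ≤ 9 / 11 := by linarith
  have hθ2 : θ ≤ 1 / 20 := by linarith
  have hε₂0 : 0 < ε₂ := by linarith
  have hε₂1 : ε₂ ≤ 1 := by linarith
  obtain ⟨k1, hcmp⟩ := compare β θ ε₁ ε₂ δ hβ hβ3 hθ hε₁ hε₁₂ hε hθ2 hδ
  obtain ⟨k2, b, hsup⟩ := WGf_sup β θ ε₁ ε₂ hε₁ hε₂1
  obtain ⟨k3, hint⟩ := Gf_int β θ η ε₁ ε₂ (δ / 2) 1 hβ hθ hβ2 hη hη1 hε₁ hε₁₂ hε (by linarith)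
  obtain ⟨k4, hlog⟩ := H7_log b (δ / 2) (by linarith)
  obtain ⟨k5, hexp⟩ := H7_exp θ hθ
  refine ⟨max (max (max k1 k2) (max k3 k4)) (max k5 3), ?_⟩
  intro k hk μ lam u hμ hlam hμl hu
  simp only [max_le_iff] at hk
  obtain ⟨⟨⟨hk1, hk2⟩, hk3, hk4⟩, hk5, hk6⟩ := hk
  have hk0 : 0 < k := by linarith
  have hkone : 1 ≤ k := by linarith
  have hμ0 : 0 ≤ μ := by linarith
  have hμl2 : μ + lam ≤ 2 := by linarith
  set τ₁ : ℝ := k ^ (β + θ / 4) with hτ₁
  set τ₂ : ℝ := k ^ δ with hτ₂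
  have hτ₂0 : 0 < τ₂ := Real.rpow_pos_of_pos hk0 _
  have hτ₁0 : 0 < τ₁ := Real.rpow_pos_of_pos hk0 _
  have hτ : τ₂ ≤ τ₁ := Real.rpow_le_rpow_of_exponent_le hkone (by linarith)
  have hc1 := hcmp k hk1 μ lam τ₁ u hμ0 hlam hμl hτ
    (Real.rpow_le_rpow_of_exponent_le hkone (by linarith)) hu
  have hc2 := hcmp k hk1 μ lam τ₂ u hμ0 hlam hμl le_rfl
    (Real.rpow_le_rpow_of_exponent_le hkone (by linarith)) hu
  rw [JT_fourier k ε₁ ε₂ μ lam u hτ₁0] at hc1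
  rw [JT_fourier k ε₁ ε₂ μ lam u hτ₂0] at hc2
  set G : ℝ → ℂ := fun t => Wf k ε₁ ε₂ t * Gf k β θ μ lam t with hG
  have hGc : Continuous G := by
    have h1 : Continuous (Wf k ε₁ ε₂) := DP_continuous _ _
    exact h1.mul (Gf_cont k β θ μ lam)
  have hGM : ∀ t, ‖G t‖ ≤ (Real.log k) ^ b := fun t => hsup k hk2 μ lam t hμ0 hlam hμl2
  have hi : ∀ τ : ℝ, 0 < τ → Integrable (fun t : ℝ => ker τ u t * G t) := fun τ hτ0 =>
    gauss_integrable hτ0 G hGc _ hGM u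
  -- the difference of the integrals
  have hdiff : ‖(∫ t : ℝ, ker τ₁ u t * G t) - ∫ t : ℝ, ker τ₂ u t * G t‖ ≤
      ∫ t : ℝ, |Real.exp (-((t / τ₁) ^ 2 / 2)) - Real.exp (-((t / τ₂) ^ 2 / 2))| * ‖G t‖ := by
    rw [← integral_sub (hi τ₁ hτ₁0) (hi τ₂ hτ₂0)]
    refine (norm_integral_le_integral_norm _).trans (le_of_eq ?_)
    refine integral_congr_ae (Filter.Eventually.of_forall fun t => ?_)
    simp only [ker]
    have h1 : ((Real.exp (-((t / τ₁) ^ 2 / 2)) : ℝ) : ℂ) *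
        Complex.exp (((u * t : ℝ) : ℂ) * Complex.I) * G t -
        ((Real.exp (-((t / τ₂) ^ 2 / 2)) : ℝ) : ℂ) *
        Complex.exp (((u * t : ℝ) : ℂ) * Complex.I) * G t =
        ((Real.exp (-((t / τ₁) ^ 2 / 2)) - Real.exp (-((t / τ₂) ^ 2 / 2)) : ℝ) : ℂ) *
        Complex.exp (((u * t : ℝ) : ℂ) * Complex.I) * G t := by
      push_cast
      ring
    rw [h1, norm_mul, norm_mul, Complex.norm_exp_ofReal_mul_I, mul_one, Complex.norm_real,
      Real.norm_eq_abs]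
  have hR1 : (0 : ℝ) ≤ k ^ (δ / 2) := Real.rpow_nonneg hk0.le _
  have hR2 : (0 : ℝ) ≤ k ^ (β + θ / 2) := Real.rpow_nonneg hk0.le _
  have hb := H7_int hτ₂0 hτ hR1 hR2 (fun t => ‖G t‖) hGc.norm (fun t => norm_nonneg _) hGM
  have hI := hint k hk3 μ lam hμ hlam hμl
  have hℓ1 : 1 ≤ Real.log k := by
    rw [Real.le_log_iff_exp_le hk0]
    have := Real.exp_one_lt_d9
    linarith
  have hlogb := hlog k hk4
  have hexpb := hexp k hk5
  have hlb0 : 0 ≤ (Real.log k) ^ b := Real.rpow_nonneg (by linarith) _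
  have p1 : k ^ (δ / 2) * (k ^ (δ / 2) / τ₂) ^ 2 * (Real.log k) ^ b ≤ 1 := by
    have e1 : k ^ (δ / 2) * (k ^ (δ / 2) / τ₂) ^ 2 = (k ^ (δ / 2))⁻¹ := by
      rw [hτ₂, ← Real.rpow_sub hk0, ← Real.rpow_natCast (k ^ (δ / 2 - δ)) 2,
        ← Real.rpow_mul hk0.le, ← Real.rpow_add hk0, ← Real.rpow_neg hk0.le]
      congr 1
      push_cast
      ring
    rw [e1, inv_mul_le_iff₀ (Real.rpow_pos_of_pos hk0 _), mul_one]
    exact hlogb
  have p2 : ∫ t in {t : ℝ | k ^ (δ / 2) ≤ |t| ∧ |t| ≤ k ^ (β + θ / 2)}, ‖G t‖ ≤ 1 := by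
    refine le_trans hI ?_
    rw [Real.rpow_neg_one]
    exact inv_le_one_of_one_le₀ hℓ1
  have p3 : 4 * τ₁ * Real.exp (-((k ^ (β + θ / 2) / τ₁) ^ 2 / 4)) * (Real.log k) ^ b ≤ 1 := by
    have e1 : (k ^ (β + θ / 2) / τ₁) ^ 2 = k ^ (θ / 2) := by
      rw [hτ₁, ← Real.rpow_sub hk0, ← Real.rpow_natCast (k ^ (β + θ / 2 - (β + θ / 4))) 2,
        ← Real.rpow_mul hk0.le]
      congr 1
      push_cast
      ring
    rw [e1]
    have h1 : τ₁ * (Real.log k) ^ b ≤ k ^ (2 : ℝ) := by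
      calc τ₁ * (Real.log k) ^ b ≤ k ^ (β + θ / 4) * k ^ (δ / 2) :=
            mul_le_mul_of_nonneg_left hlogb hτ₁0.le
        _ = k ^ (β + θ / 4 + δ / 2) := (Real.rpow_add hk0 _ _).symm
        _ ≤ k ^ (2 : ℝ) := Real.rpow_le_rpow_of_exponent_le hkone (by linarith)
    calc 4 * τ₁ * Real.exp (-(k ^ (θ / 2) / 4)) * (Real.log k) ^ b
        = 4 * (τ₁ * (Real.log k) ^ b) * Real.exp (-(k ^ (θ / 2) / 4)) := by ring
      _ ≤ 4 * k ^ (2 : ℝ) * Real.exp (-(k ^ (θ / 2) / 4)) :=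
          mul_le_mul_of_nonneg_right (by linarith) (Real.exp_pos _).le
      _ ≤ 1 := hexpb
  have p0 : 1 / k ≤ 1 := by
    rw [div_le_one hk0]
    exact hkone
  -- assembly
  have hfin : ‖((2 * Real.pi * JT k ε₁ ε₂ μ lam τ₁ u : ℝ) : ℂ) -
      ((2 * Real.pi * JT k ε₁ ε₂ μ lam τ₂ u : ℝ) : ℂ)‖ ≤ 1 + 1 + 3 := by
    have e : ((2 * Real.pi * JT k ε₁ ε₂ μ lam τ₁ u : ℝ) : ℂ) -
        ((2 * Real.pi * JT k ε₁ ε₂ μ lam τ₂ u : ℝ) : ℂ) =
        (((2 * Real.pi * JT k ε₁ ε₂ μ lam τ₁ u : ℝ) : ℂ) - ∫ t : ℝ, ker τ₁ u t * G t) -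
        (((2 * Real.pi * JT k ε₁ ε₂ μ lam τ₂ u : ℝ) : ℂ) - ∫ t : ℝ, ker τ₂ u t * G t) +
        ((∫ t : ℝ, ker τ₁ u t * G t) - ∫ t : ℝ, ker τ₂ u t * G t) := by ring
    rw [e]
    refine (norm_add_le _ _).trans (add_le_add ((norm_sub_le _ _).trans (add_le_add ?_ ?_)) ?_)
    · exact hc1.trans p0
    · exact hc2.trans p0
    · refine hdiff.trans (hb.trans ?_)
      linarith
  rw [← Complex.ofReal_sub, Complex.norm_real, Real.norm_eq_abs, ← mul_sub, abs_mul,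
    abs_of_pos (by positivity : (0 : ℝ) < 2 * Real.pi)] at hfin
  have hpi := Real.pi_gt_three
  by_contra hcon
  rw [not_le] at hcon
  nlinarith

end Pool.Agent.Lib.MP_9a8698_nt
end

section

/-!
C7. The asymptotic formula for the weighted count of triples (B1-B4 and D2 may be used, `sorry` or not).

PROOF. `δ = min (η/16) (min (1/16) β)`, `Λ = 4 log(ε₂/ε₁) + 4` (upper bound for `LL`, `LL_upper` of D2), `C` from `B1`,
`R = (4 C Λ/ε + 1)^4`, so `C Λ R^(-1/4) ≤ ε/4`. For `log n ≤ u ≤ log(n+k)` one has `|u - (1+β) ℓ| ≤ ε₂ ℓ + 1` (`k ≤ n`, `log 2 ≤ 1`). `B2`, `B1`, `B3` give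
`|JT (k^(β+θ/4)) u - LL lam ℓ| ≤ 1 + (C LL ℓ R^(-1/4) + 1) + 20 LL ≤ E := ε ℓ/4 + 2 + 20 Λ`. With `D = LL lam ℓ ≤ Λ ℓ` (`lam ≤ 1`), `B4` gives
`|AA - k D| ≤ k E + k^(1-θ/100) (1 + D) ≤ ε k ℓ` for large `k`.
-/

set_option autoImplicit false

open Finset MeasureTheory

namespace Pool.Agent.Lib.MP_9a8698_nt

theorem AT (β θ η ε₁ ε₂ ε : ℝ) (hβ : 0 < β) (hθ : 0 < θ) (hθβ : θ ≤ β)
    (hβ2 : β ≤ 9 / 11 - 20 * θ) (hη : 0 < η) (hη1 : η ≤ 1) (hε₁ : 0 < ε₁) (hε₁₂ : ε₁ < ε₂)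
    (hε : 16 * ε₂ ≤ θ) (he : 0 < ε) :
    ∃ k0 : ℝ, ∀ k n : ℕ, k0 ≤ k → (k : ℝ) ^ (1 + β - ε₂) ≤ n → (n : ℝ) ≤ (k : ℝ) ^ (1 + β + ε₂) →
      ∀ μ lam : ℝ, η ≤ μ → 0 ≤ lam → μ + lam ≤ β + 2 * ε₂ →
        |AA k ε₁ ε₂ μ lam n k - k * (LL k ε₁ ε₂ * (lam * Real.log k))| ≤ ε * k * Real.log k := by
  have hθ20 : θ ≤ 1 / 20 := by linarith
  have hβ3 : β ≤ 9 / 11 := by linarith
  have hε₂0 : 0 < ε₂ := by linarith
  have hε₂20 : ε₂ ≤ 1 / 20 := by linarith
  have hlogr : 0 < Real.log (ε₂ / ε₁) := by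
    apply Real.log_pos
    rw [lt_div_iff₀ hε₁]
    linarith
  set Lam : ℝ := 4 * Real.log (ε₂ / ε₁) + 4 with hLam
  have hLam0 : 0 < Lam := by positivity
  obtain ⟨C, hC, hB1⟩ := B1
  set δ : ℝ := min (η / 16) (min (1 / 16) β) with hδd
  have hδ0 : 0 < δ := lt_min (by positivity) (lt_min (by norm_num) hβ)
  have hδη : 16 * δ ≤ η := by
    have := min_le_left (η / 16) (min (1 / 16) β)
    linarith
  have hδ1 : 16 * δ ≤ 1 := by
    have := (min_le_right (η / 16) (min (1 / 16) β)).trans (min_le_left _ _)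
    linarith
  have hδβ : δ ≤ β := (min_le_right (η / 16) (min (1 / 16) β)).trans (min_le_right _ _)
  set R0 : ℝ := 4 * C * Lam / ε + 1 with hR0
  have hR01 : 1 ≤ R0 := by
    have : 0 ≤ 4 * C * Lam / ε := by positivity
    linarith
  set R : ℝ := R0 ^ (4 : ℕ) with hR
  have hR1 : 1 ≤ R := one_le_pow₀ hR01
  have hRp : R ^ (-((1 : ℝ) / 4)) = R0⁻¹ := by
    rw [hR, ← Real.rpow_natCast, ← Real.rpow_mul (by linarith)]
    norm_num
    rw [Real.rpow_neg_one]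
  have hCR : C * Lam * R ^ (-((1 : ℝ) / 4)) ≤ ε / 4 := by
    rw [hRp, ← div_eq_mul_inv, div_le_iff₀ (by linarith), hR0]
    have h1 : ε / 4 * (4 * C * Lam / ε + 1) = C * Lam + ε / 4 := by
      field_simp
    rw [h1]
    linarith
  obtain ⟨k1, hLL⟩ := LL_upper ε₁ ε₂ hε₁ hε₁₂
  obtain ⟨k2, h2⟩ := B2 β θ η ε₁ ε₂ δ hβ hθ hβ2 hη hη1 hε₁ hε₁₂ hε hδ0 hδβ
  obtain ⟨k3, h3⟩ := hB1 η ε₁ ε₂ δ R hη hε₁ (by linarith) hδ0 hδη hδ1 hR1
  obtain ⟨k4, h4⟩ := B3 β η ε₁ ε₂ R hβ hβ3 hη hε₁ hε₁₂ hε₂20 hR1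
  obtain ⟨k5, h5⟩ := B4 β θ ε₁ ε₂ hβ hβ3 hθ hθβ hθ20 hε₁ hε₁₂ hε
  refine ⟨max (max (max k1 k2) (max k3 k4)) (max (max k5 3)
    (max (Real.exp (4 * (2 + 20 * Lam) / ε)) ((4 * (1 + Lam) / ε) ^ (100 / θ)))), ?_⟩
  intro k n hk hn1 hn2 μ lam hμ hlam hμl
  simp only [max_le_iff] at hk
  obtain ⟨⟨⟨hk1, hk2⟩, hk3, hk4⟩, ⟨hk5, hk6⟩, hk7, hk8⟩ := hk
  have hk0 : (0 : ℝ) < k := by linarith
  have hkone : (1 : ℝ) ≤ k := by linarith
  set ℓ : ℝ := Real.log k with hℓ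
  have hℓ1 : 1 ≤ ℓ := by
    rw [hℓ, Real.le_log_iff_exp_le hk0]
    have := Real.exp_one_lt_d9
    linarith
  have hℓ2 : 4 * (2 + 20 * Lam) / ε ≤ ℓ := by
    rw [hℓ, Real.le_log_iff_exp_le hk0]
    exact hk7
  have hkθ : 4 * (1 + Lam) / ε ≤ (k : ℝ) ^ (θ / 100) := by
    calc 4 * (1 + Lam) / ε = ((4 * (1 + Lam) / ε) ^ (100 / θ)) ^ (θ / 100) := by
          rw [← Real.rpow_mul (by positivity)]
          have : 100 / θ * (θ / 100) = 1 := by
            field_simp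
          rw [this, Real.rpow_one]
      _ ≤ _ := Real.rpow_le_rpow (by positivity) hk8 (by positivity)
  have hLk : LL k ε₁ ε₂ ≤ Lam := hLL k hk1
  have hL0 : 0 ≤ LL k ε₁ ε₂ := by
    unfold LL
    exact sum_nonneg fun q _ => by positivity
  have hlam1 : lam ≤ 1 := by linarith
  have hn0 : (0 : ℝ) < n := lt_of_lt_of_le (Real.rpow_pos_of_pos hk0 _) hn1
  have hkn : (k : ℝ) ≤ n := by
    calc (k : ℝ) = (k : ℝ) ^ (1 : ℝ) := (Real.rpow_one _).symm
      _ ≤ (k : ℝ) ^ (1 + β - ε₂) := Real.rpow_le_rpow_of_exponent_le hkone (by linarith)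
      _ ≤ n := hn1
  set D : ℝ := LL k ε₁ ε₂ * (lam * ℓ) with hD
  set E : ℝ := ε / 4 * ℓ + 2 + 20 * Lam with hE
  have hD0 : 0 ≤ D := by positivity
  have hE0 : 0 ≤ E := by positivity
  have hDle : D ≤ Lam * ℓ := by
    have h6 : lam * ℓ ≤ 1 * ℓ := mul_le_mul_of_nonneg_right hlam1 (by linarith)
    rw [one_mul] at h6
    exact mul_le_mul hLk h6 (by positivity) hLam0.le
  have hJ : ∀ u : ℝ, Real.log n ≤ u → u ≤ Real.log (n + k) →
      |JT k ε₁ ε₂ μ lam ((k : ℝ) ^ (β + θ / 4)) u - D| ≤ E := by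
    intro u hu1 hu2
    have hlogn1 : (1 + β - ε₂) * ℓ ≤ Real.log n := by
      rw [hℓ, ← Real.log_rpow hk0]
      exact Real.log_le_log (Real.rpow_pos_of_pos hk0 _) hn1
    have hlogn2 : Real.log n ≤ (1 + β + ε₂) * ℓ := by
      rw [hℓ, ← Real.log_rpow hk0]
      exact Real.log_le_log hn0 hn2
    have hlogn3 : Real.log (n + k) ≤ 1 + Real.log n := by
      have h6 : Real.log (n + k) ≤ Real.log (2 * n) :=
        Real.log_le_log (by positivity) (by linarith)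
      rw [Real.log_mul (by norm_num) hn0.ne'] at h6
      have h7 := Real.log_two_lt_d9
      linarith
    have hu : |u - (1 + β) * Real.log k| ≤ ε₂ * Real.log k + 1 := by
      rw [← hℓ, abs_le]
      constructor
      · nlinarith
      · nlinarith
    have g2 := h2 k hk2 μ lam u hμ hlam hμl hu
    have g3 := h3 k hk3 μ lam u hμ hlam (by linarith)
    have g4 := h4 k hk4 μ lam u hμ hlam hμl hu
    rw [← hℓ] at g3 g4
    have g5 : C * LL k ε₁ ε₂ * ℓ * R ^ (-((1 : ℝ) / 4)) ≤ ε / 4 * ℓ := by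
      have hRn : 0 ≤ R ^ (-((1 : ℝ) / 4)) := Real.rpow_nonneg (by linarith) _
      calc C * LL k ε₁ ε₂ * ℓ * R ^ (-((1 : ℝ) / 4))
          ≤ C * Lam * ℓ * R ^ (-((1 : ℝ) / 4)) := by
            refine mul_le_mul_of_nonneg_right ?_ hRn
            refine mul_le_mul_of_nonneg_right ?_ (by linarith)
            exact mul_le_mul_of_nonneg_left hLk hC.le
        _ = (C * Lam * R ^ (-((1 : ℝ) / 4))) * ℓ := by ring
        _ ≤ ε / 4 * ℓ := mul_le_mul_of_nonneg_right hCR (by linarith)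
    rw [abs_le] at g2 g3 g4 ⊢
    constructor
    · linarith [g2.1, g3.1, g4.1]
    · linarith [g2.2, g3.2, g4.2]
  have h6 := h5 k n hk5 hn1 hn2 μ lam D E (by linarith) hlam hμl hD0 hE0 hJ
  refine h6.trans ?_
  have hkε : (k : ℝ) ^ (1 - θ / 100) * (1 + D) ≤ k * (ε / 4 * ℓ) := by
    have e1 : (k : ℝ) ^ (1 - θ / 100) = k / (k : ℝ) ^ (θ / 100) := by
      rw [Real.rpow_sub hk0, Real.rpow_one]
    have hpos : 0 < (k : ℝ) ^ (θ / 100) := Real.rpow_pos_of_pos hk0 _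
    rw [e1, div_mul_eq_mul_div, div_le_iff₀ hpos, mul_assoc]
    refine mul_le_mul_of_nonneg_left ?_ hk0.le
    have h7 : 1 + D ≤ (1 + Lam) * ℓ := by nlinarith
    have h8 : (1 + Lam) ≤ ε / 4 * (k : ℝ) ^ (θ / 100) := by
      rw [div_le_iff₀ he] at hkθ
      linarith
    calc 1 + D ≤ (1 + Lam) * ℓ := h7
      _ ≤ (ε / 4 * (k : ℝ) ^ (θ / 100)) * ℓ := mul_le_mul_of_nonneg_right h8 (by linarith)
      _ = _ := by ring
  have h9 : 2 + 20 * Lam ≤ ε / 4 * ℓ := by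
    rw [div_le_iff₀ he] at hℓ2
    linarith
  have h10 : (k : ℝ) * E ≤ k * (ε / 2 * ℓ) := by
    refine mul_le_mul_of_nonneg_left ?_ hk0.le
    rw [hE]
    linarith
  calc (k : ℝ) * E + (k : ℝ) ^ (1 - θ / 100) * (1 + D)
      ≤ k * (ε / 2 * ℓ) + k * (ε / 4 * ℓ) := add_le_add h10 hkε
    _ ≤ ε * k * ℓ := by
      have : 0 ≤ ε * k * ℓ := by positivity
      nlinarith

end Pool.Agent.Lib.MP_9a8698_nt
end

section

/-!
D3. The number of triples with a prime in the third variable (C7 (`AT`) and C5 (`pp_bound`) may be used).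

PROOF. `ℓ = log k`. For a triple counted by `CC` (`l` prime, `n < q m l ≤ n + k`): `log l = log(q m l) - log q - log m`, where
`(1+β-ε₂) ℓ ≤ log n ≤ log(q m l) ≤ log(n+k) ≤ log (2n) ≤ (1+β+ε₂) ℓ + log 2`, `0 ≤ log q ≤ ε₂ ℓ`, `μ ℓ ≤ log m ≤ (μ+lam) ℓ`
(`m > ⌊k^μ⌋` implies `m > k^μ`). So `(1+β-μ-lam-3ε₂) ℓ ≤ log l ≤ (1+β-μ+2ε₂) ℓ` for large `k`. `Λ(l) = log l` for prime `l`, so
`(1+β-μ-lam-3ε₂) ℓ CC ≤ ∑_{l prime} Λ(l) ≤ AA ≤ k LL lam ℓ + ε k ℓ` (`AT`), and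
`k LL lam ℓ - (ε/2) k ℓ ≤ AA ≤ ∑_{l prime} Λ(l) + k^(49/50) ≤ (1+β-μ+2ε₂) ℓ CC + k^(49/50)` (`AT` with `ε/2`, `pp_bound`); divide by `ℓ`.
-/

set_option autoImplicit false

open Finset

namespace Pool.Agent.Lib.MP_9a8698_nt

private theorem d3_log {k n : ℕ} {β ε₁ ε₂ μ lam : ℝ} (hk1 : (1 : ℝ) ≤ k) (hε₂ : 0 ≤ ε₂)
    (hℓ2 : Real.log 2 ≤ ε₂ * Real.log k) (hβε : ε₂ ≤ β) (hn1 : (k : ℝ) ^ (1 + β - ε₂) ≤ n)
    (hn2 : (n : ℝ) ≤ (k : ℝ) ^ (1 + β + ε₂)) {q m l : ℕ} (hq : q ∈ Qs k ε₁ ε₂)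
    (hm : m ∈ Ms k μ (μ + lam)) (hl : 0 < l) (h1 : n < q * m * l) (h2 : q * m * l ≤ n + k) :
    (1 + β - μ - lam - 3 * ε₂) * Real.log k ≤ Real.log l ∧
      Real.log l ≤ (1 + β - μ + 2 * ε₂) * Real.log k := by
  have hk0 : (0 : ℝ) < k := by linarith
  have hlk : 0 ≤ Real.log k := Real.log_nonneg hk1
  unfold Qs at hq
  unfold Ms at hm
  rw [mem_filter, mem_Ioc] at hq
  rw [mem_Ioc] at hm
  have hq0 : 0 < q := hq.2.pos
  have hm0 : 0 < m := lt_of_le_of_lt (Nat.zero_le _) hm.1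
  have hqR : (0 : ℝ) < q := by exact_mod_cast hq0
  have hmR : (0 : ℝ) < m := by exact_mod_cast hm0
  have hlR : (0 : ℝ) < l := by exact_mod_cast hl
  have q1 : 0 ≤ Real.log q := Real.log_nonneg (by exact_mod_cast hq0)
  have q2 : Real.log q ≤ ε₂ * Real.log k := by
    have h3 : (q : ℝ) ≤ (k : ℝ) ^ ε₂ :=
      (Nat.le_floor_iff (Real.rpow_nonneg hk0.le _)).1 hq.1.2
    have h4 := Real.log_le_log hqR h3
    rwa [Real.log_rpow hk0] at h4
  have m1 : μ * Real.log k ≤ Real.log m := by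
    have h3 : (k : ℝ) ^ μ < m := Nat.lt_of_floor_lt hm.1
    have h4 := Real.log_le_log (Real.rpow_pos_of_pos hk0 _) h3.le
    rwa [Real.log_rpow hk0] at h4
  have m2 : Real.log m ≤ (μ + lam) * Real.log k := by
    have h3 : (m : ℝ) ≤ (k : ℝ) ^ (μ + lam) :=
      (Nat.le_floor_iff (Real.rpow_nonneg hk0.le _)).1 hm.2
    have h4 := Real.log_le_log hmR h3
    rwa [Real.log_rpow hk0] at h4
  have hsum : Real.log ((q : ℝ) * m * l) = Real.log q + Real.log m + Real.log l := by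
    rw [Real.log_mul (mul_pos hqR hmR).ne' hlR.ne', Real.log_mul hqR.ne' hmR.ne']
  have hnR : (n : ℝ) < (q : ℝ) * m * l := by exact_mod_cast h1
  have hnk : (q : ℝ) * m * l ≤ n + k := by exact_mod_cast h2
  have hkn : (k : ℝ) ≤ n := by
    refine le_trans ?_ hn1
    have h3 := Real.rpow_le_rpow_of_exponent_le hk1 (by linarith : (1 : ℝ) ≤ 1 + β - ε₂)
    rwa [Real.rpow_one] at h3
  have low : (1 + β - ε₂) * Real.log k ≤ Real.log ((q : ℝ) * m * l) := by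
    have h3 := Real.log_le_log (Real.rpow_pos_of_pos hk0 _) (hn1.trans hnR.le)
    rwa [Real.log_rpow hk0] at h3
  have up : Real.log ((q : ℝ) * m * l) ≤ Real.log 2 + (1 + β + ε₂) * Real.log k := by
    have h3 : (q : ℝ) * m * l ≤ 2 * (k : ℝ) ^ (1 + β + ε₂) := by linarith
    have h4 := Real.log_le_log (mul_pos (mul_pos hqR hmR) hlR) h3
    rwa [Real.log_mul two_ne_zero (Real.rpow_pos_of_pos hk0 _).ne', Real.log_rpow hk0] at h4
  rw [hsum] at low up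
  have h5 : 0 ≤ ε₂ * Real.log k := mul_nonneg hε₂ hlk
  constructor
  · have e : (1 + β - μ - lam - 3 * ε₂) * Real.log k =
        (1 + β - ε₂) * Real.log k - (μ + lam) * Real.log k - 2 * (ε₂ * Real.log k) := by ring
    rw [e]
    linarith
  · have e : (1 + β - μ + 2 * ε₂) * Real.log k =
        (1 + β + ε₂) * Real.log k - μ * Real.log k + ε₂ * Real.log k := by ring
    rw [e]
    linarith

theorem CC_bounds (β θ η ε₁ ε₂ ε : ℝ) (hβ : 0 < β) (hθ : 0 < θ) (hθβ : θ ≤ β)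
    (hβ2 : β ≤ 9 / 11 - 20 * θ) (hη : 0 < η) (hη1 : η ≤ 1) (hε₁ : 0 < ε₁) (hε₁₂ : ε₁ < ε₂)
    (hε : 16 * ε₂ ≤ θ) (he : 0 < ε) :
    ∃ k0 : ℝ, ∀ k n : ℕ, k0 ≤ k → (k : ℝ) ^ (1 + β - ε₂) ≤ n → (n : ℝ) ≤ (k : ℝ) ^ (1 + β + ε₂) →
      ∀ μ lam : ℝ, η ≤ μ → 0 ≤ lam → μ + lam ≤ β + 2 * ε₂ →
        (1 + β - μ - lam - 3 * ε₂) * CC k ε₁ ε₂ μ lam n k ≤ k * (LL k ε₁ ε₂ * lam + ε) ∧
        k * (LL k ε₁ ε₂ * lam - ε) ≤ (1 + β - μ + 2 * ε₂) * CC k ε₁ ε₂ μ lam n k := by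
  have hε₂ : 0 < ε₂ := hε₁.trans hε₁₂
  have hε50 : ε₂ ≤ 1 / 50 := by linarith
  have hβ34 : β ≤ 9 / 11 := by linarith
  obtain ⟨K1, hK1⟩ := AT β θ η ε₁ ε₂ ε hβ hθ hθβ hβ2 hη hη1 hε₁ hε₁₂ hε he
  obtain ⟨K2, hK2⟩ := AT β θ η ε₁ ε₂ (ε / 2) hβ hθ hθβ hβ2 hη hη1 hε₁ hε₁₂ hε (by positivity)
  obtain ⟨K3, hK3⟩ := pp_bound β ε₁ ε₂ hβ hβ34 hε₁ hε₁₂ hε50
  refine ⟨max (max K1 (max K2 K3)) (max (Real.exp 1) (max (Real.exp (Real.log 2 / ε₂))
    ((2 / ε) ^ 50))), ?_⟩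
  intro k n hk hn1 hn2 μ lam hμ hlam hμlam
  have hA := (le_max_left _ _).trans hk
  have hB := (le_max_right _ _).trans hk
  have hk1 : K1 ≤ k := (le_max_left _ _).trans hA
  have hA2 := (le_max_right _ _).trans hA
  have hk2 : K2 ≤ k := (le_max_left _ _).trans hA2
  have hk3 : K3 ≤ k := (le_max_right _ _).trans hA2
  have hke : Real.exp 1 ≤ k := (le_max_left _ _).trans hB
  have hB2 := (le_max_right _ _).trans hB
  have hkl : Real.exp (Real.log 2 / ε₂) ≤ k := (le_max_left _ _).trans hB2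
  have hkp : (2 / ε) ^ 50 ≤ (k : ℝ) := (le_max_right _ _).trans hB2
  have hk0 : (0 : ℝ) < k := (Real.exp_pos 1).trans_le hke
  have hℓ1 : 1 ≤ Real.log k := by
    rw [Real.le_log_iff_exp_le hk0]
    exact hke
  have hk1' : (1 : ℝ) ≤ k := (Real.one_le_exp zero_le_one).trans hke
  have hℓ2 : Real.log 2 ≤ ε₂ * Real.log k := by
    have h1 : Real.log 2 / ε₂ ≤ Real.log k := by
      rw [Real.le_log_iff_exp_le hk0]
      exact hkl
    rwa [div_le_iff₀' hε₂] at h1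
  have hk9 : (k : ℝ) ^ ((49 : ℝ) / 50) ≤ ε / 2 * k * Real.log k := by
    have h1 : 2 / ε ≤ (k : ℝ) ^ ((1 : ℝ) / 50) := by
      have h2 := Real.rpow_le_rpow (by positivity) hkp (by norm_num : (0 : ℝ) ≤ ((50 : ℕ) : ℝ)⁻¹)
      rw [Real.pow_rpow_inv_natCast (by positivity) (by norm_num)] at h2
      have h3 : (((50 : ℕ) : ℝ)⁻¹) = (1 : ℝ) / 50 := by norm_num
      rwa [h3] at h2
    have h2 : (k : ℝ) ^ ((49 : ℝ) / 50) * (k : ℝ) ^ ((1 : ℝ) / 50) = k := by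
      rw [← Real.rpow_add hk0]
      norm_num
    have h3 : 0 ≤ (k : ℝ) ^ ((49 : ℝ) / 50) := Real.rpow_nonneg hk0.le _
    have h4 : (k : ℝ) ^ ((49 : ℝ) / 50) * (2 / ε) ≤ k := by
      calc (k : ℝ) ^ ((49 : ℝ) / 50) * (2 / ε) ≤
          (k : ℝ) ^ ((49 : ℝ) / 50) * (k : ℝ) ^ ((1 : ℝ) / 50) := mul_le_mul_of_nonneg_left h1 h3
        _ = k := h2
    have h5 : (k : ℝ) ^ ((49 : ℝ) / 50) ≤ ε / 2 * k := by
      have h6 := mul_le_mul_of_nonneg_left h4 (by positivity : 0 ≤ ε / 2)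
      have h7 : ε / 2 * ((k : ℝ) ^ ((49 : ℝ) / 50) * (2 / ε)) = (k : ℝ) ^ ((49 : ℝ) / 50) := by
        field_simp
      rwa [h7] at h6
    have h6 : 0 ≤ ε / 2 * k := by positivity
    calc (k : ℝ) ^ ((49 : ℝ) / 50) ≤ ε / 2 * k := h5
      _ = ε / 2 * k * 1 := (mul_one _).symm
      _ ≤ ε / 2 * k * Real.log k := mul_le_mul_of_nonneg_left hℓ1 h6
  have hlog := fun {q m l : ℕ} (hq : q ∈ Qs k ε₁ ε₂) (hm : m ∈ Ms k μ (μ + lam)) (hl : 0 < l)
    (h1 : n < q * m * l) (h2 : q * m * l ≤ n + k) =>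
    d3_log hk1' hε₂.le hℓ2 (by linarith) hn1 hn2 hq hm hl h1 h2
  have hℓ0 : 0 < Real.log k := by linarith
  -- lower bound
  have c1 : (1 + β - μ - lam - 3 * ε₂) * Real.log k * CC k ε₁ ε₂ μ lam n k ≤
      AA k ε₁ ε₂ μ lam n k := by
    unfold CC AA
    rw [mul_sum]
    refine sum_le_sum fun q hq => ?_
    rw [mul_sum]
    refine sum_le_sum fun m hm => ?_
    rw [mul_sum]
    refine sum_le_sum fun l hl => ?_
    by_cases h1 : n < q * m * l ∧ q * m * l ≤ n + k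
    · by_cases h2 : l.Prime
      · rw [if_pos ⟨h2, h1⟩, if_pos h1, mul_one, ArithmeticFunction.vonMangoldt_apply_prime h2]
        exact (hlog hq hm h2.pos h1.1 h1.2).1
      · rw [if_neg (fun h => h2 h.1), if_pos h1, mul_zero]
        exact ArithmeticFunction.vonMangoldt_nonneg
    · rw [if_neg (fun h => h1 h.2), if_neg h1, mul_zero]
  -- upper bound
  have c2 : AA k ε₁ ε₂ μ lam n k ≤
      (1 + β - μ + 2 * ε₂) * Real.log k * CC k ε₁ ε₂ μ lam n k +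
      ∑ q ∈ Qs k ε₁ ε₂, ∑ m ∈ Ms k μ (μ + lam), ∑ l ∈ Ms k (1 / 2) 2,
        (if ¬ l.Prime ∧ n < q * m * l ∧ q * m * l ≤ n + k
          then ArithmeticFunction.vonMangoldt l else 0) := by
    unfold CC AA
    rw [mul_sum, ← sum_add_distrib]
    refine sum_le_sum fun q hq => ?_
    rw [mul_sum, ← sum_add_distrib]
    refine sum_le_sum fun m hm => ?_
    rw [mul_sum, ← sum_add_distrib]
    refine sum_le_sum fun l hl => ?_
    by_cases h1 : n < q * m * l ∧ q * m * l ≤ n + k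
    · by_cases h2 : l.Prime
      · rw [if_pos h1, if_pos ⟨h2, h1⟩, mul_one, ArithmeticFunction.vonMangoldt_apply_prime h2,
          if_neg (fun h => h.1 h2), add_zero]
        exact (hlog hq hm h2.pos h1.1 h1.2).2
      · rw [if_pos h1, if_neg (fun h => h2 h.1), mul_zero, if_pos ⟨h2, h1⟩, zero_add]
    · rw [if_neg h1, if_neg (fun h => h1 h.2), mul_zero, if_neg (fun h => h1 h.2), add_zero]
  have a1 := (abs_le.1 (hK1 k n hk1 hn1 hn2 μ lam hμ hlam hμlam)).2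
  have a2 := (abs_le.1 (hK2 k n hk2 hn1 hn2 μ lam hμ hlam hμlam)).1
  have a3 := hK3 k n hk3 hn1 hn2 μ lam (hη.le.trans hμ) hlam hμlam
  constructor
  · have h1 : ((1 + β - μ - lam - 3 * ε₂) * CC k ε₁ ε₂ μ lam n k) * Real.log k ≤
        (k * (LL k ε₁ ε₂ * lam + ε)) * Real.log k := by
      have e1 : ((1 + β - μ - lam - 3 * ε₂) * CC k ε₁ ε₂ μ lam n k) * Real.log k =
        (1 + β - μ - lam - 3 * ε₂) * Real.log k * CC k ε₁ ε₂ μ lam n k := by ring
      have e2 : (k * (LL k ε₁ ε₂ * lam + ε)) * Real.log k =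
        k * (LL k ε₁ ε₂ * (lam * Real.log k)) + ε * k * Real.log k := by ring
      rw [e1, e2]
      linarith
    exact le_of_mul_le_mul_right h1 hℓ0
  · have h1 : (k * (LL k ε₁ ε₂ * lam - ε)) * Real.log k ≤
        ((1 + β - μ + 2 * ε₂) * CC k ε₁ ε₂ μ lam n k) * Real.log k := by
      have e1 : ((1 + β - μ + 2 * ε₂) * CC k ε₁ ε₂ μ lam n k) * Real.log k =
        (1 + β - μ + 2 * ε₂) * Real.log k * CC k ε₁ ε₂ μ lam n k := by ring
      have e2 : (k * (LL k ε₁ ε₂ * lam - ε)) * Real.log k =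
        k * (LL k ε₁ ε₂ * (lam * Real.log k)) - 2 * (ε / 2 * k * Real.log k) := by ring
      rw [e1, e2]
      linarith
    exact le_of_mul_le_mul_right h1 hℓ0

end Pool.Agent.Lib.MP_9a8698_nt
end

section

/-!
D7. Final assembly: the number of integers in `(n, n+k]` with a prime factor above `k`.
-/

set_option autoImplicit false

open Finset

namespace Pool.Agent.Lib.MP_9a8698_nt

/-- Upper bound for the number of integers with a large cofactor, given the bounds for the triples. -/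
theorem asm_upper (L K b x lam ep f S : ℝ) (I : ℕ) (C : ℕ → ℝ) (hL : 1 ≤ L) (hK : 0 < K)
    (hlam : 0 < lam) (hep : 0 ≤ ep) (hx : 1 / 2 ≤ x - I * lam)
    (hC : ∀ i < I, (x - i * lam) * C i ≤ K * (L * lam + ep))
    (hS : S ≤ ∑ i ∈ range I, C i) (hf : L * f ≤ S + K * b) :
    f / K ≤ Real.log (x / (x - I * lam)) + 2 * ep * I + b / L := by
  have hL0 : 0 < L := by linarith
  have h1 : ∀ i ∈ range I, C i ≤ K * L * (lam / (x - i * lam)) + 2 * K * ep := by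
    intro i hi
    have hi' : i < I := mem_range.mp hi
    have hi2 : (i : ℝ) * lam ≤ I * lam := by
      have : (i : ℝ) ≤ I := by exact_mod_cast hi'.le
      nlinarith
    have hxi : 1 / 2 ≤ x - i * lam := by linarith
    have hxi0 : 0 < x - i * lam := by linarith
    have h2 := hC i hi'
    have h3 : C i ≤ K * (L * lam + ep) / (x - i * lam) := by
      rw [le_div_iff₀ hxi0]; linarith
    have h4 : K * (L * lam + ep) / (x - i * lam) =
        K * L * (lam / (x - i * lam)) + K * ep / (x - i * lam) := by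
      field_simp
    have h5 : K * ep / (x - i * lam) ≤ 2 * K * ep := by
      rw [div_le_iff₀ hxi0]
      have : 0 ≤ K * ep := by positivity
      nlinarith
    linarith
  have h2 := Finset.sum_le_sum h1
  rw [Finset.sum_add_distrib, ← Finset.mul_sum, Finset.sum_const, card_range, nsmul_eq_mul] at h2
  have h3 := sum_upper x lam I hlam (by linarith)
  have hKL : 0 < K * L := by positivity
  have h4 : K * L * ∑ i ∈ range I, lam / (x - i * lam) ≤
      K * L * Real.log (x / (x - I * lam)) := by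
    apply mul_le_mul_of_nonneg_left h3 hKL.le
  have h5 : L * f ≤ K * L * Real.log (x / (x - I * lam)) + I * (2 * K * ep) + K * b := by
    linarith
  have h6 : f ≤ K * (Real.log (x / (x - I * lam)) + 2 * ep * I + b / L) := by
    have h7 : L * (K * (Real.log (x / (x - I * lam)) + 2 * ep * I + b / L)) =
        K * L * Real.log (x / (x - I * lam)) + L * (I * (2 * K * ep)) + K * b := by
      field_simp
    have h8 : (I : ℝ) * (2 * K * ep) ≤ L * (I * (2 * K * ep)) := by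
      have : 0 ≤ (I : ℝ) * (2 * K * ep) := by positivity
      nlinarith
    have h9 : L * f ≤ L * (K * (Real.log (x / (x - I * lam)) + 2 * ep * I + b / L)) := by
      rw [h7]; linarith
    exact le_of_mul_le_mul_left h9 hL0
  rw [div_le_iff₀ hK]
  linarith

/-- Lower bound. -/
theorem asm_lower (L K b y lam ep f S : ℝ) (J : ℕ) (C : ℕ → ℝ) (hL : 1 ≤ L) (hK : 0 < K)
    (hlam : 0 < lam) (hep : 0 ≤ ep) (hy : 1 ≤ y + lam - J * lam)
    (hC : ∀ i < J, K * (L * lam - ep) ≤ (y - i * lam) * C i)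
    (hS : ∑ i ∈ range J, C i ≤ S) (hf : S ≤ L * f + K * b) :
    Real.log ((y + lam) / (y + lam - J * lam)) - ep * J - b / L ≤ f / K := by
  have hL0 : 0 < L := by linarith
  have h1 : ∀ i ∈ range J, K * L * (lam / (y - i * lam)) - K * ep ≤ C i := by
    intro i hi
    have hi' : i < J := mem_range.mp hi
    have hi2 : (i : ℝ) * lam + lam ≤ J * lam := by
      have : (i : ℝ) + 1 ≤ J := by exact_mod_cast hi'
      nlinarith
    have hyi : 1 ≤ y - i * lam := by linarith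
    have hyi0 : 0 < y - i * lam := by linarith
    have h2 := hC i hi'
    have h3 : K * (L * lam - ep) / (y - i * lam) ≤ C i := by
      rw [div_le_iff₀ hyi0]; linarith
    have h4 : K * (L * lam - ep) / (y - i * lam) =
        K * L * (lam / (y - i * lam)) - K * ep / (y - i * lam) := by
      field_simp
    have h5 : K * ep / (y - i * lam) ≤ K * ep := by
      rw [div_le_iff₀ hyi0]
      have : 0 ≤ K * ep := by positivity
      nlinarith
    linarith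
  have h2 := Finset.sum_le_sum h1
  rw [Finset.sum_sub_distrib, ← Finset.mul_sum, Finset.sum_const, card_range, nsmul_eq_mul] at h2
  have h3 := sum_lower y lam J hlam (by linarith)
  have hKL : 0 < K * L := by positivity
  have h4 : K * L * Real.log ((y + lam) / (y + lam - J * lam)) ≤
      K * L * ∑ i ∈ range J, lam / (y - i * lam) := by
    apply mul_le_mul_of_nonneg_left h3 hKL.le
  have h6 : K * (Real.log ((y + lam) / (y + lam - J * lam)) - ep * J - b / L) ≤ f := by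
    have h7 : L * (K * (Real.log ((y + lam) / (y + lam - J * lam)) - ep * J - b / L)) =
        K * L * Real.log ((y + lam) / (y + lam - J * lam)) - L * (J * (K * ep)) - K * b := by
      field_simp
    have h8 : (J : ℝ) * (K * ep) ≤ L * (J * (K * ep)) := by
      have : 0 ≤ (J : ℝ) * (K * ep) := by positivity
      nlinarith
    have h9 : L * (K * (Real.log ((y + lam) / (y + lam - J * lam)) - ep * J - b / L)) ≤ L * f := by
      rw [h7]; linarith
    exact le_of_mul_le_mul_left h9 hL0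
  rw [le_div_iff₀ hK]
  linarith

/-- `√(3L+1)/L ≤ ε/4` and `(3L+1)/L² ≤ ε/4` for large `L`. -/
theorem asm_L (ε L : ℝ) (he : 0 < ε) (hL : 1 + 16 / ε + 64 / ε ^ 2 ≤ L) :
    1 ≤ L ∧ Real.sqrt (3 * L + 1) / L ≤ ε / 4 ∧ (3 * L + 1) ≤ ε / 4 * L ^ 2 := by
  have h1 : 0 < 16 / ε := by positivity
  have h2 : 0 < 64 / ε ^ 2 := by positivity
  have hL1 : 1 ≤ L := by linarith
  have hL0 : 0 < L := by linarith
  have h3 : 16 / ε ≤ L := by linarith
  have h4 : 64 / ε ^ 2 ≤ L := by linarith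
  have h5 : 16 ≤ L * ε := by rwa [div_le_iff₀ he] at h3
  have h6 : 64 ≤ L * ε ^ 2 := by rwa [div_le_iff₀ (by positivity)] at h4
  refine ⟨hL1, ?_, ?_⟩
  · rw [div_le_iff₀ hL0]
    apply Real.sqrt_le_iff.mpr
    refine ⟨by positivity, ?_⟩
    have : (ε / 4 * L) ^ 2 = (L * ε ^ 2) * L / 16 := by ring
    rw [this]
    nlinarith
  · nlinarith

theorem main_count (β ε : ℝ) (hβ : 0 < β) (hβ2 : β < 9 / 11) (he : 0 < ε) :
    ∃ δ : ℝ, 0 < δ ∧ ∃ k0 : ℝ, ∀ k n : ℕ, k0 ≤ k → (k : ℝ) ^ (1 + β - δ) ≤ n →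
      (n : ℝ) ≤ (k : ℝ) ^ (1 + β + δ) →
        |(#(FF k n) : ℝ) / k - Real.log (1 + β)| ≤ ε := by
  -- the parameters
  obtain ⟨θ, hθ, hθβ, hθ2⟩ : ∃ θ : ℝ, 0 < θ ∧ θ ≤ β ∧ β ≤ 9 / 11 - 20 * θ := by
    refine ⟨min β ((9 / 11 - β) / 20), lt_min hβ (by linarith), min_le_left _ _, ?_⟩
    have := min_le_right β ((9 / 11 - β) / 20)
    linarith
  obtain ⟨L0, hL0⟩ : ∃ L0 : ℝ, L0 = 1 + 16 / ε + 64 / ε ^ 2 := ⟨_, rfl⟩
  have hL0pos : 1 ≤ L0 := by
    have h1 : 0 < 16 / ε := by positivity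
    have h2 : 0 < 64 / ε ^ 2 := by positivity
    rw [hL0]; linarith
  obtain ⟨η, hη0, hηβ, hηε, hηL⟩ : ∃ η : ℝ, 0 < η ∧ η ≤ β / 2 ∧ η ≤ ε / 8 ∧
      η ≤ 1 / 2 * Real.exp (-(4 * (L0 + 1))) := by
    refine ⟨min (β / 2) (min (ε / 8) (1 / 2 * Real.exp (-(4 * (L0 + 1))))), ?_, min_le_left _ _,
      (min_le_right _ _).trans (min_le_left _ _), (min_le_right _ _).trans (min_le_right _ _)⟩
    exact lt_min (by linarith) (lt_min (by linarith) (by positivity))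
  obtain ⟨e₂, he₂0, he₂θ, he₂η, he₂ε, he₂50⟩ : ∃ e₂ : ℝ, 0 < e₂ ∧ 16 * e₂ ≤ θ ∧ e₂ ≤ η / 8 ∧
      e₂ ≤ ε / 100 ∧ e₂ ≤ 1 / 50 := by
    refine ⟨min (θ / 16) (min (η / 8) (min (ε / 100) (1 / 50))), ?_, ?_, ?_, ?_, ?_⟩
    · exact lt_min (by linarith) (lt_min (by linarith) (lt_min (by linarith) (by norm_num)))
    · have := min_le_left (θ / 16) (min (η / 8) (min (ε / 100) (1 / 50)))
      linarith
    · exact (min_le_right _ _).trans (min_le_left _ _)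
    · exact (min_le_right _ _).trans ((min_le_right _ _).trans (min_le_left _ _))
    · exact (min_le_right _ _).trans ((min_le_right _ _).trans (min_le_right _ _))
  obtain ⟨e₁, he₁⟩ : ∃ e₁ : ℝ, e₁ = e₂ * Real.exp (-(4 * (L0 + 1))) := ⟨_, rfl⟩
  have hexp1 : Real.exp (-(4 * (L0 + 1))) < 1 := by
    rw [Real.exp_lt_one_iff]; linarith
  have he₁0 : 0 < e₁ := by rw [he₁]; positivity
  have he₁₂ : e₁ < e₂ := by
    rw [he₁]; nlinarith
  have hη1 : η < 1 / 2 := by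
    have := Real.exp_pos (-(4 * (L0 + 1)))
    linarith
  have hβ1 : β ≤ 9 / 11 := hβ2.le
  -- the number of pieces
  obtain ⟨I, hI1, hI2⟩ : ∃ I : ℕ, β + e₂ ≤ η - e₂ + I * e₂ ∧ η - e₂ + I * e₂ ≤ β + 2 * e₂ := by
    have h0 : 0 ≤ (β + 2 * e₂ - η) / e₂ := by
      apply div_nonneg _ he₂0.le; linarith
    refine ⟨⌈(β + 2 * e₂ - η) / e₂⌉₊, ?_, ?_⟩
    · have h1 := Nat.le_ceil ((β + 2 * e₂ - η) / e₂)
      rw [div_le_iff₀ he₂0] at h1
      linarith
    · have h1 := Nat.ceil_lt_add_one h0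
      have h2 : (⌈(β + 2 * e₂ - η) / e₂⌉₊ : ℝ) * e₂ ≤ ((β + 2 * e₂ - η) / e₂ + 1) * e₂ := by
        apply mul_le_mul_of_nonneg_right h1.le he₂0.le
      have h3 : ((β + 2 * e₂ - η) / e₂ + 1) * e₂ = β + 2 * e₂ - η + e₂ := by
        field_simp
      linarith
  obtain ⟨J, hJ1, hJ2⟩ : ∃ J : ℕ, η + J * e₂ ≤ β - 3 * e₂ ∧ β - 4 * e₂ ≤ η + J * e₂ := by
    have h0 : 0 ≤ (β - 3 * e₂ - η) / e₂ := by
      apply div_nonneg _ he₂0.le; linarith
    refine ⟨⌊(β - 3 * e₂ - η) / e₂⌋₊, ?_, ?_⟩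
    · have h1 := Nat.floor_le h0
      rw [le_div_iff₀ he₂0] at h1
      linarith
    · have h1 := Nat.lt_floor_add_one ((β - 3 * e₂ - η) / e₂)
      rw [div_lt_iff₀ he₂0] at h1
      linarith
  obtain ⟨ep, hep⟩ : ∃ ep : ℝ, ep = ε / (16 * (I + J + 1)) := ⟨_, rfl⟩
  have hep0 : 0 < ep := by rw [hep]; positivity
  have hepI : 2 * ep * I ≤ ε / 8 := by
    rw [hep, show 2 * (ε / (16 * ((I : ℝ) + J + 1))) * I = ε / 8 * (I / (I + J + 1)) by
      field_simp; ring]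
    have : (I : ℝ) / (I + J + 1) ≤ 1 := by
      rw [div_le_one (by positivity)]
      have : (0 : ℝ) ≤ J := by positivity
      linarith
    have h8 : 0 < ε / 8 := by positivity
    nlinarith
  have hepJ : ep * J ≤ ε / 8 := by
    rw [hep, show (ε / (16 * ((I : ℝ) + J + 1))) * J = ε / 16 * (J / (I + J + 1)) by
      field_simp]
    have : (J : ℝ) / (I + J + 1) ≤ 1 := by
      rw [div_le_one (by positivity)]
      have : (0 : ℝ) ≤ I := by positivity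
      linarith
    have h8 : 0 < ε / 16 := by positivity
    nlinarith
  -- the thresholds
  obtain ⟨k1, hk1⟩ := CC_bounds β θ (η / 2) e₁ e₂ ep hβ hθ hθβ hθ2 (by linarith) (by linarith)
    he₁0 he₁₂ he₂θ hep0
  obtain ⟨k2, hk2⟩ := SS_le β η e₁ e₂ e₂ I hβ hβ1 hη0 he₁0 he₁₂ he₂50 he₂0 hI1
  obtain ⟨k3, hk3⟩ := SS_ge β η e₁ e₂ e₂ J hβ hβ1 hη0 he₁0 he₁₂ he₂50 he₂0 hJ1
  obtain ⟨k4, hk4⟩ := LL_lower e₁ e₂ he₁0 he₁₂
  obtain ⟨k5, hk5⟩ := LL_lower η (1 / 2) hη0 hη1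
  refine ⟨e₂, he₂0, max 1 (max k1 (max k2 (max k3 (max k4 k5)))), ?_⟩
  intro k n hk hn1 hn2
  have hk' : (1 : ℝ) ≤ k := (le_max_left _ _).trans hk
  have hkk := (le_max_right _ _).trans hk
  have hkk1 := (le_max_left _ _).trans hkk
  have hkk1' := (le_max_right _ _).trans hkk
  have hkk2 := (le_max_left _ _).trans hkk1'
  have hkk2' := (le_max_right _ _).trans hkk1'
  have hkk3 := (le_max_left _ _).trans hkk2'
  have hkk3' := (le_max_right _ _).trans hkk2'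
  have hkk4 := (le_max_left _ _).trans hkk3'
  have hkk5 := (le_max_right _ _).trans hkk3'
  have hkN : 1 ≤ k := by exact_mod_cast hk'
  have hk0 : (0 : ℝ) < k := by linarith
  have hCC := hk1 k n hkk1 hn1 hn2
  have hSle := hk2 k n hkk2 hn1 hn2
  have hSge := hk3 k n hkk3 hn1 hn2
  have hL := hk4 k hkk4
  have hL' := hk5 k hkk5
  -- the two sums over primes are large
  have hLL : L0 ≤ LL k e₁ e₂ := by
    have h1 : Real.log (e₂ / e₁) = 4 * (L0 + 1) := by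
      rw [he₁, show e₂ / (e₂ * Real.exp (-(4 * (L0 + 1)))) = Real.exp (4 * (L0 + 1)) by
        rw [Real.exp_neg]; field_simp, Real.log_exp]
    rw [h1] at hL
    linarith
  have hLL' : L0 ≤ LL k η (1 / 2) := by
    have h1 : 4 * (L0 + 1) ≤ Real.log (1 / 2 / η) := by
      rw [Real.le_log_iff_exp_le (by positivity), le_div_iff₀ hη0]
      have h2 : Real.exp (4 * (L0 + 1)) * η ≤
          Real.exp (4 * (L0 + 1)) * (1 / 2 * Real.exp (-(4 * (L0 + 1)))) := by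
        apply mul_le_mul_of_nonneg_left hηL (Real.exp_pos _).le
      have h3 : Real.exp (4 * (L0 + 1)) * (1 / 2 * Real.exp (-(4 * (L0 + 1)))) = 1 / 2 := by
        rw [Real.exp_neg]; field_simp
      linarith
    linarith
  obtain ⟨hLa, hLb, -⟩ := asm_L ε (LL k e₁ e₂) he (by rw [← hL0]; exact hLL)
  obtain ⟨hLa', -, hLc'⟩ := asm_L ε (LL k η (1 / 2)) he (by rw [← hL0]; exact hLL')
  have hTK := SS_close k n η e₁ e₂ hkN (by linarith)
  have hTK' := small_cofactor k n η hkN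
  rw [abs_le] at hTK
  -- upper bound for the large cofactors
  have hx : 1 + β - η - 3 * e₂ - I * e₂ ≥ 1 - 6 * e₂ := by linarith
  have hup : (#(FB k n η) : ℝ) / k ≤
      Real.log ((1 + β - η - 3 * e₂) / (1 + β - η - 3 * e₂ - I * e₂)) + 2 * ep * I +
        Real.sqrt (3 * LL k e₁ e₂ + 1) / LL k e₁ e₂ := by
    refine asm_upper (LL k e₁ e₂) k (Real.sqrt (3 * LL k e₁ e₂ + 1)) (1 + β - η - 3 * e₂) e₂ ep
      (#(FB k n η)) (SS k n η e₁ e₂) I (fun i => CC k e₁ e₂ (η - e₂ + i * e₂) e₂ n k) hLa hk0 he₂0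
      hep0.le (by linarith) ?_ hSle (by linarith [hTK.1])
    intro i hi
    have hi1 : (i : ℝ) + 1 ≤ I := by exact_mod_cast hi
    have hi2 : ((i : ℝ) + 1) * e₂ ≤ I * e₂ := mul_le_mul_of_nonneg_right hi1 he₂0.le
    have hi3 : 0 ≤ (i : ℝ) * e₂ := by positivity
    have h1 := (hCC (η - e₂ + i * e₂) e₂ (by linarith) he₂0.le (by linarith)).1
    have h2 : 1 + β - η - 3 * e₂ - i * e₂ = 1 + β - (η - e₂ + i * e₂) - e₂ - 3 * e₂ := by ring
    rw [h2]
    exact h1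
  have hlo : Real.log ((1 + β - η + 2 * e₂ + e₂) / (1 + β - η + 2 * e₂ + e₂ - J * e₂)) - ep * J -
      Real.sqrt (3 * LL k e₁ e₂ + 1) / LL k e₁ e₂ ≤ (#(FB k n η) : ℝ) / k := by
    refine asm_lower (LL k e₁ e₂) k (Real.sqrt (3 * LL k e₁ e₂ + 1)) (1 + β - η + 2 * e₂) e₂ ep
      (#(FB k n η)) (SS k n η e₁ e₂) J (fun i => CC k e₁ e₂ (η + i * e₂) e₂ n k) hLa hk0 he₂0
      hep0.le (by linarith) ?_ hSge (by linarith [hTK.2])
    intro i hi
    have hi1 : (i : ℝ) + 1 ≤ J := by exact_mod_cast hi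
    have hi2 : ((i : ℝ) + 1) * e₂ ≤ J * e₂ := mul_le_mul_of_nonneg_right hi1 he₂0.le
    have hi3 : 0 ≤ (i : ℝ) * e₂ := by positivity
    have h1 := (hCC (η + i * e₂) e₂ (by linarith) he₂0.le (by linarith)).2
    have h2 : 1 + β - η + 2 * e₂ - i * e₂ = 1 + β - (η + i * e₂) + 2 * e₂ := by ring
    rw [h2]
    exact h1
  -- the logarithms
  have hlog1 : Real.log ((1 + β - η - 3 * e₂) / (1 + β - η - 3 * e₂ - I * e₂)) ≤
      Real.log (1 + β) + ε / 8 := by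
    have h1 : (1 + β - η - 3 * e₂) / (1 + β - η - 3 * e₂ - I * e₂) ≤
        (1 + β) * (1 / (1 - 6 * e₂)) := by
      rw [mul_one_div]
      apply div_le_div₀ (by linarith) (by linarith) (by linarith) (by linarith)
    have h2 : 0 < (1 + β - η - 3 * e₂) / (1 + β - η - 3 * e₂ - I * e₂) := by
      apply div_pos <;> linarith
    have h3 := Real.log_le_log h2 h1
    have h4 : (0 : ℝ) < 1 / (1 - 6 * e₂) := by
      apply div_pos <;> linarith
    rw [Real.log_mul (by linarith) h4.ne'] at h3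
    have h5 := Real.log_le_sub_one_of_pos h4
    have h6 : 1 / (1 - 6 * e₂) ≤ 1 + 12 * e₂ := by
      rw [div_le_iff₀ (by linarith)]
      nlinarith
    linarith
  have hlog2 : Real.log (1 + β) - ε / 4 ≤
      Real.log ((1 + β - η + 2 * e₂ + e₂) / (1 + β - η + 2 * e₂ + e₂ - J * e₂)) := by
    have h1 : (1 + β) / ((1 + η) * (1 + 7 * e₂)) ≤
        (1 + β - η + 2 * e₂ + e₂) / (1 + β - η + 2 * e₂ + e₂ - J * e₂) := by
      have h2 : (1 + β) / ((1 + η) * (1 + 7 * e₂)) ≤ (1 + β - η) / (1 + 7 * e₂) := by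
        rw [← div_div]
        apply div_le_div_of_nonneg_right _ (by linarith)
        rw [div_le_iff₀ (by linarith)]
        nlinarith
      refine h2.trans ?_
      apply div_le_div₀ (by linarith) (by linarith) (by linarith) (by linarith)
    have h2 : 0 < (1 + β) / ((1 + η) * (1 + 7 * e₂)) := by positivity
    have h3 := Real.log_le_log h2 h1
    rw [Real.log_div (by linarith) (by positivity), Real.log_mul (by positivity) (by positivity)]
      at h3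
    have h4 := Real.log_le_sub_one_of_pos (show (0 : ℝ) < 1 + η by linarith)
    have h5 := Real.log_le_sub_one_of_pos (show (0 : ℝ) < 1 + 7 * e₂ by linarith)
    linarith
  -- the small cofactors
  have hsub : (#(FB k n η) : ℝ) ≤ #(FF k n) := by
    exact_mod_cast Finset.card_le_card (FB_subset k n η)
  have hsm : ((#(FF k n) : ℝ) - #(FB k n η)) / k ≤ ε / 4 := by
    have hLp : 0 < LL k η (1 / 2) ^ 2 := by positivity
    have h1 : ((#(FF k n) : ℝ) - #(FB k n η)) * LL k η (1 / 2) ^ 2 ≤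
        (k * (ε / 4)) * LL k η (1 / 2) ^ 2 := by
      have h2 : (k : ℝ) * (3 * LL k η (1 / 2) + 1) ≤ k * (ε / 4 * LL k η (1 / 2) ^ 2) :=
        mul_le_mul_of_nonneg_left hLc' hk0.le
      calc _ ≤ _ := hTK'
        _ ≤ _ := h2
        _ = _ := by ring
    have h3 := le_of_mul_le_mul_right h1 hLp
    rw [div_le_iff₀ hk0]
    linarith
  have hsplit : (#(FF k n) : ℝ) / k =
      (#(FB k n η) : ℝ) / k + ((#(FF k n) : ℝ) - #(FB k n η)) / k := by
    rw [← add_div]; congr 1; ring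
  have hsm0 : 0 ≤ ((#(FF k n) : ℝ) - #(FB k n η)) / k := by
    apply div_nonneg _ hk0.le; linarith
  rw [hsplit, abs_le]
  constructor
  · linarith
  · linarith

/-- The theorem in the form of the frozen statement, for `1 < α < 7/4`. -/
theorem main (ρ : ℝ → ℝ) (h1 : ∀ u ∈ Set.Icc (0 : ℝ) 1, ρ u = 1)
    (h2 : ∀ u : ℝ, 1 ≤ u → ρ u = 1 - ∫ t in (1 : ℝ)..u, ρ (t - 1) / t) (α : ℝ) (hα : 1 < α)
    (hα2 : α < 20 / 11) (ε : ℝ) (he : 0 < ε) :
    ∃ δ : ℝ, 0 < δ ∧ ∃ K : ℕ, ∀ k n : ℕ, K ≤ k →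
      (k : ℝ) ^ (α - δ) ≤ (n : ℝ) → (n : ℝ) ≤ (k : ℝ) ^ (α + δ) →
        |((((Finset.Icc 1 k).filter
            (fun i => ∃ p ∈ (n + i).primeFactors, k < p)).card : ℝ) / (k : ℝ))
          - (1 - ρ α)| ≤ ε := by
  obtain ⟨δ, hδ, k0, hk0⟩ := main_count (α - 1) ε (by linarith) (by linarith) he
  refine ⟨δ, hδ, ⌈k0⌉₊, fun k n hk hn1 hn2 => ?_⟩
  have hk' : k0 ≤ k := (Nat.le_ceil k0).trans (by exact_mod_cast hk)
  have h3 := hk0 k n hk' (by rw [show 1 + (α - 1) - δ = α - δ by ring]; exact hn1)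
    (by rw [show 1 + (α - 1) + δ = α + δ by ring]; exact hn2)
  rw [FF_card, rho_eq ρ h1 h2 α hα.le (by linarith)]
  rw [show 1 + (α - 1) = α by ring] at h3
  rw [show (1 : ℝ) - (1 - Real.log α) = Real.log α by ring]
  exact h3

end Pool.Agent.Lib.MP_9a8698_nt
end
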